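import Pool.Agent.PLB.AltD

set_option autoImplicit false

/-! Theorem PB, section 3: the alternative division ring of three root groups (pure algebra).

PLAN. `K = Additive C` (commutative: `hC`). `A ≅ C` by `x ↦ ⁅x, b₁⁆`, `B ≅ C` by `b ↦ ⁅x₁, b⁆` (bijective homomorphisms by
`bij_l`, `mul_l`, ..). `xc = toMul`, `xa`, `xb` = the inverses. Product `c * c' = ⁅xa c, xb c'⁆`, distributive by `mul_l`,
`mul_r`; one `= ⁅x₁, b₁⁆`, `xa 1 = x₁`, `xb 1 = b₁`. Left alternative law: `cl_l` with `x = xa c`, `x₁`: for `b = xb c'` and `b'` with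
`⁅x₁, b'⁆ = ⁅x, b⁆` (so `b' = xb (c * c')`) get `c * (c * c') = ⁅x, b'⁆ = ⁅x₂, b⁆ = c₂ * c'` with `c₂ = xa⁻¹ x₂` for all `c'`; `c' = 1`:
`c₂ = c * c`. Left inverses: `cl_l` with `x := x₁`, `x₁ := xa c` (`≠ 1`): `⁅xa c, b'⁆ = ⁅x₁, b⁆ → ⁅x₂, b⁆ = ⁅x₁, b'⁆`, i.e.
`y * (c * c') = c'` for `y = xa⁻¹ x₂`; then `c * (y * z) = z` as `c * ·` is onto (`bij_r`). Right laws by `cl_r`. The left
inverse `y` and the right inverse `w` (`(z * c) * w = z`) agree: `y * c = 1`, `c * w = 1`, `y = y * (c * w) = w`. -/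

namespace Pool.Agent.PLB

open scoped commutatorElement

private theorem alg_xc_inj {G : Type*} [Group G] {A B C : Subgroup G} {K : Type*}
    [NonAssocRing K] {xa xb xc : K → G} (rd : RD A B C K xa xb xc) {a b : K}
    (h : xc a = xc b) : a = b := by
  have h1 : xc (a - b) * xc b = xc b := by
    rw [← rd.c_add, sub_add_cancel, h]
  have h2 : xc (a - b) = 1 := by
    rwa [mul_eq_right] at h1
  exact sub_eq_zero.1 (rd.c_inj _ h2)

private theorem alg_altDiv {G : Type*} [Group G] {A B C : Subgroup G} {K : Type*}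
    [NonAssocRing K] {xa xb xc : K → G} (rd : RD A B C K xa xb xc)
    (bij_l : ∀ b ∈ B, b ≠ 1 → ∀ a ∈ C, ∃! x, x ∈ A ∧ ⁅x, b⁆ = a)
    (bij_r : ∀ x ∈ A, x ≠ 1 → ∀ a ∈ C, ∃! b, b ∈ B ∧ ⁅x, b⁆ = a)
    (cl_l : ∀ x ∈ A, ∀ x₁ ∈ A, x₁ ≠ 1 → ∃ x₂ ∈ A, ∀ b ∈ B, ∀ b₁ ∈ B, ⁅x₁, b₁⁆ = ⁅x, b⁆ →
      ⁅x₂, b⁆ = ⁅x, b₁⁆)
    (cl_r : ∀ b ∈ B, ∀ b₁ ∈ B, b₁ ≠ 1 → ∃ b₂ ∈ B, ∀ x ∈ A, ∀ x₁ ∈ A, ⁅x₁, b₁⁆ = ⁅x, b⁆ →
      ⁅x, b₂⁆ = ⁅x₁, b⁆) (hx : xa 1 ≠ 1) : IsAltDiv K := by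
  have h10 : (1 : K) ≠ 0 := by
    intro h
    have h1 : xa (0 + 0) = xa 0 * xa 0 := rd.a_add 0 0
    rw [add_zero] at h1
    apply hx
    rw [h]
    exact mul_eq_left.1 h1.symm
  have hb : xb 1 ≠ 1 := fun h => h10 (rd.b_inj 1 h)
  have inj : ∀ {a b : K}, xc a = xc b → a = b := fun h => alg_xc_inj rd h
  refine ⟨h10, ?_, ?_, ?_⟩
  · intro c c'
    obtain ⟨x₂, hx₂, h2⟩ := cl_l (xa c) (rd.a_mem c) (xa 1) (rd.a_mem 1) hx
    obtain ⟨c₂, rfl⟩ := rd.a_surj x₂ hx₂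
    have h3 : ∀ z, c₂ * z = c * (c * z) := by
      intro z
      have h4 := h2 (xb z) (rd.b_mem z) (xb (c * z)) (rd.b_mem _) (by
        rw [rd.comm, rd.comm, one_mul])
      rw [rd.comm, rd.comm] at h4
      exact inj h4
    have h5 := h3 1
    rw [mul_one, mul_one] at h5
    rw [← h5, h3]
  · intro c c'
    obtain ⟨x₂, hx₂, h2⟩ := cl_r (xb c) (rd.b_mem c) (xb 1) (rd.b_mem 1) hb
    obtain ⟨c₂, rfl⟩ := rd.b_surj x₂ hx₂
    have h3 : ∀ z, z * c₂ = (z * c) * c := by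
      intro z
      have h4 := h2 (xa z) (rd.a_mem z) (xa (z * c)) (rd.a_mem _) (by
        rw [rd.comm, rd.comm, mul_one])
      rw [rd.comm, rd.comm] at h4
      exact inj h4
    have h5 := h3 1
    rw [one_mul, one_mul] at h5
    rw [← h5, h3]
  · intro c hc
    have hac : xa c ≠ 1 := fun h => hc (rd.a_inj c h)
    have hbc : xb c ≠ 1 := fun h => hc (rd.b_inj c h)
    obtain ⟨x₂, hx₂, h2⟩ := cl_l (xa 1) (rd.a_mem 1) (xa c) (rd.a_mem c) hac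
    obtain ⟨y, rfl⟩ := rd.a_surj x₂ hx₂
    have hy : ∀ z, y * (c * z) = z := by
      intro z
      have h4 := h2 (xb (c * z)) (rd.b_mem _) (xb z) (rd.b_mem _) (by
        rw [rd.comm, rd.comm, one_mul])
      rw [rd.comm, rd.comm, one_mul] at h4
      exact inj h4
    obtain ⟨b₂, hb₂, h3⟩ := cl_r (xb 1) (rd.b_mem 1) (xb c) (rd.b_mem c) hbc
    obtain ⟨w, rfl⟩ := rd.b_surj b₂ hb₂
    have hw : ∀ z, (z * c) * w = z := by
      intro z
      have h4 := h3 (xa (z * c)) (rd.a_mem _) (xa z) (rd.a_mem _) (by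
        rw [rd.comm, rd.comm, mul_one])
      rw [rd.comm, rd.comm, mul_one] at h4
      exact inj h4
    have hyw : y = w := by
      have h5 : c * w = 1 := by
        have h6 := hw 1
        rwa [one_mul] at h6
      have h7 := hy w
      rwa [h5, mul_one] at h7
    subst hyw
    refine ⟨y, hy, ?_, hw, ?_⟩
    · intro z
      obtain ⟨b, ⟨hb1, hb2⟩, _⟩ := bij_r (xa c) (rd.a_mem c) hac (xc z) (rd.c_mem z)
      obtain ⟨u, rfl⟩ := rd.b_surj b hb1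
      rw [rd.comm] at hb2
      rw [← inj hb2, hy]
    · intro z
      obtain ⟨b, ⟨hb1, hb2⟩, _⟩ := bij_l (xb c) (rd.b_mem c) hbc (xc z) (rd.c_mem z)
      obtain ⟨u, rfl⟩ := rd.a_surj b hb1
      rw [rd.comm] at hb2
      rw [← inj hb2, hw]

theorem exists_ring {G : Type*} [Group G] (A B C : Subgroup G)
    (hC : ∀ a ∈ C, ∀ b ∈ C, a * b = b * a)
    (mem : ∀ x ∈ A, ∀ b ∈ B, ⁅x, b⁆ ∈ C)
    (mul_l : ∀ x ∈ A, ∀ x' ∈ A, ∀ b ∈ B, ⁅x * x', b⁆ = ⁅x, b⁆ * ⁅x', b⁆)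
    (mul_r : ∀ x ∈ A, ∀ b ∈ B, ∀ b' ∈ B, ⁅x, b * b'⁆ = ⁅x, b⁆ * ⁅x, b'⁆)
    (bij_l : ∀ b ∈ B, b ≠ 1 → ∀ a ∈ C, ∃! x, x ∈ A ∧ ⁅x, b⁆ = a)
    (bij_r : ∀ x ∈ A, x ≠ 1 → ∀ a ∈ C, ∃! b, b ∈ B ∧ ⁅x, b⁆ = a)
    (cl_l : ∀ x ∈ A, ∀ x₁ ∈ A, x₁ ≠ 1 → ∃ x₂ ∈ A, ∀ b ∈ B, ∀ b₁ ∈ B, ⁅x₁, b₁⁆ = ⁅x, b⁆ →
      ⁅x₂, b⁆ = ⁅x, b₁⁆)
    (cl_r : ∀ b ∈ B, ∀ b₁ ∈ B, b₁ ≠ 1 → ∃ b₂ ∈ B, ∀ x ∈ A, ∀ x₁ ∈ A, ⁅x₁, b₁⁆ = ⁅x, b⁆ →
      ⁅x, b₂⁆ = ⁅x₁, b⁆)
    {x₁ b₁ : G} (hx₁ : x₁ ∈ A) (hx : x₁ ≠ 1) (hb₁ : b₁ ∈ B) (hb : b₁ ≠ 1) :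
    ∃ (i : NonAssocRing (Additive C)) (_ : IsAltDiv (Additive C)) (xa xb xc : Additive C → G),
      RD A B C (Additive C) xa xb xc ∧ xa (1 : Additive C) = x₁ ∧ xb (1 : Additive C) = b₁ := by
  classical
  choose xa' hxa' hxu using fun c : Additive C => bij_l b₁ hb₁ hb
    ((Additive.toMul c : C) : G) (Additive.toMul c).2
  choose xb' hxb' hbu using fun c : Additive C => bij_r x₁ hx₁ hx
    ((Additive.toMul c : C) : G) (Additive.toMul c).2
  have vadd : ∀ a b : Additive C, ((Additive.toMul (a + b) : C) : G) =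
      ((Additive.toMul a : C) : G) * ((Additive.toMul b : C) : G) := fun _ _ => rfl
  have vinj : ∀ a b : Additive C, ((Additive.toMul a : C) : G) = ((Additive.toMul b : C) : G) →
      a = b := fun a b h => Additive.toMul.injective (Subtype.ext h)
  have a_add : ∀ a b, xa' (a + b) = xa' a * xa' b := by
    intro a b
    symm
    apply hxu
    refine ⟨A.mul_mem (hxa' a).1 (hxa' b).1, ?_⟩
    rw [mul_l _ (hxa' a).1 _ (hxa' b).1 _ hb₁, (hxa' a).2, (hxa' b).2, vadd]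
  have b_add : ∀ a b, xb' (a + b) = xb' a * xb' b := by
    intro a b
    symm
    apply hbu
    refine ⟨B.mul_mem (hxb' a).1 (hxb' b).1, ?_⟩
    rw [mul_r _ hx₁ _ (hxb' a).1 _ (hxb' b).1, (hxb' a).2, (hxb' b).2, vadd]
  have a_zero : xa' 0 = 1 := by
    have h := a_add 0 0
    rw [add_zero] at h
    exact mul_eq_left.1 h.symm
  have b_zero : xb' 0 = 1 := by
    have h := b_add 0 0
    rw [add_zero] at h
    exact mul_eq_left.1 h.symm
  let one' : Additive C := Additive.ofMul ⟨⁅x₁, b₁⁆, mem x₁ hx₁ b₁ hb₁⟩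
  have a_one : xa' one' = x₁ := ((hxu one' x₁) ⟨hx₁, rfl⟩).symm
  have b_one : xb' one' = b₁ := ((hbu one' b₁) ⟨hb₁, rfl⟩).symm
  let mul' : Additive C → Additive C → Additive C := fun a b =>
    Additive.ofMul ⟨⁅xa' a, xb' b⁆, mem _ (hxa' a).1 _ (hxb' b).1⟩
  have vmul : ∀ a b, ((Additive.toMul (mul' a b) : C) : G) = ⁅xa' a, xb' b⁆ := fun _ _ => rfl
  let i : NonAssocRing (Additive C) :=
    { (inferInstance : AddGroup (Additive C)) with
      add_comm := fun a b => vinj _ _ (by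
        rw [vadd, vadd]
        exact hC _ (Additive.toMul a).2 _ (Additive.toMul b).2)
      mul := mul'
      one := one'
      left_distrib := fun a b c => vinj _ _ (by
        change ((Additive.toMul (mul' a (b + c)) : C) : G) =
          ((Additive.toMul (mul' a b + mul' a c) : C) : G)
        rw [vadd, vmul, vmul, vmul, b_add, mul_r _ (hxa' a).1 _ (hxb' b).1 _ (hxb' c).1])
      right_distrib := fun a b c => vinj _ _ (by
        change ((Additive.toMul (mul' (a + b) c) : C) : G) =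
          ((Additive.toMul (mul' a c + mul' b c) : C) : G)
        rw [vadd, vmul, vmul, vmul, a_add, mul_l _ (hxa' a).1 _ (hxa' b).1 _ (hxb' c).1])
      zero_mul := fun a => vinj _ _ (by
        change ((Additive.toMul (mul' 0 a) : C) : G) = 1
        rw [vmul, a_zero, commutatorElement_one_left])
      mul_zero := fun a => vinj _ _ (by
        change ((Additive.toMul (mul' a 0) : C) : G) = 1
        rw [vmul, b_zero, commutatorElement_one_right])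
      one_mul := fun a => vinj _ _ (by
        change ((Additive.toMul (mul' one' a) : C) : G) = ((Additive.toMul a : C) : G)
        rw [vmul, a_one, (hxb' a).2])
      mul_one := fun a => vinj _ _ (by
        change ((Additive.toMul (mul' a one') : C) : G) = ((Additive.toMul a : C) : G)
        rw [vmul, b_one, (hxa' a).2]) }
  have rd : @RD G _ A B C (Additive C) i xa' xb' (fun c => ((Additive.toMul c : C) : G)) := by
    let _ := i
    refine ⟨a_add, b_add, vadd, fun a => (hxa' a).1, fun a => (hxb' a).1,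
      fun a => (Additive.toMul a).2, ?_, ?_, ?_, ?_, ?_, ?_, ?_⟩
    · intro g hg
      exact ⟨Additive.ofMul ⟨⁅g, b₁⁆, mem g hg b₁ hb₁⟩, ((hxu _ g) ⟨hg, rfl⟩).symm⟩
    · intro g hg
      exact ⟨Additive.ofMul ⟨⁅x₁, g⁆, mem x₁ hx₁ g hg⟩, ((hbu _ g) ⟨hg, rfl⟩).symm⟩
    · intro g hg
      exact ⟨Additive.ofMul ⟨g, hg⟩, rfl⟩
    · intro a h
      apply vinj
      rw [← (hxa' a).2, h, commutatorElement_one_left]
      rfl
    · intro a h
      apply vinj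
      rw [← (hxb' a).2, h, commutatorElement_one_right]
      rfl
    · intro a h
      exact vinj _ _ h
    · intro a b
      rfl
  refine ⟨i, ?_, xa', xb', fun c => ((Additive.toMul c : C) : G), rd, a_one, b_one⟩
  exact @alg_altDiv G _ A B C (Additive C) i xa' xb' _ rd bij_l bij_r cl_l cl_r
    (fun h => hx (a_one.symm.trans h))

end Pool.Agent.PLB
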