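import Pool.Agent.PLB.AltD

set_option autoImplicit false

/-! Theorem PB, section 4: alternative rings, Artin's theorem.

`AltA_s` is the associator, `AltA_f w x y z = s (w x) y z - x * s w y z - s x y z * w`. Adding the Teichmueller identities for
`w, x, y, z` and `x, y, z, w` gives `f w x y z = - f z w x y`, so `f` is skew symmetric. Artin: `W` is the smallest additive subgroup
which contains `1, x, y` and is closed under left and right multiplication by `x` and `y`; three steps show that the associators of the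
elements of `W` vanish (`AltA_step`). -/

namespace Pool.Agent.PLB

variable {K : Type*} [NonAssocRing K]

private def AltA_s (x y z : K) : K := (x * y) * z - x * (y * z)

private def AltA_f (w x y z : K) : K := AltA_s (w * x) y z - x * AltA_s w y z - AltA_s x y z * w

private theorem AltA_add (x y z z' : K) : AltA_s x y (z + z') = AltA_s x y z + AltA_s x y z' := by
  unfold AltA_s
  simp only [mul_add]
  abel

private theorem AltA_neg (x y z : K) : AltA_s x y (-z) = -AltA_s x y z := by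
  unfold AltA_s
  simp only [mul_neg]
  abel

private theorem AltA_zero (x y : K) : AltA_s x y 0 = 0 := by
  unfold AltA_s
  simp only [mul_zero, sub_zero]

private theorem AltA_one (x y : K) : AltA_s x y 1 = 0 := by
  unfold AltA_s
  simp only [mul_one, sub_self]

private theorem AltA_T (w x y z : K) : AltA_s (w * x) y z - AltA_s w (x * y) z + AltA_s w x (y * z) =
    w * AltA_s x y z + AltA_s w x y * z := by
  unfold AltA_s
  simp only [mul_sub, sub_mul]
  abel

section

variable (hl : ∀ x y : K, x * (x * y) = (x * x) * y) (hr : ∀ x y : K, (y * x) * x = y * (x * x))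

include hl in
private theorem AltA_xx (x z : K) : AltA_s x x z = 0 := by
  unfold AltA_s
  rw [hl, sub_self]

include hr in
private theorem AltA_yy (x z : K) : AltA_s z x x = 0 := by
  unfold AltA_s
  rw [hr, sub_self]

include hl in
private theorem AltA_12 (x y z : K) : AltA_s x y z = -AltA_s y x z := by
  have h : AltA_s x y z + AltA_s y x z = AltA_s (x + y) (x + y) z - AltA_s x x z - AltA_s y y z := by
    unfold AltA_s
    simp only [mul_add, add_mul]
    abel
  rw [AltA_xx hl, AltA_xx hl, AltA_xx hl, sub_zero, sub_zero] at h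
  exact eq_neg_of_add_eq_zero_left h

include hr in
private theorem AltA_23 (x y z : K) : AltA_s x y z = -AltA_s x z y := by
  have h : AltA_s x y z + AltA_s x z y = AltA_s x (y + z) (y + z) - AltA_s x y y - AltA_s x z z := by
    unfold AltA_s
    simp only [mul_add, add_mul]
    abel
  rw [AltA_yy hr, AltA_yy hr, AltA_yy hr, sub_zero, sub_zero] at h
  exact eq_neg_of_add_eq_zero_left h

include hl hr

/-- associators are invariant under cyclic permutations -/
private theorem AltA_cyc (x y z : K) : AltA_s x y z = AltA_s y z x := by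
  rw [AltA_12 hl x y z, AltA_23 hr y x z, neg_neg]

private theorem AltA_xyx (x y : K) : AltA_s x y x = 0 := by
  rw [AltA_12 hl, AltA_yy hr, neg_zero]

private theorem AltA_fc (w x y z : K) : AltA_f w x y z = -AltA_f z w x y := by
  have h1 := AltA_T w x y z
  have h2 := AltA_T x y z w
  rw [← AltA_cyc hl hr (z * w) x y, AltA_12 hl x (y * z) w, AltA_23 hr (y * z) x w] at h2
  rw [AltA_12 hl w (x * y) z, AltA_23 hr (x * y) w z, ← AltA_cyc hl hr (y * z) w x] at h1
  rw [eq_neg_iff_add_eq_zero]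
  unfold AltA_f
  have h3 : AltA_s z x y = AltA_s x y z := AltA_cyc hl hr z x y
  have h4 : AltA_s w y z = AltA_s y z w := AltA_cyc hl hr w y z
  rw [h3, h4]
  have h5 : AltA_s (w * x) y z + AltA_s (z * w) x y =
      (w * AltA_s x y z + AltA_s w x y * z) + (x * AltA_s y z w + AltA_s x y z * w) := by
    rw [← h1, ← h2]
    abel
  calc AltA_s (w * x) y z - x * AltA_s y z w - AltA_s x y z * w + (AltA_s (z * w) x y - w * AltA_s x y z - AltA_s w x y * z)
      = (AltA_s (w * x) y z + AltA_s (z * w) x y) - ((w * AltA_s x y z + AltA_s w x y * z) +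
        (x * AltA_s y z w + AltA_s x y z * w)) := by abel
    _ = 0 := by rw [h5, sub_self]

omit hl in
private theorem AltA_f34 (w x y z : K) : AltA_f w x y z = -AltA_f w x z y := by
  unfold AltA_f
  rw [AltA_23 hr (w * x) y z, AltA_23 hr w y z, AltA_23 hr x y z, mul_neg, neg_mul]
  abel

private theorem AltA_f23 (w x y z : K) : AltA_f w x y z = -AltA_f w y x z := by
  rw [AltA_fc hl hr w x y z, AltA_fc hl hr w y x z, AltA_f34 hr z w x y]

private theorem AltA_f12 (w x y z : K) : AltA_f w x y z = -AltA_f x w y z := by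
  rw [AltA_fc hl hr w x y z, AltA_fc hl hr x w y z, AltA_f23 hl hr z w x y]

private theorem AltA_f13 (w x y z : K) : AltA_f w x y z = -AltA_f y x w z := by
  rw [AltA_f12 hl hr w x y z, AltA_f23 hl hr x w y z, AltA_f12 hl hr x y w z, neg_neg]

omit hl in
private theorem AltA_e34 (w x y : K) : AltA_f w x y y = 0 := by
  unfold AltA_f
  rw [AltA_yy hr, AltA_yy hr, AltA_yy hr]
  simp only [mul_zero, zero_mul, sub_zero]

private theorem AltA_e23 (w x z : K) : AltA_f w x x z = 0 := by
  rw [AltA_fc hl hr, AltA_e34 hr, neg_zero]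

private theorem AltA_e12 (w y z : K) : AltA_f w w y z = 0 := by
  rw [AltA_fc hl hr, AltA_e23 hl hr, neg_zero]

private theorem AltA_e13 (w x z : K) : AltA_f w x w z = 0 := by
  rw [AltA_f12 hl hr, AltA_e23 hl hr, neg_zero]

/-- the closure step -/
private theorem AltA_step {p q u c : K} (h1 : AltA_s p q c = 0) (h2 : AltA_s u p q = 0) (h3 : AltA_f p u q c = 0) :
    AltA_s p q (c * u) = 0 ∧ AltA_s p q (u * c) = 0 := by
  have h4 : AltA_f c u p q = 0 := by
    rw [AltA_f13 hl hr, AltA_f34 hr, h3, neg_zero, neg_zero]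
  have h5 : AltA_f u c p q = 0 := by
    rw [AltA_f12 hl hr, h4, neg_zero]
  have h6 : AltA_s c p q = 0 := by rw [AltA_cyc hl hr, h1]
  constructor
  · rw [← AltA_cyc hl hr]
    unfold AltA_f at h4
    rw [h6, h2, mul_zero, zero_mul, sub_zero, sub_zero] at h4
    exact h4
  · rw [← AltA_cyc hl hr]
    unfold AltA_f at h5
    rw [h6, h2, mul_zero, zero_mul, sub_zero, sub_zero] at h5
    exact h5

end

/-- the elements whose associators with the pairs in `P` vanish -/
private def AltA_Z (P : K → K → Prop) : AddSubgroup K where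
  carrier := {c | ∀ a b, P a b → AltA_s a b c = 0}
  add_mem' := fun {c d} hc hd a b h => by rw [AltA_add, hc a b h, hd a b h, add_zero]
  zero_mem' := fun a b _ => AltA_zero a b
  neg_mem' := fun {c} hc a b h => by rw [AltA_neg, hc a b h, neg_zero]

private structure AltA_St (x y : K) (S : AddSubgroup K) : Prop where
  o : 1 ∈ S
  mx : x ∈ S
  my : y ∈ S
  r : ∀ u, u = x ∨ u = y → ∀ a ∈ S, a * u ∈ S
  l : ∀ u, u = x ∨ u = y → ∀ a ∈ S, u * a ∈ S

private def AltA_W (x y : K) : AddSubgroup K := sInf {S | AltA_St x y S}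

private theorem AltA_le {x y : K} {S : AddSubgroup K} (h : AltA_St x y S) : AltA_W x y ≤ S := sInf_le h

private theorem AltA_WSt (x y : K) : AltA_St x y (AltA_W x y) where
  o := AddSubgroup.mem_sInf.2 fun _ h => h.o
  mx := AddSubgroup.mem_sInf.2 fun _ h => h.mx
  my := AddSubgroup.mem_sInf.2 fun _ h => h.my
  r u hu a ha := AddSubgroup.mem_sInf.2 fun S h => h.r u hu a (AddSubgroup.mem_sInf.1 ha S h)
  l u hu a ha := AddSubgroup.mem_sInf.2 fun S h => h.l u hu a (AddSubgroup.mem_sInf.1 ha S h)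

section

variable (hl : ∀ x y : K, x * (x * y) = (x * x) * y) (hr : ∀ x y : K, (y * x) * x = y * (x * x)) (x y : K)

include hl hr

private theorem AltA_s1 {c : K} (hc : c ∈ AltA_W x y) : AltA_s x y c = 0 := by
  have h : AltA_St x y (AltA_Z fun a b => a = x ∧ b = y) := by
    have key : ∀ u, u = x ∨ u = y → ∀ a, AltA_s x y a = 0 → AltA_s x y (a * u) = 0 ∧ AltA_s x y (u * a) = 0 := by
      rintro u hu a ha
      refine AltA_step hl hr ha ?_ ?_
      · rcases hu with rfl | rfl
        · exact AltA_xx hl _ _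
        · exact AltA_xyx hl hr _ _
      · rcases hu with rfl | rfl
        · exact AltA_e12 hl hr _ _ _
        · exact AltA_e23 hl hr _ _ _
    refine ⟨?_, ?_, ?_, ?_, ?_⟩
    · rintro a b ⟨rfl, rfl⟩
      exact AltA_one _ _
    · rintro a b ⟨rfl, rfl⟩
      exact AltA_xyx hl hr _ _
    · rintro a b ⟨rfl, rfl⟩
      exact AltA_yy hr _ _
    · rintro u hu c hc a b ⟨rfl, rfl⟩
      exact (key u hu c (hc _ _ ⟨rfl, rfl⟩)).1
    · rintro u hu c hc a b ⟨rfl, rfl⟩
      exact (key u hu c (hc _ _ ⟨rfl, rfl⟩)).2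
  exact AltA_le h hc x y ⟨rfl, rfl⟩

/-- step 1 in the form needed -/
private theorem AltA_s1' {u v c : K} (hu : u = x ∨ u = y) (hv : v = x ∨ v = y) (hc : c ∈ AltA_W x y) :
    AltA_s u v c = 0 := by
  rcases hu with rfl | rfl <;> rcases hv with rfl | rfl
  · exact AltA_xx hl _ _
  · exact AltA_s1 hl hr _ _ hc
  · rw [AltA_12 hl, AltA_s1 hl hr _ _ hc, neg_zero]
  · exact AltA_xx hl _ _

private theorem AltA_s2 {a c q : K} (ha : a ∈ AltA_W x y) (hq : q = x ∨ q = y) (hc : c ∈ AltA_W x y) :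
    AltA_s a q c = 0 := by
  have hW := AltA_WSt x y
  have hmem : ∀ u, u = x ∨ u = y → u ∈ AltA_W x y := by
    rintro u (rfl | rfl)
    · exact hW.mx
    · exact hW.my
  have h : AltA_St x y (AltA_Z fun a b => a ∈ AltA_W x y ∧ (b = x ∨ b = y)) := by
    have key : ∀ u, u = x ∨ u = y → ∀ c, (∀ a b, a ∈ AltA_W x y ∧ (b = x ∨ b = y) → AltA_s a b c = 0) →
        ∀ a b, a ∈ AltA_W x y ∧ (b = x ∨ b = y) → AltA_s a b (c * u) = 0 ∧ AltA_s a b (u * c) = 0 := by
      rintro u hu c hc a b ⟨ha, hb⟩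
      refine AltA_step hl hr (hc a b ⟨ha, hb⟩) ?_ ?_
      · rw [AltA_23 hr, AltA_s1' hl hr x y hu hb ha, neg_zero]
      · unfold AltA_f
        rw [hc (a * u) b ⟨hW.r u hu a ha, hb⟩, hc a b ⟨ha, hb⟩, hc u b ⟨hmem u hu, hb⟩]
        simp only [mul_zero, zero_mul, sub_zero]
    have hel : ∀ u, u = x ∨ u = y → ∀ a b, a ∈ AltA_W x y ∧ (b = x ∨ b = y) → AltA_s a b u = 0 := by
      rintro u hu a b ⟨ha, hb⟩
      rw [AltA_cyc hl hr]
      exact AltA_s1' hl hr x y hb hu ha
    refine ⟨fun a b _ => AltA_one a b, hel x (Or.inl rfl), hel y (Or.inr rfl), ?_, ?_⟩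
    · exact fun u hu c hc a b hab => (key u hu c hc a b hab).1
    · exact fun u hu c hc a b hab => (key u hu c hc a b hab).2
  exact AltA_le h hc a q ⟨ha, hq⟩

private theorem AltA_s3 {a b c : K} (ha : a ∈ AltA_W x y) (hb : b ∈ AltA_W x y) (hc : c ∈ AltA_W x y) :
    AltA_s a b c = 0 := by
  have hW := AltA_WSt x y
  have hmem : ∀ u, u = x ∨ u = y → u ∈ AltA_W x y := by
    rintro u (rfl | rfl)
    · exact hW.mx
    · exact hW.my
  have h : AltA_St x y (AltA_Z fun a b => a ∈ AltA_W x y ∧ b ∈ AltA_W x y) := by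
    have key : ∀ u, u = x ∨ u = y → ∀ c, (∀ a b, a ∈ AltA_W x y ∧ b ∈ AltA_W x y → AltA_s a b c = 0) →
        ∀ a b, a ∈ AltA_W x y ∧ b ∈ AltA_W x y → AltA_s a b (c * u) = 0 ∧ AltA_s a b (u * c) = 0 := by
      rintro u hu c hc a b ⟨ha, hb⟩
      refine AltA_step hl hr (hc a b ⟨ha, hb⟩) ?_ ?_
      · rw [AltA_12 hl, AltA_s2 hl hr x y ha hu hb, neg_zero]
      · unfold AltA_f
        rw [hc (a * u) b ⟨hW.r u hu a ha, hb⟩, hc a b ⟨ha, hb⟩, hc u b ⟨hmem u hu, hb⟩]
        simp only [mul_zero, zero_mul, sub_zero]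
    have hel : ∀ u, u = x ∨ u = y → ∀ a b, a ∈ AltA_W x y ∧ b ∈ AltA_W x y → AltA_s a b u = 0 := by
      rintro u hu a b ⟨ha, hb⟩
      rw [AltA_23 hr, AltA_s2 hl hr x y ha hu hb, neg_zero]
    refine ⟨fun a b _ => AltA_one a b, hel x (Or.inl rfl), hel y (Or.inr rfl), ?_, ?_⟩
    · exact fun u hu c hc a b hab => (key u hu c hc a b hab).1
    · exact fun u hu c hc a b hab => (key u hu c hc a b hab).2
  exact AltA_le h hc a b ⟨ha, hb⟩

private theorem AltA_mul {a b : K} (ha : a ∈ AltA_W x y) (hb : b ∈ AltA_W x y) : a * b ∈ AltA_W x y := by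
  have hW := AltA_WSt x y
  have hmem : ∀ u, u = x ∨ u = y → u ∈ AltA_W x y := by
    rintro u (rfl | rfl)
    · exact hW.mx
    · exact hW.my
  let D : AddSubgroup K :=
    { carrier := {b | b ∈ AltA_W x y ∧ ∀ a ∈ AltA_W x y, a * b ∈ AltA_W x y}
      add_mem' := fun {c d} hc hd => ⟨add_mem hc.1 hd.1, fun a ha => by
        rw [mul_add]
        exact add_mem (hc.2 a ha) (hd.2 a ha)⟩
      zero_mem' := ⟨zero_mem _, fun a _ => by
        rw [mul_zero]
        exact zero_mem _⟩
      neg_mem' := fun {c} hc => ⟨neg_mem hc.1, fun a ha => by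
        rw [mul_neg]
        exact neg_mem (hc.2 a ha)⟩ }
  have h : AltA_St x y D := by
    refine ⟨⟨hW.o, fun a ha => by rwa [mul_one]⟩, ⟨hW.mx, hW.r x (Or.inl rfl)⟩, ⟨hW.my, hW.r y (Or.inr rfl)⟩, ?_, ?_⟩
    · rintro u hu b ⟨hb, hb'⟩
      refine ⟨hW.r u hu b hb, fun a ha => ?_⟩
      have h1 : AltA_s a b u = 0 := AltA_s3 hl hr x y ha hb (hmem u hu)
      unfold AltA_s at h1
      rw [← sub_eq_zero.1 h1]
      exact hW.r u hu _ (hb' a ha)
    · rintro u hu b ⟨hb, hb'⟩
      refine ⟨hW.l u hu b hb, fun a ha => ?_⟩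
      have h1 : AltA_s a u b = 0 := AltA_s3 hl hr x y ha (hmem u hu) hb
      unfold AltA_s at h1
      rw [← sub_eq_zero.1 h1]
      exact hb' _ (hW.r u hu a ha)
  exact (AltA_le h hb).2 a ha

end

/-- Artin's theorem -/
theorem artin (hl : ∀ x y : K, x * (x * y) = (x * x) * y)
    (hr : ∀ x y : K, (y * x) * x = y * (x * x)) (x y : K) :
    ∃ W : AddSubgroup K, 1 ∈ W ∧ x ∈ W ∧ y ∈ W ∧ (∀ a ∈ W, ∀ b ∈ W, a * b ∈ W) ∧
      (∀ a ∈ W, ∀ b ∈ W, ∀ c ∈ W, (a * b) * c = a * (b * c)) ∧
      ∀ V : AddSubgroup K, 1 ∈ V → x ∈ V → y ∈ V → (∀ a ∈ V, ∀ b ∈ V, a * b ∈ V) → W ≤ V := by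
  have hW := AltA_WSt x y
  refine ⟨AltA_W x y, hW.o, hW.mx, hW.my, fun a ha b hb => AltA_mul hl hr x y ha hb, fun a ha b hb c hc => ?_,
    fun V h1 hx hy hm => AltA_le ⟨h1, hx, hy, ?_, ?_⟩⟩
  · exact sub_eq_zero.1 (AltA_s3 hl hr x y ha hb hc)
  · rintro u (rfl | rfl) a ha
    · exact hm a ha _ hx
    · exact hm a ha _ hy
  · rintro u (rfl | rfl) a ha
    · exact hm _ hx a ha
    · exact hm _ hy a ha

/-- identities for associators in alternative rings -/
theorem as_left (hl : ∀ x y : K, x * (x * y) = (x * x) * y)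
    (hr : ∀ x y : K, (y * x) * x = y * (x * x)) (x y z : K) :
    (x * (x * y)) * z - x * ((x * y) * z) = ((x * y) * z - x * (y * z)) * x := by
  have h := AltA_e13 hl hr x y z
  unfold AltA_f at h
  rw [AltA_xx hl, mul_zero, sub_zero, sub_eq_zero] at h
  have h1 := AltA_12 hl x (x * y) z
  rw [h, ← neg_mul, ← AltA_12 hl] at h1
  exact h1

/-- associators are alternating -/
theorem as_swap (hl : ∀ x y : K, x * (x * y) = (x * x) * y)
    (hr : ∀ x y : K, (y * x) * x = y * (x * x)) (x y z : K) :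
    (x * y) * z - x * (y * z) = - ((y * x) * z - y * (x * z)) ∧
      (x * y) * z - x * (y * z) = - ((x * z) * y - x * (z * y)) :=
  ⟨AltA_12 hl x y z, AltA_23 hr x y z⟩

end Pool.Agent.PLB
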