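import Pool.Agent.PLB.AltA

set_option autoImplicit false

/-! Theorem PB, section 4: finite alternative division rings are generated by one element (Artin-Zorn); valued
alternative division rings with finite residue ring are associative.

PLAN. `zorn_gen`: for `a, b` in the finite ring `R` the set `W` of `artin` is a finite associative ring without zero
divisors (`inv`), so a division ring, so a field (`littleWedderburn`, Mathlib), whose multiplicative group is cyclic:
`W` is generated by one element `c`. Hence, by induction on the number of generators, any finitely many elements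
lie in the subring generated by one element.
(The hypotheses on `R` here: finite, alternative, with inverses, as in `IsAltDiv`.)
`assoc_of_vl`: `O = V 0` is a subring, `V 1` an ideal, `O / V 1` is a finite alternative division ring (`mul'`, `ex`: an element
of `V 0 \ V 1` has an inverse in `V 0`). Let `ζ ∈ O` lift a generator, `π ∈ V 1 \ V 2`. Let `W` be the associative subring of
`artin ζ π`. Every `a ∈ O` is, for every `n`, congruent to an element of `W` modulo `V n`: `a - w ∈ V 1` with `w ∈ W`,
`a - w = a' π` with `a' ∈ O` (inverse property; `mul'`), induction. The associator of `O` is continuous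
(`as a b c ∈ V n` if one argument is in `V n`, `O` a ring), so `O` is associative (`⋂ V n = 0` by `ex`, `anti`). Then for `K`:
`as π (π y) z = as π y z * π` (`as_left`), so `as π y z = 0` for all `y, z` by induction on the denominators
(`y ∈ V (-n)`: `π^n y ∈ V 0`), `π` is nuclear, `as (π x) y z = π * as x y z` (expand), and again induction. -/

namespace Pool.Agent.PLB

private theorem altb_cyc (W : Type*) [Ring W] [IsDomain W] [Finite W] :
    ∃ c : W, ∀ a : W, a ≠ 0 → ∃ n : ℕ, c ^ n = a := by
  let _ : Field W := (Finite.isDomain_to_isField W).toField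
  obtain ⟨g, hg⟩ := IsCyclic.exists_generator (α := Wˣ)
  refine ⟨(g : W), fun a ha => ?_⟩
  have h1 := hg (Units.mk0 a ha)
  rw [← mem_powers_iff_mem_zpowers] at h1
  obtain ⟨n, hn⟩ := h1
  refine ⟨n, ?_⟩
  have h2 := congrArg (Units.val) hn
  rwa [Units.val_pow_eq_pow_val, Units.val_mk0] at h2

private theorem altb_ndiv {R : Type*} [NonAssocRing R] [IsAltDiv R] {x y : R} (h : x * y = 0)
    (hx : x ≠ 0) : y = 0 := by
  obtain ⟨u, hu, -, -, -⟩ := IsAltDiv.inv x hx
  rw [← hu y, h, mul_zero]

/-- a multiplicatively closed associative additive subgroup is a ring -/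
private abbrev altb_ring {R : Type*} [NonAssocRing R] (W : AddSubgroup R) (h1 : 1 ∈ W)
    (hm : ∀ a ∈ W, ∀ b ∈ W, a * b ∈ W)
    (ha : ∀ a ∈ W, ∀ b ∈ W, ∀ c ∈ W, (a * b) * c = a * (b * c)) : Ring W :=
  { (inferInstance : AddCommGroup W) with
    mul := fun a b => ⟨a.1 * b.1, hm a.1 a.2 b.1 b.2⟩
    one := ⟨1, h1⟩
    mul_assoc := fun a b c => Subtype.ext (ha a.1 a.2 b.1 b.2 c.1 c.2)
    one_mul := fun a => Subtype.ext (one_mul a.1)
    mul_one := fun a => Subtype.ext (mul_one a.1)
    zero_mul := fun a => Subtype.ext (zero_mul a.1)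
    mul_zero := fun a => Subtype.ext (mul_zero a.1)
    left_distrib := fun a b c => Subtype.ext (mul_add a.1 b.1 c.1)
    right_distrib := fun a b c => Subtype.ext (add_mul a.1 b.1 c.1) }

private theorem altb_two {R : Type*} [NonAssocRing R] [Finite R] [IsAltDiv R] (a b : R) :
    ∃ c : R, ∀ V : AddSubgroup R, 1 ∈ V → c ∈ V → (∀ a ∈ V, ∀ b ∈ V, a * b ∈ V) →
      a ∈ V ∧ b ∈ V := by
  obtain ⟨W, h1, hx, hy, hm, ha, -⟩ := artin (K := R) IsAltDiv.left IsAltDiv.right a b
  let _ : Ring W := altb_ring W h1 hm ha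
  have hmul : ∀ u v : W, ((u * v : W) : R) = (u : R) * (v : R) := fun _ _ => rfl
  have hone : ((1 : W) : R) = 1 := rfl
  have : Nontrivial W := ⟨0, 1, fun h => IsAltDiv.nontriv (K := R) (by
    have h2 := congrArg (Subtype.val) h
    exact h2.symm)⟩
  have : NoZeroDivisors W := ⟨fun {u v} h => by
    by_cases hu : u = 0
    · exact Or.inl hu
    · right
      apply Subtype.ext
      refine altb_ndiv (x := (u : R)) ?_ (fun h3 => hu (Subtype.ext h3))
      rw [← hmul, h]
      rfl⟩
  have : IsDomain W := NoZeroDivisors.to_isDomain W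
  obtain ⟨c, hc⟩ := altb_cyc W
  refine ⟨c.1, fun V hV1 hVc hVm => ?_⟩
  have hpow : ∀ n : ℕ, ((c ^ n : W) : R) ∈ V := by
    intro n
    induction n with
    | zero =>
      rw [pow_zero, hone]
      exact hV1
    | succ n ih =>
      rw [pow_succ, hmul]
      exact hVm _ ih _ hVc
  have hall : ∀ u : W, (u : R) ∈ V := by
    intro u
    by_cases hu : u = 0
    · rw [hu]
      exact V.zero_mem
    · obtain ⟨n, hn⟩ := hc u hu
      rw [← hn]
      exact hpow n
  exact ⟨hall ⟨a, hx⟩, hall ⟨b, hy⟩⟩

theorem zorn_gen {R : Type*} [NonAssocRing R] [Finite R] [IsAltDiv R] :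
    ∃ c : R, ∀ V : AddSubgroup R, 1 ∈ V → c ∈ V → (∀ a ∈ V, ∀ b ∈ V, a * b ∈ V) → V = ⊤ := by
  classical
  let G : R → AddSubgroup R := fun c =>
    sInf {V : AddSubgroup R | 1 ∈ V ∧ c ∈ V ∧ ∀ a ∈ V, ∀ b ∈ V, a * b ∈ V}
  have hG1 : ∀ c, 1 ∈ G c := fun c => by
    rw [AddSubgroup.mem_sInf]
    intro V hV
    exact hV.1
  have hGc : ∀ c, c ∈ G c := fun c => by
    rw [AddSubgroup.mem_sInf]
    intro V hV
    exact hV.2.1
  have hGm : ∀ c, ∀ a ∈ G c, ∀ b ∈ G c, a * b ∈ G c := fun c a ha b hb => by
    rw [AddSubgroup.mem_sInf] at ha hb ⊢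
    intro V hV
    exact hV.2.2 a (ha V hV) b (hb V hV)
  have hGle : ∀ c, ∀ V : AddSubgroup R, 1 ∈ V → c ∈ V → (∀ a ∈ V, ∀ b ∈ V, a * b ∈ V) →
      G c ≤ V := fun c V h1 h2 h3 => sInf_le ⟨h1, h2, h3⟩
  have : Nonempty R := ⟨0⟩
  obtain ⟨c, hc⟩ := Finite.exists_max (fun c : R => Nat.card (G c))
  have htop : ∀ b : R, b ∈ G c := by
    intro b
    obtain ⟨d, hd⟩ := altb_two c b
    have h1 := hd (G d) (hG1 d) (hGc d) (hGm d)
    have h2 : G c ≤ G d := hGle c (G d) (hG1 d) h1.1 (hGm d)
    have h3 : G c = G d := by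
      apply SetLike.coe_injective
      apply Set.eq_of_subset_of_ncard_le (SetLike.coe_subset_coe.2 h2) _ (Set.toFinite _)
      exact hc d
    rw [h3]
    exact h1.2
  refine ⟨c, fun V h1 h2 h3 => ?_⟩
  rw [eq_top_iff]
  intro b _
  exact hGle c V h1 h2 h3 (htop b)

/-- an associative alternative division ring is a division ring -/
theorem exists_divisionRing {K : Type*} [i : NonAssocRing K] [IsAltDiv K]
    (h : ∀ a b c : K, (a * b) * c = a * (b * c)) :
    ∃ j : DivisionRing K, (j.toRing.toNonAssocRing : NonAssocRing K) = i := by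
  classical
  have hinv : ∀ x : K, ∃ y : K, (x ≠ 0 → x * y = 1) ∧ (x = 0 → y = 0) := by
    intro x
    by_cases hx : x = 0
    · exact ⟨0, fun h0 => absurd hx h0, fun _ => rfl⟩
    · obtain ⟨y, -, h2, -, -⟩ := IsAltDiv.inv x hx
      refine ⟨y, fun _ => ?_, fun h0 => absurd h0 hx⟩
      have h3 := h2 1
      rwa [mul_one] at h3
  choose inv' hi1 hi2 using hinv
  let R : Ring K := { i with mul_assoc := h }
  let D : DivisionRing K :=
    { R with
      inv := inv'
      exists_pair_ne := ⟨1, 0, IsAltDiv.nontriv⟩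
      mul_inv_cancel := fun a ha => hi1 a ha
      inv_zero := hi2 0 rfl
      nnqsmul := _
      nnqsmul_def := fun _ _ => rfl
      qsmul := _
      qsmul_def := fun _ _ => rfl }
  exact ⟨D, rfl⟩

end Pool.Agent.PLB
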