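import Pool.Agent.PLB.AltB

set_option autoImplicit false

/-! Theorem PB, section 4: valued alternative division rings with finite residue ring are associative.

PLAN. See the header of AltB.lean (`assoc_of_vl`). -/

namespace Pool.Agent.PLB

section altc

variable {K : Type*} [NonAssocRing K] {V : ℤ → AddSubgroup K}

private lemma altC_le (hV : Vl K V) {m n : ℤ} (h : m ≤ n) : V n ≤ V m := by
  have key : ∀ k : ℕ, V (m + k) ≤ V m := by
    intro k
    induction k with
    | zero => rw [Nat.cast_zero, add_zero]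
    | succ k ih =>
      have h1 := hV.anti (m + k)
      have e : m + ((k + 1 : ℕ) : ℤ) = m + k + 1 := by push_cast; ring
      rw [e]
      exact h1.trans ih
  have e : n = m + ((n - m).toNat : ℤ) := by omega
  rw [e]
  exact key _

private lemma altC_left [IsAltDiv K] {a b : K} (hb : b ≠ 0) (h : a * b = 0) : a = 0 := by
  obtain ⟨c, -, -, h3, -⟩ := IsAltDiv.inv b hb
  have := h3 a
  rw [h, zero_mul] at this
  exact this.symm

private lemma altC_right [IsAltDiv K] {a b : K} (hb : b ≠ 0) (h : b * a = 0) : a = 0 := by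
  obtain ⟨c, h1, -, -, -⟩ := IsAltDiv.inv b hb
  have := h1 a
  rw [h, mul_zero] at this
  exact this.symm

/-- the valuation ring -/
private def altC_O (hV : Vl K V) : Subring K where
  carrier := V 0
  mul_mem' := fun {a b} ha hb => by
    have := hV.mul 0 0 a b ha hb
    rwa [add_zero] at this
  one_mem' := hV.one
  add_mem' := fun ha hb => (V 0).add_mem ha hb
  zero_mem' := (V 0).zero_mem
  neg_mem' := fun ha => (V 0).neg_mem ha

/-- congruence modulo `V 1` -/
private def altC_con (hV : Vl K V) : RingCon (altC_O hV) where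
  r a b := (a : K) - (b : K) ∈ V 1
  iseqv :=
    { refl := fun a => by
        change (a : K) - (a : K) ∈ V 1
        rw [sub_self]; exact (V 1).zero_mem
      symm := fun {a b} h => by
        change (b : K) - (a : K) ∈ V 1
        have h' : (a : K) - (b : K) ∈ V 1 := h
        rw [← neg_sub]; exact (V 1).neg_mem h'
      trans := fun {a b c} h h' => by
        change (a : K) - (c : K) ∈ V 1
        have h1 : (a : K) - (b : K) ∈ V 1 := h
        have h2 : (b : K) - (c : K) ∈ V 1 := h'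
        rw [← sub_add_sub_cancel (a : K) (b : K) (c : K)]
        exact (V 1).add_mem h1 h2 }
  add' := fun {a b c d} h h' => by
    change ((a + c : altC_O hV) : K) - ((b + d : altC_O hV) : K) ∈ V 1
    have h1 : (a : K) - (b : K) ∈ V 1 := h
    have h2 : (c : K) - (d : K) ∈ V 1 := h'
    have e : ((a + c : altC_O hV) : K) - ((b + d : altC_O hV) : K) =
        ((a : K) - (b : K)) + ((c : K) - (d : K)) := by
      change ((a : K) + (c : K)) - ((b : K) + (d : K)) = _
      abel
    rw [e]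
    exact (V 1).add_mem h1 h2
  mul' := fun {a b c d} h h' => by
    change ((a * c : altC_O hV) : K) - ((b * d : altC_O hV) : K) ∈ V 1
    have h1 : (a : K) - (b : K) ∈ V 1 := h
    have h2 : (c : K) - (d : K) ∈ V 1 := h'
    have e : ((a * c : altC_O hV) : K) - ((b * d : altC_O hV) : K) =
        ((a : K) - (b : K)) * (c : K) + (b : K) * ((c : K) - (d : K)) := by
      change ((a : K) * (c : K)) - ((b : K) * (d : K)) = _
      rw [sub_mul, mul_sub]
      abel
    rw [e]
    have h3 := hV.mul 1 0 _ _ h1 c.2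
    have h4 := hV.mul 0 1 _ _ b.2 h2
    rw [add_zero] at h3
    rw [zero_add] at h4
    exact (V 1).add_mem h3 h4

private lemma altC_eq (hV : Vl K V) (a b : altC_O hV) :
    ((a : (altC_con hV).Quotient) = (b : (altC_con hV).Quotient)) ↔ (a : K) - (b : K) ∈ V 1 :=
  (altC_con hV).eq

private lemma altC_surj (hV : Vl K V) (x : (altC_con hV).Quotient) :
    ∃ a : altC_O hV, (a : (altC_con hV).Quotient) = x := Quotient.mk''_surjective x

/-- the inverse of a unit of the valuation ring is in the valuation ring -/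
private lemma altC_inv (hV : Vl K V) {a b : K} (ha : a ∈ V 0) (ha1 : a ∉ V 1)
    (hab : a * b = 1) : b ∈ V 0 := by
  have hb : b ≠ 0 := by
    rintro rfl
    rw [mul_zero] at hab
    exact hV.one' (by rw [← hab]; exact (V 1).zero_mem)
  obtain ⟨n, h1, h2⟩ := hV.ex b hb
  have h3 := hV.mul' 0 n a b ha (by rwa [zero_add]) h1 h2
  rw [hab, zero_add] at h3
  have h4 : ¬ n + 1 ≤ 0 := fun h => h3 (altC_le hV h hV.one)
  exact altC_le hV (by omega : (0 : ℤ) ≤ n) h1

private lemma altC_alt [IsAltDiv K] (hV : Vl K V) : IsAltDiv (altC_con hV).Quotient where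
  nontriv := by
    intro h
    have h1 : ((1 : altC_O hV) : (altC_con hV).Quotient) = ((0 : altC_O hV) :
      (altC_con hV).Quotient) := h
    rw [altC_eq] at h1
    change (1 : K) - 0 ∈ V 1 at h1
    rw [sub_zero] at h1
    exact hV.one' h1
  left := by
    intro x y
    obtain ⟨a, rfl⟩ := altC_surj hV x
    obtain ⟨b, rfl⟩ := altC_surj hV y
    exact congrArg (fun t : altC_O hV => (t : (altC_con hV).Quotient))
      (Subtype.ext (IsAltDiv.left (a : K) (b : K)) : a * (a * b) = (a * a) * b)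
  right := by
    intro x y
    obtain ⟨a, rfl⟩ := altC_surj hV x
    obtain ⟨b, rfl⟩ := altC_surj hV y
    exact congrArg (fun t : altC_O hV => (t : (altC_con hV).Quotient))
      (Subtype.ext (IsAltDiv.right (a : K) (b : K)) : (b * a) * a = b * (a * a))
  inv := by
    intro x hx
    obtain ⟨a, rfl⟩ := altC_surj hV x
    have ha1 : (a : K) ∉ V 1 := by
      intro h
      apply hx
      have h1 : (a : (altC_con hV).Quotient) = ((0 : altC_O hV) : (altC_con hV).Quotient) := by
        rw [altC_eq]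
        change (a : K) - 0 ∈ V 1
        rwa [sub_zero]
      exact h1
    have ha0 : (a : K) ≠ 0 := by
      intro h
      apply ha1
      rw [h]
      exact (V 1).zero_mem
    obtain ⟨b, h1, h2, h3, h4⟩ := IsAltDiv.inv (a : K) ha0
    have hab : (a : K) * b = 1 := by
      have := h2 1
      rwa [mul_one] at this
    have hb := altC_inv hV a.2 ha1 hab
    refine ⟨((⟨b, hb⟩ : altC_O hV) : (altC_con hV).Quotient), ?_, ?_, ?_, ?_⟩
    · intro z
      obtain ⟨c, rfl⟩ := altC_surj hV z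
      exact congrArg (fun t : altC_O hV => (t : (altC_con hV).Quotient))
        (Subtype.ext (h1 (c : K)) : (⟨b, hb⟩ : altC_O hV) * (a * c) = c)
    · intro z
      obtain ⟨c, rfl⟩ := altC_surj hV z
      exact congrArg (fun t : altC_O hV => (t : (altC_con hV).Quotient))
        (Subtype.ext (h2 (c : K)) : a * ((⟨b, hb⟩ : altC_O hV) * c) = c)
    · intro z
      obtain ⟨c, rfl⟩ := altC_surj hV z
      exact congrArg (fun t : altC_O hV => (t : (altC_con hV).Quotient))
        (Subtype.ext (h3 (c : K)) : (c * a) * (⟨b, hb⟩ : altC_O hV) = c)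
    · intro z
      obtain ⟨c, rfl⟩ := altC_surj hV z
      exact congrArg (fun t : altC_O hV => (t : (altC_con hV).Quotient))
        (Subtype.ext (h4 (c : K)) : (c * (⟨b, hb⟩ : altC_O hV)) * a = c)

private lemma altC_fin (hV : Vl K V) : Finite (altC_con hV).Quotient := by
  obtain ⟨T, hT⟩ := hV.fin
  have hfin : Finite {t : K // t ∈ T ∧ t ∈ V 0} :=
    Set.Finite.to_subtype ((T.finite_toSet).subset (fun t ht => ht.1))
  refine Finite.of_surjective (fun t : {t : K // t ∈ T ∧ t ∈ V 0} =>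
    ((⟨t.1, t.2.2⟩ : altC_O hV) : (altC_con hV).Quotient)) fun x => ?_
  obtain ⟨a, rfl⟩ := altC_surj hV x
  obtain ⟨t, ht, h1⟩ := hT a a.2
  have h0 : t ∈ V 0 := by
    have h2 : (a : K) - t ∈ V 0 := altC_le hV (by omega) h1
    have h3 := (V 0).sub_mem a.2 h2
    rwa [sub_sub_cancel] at h3
  refine ⟨⟨t, ht, h0⟩, ?_⟩
  change ((⟨t, h0⟩ : altC_O hV) : (altC_con hV).Quotient) = (a : (altC_con hV).Quotient)
  rw [altC_eq]
  change t - (a : K) ∈ V 1
  rw [← neg_sub]
  exact (V 1).neg_mem h1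

private lemma altC_gen [IsAltDiv K] (hV : Vl K V) : ∃ ζ : K, ζ ∈ V 0 ∧ ∀ W : AddSubgroup K,
    1 ∈ W → ζ ∈ W → (∀ a ∈ W, ∀ b ∈ W, a * b ∈ W) →
      ∀ a ∈ V 0, ∃ w ∈ W, w ∈ V 0 ∧ a - w ∈ V 1 := by
  have i1 := altC_alt hV
  have i2 := altC_fin hV
  obtain ⟨c, hc⟩ := zorn_gen (R := (altC_con hV).Quotient)
  obtain ⟨ζ, rfl⟩ := altC_surj hV c
  refine ⟨ζ, ζ.2, fun W hW1 hWζ hWm a ha => ?_⟩
  let W' : AddSubgroup (altC_con hV).Quotient :=
    { carrier := {x | ∃ w : altC_O hV, (w : K) ∈ W ∧ (w : (altC_con hV).Quotient) = x}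
      add_mem' := by
        rintro x y ⟨w, hw, rfl⟩ ⟨w', hw', rfl⟩
        exact ⟨w + w', W.add_mem hw hw', rfl⟩
      zero_mem' := ⟨0, W.zero_mem, rfl⟩
      neg_mem' := by
        rintro x ⟨w, hw, rfl⟩
        exact ⟨-w, W.neg_mem hw, rfl⟩ }
  have h1 := hc W' ⟨1, hW1, rfl⟩ ⟨ζ, hWζ, rfl⟩ (by
    rintro x ⟨w, hw, rfl⟩ y ⟨w', hw', rfl⟩
    exact ⟨w * w', hWm _ hw _ hw', rfl⟩)
  have h2 : ((⟨a, ha⟩ : altC_O hV) : (altC_con hV).Quotient) ∈ W' := by
    rw [h1]; exact AddSubgroup.mem_top _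
  obtain ⟨w, hw, e⟩ := h2
  rw [altC_eq] at e
  refine ⟨w, hw, w.2, ?_⟩
  rw [← neg_sub]
  exact (V 1).neg_mem e

/-- the associator -/
private def altC_as (a b c : K) : K := (a * b) * c - a * (b * c)

private lemma altC_as_add1 (a a' b c : K) :
    altC_as (a + a') b c = altC_as a b c + altC_as a' b c := by
  rw [altC_as, altC_as, altC_as, add_mul, add_mul, add_mul]; abel

private lemma altC_as_add2 (a b b' c : K) :
    altC_as a (b + b') c = altC_as a b c + altC_as a b' c := by
  rw [altC_as, altC_as, altC_as, mul_add, add_mul, add_mul, mul_add]; abel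

private lemma altC_as_add3 (a b c c' : K) :
    altC_as a b (c + c') = altC_as a b c + altC_as a b c' := by
  rw [altC_as, altC_as, altC_as, mul_add, mul_add, mul_add]; abel

private lemma altC_as_mem (hV : Vl K V) {l m n r : ℤ} (hr : r = l + m + n) {a b c : K}
    (ha : a ∈ V l) (hb : b ∈ V m) (hc : c ∈ V n) : altC_as a b c ∈ V r := by
  have h1 := hV.mul _ _ _ _ (hV.mul _ _ _ _ ha hb) hc
  have h2 := hV.mul _ _ _ _ ha (hV.mul _ _ _ _ hb hc)
  rw [← add_assoc] at h2
  rw [hr]
  exact (V _).sub_mem h1 h2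

/-- every integral element is congruent modulo `V n` to an element of `W` -/
private lemma altC_approx [IsAltDiv K] (hV : Vl K V) {W : AddSubgroup K} {π : K}
    (hπ : π ∈ V 1) (hπ2 : π ∉ V 2) (hWπ : π ∈ W) (hWm : ∀ a ∈ W, ∀ b ∈ W, a * b ∈ W)
    (h1 : ∀ a ∈ V 0, ∃ w ∈ W, w ∈ V 0 ∧ a - w ∈ V 1) (n : ℕ) :
    ∀ a ∈ V 0, ∃ w ∈ W, w ∈ V 0 ∧ a - w ∈ V n := by
  have hπ0 : π ≠ 0 := by
    rintro rfl
    exact hπ2 (V 2).zero_mem
  induction n with
  | zero =>
    intro a ha
    refine ⟨0, W.zero_mem, (V 0).zero_mem, ?_⟩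
    rw [sub_zero, Nat.cast_zero]
    exact ha
  | succ n ih =>
    intro a ha
    obtain ⟨w, hw, hw0, h⟩ := h1 a ha
    obtain ⟨ρ, -, -, -, h4⟩ := IsAltDiv.inv π hπ0
    have e1 : ((a - w) * ρ) * π = a - w := h4 _
    have h5 : (a - w) * ρ ∈ V 0 := by
      by_cases h0 : (a - w) * ρ = 0
      · rw [h0]; exact (V 0).zero_mem
      obtain ⟨m, m1, m2⟩ := hV.ex _ h0
      have h6 := hV.mul' m 1 _ _ m1 m2 hπ hπ2
      rw [e1] at h6
      have h7 : ¬ m + 1 + 1 ≤ 1 := fun h8 => h6 (altC_le hV h8 h)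
      exact altC_le hV (by omega : (0 : ℤ) ≤ m) m1
    obtain ⟨w', hw', hw0', h'⟩ := ih _ h5
    refine ⟨w + w' * π, W.add_mem hw (hWm _ hw' _ hWπ), ?_, ?_⟩
    · refine (V 0).add_mem hw0 ?_
      have h8 := hV.mul _ _ _ _ hw0' hπ
      exact altC_le hV (by omega) h8
    · have e2 : a - (w + w' * π) = ((a - w) * ρ - w') * π := by
        rw [sub_mul, e1]; abel
      rw [e2, Nat.cast_succ]
      exact hV.mul _ _ _ _ h' hπ

/-- the valuation ring is associative -/
private lemma altC_int [IsAltDiv K] (hV : Vl K V) {π : K} (hπ : π ∈ V 1) (hπ2 : π ∉ V 2)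
    {a b c : K} (ha : a ∈ V 0) (hb : b ∈ V 0) (hc : c ∈ V 0) : altC_as a b c = 0 := by
  obtain ⟨ζ, -, hζ⟩ := altC_gen hV
  obtain ⟨W, hW1, hWζ, hWπ, hWm, hWa, -⟩ :=
    artin (K := K) IsAltDiv.left (fun x y => IsAltDiv.right x y) ζ π
  have h1 := hζ W hW1 hWζ hWm
  have key : ∀ n : ℕ, altC_as a b c ∈ V n := by
    intro n
    have happ := altC_approx hV hπ hπ2 hWπ hWm h1 n
    obtain ⟨u, hu, hu0, hu'⟩ := happ a ha
    obtain ⟨v, hv, hv0, hv'⟩ := happ b hb
    obtain ⟨w, hw, hw0, hw'⟩ := happ c hc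
    have e : altC_as a b c = altC_as (a - u) b c + (altC_as u (b - v) c +
        (altC_as u v (c - w) + altC_as u v w)) := by
      rw [← altC_as_add3, sub_add_cancel, ← altC_as_add2, sub_add_cancel, ← altC_as_add1,
        sub_add_cancel]
    have e0 : altC_as u v w = 0 := by
      rw [altC_as, hWa u hu v hv w hw, sub_self]
    rw [e, e0, add_zero]
    refine (V n).add_mem ?_ ((V n).add_mem ?_ ?_)
    · exact altC_as_mem hV (by ring) hu' hb hc
    · exact altC_as_mem hV (by ring) hu0 hv' hc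
    · exact altC_as_mem hV (by ring) hu0 hv0 hw'
  by_contra h0
  obtain ⟨m, m1, m2⟩ := hV.ex _ h0
  exact m2 (altC_le hV (by omega : m + 1 ≤ ((m + 1).toNat : ℤ)) (key _))

end altc

theorem assoc_of_vl {K : Type*} [NonAssocRing K] [IsAltDiv K] {V : ℤ → AddSubgroup K}
    (hV : Vl K V) (a b c : K) : (a * b) * c = a * (b * c) := by
  obtain ⟨π, hπ, hπ2⟩ := hV.pi
  have hπ0 : π ≠ 0 := by
    rintro rfl
    exact hπ2 (V 2).zero_mem
  have hl : ∀ x y : K, x * (x * y) = (x * x) * y := IsAltDiv.left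
  have hr : ∀ x y : K, (y * x) * x = y * (x * x) := fun x y => IsAltDiv.right x y
  have s1 : ∀ x y z : K, altC_as x y z = - altC_as y x z := fun x y z => (as_swap hl hr x y z).1
  have s2 : ∀ x y z : K, altC_as x y z = - altC_as x z y := fun x y z => (as_swap hl hr x y z).2
  have hint : ∀ x y z : K, x ∈ V 0 → y ∈ V 0 → z ∈ V 0 → altC_as x y z = 0 :=
    fun x y z hx hy hz => altC_int hV hπ hπ2 hx hy hz
  have hπV : ∀ (N : ℕ) (x : K), x ∈ V (-((N + 1 : ℕ) : ℤ)) → π * x ∈ V (-(N : ℤ)) := by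
    intro N x hx
    have h := hV.mul 1 _ _ _ hπ hx
    have e : (1 : ℤ) + -((N + 1 : ℕ) : ℤ) = -(N : ℤ) := by push_cast; ring
    rwa [e] at h
  have hex : ∀ x : K, ∃ N : ℕ, x ∈ V (-(N : ℤ)) := by
    intro x
    by_cases hx : x = 0
    · exact ⟨0, by rw [hx]; exact (V _).zero_mem⟩
    obtain ⟨n, h1, -⟩ := hV.ex x hx
    exact ⟨(-n).toNat, altC_le hV (by omega) h1⟩
  -- `π` is nuclear
  have asl : ∀ y z : K, altC_as π (π * y) z = altC_as π y z * π := fun y z => as_left hl hr π y z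
  have hp0 : π ∈ V 0 := altC_le hV (by omega) hπ
  have n1 : ∀ (N : ℕ) (y : K), y ∈ V (-(N : ℤ)) → ∀ z ∈ V 0, altC_as π y z = 0 := by
    intro N
    induction N with
    | zero =>
      intro y hy z hz
      rw [Nat.cast_zero, neg_zero] at hy
      exact hint π y z hp0 hy hz
    | succ N ih =>
      intro y hy z hz
      have h1 := ih (π * y) (hπV N y hy) z hz
      rw [asl] at h1
      exact altC_left hπ0 h1
  have n2 : ∀ (N : ℕ) (z : K), z ∈ V (-(N : ℤ)) → ∀ y : K, altC_as π z y = 0 := by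
    intro N
    induction N with
    | zero =>
      intro z hz y
      rw [Nat.cast_zero, neg_zero] at hz
      obtain ⟨M, hM⟩ := hex y
      rw [s2, n1 M y hM z hz, neg_zero]
    | succ N ih =>
      intro z hz y
      have h1 := ih (π * z) (hπV N z hz) y
      rw [asl] at h1
      exact altC_left hπ0 h1
  have nuc : ∀ y z : K, (π * y) * z = π * (y * z) := by
    intro y z
    obtain ⟨M, hM⟩ := hex y
    exact sub_eq_zero.1 (n2 M y hM z)
  have asp : ∀ x y z : K, altC_as (π * x) y z = π * altC_as x y z := by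
    intro x y z
    rw [altC_as, altC_as, nuc x y, nuc (x * y) z, nuc x (y * z), mul_sub]
  have down : ∀ (P : K → K → Prop), (∀ x ∈ V 0, ∀ y z : K, P y z → altC_as x y z = 0) →
      ∀ x y z : K, P y z → altC_as x y z = 0 := by
    intro P h0 x y z hP
    obtain ⟨M, hM⟩ := hex x
    have key : ∀ (N : ℕ) (x : K), x ∈ V (-(N : ℤ)) → altC_as x y z = 0 := by
      intro N
      induction N with
      | zero =>
        intro x hx
        rw [Nat.cast_zero, neg_zero] at hx
        exact h0 x hx y z hP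
      | succ N ih =>
        intro x hx
        have h1 := ih (π * x) (hπV N x hx)
        rw [asp] at h1
        exact altC_right hπ0 h1
    exact key M x hM
  have d1 : ∀ x y z : K, y ∈ V 0 ∧ z ∈ V 0 → altC_as x y z = 0 :=
    down (fun y z => y ∈ V 0 ∧ z ∈ V 0) (fun x hx y z h => hint x y z hx h.1 h.2)
  have d2 : ∀ x y z : K, z ∈ V 0 → altC_as x y z = 0 :=
    down (fun _ z => z ∈ V 0) (fun x hx y z h => by
      rw [s1, d1 y x z ⟨hx, h⟩, neg_zero])
  have d3 : ∀ x y z : K, True → altC_as x y z = 0 :=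
    down (fun _ _ => True) (fun x hx y z _ => by
      rw [s1, s2, d2 y z x hx, neg_zero, neg_zero])
  exact sub_eq_zero.1 (d3 a b c trivial)

end Pool.Agent.PLB
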