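import Mathlib

set_option autoImplicit false

/-! Definitions: alternative division rings, filtrations by a valuation, coordinates of three
subgroups. -/

namespace Pool.Agent.PLB

open scoped commutatorElement

/-- alternative division rings -/
class IsAltDiv (K : Type*) [NonAssocRing K] : Prop where
  nontriv : (1 : K) ≠ 0
  left : ∀ x y : K, x * (x * y) = (x * x) * y
  right : ∀ x y : K, (y * x) * x = y * (x * x)
  inv : ∀ x : K, x ≠ 0 → ∃ y : K, (∀ z, y * (x * z) = z) ∧ (∀ z, x * (y * z) = z) ∧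
    (∀ z, (z * x) * y = z) ∧ (∀ z, (z * y) * x = z)

/-- `V n` is the set of elements of value at least `n` for a discrete valuation with finite
residue ring -/
structure Vl (K : Type*) [NonAssocRing K] (V : ℤ → AddSubgroup K) : Prop where
  anti : ∀ n, V (n + 1) ≤ V n
  mul : ∀ m n a b, a ∈ V m → b ∈ V n → a * b ∈ V (m + n)
  mul' : ∀ m n a b, a ∈ V m → a ∉ V (m + 1) → b ∈ V n → b ∉ V (n + 1) → a * b ∉ V (m + n + 1)
  one : (1 : K) ∈ V 0
  one' : (1 : K) ∉ V 1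
  ex : ∀ a : K, a ≠ 0 → ∃ n, a ∈ V n ∧ a ∉ V (n + 1)
  pi : ∃ a, a ∈ V 1 ∧ a ∉ V 2
  fin : ∃ T : Finset K, ∀ a ∈ V 0, ∃ t ∈ T, a - t ∈ V 1

/-- coordinates of three subgroups with `⁅A, B⁆ ⊆ C` -/
structure RD {G : Type*} [Group G] (A B C : Subgroup G) (K : Type*) [NonAssocRing K]
    (xa xb xc : K → G) : Prop where
  a_add : ∀ a b, xa (a + b) = xa a * xa b
  b_add : ∀ a b, xb (a + b) = xb a * xb b
  c_add : ∀ a b, xc (a + b) = xc a * xc b
  a_mem : ∀ a, xa a ∈ A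
  b_mem : ∀ a, xb a ∈ B
  c_mem : ∀ a, xc a ∈ C
  a_surj : ∀ g ∈ A, ∃ a, xa a = g
  b_surj : ∀ g ∈ B, ∃ a, xb a = g
  c_surj : ∀ g ∈ C, ∃ a, xc a = g
  a_inj : ∀ a, xa a = 1 → a = 0
  b_inj : ∀ a, xb a = 1 → a = 0
  c_inj : ∀ a, xc a = 1 → a = 0
  comm : ∀ a b, ⁅xa a, xb b⁆ = xc (a * b)

end Pool.Agent.PLB
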