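import Pool.Agent.PLB.Du

set_option autoImplicit false

/-! Theorem PB, section 0: the dual of a two-sided lattice of planes is one. The plane axioms are
dualised by an anti-automorphism of the interval (self-duality of the intervals); `s.symm x` is the
meet of `x` and its lower covers by `RIG.sd_meet`. -/

namespace Pool.Agent.PLB

open Pool.Agent.Helper87.ML Pool.Agent.Helper87.ML2 Pool.Agent.RIG OrderDual

universe u

/-- the dual of the interval `[x, y]` is the interval `[y, x]` of the dual lattice -/
private def DuI_id {X : Type u} [Lattice X] (x y : X) :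
    (Set.Icc x y)ᵒᵈ ≃o Set.Icc (toDual y) (toDual x) where
  toFun z := ⟨toDual (ofDual z).1, (ofDual z).2.2, (ofDual z).2.1⟩
  invFun z := toDual ⟨ofDual z.1, z.2.2, z.2.1⟩
  left_inv _ := rfl
  right_inv _ := rfl
  map_rel_iff' := Iff.rfl

theorem isPlane_dual {X : Type u} [Lattice X] (hSD : SD' X) {x y : X} (hxy : x ≤ y)
    (h : IsPlane x y) : IsPlane (toDual y) (toDual x) := by
  obtain ⟨e⟩ := hSD x y hxy
  exact isPlane_congr hxy (e.trans (DuI_id x y)) h

private lemma DuI_sd {X : Type u} [Lattice X] (hSD : SD' X) : SD' Xᵒᵈ := by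
  intro x y hxy
  obtain ⟨e⟩ := hSD (ofDual y) (ofDual x) hxy
  have e1 : (Set.Icc (ofDual y) (ofDual x))ᵒᵈ ≃o Set.Icc x y := DuI_id (ofDual y) (ofDual x)
  have e2 : (Set.Icc x y)ᵒᵈ ≃o Set.Icc (ofDual y) (ofDual x) :=
    e1.symm.dual.trans (OrderIso.dualDual _).symm
  exact ⟨e1.symm.trans (e.symm.trans e2.symm)⟩

private lemma DuI_it {X : Type u} [Lattice X] (s : X ≃o X) (k : ℕ) {x y : X} (h : y ≤ s^[k] x) :
    s.symm^[k] y ≤ x := by
  induction k generalizing x y with
  | zero => exact h
  | succ k ih =>
    rw [Function.iterate_succ_apply'] at h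
    rw [Function.iterate_succ_apply]
    apply ih
    rw [← s.le_iff_le, s.apply_symm_apply]
    exact h

instance pb_dual {X : Type u} [Lattice X] [IsModularLattice X] {s : X ≃o X} [PB X s] :
    PB Xᵒᵈ (dl s) where
  fin := LF.dual (PB.fin (s := s))
  sd := DuI_sd (PB.sd (s := s))
  up := by
    have hs : IsUp (s : X → X) := PB.up
    have hSD : SD' X := PB.sd (s := s)
    intro z
    obtain ⟨x, rfl⟩ := toDual.surjective z
    have e1 : s (s.symm x) = x := s.apply_symm_apply x
    have h0 : s.symm x ≤ x := (le_s hs (s.symm x)).trans e1.le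
    rw [dl_apply]
    constructor
    · intro w hw
      rcases hw with rfl | hw
      · exact h0
      · have hw' : ofDual w ⋖ x := toDual_covBy_toDual_iff.1 hw
        have h1 : x ≤ s (ofDual w) := cov_le_s hs hw'
        have h2 : s.symm x ≤ ofDual w := by
          rw [← s.le_iff_le, s.apply_symm_apply]
          exact h1
        exact h2
    · intro w hw
      have h1 : ofDual w ≤ x := hw (Set.mem_insert _ _)
      have h2 : ofDual w ⊔ s.symm x = s.symm x := by
        apply sd_meet hSD hs (v := s.symm x) le_sup_right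
        · rw [e1]
          exact sup_le h1 h0
        · intro m hm1 hm2
          rw [e1] at hm2
          exact sup_le (hw (Set.mem_insert_of_mem _ (toDual_covBy_toDual_iff.2 hm2))) hm1
      have h3 : ofDual w ≤ s.symm x := sup_eq_right.1 h2
      exact h3
  pl := by
    intro z
    obtain ⟨x, rfl⟩ := toDual.surjective z
    have hs : IsUp (s : X → X) := PB.up
    have e1 : s (s.symm x) = x := s.apply_symm_apply x
    have h := PB.pl (s := s) (s.symm x)
    have h1 := isPlane_dual (PB.sd (s := s)) (le_s hs (s.symm x)) h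
    rw [e1] at h1
    exact h1
  dir := by
    intro z w
    obtain ⟨x, rfl⟩ := toDual.surjective z
    obtain ⟨y, rfl⟩ := toDual.surjective w
    obtain ⟨k, hk⟩ := PB.dir (s := s) y x
    refine ⟨k, ?_⟩
    rw [dl_it]
    exact DuI_it s k hk

end Pool.Agent.PLB
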