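import Pool.Agent.PLB.CptA
import Pool.Agent.PLB.DuI

set_option autoImplicit false

/-! Theorem PB, section 6: an anti-automorphism of `X` fixing `o`.

PLAN. For every `j` the interval `I j = [s^-j o, s^j o]` has an anti-automorphism `d` (`PB.sd`, `RIG.exists_anti`). By `RIG.keyj`
(KeyJ.lean; `Key` for all bounds from `RIG.key1`) with `u = v = s^-j o` and `2 j`: `d (s^i u) = s^(2j-i) u` for `i ≤ 2 j`. So
`d` maps `I i` to itself for `i ≤ j` and `d o = o`. Koenig (`I j` is finite; compare the proof of `compact` in CptA.lean) gives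
compatible anti-automorphisms of all `I j`, whose union is an order isomorphism `D : X ≃o Xᵒᵈ` (every `x` is in some `I j` by
`PB.dir`). -/

namespace Pool.Agent.PLB

open Pool.Agent.Helper87.ML Pool.Agent.RIG OrderDual

universe u

variable {X : Type u} [Lattice X] [IsModularLattice X]

omit [IsModularLattice X] in
private theorem AntA_inv (s : X ≃o X) (k : ℕ) (x : X) : s^[k] (s.symm^[k] x) = x :=
  Function.RightInverse.iterate (f := s) (g := s.symm) s.apply_symm_apply k x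

omit [IsModularLattice X] in
private theorem AntA_lo (s : X ≃o X) (o : X) {i j : ℕ} (h : i ≤ j) :
    s^[j - i] (s.symm^[j] o) = s.symm^[i] o := by
  obtain ⟨m, rfl⟩ := Nat.exists_eq_add_of_le' h
  rw [Nat.add_sub_cancel, Function.iterate_add_apply, AntA_inv]

omit [IsModularLattice X] in
private theorem AntA_hi (s : X ≃o X) (o : X) (i j : ℕ) : s^[j + i] (s.symm^[j] o) = s^[i] o := by
  rw [Nat.add_comm, Function.iterate_add_apply, AntA_inv]

omit [IsModularLattice X] in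
private theorem AntA_itle (s : X ≃o X) (k : ℕ) (x y : X) : s^[k] x ≤ s^[k] y ↔ x ≤ y := by
  induction k with
  | zero => exact Iff.rfl
  | succ k ih =>
    rw [Function.iterate_succ_apply', Function.iterate_succ_apply', s.le_iff_le]
    exact ih

private theorem AntA_ex (s : X ≃o X) [PB X s] (o : X) (j : ℕ) :
    ∃ d : IAnti (s.symm^[j] o) (s^[j] o) (s.symm^[j] o) (s^[j] o),
      ∀ i ≤ j, d.f (s.symm^[i] o) = s^[i] o ∧ d.f (s^[i] o) = s.symm^[i] o := by
  have hs : IsUp (s : X → X) := PB.up (s := s)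
  have hSD : SD' X := PB.sd (s := s)
  have e : s^[2 * j] (s.symm^[j] o) = s^[j] o := by
    rw [two_mul]
    exact AntA_hi s o j j
  rw [← e]
  have hK : Key s (s.symm^[j] o) (s^[2 * j] (s.symm^[j] o)) := fun u v _ huv _ d =>
    key1 (PB.fin (s := s)) hSD hs huv (PB.pl u) (PB.pl v) d
  have hab : s.symm^[j] o ≤ s^[2 * j] (s.symm^[j] o) := le_it hs _ _
  obtain ⟨d⟩ := exists_anti hSD hab
  have h1 := keyj hSD hs hK (2 * j) _ _ le_rfl le_rfl le_rfl d
  refine ⟨d, fun i hi => ⟨?_, ?_⟩⟩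
  · have h2 := h1 (j - i) (by omega)
    rw [AntA_lo s o hi, show 2 * j - (j - i) = j + i by omega, AntA_hi] at h2
    exact h2
  · have h2 := h1 (j + i) (by omega)
    rw [AntA_hi, show 2 * j - (j + i) = j - i by omega, AntA_lo s o hi] at h2
    exact h2

omit [IsModularLattice X] in
private theorem AntA_bd {a b p q : X} (d : IAnti a b a b) (hp : a ≤ p) (hq : q ≤ b) (h1 : d.f p = q)
    (h2 : d.f q = p) {y : X} (hy : p ≤ y) (hy' : y ≤ q) : p ≤ d.f y ∧ d.f y ≤ q := by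
  have h3 : a ≤ y := hp.trans hy
  have h4 : y ≤ b := hy'.trans hq
  constructor
  · rw [← h2]
    exact (d.le q y (h3.trans hy') hq h3 h4).2 hy'
  · rw [← h1]
    exact (d.le y p h3 h4 hp (hy.trans h4)).2 hy

theorem exists_D (s : X ≃o X) [PB X s] (o : X) : ∃ D : X ≃o Xᵒᵈ, D o = toDual o := by
  have hs : IsUp (s : X → X) := PB.up (s := s)
  have hF : LF X := PB.fin (s := s)
  choose d hd using AntA_ex s o
  have hge : ∀ k, ∀ᶠ j in (Filter.hyperfilter ℕ : Filter ℕ), k ≤ j := fun k =>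
    Filter.hyperfilter_le_cofinite (Nat.cofinite_eq_atTop ▸ Filter.eventually_ge_atTop k)
  generalize hU : (Filter.hyperfilter ℕ : Ultrafilter ℕ) = U at hge
  have hlo : ∀ i j : ℕ, i ≤ j → s.symm^[j] o ≤ s.symm^[i] o := by
    intro i j h
    rw [← AntA_lo s o h]
    exact le_it hs _ _
  have hhi : ∀ i j : ℕ, i ≤ j → s^[i] o ≤ s^[j] o := fun i j h => it_le_it hs h o
  have hoo : ∀ i : ℕ, s.symm^[i] o ≤ s^[i] o := fun i => (hlo 0 i (Nat.zero_le i)).trans (hhi 0 i (Nat.zero_le i))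
  have hin : ∀ y, ∃ k, s.symm^[k] o ≤ y ∧ y ≤ s^[k] o := by
    intro y
    obtain ⟨k, hk⟩ := PB.dir (s := s) y o
    obtain ⟨l, hl⟩ := PB.dir (s := s) o y
    have h1 : s.symm^[l] o ≤ y := by
      rw [← AntA_itle s l, AntA_inv]
      exact hl
    exact ⟨max k l, (hlo _ _ (le_max_right k l)).trans h1, hk.trans (hhi _ _ (le_max_left k l))⟩
  have hev : ∀ y, ∀ᶠ j in (U : Filter ℕ), s.symm^[j] o ≤ y ∧ y ≤ s^[j] o := by
    intro y
    obtain ⟨k, hk, hk'⟩ := hin y
    exact (hge k).mono fun j hj => ⟨(hlo k j hj).trans hk, hk'.trans (hhi k j hj)⟩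
  have hlim : ∀ F : ℕ → X → X, (∀ i j, i ≤ j → ∀ y, s.symm^[i] o ≤ y → y ≤ s^[i] o →
      s.symm^[i] o ≤ F j y ∧ F j y ≤ s^[i] o) →
      ∃ G : X → X, ∀ y, ∀ᶠ j in (U : Filter ℕ), F j y = G y := by
    intro F hFb
    have h1 : ∀ y, ∃ v, ∀ᶠ j in (U : Filter ℕ), F j y = v := by
      intro y
      obtain ⟨k, hk, hk'⟩ := hin y
      have h2 : ∀ᶠ j in (U : Filter ℕ), ∃ v ∈ Set.Icc (s.symm^[k] o) (s^[k] o), F j y = v :=
        (hge k).mono fun j hj => ⟨F j y, hFb k j hj y hk hk', rfl⟩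
      rw [Ultrafilter.eventually_exists_mem_iff (hF (s.symm^[k] o) (s^[k] o))] at h2
      obtain ⟨v, -, h3⟩ := h2
      exact ⟨v, h3⟩
    choose G hG using h1
    exact ⟨G, hG⟩
  obtain ⟨G, hG⟩ := hlim (fun j => (d j).f) (fun i j hij y hy hy' =>
    AntA_bd (d j) (hlo i j hij) (hhi i j hij) (hd j i hij).1 (hd j i hij).2 hy hy')
  obtain ⟨G', hG'⟩ := hlim (fun j => (d j).g) (fun i j hij y hy hy' =>
    AntA_bd (d j).symm (hlo i j hij) (hhi i j hij)
      ((d j).g_eq ((hlo i j hij).trans (hoo i)) (hhi i j hij) (hd j i hij).2)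
      ((d j).g_eq (hlo i j hij) ((hoo i).trans (hhi i j hij)) (hd j i hij).1) hy hy')
  have hle : ∀ y w, G y ≤ G w ↔ w ≤ y := by
    intro y w
    obtain ⟨j, h1, h2, h3, h4⟩ := ((hG y).and ((hG w).and ((hev y).and (hev w)))).exists
    rw [← h1, ← h2]
    exact (d j).le y w h3.1 h3.2 h4.1 h4.2
  have e1 : ∀ y, G' (G y) = y := by
    intro y
    obtain ⟨j, h1, h2, h3⟩ := ((hG y).and ((hG' (G y)).and (hev y))).exists
    rw [← h2, ← h1]
    exact (d j).gf y h3.1 h3.2
  have e2 : ∀ y, G (G' y) = y := by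
    intro y
    obtain ⟨j, h1, h2, h3⟩ := ((hG' y).and ((hG (G' y)).and (hev y))).exists
    rw [← h2, ← h1]
    exact (d j).fg y h3.1 h3.2
  have e3 : G o = o := by
    obtain ⟨j, h1⟩ := (hG o).exists
    rw [← h1]
    exact (hd j 0 (Nat.zero_le j)).1
  refine ⟨⟨⟨fun y => toDual (G y), fun y => G' (ofDual y), e1, e2⟩, fun {y w} => ?_⟩, ?_⟩
  · exact hle w y
  · show toDual (G o) = toDual o
    rw [e3]

end Pool.Agent.PLB
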