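import Pool.Agent.PLB.VlA

set_option autoImplicit false

/-! Theorem PB, section 6: the stabilizer of `o` is transitive on the triangles which are far at `o`.

First one vertex and its opposite side are moved (`hom_far`), then two elations which fix `o` (`ela`)
move the two other vertices; the sides are determined by the vertices. -/

namespace Pool.Agent.PLB

open Pool.Agent.Helper87.ML Pool.Agent.RIG OrderDual
open scoped commutatorElement

universe u

variable {X : Type u} [Lattice X] [IsModularLattice X] {s : X ≃o X} [PB X s]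

/-- a point on the line through `f` and `p`, different from `p`, is far from `l` -/
private lemma antb_far {f p r : Pt s} {l : Ln s} {z : X} (hf : Far f l z) (hp : Inc p l)
    (hr : r.1 z ≤ f.1 z ⊔ p.1 z) (hrp : r.1 z ≠ p.1 z) : Far r l z := by
  intro h
  have h1 : r.1 z ≤ Hk l 1 z := h
  have h2 : p.1 z ≤ Hk l 1 z := inc_it hp 1 z
  have h3 : f.1 z ⊓ Hk l 1 z = z := far_inf hf 1 1
  have h4 : (p.1 z ⊔ f.1 z) ⊓ Hk l 1 z = p.1 z ⊔ f.1 z ⊓ Hk l 1 z :=
    (sup_inf_assoc_of_le _ h2)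
  rw [h3, sup_of_le_left (p.2.cov z).le, sup_comm] at h4
  have h5 : r.1 z ≤ p.1 z := by
    rw [← h4]
    exact le_inf hr h1
  rcases (p.2.cov z).eq_or_eq (r.2.cov z).le h5 with h6 | h6
  · exact (r.2.cov z).lt.ne' h6
  · exact hrp h6

private lemma antb_ne {f p : Pt s} {l : Ln s} {z : X} (hf : Far f l z) (hp : Inc p l) :
    f.1 z ≠ p.1 z := by
  intro h
  apply hf
  rw [h]
  exact hp z

/-- `e` on `l`, `f` far from `l`, `q` on `l` with `q o ≠ e o`: `e` is far from the line `q f` -/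
private lemma antb_off {o : X} {e f q : Pt s} {l m : Ln s} (hf : Far f l o) (he : Inc e l)
    (hq : Inc q l) (hqe : q.1 o ≠ e.1 o) (hqm : Inc q m) (hfm : Inc f m) : Far e m o := by
  intro h
  have h1 : e.1 o ≤ Hk m 1 o := h
  have h2 : f.1 o ⊔ q.1 o = Hk m 1 o := Hk_sup_it hfm hqm (antb_ne hf hq) 1
  rw [← h2] at h1
  exact far_not_inc (antb_far hf hq h1 (Ne.symm hqe)) he

private lemma antb_vne [Nonempty X] (F : Frame (Inc (s := s))) {i j : Fin 3} (hij : i ≠ j) :
    F.e i ≠ F.e j := by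
  intro h
  have h1 : Inc (F.e i) (F.l j) := (F.inc i j).2 hij
  rw [h] at h1
  exact (F.inc j j).1 h1 rfl

private lemma antb_side [Nonempty X] {F F' : Frame (Inc (s := s))} {i j k : Fin 3}
    (hij : i ≠ j) (hik : i ≠ k) (hjk : j ≠ k) (hi : F.e i = F'.e i) (hj : F.e j = F'.e j) :
    F.l k = F'.l k := by
  refine ((isPP s).line (F.e i) (F.e j) (antb_vne F hij)).unique
    ⟨(F.inc i k).2 hik, (F.inc j k).2 hjk⟩ ?_
  rw [hi, hj]
  exact ⟨(F'.inc i k).2 hik, (F'.inc j k).2 hjk⟩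

private lemma antb_lines [Nonempty X] {F F' : Frame (Inc (s := s))} (h : ∀ i, F.e i = F'.e i)
    (k : Fin 3) : F.l k = F'.l k := by
  fin_cases k
  · exact antb_side (i := 1) (j := 2) (by decide) (by decide) (by decide) (h 1) (h 2)
  · exact antb_side (i := 0) (j := 2) (by decide) (by decide) (by decide) (h 0) (h 2)
  · exact antb_side (i := 0) (j := 1) (by decide) (by decide) (by decide) (h 0) (h 1)

/-- the image of a triangle -/
private def antb_im (g : Gp X) (F : Frame (Inc (s := s))) : Frame (Inc (s := s)) where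
  e := fun i => g • F.e i
  l := fun i => g • F.l i
  inc i j := (smul_inc (g : X ≃o X) (F.e i) (F.l j)).trans (F.inc i j)

private lemma antb_imf {o : X} {g : Gp X} (hg : (g : X ≃o X) o = o) {F : Frame (Inc (s := s))}
    (hF : FarF o F) : FarF o (antb_im g F) := by
  intro i
  have h := (smul_far (g : X ≃o X) (F.e i) (F.l i) o).2 (hF i)
  rw [hg] at h
  exact h

theorem frame_trans {o : X} {F F' : Frame (Inc (s := s))} (hF : FarF o F) (hF' : FarF o F') :
    ∃ g : Gp X, (g : X ≃o X) o = o ∧ (∀ i, g • F.e i = F'.e i) ∧ ∀ i, g • F.l i = F'.l i := by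
  haveI : Nonempty X := ⟨o⟩
  obtain ⟨a, ha, ha2, hal⟩ := hom_far (hF 2) (hF' 2)
  -- first step
  obtain ⟨g1, hg1⟩ : ∃ g1 : Gp X, g1 = ⟨a, fix_mem_Gp s ha⟩ := ⟨_, rfl⟩
  have g1o : (g1 : X ≃o X) o = o := by
    rw [hg1]
    exact ha
  have g1e : g1 • F.e 2 = F'.e 2 := by
    rw [hg1]
    exact ha2
  have g1l : g1 • F.l 2 = F'.l 2 := by
    rw [hg1]
    exact hal
  have hF1 : FarF o (antb_im g1 F) := antb_imf g1o hF
  -- second step
  have e0 : Inc (g1 • F.e 0) (F'.l 2) := by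
    rw [← g1l]
    exact ((antb_im g1 F).inc 0 2).2 (by decide)
  have e0' : Inc (F'.e 0) (F'.l 2) := (F'.inc 0 2).2 (by decide)
  obtain ⟨q, hq, hq1, hq2⟩ := third_on (p := g1 • F.e 0) (q := F'.e 0) (h := F'.l 2) o
  have hq3 : F'.e 2 ≠ q := by
    rintro rfl
    exact far_not_inc (hF' 2) hq
  obtain ⟨m, ⟨hm2, hmq⟩, -⟩ := exists_line hq3
  obtain ⟨g2, g2o, g2t, g2e⟩ := ela (antb_off (hF' 2) e0 hq hq1 hmq hm2)
    (antb_off (hF' 2) e0' hq hq2 hmq hm2)
  have g2e2 : g2 • F'.e 2 = F'.e 2 := by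
    obtain ⟨c, -, hc⟩ := g2t
    exact hc.1 _ hm2
  have hF2 : FarF o (antb_im g2 (antb_im g1 F)) := antb_imf g2o hF1
  -- third step
  have p0 : (antb_im g2 (antb_im g1 F)).e 0 = F'.e 0 := g2e
  have p2 : (antb_im g2 (antb_im g1 F)).e 2 = F'.e 2 := by
    show g2 • g1 • F.e 2 = F'.e 2
    rw [g1e, g2e2]
  have l1 : (antb_im g2 (antb_im g1 F)).l 1 = F'.l 1 :=
    antb_side (i := 0) (j := 2) (by decide) (by decide) (by decide) p0 p2
  have k1 := hF2 1
  rw [l1] at k1
  obtain ⟨g3, g3o, g3t, g3e⟩ := ela k1 (hF' 1)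
  have g3f : ∀ p, Inc p (F'.l 1) → g3 • p = p := by
    obtain ⟨c, -, hc⟩ := g3t
    exact hc.1
  have g3e0 : g3 • F'.e 0 = F'.e 0 := g3f _ ((F'.inc 0 1).2 (by decide))
  have g3e2 : g3 • F'.e 2 = F'.e 2 := g3f _ ((F'.inc 2 1).2 (by decide))
  -- the end
  have he : ∀ i, (antb_im g3 (antb_im g2 (antb_im g1 F))).e i = F'.e i := by
    intro i
    fin_cases i
    · show g3 • (antb_im g2 (antb_im g1 F)).e 0 = F'.e 0
      rw [p0, g3e0]
    · exact g3e
    · show g3 • (antb_im g2 (antb_im g1 F)).e 2 = F'.e 2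
      rw [p2, g3e2]
  refine ⟨g3 * (g2 * g1), ?_, fun i => ?_, fun i => ?_⟩
  · show (g3 : X ≃o X) ((g2 : X ≃o X) ((g1 : X ≃o X) o)) = o
    rw [g1o, g2o, g3o]
  · rw [mul_smul, mul_smul]
    exact he i
  · rw [mul_smul, mul_smul]
    exact antb_lines he i

end Pool.Agent.PLB
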