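import Pool.Agent.PLB.VlA

set_option autoImplicit false

/-! Theorem PB, section 6: the action of an anti-automorphism `D` of `X` on points, lines and
automorphisms.

`D_s` by uniqueness of least upper bounds in `Xᵒᵈ`; everything else is transport of structure; `mu_D`, `nu_D`
by `mu_unique`, `nu_unique`. -/

namespace Pool.Agent.PLB

open Pool.Agent.Helper87.ML Pool.Agent.RIG OrderDual
open scoped commutatorElement

universe u

variable {X : Type u} [Lattice X] [IsModularLattice X] {s : X ≃o X} [PB X s]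

theorem D_s (s : X ≃o X) [PB X s] (D : X ≃o Xᵒᵈ) (x : X) :
    D (s x) = toDual (s.symm (ofDual (D x))) := by
  have h1 := (PB.up (s := s) x)
  have h2 := (PB.up (s := dl s) (D x))
  have h3 : IsLUB (insert (D x) {y | D x ⋖ y}) (D (s x)) := by
    have h4 := (OrderIso.isLUB_image' D (s := insert x {y | x ⋖ y}) (x := s x)).2 h1
    have h5 : D '' insert x {y | x ⋖ y} = insert (D x) {y | D x ⋖ y} := by
      ext y
      simp only [Set.mem_image, Set.mem_insert_iff, Set.mem_ofPred_eq]
      constructor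
      · rintro ⟨z, rfl | hz, rfl⟩
        · exact Or.inl rfl
        · exact Or.inr ((apply_covBy_apply_iff D).2 hz)
      · rintro (rfl | hy)
        · exact ⟨x, Or.inl rfl, rfl⟩
        · refine ⟨D.symm y, Or.inr ?_, D.apply_symm_apply y⟩
          rw [← apply_covBy_apply_iff D, D.apply_symm_apply]
          exact hy
    rwa [h5] at h4
  exact h3.unique h2

private theorem AntD_s' (s : X ≃o X) [PB X s] (D : X ≃o Xᵒᵈ) (x : X) :
    D (s.symm x) = toDual (s (ofDual (D x))) := by
  have h1 := D_s s D (s.symm x)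
  rw [s.apply_symm_apply] at h1
  rw [h1, ofDual_toDual, s.apply_symm_apply, toDual_ofDual]

private theorem AntD_symm (s : X ≃o X) [PB X s] (D : X ≃o Xᵒᵈ) (x : X) :
    D.symm (toDual (s x)) = s.symm (D.symm (toDual x)) := by
  rw [OrderIso.symm_apply_eq, AntD_s' s D, D.apply_symm_apply, ofDual_toDual]

private theorem AntD_symm' (s : X ≃o X) [PB X s] (D : X ≃o Xᵒᵈ) (x : X) :
    D.symm (toDual (s.symm x)) = s (D.symm (toDual x)) := by
  rw [OrderIso.symm_apply_eq, D_s s D, D.apply_symm_apply, ofDual_toDual]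

omit [IsModularLattice X] in
private theorem AntD_ex (D : X ≃o Xᵒᵈ) (x : X) : ∃ z, x = ofDual (D z) :=
  ⟨D.symm (toDual x), by rw [D.apply_symm_apply, ofDual_toDual]⟩

/-- the line `D f D⁻¹` -/
def Dpt (D : X ≃o Xᵒᵈ) (f : Pt s) : Ln s :=
  ⟨fun x => ofDual (D (f.1 (D.symm (toDual x)))), by
    refine ⟨fun x y h => ?_, fun x => ?_, fun x h => ?_, fun x => ?_⟩
    · have h1 : D.symm (toDual y) ≤ D.symm (toDual x) := D.symm.monotone (toDual_le_toDual.2 h)
      exact D.monotone (f.2.mono h1)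
    · have h1 : D (D.symm (toDual x)) ⋖ D (f.1 (D.symm (toDual x))) :=
        (apply_covBy_apply_iff D).2 (f.2.cov _)
      rw [D.apply_symm_apply] at h1
      exact toDual_covBy_toDual_iff.1 h1
    · rw [toDual_ofDual, D.symm_apply_apply] at h
      apply f.2.str (D.symm (toDual x))
      rw [← D.le_iff_le, D_s s D, D.apply_symm_apply, ofDual_toDual]
      exact h
    · show ofDual (D (f.1 (D.symm (toDual (s x))))) = s (ofDual (D (f.1 (D.symm (toDual x)))))
      rw [AntD_symm s D, pt_comm_symm, AntD_s' s D, ofDual_toDual]⟩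

/-- the point `D h D⁻¹` -/
def Dln (D : X ≃o Xᵒᵈ) (h : Ln s) : Pt s :=
  ⟨fun x => ofDual (D (h.1 (D.symm (toDual x)))), by
    refine ⟨fun x y h' => ?_, fun x => ?_, fun x h' => ?_, fun x => ?_⟩
    · have h1 : D.symm (toDual y) ≤ D.symm (toDual x) := D.symm.monotone (toDual_le_toDual.2 h')
      exact D.monotone (h.2.mono h1)
    · have h1 : D (h.1 (D.symm (toDual x))) ⋖ D (D.symm (toDual x)) :=
        (apply_covBy_apply_iff D).2 (h.2.cov _)
      rw [D.apply_symm_apply] at h1
      exact toDual_covBy_toDual_iff.1 h1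
    · rw [toDual_ofDual, D.symm_apply_apply] at h'
      apply h.2.str (D.symm (toDual x))
      rw [← D.le_iff_le, AntD_s' s D, D.apply_symm_apply, ofDual_toDual]
      exact h'
    · show ofDual (D (h.1 (D.symm (toDual (s x))))) = s (ofDual (D (h.1 (D.symm (toDual x)))))
      rw [AntD_symm s D, ln_comm_symm, AntD_s' s D, ofDual_toDual]⟩

omit [IsModularLattice X] in
/-- conjugation by `D` -/
def al (D : X ≃o Xᵒᵈ) : Gp X ≃* Gp X where
  toFun g := ⟨⟨⟨fun x => ofDual (D ((g : X ≃o X) (D.symm (toDual x)))),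
    fun x => ofDual (D ((g : X ≃o X).symm (D.symm (toDual x)))), fun x => by simp,
    fun x => by simp⟩, by
      intro a b
      show ofDual (D ((g : X ≃o X) (D.symm (toDual a)))) ≤
        ofDual (D ((g : X ≃o X) (D.symm (toDual b)))) ↔ a ≤ b
      rw [ofDual_le_ofDual, D.le_iff_le, (g : X ≃o X).le_iff_le, D.symm.le_iff_le,
        toDual_le_toDual]⟩, by
      intro r hr x
      show r (ofDual (D ((g : X ≃o X) (D.symm (toDual x))))) = r x
      have h1 := g.2 (fun z => - r (ofDual (D z))) (fun y z hyz => by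
        have h2 : ofDual (D z) ⋖ ofDual (D y) :=
          toDual_covBy_toDual_iff.1 ((apply_covBy_apply_iff D).2 hyz)
        have h3 := hr _ _ h2
        show - r (ofDual (D z)) = - r (ofDual (D y)) + 1
        linarith) (D.symm (toDual x))
      have h2 : - r (ofDual (D ((g : X ≃o X) (D.symm (toDual x))))) =
        - r (ofDual (D (D.symm (toDual x)))) := h1
      rw [D.apply_symm_apply, ofDual_toDual] at h2
      linarith⟩
  invFun g := ⟨⟨⟨fun x => D.symm (toDual ((g : X ≃o X) (ofDual (D x)))),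
    fun x => D.symm (toDual ((g : X ≃o X).symm (ofDual (D x)))), fun x => by simp,
    fun x => by simp⟩, by
      intro a b
      show D.symm (toDual ((g : X ≃o X) (ofDual (D a)))) ≤
        D.symm (toDual ((g : X ≃o X) (ofDual (D b)))) ↔ a ≤ b
      rw [D.symm.le_iff_le, toDual_le_toDual, (g : X ≃o X).le_iff_le, ofDual_le_ofDual,
        D.le_iff_le]⟩, by
      intro r hr x
      show r (D.symm (toDual ((g : X ≃o X) (ofDual (D x))))) = r x
      have h1 := g.2 (fun z => - r (D.symm (toDual z))) (fun y z hyz => by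
        have h2 : D.symm (toDual z) ⋖ D.symm (toDual y) :=
          (apply_covBy_apply_iff D.symm).2 (toDual_covBy_toDual_iff.2 hyz)
        have h3 := hr _ _ h2
        show - r (D.symm (toDual z)) = - r (D.symm (toDual y)) + 1
        linarith) (ofDual (D x))
      have h2 : - r (D.symm (toDual ((g : X ≃o X) (ofDual (D x))))) =
        - r (D.symm (toDual (ofDual (D x)))) := h1
      rw [toDual_ofDual, D.symm_apply_apply] at h2
      linarith⟩
  left_inv g := by
    apply Subtype.ext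
    apply OrderIso.ext
    funext x
    show D.symm (toDual (ofDual (D ((g : X ≃o X) (D.symm (toDual (ofDual (D x)))))))) = _
    simp
  right_inv g := by
    apply Subtype.ext
    apply OrderIso.ext
    funext x
    show ofDual (D (D.symm (toDual ((g : X ≃o X) (ofDual (D (D.symm (toDual x)))))))) = _
    simp
  map_mul' g g' := by
    apply Subtype.ext
    apply OrderIso.ext
    funext x
    show ofDual (D ((g : X ≃o X) ((g' : X ≃o X) (D.symm (toDual x))))) =
      ofDual (D ((g : X ≃o X) (D.symm (toDual (ofDual (D ((g' : X ≃o X) (D.symm (toDual x)))))))))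
    simp

theorem dpt_app (D : X ≃o Xᵒᵈ) (f : Pt s) (x : X) :
    (Dpt D f).1 (ofDual (D x)) = ofDual (D (f.1 x)) := by
  show ofDual (D (f.1 (D.symm (toDual (ofDual (D x)))))) = _
  rw [toDual_ofDual, D.symm_apply_apply]

theorem dln_app (D : X ≃o Xᵒᵈ) (h : Ln s) (x : X) :
    (Dln D h).1 (ofDual (D x)) = ofDual (D (h.1 x)) := by
  show ofDual (D (h.1 (D.symm (toDual (ofDual (D x)))))) = _
  rw [toDual_ofDual, D.symm_apply_apply]

omit [IsModularLattice X] in
theorem al_app (D : X ≃o Xᵒᵈ) (g : Gp X) (x : X) :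
    (al D g : X ≃o X) (ofDual (D x)) = ofDual (D ((g : X ≃o X) x)) := by
  show ofDual (D ((g : X ≃o X) (D.symm (toDual (ofDual (D x)))))) = _
  rw [toDual_ofDual, D.symm_apply_apply]

theorem inc_D (D : X ≃o Xᵒᵈ) (f : Pt s) (h : Ln s) : Inc (Dln D h) (Dpt D f) ↔ Inc f h := by
  have key : ∀ z, (Dln D h).1 (ofDual (D z)) ≤ (Dpt D f).1 (s (ofDual (D z))) ↔
      f.1 (s.symm z) ≤ h.1 z := by
    intro z
    have h1 : s (ofDual (D z)) = ofDual (D (s.symm z)) := by
      rw [AntD_s' s D, ofDual_toDual]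
    rw [h1, dln_app, dpt_app, ofDual_le_ofDual, D.le_iff_le]
  constructor
  · intro k x
    have h1 := (key (s x)).1 (k _)
    rwa [s.symm_apply_apply] at h1
  · intro k x
    obtain ⟨z, rfl⟩ := AntD_ex D x
    rw [key]
    have h1 := k (s.symm z)
    rwa [s.apply_symm_apply] at h1

private theorem AntD_sln (g : X ≃o X) (h : Ln s) (x : X) : (g • h).1 (g x) = g (h.1 x) := by
  show g (h.1 (g.symm (g x))) = _
  rw [g.symm_apply_apply]

private theorem AntD_spt (g : X ≃o X) (f : Pt s) (x : X) : (g • f).1 (g x) = g (f.1 x) := by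
  show g (f.1 (g.symm (g x))) = _
  rw [g.symm_apply_apply]

theorem al_dln (D : X ≃o Xᵒᵈ) (g : Gp X) (h : Ln s) : al D g • Dln D h = Dln D (g • h) := by
  apply Pt.ext
  intro x
  obtain ⟨w, rfl⟩ := AntD_ex D x
  obtain ⟨z, rfl⟩ := (g : X ≃o X).surjective w
  have h1 : (Dln D (g • h)).1 (ofDual (D ((g : X ≃o X) z))) =
      ofDual (D ((g : X ≃o X) (h.1 z))) := by
    rw [dln_app]
    congr 2
    exact AntD_sln (g : X ≃o X) h z
  rw [h1, ← al_app, ← al_app, ← dln_app]
  exact AntD_spt (al D g : X ≃o X) (Dln D h) (ofDual (D z))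

theorem al_dpt (D : X ≃o Xᵒᵈ) (g : Gp X) (f : Pt s) : al D g • Dpt D f = Dpt D (g • f) := by
  apply Ln.ext
  intro x
  obtain ⟨w, rfl⟩ := AntD_ex D x
  obtain ⟨z, rfl⟩ := (g : X ≃o X).surjective w
  have h1 : (Dpt D (g • f)).1 (ofDual (D ((g : X ≃o X) z))) =
      ofDual (D ((g : X ≃o X) (f.1 z))) := by
    rw [dpt_app]
    congr 2
    exact AntD_spt (g : X ≃o X) f z
  rw [h1, ← al_app, ← al_app, ← dpt_app]
  exact AntD_sln (al D g : X ≃o X) (Dpt D f) (ofDual (D z))

/-- the inverse anti-automorphism -/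
private def AntD_inv (D : X ≃o Xᵒᵈ) : X ≃o Xᵒᵈ where
  toFun x := toDual (D.symm (toDual x))
  invFun y := ofDual (D (ofDual y))
  left_inv x := by simp
  right_inv y := by simp
  map_rel_iff' := by
    intro a b
    show toDual (D.symm (toDual a)) ≤ toDual (D.symm (toDual b)) ↔ a ≤ b
    rw [toDual_le_toDual, D.symm.le_iff_le, toDual_le_toDual]

theorem dln_surj (D : X ≃o Xᵒᵈ) (f : Pt s) : ∃ h : Ln s, Dln D h = f := by
  refine ⟨Dpt (AntD_inv D) f, ?_⟩
  apply Pt.ext
  intro x
  show ofDual (D (ofDual (toDual (D.symm (toDual (f.1 (ofDual (D (ofDual (toDual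
    (D.symm (toDual x)))))))))))) = f.1 x
  simp

theorem dpt_surj (D : X ≃o Xᵒᵈ) (h : Ln s) : ∃ f : Pt s, Dpt D f = h := by
  refine ⟨Dln (AntD_inv D) h, ?_⟩
  apply Ln.ext
  intro x
  show ofDual (D (ofDual (toDual (D.symm (toDual (h.1 (ofDual (D (ofDual (toDual
    (D.symm (toDual x)))))))))))) = h.1 x
  simp

theorem far_D {D : X ≃o Xᵒᵈ} {o : X} (hD : D o = toDual o) (f : Pt s) (h : Ln s) :
    Far (Dln D h) (Dpt D f) o ↔ Far f h o := by
  have e0 : o = ofDual (D o) := by rw [hD, ofDual_toDual]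
  have e1 : (Dln D h).1 o = ofDual (D (h.1 o)) := by
    conv_lhs => rw [e0]
    rw [dln_app]
  have e2 : (Dpt D f).1 (s o) = ofDual (D (f.1 (s.symm o))) := by
    have h1 : s o = ofDual (D (s.symm o)) := by
      rw [AntD_s' s D, hD]
      rfl
    rw [h1, dpt_app]
  unfold Far
  rw [e1, e2, ofDual_le_ofDual, D.le_iff_le, ← s.le_iff_le, ← f.2.comm, ← h.2.comm,
    s.apply_symm_apply]

theorem mu_D {D : X ≃o Xᵒᵈ} {o : X} (hD : D o = toDual o) (h : Ln s) (x : X) :
    mu o (Dln D h) (ofDual (D x)) = - nu o h x := by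
  have k := (nu_spec o h).1
  have hm : IsMu s (Dln D h).1 (fun y => - nu o h (D.symm (toDual y))) := by
    refine ⟨fun y z hyz => ?_, fun y => ?_, fun y z => ?_, fun y z hyz => ?_⟩
    · have h1 := k.mono (D.symm.monotone (toDual_le_toDual.2 hyz))
      show - nu o h (D.symm (toDual y)) ≤ - nu o h (D.symm (toDual z))
      linarith
    · show - nu o h (D.symm (toDual (s y))) = - nu o h (D.symm (toDual y)) + 1
      have h1 := k.sh (s.symm (D.symm (toDual y)))
      rw [s.apply_symm_apply] at h1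
      rw [AntD_symm s D]
      linarith
    · show - nu o h (D.symm (toDual (y ⊓ z))) =
        min (- nu o h (D.symm (toDual y))) (- nu o h (D.symm (toDual z)))
      rw [toDual_inf, map_sup, k.sup, min_neg_neg]
    · show (Dln D h).1 y ≤ z ↔ - nu o h (D.symm (toDual y)) < - nu o h (D.symm (toDual z))
      obtain ⟨u, rfl⟩ := AntD_ex D y
      obtain ⟨v, rfl⟩ := AntD_ex D z
      rw [ofDual_le_ofDual, D.le_iff_le] at hyz
      rw [dln_app, ofDual_le_ofDual, D.le_iff_le, toDual_ofDual, toDual_ofDual,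
        D.symm_apply_apply, D.symm_apply_apply, k.lev v u hyz]
      constructor <;> intro h1 <;> linarith
  have h1 := mu_unique (mu_spec o (Dln D h)).1 hm (ofDual (D x)) o
  have h2 : D.symm (toDual o) = o := by rw [OrderIso.symm_apply_eq, hD]
  simp only [toDual_ofDual, D.symm_apply_apply, h2, (mu_spec o (Dln D h)).2, (nu_spec o h).2] at h1
  linarith

theorem nu_D {D : X ≃o Xᵒᵈ} {o : X} (hD : D o = toDual o) (f : Pt s) (x : X) :
    nu o (Dpt D f) (ofDual (D x)) = - mu o f x := by
  have k := (mu_spec o f).1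
  have hm : IsNu s (Dpt D f).1 (fun y => - mu o f (D.symm (toDual y))) := by
    refine ⟨fun y z hyz => ?_, fun y => ?_, fun y z => ?_, fun y z hyz => ?_⟩
    · have h1 := k.mono (D.symm.monotone (toDual_le_toDual.2 hyz))
      show - mu o f (D.symm (toDual y)) ≤ - mu o f (D.symm (toDual z))
      linarith
    · show - mu o f (D.symm (toDual (s y))) = - mu o f (D.symm (toDual y)) + 1
      have h1 := k.sh (s.symm (D.symm (toDual y)))
      rw [s.apply_symm_apply] at h1
      rw [AntD_symm s D]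
      linarith
    · show - mu o f (D.symm (toDual (y ⊔ z))) =
        max (- mu o f (D.symm (toDual y))) (- mu o f (D.symm (toDual z)))
      rw [toDual_sup, map_inf, k.inf, max_neg_neg]
    · show y ≤ (Dpt D f).1 z ↔ - mu o f (D.symm (toDual y)) < - mu o f (D.symm (toDual z))
      obtain ⟨u, rfl⟩ := AntD_ex D y
      obtain ⟨v, rfl⟩ := AntD_ex D z
      rw [ofDual_le_ofDual, D.le_iff_le] at hyz
      rw [dpt_app, ofDual_le_ofDual, D.le_iff_le, toDual_ofDual, toDual_ofDual,
        D.symm_apply_apply, D.symm_apply_apply, k.lev v u hyz]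
      constructor <;> intro h1 <;> linarith
  have h1 := nu_unique (nu_spec o (Dpt D f)).1 hm (ofDual (D x)) o
  have h2 : D.symm (toDual o) = o := by rw [OrderIso.symm_apply_eq, hD]
  simp only [toDual_ofDual, D.symm_apply_apply, h2, (nu_spec o (Dpt D f)).2, (mu_spec o f).2] at h1
  linarith

theorem fx_D {D : X ≃o Xᵒᵈ} {o : X} (hD : D o = toDual o) (p : Pt s) (l : Ln s) (n : ℤ)
    (g : Gp X) : Fx o (Dln D l) (Dpt D p) n (al D g) ↔ Fx o p l n g := by
  have key : ∀ w, (al D g : X ≃o X) (ofDual (D w)) = ofDual (D w) ↔ (g : X ≃o X) w = w := by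
    intro w
    rw [al_app, ofDual_inj, D.injective.eq_iff]
  have key2 : ∀ w, mu o (Dln D l) (ofDual (D w)) - nu o (Dpt D p) (ofDual (D w)) =
      mu o p w - nu o l w := by
    intro w
    rw [mu_D hD, nu_D hD]
    ring
  constructor
  · intro h w hw
    exact (key w).1 (h _ (by rw [key2]; exact hw))
  · intro h z hz
    obtain ⟨w, rfl⟩ := AntD_ex D z
    rw [key2] at hz
    exact (key w).2 (h w hz)

private theorem AntD_dln_inj (D : X ≃o Xᵒᵈ) {h h' : Ln s} (e : Dln D h = Dln D h') : h = h' := by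
  apply Ln.ext
  intro x
  have h1 : (Dln D h).1 (ofDual (D x)) = (Dln D h').1 (ofDual (D x)) := by rw [e]
  rw [dln_app, dln_app, ofDual_inj, D.injective.eq_iff] at h1
  exact h1

private theorem AntD_dpt_inj (D : X ≃o Xᵒᵈ) {h h' : Pt s} (e : Dpt D h = Dpt D h') : h = h' := by
  apply Pt.ext
  intro x
  have h1 : (Dpt D h).1 (ofDual (D x)) = (Dpt D h').1 (ofDual (D x)) := by rw [e]
  rw [dpt_app, dpt_app, ofDual_inj, D.injective.eq_iff] at h1
  exact h1

theorem el_D (D : X ≃o Xᵒᵈ) (p : Pt s) (l : Ln s) (g : Gp X) :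
    al D g ∈ El (Gp X) (Inc (s := s)) (Dln D l) (Dpt D p) ↔
      g ∈ El (Gp X) (Inc (s := s)) p l := by
  constructor
  · rintro ⟨h1, h2⟩
    refine ⟨fun q hq => ?_, fun m hm => ?_⟩
    · have h3 := h2 (Dpt D q) ((inc_D D q l).2 hq)
      rw [al_dpt] at h3
      exact AntD_dpt_inj D h3
    · have h3 := h1 (Dln D m) ((inc_D D p m).2 hm)
      rw [al_dln] at h3
      exact AntD_dln_inj D h3
  · rintro ⟨h1, h2⟩
    refine ⟨fun q hq => ?_, fun m hm => ?_⟩
    · obtain ⟨h, rfl⟩ := dln_surj D q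
      rw [al_dln, h2 h ((inc_D D p h).1 hq)]
    · obtain ⟨f, rfl⟩ := dpt_surj D m
      rw [al_dpt, h1 f ((inc_D D f l).1 hm)]

end Pool.Agent.PLB
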