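import Pool.Agent.PLB.AntA
import Pool.Agent.PLB.AntB
import Pool.Agent.PLB.AntD

set_option autoImplicit false

/-! Theorem PB, section 6: an anti-automorphism which fixes `o` and exchanges the points and the
opposite sides of a triangle.

PLAN. `D₀` from `exists_D`; the triangle `F'`: `e i = Dln D₀ (F.l i)`, `l i = Dpt D₀ (F.e i)` (`inc_D`) is far at `o` (`far_D`), so
`frame_trans` gives `g` with `g o = o`, `g • F'.e i = F.e i`, `g • F'.l i = F.l i`; `D = D₀` followed by `g`. -/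

namespace Pool.Agent.PLB

open Pool.Agent.Helper87.ML Pool.Agent.RIG OrderDual
open scoped commutatorElement

universe u

variable {X : Type u} [Lattice X] [IsModularLattice X] {s : X ≃o X} [PB X s]

theorem exists_DF {o : X} {F : Frame (Inc (s := s))} (hF : FarF o F) :
    ∃ D : X ≃o Xᵒᵈ, D o = toDual o ∧ (∀ i, Dln D (F.l i) = F.e i) ∧
      ∀ i, Dpt D (F.e i) = F.l i := by
  obtain ⟨D₀, hD₀⟩ := exists_D s o
  have hinc : ∀ i j, Inc (Dln D₀ (F.l i)) (Dpt D₀ (F.e j)) ↔ i ≠ j := by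
    intro i j
    rw [inc_D, F.inc]
    exact ne_comm
  have hF' : FarF o (⟨fun i => Dln D₀ (F.l i), fun i => Dpt D₀ (F.e i), hinc⟩ :
      Frame (Inc (s := s))) := fun i => (far_D hD₀ (F.e i) (F.l i)).2 (hF i)
  obtain ⟨g, hg0, hg1, hg2⟩ := frame_trans hF' hF
  refine ⟨D₀.trans (g : X ≃o X).dual, ?_, fun i => ?_, fun i => ?_⟩
  · show toDual ((g : X ≃o X) (ofDual (D₀ o))) = toDual o
    rw [hD₀]
    show toDual ((g : X ≃o X) o) = toDual o
    rw [hg0]
  · exact (hg1 i : g • Dln D₀ (F.l i) = F.e i)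
  · exact (hg2 i : g • Dpt D₀ (F.e i) = F.l i)

end Pool.Agent.PLB
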