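import Pool.Agent.PLB.RtV

set_option autoImplicit false

/-! Theorem PB, section 5: the value of `tau u φ` is the smallest value of an entry of the matrix `u φ`.

PLAN. Let `j` be an index with `φ j ≠ 0` of smallest value (`Vl.ex`), `φ = ls c φ'`, `c = φ j`, `φ' j = 1`, all `φ' i ∈ V 0`
(`φ' i = c⁻¹ φ i`; `Vl.mul` and the value of an inverse: from `Vl.mul'`, `Vl.one`). `tau u φ = tau (rs u c) φ'` (`TC.scal`,
`rs u c ≠ 0`, same point, `HC.pt_eq`, and same line `HC.ln_eq`), and `u i φ k = (u i c) φ' k`; so assume `φ j = 1`, `φ i ∈ V 0`.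
`M = tau (ev j) (φ - ev j)` (`dot (φ - ev j) (ev j) = 0`) is a product of two root elements `x_ji (φ i)`, `i ≠ j` (`TC.add_r`,
`TC.scal`), so it fixes `o` (`rt_fix`). `M` acts on columns by `w ↦ w + ev j (φ w - w j)` and on rows: `M • ln φ = ln (ev j)`
(`act_ln`: `φ - (φ j)(φ - ev j) = ev j`). `TC.conj`: `M (tau u φ) M⁻¹ = tau u' (ev j)`, `u' = u + ev j (φ u - u j) = u - ev j (u j)`,
so `u' j = 0`, `u' i = u i` for `i ≠ j` (`u' ≠ 0` as `dot φ u = 0`). `fx_conj` and `ax_val`: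
`Fx n (tau u φ) ↔ ∀ i ≠ j, u i ∈ V n`, and `u j = - Σ φ i u i` is then in `V n`, as are all `u i φ k`. -/

namespace Pool.Agent.PLB

open Pool.Agent.Helper87.ML Pool.Agent.RIG OrderDual
open scoped commutatorElement

universe u

variable {X : Type u} [Lattice X] [IsModularLattice X] {s : X ≃o X} [PB X s]

private theorem FxT_cases : ∀ i j k m : Fin 3, i ≠ j → j ≠ k → i ≠ k → m = i ∨ m = j ∨ m = k := by
  decide

private theorem FxT_others : ∀ j : Fin 3, ∃ i k : Fin 3, i ≠ j ∧ j ≠ k ∧ i ≠ k := by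
  decide

section FxTAlg

variable {K : Type*} [DivisionRing K]

private theorem FxT_dot (φ u : Fin 3 → K) : dot φ u = ∑ i, φ i * u i := by
  rw [Fin.sum_univ_three]
  rfl

private theorem FxT_dot_ev (φ : Fin 3 → K) (j : Fin 3) : dot φ (ev j) = φ j := by
  rw [FxT_dot]
  simp [ev, Pi.single_apply]

private theorem FxT_dot_sub (φ ψ u : Fin 3 → K) : dot (φ - ψ) u = dot φ u - dot ψ u := by
  simp only [FxT_dot, Pi.sub_apply, sub_mul, Finset.sum_sub_distrib]

private theorem FxT_ev_dot (u : Fin 3 → K) (j : Fin 3) : dot (ev j) u = u j := by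
  rw [FxT_dot]
  simp [ev, Pi.single_apply]

private theorem FxT_ev_ne {i j : Fin 3} (h : i ≠ j) : dot (ev i : Fin 3 → K) (ev j) = 0 := by
  rw [FxT_dot_ev]
  simp [ev, h.symm]

/-- antitone family -/
private theorem FxT_anti {V : ℤ → AddSubgroup K} (hV : Vl K V) {m n : ℤ} (h : m ≤ n) :
    V n ≤ V m := by
  obtain ⟨k, rfl⟩ := Int.le.dest h
  induction k with
  | zero => simp
  | succ k ih =>
    refine le_trans ?_ (ih (by omega))
    have h1 := hV.anti (m + k)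
    have h2 : m + ((k + 1 : ℕ) : ℤ) = m + k + 1 := by push_cast; ring
    rw [h2]
    exact h1

/-- the value of the inverse -/
private theorem FxT_inv {V : ℤ → AddSubgroup K} (hV : Vl K V) {a : K} (ha : a ≠ 0) {m : ℤ}
    (h : a ∈ V m) (h' : a ∉ V (m + 1)) : a⁻¹ ∈ V (-m) := by
  obtain ⟨m', h1, h2⟩ := hV.ex a⁻¹ (inv_ne_zero ha)
  have h3 := hV.mul m m' a a⁻¹ h h1
  have h4 := hV.mul' m m' a a⁻¹ h h' h1 h2
  rw [mul_inv_cancel₀ ha] at h3 h4
  have h5 : m + m' < 1 := by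
    by_contra hc
    exact hV.one' (FxT_anti hV (not_lt.1 hc) h3)
  have h6 : 0 < m + m' + 1 := by
    by_contra hc
    exact h4 (FxT_anti hV (not_lt.1 hc) hV.one)
  have h7 : m' = -m := by omega
  rwa [h7] at h1

/-- an entry of smallest value -/
private theorem FxT_min {V : ℤ → AddSubgroup K} (hV : Vl K V) {φ : Fin 3 → K} (hφ : φ ≠ 0) :
    ∃ j m, φ j ≠ 0 ∧ φ j ∈ V m ∧ φ j ∉ V (m + 1) ∧ ∀ i, φ i ∈ V m := by
  classical
  have h1 : ∀ i : Fin 3, ∃ m, φ i ≠ 0 → φ i ∈ V m ∧ φ i ∉ V (m + 1) := by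
    intro i
    by_cases h : φ i = 0
    · exact ⟨0, fun h' => absurd h h'⟩
    · obtain ⟨m, hm⟩ := hV.ex _ h
      exact ⟨m, fun _ => hm⟩
  choose v hv using h1
  obtain ⟨i0, hi0⟩ : ∃ i, φ i ≠ 0 := by
    by_contra hc
    push Not at hc
    exact hφ (funext hc)
  obtain ⟨j, hj, hmin⟩ := Finset.exists_min_image (Finset.univ.filter fun i => φ i ≠ 0) v
    ⟨i0, Finset.mem_filter.2 ⟨Finset.mem_univ _, hi0⟩⟩
  have hj' := (Finset.mem_filter.1 hj).2
  refine ⟨j, v j, hj', (hv j hj').1, (hv j hj').2, fun i => ?_⟩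
  by_cases h : φ i = 0
  · rw [h]
    exact (V (v j)).zero_mem
  · exact FxT_anti hV (hmin i (Finset.mem_filter.2 ⟨Finset.mem_univ _, h⟩)) (hv i h).1

private theorem FxT_uj {V : ℤ → AddSubgroup K} {φ u : Fin 3 → K} {j : Fin 3} (hj : φ j = 1)
    (h : dot φ u = 0) : u j = -∑ i ∈ Finset.univ.erase j, φ i * u i := by
  rw [FxT_dot, ← Finset.add_sum_erase _ _ (Finset.mem_univ j), hj, one_mul] at h
  exact eq_neg_of_add_eq_zero_left h

end FxTAlg

section FxTMain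

variable {o : X} {F : Frame (Inc (s := s))} {K : Type u} [DivisionRing K]
    {V : ℤ → AddSubgroup K} {xa xb xc : K → Gp X} {pt : (Fin 3 → K) → Pt s}
    {ln : (Fin 3 → K) → Ln s} {tau : (Fin 3 → K) → (Fin 3 → K) → Gp X}

private theorem FxT_fixo (hC : CR o F K V xa xb xc) (hH : HC F K xa xb xc pt ln)
    (hT : TC F K xa xb xc pt ln tau) {i j k : Fin 3} (hij : i ≠ j) (hjk : j ≠ k) (hik : i ≠ k)
    {φ : Fin 3 → K} (hj : φ j = 1) (hφ : ∀ i, φ i ∈ V 0) :
    (tau (ev j) (φ - ev j) : X ≃o X) o = o := by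
  have h1 : φ - ev j = ls (φ i) (ev i) + ls (φ k) (ev k) := by
    funext m
    have hm : m = i ∨ m = j ∨ m = k := FxT_cases i j k m hij hjk hik
    simp only [Pi.sub_apply, Pi.add_apply, ls, ev, Pi.single_apply]
    rcases hm with rfl | rfl | rfl
    · simp [hij, hik]
    · simp [hj, hij.symm, hjk]
    · simp [hik.symm, hjk.symm]
  have e1 : dot (ev i : Fin 3 → K) (ev j) = 0 := FxT_ev_ne hij
  have e2 : dot (ev k : Fin 3 → K) (ev j) = 0 := FxT_ev_ne hjk.symm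
  have e3 : dot (ls (φ i) (ev i)) (ev j) = 0 := by
    rw [FxT_dot_ev]
    simp [ls, ev, hij.symm]
  have e4 : dot (ls (φ k) (ev k)) (ev j) = 0 := by
    rw [FxT_dot_ev]
    simp [ls, ev, hjk]
  rw [h1, hT.add_r _ _ _ e3 e4, ← hT.scal _ _ _ e1, ← hT.scal _ _ _ e2]
  have f1 := rt_fix hC hH hT hij.symm (hφ i)
  have f2 := rt_fix hC hH hT hjk (hφ k)
  show (tau (rs (ev j) (φ i)) (ev i) : X ≃o X) ((tau (rs (ev j) (φ k)) (ev k) : X ≃o X) o) = o
  rw [f2, f1]

private theorem FxT_main (hC : CR o F K V xa xb xc) (hH : HC F K xa xb xc pt ln)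
    (hT : TC F K xa xb xc pt ln tau) {u φ : Fin 3 → K} (hu : u ≠ 0) (h : dot φ u = 0) {j : Fin 3}
    (hj : φ j = 1) (hφ : ∀ i, φ i ∈ V 0) (n : ℤ) :
    Fx o (pt u) (ln φ) n (tau u φ) ↔ ∀ i j, u i * φ j ∈ V n := by
  obtain ⟨i, k, hij, hjk, hik⟩ := FxT_others j
  have hφ0 : φ ≠ 0 := by
    intro h0
    rw [h0] at hj
    exact zero_ne_one hj
  have hfix := FxT_fixo hC hH hT hij hjk hik hj hφ
  have hd : dot (φ - ev j) (ev j) = 0 := by
    rw [FxT_dot_ev, Pi.sub_apply, hj]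
    simp [ev]
  have hdu : dot (φ - ev j) u = -u j := by
    rw [FxT_dot_sub, h, FxT_ev_dot, zero_sub]
  have hrow : φ - ls (dot φ (ev j)) (φ - ev j) = ev j := by
    funext m
    simp only [FxT_dot_ev, hj, ls, Pi.sub_apply, one_mul, sub_sub_cancel]
  have h1 := fx_conj (o := o) (pt u) (ln φ) n (tau u φ) (tau (ev j) (φ - ev j)) hfix
  rw [hT.act _ _ hd u hu, hT.act_ln _ _ hd φ hφ0, hT.conj _ _ _ _ hd h, hrow, hdu, hH.l] at h1
  rw [← h1]
  have huj : (u + rs (ev j) (-u j)) j = 0 := by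
    simp [rs, ev]
  have hui : ∀ i, i ≠ j → (u + rs (ev j) (-u j)) i = u i := by
    intro i hi
    simp [rs, ev, hi]
  have hu' : u + rs (ev j) (-u j) ≠ 0 := by
    intro h0
    apply hu
    have h2 : ∀ i, i ≠ j → u i = 0 := by
      intro i hi
      rw [← hui i hi, h0]
      rfl
    funext m
    by_cases hm : m = j
    · rw [hm, FxT_uj (V := V) hj h, Finset.sum_eq_zero, neg_zero]
      · rfl
      · intro i hi
        rw [h2 i (Finset.ne_of_mem_erase hi), mul_zero]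
    · exact h2 m hm
  rw [ax_val hC hH hT hu' huj n]
  have hmul : ∀ a ∈ V 0, ∀ b ∈ V n, a * b ∈ V n := by
    intro a ha b hb
    have := hC.vl.mul 0 n a b ha hb
    rwa [zero_add] at this
  have hmul' : ∀ a ∈ V 0, ∀ b ∈ V n, b * a ∈ V n := by
    intro a ha b hb
    have := hC.vl.mul n 0 b a hb ha
    rwa [add_zero] at this
  constructor
  · intro h2
    have h3 : ∀ i, i ≠ j → u i ∈ V n := by
      intro i hi
      rw [← hui i hi]
      exact h2 i
    have h4 : u j ∈ V n := by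
      rw [FxT_uj (V := V) hj h]
      refine (V n).neg_mem (sum_mem fun i hi => ?_)
      exact hmul _ (hφ i) _ (h3 i (Finset.ne_of_mem_erase hi))
    intro a b
    refine hmul' _ (hφ b) _ ?_
    by_cases ha : a = j
    · rw [ha]
      exact h4
    · exact h3 a ha
  · intro h2 a
    by_cases ha : a = j
    · rw [ha, huj]
      exact (V n).zero_mem
    · rw [hui a ha]
      have := h2 a j
      rwa [hj, mul_one] at this

end FxTMain

theorem fx_tau {o : X} {F : Frame (Inc (s := s))} {K : Type u} [DivisionRing K]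
    {V : ℤ → AddSubgroup K} {xa xb xc : K → Gp X} {pt : (Fin 3 → K) → Pt s}
    {ln : (Fin 3 → K) → Ln s} {tau : (Fin 3 → K) → (Fin 3 → K) → Gp X}
    (hC : CR o F K V xa xb xc) (hH : HC F K xa xb xc pt ln) (hT : TC F K xa xb xc pt ln tau)
    {u φ : Fin 3 → K} (hu : u ≠ 0) (hφ : φ ≠ 0) (h : dot φ u = 0) (n : ℤ) :
    Fx o (pt u) (ln φ) n (tau u φ) ↔ ∀ i j, u i * φ j ∈ V n := by
  obtain ⟨j, m, hj0, hjm, hjm', hall⟩ := FxT_min hC.vl hφ
  have hinv := FxT_inv hC.vl hj0 hjm hjm'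
  have e1 : ls (φ j) (ls (φ j)⁻¹ φ) = φ := by
    funext i
    simp only [ls]
    rw [mul_inv_cancel_left₀ hj0]
  have e2 : (ls (φ j)⁻¹ φ) j = 1 := by
    simp only [ls]
    exact inv_mul_cancel₀ hj0
  have e3 : ∀ i, (ls (φ j)⁻¹ φ) i ∈ V 0 := by
    intro i
    have := hC.vl.mul (-m) m _ _ hinv (hall i)
    rwa [neg_add_cancel] at this
  have e4 : dot (ls (φ j)⁻¹ φ) u = 0 := by
    have h1 : dot (ls (φ j)⁻¹ φ) u = (φ j)⁻¹ * dot φ u := by
      simp only [FxT_dot, ls, Finset.mul_sum, mul_assoc]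
    rw [h1, h, mul_zero]
  have e5 : dot (ls (φ j)⁻¹ φ) (rs u (φ j)) = 0 := by
    have h1 : dot (ls (φ j)⁻¹ φ) (rs u (φ j)) = dot (ls (φ j)⁻¹ φ) u * φ j := by
      simp only [FxT_dot, rs, Finset.sum_mul, mul_assoc]
    rw [h1, e4, zero_mul]
  have e6 : rs u (φ j) ≠ 0 := by
    intro h0
    apply hu
    funext i
    have h1 : u i * φ j = 0 := congrFun h0 i
    exact (mul_eq_zero.1 h1).resolve_right hj0
  have e7 : ls (φ j)⁻¹ φ ≠ 0 := by
    intro h0
    rw [h0] at e2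
    exact zero_ne_one e2
  have e8 : tau u φ = tau (rs u (φ j)) (ls (φ j)⁻¹ φ) := by
    rw [hT.scal _ _ _ e4, e1]
  have e9 : pt u = pt (rs u (φ j)) := (hH.pt_eq _ _ hu e6).2 ⟨φ j, hj0, rfl⟩
  have e10 : ln φ = ln (ls (φ j)⁻¹ φ) :=
    (hH.ln_eq _ _ hφ e7).2 ⟨(φ j)⁻¹, inv_ne_zero hj0, rfl⟩
  rw [e8, e9, e10, FxT_main hC hH hT e6 e5 e2 e3 n]
  have e11 : ∀ i k, rs u (φ j) i * ls (φ j)⁻¹ φ k = u i * φ k := by
    intro i k
    simp only [rs, ls]
    rw [mul_assoc, mul_inv_cancel_left₀ hj0]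
  simp only [e11]

end Pool.Agent.PLB
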