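import Pool.Agent.PLB.AntC
import Pool.Agent.PLB.FxT

set_option autoImplicit false

/-! Theorem PB, section 6: the anti-automorphism of the coordinate division ring.

PLAN. `D` from `exists_DF`, `α = al D : Gp X ≃* Gp X` maps `U i j` onto `U j i` (`el_D`). With `x_ij a = tau (rs (ev i) a) (ev j)` (a
bijective homomorphism `K → U i j`: `TC.surj`, `TC.mem`, `TC.add_l`, `HC.e`, `HC.l`; injective by `rt_val` and `Vl.ex`) define
`α (x_ij a) = x_ji (f_ij a)`: `f_ij` is bijective and additive. `α ⁅x_01 a, x_12 b⁆ = α (x_02 (a b))` gives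
`⁅x_10 (f_01 a), x_21 (f_12 b)⁆ = x_20 (f_02 (a b))`, and `⁅x_10 m, x_21 n⁆ = (⁅x_21 n, x_10 m⁆)⁻¹ = x_20 (- n m)` (`TC.comm` for
`2, 1, 0`). So `f_02 (a b) = - f_12 b * f_01 a` (`c_ij`). With `c = f_01 1`, `d = f_12 1`: `f_01 a = - d⁻¹ f_02 a`,
`f_12 b = - f_02 b c⁻¹`, and `ψ x = - f_02 x * (d * c)⁻¹` is multiplicative in the reverse order. Values: `fx_D`, `rt_val`:
`f_ij a ∈ V n ↔ a ∈ V n`; `c`, `d`, `d c`, `(d c)⁻¹` have exact value `0` (`Vl.one`, `Vl.one'`, `Vl.mul'`, `vl_inv` style lemmas: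
`vl_inv`, `vl_inv'` are in LamC.lean, prove privately what is needed). -/

namespace Pool.Agent.PLB

open Pool.Agent.Helper87.ML Pool.Agent.RIG OrderDual
open scoped commutatorElement

universe u

variable {X : Type u} [Lattice X] [IsModularLattice X] {s : X ≃o X} [PB X s]

section AntEVal

variable {K : Type u} [DivisionRing K]

private theorem AntE_anti {V : ℤ → AddSubgroup K} (hV : Vl K V) {m n : ℤ} (h : m ≤ n) :
    V n ≤ V m :=
  antitone_int_of_succ_le hV.anti h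

/-- the value of an inverse -/
private theorem AntE_inv {V : ℤ → AddSubgroup K} (hV : Vl K V) {a : K}
    (h : a ∈ V 0) (h' : a ∉ V 1) : a⁻¹ ∈ V 0 := by
  have ha : a ≠ 0 := by
    rintro rfl
    exact h' (V 1).zero_mem
  obtain ⟨m, h1, h2⟩ := hV.ex a⁻¹ (inv_ne_zero ha)
  have h3 := hV.mul' 0 m a a⁻¹ h (by rw [zero_add]; exact h') h1 h2
  rw [mul_inv_cancel₀ ha] at h3
  have h4 : 0 < 0 + m + 1 := by
    by_contra hc
    exact h3 (AntE_anti hV (not_lt.1 hc) hV.one)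
  exact AntE_anti hV (by omega) h1

/-- multiplication by an element of exact value `0` -/
private theorem AntE_mul {V : ℤ → AddSubgroup K} (hV : Vl K V) {e : K}
    (he : e ∈ V 0) (he' : e⁻¹ ∈ V 0) (h0 : e ≠ 0) (n : ℤ) (x : K) :
    x * e ∈ V n ↔ x ∈ V n := by
  constructor
  · intro h
    have h1 := hV.mul n 0 _ _ h he'
    rw [mul_assoc, mul_inv_cancel₀ h0, mul_one, add_zero] at h1
    exact h1
  · intro h
    have h1 := hV.mul n 0 _ _ h he
    rw [add_zero] at h1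
    exact h1

private theorem AntE_ev_ne (i : Fin 3) : (ev i : Fin 3 → K) ≠ 0 := by
  intro h
  have h1 := congrFun h i
  simp [ev] at h1

private theorem AntE_dot {i j : Fin 3} (hij : i ≠ j) (a : K) : dot (ev j) (rs (ev i) a) = 0 := by
  fin_cases i <;> fin_cases j <;> simp [dot, rs, ev] at hij ⊢

private theorem AntE_rs_one (u : Fin 3 → K) : rs u 1 = u := by
  funext m
  simp [rs]

private theorem AntE_rs_add (u : Fin 3 → K) (a b : K) : rs u (a + b) = rs u a + rs u b := by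
  funext m
  simp [rs, mul_add]

private theorem AntE_rs_zero (u : Fin 3 → K) : rs u (0 : K) = 0 := by
  funext m
  simp [rs]

/-- the algebra: from three additive maps to the anti-automorphism -/
private theorem AntE_alg {V : ℤ → AddSubgroup K} (hV : Vl K V) (f g h : K → K)
    (hf : ∀ (n : ℤ) (a : K), f a ∈ V n ↔ a ∈ V n) (hg : ∀ (n : ℤ) (a : K), g a ∈ V n ↔ a ∈ V n)
    (hh : ∀ (n : ℤ) (a : K), h a ∈ V n ↔ a ∈ V n) (hbij : Function.Bijective h)
    (hadd : ∀ a b, h (a + b) = h a + h b) (hc : ∀ a b, h (a * b) = -(g b * f a)) :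
    ∃ ψ : K → K, Function.Bijective ψ ∧ (∀ a b, ψ (a + b) = ψ a + ψ b) ∧
      (∀ a b, ψ (a * b) = ψ b * ψ a) ∧ ∀ (n : ℤ) (a : K), ψ a ∈ V n ↔ a ∈ V n := by
  have c0 : f 1 ∈ V 0 := (hf 0 1).2 hV.one
  have c1 : f 1 ∉ V 1 := fun k => hV.one' ((hf 1 1).1 k)
  have d0 : g 1 ∈ V 0 := (hg 0 1).2 hV.one
  have d1 : g 1 ∉ V 1 := fun k => hV.one' ((hg 1 1).1 k)
  have hcn : f 1 ≠ 0 := fun k => c1 (k ▸ (V 1).zero_mem)
  have hdn : g 1 ≠ 0 := fun k => d1 (k ▸ (V 1).zero_mem)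
  have e0 : g 1 * f 1 ∈ V 0 := by
    have := hV.mul 0 0 _ _ d0 c0
    rwa [add_zero] at this
  have e1 : g 1 * f 1 ∉ V 1 := by
    have := hV.mul' 0 0 _ _ d0 (by rw [zero_add]; exact d1) c0 (by rw [zero_add]; exact c1)
    rwa [add_zero, zero_add] at this
  have hen : g 1 * f 1 ≠ 0 := mul_ne_zero hdn hcn
  have hi := AntE_inv hV e0 e1
  have hii : ((g 1 * f 1)⁻¹)⁻¹ ∈ V 0 := by
    rw [inv_inv]
    exact e0
  have hin : (g 1 * f 1)⁻¹ ≠ 0 := inv_ne_zero hen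
  have hf1 : ∀ a, f a = -((g 1)⁻¹ * h a) := by
    intro a
    have h1 := hc a 1
    rw [mul_one] at h1
    rw [h1, mul_neg, neg_neg, inv_mul_cancel_left₀ hdn]
  have hg1 : ∀ b, g b = -(h b * (f 1)⁻¹) := by
    intro b
    have h1 := hc 1 b
    rw [one_mul] at h1
    rw [h1, neg_mul, neg_neg, mul_inv_cancel_right₀ hcn]
  have hmul : ∀ a b, h (a * b) = -(h b * (g 1 * f 1)⁻¹ * h a) := by
    intro a b
    rw [hc, hg1 b, hf1 a, neg_mul_neg, mul_inv_rev]
    simp only [mul_assoc]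
  refine ⟨fun x => -(h x) * (g 1 * f 1)⁻¹, ⟨fun a b hab => ?_, fun y => ?_⟩, fun a b => ?_,
    fun a b => ?_, fun n a => ?_⟩
  · have h1 : -(h a) * (g 1 * f 1)⁻¹ = -(h b) * (g 1 * f 1)⁻¹ := hab
    exact hbij.1 (neg_injective (mul_right_cancel₀ hin h1))
  · obtain ⟨x, hx⟩ := hbij.2 (-(y * (g 1 * f 1)))
    refine ⟨x, ?_⟩
    show -(h x) * (g 1 * f 1)⁻¹ = y
    rw [hx, neg_neg, mul_inv_cancel_right₀ hen]
  · show -(h (a + b)) * (g 1 * f 1)⁻¹ = -(h a) * (g 1 * f 1)⁻¹ + -(h b) * (g 1 * f 1)⁻¹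
    rw [hadd, neg_add, add_mul]
  · show -(h (a * b)) * (g 1 * f 1)⁻¹ = -(h b) * (g 1 * f 1)⁻¹ * (-(h a) * (g 1 * f 1)⁻¹)
    rw [hmul, neg_neg]
    simp only [neg_mul, mul_neg, neg_neg, mul_assoc]
  · show -(h a) * (g 1 * f 1)⁻¹ ∈ V n ↔ a ∈ V n
    rw [AntE_mul hV hi hii hin, neg_mem_iff, hh]

end AntEVal

section AntERoot

variable {o : X} {F : Frame (Inc (s := s))} {K : Type u} [DivisionRing K]
  {V : ℤ → AddSubgroup K} {xa xb xc : K → Gp X} {pt : (Fin 3 → K) → Pt s}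
  {ln : (Fin 3 → K) → Ln s} {tau : (Fin 3 → K) → (Fin 3 → K) → Gp X}

private theorem AntE_mem (hH : HC F K xa xb xc pt ln) (hT : TC F K xa xb xc pt ln tau)
    {i j : Fin 3} (hij : i ≠ j) (a : K) :
    tau (rs (ev i) a) (ev j) ∈ El (Gp X) (Inc (s := s)) (F.e i) (F.l j) := by
  by_cases ha : a = 0
  · rw [ha, AntE_rs_zero, hT.zero_l]
    exact Subgroup.one_mem _
  · have h1 : rs (ev i) a ≠ 0 := by
      intro h
      have h2 := congrFun h i
      simp [rs, ev, ha] at h2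
    have h2 := hT.mem _ _ h1 (AntE_ev_ne j) (AntE_dot hij a)
    have h3 : pt (rs (ev i) a) = F.e i := by
      rw [← hH.e i]
      exact ((hH.pt_eq _ _ (AntE_ev_ne i) h1).2 ⟨a, ha, rfl⟩).symm
    rw [h3, hH.l j] at h2
    exact h2

private theorem AntE_surj (hH : HC F K xa xb xc pt ln) (hT : TC F K xa xb xc pt ln tau)
    {i j : Fin 3} (hij : i ≠ j) {g : Gp X}
    (hg : g ∈ El (Gp X) (Inc (s := s)) (F.e i) (F.l j)) :
    ∃ a, g = tau (rs (ev i) a) (ev j) := by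
  refine hT.surj (ev i) (ev j) (AntE_ev_ne i) (AntE_ev_ne j) ?_ g ?_
  · have h := AntE_dot (K := K) hij 1
    rwa [AntE_rs_one] at h
  · rw [hH.e i, hH.l j]
    exact hg

private theorem AntE_add (hT : TC F K xa xb xc pt ln tau) {i j : Fin 3} (hij : i ≠ j) (a b : K) :
    tau (rs (ev i) (a + b)) (ev j) = tau (rs (ev i) a) (ev j) * tau (rs (ev i) b) (ev j) := by
  rw [AntE_rs_add, hT.add_l _ _ _ (AntE_dot hij a) (AntE_dot hij b)]

private theorem AntE_inj (hC : CR o F K V xa xb xc) (hH : HC F K xa xb xc pt ln)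
    (hT : TC F K xa xb xc pt ln tau) {i j : Fin 3} (hij : i ≠ j) {a b : K}
    (h : tau (rs (ev i) a) (ev j) = tau (rs (ev i) b) (ev j)) : a = b := by
  have h1 : tau (rs (ev i) (a - b)) (ev j) = 1 := by
    have h2 := AntE_add hT hij (a - b) b
    rw [sub_add_cancel, h] at h2
    exact mul_eq_right.1 h2.symm
  by_contra hne
  obtain ⟨n, -, hn⟩ := hC.vl.ex (a - b) (sub_ne_zero.2 hne)
  apply hn
  rw [← rt_val hC hH hT hij, h1]
  exact fx_one _ _ _ _

private theorem AntE_neg (hT : TC F K xa xb xc pt ln tau) {i j : Fin 3} (hij : i ≠ j) (a : K) :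
    (tau (rs (ev i) a) (ev j))⁻¹ = tau (rs (ev i) (-a)) (ev j) := by
  have h := AntE_add hT hij (-a) a
  rw [neg_add_cancel, AntE_rs_zero, hT.zero_l] at h
  exact (eq_inv_of_mul_eq_one_left h.symm).symm

/-- the transport of a root group -/
private theorem AntE_f (hC : CR o F K V xa xb xc) (hH : HC F K xa xb xc pt ln)
    (hT : TC F K xa xb xc pt ln tau) {D : X ≃o Xᵒᵈ} (hD : D o = toDual o)
    (hl : ∀ i, Dln D (F.l i) = F.e i) (he : ∀ i, Dpt D (F.e i) = F.l i) {i j : Fin 3}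
    (hij : i ≠ j) : ∃ f : K → K,
      (∀ a, al D (tau (rs (ev i) a) (ev j)) = tau (rs (ev j) (f a)) (ev i)) ∧
      Function.Bijective f ∧ (∀ a b, f (a + b) = f a + f b) ∧
      ∀ (n : ℤ) (a : K), f a ∈ V n ↔ a ∈ V n := by
  have hmem : ∀ g : Gp X, al D g ∈ El (Gp X) (Inc (s := s)) (F.e j) (F.l i) ↔
      g ∈ El (Gp X) (Inc (s := s)) (F.e i) (F.l j) := by
    intro g
    have h := el_D D (F.e i) (F.l j) g
    rwa [hl, he] at h
  have hex : ∀ a, ∃ b, al D (tau (rs (ev i) a) (ev j)) = tau (rs (ev j) b) (ev i) := fun a =>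
    AntE_surj hH hT hij.symm ((hmem _).2 (AntE_mem hH hT hij a))
  choose f hf using hex
  refine ⟨f, hf, ⟨fun a b hab => ?_, fun c => ?_⟩, fun a b => ?_, fun n a => ?_⟩
  · refine AntE_inj hC hH hT hij ((al D).injective ?_)
    rw [hf, hf, hab]
  · obtain ⟨g, hg⟩ := (al D).surjective (tau (rs (ev j) c) (ev i))
    have h1 : g ∈ El (Gp X) (Inc (s := s)) (F.e i) (F.l j) := by
      rw [← hmem, hg]
      exact AntE_mem hH hT hij.symm c
    obtain ⟨a, rfl⟩ := AntE_surj hH hT hij h1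
    refine ⟨a, AntE_inj hC hH hT hij.symm ?_⟩
    rw [← hf, hg]
  · refine AntE_inj hC hH hT hij.symm ?_
    rw [← hf, AntE_add hT hij, map_mul, hf, hf, AntE_add hT hij.symm]
  · rw [← rt_val hC hH hT hij.symm, ← hf, ← rt_val hC hH hT hij]
    have h := fx_D hD (F.e i) (F.l j) n (tau (rs (ev i) a) (ev j))
    rwa [hl, he] at h

end AntERoot

theorem exists_psi {o : X} {F : Frame (Inc (s := s))} {K : Type u} [DivisionRing K]
    {V : ℤ → AddSubgroup K} {xa xb xc : K → Gp X} {pt : (Fin 3 → K) → Pt s}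
    {ln : (Fin 3 → K) → Ln s} {tau : (Fin 3 → K) → (Fin 3 → K) → Gp X}
    (hC : CR o F K V xa xb xc) (hH : HC F K xa xb xc pt ln) (hT : TC F K xa xb xc pt ln tau) :
    ∃ ψ : K → K, Function.Bijective ψ ∧ (∀ a b, ψ (a + b) = ψ a + ψ b) ∧
      (∀ a b, ψ (a * b) = ψ b * ψ a) ∧ ∀ (n : ℤ) (a : K), ψ a ∈ V n ↔ a ∈ V n := by
  obtain ⟨D, hD, hl, he⟩ := exists_DF hC.far
  have h01 : (0 : Fin 3) ≠ 1 := by decide
  have h12 : (1 : Fin 3) ≠ 2 := by decide
  have h02 : (0 : Fin 3) ≠ 2 := by decide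
  obtain ⟨f, f1, -, -, f4⟩ := AntE_f hC hH hT hD hl he h01
  obtain ⟨g, g1, -, -, g4⟩ := AntE_f hC hH hT hD hl he h12
  obtain ⟨h, k1, k2, k3, k4⟩ := AntE_f hC hH hT hD hl he h02
  refine AntE_alg hC.vl f g h f4 g4 k4 k2 k3 fun a b => ?_
  refine AntE_inj hC hH hT h02.symm ?_
  rw [← k1, ← hT.comm 0 1 2 h01 h12 h02, map_commutatorElement, f1, g1, ← commutatorElement_inv,
    hT.comm 2 1 0 h12.symm h01.symm h02.symm, AntE_neg hT h02.symm]

end Pool.Agent.PLB
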