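import Pool.Agent.PLB.Crd

set_option autoImplicit false

/-! Theorem PB, section 4: the valuation of the coordinate ring is complete.

PLAN. Replace `a n` by `a n - a 0 ∈ V 0`. Points `p n = xc (a n) • e 2` (on `l 1`, the line through `e 0`, `e 2`). At `o`:
`nu (l 2) ((e 2)^[n] o) = n` (`far_nu`), `mu (e 0) ((e 2)^[n] o) = 0` (`mu_cov`: `e 0`, `e 2` have different atoms as `e 0` is on
`l 2`), so `xc (a (n+1) - a n)`, of value `≥ n`, fixes `(e 2)^[n] o` (`fx_iff`), hence `(p (n+1))^[n] o = (p n)^[n] o`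
(`smul_it`; `xc` of elements of `V 0` fixes `o`). The ray `c i = (p i)^[i] o` is straight: `ray_end` gives a point `p` with
`p^[i] o = (p n)^[i] o` for `i ≤ n`; it is on `l 1` (`inc_of_it`, `inc_it`), far from `l 2` at `o`. So `p = g • e 2` for some
`g ∈ U 0 2` (`el_exists` with centre `e 0`), `g = xc b`. `b - a n`: `xc (b - a n)` fixes `(e 2)^[n] o`, so `b - a n ∈ V n`. -/

namespace Pool.Agent.PLB

open Pool.Agent.Helper87.ML Pool.Agent.RIG OrderDual
open scoped commutatorElement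

universe u

variable {X : Type u} [Lattice X] [IsModularLattice X] {s : X ≃o X} [PB X s]

private theorem cmp_main {o : X} {F : Frame (Inc (s := s))} {K : Type u} [DivisionRing K]
    {V : ℤ → AddSubgroup K} {xa xb xc : K → Gp X} (hC : CR o F K V xa xb xc) (a : ℕ → K)
    (h0 : a 0 = 0) (ha : ∀ n : ℕ, a (n + 1) - a n ∈ V n) : ∃ b, ∀ n : ℕ, b - a n ∈ V n := by
  have hne : Nonempty X := ⟨o⟩
  have i02 : Inc (F.e 0) (F.l 2) := (F.inc 0 2).2 (by decide)
  have i01 : Inc (F.e 0) (F.l 1) := (F.inc 0 1).2 (by decide)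
  have i21 : Inc (F.e 2) (F.l 1) := (F.inc 2 1).2 (by decide)
  have far2 : Far (F.e 2) (F.l 2) o := hC.far 2
  obtain ⟨z, hz⟩ : ∃ z : ℕ → X, ∀ n, z n = (F.e 2).1^[n] o := ⟨_, fun n => rfl⟩
  have hz0 : z 0 = o := hz 0
  have hzs : ∀ n, z (n + 1) = (F.e 2).1 (z n) := by
    intro n
    rw [hz, hz]
    exact Function.iterate_succ_apply' _ _ _
  have hcov : ∀ n, z n ⋖ z (n + 1) := by
    intro n
    rw [hzs]
    exact (F.e 2).2.cov _
  have hnu : ∀ n, nu o (F.l 2) (z n) = n := by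
    intro n
    rw [hz, far_nu o far2, (nu_spec o (F.l 2)).2, zero_add]
  have hmu : ∀ n, mu o (F.e 0) (z n) = 0 := by
    intro n
    induction n with
    | zero =>
      rw [hz0]
      exact (mu_spec o (F.e 0)).2
    | succ n ih =>
      rcases mu_cov o (F.e 0) (hcov n) with ⟨h1, h2⟩ | ⟨h1, h2⟩
      · exfalso
        have h3 := (inc_iff_nu o (F.e 0) (F.l 2)).1 i02 (z n)
        rw [← h1, hnu, hnu] at h3
        push_cast at h3
        linarith
      · rw [h2, ih]
  have hanti : Antitone V := antitone_int_of_succ_le hC.vl.anti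
  have ha0 : ∀ n, a n ∈ V 0 := by
    intro n
    induction n with
    | zero =>
      rw [h0]
      exact (V 0).zero_mem
    | succ n ih =>
      have h1 : a (n + 1) = (a (n + 1) - a n) + a n := by abel
      rw [h1]
      exact (V 0).add_mem (hanti (Int.natCast_nonneg n) (ha n)) ih
  have hfix : ∀ (c : K) (m n : ℕ), n ≤ m → c ∈ V m → (xc c : X ≃o X) (z n) = z n := by
    intro c m n hnm hc
    refine (hC.vc m c).1 hc (z n) ?_
    rw [hmu, hnu]
    have h1 : (n : ℤ) ≤ m := by exact_mod_cast hnm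
    linarith
  have hmul : ∀ (c d : K) (x : X), (xc (c + d) : X ≃o X) x = (xc c : X ≃o X) ((xc d : X ≃o X) x) := by
    intro c d x
    rw [hC.rd.c_add]
    rfl
  have hstep : ∀ i n, i ≤ n → (xc (a n) : X ≃o X) (z i) = (xc (a i) : X ≃o X) (z i) := by
    intro i n hin
    induction n, hin using Nat.le_induction with
    | base => rfl
    | succ n hn ih =>
      have h1 : a (n + 1) = a n + (a (n + 1) - a n) := by abel
      rw [h1, hmul, hfix _ n i hn (ha n), ih]
  have hfo : ∀ n, (xc (a n) : X ≃o X) o = o := by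
    intro n
    have h1 := hfix (a n) 0 0 le_rfl (ha0 n)
    rwa [hz0] at h1
  have h1 : ∀ i, (xc (a i) : X ≃o X) (z i) ⋖ (xc (a (i + 1)) : X ≃o X) (z (i + 1)) := by
    intro i
    rw [← hstep i (i + 1) (Nat.le_succ i)]
    exact (apply_covBy_apply_iff _).2 (hcov i)
  have h2 : ∀ i, ¬ (xc (a (i + 2)) : X ≃o X) (z (i + 2)) ≤ s ((xc (a i) : X ≃o X) (z i)) := by
    intro i h
    rw [← hstep i (i + 2) (by omega), ← aut_comm] at h
    have h3 := (OrderIso.le_iff_le _).1 h
    rw [hzs, hzs] at h3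
    exact (F.e 2).2.str (z i) h3
  obtain ⟨f, hf⟩ := ray_end (s := s) (fun i => (xc (a i) : X ≃o X) (z i)) h1 h2
  have hf' : ∀ i, f.1^[i] o = (xc (a i) : X ≃o X) (z i) := by
    intro i
    have h3 := hf i
    simp only [hz0, hfo] at h3
    exact h3
  have hpi : ∀ i, Inc ((xc (a i) : X ≃o X) • F.e 2) (F.l 1) := by
    intro i
    have h3 : (xc (a i) : X ≃o X) • F.l 1 = F.l 1 := (hC.rd.c_mem (a i)).2 (F.l 1) i01
    have h4 := (smul_inc (xc (a i) : X ≃o X) (F.e 2) (F.l 1)).2 i21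
    rwa [h3] at h4
  have hfl : Inc f (F.l 1) := by
    refine inc_of_it o fun i => ?_
    rw [hf' i]
    have h3 := inc_it (hpi i) i o
    have h4 := smul_it (xc (a i) : X ≃o X) (F.e 2) i o
    rw [hfo, ← hz] at h4
    rwa [h4] at h3
  have hffar : Far f (F.l 2) o := by
    rw [far_iff_nu o]
    have h3 := hf' 1
    have h4 : f.1 o = (xc (a 1) : X ≃o X) (z 1) := h3
    rw [h4, tr_nu o (⟨F.e 0, i02, hC.rd.c_mem _⟩ : xc (a 1) ∈ Tr (Gp X) (Inc (s := s)) (F.l 2)),
      hnu, (nu_spec o (F.l 2)).2]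
    norm_num
  obtain ⟨g, hg, hge⟩ := el_exists (mp s) i02 (far_not_inc far2) (far_not_inc hffar) i01 i21 hfl
  obtain ⟨g', hgo, hg', hge'⟩ := ela far2 hffar
  have hgg : g = g' := (tr_sharp (mp s) (far_not_inc far2) (far_not_inc hffar)).unique
    ⟨⟨F.e 0, i02, hg⟩, hge⟩ ⟨hg', hge'⟩
  obtain ⟨b, hb⟩ := hC.rd.c_surj g hg
  refine ⟨b, fun n => ?_⟩
  have h5 : (g : X ≃o X) (z n) = (xc (a n) : X ≃o X) (z n) := by
    have h6 := smul_it (g : X ≃o X) (F.e 2) n o
    have h7 : (g : X ≃o X) • F.e 2 = f := hge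
    have h8 : (g : X ≃o X) o = o := by
      rw [hgg]
      exact hgo
    rw [h7, h8, ← hz, hf' n] at h6
    exact h6.symm
  have h6 : (xc (b - a n) : X ≃o X) (z n) = z n := by
    have h7 : b = a n + (b - a n) := by abel
    have h8 := hmul (a n) (b - a n) (z n)
    rw [← h7, hb, h5] at h8
    exact ((xc (a n) : X ≃o X).injective h8).symm
  have h7 := (fx_iff o i02 (hC.rd.c_mem (b - a n)) (z n)).1 h6
  rw [hnu, hmu, sub_zero] at h7
  exact (hC.vc n _).2 h7

theorem crd_complete {o : X} {F : Frame (Inc (s := s))} {K : Type u} [DivisionRing K]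
    {V : ℤ → AddSubgroup K} {xa xb xc : K → Gp X} (hC : CR o F K V xa xb xc) (a : ℕ → K)
    (ha : ∀ n : ℕ, a (n + 1) - a n ∈ V n) : ∃ b, ∀ n : ℕ, b - a n ∈ V n := by
  obtain ⟨b, hb⟩ := cmp_main hC (fun n => a n - a 0) (sub_self _) (fun n => by
    have h1 : a (n + 1) - a 0 - (a n - a 0) = a (n + 1) - a n := by abel
    rw [h1]
    exact ha n)
  refine ⟨b + a 0, fun n => ?_⟩
  have h1 : b + a 0 - a n = b - (a n - a 0) := by abel
  rw [h1]
  exact hb n

end Pool.Agent.PLB
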