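import Pool.Agent.PLB.EndA
import Pool.Agent.PLB.DuI

set_option autoImplicit false

/-! Theorem PB, (1.1) for lines at infinity, and the elements `H_k(x)`.

The statements about the relations with the shift `s` are the duals of those of EndA.lean: EndA is applied to the point
`h.pt` of `(Xᵒᵈ, dl s)` (instance `pb_dual`) and translated with `Ln.pt_it`, `dl_it`. The rest follows from the fact that
`h` and `s` commute. -/

namespace Pool.Agent.PLB

open Pool.Agent.Helper87.ML Pool.Agent.RIG OrderDual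

universe u

variable {X : Type u} [Lattice X] [IsModularLattice X] {s : X ≃o X} [PB X s]

omit [IsModularLattice X] [PB X s] in
theorem co_s (h : Ln s) (i j : ℕ) (x : X) : h.1^[i] (s^[j] x) = s^[j] (h.1^[i] x) := by
  exact Function.Commute.iterate_iterate (f := h.1) (g := s) h.2.comm i j x

omit [IsModularLattice X] [PB X s] in
theorem co_symm (h : Ln s) (i j : ℕ) (x : X) :
    h.1^[i] (s.symm^[j] x) = s.symm^[j] (h.1^[i] x) := by
  exact Function.Commute.iterate_iterate (f := h.1) (g := s.symm) (ln_comm_symm h) i j x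

omit [IsModularLattice X] [PB X s] in
theorem co_mono (h : Ln s) (i : ℕ) {x y : X} (hxy : x ≤ y) : h.1^[i] x ≤ h.1^[i] y := by
  exact h.2.mono.iterate i hxy

omit [IsModularLattice X] [PB X s] in
theorem co_le_it (h : Ln s) {i j : ℕ} (hij : i ≤ j) (x : X) : h.1^[j] x ≤ h.1^[i] x := by
  exact Function.antitone_iterate_of_le_id (f := h.1) (fun y => (h.2.cov y).le) hij x

omit [IsModularLattice X] [PB X s] in
theorem co_step (h : Ln s) {x y : X} (hxy : x ≤ y) (h1 : ¬ x ≤ h.1 y) : h.1 y ⊓ x = h.1 x := by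
  rcases (h.2.cov x).eq_or_eq (le_inf (h.2.mono hxy) (h.2.cov x).le) inf_le_right with h2 | h2
  · exact h2
  · exact absurd (h2 ▸ inf_le_left) h1

omit [IsModularLattice X] [PB X s] in
theorem Hk_zero (h : Ln s) (x : X) : Hk h 0 x = x := rfl

omit [IsModularLattice X] [PB X s] in
theorem Hk_mono (h : Ln s) (k : ℕ) {x y : X} (hxy : x ≤ y) : Hk h k x ≤ Hk h k y := by
  exact co_mono h k (s.monotone.iterate k hxy)

omit [IsModularLattice X] [PB X s] in
theorem Hk_s (h : Ln s) (k j : ℕ) (x : X) : Hk h k (s^[j] x) = s^[j] (Hk h k x) := by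
  show h.1^[k] (s^[k] (s^[j] x)) = s^[j] (h.1^[k] (s^[k] x))
  rw [← co_s]
  congr 1
  exact Function.Commute.iterate_iterate_self s k j x

omit [IsModularLattice X] [PB X s] in
theorem Hk_Hk (h : Ln s) (i j : ℕ) (x : X) : Hk h i (Hk h j x) = Hk h (i + j) x := by
  show h.1^[i] (s^[i] (h.1^[j] (s^[j] x))) = h.1^[i + j] (s^[i + j] x)
  rw [← co_s, Function.iterate_add_apply, Function.iterate_add_apply]

omit [IsModularLattice X] [PB X s] in
private lemma CoA_inv (k : ℕ) (x : X) : s.symm^[k] (s^[k] x) = x :=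
  Function.LeftInverse.iterate (f := s) (g := s.symm) s.symm_apply_apply k x

omit [IsModularLattice X] [PB X s] in
private lemma CoA_sub {k j : ℕ} (hjk : j ≤ k) {x : X} : s.symm^[k - j] (s^[k] x) = s^[j] x := by
  obtain ⟨d, rfl⟩ := Nat.exists_eq_add_of_le' hjk
  rw [Nat.add_sub_cancel, Function.iterate_add_apply, CoA_inv]

private lemma CoA_le (h : Ln s) (k : ℕ) (x : X) : x ≤ Hk h k x := by
  have h1 := it_le_s h.pt k (toDual (s^[k] x))
  rw [h.pt_it, dl_it, toDual_le_toDual, CoA_inv] at h1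
  exact h1

private lemma CoA_le_s (h : Ln s) (k : ℕ) (x : X) : x ≤ s^[k] x :=
  (CoA_le h k x).trans (co_le_it h (Nat.zero_le k) (s^[k] x))

theorem Hk_le_Hk (h : Ln s) {i j : ℕ} (hij : i ≤ j) (x : X) : Hk h i x ≤ Hk h j x := by
  obtain ⟨d, rfl⟩ := Nat.exists_eq_add_of_le hij
  rw [← Hk_Hk]
  exact Hk_mono h i (CoA_le h d x)

theorem le_Hk (h : Ln s) (k : ℕ) (x : X) : x ≤ Hk h k x := by
  exact CoA_le h k x

omit [IsModularLattice X] [PB X s] in
theorem Hk_le_s (h : Ln s) (k : ℕ) (x : X) : Hk h k x ≤ s^[k] x := by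
  exact co_le_it h (Nat.zero_le k) (s^[k] x)

theorem Hk_inf (h : Ln s) (k j : ℕ) (x : X) : Hk h k x ⊓ s^[j] x = Hk h (min k j) x := by
  rcases le_total j k with hj | hj
  · have h1 := it_sup_s h.pt (Nat.sub_le k j) (toDual (s^[k] x))
    rw [h.pt_it, dl_it, h.pt_it, Nat.sub_sub_self hj, CoA_sub hj] at h1
    rw [min_eq_right hj]
    exact congrArg ofDual h1
  · rw [min_eq_left hj, inf_eq_left]
    obtain ⟨d, rfl⟩ := Nat.exists_eq_add_of_le hj
    rw [Function.iterate_add_apply]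
    exact (Hk_le_s h k x).trans (s.monotone.iterate k (CoA_le_s h d x))

theorem Hk_sup (h : Ln s) {k j : ℕ} (hjk : j ≤ k) (x : X) :
    Hk h k x ⊔ s^[j] x = s^[j] (Hk h (k - j) x) := by
  have h1 := it_inf_s h.pt k (k - j) (toDual (s^[k] x))
  rw [h.pt_it, dl_it, h.pt_it, CoA_sub hjk, min_eq_right (Nat.sub_le k j)] at h1
  have h2 : Hk h k x ⊔ s^[j] x = h.1^[k - j] (s^[k] x) := congrArg ofDual h1
  rw [h2]
  show h.1^[k - j] (s^[k] x) = s^[j] (h.1^[k - j] (s^[k - j] x))
  rw [← co_s, ← Function.iterate_add_apply, Nat.add_sub_cancel' hjk]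

/-- the elements of `[h^k x, x]` are the `h^i x` -/
theorem co_seg (h : Ln s) (k : ℕ) {x y : X} (h1 : y ≤ x) (h2 : h.1^[k] x ≤ y) :
    ∃ i ≤ k, y = h.1^[i] x := by
  obtain ⟨i, hi, h3⟩ := seg h.pt k (x := toDual x) (y := toDual y) (toDual_le_toDual.2 h1)
    (by rw [h.pt_it]; exact toDual_le_toDual.2 h2)
  rw [h.pt_it] at h3
  exact ⟨i, hi, congrArg ofDual h3⟩

end Pool.Agent.PLB
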