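import Pool.Agent.PLB.Defs

set_option autoImplicit false

/-! Theorem PB, section 0: the socle map `s` of a finitary lattice of planes is an order isomorphism
onto a filter: it is injective and reflects the order by the key lemma, it is surjective onto the
elements above any `s z`, and the iterates of `s` at the least element exhaust the lattice. -/

namespace Pool.Agent.PLB

open Pool.Agent.Helper87.ML Pool.Agent.RIG

universe u

variable {L : Type u} [Lattice L] [IsModularLattice L] (hfin : ∀ x : L, (Set.Iic x).Finite)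
  (hSD : SD' L) {s : L → L} (hs : IsUp s) (hpl : ∀ x, IsPlane x (s x))
include hfin

omit [IsModularLattice L] in
theorem con_bot [Nonempty L] : ∃ b : L, ∀ x, b ≤ x := by
  obtain ⟨x0⟩ := (inferInstance : Nonempty L)
  obtain ⟨m, hm⟩ := (hfin x0).exists_minimal ⟨x0, le_refl x0⟩
  refine ⟨m, fun x => ?_⟩
  have h1 : m ⊓ x ∈ Set.Iic x0 := le_trans inf_le_left hm.1
  exact (hm.2 h1 inf_le_left).trans inf_le_right

include hSD hs hpl

theorem con_key (z t : L) : Key s z t := by
  intro u v _ huv _ d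
  exact key1 (LF.of_fin hfin) hSD hs huv (hpl u) (hpl v) d

theorem con_le {a b : L} (hb : ∃ z, z ≤ a ∧ z ≤ b) : s a ≤ s b ↔ a ≤ b := by
  obtain ⟨z, hza, hzb⟩ := hb
  constructor
  · intro h
    exact s_refl hSD hs (con_key hfin hSD hs hpl z (s a ⊔ s b)) hza hzb le_sup_left le_sup_right h
  · intro h
    exact s_mono hs h

theorem con_surj {z y : L} (h : s z ≤ y) : ∃ w, z ≤ w ∧ s w = y := by
  have h1 : s^[1] z ≤ y := h
  have h2 : s^[1] y ≤ s y := le_refl _
  obtain ⟨w, hw1, _, hw3⟩ := surj0 (LF.of_fin hfin) hSD hs (con_key hfin hSD hs hpl z (s y)) 1 h1 h2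
  exact ⟨w, hw1, hw3⟩

theorem con_sup (a b : L) : s (a ⊔ b) = s a ⊔ s b := by
  apply le_antisymm
  · have h1 : s (a ⊓ b) ≤ s a ⊔ s b := (s_mono hs inf_le_left).trans le_sup_left
    obtain ⟨w, hw, hwe⟩ := con_surj hfin hSD hs hpl h1
    have h2 : a ≤ w := by
      refine (con_le hfin hSD hs hpl ⟨a ⊓ b, inf_le_left, hw⟩).1 ?_
      rw [hwe]
      exact le_sup_left
    have h3 : b ≤ w := by
      refine (con_le hfin hSD hs hpl ⟨a ⊓ b, inf_le_right, hw⟩).1 ?_
      rw [hwe]
      exact le_sup_right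
    rw [← hwe]
    exact s_mono hs (sup_le h2 h3)
  · exact sup_le (s_mono hs le_sup_left) (s_mono hs le_sup_right)

theorem con_inf (a b : L) : s (a ⊓ b) = s a ⊓ s b := by
  apply le_antisymm
  · exact le_inf (s_mono hs inf_le_left) (s_mono hs inf_le_right)
  · have h1 : s (a ⊓ b) ≤ s a ⊓ s b := le_inf (s_mono hs inf_le_left) (s_mono hs inf_le_right)
    obtain ⟨w, hw, hwe⟩ := con_surj hfin hSD hs hpl h1
    have h2 : w ≤ a := by
      refine (con_le hfin hSD hs hpl ⟨a ⊓ b, hw, inf_le_left⟩).1 ?_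
      rw [hwe]
      exact inf_le_left
    have h3 : w ≤ b := by
      refine (con_le hfin hSD hs hpl ⟨a ⊓ b, hw, inf_le_right⟩).1 ?_
      rw [hwe]
      exact inf_le_right
    rw [← hwe]
    exact s_mono hs (le_inf h2 h3)

theorem con_dir {b : L} (hb : ∀ x, b ≤ x) (x : L) : ∃ k : ℕ, x ≤ s^[k] b := by
  by_contra hcon
  have hcon' : ∀ k : ℕ, ¬ x ≤ s^[k] b := fun k h => hcon ⟨k, h⟩
  have hF : LF L := LF.of_fin hfin
  have hstep : ∀ k : ℕ, x ⊓ s^[k] b < x ⊓ s^[k + 1] b := by
    intro k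
    have h1 : x ⊓ s^[k] b < x := lt_of_le_of_ne inf_le_left fun h => hcon' k (inf_eq_left.1 h)
    obtain ⟨c, hc, hcx⟩ := lf_cov hF h1
    have h2 : c ≤ s^[k + 1] b := by
      rw [Function.iterate_succ_apply']
      exact (cov_le_s hs hc).trans (s_mono hs inf_le_right)
    exact lt_of_lt_of_le hc.lt (le_inf hcx h2)
  have hmono : StrictMono fun k : ℕ => x ⊓ s^[k] b := strictMono_nat_of_lt_succ hstep
  have hinf : (Set.range fun k : ℕ => x ⊓ s^[k] b).Infinite :=
    Set.infinite_range_of_injective hmono.injective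
  apply hinf
  refine (hfin x).subset ?_
  rintro _ ⟨k, rfl⟩
  exact inf_le_left

end Pool.Agent.PLB
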