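import Pool.Agent.PLB.Con1

set_option autoImplicit false

/-! Theorem PB, section 0: the two-sided lattice `X` of a finitary lattice of planes `L`.

PLAN. `X` = quotient of `ℕ × L` by `(m, x) ~ (n, y) iff s^[n] x = s^[m] y` (`(m, x)` stands for `s^-m x`), or
`Antisymmetrization` of the preorder `(m, x) ≤ (n, y) iff s^[n] x ≤ s^[m] y`; sup and inf of `(m, x)`, `(n, y)` are
`(m + n, s^[n] x ⊔ s^[m] y)` and `(m + n, s^[n] x ⊓ s^[m] y)`. `t (m, x) = (m, s x)`, inverse `(m, x) ↦ (m + 1, x)`. Every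
finite set of elements of `X` lies in the image of `x ↦ (m, x)` for some `m`, an order isomorphism of `L` onto
the filter `[(m, b), ∞)`, where `b` is the least element of `L`; so all properties of `PB` and modularity are
inherited (`up`: the covers of `(m, x)` are the `(m, y)` with `y` a cover of `x`). `o = (0, b)`. -/

namespace Pool.Agent.PLB

open Pool.Agent.Helper87.ML Pool.Agent.RIG

universe u

section Con2

variable {L : Type u} [Lattice L]

/-- `s` is a lattice embedding -/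
private class Con2_H (s : L → L) : Prop where
  le : ∀ a b, s a ≤ s b ↔ a ≤ b
  sup : ∀ a b, s (a ⊔ b) = s a ⊔ s b
  inf : ∀ a b, s (a ⊓ b) = s a ⊓ s b

variable (s : L → L)

private lemma Con2_le [Con2_H s] (k : ℕ) (a b : L) : s^[k] a ≤ s^[k] b ↔ a ≤ b := by
  induction k generalizing a b with
  | zero => exact Iff.rfl
  | succ k ih =>
    rw [Function.iterate_succ_apply, Function.iterate_succ_apply, ih]
    exact Con2_H.le a b

private lemma Con2_sup [Con2_H s] (k : ℕ) (a b : L) : s^[k] (a ⊔ b) = s^[k] a ⊔ s^[k] b := by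
  induction k generalizing a b with
  | zero => rfl
  | succ k ih =>
    rw [Function.iterate_succ_apply, Function.iterate_succ_apply, Function.iterate_succ_apply,
      Con2_H.sup (s := s), ih]

private lemma Con2_inf [Con2_H s] (k : ℕ) (a b : L) : s^[k] (a ⊓ b) = s^[k] a ⊓ s^[k] b := by
  induction k generalizing a b with
  | zero => rfl
  | succ k ih =>
    rw [Function.iterate_succ_apply, Function.iterate_succ_apply, Function.iterate_succ_apply,
      Con2_H.inf (s := s), ih]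

omit [Lattice L] in
private lemma Con2_comm (m n : ℕ) (a : L) : s^[m] (s^[n] a) = s^[n] (s^[m] a) := by
  rw [← Function.iterate_add_apply, ← Function.iterate_add_apply, Nat.add_comm]

/-- the pair `(m, x)` stands for `s^-m x` -/
private structure Con2_P (s : L → L) : Type u where
  m : ℕ
  x : L

private instance Con2_pre [Con2_H s] : Preorder (Con2_P s) where
  le p q := s^[q.m] p.x ≤ s^[p.m] q.x
  le_refl p := le_rfl
  le_trans p q r h1 h2 := by
    have h3 : s^[q.m] (s^[r.m] p.x) ≤ s^[q.m] (s^[p.m] r.x) := by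
      calc s^[q.m] (s^[r.m] p.x) = s^[r.m] (s^[q.m] p.x) := Con2_comm s _ _ _
        _ ≤ s^[r.m] (s^[p.m] q.x) := (Con2_le s _ _ _).2 h1
        _ = s^[p.m] (s^[r.m] q.x) := Con2_comm s _ _ _
        _ ≤ s^[p.m] (s^[q.m] r.x) := (Con2_le s _ _ _).2 h2
        _ = s^[q.m] (s^[p.m] r.x) := Con2_comm s _ _ _
    exact (Con2_le s _ _ _).1 h3

/-- the direct limit -/
private def Con2_X (s : L → L) [Con2_H s] : Type u := Antisymmetrization (Con2_P s) (· ≤ ·)

private instance Con2_po [Con2_H s] : PartialOrder (Con2_X s) :=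
  inferInstanceAs (PartialOrder (Antisymmetrization (Con2_P s) (· ≤ ·)))

private def Con2_mk [Con2_H s] (m : ℕ) (x : L) : Con2_X s :=
  toAntisymmetrization (· ≤ ·) (⟨m, x⟩ : Con2_P s)

private lemma Con2_mk_le [Con2_H s] {m n : ℕ} {x y : L} :
    Con2_mk s m x ≤ Con2_mk s n y ↔ s^[n] x ≤ s^[m] y := Iff.rfl

private lemma Con2_mk_le' [Con2_H s] {m : ℕ} {x y : L} :
    Con2_mk s m x ≤ Con2_mk s m y ↔ x ≤ y := by
  rw [Con2_mk_le, Con2_le]

private lemma Con2_mk_eq [Con2_H s] {m n : ℕ} {x y : L} (h : s^[n] x = s^[m] y) :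
    Con2_mk s m x = Con2_mk s n y :=
  le_antisymm ((Con2_mk_le s).2 h.le) ((Con2_mk_le s).2 h.ge)

private lemma Con2_mk_inj [Con2_H s] {m : ℕ} {x y : L} (h : Con2_mk s m x = Con2_mk s m y) :
    x = y :=
  le_antisymm ((Con2_mk_le' s).1 h.le) ((Con2_mk_le' s).1 h.ge)

private lemma Con2_mk_lt [Con2_H s] {m : ℕ} {x y : L} :
    Con2_mk s m x < Con2_mk s m y ↔ x < y := by
  rw [lt_iff_le_not_ge, lt_iff_le_not_ge, Con2_mk_le', Con2_mk_le']

private lemma Con2_shift [Con2_H s] (m k : ℕ) (x : L) :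
    Con2_mk s (m + k) (s^[k] x) = Con2_mk s m x := by
  apply Con2_mk_eq
  rw [← Function.iterate_add_apply]

private lemma Con2_ind [Con2_H s] (p : Con2_X s) : ∃ m x, p = Con2_mk s m x :=
  Quotient.inductionOn' p fun a => ⟨a.m, a.x, rfl⟩

private lemma Con2_ev [Con2_H s] (p : Con2_X s) :
    ∃ m0, ∀ m, m0 ≤ m → ∃ x, p = Con2_mk s m x := by
  obtain ⟨m0, x, rfl⟩ := Con2_ind s p
  refine ⟨m0, fun m hm => ?_⟩
  obtain ⟨k, rfl⟩ := Nat.exists_eq_add_of_le hm
  exact ⟨s^[k] x, (Con2_shift s m0 k x).symm⟩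

private lemma Con2_three [Con2_H s] (p q r : Con2_X s) :
    ∃ m a b c, p = Con2_mk s m a ∧ q = Con2_mk s m b ∧ r = Con2_mk s m c := by
  obtain ⟨m1, h1⟩ := Con2_ev s p
  obtain ⟨m2, h2⟩ := Con2_ev s q
  obtain ⟨m3, h3⟩ := Con2_ev s r
  obtain ⟨a, ha⟩ := h1 (m1 + m2 + m3) (by omega)
  obtain ⟨b, hb⟩ := h2 (m1 + m2 + m3) (by omega)
  obtain ⟨c, hc⟩ := h3 (m1 + m2 + m3) (by omega)
  exact ⟨_, a, b, c, ha, hb, hc⟩

private lemma Con2_lub [Con2_H s] (m : ℕ) (a b : L) (u : Con2_X s) (h1 : Con2_mk s m a ≤ u)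
    (h2 : Con2_mk s m b ≤ u) : Con2_mk s m (a ⊔ b) ≤ u := by
  obtain ⟨n, w, rfl⟩ := Con2_ind s u
  rw [Con2_mk_le] at h1 h2 ⊢
  rw [Con2_sup]
  exact sup_le h1 h2

private lemma Con2_glb [Con2_H s] (m : ℕ) (a b : L) (u : Con2_X s) (h1 : u ≤ Con2_mk s m a)
    (h2 : u ≤ Con2_mk s m b) : u ≤ Con2_mk s m (a ⊓ b) := by
  obtain ⟨n, w, rfl⟩ := Con2_ind s u
  rw [Con2_mk_le] at h1 h2 ⊢
  rw [Con2_inf]
  exact le_inf h1 h2

private lemma Con2_exsup [Con2_H s] (p q : Con2_X s) :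
    ∃ r, p ≤ r ∧ q ≤ r ∧ ∀ u, p ≤ u → q ≤ u → r ≤ u := by
  obtain ⟨m, a, b, _, rfl, rfl, _⟩ := Con2_three s p q p
  exact ⟨Con2_mk s m (a ⊔ b), (Con2_mk_le' s).2 le_sup_left, (Con2_mk_le' s).2 le_sup_right,
    Con2_lub s m a b⟩

private lemma Con2_exinf [Con2_H s] (p q : Con2_X s) :
    ∃ r, r ≤ p ∧ r ≤ q ∧ ∀ u, u ≤ p → u ≤ q → u ≤ r := by
  obtain ⟨m, a, b, _, rfl, rfl, _⟩ := Con2_three s p q p
  exact ⟨Con2_mk s m (a ⊓ b), (Con2_mk_le' s).2 inf_le_left, (Con2_mk_le' s).2 inf_le_right,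
    Con2_glb s m a b⟩

private noncomputable instance Con2_lat [Con2_H s] : Lattice (Con2_X s) :=
  { Con2_po s with
    sup := fun p q => (Con2_exsup s p q).choose
    le_sup_left := fun p q => (Con2_exsup s p q).choose_spec.1
    le_sup_right := fun p q => (Con2_exsup s p q).choose_spec.2.1
    sup_le := fun p q r h1 h2 => (Con2_exsup s p q).choose_spec.2.2 r h1 h2
    inf := fun p q => (Con2_exinf s p q).choose
    inf_le_left := fun p q => (Con2_exinf s p q).choose_spec.1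
    inf_le_right := fun p q => (Con2_exinf s p q).choose_spec.2.1
    le_inf := fun p q r h1 h2 => (Con2_exinf s q r).choose_spec.2.2 p h1 h2 }

private lemma Con2_mk_sup [Con2_H s] (m : ℕ) (a b : L) :
    Con2_mk s m a ⊔ Con2_mk s m b = Con2_mk s m (a ⊔ b) :=
  le_antisymm (sup_le ((Con2_mk_le' s).2 le_sup_left) ((Con2_mk_le' s).2 le_sup_right))
    (Con2_lub s m a b _ le_sup_left le_sup_right)

private lemma Con2_mk_inf [Con2_H s] (m : ℕ) (a b : L) :
    Con2_mk s m a ⊓ Con2_mk s m b = Con2_mk s m (a ⊓ b) :=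
  le_antisymm (Con2_glb s m a b _ inf_le_left inf_le_right)
    (le_inf ((Con2_mk_le' s).2 inf_le_left) ((Con2_mk_le' s).2 inf_le_right))

private instance Con2_mod [Con2_H s] [IsModularLattice L] : IsModularLattice (Con2_X s) where
  sup_inf_le_assoc_of_le := by
    intro x y z h
    obtain ⟨m, a, b, c, rfl, rfl, rfl⟩ := Con2_three s x y z
    rw [Con2_mk_sup, Con2_mk_inf, Con2_mk_inf, Con2_mk_sup, Con2_mk_le']
    exact IsModularLattice.sup_inf_le_assoc_of_le b ((Con2_mk_le' s).1 h)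

private def Con2_F [Con2_H s] : Con2_P s →o Con2_P s where
  toFun p := ⟨p.m, s p.x⟩
  monotone' p q h := by
    have h' : s^[q.m] p.x ≤ s^[p.m] q.x := h
    show s^[q.m] (s p.x) ≤ s^[p.m] (s q.x)
    rw [← Function.iterate_succ_apply, ← Function.iterate_succ_apply,
      Function.iterate_succ_apply', Function.iterate_succ_apply']
    exact (Con2_H.le _ _).2 h'

private def Con2_G [Con2_H s] : Con2_P s →o Con2_P s where
  toFun p := ⟨p.m + 1, p.x⟩
  monotone' p q h := by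
    have h' : s^[q.m] p.x ≤ s^[p.m] q.x := h
    show s^[q.m + 1] p.x ≤ s^[p.m + 1] q.x
    rw [Function.iterate_succ_apply', Function.iterate_succ_apply']
    exact (Con2_H.le _ _).2 h'

private def Con2_f [Con2_H s] (p : Con2_X s) : Con2_X s := (Con2_F s).antisymmetrization p

private def Con2_g [Con2_H s] (p : Con2_X s) : Con2_X s := (Con2_G s).antisymmetrization p

private lemma Con2_f_mk [Con2_H s] (m : ℕ) (x : L) :
    Con2_f s (Con2_mk s m x) = Con2_mk s m (s x) := rfl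

private lemma Con2_g_mk [Con2_H s] (m : ℕ) (x : L) :
    Con2_g s (Con2_mk s m x) = Con2_mk s (m + 1) x := rfl

/-- the shift of the direct limit -/
private def Con2_t [Con2_H s] : Con2_X s ≃o Con2_X s where
  toFun := Con2_f s
  invFun := Con2_g s
  left_inv p := by
    obtain ⟨m, x, rfl⟩ := Con2_ind s p
    rw [Con2_f_mk, Con2_g_mk]
    exact Con2_shift s m 1 x
  right_inv p := by
    obtain ⟨m, x, rfl⟩ := Con2_ind s p
    rw [Con2_g_mk, Con2_f_mk]
    exact Con2_shift s m 1 x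
  map_rel_iff' := by
    intro p q
    obtain ⟨m, a, b, _, rfl, rfl, _⟩ := Con2_three s p q p
    show Con2_f s (Con2_mk s m a) ≤ Con2_f s (Con2_mk s m b) ↔ Con2_mk s m a ≤ Con2_mk s m b
    rw [Con2_f_mk, Con2_f_mk, Con2_mk_le', Con2_mk_le']
    exact Con2_H.le a b

private lemma Con2_t_mk [Con2_H s] (m : ℕ) (x : L) :
    Con2_t s (Con2_mk s m x) = Con2_mk s m (s x) := rfl

private lemma Con2_t_it [Con2_H s] (k m : ℕ) (x : L) :
    (Con2_t s)^[k] (Con2_mk s m x) = Con2_mk s m (s^[k] x) := by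
  induction k generalizing x with
  | zero => rfl
  | succ k ih =>
    rw [Function.iterate_succ_apply, Function.iterate_succ_apply, Con2_t_mk, ih]

end Con2

theorem exists_pb {L : Type u} [Lattice L] [IsModularLattice L] [Nonempty L]
    (hfin : ∀ x : L, (Set.Iic x).Finite) (hSD : SD' L) {s : L → L} (hs : IsUp s)
    (hpl : ∀ x, IsPlane x (s x)) :
    ∃ (X : Type u) (_ : Lattice X) (_ : IsModularLattice X) (t : X ≃o X) (_ : PB X t) (o : X),
      Nonempty (L ≃o Set.Ici o) := by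
  obtain ⟨b, hb⟩ := con_bot hfin
  have hH : Con2_H s := ⟨fun a c => con_le hfin hSD hs hpl ⟨b, hb a, hb c⟩,
    con_sup hfin hSD hs hpl, con_inf hfin hSD hs hpl⟩
  have surj : ∀ (n : ℕ) (z y : L), s^[n] z ≤ y → ∃ w, z ≤ w ∧ s^[n] w = y := by
    intro n
    induction n with
    | zero => intro z y h; exact ⟨y, h, rfl⟩
    | succ n ih =>
      intro z y h
      rw [Function.iterate_succ_apply'] at h
      obtain ⟨w1, h1, h2⟩ := con_surj hfin hSD hs hpl h
      obtain ⟨w, h3, h4⟩ := ih z w1 h1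
      exact ⟨w, h3, by rw [Function.iterate_succ_apply', h4, h2]⟩
  have key : ∀ (m : ℕ) (x : L) (q : Con2_X s), Con2_mk s m x ≤ q →
      ∃ w, x ≤ w ∧ q = Con2_mk s m w := by
    intro m x q h
    obtain ⟨n, y, rfl⟩ := Con2_ind s q
    rw [Con2_mk_le] at h
    obtain ⟨w, h1, h2⟩ := surj n x _ h
    exact ⟨w, h1, Con2_mk_eq s h2.symm⟩
  have iso : ∀ (m : ℕ) (x y : L), Nonempty (Set.Icc x y ≃o
      Set.Icc (Con2_mk s m x) (Con2_mk s m y)) := by
    intro m x y
    let f : Set.Icc x y ↪o Set.Icc (Con2_mk s m x) (Con2_mk s m y) :=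
      OrderEmbedding.ofMapLEIff
        (fun z => ⟨Con2_mk s m z, (Con2_mk_le' s).2 z.2.1, (Con2_mk_le' s).2 z.2.2⟩)
        (fun a c => Con2_mk_le' s)
    refine ⟨RelIso.ofSurjective f ?_⟩
    rintro ⟨q, h1, h2⟩
    obtain ⟨w, h3, rfl⟩ := key m x q h1
    exact ⟨⟨w, h3, (Con2_mk_le' s).1 h2⟩, rfl⟩
  have cov : ∀ (m : ℕ) (x y : L), Con2_mk s m x ⋖ Con2_mk s m y ↔ x ⋖ y := by
    intro m x y
    constructor
    · intro h
      refine ⟨(Con2_mk_lt s).1 h.1, fun c h1 h2 => ?_⟩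
      exact h.2 ((Con2_mk_lt s).2 h1) ((Con2_mk_lt s).2 h2)
    · intro h
      refine ⟨(Con2_mk_lt s).2 h.1, fun c h1 h2 => ?_⟩
      obtain ⟨w, _, rfl⟩ := key m x c h1.le
      exact h.2 ((Con2_mk_lt s).1 h1) ((Con2_mk_lt s).1 h2)
  have two : ∀ p q : Con2_X s, p ≤ q → ∃ m x y, p = Con2_mk s m x ∧ q = Con2_mk s m y ∧ x ≤ y := by
    intro p q h
    obtain ⟨m, x, y, _, rfl, rfl, _⟩ := Con2_three s p q p
    exact ⟨m, x, y, rfl, rfl, (Con2_mk_le' s).1 h⟩
  have hPB : PB (Con2_X s) (Con2_t s) := by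
    refine ⟨?_, ?_, ?_, ?_, ?_⟩
    · intro p q
      by_cases h : p ≤ q
      · obtain ⟨m, x, y, rfl, rfl, hxy⟩ := two p q h
        have h1 : (Set.Icc x y).Finite := (hfin y).subset fun z hz => hz.2
        refine (h1.image (Con2_mk s m)).subset ?_
        rintro r ⟨h2, h3⟩
        obtain ⟨w, h4, rfl⟩ := key m x r h2
        exact ⟨w, ⟨h4, (Con2_mk_le' s).1 h3⟩, rfl⟩
      · rw [Set.Icc_eq_empty h]
        exact Set.finite_empty
    · intro p q h
      obtain ⟨m, x, y, rfl, rfl, hxy⟩ := two p q h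
      obtain ⟨e⟩ := iso m x y
      obtain ⟨d⟩ := hSD x y hxy
      exact ⟨e.symm.trans (d.trans e.dual)⟩
    · intro p
      obtain ⟨m, x, rfl⟩ := Con2_ind s p
      rw [Con2_t_mk]
      constructor
      · rintro q (rfl | hq)
        · exact (Con2_mk_le' s).2 (le_s hs x)
        · have hq' : Con2_mk s m x ⋖ q := hq
          obtain ⟨w, _, rfl⟩ := key m x q hq'.le
          exact (Con2_mk_le' s).2 (cov_le_s hs ((cov m x w).1 hq'))
      · intro u hu
        obtain ⟨w, h1, rfl⟩ := key m x u (hu (Set.mem_insert _ _))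
        refine (Con2_mk_le' s).2 (s_le hs h1 fun y hy => ?_)
        exact (Con2_mk_le' s).1 (hu (Set.mem_insert_of_mem _ ((cov m x y).2 hy)))
    · intro p
      obtain ⟨m, x, rfl⟩ := Con2_ind s p
      rw [Con2_t_mk]
      obtain ⟨e⟩ := iso m x (s x)
      exact Pool.Agent.Helper87.ML2.isPlane_congr (le_s hs x) e (hpl x)
    · intro p q
      obtain ⟨m, x, y, _, rfl, rfl, _⟩ := Con2_three s p q p
      obtain ⟨k, hk⟩ := con_dir hfin hSD hs hpl hb x
      refine ⟨k, ?_⟩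
      rw [Con2_t_it, Con2_mk_le']
      exact hk.trans ((Con2_le s k b y).2 (hb y))
  refine ⟨Con2_X s, Con2_lat s, Con2_mod s, Con2_t s, hPB, Con2_mk s 0 b, ?_⟩
  let f : L ↪o Set.Ici (Con2_mk s 0 b) :=
    OrderEmbedding.ofMapLEIff (fun z => ⟨Con2_mk s 0 z, (Con2_mk_le' s).2 (hb z)⟩)
      (fun a c => Con2_mk_le' s)
  refine ⟨RelIso.ofSurjective f ?_⟩
  rintro ⟨q, h1⟩
  obtain ⟨w, _, rfl⟩ := key 0 b q h1
  exact ⟨w, rfl⟩

end Pool.Agent.PLB
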