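import Pool.Agent.PLB.CvL

set_option autoImplicit false

/-! Theorem PB, the converse: `Lat K v` as a set of lattices in `K ^ 3`.

`f N` is `N.1` with its structure of `O`-submodule; `ball 0 ≤ N` is the second condition of `Lat`, and
the third one is `N ≤ ball (-n)`; conversely `ball 0 ≤ N` and `ball m ≤ N ≤ ball (-m)`. -/

namespace Pool.Agent.PLB

universe u

variable {K : Type u} [DivisionRing K] {v : K → WithTop ℤ}

/-- an element of `Lat` as an `O`-submodule -/
private def CvEmb_f (hv : IsCDV K v) (N : Lat K v) : MM hv 3 where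
  carrier := N.1
  add_mem' := fun hx hy => N.1.add_mem hx hy
  zero_mem' := N.1.zero_mem
  smul_mem' := fun a x hx => N.2.1 x hx (a : K) a.2

private lemma CvEmb_mem (hv : IsCDV K v) (N : Lat K v) (x : Fin 3 → K) :
    x ∈ CvEmb_f hv N ↔ x ∈ N.1 := Iff.rfl

theorem exists_emb (hv : IsCDV K v) : ∃ f : Lat K v ↪o MM hv 3,
    ∀ N, (∃ x, f x = N) ↔ (ball hv 3 0 ≤ N ∧ IsLatt hv N) := by
  refine ⟨OrderEmbedding.ofMapLEIff (CvEmb_f hv) fun a b => Iff.rfl, fun N => ?_⟩
  constructor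
  · rintro ⟨x, rfl⟩
    have h0 : ball hv 3 0 ≤ CvEmb_f hv x := fun u hu => x.2.2.1 u fun i => hu i
    obtain ⟨n, hn⟩ := x.2.2.2
    refine ⟨h0, n, ?_, fun u hu i => hn u hu i⟩
    refine le_trans ?_ h0
    intro u hu i
    refine le_trans ?_ (hu i)
    rw [WithTop.coe_le_coe]
    exact Int.natCast_nonneg n
  · rintro ⟨h0, m, _, hm⟩
    refine ⟨⟨N.toAddSubgroup, fun u hu a ha => ?_, fun u hu => h0 fun i => hu i,
      m, fun u hu i => hm hu i⟩, ?_⟩
    · exact N.smul_mem (⟨a, ha⟩ : OO hv) hu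
    · ext x
      exact Iff.rfl

end Pool.Agent.PLB
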