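import Pool.Agent.PLB.CvL

set_option autoImplicit false

/-! Theorem PB, the converse: intervals between lattices are finite.

`exists_reps`: finitely many representatives of `{v ≥ - m}` modulo `{v ≥ 0}`, by induction on `m`.
`icc_fin`: a submodule between `ball m` and `ball (- m)` is determined by the representatives
which it contains. -/

namespace Pool.Agent.PLB

universe u

variable {K : Type u} [DivisionRing K] {v : K → WithTop ℤ}

lemma exists_reps (hv : IsCDV K v) (m : ℕ) : ∃ T : Finset K, ∀ a : K,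
    ((-(m : ℤ) : ℤ) : WithTop ℤ) ≤ v a → ∃ t ∈ T, 0 ≤ v (a - t) := by
  classical
  induction m with
  | zero =>
    refine ⟨{0}, fun a ha => ⟨0, Finset.mem_singleton_self 0, ?_⟩⟩
    rw [sub_zero]
    exact ha
  | succ m ih =>
    obtain ⟨T, hT⟩ := ih
    obtain ⟨R, hR⟩ := hv.fin
    obtain ⟨p, hp⟩ := hv.exists_val ((m : ℤ) + 1)
    have hp0 : p ≠ 0 := hv.ne_zero hp
    refine ⟨Finset.image₂ (fun t t' => p⁻¹ * t + t') R T, fun a ha => ?_⟩
    have h1 : ((0 : ℤ) : WithTop ℤ) ≤ v (p * a) := by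
      refine (hv.le_mul_left hp).2 ?_
      have h2 : (0 - ((m : ℤ) + 1) : ℤ) = -((m + 1 : ℕ) : ℤ) := by
        push_cast
        ring
      rw [h2]
      exact ha
    obtain ⟨t, ht, h3⟩ := hR (p * a) h1
    have h4 : p * a - t = p * (a - p⁻¹ * t) := by
      rw [mul_sub, mul_inv_cancel_left₀ hp0]
    have h5 : ((1 : ℤ) : WithTop ℤ) ≤ v (p * (a - p⁻¹ * t)) := by
      rw [← h4]
      exact h3
    have h6 : ((-(m : ℤ) : ℤ) : WithTop ℤ) ≤ v (a - p⁻¹ * t) := by
      have h7 := (hv.le_mul_left hp).1 h5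
      have h8 : (1 - ((m : ℤ) + 1) : ℤ) = -(m : ℤ) := by ring
      rwa [h8] at h7
    obtain ⟨t', ht', h9⟩ := hT _ h6
    refine ⟨p⁻¹ * t + t', Finset.mem_image₂_of_mem ht ht', ?_⟩
    rw [← sub_sub]
    exact h9

theorem icc_fin {hv : IsCDV K v} {n : ℕ} {N N' : MM hv n} (hN : IsLatt hv N)
    (hN' : IsLatt hv N') : (Set.Icc N N').Finite := by
  classical
  obtain ⟨m₁, h₁, -⟩ := hN
  obtain ⟨m₂, -, h₂⟩ := hN'
  obtain ⟨m, hm₁, hm₂⟩ : ∃ m : ℕ, m₁ ≤ m ∧ m₂ ≤ m := ⟨max m₁ m₂, le_max_left _ _, le_max_right _ _⟩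
  have hlo : ball hv n (m : ℤ) ≤ N := (ball_anti hv (by omega)).trans h₁
  have hup : N' ≤ ball hv n (-(m : ℤ)) := h₂.trans (ball_anti hv (by omega))
  obtain ⟨p, hp⟩ := hv.exists_val (m : ℤ)
  have hp0 : p ≠ 0 := hv.ne_zero hp
  obtain ⟨T, hT⟩ := exists_reps hv (m + m)
  have hrep : ∀ a : K, ((-(m : ℤ) : ℤ) : WithTop ℤ) ≤ v a →
      ∃ t ∈ T.image (fun t => p * t), ((m : ℤ) : WithTop ℤ) ≤ v (a - t) := by
    intro a ha
    have h3 : ((-((m + m : ℕ) : ℤ) : ℤ) : WithTop ℤ) ≤ v (p⁻¹ * a) := by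
      refine (hv.le_mul_left (hv.inv hp)).2 ?_
      have h4 : (-((m + m : ℕ) : ℤ) - -(m : ℤ) : ℤ) = -(m : ℤ) := by
        push_cast
        ring
      rw [h4]
      exact ha
    obtain ⟨t, ht, h5⟩ := hT _ h3
    refine ⟨p * t, Finset.mem_image_of_mem _ ht, ?_⟩
    have h6 : a - p * t = p * (p⁻¹ * a - t) := by
      rw [mul_sub, mul_inv_cancel_left₀ hp0]
    rw [h6]
    refine (hv.le_mul_left hp).2 ?_
    rw [sub_self]
    exact h5
  set S : Finset (Fin n → K) :=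
    Fintype.piFinset (fun _ : Fin n => T.image (fun t => p * t)) with hS
  have hvec : ∀ x ∈ ball hv n (-(m : ℤ)), ∃ t ∈ S, x - t ∈ ball hv n (m : ℤ) := by
    intro x hx
    choose t ht h7 using fun i => hrep (x i) ((mem_ball hv).1 hx i)
    exact ⟨t, Fintype.mem_piFinset.2 ht, (mem_ball hv).2 h7⟩
  have hdet : ∀ M M' : MM hv n, M ∈ Set.Icc N N' → M' ∈ Set.Icc N N' →
      S.filter (fun t => t ∈ M) = S.filter (fun t => t ∈ M') → M ≤ M' := by
    intro M M' hM hM' h x hx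
    obtain ⟨t, ht, h8⟩ := hvec x (hup (hM.2 hx))
    have h9 : x - t ∈ M := hM.1 (hlo h8)
    have h10 : x - t ∈ M' := hM'.1 (hlo h8)
    have h11 : t ∈ M := by
      have h12 := M.sub_mem hx h9
      rwa [sub_sub_cancel] at h12
    have h13 : t ∈ S.filter (fun t => t ∈ M') := by
      rw [← h]
      exact Finset.mem_filter.2 ⟨ht, h11⟩
    have h14 := M'.add_mem h10 (Finset.mem_filter.1 h13).2
    rwa [sub_add_cancel] at h14
  refine Set.Finite.of_injOn (f := fun M : MM hv n => S.filter (fun t => t ∈ M))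
    (t := (S.powerset : Set (Finset (Fin n → K)))) ?_ ?_ (Finset.finite_toSet _)
  · intro M _
    exact Finset.mem_coe.2 (Finset.mem_powerset.2 (Finset.filter_subset _ _))
  · intro M hM M' hM' h
    exact le_antisymm (hdet M M' hM hM' h) (hdet M' M hM' hM h.symm)

end Pool.Agent.PLB
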