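import Pool.Agent.RIG.Shift

set_option autoImplicit false

/-! Theorem PB, the converse: convex sublattices (pure order theory).

`emb_sup`: `f x ⊔ f y = f z` for some `z` by `hsup`; `x ≤ z`, `y ≤ z`, so `x ⊔ y ≤ z`; `emb_inf` the
same.  `emb_mod`: the modular law `(x ⊔ y) ⊓ z ≤ x ⊔ y ⊓ z` for `x ≤ z` is reflected by `f`.
`emb_icc`: `hconv`: every element between `f x` and `f y` is in the range.
`up_of_plane`: let `t` be an upper bound of `x` and its covers and `z = t ⊓ s x`; by the first clause of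
`IsPlane` `z = x`, `x ⋖ z`, `z ⋖ s x` or `z = s x`; the first three are impossible by the last clause
(three points `p, q, r ≤ z`, different, on no line). -/

namespace Pool.Agent.PLB

open Pool.Agent.Helper87.ML Pool.Agent.RIG

universe u w

section
variable {L : Type u} {M : Type w} [Lattice L] [Lattice M] (f : L ↪o M) (R : M → Prop)
  (hR : ∀ y, (∃ x, f x = y) ↔ R y)

include hR

lemma emb_sup (hsup : ∀ a b, R a → R b → R (a ⊔ b)) (x y : L) : f (x ⊔ y) = f x ⊔ f y := by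
  obtain ⟨z, hz⟩ := (hR (f x ⊔ f y)).2 (hsup _ _ ((hR _).1 ⟨x, rfl⟩) ((hR _).1 ⟨y, rfl⟩))
  apply le_antisymm
  · rw [← hz, f.le_iff_le]
    apply sup_le
    · rw [← f.le_iff_le, hz]
      exact le_sup_left
    · rw [← f.le_iff_le, hz]
      exact le_sup_right
  · exact sup_le (f.le_iff_le.2 le_sup_left) (f.le_iff_le.2 le_sup_right)

lemma emb_inf (hinf : ∀ a b, R a → R b → R (a ⊓ b)) (x y : L) : f (x ⊓ y) = f x ⊓ f y := by
  obtain ⟨z, hz⟩ := (hR (f x ⊓ f y)).2 (hinf _ _ ((hR _).1 ⟨x, rfl⟩) ((hR _).1 ⟨y, rfl⟩))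
  apply le_antisymm
  · exact le_inf (f.le_iff_le.2 inf_le_left) (f.le_iff_le.2 inf_le_right)
  · rw [← hz, f.le_iff_le]
    apply le_inf
    · rw [← f.le_iff_le, hz]
      exact inf_le_left
    · rw [← f.le_iff_le, hz]
      exact inf_le_right

lemma emb_mod [IsModularLattice M] (hsup : ∀ a b, R a → R b → R (a ⊔ b))
    (hinf : ∀ a b, R a → R b → R (a ⊓ b)) : IsModularLattice L := by
  refine ⟨?_⟩
  intro x y z h
  rw [← f.le_iff_le, emb_inf f R hR hinf, emb_sup f R hR hsup, emb_sup f R hR hsup,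
    emb_inf f R hR hinf]
  exact IsModularLattice.sup_inf_le_assoc_of_le (f y) (f.le_iff_le.2 h)

lemma emb_icc (hconv : ∀ a b c, R a → R c → a ≤ b → b ≤ c → R b) (x y : L) :
    Nonempty (Set.Icc x y ≃o Set.Icc (f x) (f y)) := by
  have hb : Function.Bijective (fun z : Set.Icc x y =>
      (⟨f z.1, f.le_iff_le.2 z.2.1, f.le_iff_le.2 z.2.2⟩ : Set.Icc (f x) (f y))) := by
    constructor
    · intro a b hab
      exact Subtype.ext (f.injective (congrArg Subtype.val hab))
    · rintro ⟨b, hb1, hb2⟩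
      obtain ⟨z, hz⟩ := (hR b).2
        (hconv _ _ _ ((hR _).1 ⟨x, rfl⟩) ((hR _).1 ⟨y, rfl⟩) hb1 hb2)
      have h1 : x ≤ z := by
        rw [← f.le_iff_le, hz]
        exact hb1
      have h2 : z ≤ y := by
        rw [← f.le_iff_le, hz]
        exact hb2
      exact ⟨⟨z, h1, h2⟩, Subtype.ext hz⟩
  refine ⟨{ Equiv.ofBijective _ hb with map_rel_iff' := ?_ }⟩
  intro a b
  exact f.le_iff_le

end

theorem up_of_plane {L : Type u} [Lattice L] {s : L → L} (h1 : ∀ x, IsPlane x (s x))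
    (h2 : ∀ x y, x ⋖ y → y ≤ s x) : IsUp s := by
  intro x
  obtain ⟨hz, -, -, -, p, q, r, ⟨hp, hq, hr⟩, ⟨hpt, hqt, hrt⟩, ⟨hpq, hpr, hqr⟩, hno⟩ := h1 x
  constructor
  · rintro y (rfl | hy)
    · exact hp.le.trans hpt
    · exact h2 _ _ hy
  · intro t ht
    have hxt : x ≤ t := ht (Set.mem_insert _ _)
    have hc : ∀ y, x ⋖ y → y ≤ t := fun y hy => ht (Set.mem_insert_of_mem _ hy)
    have hpz : p ≤ t ⊓ s x := le_inf (hc p hp) hpt
    have hqz : q ≤ t ⊓ s x := le_inf (hc q hq) hqt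
    have hrz : r ≤ t ⊓ s x := le_inf (hc r hr) hrt
    rcases hz (t ⊓ s x) (hp.le.trans hpz) inf_le_right with h | h | h | h
    · rw [h] at hpz
      exact absurd (hp.lt.trans_le hpz) (lt_irrefl _)
    · have e1 : p = t ⊓ s x := by
        rcases eq_or_lt_of_le hpz with h3 | h3
        · exact h3
        · exact absurd h3 (h.2 hp.lt)
      have e2 : q = t ⊓ s x := by
        rcases eq_or_lt_of_le hqz with h3 | h3
        · exact h3
        · exact absurd h3 (h.2 hq.lt)
      exact absurd (e1.trans e2.symm) hpq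
    · exact absurd ⟨hpz, hqz, hrz⟩ (hno _ (hp.le.trans hpz) h)
    · rw [← h]
      exact inf_le_left

end Pool.Agent.PLB
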