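import Pool.Agent.PLB.CvSmith

set_option autoImplicit false

/-! Theorem PB, the converse: adapted bases of pairs of lattices.

`exists_basis`: let `ball m ≤ N ≤ ball (-m)`, `v p = m` (`IsCDV.exists_val`), `g0 = rsc (fun _ => p)`,
`N1 = cm hv g0.symm N` (the image of `N`): `N1 ≤ ball 0` and `ball (2 m) ≤ N1`.  `smith` gives `g1, a`
with `x ∈ N1 ↔ ∀ i, a i ≤ v (g1 x i)`, so `x ∈ N ↔ ∀ i, a i ≤ v (g1 (g0 x) i)`; multiply the
coordinates from the right by elements `p i` of value `- a i` (`rsc`, `le_mul_right`).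
`exists_adapted`: `g` a basis of `N'`, `N2 = cm hv g.symm N ≤ ball 0` a lattice (`IsLatt.cm`), `smith`
gives `g2, a`, and the automorphism is `g.trans g2` (`g2` preserves `ball 0`). -/

namespace Pool.Agent.PLB

universe u

variable {K : Type u} [DivisionRing K] {v : K → WithTop ℤ}

theorem exists_basis {hv : IsCDV K v} {n : ℕ} {N : MM hv n} (hN : IsLatt hv N) :
    ∃ g : (Fin n → K) ≃ₗ[K] (Fin n → K), InCo hv g (fun _ => 0) N := by
  obtain ⟨m, hm1, hm2⟩ := hN
  obtain ⟨p, hp⟩ := hv.exists_val (m : ℤ)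
  have hp0 : ∀ _ : Fin n, p ≠ 0 := fun _ => hv.ne_zero hp
  set g0 : (Fin n → K) ≃ₗ[K] (Fin n → K) := rsc (fun _ => p) hp0 with hg0
  have happ : ∀ (x : Fin n → K) (i : Fin n), x i = g0.symm x i * p := by
    intro x i
    have h := rsc_apply (p := fun _ : Fin n => p) hp0 (g0.symm x) i
    rw [← hg0, g0.apply_symm_apply] at h
    exact h
  have h1 : cm hv g0.symm N ≤ ball hv n 0 := by
    intro x hx i
    have h2 := hm2 hx i
    rw [happ x i, hv.le_mul_right hp, zero_sub]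
    exact h2
  have h2 : ball hv n ((2 * m : ℕ) : ℤ) ≤ cm hv g0.symm N := by
    intro x hx
    refine hm1 fun i => ?_
    have h3 := hx i
    rw [happ x i, hv.le_mul_right hp] at h3
    have h4 : (((2 * m : ℕ) : ℤ) - (m : ℤ)) = (m : ℤ) := by push_cast; ring
    rw [h4] at h3
    exact h3
  obtain ⟨g1, a, -, h4⟩ := smith hv n (2 * m) _ h1 h2
  choose q hq using fun i : Fin n => hv.exists_val (-(a i : ℤ))
  have hq0 : ∀ i, q i ≠ 0 := fun i => hv.ne_zero (hq i)
  refine ⟨(g0.trans g1).trans (rsc q hq0), fun x => ?_⟩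
  have h5 : x ∈ N ↔ g0 x ∈ cm hv g0.symm N := by
    rw [mem_cm, g0.symm_apply_apply]
  rw [h5, h4 (g0 x)]
  refine forall_congr' fun i => ?_
  have h6 : ((g0.trans g1).trans (rsc q hq0)) x i = g1 (g0 x) i * q i := rfl
  rw [h6, hv.le_mul_right (hq i), zero_sub, neg_neg]

theorem exists_adapted {hv : IsCDV K v} {n : ℕ} {N N' : MM hv n} (hN : IsLatt hv N)
    (hN' : IsLatt hv N') (h : N ≤ N') :
    ∃ (g : (Fin n → K) ≃ₗ[K] (Fin n → K)) (a : Fin n → ℕ),
      InCo hv g (fun _ => 0) N' ∧ InCo hv g (fun i => (a i : ℤ)) N := by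
  obtain ⟨g, hg⟩ := exists_basis hN'
  have h1 : cm hv g.symm N ≤ ball hv n 0 := by
    intro x hx i
    have h2 := (hg (g.symm x)).1 (h hx) i
    rw [g.apply_symm_apply] at h2
    exact h2
  obtain ⟨m, h2, -⟩ := hN.cm g.symm
  obtain ⟨g2, a, h3, h4⟩ := smith hv n m _ h1 h2
  refine ⟨g.trans g2, a, fun x => ?_, fun x => ?_⟩
  · rw [hg x]
    exact (h3 (g x)).symm
  · have h5 : x ∈ N ↔ g x ∈ cm hv g.symm N := by
      rw [mem_cm, g.symm_apply_apply]
    rw [h5, h4 (g x)]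
    exact Iff.rfl

end Pool.Agent.PLB
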