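import Pool.Agent.Helper87.ML.Defs

set_option autoImplicit false

/-! Theorem PB, the converse: the subspaces of `k ^ 3` form a projective plane (dimension count). -/

namespace Pool.Agent.PLB

open Pool.Agent.Helper87.ML

universe u

lemma pt_iff {k : Type u} [DivisionRing k] (p : Submodule k (Fin 3 → k)) :
    ⊥ ⋖ p ↔ Module.finrank k p = 1 := by
  constructor
  · intro h
    obtain ⟨x, hx, hx0⟩ := (Submodule.ne_bot_iff p).1 (bot_lt_iff_ne_bot.1 h.1)
    have h1 : Submodule.span k {x} ≤ p := by
      rw [Submodule.span_singleton_le_iff_mem]; exact hx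
    have h2 : ⊥ < Submodule.span k {x} := by
      rw [bot_lt_iff_ne_bot, Ne, Submodule.span_singleton_eq_bot]; exact hx0
    have h3 : Submodule.span k {x} = p := by
      rcases h1.eq_or_lt with h' | h'
      · exact h'
      · exact absurd h' (h.2 h2)
    rw [← h3]; exact finrank_span_singleton hx0
  · intro h
    refine ⟨?_, ?_⟩
    · rw [bot_lt_iff_ne_bot]
      rintro rfl
      rw [finrank_bot] at h
      omega
    · intro u hu hup
      have h1 := Submodule.finrank_lt_finrank_of_lt hup
      have h2 := Submodule.finrank_lt_finrank_of_lt hu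
      rw [finrank_bot] at h2
      omega

private lemma CvP1_top (k : Type u) [DivisionRing k] :
    Module.finrank k (⊤ : Submodule k (Fin 3 → k)) = 3 := by
  rw [finrank_top, Module.finrank_fin_fun]

private lemma CvP1_le {k : Type u} [DivisionRing k] (l : Submodule k (Fin 3 → k)) :
    Module.finrank k l ≤ 3 :=
  (Submodule.finrank_mono (le_top : l ≤ ⊤)).trans_eq (CvP1_top k)

private lemma CvP1_eq_top {k : Type u} [DivisionRing k] {l : Submodule k (Fin 3 → k)}
    (h : Module.finrank k l = 3) : l = ⊤ :=
  Submodule.eq_of_le_of_finrank_eq le_top (h.trans (CvP1_top k).symm)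

lemma ln_iff {k : Type u} [DivisionRing k] (l : Submodule k (Fin 3 → k)) :
    l ⋖ ⊤ ↔ Module.finrank k l = 2 := by
  constructor
  · intro h
    obtain ⟨x, -, hx⟩ := SetLike.exists_of_lt h.1
    have hx0 : x ≠ 0 := by
      rintro rfl; exact hx l.zero_mem
    have h1 : l < l ⊔ Submodule.span k {x} := by
      refine lt_of_le_of_ne le_sup_left ?_
      intro he
      apply hx
      rw [he]
      exact Submodule.mem_sup_right (Submodule.mem_span_singleton_self x)
    have h2 : l ⊔ Submodule.span k {x} = ⊤ := by
      by_contra hne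
      exact h.2 h1 (lt_top_iff_ne_top.2 hne)
    have h3 := Submodule.finrank_sup_add_finrank_inf_eq l (Submodule.span k {x})
    rw [h2, CvP1_top, finrank_span_singleton hx0] at h3
    have h4 := Submodule.finrank_lt_finrank_of_lt h.1
    rw [CvP1_top] at h4
    omega
  · intro h
    refine ⟨?_, ?_⟩
    · rw [lt_top_iff_ne_top]
      rintro rfl
      rw [CvP1_top] at h
      omega
    · intro u hu hup
      have h1 := Submodule.finrank_lt_finrank_of_lt hup
      have h2 := Submodule.finrank_lt_finrank_of_lt hu
      rw [CvP1_top] at h1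
      omega

private lemma CvP1_span {k : Type u} [DivisionRing k] {x y : Fin 3 → k} (hx : x ≠ 0)
    (hy : y ∉ Submodule.span k {x}) :
    Submodule.span k {x} ≠ Submodule.span k {y} ∧
    Submodule.span k {x} ≠ Submodule.span k {x + y} ∧
    Submodule.span k {y} ≠ Submodule.span k {x + y} := by
  have hy0 : y ≠ 0 := by
    rintro rfl; exact hy (Submodule.zero_mem _)
  have h1 : Submodule.span k {x} ≠ Submodule.span k {y} := by
    intro he; apply hy; rw [he]; exact Submodule.mem_span_singleton_self y
  refine ⟨h1, ?_, ?_⟩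
  · intro he
    apply hy
    have h2 : x + y ∈ Submodule.span k {x} := by
      rw [he]; exact Submodule.mem_span_singleton_self _
    have h3 := Submodule.sub_mem _ h2 (Submodule.mem_span_singleton_self x)
    rwa [add_sub_cancel_left] at h3
  · intro he
    have h2 : x + y ∈ Submodule.span k {y} := by
      rw [he]; exact Submodule.mem_span_singleton_self _
    have h3 := Submodule.sub_mem _ h2 (Submodule.mem_span_singleton_self y)
    rw [add_sub_cancel_right] at h3
    apply h1
    apply Submodule.eq_of_le_of_finrank_eq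
    · rw [Submodule.span_singleton_le_iff_mem]; exact h3
    · rw [finrank_span_singleton hx, finrank_span_singleton hy0]

theorem plane_sub (k : Type u) [DivisionRing k] :
    IsPlane (⊥ : Submodule k (Fin 3 → k)) ⊤ := by
  refine ⟨?_, ?_, ?_, ?_, ?_⟩
  · intro z _ _
    rw [pt_iff, ln_iff]
    have h1 := CvP1_le z
    rcases Nat.eq_zero_or_pos (Module.finrank k z) with h0 | h0
    · left; exact Submodule.finrank_eq_zero.1 h0
    · by_cases h3 : Module.finrank k z = 3
      · right; right; right; exact CvP1_eq_top h3
      · omega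
  · intro p q hp _ hq _ hpq
    rw [pt_iff] at hp hq
    have hinf : Module.finrank k (p ⊓ q : Submodule k (Fin 3 → k)) = 0 := by
      have h1 : Module.finrank k (p ⊓ q : Submodule k (Fin 3 → k)) ≤ Module.finrank k p :=
        Submodule.finrank_mono inf_le_left
      by_contra h0
      have h2 : Module.finrank k (p ⊓ q : Submodule k (Fin 3 → k)) = 1 := by omega
      apply hpq
      have e1 := Submodule.eq_of_le_of_finrank_eq (inf_le_left : p ⊓ q ≤ p) (h2.trans hp.symm)
      have e2 := Submodule.eq_of_le_of_finrank_eq (inf_le_right : p ⊓ q ≤ q) (h2.trans hq.symm)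
      exact e1.symm.trans e2
    have hsup : Module.finrank k (p ⊔ q : Submodule k (Fin 3 → k)) = 2 := by
      have h3 := Submodule.finrank_sup_add_finrank_inf_eq p q
      omega
    refine ⟨p ⊔ q, ⟨⟨bot_le, (ln_iff _).2 hsup⟩, le_sup_left, le_sup_right⟩, ?_⟩
    rintro l ⟨⟨-, hl⟩, hpl, hql⟩
    rw [ln_iff] at hl
    exact (Submodule.eq_of_le_of_finrank_eq (sup_le hpl hql) (hsup.trans hl.symm)).symm
  · intro l m _ hl _ hm hlm
    rw [ln_iff] at hl hm
    have hsup : Module.finrank k (l ⊔ m : Submodule k (Fin 3 → k)) = 3 := by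
      have h1 : Module.finrank k l ≤ Module.finrank k (l ⊔ m : Submodule k (Fin 3 → k)) :=
        Submodule.finrank_mono le_sup_left
      have h3 := CvP1_le (l ⊔ m)
      by_contra h0
      have h2 : Module.finrank k (l ⊔ m : Submodule k (Fin 3 → k)) = 2 := by omega
      apply hlm
      have e1 := Submodule.eq_of_le_of_finrank_eq (le_sup_left : l ≤ l ⊔ m) (hl.trans h2.symm)
      have e2 := Submodule.eq_of_le_of_finrank_eq (le_sup_right : m ≤ l ⊔ m) (hm.trans h2.symm)
      exact e1.trans e2.symm
    have hinf : Module.finrank k (l ⊓ m : Submodule k (Fin 3 → k)) = 1 := by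
      have h3 := Submodule.finrank_sup_add_finrank_inf_eq l m
      omega
    refine ⟨l ⊓ m, ⟨⟨(pt_iff _).2 hinf, le_top⟩, inf_le_left, inf_le_right⟩, ?_⟩
    rintro p ⟨⟨hp, -⟩, hpl, hpm⟩
    rw [pt_iff] at hp
    exact Submodule.eq_of_le_of_finrank_eq (le_inf hpl hpm) (hp.trans hinf.symm)
  · intro l _ hl
    rw [ln_iff] at hl
    have hne : l ≠ ⊥ := by
      rintro rfl
      rw [finrank_bot] at hl
      omega
    obtain ⟨x, hx, hx0⟩ := (Submodule.ne_bot_iff l).1 hne
    have hle : Submodule.span k {x} ≤ l := by
      rw [Submodule.span_singleton_le_iff_mem]; exact hx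
    have hlt : Submodule.span k {x} < l := by
      refine lt_of_le_of_ne hle ?_
      intro he
      rw [← he, finrank_span_singleton hx0] at hl
      omega
    obtain ⟨y, hy, hyx⟩ := SetLike.exists_of_lt hlt
    have hy0 : y ≠ 0 := by
      rintro rfl; exact hyx (Submodule.zero_mem _)
    have hxy0 : x + y ≠ 0 := by
      intro h0
      apply hyx
      rw [eq_neg_of_add_eq_zero_right h0]
      exact Submodule.neg_mem _ (Submodule.mem_span_singleton_self x)
    refine ⟨Submodule.span k {x}, Submodule.span k {y}, Submodule.span k {x + y},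
      ⟨?_, ?_, ?_⟩, ⟨hle, ?_, ?_⟩, CvP1_span hx0 hyx⟩
    · rw [pt_iff]; exact finrank_span_singleton hx0
    · rw [pt_iff]; exact finrank_span_singleton hy0
    · rw [pt_iff]; exact finrank_span_singleton hxy0
    · rw [Submodule.span_singleton_le_iff_mem]; exact hy
    · rw [Submodule.span_singleton_le_iff_mem]; exact l.add_mem hx hy
  · have hE : ∀ i : Fin 3, (Pi.single i 1 : Fin 3 → k) ≠ 0 := by
      intro i h
      have := congrFun h i
      rw [Pi.single_eq_same] at this
      exact one_ne_zero this
    have hD : ∀ i j : Fin 3, i ≠ j → Submodule.span k {(Pi.single i 1 : Fin 3 → k)} ≠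
        Submodule.span k {(Pi.single j 1 : Fin 3 → k)} := by
      intro i j hij he
      have h1 : (Pi.single j 1 : Fin 3 → k) ∈ Submodule.span k {(Pi.single i 1 : Fin 3 → k)} := by
        rw [he]; exact Submodule.mem_span_singleton_self _
      obtain ⟨c, hc⟩ := Submodule.mem_span_singleton.1 h1
      have h2 := congrFun hc j
      rw [Pi.smul_apply, Pi.single_eq_same, Pi.single_eq_of_ne hij.symm, smul_zero] at h2
      exact zero_ne_one h2
    refine ⟨Submodule.span k {Pi.single 0 1}, Submodule.span k {Pi.single 1 1},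
      Submodule.span k {Pi.single 2 1}, ⟨?_, ?_, ?_⟩, ⟨le_top, le_top, le_top⟩,
      ⟨hD 0 1 (by decide), hD 0 2 (by decide), hD 1 2 (by decide)⟩, ?_⟩
    · rw [pt_iff]; exact finrank_span_singleton (hE 0)
    · rw [pt_iff]; exact finrank_span_singleton (hE 1)
    · rw [pt_iff]; exact finrank_span_singleton (hE 2)
    · rintro l _ hl ⟨h0, h1, h2⟩
      rw [Submodule.span_singleton_le_iff_mem] at h0 h1 h2
      have hall : ∀ i : Fin 3, (Pi.single i 1 : Fin 3 → k) ∈ l := by
        intro i
        fin_cases i
        · exact h0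
        · exact h1
        · exact h2
      apply hl.1.ne
      rw [eq_top_iff]
      intro x _
      have hx : x = ∑ i : Fin 3, x i • (Pi.single i 1 : Fin 3 → k) := by
        funext j
        rw [Finset.sum_apply, Finset.sum_eq_single j]
        · rw [Pi.smul_apply, Pi.single_eq_same, smul_eq_mul, mul_one]
        · intro b _ hb
          rw [Pi.smul_apply, Pi.single_eq_of_ne hb.symm, smul_zero]
        · intro h; exact absurd (Finset.mem_univ j) h
      rw [hx]
      exact Submodule.sum_mem _ fun i _ => l.smul_mem _ (hall i)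

end Pool.Agent.PLB
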