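import Pool.Agent.PLB.CvL

set_option autoImplicit false

/-! Theorem PB, the converse: the submodules between `π O ^ n` and `O ^ n` are the subspaces of
`k ^ n`.

`W ↦ {x | ∃ h : ∀ i, x i ∈ O, (fun i => r ⟨x i, h i⟩) ∈ W}`, inverse
`M ↦ {w | ∃ x ∈ M, ∃ h : ∀ i, x i ∈ O, w = fun i => r ⟨x i, h i⟩}` (a subspace as `r` is onto; two
elements `x, x'` of `O ^ n` with the same image differ by an element of `ball 1 ≤ M`). -/

namespace Pool.Agent.PLB

universe u

variable {K : Type u} [DivisionRing K] {v : K → WithTop ℤ}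

/-- the reduction of a vector -/
private def cvp2_rx (hv : IsCDV K v) {k : Type u} [DivisionRing k] (r : OO hv →+* k) {n : ℕ}
    (x : Fin n → K) (h : ∀ i, x i ∈ OO hv) : Fin n → k := fun i => r ⟨x i, h i⟩

private theorem cvp2_add (hv : IsCDV K v) {k : Type u} [DivisionRing k] (r : OO hv →+* k) {n : ℕ}
    {x y : Fin n → K} (hx : ∀ i, x i ∈ OO hv) (hy : ∀ i, y i ∈ OO hv)
    (h : ∀ i, (x + y) i ∈ OO hv) :
    cvp2_rx hv r (x + y) h = cvp2_rx hv r x hx + cvp2_rx hv r y hy := by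
  funext i
  show r ⟨(x + y) i, h i⟩ = r ⟨x i, hx i⟩ + r ⟨y i, hy i⟩
  rw [← map_add]
  rfl

private theorem cvp2_smul (hv : IsCDV K v) {k : Type u} [DivisionRing k] (r : OO hv →+* k) {n : ℕ}
    (a : OO hv) {x : Fin n → K} (hx : ∀ i, x i ∈ OO hv) (h : ∀ i, (a • x) i ∈ OO hv) :
    cvp2_rx hv r (a • x) h = r a • cvp2_rx hv r x hx := by
  funext i
  show r ⟨(a • x) i, h i⟩ = r a * r ⟨x i, hx i⟩
  rw [← map_mul]
  rfl

private theorem cvp2_mem_smul (hv : IsCDV K v) {n : ℕ} (a : OO hv) {x : Fin n → K}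
    (hx : ∀ i, x i ∈ OO hv) : ∀ i, (a • x) i ∈ OO hv := fun i =>
  (OO hv).mul_mem a.2 (hx i)

private theorem cvp2_mem_add (hv : IsCDV K v) {n : ℕ} {x y : Fin n → K}
    (hx : ∀ i, x i ∈ OO hv) (hy : ∀ i, y i ∈ OO hv) : ∀ i, (x + y) i ∈ OO hv := fun i =>
  (OO hv).add_mem (hx i) (hy i)

/-- the subspace of a lattice -/
private def cvp2_F (hv : IsCDV K v) {k : Type u} [DivisionRing k] (r : OO hv →+* k)
    (hr : Function.Surjective r) {n : ℕ} (M : MM hv n) : Submodule k (Fin n → k) where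
  carrier := {w | ∃ x ∈ M, ∃ h : ∀ i, x i ∈ OO hv, w = cvp2_rx hv r x h}
  add_mem' := by
    rintro w w' ⟨x, hx, h, rfl⟩ ⟨y, hy, h', rfl⟩
    exact ⟨x + y, M.add_mem hx hy, cvp2_mem_add hv h h', (cvp2_add hv r h h' _).symm⟩
  zero_mem' := by
    refine ⟨0, M.zero_mem, fun i => (OO hv).zero_mem, ?_⟩
    funext i
    exact (map_zero r).symm
  smul_mem' := by
    rintro c w ⟨x, hx, h, rfl⟩
    obtain ⟨a, rfl⟩ := hr c
    exact ⟨a • x, M.smul_mem a hx, cvp2_mem_smul hv a h, (cvp2_smul hv r a h _).symm⟩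

/-- the lattice of a subspace -/
private def cvp2_G (hv : IsCDV K v) {k : Type u} [DivisionRing k] (r : OO hv →+* k) {n : ℕ}
    (W : Submodule k (Fin n → k)) : MM hv n where
  carrier := {x | ∃ h : ∀ i, x i ∈ OO hv, cvp2_rx hv r x h ∈ W}
  add_mem' := by
    rintro x y ⟨h, hx⟩ ⟨h', hy⟩
    refine ⟨cvp2_mem_add hv h h', ?_⟩
    rw [cvp2_add hv r h h']
    exact W.add_mem hx hy
  zero_mem' := by
    refine ⟨fun i => (OO hv).zero_mem, ?_⟩
    have h : cvp2_rx hv r (0 : Fin n → K) (fun i => (OO hv).zero_mem) = 0 := by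
      funext i
      exact map_zero r
    rw [h]
    exact W.zero_mem
  smul_mem' := by
    rintro a x ⟨h, hx⟩
    refine ⟨cvp2_mem_smul hv a h, ?_⟩
    rw [cvp2_smul hv r a h]
    exact W.smul_mem _ hx

private theorem cvp2_G_icc (hv : IsCDV K v) {k : Type u} [DivisionRing k] (r : OO hv →+* k)
    (hk : ∀ a : OO hv, r a = 0 ↔ 1 ≤ v (a : K)) {n : ℕ} (W : Submodule k (Fin n → k)) :
    cvp2_G hv r W ∈ Set.Icc (ball hv n 1) (ball hv n 0) := by
  constructor
  · intro x hx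
    rw [mem_ball] at hx
    have h : ∀ i, x i ∈ OO hv := fun i => (zero_le_one.trans (hx i) : (0 : WithTop ℤ) ≤ v (x i))
    refine ⟨h, ?_⟩
    have h0 : cvp2_rx hv r x h = 0 := by
      funext i
      exact (hk ⟨x i, h i⟩).2 (hx i)
    rw [h0]
    exact W.zero_mem
  · rintro x ⟨h, -⟩
    rw [mem_ball]
    intro i
    exact h i

theorem icc_iso (hv : IsCDV K v) {k : Type u} [DivisionRing k] (r : OO hv →+* k)
    (hr : Function.Surjective r) (hk : ∀ a : OO hv, r a = 0 ↔ 1 ≤ v (a : K)) (n : ℕ) :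
    Nonempty (Set.Icc (ball hv n 1) (ball hv n 0) ≃o Submodule k (Fin n → k)) := by
  have left : ∀ M : Set.Icc (ball hv n 1) (ball hv n 0),
      cvp2_G hv r (cvp2_F hv r hr M.1) = M.1 := by
    rintro ⟨M, hM1, hM0⟩
    refine le_antisymm ?_ ?_
    · rintro x ⟨h, y, hy, h', hxy⟩
      have h1 : x - y ∈ ball hv n 1 := by
        rw [mem_ball]
        intro i
        have h2 : r ⟨x i, h i⟩ = r ⟨y i, h' i⟩ := congrFun hxy i
        have h3 : r (⟨x i, h i⟩ - ⟨y i, h' i⟩) = 0 := by rw [map_sub, h2, sub_self]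
        exact (hk _).1 h3
      have h4 : x = (x - y) + y := (sub_add_cancel x y).symm
      rw [h4]
      exact M.add_mem (hM1 h1) hy
    · intro x hx
      have h : ∀ i, x i ∈ OO hv := fun i => (mem_ball hv).1 (hM0 hx) i
      exact ⟨h, x, hx, h, rfl⟩
  refine ⟨Equiv.toOrderIso
    { toFun := fun M => cvp2_F hv r hr M.1
      invFun := fun W => ⟨cvp2_G hv r W, cvp2_G_icc hv r hk W⟩
      left_inv := fun M => Subtype.ext (left M)
      right_inv := fun W => ?_ } ?_ ?_⟩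
  · refine le_antisymm ?_ ?_
    · rintro w ⟨x, ⟨h, hx⟩, h', rfl⟩
      exact hx
    · intro w hw
      choose a ha using fun i => hr (w i)
      have e : cvp2_rx hv r (fun i => (a i : K)) (fun i => (a i).2) = w := by
        funext i
        exact ha i
      refine ⟨fun i => (a i : K), ⟨fun i => (a i).2, ?_⟩, fun i => (a i).2, e.symm⟩
      rw [e]
      exact hw
  · rintro M M' h w ⟨x, hx, h', rfl⟩
    exact ⟨x, h hx, h', rfl⟩
  · rintro W W' h x ⟨h', hx⟩
    exact ⟨h', h hx⟩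

end Pool.Agent.PLB
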