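import Pool.Agent.PLB.CvV

set_option autoImplicit false

/-! Theorem PB, the converse: the residue division ring.

`I = {a : O | 1 ≤ v a}` is a two-sided ideal (`Ideal` with `Ideal.IsTwoSided`, or `RingCon`), `k = O ⧸ I`
(`Ideal.Quotient.ring`), nontrivial since `v 1 = 0`; if `a ∈ O` is not in `I` then `v a = 0`, so
`a⁻¹ ∈ O`; hence every element is `0` or a unit: `DivisionRing.ofIsUnitOrEqZero` or a direct
construction. -/

namespace Pool.Agent.PLB

universe u

variable {K : Type u} [DivisionRing K] {v : K → WithTop ℤ}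

/-- the maximal ideal -/
private def cvres_I (hv : IsCDV K v) : Ideal (OO hv) where
  carrier := {a | 1 ≤ v (a : K)}
  add_mem' := by
    intro a b ha hb
    exact (le_min ha hb).trans (hv.add _ _)
  zero_mem' := by
    show 1 ≤ v ((0 : OO hv) : K)
    rw [Subring.coe_zero, hv.zero]
    exact le_top
  smul_mem' := by
    intro c a ha
    show 1 ≤ v (((c • a : OO hv)) : K)
    rw [smul_eq_mul, Subring.coe_mul, hv.mul]
    have h1 : (0 : WithTop ℤ) ≤ v (c : K) := c.2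
    calc (1 : WithTop ℤ) = 0 + 1 := (zero_add _).symm
      _ ≤ v (c : K) + v (a : K) := add_le_add h1 ha

private theorem cvres_mem (hv : IsCDV K v) (a : OO hv) : a ∈ cvres_I hv ↔ 1 ≤ v (a : K) := Iff.rfl

private theorem cvres_two (hv : IsCDV K v) : (cvres_I hv).IsTwoSided := by
  refine ⟨fun {a} b ha => ?_⟩
  show 1 ≤ v ((a * b : OO hv) : K)
  rw [Subring.coe_mul, hv.mul]
  have h1 : (0 : WithTop ℤ) ≤ v (b : K) := b.2
  calc (1 : WithTop ℤ) = 1 + 0 := (add_zero _).symm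
    _ ≤ v (a : K) + v (b : K) := add_le_add ha h1

private theorem cvres_one (hv : IsCDV K v) : (1 : OO hv) ∉ cvres_I hv := by
  rw [cvres_mem, Subring.coe_one, hv.one]
  intro h
  have h1 : (1 : ℤ) ≤ 0 := WithTop.coe_le_coe.1 h
  omega

private theorem cvres_unit (hv : IsCDV K v) (a : OO hv) (ha : a ∉ cvres_I hv) : IsUnit a := by
  have h0 : (a : K) ≠ 0 := by
    intro h
    apply ha
    rw [cvres_mem, h, hv.zero]
    exact le_top
  obtain ⟨m, hm⟩ := hv.ex h0
  have h1 : (0 : WithTop ℤ) ≤ v (a : K) := a.2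
  have h2 : ¬ 1 ≤ v (a : K) := ha
  rw [hm] at h1 h2
  have h3 : (0 : ℤ) ≤ m := WithTop.coe_le_coe.1 h1
  have h4 : ¬ (1 : ℤ) ≤ m := fun h => h2 (WithTop.coe_le_coe.2 h)
  have h5 : m = 0 := by omega
  have h6 : v (a : K)⁻¹ = ((-m : ℤ) : WithTop ℤ) := hv.inv hm
  have h7 : (0 : WithTop ℤ) ≤ v (a : K)⁻¹ := by
    rw [h6, h5]
    exact le_rfl
  refine ⟨⟨a, ⟨(a : K)⁻¹, h7⟩, ?_, ?_⟩, rfl⟩
  · apply Subtype.ext
    show (a : K) * (a : K)⁻¹ = 1
    exact mul_inv_cancel₀ h0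
  · apply Subtype.ext
    show (a : K)⁻¹ * (a : K) = 1
    exact inv_mul_cancel₀ h0

theorem exists_res (hv : IsCDV K v) : ∃ (k : Type u) (_ : DivisionRing k) (r : OO hv →+* k),
    Function.Surjective r ∧ ∀ a : OO hv, r a = 0 ↔ 1 ≤ v (a : K) := by
  have i1 : (cvres_I hv).IsTwoSided := cvres_two hv
  have i2 : Nontrivial (OO hv ⧸ cvres_I hv) := by
    refine ⟨1, 0, fun h => cvres_one hv ?_⟩
    have h1 : Ideal.Quotient.mk (cvres_I hv) 1 = 0 := by rw [map_one]; exact h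
    exact Ideal.Quotient.eq_zero_iff_mem.1 h1
  have h1 : ∀ a : OO hv ⧸ cvres_I hv, IsUnit a ∨ a = 0 := by
    intro a
    obtain ⟨b, rfl⟩ := Ideal.Quotient.mk_surjective a
    by_cases hb : b ∈ cvres_I hv
    · exact Or.inr (Ideal.Quotient.eq_zero_iff_mem.2 hb)
    · exact Or.inl ((cvres_unit hv b hb).map (Ideal.Quotient.mk (cvres_I hv)))
  refine ⟨OO hv ⧸ cvres_I hv, DivisionRing.ofIsUnitOrEqZero h1, Ideal.Quotient.mk (cvres_I hv),
    Ideal.Quotient.mk_surjective, fun a => ?_⟩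
  exact Ideal.Quotient.eq_zero_iff_mem.trans (cvres_mem hv a)

end Pool.Agent.PLB
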