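import Pool.Agent.Helper87.ML2.Gen
import Pool.Agent.PLB.CvP1
import Pool.Agent.PLB.CvP2
import Pool.Agent.PLB.CvRes
import Pool.Agent.PLB.CvBas

set_option autoImplicit false

/-! Theorem PB, the converse: `[N, π⁻¹ N]` is a projective plane.

`plane_ball`: `exists_res`, `icc_iso` (`n = 3`), `plane_sub` and `isPlane_congr` (Helper87/ML2/Gen.lean)
along `Set.Icc ⊥ ⊤ ≃o Submodule k _ ≃o Set.Icc (ball 1) (ball 0)`.
`plane_sg`: `exists_basis` gives `g` with `N` in the coordinates `0`; `sg N` has the coordinates `-1`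
(`sg_inco`).  With `g' = g.trans (rsc (fun _ => p) _)`, `v p = 1`: `N = cm hv g' (ball 1)`,
`sg N = cm hv g' (ball 0)` (`le_mul_right`), and `cmI hv g'` is an automorphism of the lattice of all
submodules, which restricts to `Set.Icc (ball 1) (ball 0) ≃o Set.Icc N (sg N)`. -/

namespace Pool.Agent.PLB

open Pool.Agent.Helper87.ML Pool.Agent.Helper87.ML2

universe u

variable {K : Type u} [DivisionRing K] {v : K → WithTop ℤ}

lemma plane_ball (hv : IsCDV K v) : IsPlane (ball hv 3 1) (ball hv 3 0) := by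
  obtain ⟨k, hk, r, hr, hr0⟩ := exists_res hv
  obtain ⟨e⟩ := icc_iso hv r hr hr0 3
  have f : Set.Icc (⊥ : Submodule k (Fin 3 → k)) ⊤ ≃o Set.Icc (ball hv 3 1) (ball hv 3 0) :=
    ((OrderIso.setCongr _ _ Set.Icc_bot_top).trans OrderIso.Set.univ).trans e.symm
  exact isPlane_congr bot_le f (plane_sub k)

theorem plane_sg {hv : IsCDV K v} {N : MM hv 3} (hN : IsLatt hv N) : IsPlane N (sg hv N) := by
  obtain ⟨g, hg⟩ := exists_basis hN
  obtain ⟨p, hp⟩ := hv.surj
  have hp1 : v p = ((1 : ℤ) : WithTop ℤ) := hp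
  have hp0 : ∀ _ : Fin 3, p ≠ 0 := fun _ => hv.ne_zero hp1
  obtain ⟨g', hg'⟩ : ∃ g' : (Fin 3 → K) ≃ₗ[K] (Fin 3 → K), ∀ x i, g' x i = g x i * p :=
    ⟨g.trans (rsc (fun _ => p) hp0), fun x i => rfl⟩
  have h1 : cm hv g' (ball hv 3 1) = N := by
    ext x
    rw [mem_cm, mem_ball, hg x]
    refine forall_congr' fun i => ?_
    rw [hg' x i, hv.le_mul_right hp1, sub_self]
  have h2 : cm hv g' (ball hv 3 0) = sg hv N := by
    ext x
    rw [mem_cm, mem_ball, sg_inco hv hg x]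
    refine forall_congr' fun i => ?_
    rw [hg' x i, hv.le_mul_right hp1]
  have h3 : IsPlane (cm hv g' (ball hv 3 1)) (cm hv g' (ball hv 3 0)) :=
    isPlane_congr (ball_anti hv zero_le_one)
      (iccMap (cmI hv g') (ball hv 3 1) (ball hv 3 0)) (plane_ball hv)
  rwa [h1, h2] at h3

end Pool.Agent.PLB
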