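import Pool.Agent.PLB.CvDual

set_option autoImplicit false

/-! Theorem PB, the converse: intervals between lattices are self-dual.

`exists_adapted`: `g, a`.  `q i` of value `- a i` (`IsCDV.exists_val`, nonzero by `IsCDV.ne_zero`).
`M ↦ pR M` and `M ↦ pL M` are inverse to each other on `[N, N']` (`IsLatt.of_le`, `pL_pR`, `pR_pL`),
reverse the order, and exchange `N` and `N'` (`pR_co`, `pL_co`, `inco_ext`: `N` has the coordinates
`a`, `N'` the coordinates `0 = a - a`). -/

namespace Pool.Agent.PLB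

universe u

variable {K : Type u} [DivisionRing K] {v : K → WithTop ℤ} {ψ : K → K}

private theorem CvSD_pR {hv : IsCDV K v} (hψ : IsAntiAut K v ψ) {n : ℕ}
    (g : (Fin n → K) ≃ₗ[K] (Fin n → K)) (q : Fin n → K) {M M' : MM hv n} (h : M ≤ M') :
    pR hv hψ g q M' ≤ pR hv hψ g q M := fun _ hy x hx => hy x (h hx)

private theorem CvSD_pL {hv : IsCDV K v} (ψ : K → K) {n : ℕ}
    (g : (Fin n → K) ≃ₗ[K] (Fin n → K)) (q : Fin n → K) {M M' : MM hv n} (h : M ≤ M') :
    pL hv ψ g q M' ≤ pL hv ψ g q M := fun _ hx y hy => hx y (h hy)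

theorem icc_sd {hv : IsCDV K v} (hψ : IsAntiAut K v ψ) {n : ℕ} {N N' : MM hv n}
    (hN : IsLatt hv N) (hN' : IsLatt hv N') (h : N ≤ N') :
    Nonempty (Set.Icc N N' ≃o (Set.Icc N N')ᵒᵈ) := by
  obtain ⟨g, a, hg', hg⟩ := exists_adapted hN hN' h
  choose q hq using fun i : Fin n => hv.exists_val (-(a i : ℤ))
  have hq0 : ∀ i, q i ≠ 0 := fun i => hv.ne_zero (hq i)
  have h0 : (fun i => (a i : ℤ) - (a i : ℤ)) = fun _ : Fin n => (0 : ℤ) := by
    funext i
    exact sub_self _
  have h0' : (fun i => (a i : ℤ) - (0 : ℤ)) = fun i : Fin n => (a i : ℤ) := by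
    funext i
    exact sub_zero _
  have hRN : pR hv hψ g q N = N' := by
    have h1 := pR_co (b := fun i => (a i : ℤ)) hψ g hq hg
    rw [h0] at h1
    exact inco_ext hv h1 hg'
  have hRN' : pR hv hψ g q N' = N := by
    have h1 := pR_co (b := fun i => (a i : ℤ)) hψ g hq hg'
    rw [h0'] at h1
    exact inco_ext hv h1 hg
  have hLN : pL hv ψ g q N = N' := by
    have h1 := pL_co (b := fun i => (a i : ℤ)) hψ g hq hg
    rw [h0] at h1
    exact inco_ext hv h1 hg'
  have hLN' : pL hv ψ g q N' = N := by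
    have h1 := pL_co (b := fun i => (a i : ℤ)) hψ g hq hg'
    rw [h0'] at h1
    exact inco_ext hv h1 hg
  have hl : ∀ M : Set.Icc N N', IsLatt hv M.1 := fun M => hN.of_le hN' M.2.1 M.2.2
  refine ⟨{ toFun := fun M => OrderDual.toDual ⟨pR hv hψ g q M.1, ?_, ?_⟩
            invFun := fun M => ⟨pL hv ψ g q (OrderDual.ofDual M).1, ?_, ?_⟩
            left_inv := ?_
            right_inv := ?_
            map_rel_iff' := ?_ }⟩
  · exact hRN'.symm.le.trans (CvSD_pR hψ g q M.2.2)
  · exact (CvSD_pR hψ g q M.2.1).trans hRN.le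
  · exact hLN'.symm.le.trans (CvSD_pL ψ g q (OrderDual.ofDual M).2.2)
  · exact (CvSD_pL ψ g q (OrderDual.ofDual M).2.1).trans hLN.le
  · intro M
    exact Subtype.ext (pL_pR hψ g hq0 (hl M))
  · intro M
    exact congrArg OrderDual.toDual (Subtype.ext (pR_pL hψ g hq0 (hl (OrderDual.ofDual M))))
  · intro M M'
    constructor
    · intro h1
      have h2 : pR hv hψ g q M'.1 ≤ pR hv hψ g q M.1 := h1
      have h3 := CvSD_pL ψ g q h2
      rw [pL_pR hψ g hq0 (hl M), pL_pR hψ g hq0 (hl M')] at h3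
      exact h3
    · intro h1
      exact CvSD_pR hψ g q h1

end Pool.Agent.PLB
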