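import Pool.Agent.PLB.CvBas

set_option autoImplicit false

/-! Theorem PB, the converse: covers of `N` are below `π⁻¹ N`. In adapted coordinates `N'` is given
by `0`, `N` by `a i ≥ 0`; if some `a j ≥ 1` then `N` is given by `1` at `j` and `0` elsewhere. -/

namespace Pool.Agent.PLB

universe u

variable {K : Type u} [DivisionRing K] {v : K → WithTop ℤ}

/-- the vectors with coordinates of value at least `b i` -/
private def cvup_box (hv : IsCDV K v) {n : ℕ} (b : Fin n → ℤ) : MM hv n where
  carrier := {x | ∀ i, (b i : WithTop ℤ) ≤ v (x i)}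
  add_mem' := by
    intro x y hx hy i
    exact (le_min (hx i) (hy i)).trans (hv.add _ _)
  zero_mem' := by
    intro i
    show (b i : WithTop ℤ) ≤ v 0
    rw [hv.zero]
    exact le_top
  smul_mem' := by
    intro a x hx i
    rw [OO_smul, hv.mul]
    have h1 : (0 : WithTop ℤ) ≤ v (a : K) := a.2
    calc (b i : WithTop ℤ) = 0 + b i := (zero_add _).symm
      _ ≤ v (a : K) + v (x i) := add_le_add h1 (hx i)

theorem cov_le_sg {hv : IsCDV K v} {n : ℕ} {N N' : MM hv n} (hN : IsLatt hv N)
    (hN' : IsLatt hv N') (h : N ≤ N') (hc : ∀ M, N ≤ M → M ≤ N' → M = N ∨ M = N') :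
    N' ≤ sg hv N := by
  obtain ⟨g, a, h0, ha⟩ := exists_adapted hN hN' h
  by_cases hall : ∀ i, a i = 0
  · have h1 : InCo hv g (fun _ => 0) N := by
      intro x
      rw [ha x]
      refine forall_congr' fun i => ?_
      show (((a i : ℕ) : ℤ) : WithTop ℤ) ≤ v (g x i) ↔ ((0 : ℤ) : WithTop ℤ) ≤ v (g x i)
      rw [hall i]
      rfl
    rw [inco_ext hv h0 h1]
    exact le_sg hv N
  · obtain ⟨j, hj⟩ := not_forall.1 hall
    obtain ⟨b, hb⟩ : ∃ b : Fin n → ℤ, b = fun i => if i = j then 1 else 0 := ⟨_, rfl⟩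
    have hbj : b j = 1 := by rw [hb]; exact if_pos rfl
    have hb0 : ∀ i, 0 ≤ b i := by
      intro i
      rw [hb]
      show (0 : ℤ) ≤ if i = j then 1 else 0
      split_ifs <;> norm_num
    have hb1 : ∀ i, b i ≤ 1 := by
      intro i
      rw [hb]
      show (if i = j then (1 : ℤ) else 0) ≤ 1
      split_ifs <;> norm_num
    have hba : ∀ i, b i ≤ a i := by
      intro i
      by_cases hij : i = j
      · rw [hij, hbj]
        have : 1 ≤ a j := Nat.one_le_iff_ne_zero.2 hj
        exact_mod_cast this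
      · rw [hb]
        show (if i = j then (1 : ℤ) else 0) ≤ a i
        rw [if_neg hij]
        exact Int.natCast_nonneg _
    obtain ⟨M, hM⟩ : ∃ M, M = cm hv g (cvup_box hv b) := ⟨_, rfl⟩
    have hMm : ∀ x, x ∈ M ↔ ∀ i, (b i : WithTop ℤ) ≤ v (g x i) := by
      intro x
      rw [hM]
      exact Iff.rfl
    have h1 : N ≤ M := by
      intro x hx
      rw [hMm]
      intro i
      have h2 := (ha x).1 hx i
      exact (WithTop.coe_le_coe.2 (hba i)).trans h2
    have h2 : M ≤ N' := by
      intro x hx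
      rw [h0 x]
      intro i
      exact (WithTop.coe_le_coe.2 (hb0 i)).trans ((hMm x).1 hx i)
    have h3 : M ≠ N' := by
      intro he
      have h4 : g.symm (Pi.single j 1) ∈ N' := by
        rw [h0]
        intro i
        rw [g.apply_symm_apply]
        by_cases hij : i = j
        · rw [hij, Pi.single_eq_same, hv.one]
          exact le_rfl
        · rw [Pi.single_eq_of_ne hij, hv.zero]
          exact le_top
      rw [← he, hMm] at h4
      have h5 := h4 j
      rw [g.apply_symm_apply, Pi.single_eq_same, hv.one, hbj] at h5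
      have h6 : (1 : ℤ) ≤ 0 := WithTop.coe_le_coe.1 h5
      omega
    have h4 : M = N := (hc M h1 h2).resolve_right h3
    obtain ⟨p, hp⟩ := hv.surj
    intro x hx
    rw [mem_sg_iff hv hp, ← h4, hMm]
    intro i
    have h5 : g (fun i => p * x i) = p • g x := by
      rw [← map_smul]
      rfl
    have h6 : g (fun i => p * x i) i = p * g x i := by
      rw [h5]
      rfl
    have h7 : (0 : WithTop ℤ) ≤ v (g x i) := (h0 x).1 hx i
    rw [h6, hv.mul, hp]
    calc (b i : WithTop ℤ) ≤ ((1 : ℤ) : WithTop ℤ) := WithTop.coe_le_coe.2 (hb1 i)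
      _ = 1 + 0 := (add_zero _).symm
      _ ≤ 1 + v (g x i) := add_le_add le_rfl h7

end Pool.Agent.PLB
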