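import Mathlib

set_option autoImplicit false

/-! Theorem PB: the model lattices. -/

namespace Pool.Agent.PLB

/-- `v` is a complete discrete valuation of the division ring `K` with finite residue ring -/
structure IsCDV (K : Type*) [DivisionRing K] (v : K → WithTop ℤ) : Prop where
  top : ∀ a, v a = ⊤ ↔ a = 0
  mul : ∀ a b, v (a * b) = v a + v b
  add : ∀ a b, min (v a) (v b) ≤ v (a + b)
  surj : ∃ a, v a = 1
  fin : ∃ T : Finset K, ∀ a, 0 ≤ v a → ∃ t ∈ T, 1 ≤ v (a - t)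
  complete : ∀ a : ℕ → K, (∀ n : ℕ, ((n : ℤ) : WithTop ℤ) ≤ v (a (n + 1) - a n)) →
    ∃ b, ∀ n : ℕ, ((n : ℤ) : WithTop ℤ) ≤ v (b - a n)

/-- an anti-automorphism of the division ring which preserves the valuation -/
structure IsAntiAut (K : Type*) [DivisionRing K] (v : K → WithTop ℤ) (ψ : K → K) : Prop where
  bij : Function.Bijective ψ
  add : ∀ a b, ψ (a + b) = ψ a + ψ b
  mul : ∀ a b, ψ (a * b) = ψ b * ψ a
  val : ∀ a, v (ψ a) = v a

/-- The `O`-submodules `N` of `K ^ 3` (`O = {v ≥ 0}`, acting from the left) with `O ^ 3 ⊆ N` and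
`N / O ^ 3` finite (i.e. all coordinates of elements of `N` have value at least `-n`, for some
`n`), ordered by inclusion. -/
def Lat (K : Type*) [DivisionRing K] (v : K → WithTop ℤ) : Type _ :=
  {N : AddSubgroup (Fin 3 → K) // (∀ u ∈ N, ∀ a, 0 ≤ v a → (fun i => a * u i) ∈ N) ∧
    (∀ u : Fin 3 → K, (∀ i, 0 ≤ v (u i)) → u ∈ N) ∧
    ∃ n : ℕ, ∀ u ∈ N, ∀ i, ((-(n : ℤ) : ℤ) : WithTop ℤ) ≤ v (u i)}

instance (K : Type*) [DivisionRing K] (v : K → WithTop ℤ) : PartialOrder (Lat K v) :=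
  inferInstanceAs (PartialOrder {N : AddSubgroup (Fin 3 → K) // _})

end Pool.Agent.PLB
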