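import Pool.Agent.Helper87.ML2.Gen
import Pool.Agent.PLB.Model
import Pool.Agent.RIG.TR
import Pool.Agent.PLB.CvSD
import Pool.Agent.PLB.CvFin
import Pool.Agent.PLB.CvP3
import Pool.Agent.PLB.CvUp
import Pool.Agent.PLB.CvGen
import Pool.Agent.PLB.CvEmb

set_option autoImplicit false

/-! Theorem PB, section 6: the converse. -/

namespace Pool.Agent.PLB

open Pool.Agent.Helper87.ML Pool.Agent.Helper87.ML2 Pool.Agent.RIG

universe u

/-- a poset isomorphic to `Lat K v` satisfies all the hypotheses of Theorem PB -/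
theorem converse {L : Type u} [Lattice L] {K : Type u} [DivisionRing K] {v : K → WithTop ℤ}
    (hv : IsCDV K v) {ψ : K → K} (hψ : IsAntiAut K v ψ) (e : L ≃o Lat K v) :
    IsModularLattice L ∧ (∀ x : L, (Set.Iic x).Finite) ∧ Nonempty L ∧
      (∃ s : L → L, IsUp s ∧ ∀ x, IsPlane x (s x)) ∧ SD' L := by
  obtain ⟨f0, hf0⟩ := exists_emb hv
  set f : L ↪o MM hv 3 := e.toOrderEmbedding.trans f0 with hf
  set R : MM hv 3 → Prop := fun N => ball hv 3 0 ≤ N ∧ IsLatt hv N with hRdef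
  have hR : ∀ y, (∃ x, f x = y) ↔ R y := by
    intro y
    refine Iff.trans ?_ (hf0 y)
    constructor
    · rintro ⟨x, hx⟩
      exact ⟨e x, hx⟩
    · rintro ⟨x, hx⟩
      refine ⟨e.symm x, ?_⟩
      show f0 (e (e.symm x)) = y
      rw [e.apply_symm_apply]
      exact hx
  have hfR : ∀ x, R (f x) := fun x => (hR _).1 ⟨x, rfl⟩
  have hsup : ∀ a b, R a → R b → R (a ⊔ b) := fun a b ha hb =>
    ⟨ha.1.trans le_sup_left, ha.2.sup hb.2⟩
  have hinf : ∀ a b, R a → R b → R (a ⊓ b) := fun a b ha hb =>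
    ⟨le_inf ha.1 hb.1, ha.2.inf hb.2⟩
  have hconv : ∀ a b c, R a → R c → a ≤ b → b ≤ c → R b := fun a b c ha hc hab hbc =>
    ⟨ha.1.trans hab, ha.2.of_le hc.2 hab hbc⟩
  have hbot : R (ball hv 3 0) := ⟨le_rfl, isLatt_ball hv 3 0⟩
  obtain ⟨o, ho⟩ := (hR _).2 hbot
  have ho' : ∀ x : L, o ≤ x := by
    intro x
    rw [← f.le_iff_le, ho]
    exact (hfR x).1
  refine ⟨emb_mod f R hR hsup hinf, ?_, ⟨o⟩, ?_, ?_⟩
  · intro x
    obtain ⟨φ⟩ := emb_icc f R hR hconv o x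
    have h1 : (Set.Icc (f o) (f x)).Finite := icc_fin (hfR o).2 (hfR x).2
    have h2 : Finite (Set.Icc (f o) (f x)) := h1
    have h3 : Finite (Set.Icc o x) := Finite.of_equiv _ φ.symm.toEquiv
    have h4 : (Set.Icc o x).Finite := h3
    refine h4.subset fun y hy => ⟨ho' y, hy⟩
  · have hs : ∀ x : L, ∃ y : L, f y = sg hv (f x) := fun x =>
      (hR _).2 ⟨(hfR x).1.trans (le_sg hv _), (hfR x).2.sg⟩
    choose s hs using hs
    have h1 : ∀ x, IsPlane x (s x) := by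
      intro x
      obtain ⟨φ⟩ := emb_icc f R hR hconv x (s x)
      have h2 : IsPlane (f x) (f (s x)) := by
        rw [hs]
        exact plane_sg (hfR x).2
      have h3 : f x ≤ f (s x) := by
        rw [hs]
        exact le_sg hv _
      exact isPlane_congr h3 φ.symm h2
    refine ⟨s, up_of_plane h1 ?_, h1⟩
    intro x y hxy
    rw [← f.le_iff_le, hs]
    refine cov_le_sg (hfR x).2 (hfR y).2 (f.le_iff_le.2 hxy.le) ?_
    intro M h2 h3
    obtain ⟨z, hz⟩ := (hR M).2 (hconv _ _ _ (hfR x) (hfR y) h2 h3)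
    rw [← hz] at h2 h3 ⊢
    rw [f.le_iff_le] at h2 h3
    rcases hxy.eq_or_eq h2 h3 with h4 | h4
    · left
      rw [h4]
    · right
      rw [h4]
  · intro x y hxy
    obtain ⟨φ⟩ := emb_icc f R hR hconv x y
    obtain ⟨δ⟩ := icc_sd hψ (hfR x).2 (hfR y).2 (f.le_iff_le.2 hxy)
    exact ⟨φ.trans (δ.trans φ.symm.dual)⟩

end Pool.Agent.PLB
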