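import Pool.Agent.PLB.Defs

set_option autoImplicit false

/-! Theorem PB, section 2: compactness (Koenig's lemma) for automorphisms of `X`.

The isomorphisms of the intervals `[x, s^j x]` have a limit along an ultrafilter (the intervals are finite); the limit is an
isomorphism of the elements above `x`, commutes with `s`, and is extended to `X` by conjugation with the powers of `s`. -/

namespace Pool.Agent.PLB

open Pool.Agent.Helper87.ML Pool.Agent.RIG OrderDual

universe u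

variable {X : Type u} [Lattice X] [IsModularLattice X] {s : X ≃o X} [PB X s]

omit [IsModularLattice X] [PB X s] in
private theorem CptA_lim (hF : LF X) (s : X ≃o X) (a c : X) (F : ℕ → X → X) (U : Ultrafilter ℕ)
    (h : ∀ y, a ≤ y → ∃ k, ∀ᶠ j in (U : Filter ℕ), c ≤ F j y ∧ F j y ≤ s^[k] c) :
    ∃ G : X → X, ∀ y, a ≤ y → c ≤ G y ∧ ∀ᶠ j in (U : Filter ℕ), F j y = G y := by
  have h1 : ∀ y, ∃ v, a ≤ y → c ≤ v ∧ ∀ᶠ j in (U : Filter ℕ), F j y = v := by
    intro y
    by_cases hy : a ≤ y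
    · obtain ⟨k, hk⟩ := h y hy
      have h2 : ∀ᶠ j in (U : Filter ℕ), ∃ v ∈ Set.Icc c (s^[k] c), F j y = v :=
        hk.mono fun j hj => ⟨F j y, hj, rfl⟩
      rw [Ultrafilter.eventually_exists_mem_iff (hF c (s^[k] c))] at h2
      obtain ⟨v, hv, h3⟩ := h2
      exact ⟨v, fun _ => ⟨hv.1, h3⟩⟩
    · exact ⟨y, fun h => absurd h hy⟩
  choose G hG using h1
  exact ⟨G, hG⟩

omit [IsModularLattice X] in
private theorem CptA_it (s : X ≃o X) [PB X s] {x y : X} {k l : ℕ} (h : x ≤ s^[k] y) (hkl : k ≤ l) : x ≤ s^[l] y :=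
  h.trans (it_le_it (PB.up (s := s)) hkl y)

omit [IsModularLattice X] in
private theorem CptA_bd (s : X ≃o X) [PB X s] {x x' y : X} {j k : ℕ} (φ : IIso x (s^[j] x) x' (s^[j] x'))
    (hk : k ≤ j) (h1 : x ≤ y) (h2 : y ≤ s^[k] x) : x' ≤ φ.f y ∧ φ.f y ≤ s^[k] x' := by
  have hs : IsUp (s : X → X) := PB.up (s := s)
  have h3 : s^[k] x ≤ s^[j] x := it_le_it hs hk x
  have h4 : s^[k] x' ≤ s^[j] x' := it_le_it hs hk x'
  have h5 : φ.f (s^[k] x) = s^[k] x' := iso_it hs φ k h3 h4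
  refine ⟨(φ.fm y h1 (h2.trans h3)).1, ?_⟩
  rw [← h5]
  exact (φ.le y _ h1 (h2.trans h3) (le_it hs k x) h3).2 h2

omit [IsModularLattice X] in
private theorem CptA_itle (s : X ≃o X) (k : ℕ) (x y : X) : s^[k] x ≤ s^[k] y ↔ x ≤ y := by
  induction k with
  | zero => exact Iff.rfl
  | succ k ih =>
    rw [Function.iterate_succ_apply', Function.iterate_succ_apply', s.le_iff_le]
    exact ih

omit [IsModularLattice X] in
private theorem CptA_inv (s : X ≃o X) (k : ℕ) (x : X) : s^[k] (s.symm^[k] x) = x :=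
  Function.RightInverse.iterate (f := s) (g := s.symm) s.apply_symm_apply k x

omit [IsModularLattice X] in
private theorem CptA_ext (s : X ≃o X) [PB X s] (x : X) (G : X → X) (hc : ∀ y, x ≤ y → G (s y) = s (G y)) :
    ∃ g : X → X, ∀ y k, x ≤ s^[k] y → s^[k] (g y) = G (s^[k] y) := by
  have hs : IsUp (s : X → X) := PB.up (s := s)
  have hc' : ∀ (m : ℕ) (y : X), x ≤ y → G (s^[m] y) = s^[m] (G y) := by
    intro m
    induction m with
    | zero => exact fun y _ => rfl
    | succ m ih =>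
      intro y hy
      rw [Function.iterate_succ_apply', Function.iterate_succ_apply', hc _ (hy.trans (le_it hs m y)), ih y hy]
  have h1 : ∀ y, ∃ z, ∀ k, x ≤ s^[k] y → s^[k] z = G (s^[k] y) := by
    intro y
    obtain ⟨k0, hk0⟩ := PB.dir (s := s) x y
    obtain ⟨z, h2⟩ : ∃ z, s^[k0] z = G (s^[k0] y) := ⟨s.symm^[k0] (G (s^[k0] y)), CptA_inv s k0 _⟩
    refine ⟨z, fun k hk => ?_⟩
    rcases le_total k0 k with h | h
    · obtain ⟨m, rfl⟩ := Nat.exists_eq_add_of_le' h
      rw [Function.iterate_add_apply, h2, Function.iterate_add_apply, hc' m _ hk0]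
    · obtain ⟨m, rfl⟩ := Nat.exists_eq_add_of_le' h
      rw [Function.iterate_add_apply, Function.iterate_add_apply, hc' m _ hk] at h2
      exact s.injective.iterate m h2
  choose g hg using h1
  exact ⟨g, hg⟩

theorem compact (s : X ≃o X) [PB X s] (x x' : X) (R : ℕ → (X → X) → Prop)
    (hne : ∀ j, ∃ φ : IIso x (s^[j] x) x' (s^[j] x'), R j φ.f)
    (hres : ∀ j f, R (j + 1) f → R j f)
    (hext : ∀ j f f', (∀ y, x ≤ y → y ≤ s^[j] x → f y = f' y) → R j f → R j f') :
    ∃ g : X ≃o X, g x = x' ∧ ∀ j, R j g := by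
  have hs : IsUp (s : X → X) := PB.up (s := s)
  have hF : LF X := PB.fin (s := s)
  choose φ hφ using hne
  have hge : ∀ k, ∀ᶠ j in (Filter.hyperfilter ℕ : Filter ℕ), k ≤ j := fun k =>
    Filter.hyperfilter_le_cofinite (Nat.cofinite_eq_atTop ▸ Filter.eventually_ge_atTop k)
  generalize hU : (Filter.hyperfilter ℕ : Ultrafilter ℕ) = U at hge
  have hRle : ∀ (f : X → X) (i j : ℕ), i ≤ j → R j f → R i f := by
    intro f i j hij
    obtain ⟨m, rfl⟩ := Nat.exists_eq_add_of_le hij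
    clear hij
    induction m with
    | zero => exact id
    | succ m ih => exact fun h => ih (hres (i + m) f h)
  -- the limits
  obtain ⟨G, hG⟩ := CptA_lim hF s x x' (fun j => (φ j).f) U (fun y hy => by
    obtain ⟨k, hk⟩ := PB.dir (s := s) y x
    exact ⟨k, (hge k).mono fun j hj => CptA_bd s (φ j) hj hy hk⟩)
  obtain ⟨G', hG'⟩ := CptA_lim hF s x' x (fun j => (φ j).g) U (fun y hy => by
    obtain ⟨k, hk⟩ := PB.dir (s := s) y x'
    exact ⟨k, (hge k).mono fun j hj => CptA_bd s (φ j).symm hj hy hk⟩)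
  have hev : ∀ y, x ≤ y → ∀ᶠ j in (U : Filter ℕ), y ≤ s^[j] x := by
    intro y _
    obtain ⟨k, hk⟩ := PB.dir (s := s) y x
    exact (hge k).mono fun j hj => CptA_it s hk hj
  have hev' : ∀ y, x' ≤ y → ∀ᶠ j in (U : Filter ℕ), y ≤ s^[j] x' := by
    intro y _
    obtain ⟨k, hk⟩ := PB.dir (s := s) y x'
    exact (hge k).mono fun j hj => CptA_it s hk hj
  have hGle : ∀ y w, x ≤ y → x ≤ w → (G y ≤ G w ↔ y ≤ w) := by
    intro y w hy hw
    obtain ⟨j, h1, h2, h3, h4⟩ :=
      (((hG y hy).2.and ((hG w hw).2.and ((hev y hy).and (hev w hw))))).exists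
    rw [← h1, ← h2]
    exact (φ j).le y w hy h3 hw h4
  have hGG' : ∀ z, x' ≤ z → G (G' z) = z := by
    intro z hz
    obtain ⟨h0, h1⟩ := hG' z hz
    obtain ⟨j, h2, h3, h4⟩ := ((h1.and ((hG _ h0).2.and (hev' z hz)))).exists
    rw [← h3, ← h2]
    exact (φ j).fg z hz h4
  have hG'G : ∀ y, x ≤ y → G' (G y) = y := by
    intro y hy
    obtain ⟨h0, h1⟩ := hG y hy
    obtain ⟨j, h2, h3, h4⟩ := ((h1.and ((hG' _ h0).2.and (hev y hy)))).exists
    rw [← h3, ← h2]
    exact (φ j).gf y hy h4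
  have hGx : G x = x' := by
    obtain ⟨j, h2⟩ := (hG x le_rfl).2.exists
    rw [← h2]
    exact (φ j).bot (le_it hs j x) (le_it hs j x')
  -- they commute with the shift
  have hcs : ∀ (j k : ℕ) (y : X), k + 1 ≤ j → x ≤ y → y ≤ s^[k] x → (φ j).f (s y) = s ((φ j).f y) := by
    intro j k y hj hy hk
    have h1 : y ≤ s^[j] x := CptA_it s hk (by omega)
    have h2 := CptA_bd s (φ j) (by omega : k ≤ j) hy hk
    have h3 : s y ≤ s^[j] x := by
      have h4 : s y ≤ s^[k + 1] x := by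
        rw [Function.iterate_succ_apply', s.le_iff_le]
        exact hk
      exact CptA_it s h4 hj
    have h4 : s ((φ j).f y) ≤ s^[j] x' := by
      have h5 : s ((φ j).f y) ≤ s^[k + 1] x' := by
        rw [Function.iterate_succ_apply', s.le_iff_le]
        exact h2.2
      exact CptA_it s h5 hj
    have h5 : (φ j).f (s^[j] x) = s^[j] x' := (φ j).top (le_it hs j x) (le_it hs j x')
    have h6 := iso_s hs ((φ j).restr hy h1 le_rfl) h3 (by rw [h5]; exact h4)
    exact h6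
  have hGs : ∀ y, x ≤ y → G (s y) = s (G y) := by
    intro y hy
    obtain ⟨k, hk⟩ := PB.dir (s := s) y x
    have hsy : x ≤ s y := hy.trans (le_s hs y)
    obtain ⟨j, h1, h2, h3⟩ := ((hG y hy).2.and ((hG (s y) hsy).2.and (hge (k + 1)))).exists
    rw [← h1, ← h2]
    exact hcs j k y h3 hy hk
  have hGs' : ∀ z, x' ≤ z → G' (s z) = s (G' z) := by
    intro z hz
    obtain ⟨h0, -⟩ := hG' z hz
    have h1 : G (s (G' z)) = s z := by rw [hGs _ h0, hGG' z hz]
    rw [← h1, hG'G _ (h0.trans (le_s hs _))]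
  obtain ⟨g, hg⟩ := CptA_ext s x G hGs
  obtain ⟨g', hg'⟩ := CptA_ext s x' G' hGs'
  have hinj : ∀ (k : ℕ) (a b : X), s^[k] a = s^[k] b → a = b := fun k a b h => s.injective.iterate k h
  have e1 : ∀ y, g' (g y) = y := by
    intro y
    obtain ⟨k, hk⟩ := PB.dir (s := s) x y
    have h1 := hg y k hk
    have h2 : x' ≤ s^[k] (g y) := by
      rw [h1]
      exact (hG _ hk).1
    have h3 := hg' (g y) k h2
    rw [h1, hG'G _ hk] at h3
    exact hinj k _ _ h3
  have e2 : ∀ z, g (g' z) = z := by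
    intro z
    obtain ⟨k, hk⟩ := PB.dir (s := s) x' z
    have h1 := hg' z k hk
    have h2 : x ≤ s^[k] (g' z) := by
      rw [h1]
      exact (hG' _ hk).1
    have h3 := hg (g' z) k h2
    rw [h1, hGG' _ hk] at h3
    exact hinj k _ _ h3
  have hgG : ∀ y, x ≤ y → g y = G y := fun y hy => hg y 0 hy
  have e3 : ∀ y w, g y ≤ g w ↔ y ≤ w := by
    intro y w
    obtain ⟨k, hk⟩ := PB.dir (s := s) x y
    obtain ⟨l, hl⟩ := PB.dir (s := s) x w
    have hk' := CptA_it s hk (le_max_left k l)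
    have hl' := CptA_it s hl (le_max_right k l)
    rw [← CptA_itle s (max k l) (g y) (g w), hg y _ hk', hg w _ hl', hGle _ _ hk' hl', CptA_itle]
  refine ⟨⟨⟨g, g', e1, e2⟩, fun {y w} => e3 y w⟩, (hgG x le_rfl).trans hGx, fun j => ?_⟩
  have h1 : ∀ᶠ i in (U : Filter ℕ), ∀ y ∈ Set.Icc x (s^[j] x), (φ i).f y = G y :=
    (Filter.eventually_all_finite (hF x (s^[j] x))).2 fun y hy => (hG y hy.1).2
  obtain ⟨i, h2, h3⟩ := (h1.and (hge j)).exists
  refine hext j (φ i).f g (fun y hy hy' => ?_) (hRle _ j i h3 (hφ i))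
  rw [hgG y hy]
  exact h2 y ⟨hy, hy'⟩

end Pool.Agent.PLB
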