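import Pool.Agent.PLB.VlB
import Pool.Agent.PLB.Alg
import Pool.Agent.PLB.AltC

set_option autoImplicit false

/-! Theorem PB, section 4: the coordinate division ring with its valuation. The ring comes from
`exists_ring` for three root groups, the valuation from the sets of fixed elements. -/

namespace Pool.Agent.PLB

open Pool.Agent.Helper87.ML Pool.Agent.RIG OrderDual
open scoped commutatorElement

universe u

variable {X : Type u} [Lattice X] [IsModularLattice X] {s : X ≃o X} [PB X s]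

omit [IsModularLattice X] [PB X s] in
private theorem crd_iff {o : X} {p : Pt s} {l : Ln s} {m : ℤ} {t : Gp X} (h : Fx o p l m t)
    (h' : ¬ Fx o p l (m + 1) t) (n : ℤ) : Fx o p l n t ↔ n ≤ m := by
  constructor
  · intro k
    by_contra hc
    exact h' (fx_anti (by linarith [Int.add_one_le_of_lt (not_le.1 hc)]) k)
  · intro k
    exact fx_anti k h

theorem exists_acrd {o : X} {F : Frame (Inc (s := s))} (hF : FarF o F) :
    ∃ (K : Type u) (_ : NonAssocRing K) (_ : IsAltDiv K) (V : ℤ → AddSubgroup K)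
      (xa xb xc : K → Gp X), Vl K V ∧
      RD (U (Gp X) F 0 1) (U (Gp X) F 1 2) (U (Gp X) F 0 2) K xa xb xc ∧
      (∀ n a, a ∈ V n ↔ Fx o (F.e 0) (F.l 1) n (xa a)) ∧
      (∀ n a, a ∈ V n ↔ Fx o (F.e 1) (F.l 2) n (xb a)) ∧
      (∀ n a, a ∈ V n ↔ Fx o (F.e 0) (F.l 2) n (xc a)) := by
  classical
  have : Nonempty X := ⟨o⟩
  have hM : MP (Gp X) (Inc (s := s)) := mp s
  have h01 : (0 : Fin 3) ≠ 1 := by decide
  have h12 : (1 : Fin 3) ≠ 2 := by decide
  have h02 : (0 : Fin 3) ≠ 2 := by decide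
  have i01 : Inc (F.e 0) (F.l 1) := (F.inc 0 1).2 h01
  have i12 : Inc (F.e 1) (F.l 2) := (F.inc 1 2).2 h12
  have i02 : Inc (F.e 0) (F.l 2) := (F.inc 0 2).2 h02
  obtain ⟨x₁, hx₁, vx, vx'⟩ := fx_val o i01 0
  obtain ⟨b₁, hb₁, vb, vb'⟩ := fx_val o i12 0
  have hx : x₁ ≠ 1 := by
    intro h
    apply vx'
    rw [h]
    exact fx_one _ _ _ _
  have hb : b₁ ≠ 1 := by
    intro h
    apply vb'
    rw [h]
    exact fx_one _ _ _ _
  obtain ⟨K, i, hAD, xa, xb, xc, rd, ha1, hb1⟩ : ∃ (K : Type u) (i : NonAssocRing K)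
      (_ : IsAltDiv K) (xa xb xc : K → Gp X),
      RD (U (Gp X) F 0 1) (U (Gp X) F 1 2) (U (Gp X) F 0 2) K xa xb xc ∧ xa 1 = x₁ ∧
        xb 1 = b₁ := ⟨Additive (U (Gp X) F 0 2), exists_ring (U (Gp X) F 0 1) (U (Gp X) F 1 2)
    (U (Gp X) F 0 2)
    (fun a ha b hb => u_comm hM F h01 h12 h02 ha hb)
    (fun x hx b hb => comm_mem hM F h01 h12 h02 hx hb)
    (fun x hx x' hx' b hb => comm_mul_l hM F h01 h12 h02 hx hx' hb)
    (fun x hx b hb b' hb' => comm_mul_r hM F h01 h12 h02 hx hb hb')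
    (fun b hb hb1 a ha => comm_bij_l hM F h01 h12 h02 hb hb1 ha)
    (fun x hx hx1 a ha => comm_bij_r hM F h01 h12 h02 hx hx1 ha)
    (fun x hx x₁ hx₁ h1 => closure_l hM F h01 h12 h02 hx hx₁ h1)
    (fun b hb b₁ hb₁ h1 => closure_r hM F h01 h12 h02 hb hb₁ h1) hx₁ hx hb₁ hb⟩
  have a0 : xa 0 = 1 := by
    have h := rd.a_add 0 0
    rw [add_zero] at h
    exact mul_eq_left.1 h.symm
  have b0 : xb 0 = 1 := by
    have h := rd.b_add 0 0
    rw [add_zero] at h
    exact mul_eq_left.1 h.symm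
  have c0 : xc 0 = 1 := by
    have h := rd.c_add 0 0
    rw [add_zero] at h
    exact mul_eq_left.1 h.symm
  have cneg : ∀ a, xc (-a) = (xc a)⁻¹ := by
    intro a
    have h := rd.c_add (-a) a
    rw [neg_add_cancel, c0] at h
    exact eq_inv_of_mul_eq_one_left h.symm
  have csub : ∀ a b, xc (a - b) = xc a * (xc b)⁻¹ := by
    intro a b
    rw [sub_eq_add_neg, rd.c_add, cneg]
  let V : ℤ → AddSubgroup K := fun n =>
    { carrier := {a | Fx o (F.e 0) (F.l 2) n (xc a)}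
      add_mem' := by
        intro a b ha hb
        show Fx o (F.e 0) (F.l 2) n (xc (a + b))
        rw [rd.c_add]
        exact fx_mul ha hb
      zero_mem' := by
        show Fx o (F.e 0) (F.l 2) n (xc 0)
        rw [c0]
        exact fx_one _ _ _ _
      neg_mem' := by
        intro a ha
        show Fx o (F.e 0) (F.l 2) n (xc (-a))
        rw [cneg]
        exact fx_inv ha }
  have vc : ∀ n a, a ∈ V n ↔ Fx o (F.e 0) (F.l 2) n (xc a) := fun n a => Iff.rfl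
  have va : ∀ n a, a ∈ V n ↔ Fx o (F.e 0) (F.l 1) n (xa a) := by
    intro n a
    rw [vc]
    by_cases h0 : a = 0
    · rw [h0, a0, c0]
      exact ⟨fun _ => fx_one _ _ _ _, fun _ => fx_one _ _ _ _⟩
    · have h1 : xa a ≠ 1 := fun h => h0 (rd.a_inj a h)
      obtain ⟨m, hm, hm'⟩ := fx_ex o i01 (rd.a_mem a) h1
      have h2 := fx_comm hF h01 h12 h02 (rd.a_mem a) hb₁ hm vb
      have h3 := fx_comm' hF h01 h12 h02 (rd.a_mem a) hb₁ hm hm' vb vb'
      rw [← hb1, rd.comm, mul_one, add_zero] at h2 h3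
      rw [crd_iff h2 h3, crd_iff hm hm']
  have vbb : ∀ n a, a ∈ V n ↔ Fx o (F.e 1) (F.l 2) n (xb a) := by
    intro n a
    rw [vc]
    by_cases h0 : a = 0
    · rw [h0, b0, c0]
      exact ⟨fun _ => fx_one _ _ _ _, fun _ => fx_one _ _ _ _⟩
    · have h1 : xb a ≠ 1 := fun h => h0 (rd.b_inj a h)
      obtain ⟨m, hm, hm'⟩ := fx_ex o i12 (rd.b_mem a) h1
      have h2 := fx_comm hF h01 h12 h02 hx₁ (rd.b_mem a) vx hm
      have h3 := fx_comm' hF h01 h12 h02 hx₁ (rd.b_mem a) vx vx' hm hm'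
      rw [← ha1, rd.comm, one_mul, zero_add] at h2 h3
      rw [crd_iff h2 h3, crd_iff hm hm']
  refine ⟨K, i, hAD, V, xa, xb, xc, ?_, rd, va, vbb, vc⟩
  refine ⟨?_, ?_, ?_, ?_, ?_, ?_, ?_, ?_⟩
  · intro n a ha
    rw [vc] at ha ⊢
    exact fx_anti (by linarith) ha
  · intro m n a b ha hb
    rw [va] at ha
    rw [vbb] at hb
    rw [vc, ← rd.comm]
    exact fx_comm hF h01 h12 h02 (rd.a_mem a) (rd.b_mem b) ha hb
  · intro m n a b ha ha' hb hb'
    rw [va] at ha ha'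
    rw [vbb] at hb hb'
    rw [vc, ← rd.comm]
    exact fx_comm' hF h01 h12 h02 (rd.a_mem a) (rd.b_mem b) ha ha' hb hb'
  · rw [va, ha1]
    exact vx
  · rw [va, ha1]
    rw [zero_add] at vx'
    exact vx'
  · intro a ha
    have h1 : xc a ≠ 1 := fun h => ha (rd.c_inj a h)
    exact fx_ex o i02 (rd.c_mem a) h1
  · obtain ⟨t, ht, h1, h2⟩ := fx_val o i02 1
    obtain ⟨a, rfl⟩ := rd.c_surj t ht
    exact ⟨a, h1, h2⟩
  · obtain ⟨T, hT⟩ := fx_fin o i02
    have hch : ∀ t : Gp X, ∃ a, t ∈ U (Gp X) F 0 2 → xc a = t := by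
      intro t
      by_cases ht : t ∈ U (Gp X) F 0 2
      · obtain ⟨a, ha⟩ := rd.c_surj t ht
        exact ⟨a, fun _ => ha⟩
      · exact ⟨0, fun h => absurd h ht⟩
    choose τ hτ using hch
    refine ⟨T.image τ, fun a ha => ?_⟩
    obtain ⟨t, ht, ht1, ht2⟩ := hT (xc a) (rd.c_mem a) ((vc 0 a).1 ha)
    refine ⟨τ t, Finset.mem_image_of_mem _ ht, ?_⟩
    rw [vc, csub, hτ t ht1]
    exact ht2

/-- all data of the coordinate division ring -/
structure CR (o : X) (F : Frame (Inc (s := s))) (K : Type u) [DivisionRing K]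
    (V : ℤ → AddSubgroup K) (xa xb xc : K → Gp X) : Prop where
  far : FarF o F
  vl : Vl K V
  rd : RD (U (Gp X) F 0 1) (U (Gp X) F 1 2) (U (Gp X) F 0 2) K xa xb xc
  va : ∀ n a, a ∈ V n ↔ Fx o (F.e 0) (F.l 1) n (xa a)
  vb : ∀ n a, a ∈ V n ↔ Fx o (F.e 1) (F.l 2) n (xb a)
  vc : ∀ n a, a ∈ V n ↔ Fx o (F.e 0) (F.l 2) n (xc a)

theorem exists_crd {o : X} {F : Frame (Inc (s := s))} (hF : FarF o F) :
    ∃ (K : Type u) (_ : DivisionRing K) (V : ℤ → AddSubgroup K)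
      (xa xb xc : K → Gp X), CR o F K V xa xb xc := by
  obtain ⟨K, i, hAD, V, xa, xb, xc, hV, rd, va, vb, vc⟩ := exists_acrd hF
  obtain ⟨j, hj⟩ := exists_divisionRing (K := K) (assoc_of_vl hV)
  subst hj
  exact ⟨K, j, V, xa, xb, xc, ⟨hF, hV, rd, va, vb, vc⟩⟩

end Pool.Agent.PLB
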