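import Pool.Agent.PLB.Crd

set_option autoImplicit false

/-! Theorem PB, section 5: coordinates of the opposite root group `U 1 0`.

PLAN. For `m ≠ 0` let `x = xa (-m⁻¹)` and let `y` be its opposite (`opp` in PPc.lean with `i j k = 0 1 2`):
`⁅y, ⁅x, b⁆⁆ = b⁻¹` for `b ∈ U 1 2`, i.e. `⁅y, xc (- m⁻¹ c)⁆ = xb (-c)`, so `⁅y, xc a⁆ = xb (m a)`. Put `x10 m = y`, `x10 0 = 1`.
`comm_bij_l` (for `1, 0, 2`): an element `y ∈ U 1 0` is determined by `⁅y, xc 1⁆`; with `comm_mul_l` this gives additivity;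
onto: for `g ∈ U 1 0`, `⁅g, xc 1⁆ ∈ U 1 2` is some `xb m`, so `g = x10 m`. -/

namespace Pool.Agent.PLB

open Pool.Agent.Helper87.ML Pool.Agent.RIG OrderDual
open scoped commutatorElement

universe u

variable {X : Type u} [Lattice X] [IsModularLattice X] {s : X ≃o X} [PB X s]

/-- coordinates of `U 1 0` -/
structure C10 (F : Frame (Inc (s := s))) (K : Type u) [DivisionRing K] (xb xc x10 : K → Gp X) :
    Prop where
  add : ∀ m n, x10 (m + n) = x10 m * x10 n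
  mem : ∀ m, x10 m ∈ U (Gp X) F 1 0
  surj : ∀ g ∈ U (Gp X) F 1 0, ∃ m, x10 m = g
  inj : ∀ m, x10 m = 1 → m = 0
  comm : ∀ m a, ⁅x10 m, xc a⁆ = xb (m * a)

theorem exists_x10 {o : X} {F : Frame (Inc (s := s))} {K : Type u} [DivisionRing K]
    {V : ℤ → AddSubgroup K} {xa xb xc : K → Gp X} (hC : CR o F K V xa xb xc) :
    ∃ x10 : K → Gp X, C10 F K xb xc x10 := by
  haveI : Nonempty X := ⟨o⟩
  have hM := mp (X := X) s
  have hR := hC.rd
  have hb0 : xb 0 = 1 := by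
    have h := hR.b_add 0 0
    rw [add_zero] at h
    exact (mul_eq_left.1 h.symm)
  have hbn : ∀ c, (xb c)⁻¹ = xb (-c) := by
    intro c
    have h := hR.b_add c (-c)
    rw [add_neg_cancel, hb0] at h
    exact inv_eq_of_mul_eq_one_right h.symm
  have key : ∀ m : K, ∃ g ∈ U (Gp X) F 1 0, ∀ a, ⁅g, xc a⁆ = xb (m * a) := by
    intro m
    by_cases hm : m = 0
    · refine ⟨1, (U (Gp X) F 1 0).one_mem, fun a => ?_⟩
      rw [hm, zero_mul, hb0, commutatorElement_one_left]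
    · have hx : xa (-m⁻¹) ≠ 1 := fun h => (neg_ne_zero.2 (inv_ne_zero hm)) (hR.a_inj _ h)
      obtain ⟨y, hy, -, -, hO, -⟩ := opp hM F (i := 0) (j := 1) (k := 2) (by decide) (by decide)
        (by decide) (hR.a_mem (-m⁻¹)) hx
      refine ⟨y, hy, fun a => ?_⟩
      have h1 := hO (xb (-(m * a))) (hR.b_mem _)
      rw [hR.comm, hbn, neg_neg] at h1
      have h2 : -m⁻¹ * -(m * a) = a := by
        rw [neg_mul_neg, inv_mul_cancel_left₀ hm]
      rw [h2] at h1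
      exact h1
  choose x10 hmem hcomm using key
  have hc1 : xc 1 ≠ 1 := fun h => one_ne_zero (hR.c_inj _ h)
  have huniq : ∀ g ∈ U (Gp X) F 1 0, ∀ g' ∈ U (Gp X) F 1 0, ⁅g, xc 1⁆ = ⁅g', xc 1⁆ → g = g' := by
    intro g hg g' hg' h
    have h1 : ⁅g', xc 1⁆ ∈ U (Gp X) F 1 2 := comm_mem hM F (i := 1) (j := 0) (k := 2) (by decide)
      (by decide) (by decide) hg' (hR.c_mem 1)
    exact (comm_bij_l hM F (i := 1) (j := 0) (k := 2) (by decide) (by decide) (by decide)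
      (hR.c_mem 1) hc1 h1).unique ⟨hg, h⟩ ⟨hg', rfl⟩
  refine ⟨x10, ⟨?_, hmem, ?_, ?_, hcomm⟩⟩
  · intro m n
    refine huniq _ (hmem _) _ (mul_mem (hmem m) (hmem n)) ?_
    rw [comm_mul_l hM F (i := 1) (j := 0) (k := 2) (by decide) (by decide) (by decide) (hmem m)
      (hmem n) (hR.c_mem 1), hcomm, hcomm, hcomm, add_mul, hR.b_add]
  · intro g hg
    have h1 : ⁅g, xc 1⁆ ∈ U (Gp X) F 1 2 := comm_mem hM F (i := 1) (j := 0) (k := 2) (by decide)
      (by decide) (by decide) hg (hR.c_mem 1)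
    obtain ⟨m, hm⟩ := hR.b_surj _ h1
    refine ⟨m, huniq _ (hmem m) _ hg ?_⟩
    rw [hcomm, mul_one, hm]
  · intro m hm
    have h1 := hcomm m 1
    rw [hm, commutatorElement_one_left, mul_one] at h1
    exact hR.b_inj m h1.symm

end Pool.Agent.PLB
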