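import Pool.Agent.PLB.Model

set_option autoImplicit false

/-! Theorem PB, the converse: the ring `O` and the `O`-submodules of `K ^ n` (definitions). -/

namespace Pool.Agent.PLB

universe u

variable {K : Type u} [DivisionRing K] {v : K → WithTop ℤ}

lemma IsCDV.zero (hv : IsCDV K v) : v 0 = ⊤ := (hv.top 0).2 rfl

/-- nonzero elements have an integral value -/
lemma IsCDV.ex (hv : IsCDV K v) {a : K} (ha : a ≠ 0) : ∃ m : ℤ, v a = (m : WithTop ℤ) := by
  have h : v a ≠ ⊤ := fun h => ha ((hv.top a).1 h)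
  exact ⟨(v a).untop h, (WithTop.coe_untop _ h).symm⟩

lemma IsCDV.one (hv : IsCDV K v) : v 1 = 0 := by
  obtain ⟨m, hm⟩ := hv.ex (one_ne_zero (α := K))
  have h := hv.mul 1 1
  rw [mul_one, hm, ← WithTop.coe_add, WithTop.coe_inj] at h
  rw [hm]
  have h2 : m = 0 := by omega
  rw [h2]
  rfl

lemma IsCDV.neg (hv : IsCDV K v) (a : K) : v (-a) = v a := by
  have h1 : v (-1) = 0 := by
    obtain ⟨m, hm⟩ := hv.ex (neg_ne_zero.2 (one_ne_zero (α := K)))
    have h := hv.mul (-1) (-1)
    rw [neg_mul_neg, one_mul, hv.one, hm, ← WithTop.coe_add] at h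
    have h2 : (0 : ℤ) = m + m := WithTop.coe_inj.1 h
    rw [hm]
    have h3 : m = 0 := by omega
    rw [h3]
    rfl
  have h := hv.mul (-1) a
  rw [neg_one_mul, h1, zero_add] at h
  exact h

/-- the valuation ring -/
def OO (hv : IsCDV K v) : Subring K where
  carrier := {a | 0 ≤ v a}
  mul_mem' := by
    intro a b ha hb
    show 0 ≤ v (a * b)
    rw [hv.mul]
    exact add_nonneg ha hb
  one_mem' := by
    show 0 ≤ v 1
    rw [hv.one]
  add_mem' := by
    intro a b ha hb
    exact (le_min ha hb).trans (hv.add a b)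
  zero_mem' := by
    show 0 ≤ v 0
    rw [hv.zero]
    exact le_top
  neg_mem' := by
    intro a ha
    show 0 ≤ v (-a)
    rw [hv.neg]
    exact ha

lemma mem_OO (hv : IsCDV K v) (a : K) : a ∈ OO hv ↔ 0 ≤ v a := Iff.rfl

/-- the `O`-submodules of `K ^ n` -/
abbrev MM (hv : IsCDV K v) (n : ℕ) : Type u := Submodule (OO hv) (Fin n → K)

lemma OO_smul (hv : IsCDV K v) {n : ℕ} (a : OO hv) (x : Fin n → K) (i : Fin n) :
    (a • x) i = (a : K) * x i := rfl

/-- the vectors with coordinates of value at least `m` -/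
def ball (hv : IsCDV K v) (n : ℕ) (m : ℤ) : MM hv n where
  carrier := {x | ∀ i, (m : WithTop ℤ) ≤ v (x i)}
  add_mem' := by
    intro x y hx hy i
    exact (le_min (hx i) (hy i)).trans (hv.add _ _)
  zero_mem' := by
    intro i
    show (m : WithTop ℤ) ≤ v 0
    rw [hv.zero]
    exact le_top
  smul_mem' := by
    intro a x hx i
    rw [OO_smul, hv.mul]
    have h1 : (0 : WithTop ℤ) ≤ v (a : K) := a.2
    calc (m : WithTop ℤ) = 0 + m := (zero_add _).symm
      _ ≤ v (a : K) + v (x i) := add_le_add h1 (hx i)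

lemma mem_ball (hv : IsCDV K v) {n : ℕ} {m : ℤ} {x : Fin n → K} :
    x ∈ ball hv n m ↔ ∀ i, (m : WithTop ℤ) ≤ v (x i) := Iff.rfl

/-- lattices -/
def IsLatt (hv : IsCDV K v) {n : ℕ} (N : MM hv n) : Prop :=
  ∃ m : ℕ, ball hv n (m : ℤ) ≤ N ∧ N ≤ ball hv n (-(m : ℤ))

/-- the lattice `π⁻¹ N` -/
def sg (hv : IsCDV K v) {n : ℕ} (N : MM hv n) : MM hv n where
  carrier := {x | ∀ a : K, 1 ≤ v a → (fun i => a * x i) ∈ N}
  add_mem' := by
    intro x y hx hy a ha
    have h : (fun i => a * (x + y) i) = (fun i => a * x i) + fun i => a * y i := by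
      funext i
      show a * (x i + y i) = a * x i + a * y i
      rw [mul_add]
    rw [h]
    exact N.add_mem (hx a ha) (hy a ha)
  zero_mem' := by
    intro a _
    have h : (fun i => a * (0 : Fin n → K) i) = 0 := by
      funext i
      show a * 0 = 0
      rw [mul_zero]
    rw [h]
    exact N.zero_mem
  smul_mem' := by
    intro b x hx a ha
    have h : (fun i => a * (b • x) i) = fun i => (a * b) * x i := by
      funext i
      show a * ((b : K) * x i) = (a * b) * x i
      rw [mul_assoc]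
    rw [h]
    apply hx
    rw [hv.mul]
    have h1 : (0 : WithTop ℤ) ≤ v (b : K) := b.2
    calc (1 : WithTop ℤ) = 1 + 0 := (add_zero _).symm
      _ ≤ v a + v (b : K) := add_le_add ha h1

lemma mem_sg (hv : IsCDV K v) {n : ℕ} {N : MM hv n} {x : Fin n → K} :
    x ∈ sg hv N ↔ ∀ a : K, 1 ≤ v a → (fun i => a * x i) ∈ N := Iff.rfl

/-- `N` is given in the coordinates `g` by the inequalities `a i ≤ v` -/
def InCo (hv : IsCDV K v) {n : ℕ} (g : (Fin n → K) ≃ₗ[K] (Fin n → K)) (a : Fin n → ℤ)
    (N : MM hv n) : Prop :=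
  ∀ x, x ∈ N ↔ ∀ i, ((a i : ℤ) : WithTop ℤ) ≤ v (g x i)

/-- the preimage of an `O`-submodule under a `K`-linear automorphism -/
def cm (hv : IsCDV K v) {n : ℕ} (g : (Fin n → K) ≃ₗ[K] (Fin n → K)) (N : MM hv n) : MM hv n where
  carrier := {x | g x ∈ N}
  add_mem' := by
    intro x y hx hy
    show g (x + y) ∈ N
    rw [map_add]
    exact N.add_mem hx hy
  zero_mem' := by
    show g 0 ∈ N
    rw [map_zero]
    exact N.zero_mem
  smul_mem' := by
    intro a x hx
    show g ((a : K) • x) ∈ N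
    rw [map_smul]
    exact N.smul_mem a hx

lemma mem_cm (hv : IsCDV K v) {n : ℕ} {g : (Fin n → K) ≃ₗ[K] (Fin n → K)} {N : MM hv n}
    {x : Fin n → K} : x ∈ cm hv g N ↔ g x ∈ N := Iff.rfl

/-- `cm` as an automorphism of the lattice of `O`-submodules -/
def cmI (hv : IsCDV K v) {n : ℕ} (g : (Fin n → K) ≃ₗ[K] (Fin n → K)) : MM hv n ≃o MM hv n where
  toFun := cm hv g
  invFun := cm hv g.symm
  left_inv N := by
    ext x
    rw [mem_cm, mem_cm, g.apply_symm_apply]
  right_inv N := by
    ext x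
    rw [mem_cm, mem_cm, g.symm_apply_apply]
  map_rel_iff' := by
    intro N N'
    show cm hv g N ≤ cm hv g N' ↔ N ≤ N'
    constructor
    · intro h x hx
      have h1 : g.symm x ∈ cm hv g N := by
        rw [mem_cm, g.apply_symm_apply]
        exact hx
      have h2 := h h1
      rwa [mem_cm, g.apply_symm_apply] at h2
    · intro h x hx
      exact h hx

/-- multiplication of the coordinates from the right by nonzero elements -/
def rsc {n : ℕ} (p : Fin n → K) (hp : ∀ i, p i ≠ 0) : (Fin n → K) ≃ₗ[K] (Fin n → K) where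
  toFun x i := x i * p i
  invFun x i := x i * (p i)⁻¹
  map_add' x y := by
    funext i
    show (x i + y i) * p i = x i * p i + y i * p i
    rw [add_mul]
  map_smul' a x := by
    funext i
    show a * x i * p i = a * (x i * p i)
    rw [mul_assoc]
  left_inv x := by
    funext i
    show x i * p i * (p i)⁻¹ = x i
    rw [mul_assoc, mul_inv_cancel₀ (hp i), mul_one]
  right_inv x := by
    funext i
    show x i * (p i)⁻¹ * p i = x i
    rw [mul_assoc, inv_mul_cancel₀ (hp i), mul_one]

lemma rsc_apply {n : ℕ} {p : Fin n → K} (hp : ∀ i, p i ≠ 0) (x : Fin n → K) (i : Fin n) :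
    rsc p hp x i = x i * p i := rfl

end Pool.Agent.PLB
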