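import Pool.Agent.PLB.CvSep

set_option autoImplicit false

/-! Theorem PB, the converse: orthogonal lattices with respect to `∑ (g x i) (q i) ψ(g y i)`.

`pL_pR`, `pR_pL`: `exists_sep`, as `ψ` is onto.  `pR_co`, `pL_co`: test with the vectors with one coordinate
(`IsCDV.exists_val`), and `IsCDV.sum` for the converse. -/

namespace Pool.Agent.PLB

universe u

variable {K : Type u} [DivisionRing K] {v : K → WithTop ℤ} {ψ : K → K}

/-- the form -/
def bf (ψ : K → K) {n : ℕ} (g : (Fin n → K) ≃ₗ[K] (Fin n → K)) (q : Fin n → K)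
    (x y : Fin n → K) : K := ∑ i, g x i * q i * ψ (g y i)

lemma bf_add_left (ψ : K → K) {n : ℕ} (g : (Fin n → K) ≃ₗ[K] (Fin n → K)) (q : Fin n → K)
    (x x' y : Fin n → K) : bf ψ g q (x + x') y = bf ψ g q x y + bf ψ g q x' y := by
  unfold bf
  rw [← Finset.sum_add_distrib]
  refine Finset.sum_congr rfl fun i _ => ?_
  rw [map_add, Pi.add_apply, add_mul, add_mul]

lemma bf_smul_left (ψ : K → K) {n : ℕ} (g : (Fin n → K) ≃ₗ[K] (Fin n → K)) (q : Fin n → K)
    (a : K) (x y : Fin n → K) : bf ψ g q (a • x) y = a * bf ψ g q x y := by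
  unfold bf
  rw [Finset.mul_sum]
  refine Finset.sum_congr rfl fun i _ => ?_
  rw [map_smul, Pi.smul_apply, smul_eq_mul, mul_assoc, mul_assoc, mul_assoc]

lemma bf_add_right (hψ : IsAntiAut K v ψ) {n : ℕ} (g : (Fin n → K) ≃ₗ[K] (Fin n → K))
    (q : Fin n → K) (x y y' : Fin n → K) : bf ψ g q x (y + y') = bf ψ g q x y + bf ψ g q x y' := by
  unfold bf
  rw [← Finset.sum_add_distrib]
  refine Finset.sum_congr rfl fun i _ => ?_
  rw [map_add, Pi.add_apply, hψ.add, mul_add]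

lemma bf_smul_right (hψ : IsAntiAut K v ψ) {n : ℕ} (g : (Fin n → K) ≃ₗ[K] (Fin n → K))
    (q : Fin n → K) (a : K) (x y : Fin n → K) : bf ψ g q x (a • y) = bf ψ g q x y * ψ a := by
  unfold bf
  rw [Finset.sum_mul]
  refine Finset.sum_congr rfl fun i _ => ?_
  rw [map_smul, Pi.smul_apply, smul_eq_mul, hψ.mul, mul_assoc, mul_assoc, mul_assoc]

lemma bf_zero_left (ψ : K → K) {n : ℕ} (g : (Fin n → K) ≃ₗ[K] (Fin n → K)) (q : Fin n → K)
    (y : Fin n → K) : bf ψ g q 0 y = 0 := by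
  unfold bf
  refine Finset.sum_eq_zero fun i _ => ?_
  rw [map_zero, Pi.zero_apply, zero_mul, zero_mul]

private theorem CvDual_zero (hψ : IsAntiAut K v ψ) : ψ 0 = 0 := by
  have h := hψ.add 0 0
  rw [add_zero] at h
  exact left_eq_add.1 h

lemma bf_zero_right (hψ : IsAntiAut K v ψ) {n : ℕ} (g : (Fin n → K) ≃ₗ[K] (Fin n → K))
    (q : Fin n → K) (x : Fin n → K) : bf ψ g q x 0 = 0 := by
  unfold bf
  refine Finset.sum_eq_zero fun i _ => ?_
  rw [map_zero, Pi.zero_apply, CvDual_zero hψ, mul_zero]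

/-- the right orthogonal -/
def pR (hv : IsCDV K v) (hψ : IsAntiAut K v ψ) {n : ℕ} (g : (Fin n → K) ≃ₗ[K] (Fin n → K))
    (q : Fin n → K) (N : MM hv n) : MM hv n where
  carrier := {y | ∀ x ∈ N, 0 ≤ v (bf ψ g q x y)}
  add_mem' := by
    intro y y' hy hy' x hx
    rw [bf_add_right hψ]
    exact (le_min (hy x hx) (hy' x hx)).trans (hv.add _ _)
  zero_mem' := by
    intro x _
    rw [bf_zero_right hψ, hv.zero]
    exact le_top
  smul_mem' := by
    intro a y hy x hx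
    have h : bf ψ g q x (a • y) = bf ψ g q x y * ψ (a : K) := bf_smul_right hψ g q (a : K) x y
    rw [h, hv.mul, hψ.val]
    exact add_nonneg (hy x hx) a.2

/-- the left orthogonal -/
def pL (hv : IsCDV K v) (ψ : K → K) {n : ℕ} (g : (Fin n → K) ≃ₗ[K] (Fin n → K))
    (q : Fin n → K) (N : MM hv n) : MM hv n where
  carrier := {x | ∀ y ∈ N, 0 ≤ v (bf ψ g q x y)}
  add_mem' := by
    intro x x' hx hx' y hy
    rw [bf_add_left]
    exact (le_min (hx y hy) (hx' y hy)).trans (hv.add _ _)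
  zero_mem' := by
    intro y _
    rw [bf_zero_left, hv.zero]
    exact le_top
  smul_mem' := by
    intro a x hx y hy
    have h : bf ψ g q (a • x) y = (a : K) * bf ψ g q x y := bf_smul_left ψ g q (a : K) x y
    rw [h, hv.mul]
    exact add_nonneg a.2 (hx y hy)

private theorem CvDual_sum (hψ : IsAntiAut K v ψ) {n : ℕ} (f : Fin n → K) :
    ψ (∑ i, f i) = ∑ i, ψ (f i) := by
  have h : ∀ s : Finset (Fin n), ψ (∑ i ∈ s, f i) = ∑ i ∈ s, ψ (f i) := by
    intro s
    induction s using Finset.induction_on with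
    | empty => rw [Finset.sum_empty, Finset.sum_empty, CvDual_zero hψ]
    | insert a s ha ih => rw [Finset.sum_insert ha, Finset.sum_insert ha, hψ.add, ih]
  exact h Finset.univ

/-- the vector with one coordinate -/
private def CvDual_e {n : ℕ} (g : (Fin n → K) ≃ₗ[K] (Fin n → K)) (i : Fin n) (c : K) : Fin n → K :=
  g.symm fun j => if j = i then c else 0

private theorem CvDual_ge {n : ℕ} (g : (Fin n → K) ≃ₗ[K] (Fin n → K)) (i j : Fin n) (c : K) :
    g (CvDual_e g i c) j = if j = i then c else 0 := by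
  unfold CvDual_e
  rw [g.apply_symm_apply]

private theorem CvDual_mem {hv : IsCDV K v} {n : ℕ} (g : (Fin n → K) ≃ₗ[K] (Fin n → K)) {a : Fin n → ℤ}
    {N : MM hv n} (hN : InCo hv g a N) (i : Fin n) {c : K} (hc : v c = ((a i : ℤ) : WithTop ℤ)) :
    CvDual_e g i c ∈ N := by
  rw [hN]
  intro j
  rw [CvDual_ge]
  by_cases h : j = i
  · rw [if_pos h, hc, h]
  · rw [if_neg h, hv.zero]
    exact le_top

private theorem CvDual_le {a b : ℤ} {t : WithTop ℤ} :
    0 ≤ ((a : ℤ) : WithTop ℤ) + ((-b : ℤ) : WithTop ℤ) + t ↔ ((b - a : ℤ) : WithTop ℤ) ≤ t := by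
  induction t using WithTop.recTopCoe with
  | top =>
    rw [WithTop.add_top]
    exact ⟨fun _ => le_top, fun _ => le_top⟩
  | coe t =>
    rw [← WithTop.coe_add, ← WithTop.coe_add, ← WithTop.coe_zero, WithTop.coe_le_coe, WithTop.coe_le_coe]
    constructor
    · intro h
      omega
    · intro h
      omega

private theorem CvDual_le2 {a b : ℤ} {s t : WithTop ℤ} (hs : ((a : ℤ) : WithTop ℤ) ≤ s)
    (ht : ((b - a : ℤ) : WithTop ℤ) ≤ t) : 0 ≤ s + ((-b : ℤ) : WithTop ℤ) + t :=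
  (CvDual_le.2 ht).trans (add_le_add (add_le_add hs le_rfl) le_rfl)

private theorem CvDual_bfe (hψ : IsAntiAut K v ψ) {n : ℕ} (g : (Fin n → K) ≃ₗ[K] (Fin n → K)) (q : Fin n → K)
    (i : Fin n) (c : K) (y : Fin n → K) :
    bf ψ g q (CvDual_e g i c) y = c * q i * ψ (g y i) ∧ bf ψ g q y (CvDual_e g i c) = g y i * q i * ψ c := by
  unfold bf
  constructor
  · rw [Finset.sum_eq_single i]
    · rw [CvDual_ge, if_pos rfl]
    · intro j _ hj
      rw [CvDual_ge, if_neg hj, zero_mul, zero_mul]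
    · intro h
      exact absurd (Finset.mem_univ i) h
  · rw [Finset.sum_eq_single i]
    · rw [CvDual_ge, if_pos rfl]
    · intro j _ hj
      rw [CvDual_ge, if_neg hj, CvDual_zero hψ, mul_zero]
    · intro h
      exact absurd (Finset.mem_univ i) h

private theorem CvDual_bf (hv : IsCDV K v) (hψ : IsAntiAut K v ψ) {n : ℕ} (g : (Fin n → K) ≃ₗ[K] (Fin n → K))
    {q : Fin n → K} {a b : Fin n → ℤ} (hq : ∀ i, v (q i) = ((-(b i) : ℤ) : WithTop ℤ)) {x y : Fin n → K}
    (hx : ∀ i, ((a i : ℤ) : WithTop ℤ) ≤ v (g x i)) (hy : ∀ i, ((b i - a i : ℤ) : WithTop ℤ) ≤ v (g y i)) :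
    0 ≤ v (bf ψ g q x y) ∧ 0 ≤ v (bf ψ g q y x) := by
  unfold bf
  constructor
  · refine hv.sum _ _ fun i _ => ?_
    rw [hv.mul, hv.mul, hψ.val, hq]
    exact CvDual_le2 (hx i) (hy i)
  · refine hv.sum _ _ fun i _ => ?_
    rw [hv.mul, hv.mul, hψ.val, hq]
    refine CvDual_le2 (hy i) ?_
    have h : b i - (b i - a i) = a i := by ring
    rw [h]
    exact hx i

theorem pL_pR {hv : IsCDV K v} (hψ : IsAntiAut K v ψ) {n : ℕ}
    (g : (Fin n → K) ≃ₗ[K] (Fin n → K)) {q : Fin n → K} (hq : ∀ i, q i ≠ 0) {N : MM hv n}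
    (hN : IsLatt hv N) : pL hv ψ g q (pR hv hψ g q N) = N := by
  refine le_antisymm (fun u hu => ?_) fun x hx y hy => hy x hx
  by_contra hn
  obtain ⟨d, hd, hd'⟩ := exists_sep hN g hn
  choose f hf using fun i => hψ.bij.2 ((q i)⁻¹ * d i)
  have h1 : ∀ x, bf ψ g q x (g.symm f) = ∑ i, g x i * d i := fun x => by
    unfold bf
    refine Finset.sum_congr rfl fun i _ => ?_
    rw [g.apply_symm_apply, hf, mul_assoc, mul_inv_cancel_left₀ (hq i)]
  have h2 : g.symm f ∈ pR hv hψ g q N := fun x hx => by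
    rw [h1]
    exact hd x hx
  have h3 := hu _ h2
  rw [h1] at h3
  exact hd' h3

theorem pR_pL {hv : IsCDV K v} (hψ : IsAntiAut K v ψ) {n : ℕ}
    (g : (Fin n → K) ≃ₗ[K] (Fin n → K)) {q : Fin n → K} (hq : ∀ i, q i ≠ 0) {N : MM hv n}
    (hN : IsLatt hv N) : pR hv hψ g q (pL hv ψ g q N) = N := by
  refine le_antisymm (fun u hu => ?_) fun y hy x hx => hx y hy
  by_contra hn
  obtain ⟨d, hd, hd'⟩ := exists_sep hN g hn
  have h1 : ∀ y, v (bf ψ g q (g.symm fun i => ψ (d i) * (q i)⁻¹) y) = v (∑ i, g y i * d i) := fun y => by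
    rw [← hψ.val (∑ i, g y i * d i), CvDual_sum hψ]
    unfold bf
    congr 1
    refine Finset.sum_congr rfl fun i _ => ?_
    rw [g.apply_symm_apply, inv_mul_cancel_right₀ (hq i), hψ.mul]
  have h2 : (g.symm fun i => ψ (d i) * (q i)⁻¹) ∈ pL hv ψ g q N := fun y hy => by
    rw [h1]
    exact hd y hy
  have h3 := hu _ h2
  rw [h1] at h3
  exact hd' h3

theorem pR_co {hv : IsCDV K v} (hψ : IsAntiAut K v ψ) {n : ℕ}
    (g : (Fin n → K) ≃ₗ[K] (Fin n → K)) {q : Fin n → K} {a b : Fin n → ℤ}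
    (hq : ∀ i, v (q i) = ((-(b i) : ℤ) : WithTop ℤ)) {N : MM hv n} (hN : InCo hv g a N) :
    InCo hv g (fun i => b i - a i) (pR hv hψ g q N) := by
  intro y
  constructor
  · intro hy i
    obtain ⟨c, hc⟩ := hv.exists_val (a i)
    have h1 := hy _ (CvDual_mem g hN i hc)
    rw [(CvDual_bfe hψ g q i c y).1, hv.mul, hv.mul, hψ.val, hq, hc] at h1
    exact CvDual_le.1 h1
  · intro hy x hx
    exact (CvDual_bf hv hψ g hq ((hN x).1 hx) hy).1

theorem pL_co {hv : IsCDV K v} (hψ : IsAntiAut K v ψ) {n : ℕ}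
    (g : (Fin n → K) ≃ₗ[K] (Fin n → K)) {q : Fin n → K} {a b : Fin n → ℤ}
    (hq : ∀ i, v (q i) = ((-(b i) : ℤ) : WithTop ℤ)) {N : MM hv n} (hN : InCo hv g a N) :
    InCo hv g (fun i => b i - a i) (pL hv ψ g q N) := by
  intro y
  constructor
  · intro hy i
    obtain ⟨c, hc⟩ := hv.exists_val (a i)
    have h1 := hy _ (CvDual_mem g hN i hc)
    rw [(CvDual_bfe hψ g q i c y).2, hv.mul, hv.mul, hψ.val, hq, hc] at h1
    refine CvDual_le.1 ?_
    rw [add_right_comm, add_comm (v (g y i)), add_right_comm] at h1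
    exact h1
  · intro hy x hx
    exact (CvDual_bf hv hψ g hq ((hN x).1 hx) hy).2

end Pool.Agent.PLB
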