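import Pool.Agent.PLB.CvV

set_option autoImplicit false

/-! Theorem PB, the converse: rules for lattices in `K ^ n`.

`ball_anti`, `IsLatt.sup`, `IsLatt.inf`, `IsLatt.of_le`: direct (take the larger of the two bounds).
`IsLatt.cm`: with `C` a bound for the values of all entries of the matrices of `g` and `g⁻¹`
(`g x i = ∑ j, x j * g (Pi.single j 1) i`, the values of the finitely many nonzero entries are
`≥ - C`) the map `g` sends `ball m` into `ball (m - C)`, and so does `g⁻¹`.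
`sg_inco`: `mem_sg_iff` with `v p = 1`; `g (fun i => p * x i) = g (p • x) = p • g x`; `le_mul_left`.
`inco_ext`: two submodules with the same coordinates are equal. -/

namespace Pool.Agent.PLB

universe u

variable {K : Type u} [DivisionRing K] {v : K → WithTop ℤ}

lemma ball_anti (hv : IsCDV K v) {n : ℕ} {m m' : ℤ} (h : m ≤ m') :
    ball hv n m' ≤ ball hv n m := by
  intro x hx i
  exact (WithTop.coe_le_coe.2 h).trans (hx i)

lemma isLatt_ball (hv : IsCDV K v) (n : ℕ) (m : ℤ) : IsLatt hv (ball hv n m) :=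
  ⟨m.natAbs, ball_anti hv (by omega), ball_anti hv (by omega)⟩

/-- between two lattices -/
lemma IsLatt.of_le {hv : IsCDV K v} {n : ℕ} {N N' M : MM hv n} (hN : IsLatt hv N)
    (hN' : IsLatt hv N') (h1 : N ≤ M) (h2 : M ≤ N') : IsLatt hv M := by
  obtain ⟨m, hm, _⟩ := hN
  obtain ⟨m', _, hm'⟩ := hN'
  exact ⟨m + m', (ball_anti hv (by omega)).trans (hm.trans h1),
    h2.trans (hm'.trans (ball_anti hv (by omega)))⟩

lemma IsLatt.sup {hv : IsCDV K v} {n : ℕ} {N N' : MM hv n} (hN : IsLatt hv N)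
    (hN' : IsLatt hv N') : IsLatt hv (N ⊔ N') := by
  obtain ⟨m, hm1, hm2⟩ := hN
  obtain ⟨m', _, hm'2⟩ := hN'
  exact ⟨m + m', (ball_anti hv (by omega)).trans (hm1.trans le_sup_left),
    sup_le (hm2.trans (ball_anti hv (by omega))) (hm'2.trans (ball_anti hv (by omega)))⟩

lemma IsLatt.inf {hv : IsCDV K v} {n : ℕ} {N N' : MM hv n} (hN : IsLatt hv N)
    (hN' : IsLatt hv N') : IsLatt hv (N ⊓ N') := by
  obtain ⟨m, hm1, hm2⟩ := hN
  obtain ⟨m', hm'1, _⟩ := hN'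
  exact ⟨m + m', le_inf ((ball_anti hv (by omega)).trans hm1)
    ((ball_anti hv (by omega)).trans hm'1),
    inf_le_left.trans (hm2.trans (ball_anti hv (by omega)))⟩

private lemma CvL_val (hv : IsCDV K v) (a : K) : ∃ C : ℕ, ((-(C : ℤ) : ℤ) : WithTop ℤ) ≤ v a := by
  by_cases ha : a = 0
  · exact ⟨0, by rw [ha, hv.zero]; exact le_top⟩
  · obtain ⟨m, hm⟩ := hv.ex ha
    exact ⟨m.natAbs, by rw [hm, WithTop.coe_le_coe]; omega⟩

private lemma CvL_lin (hv : IsCDV K v) {n : ℕ} (g : (Fin n → K) →ₗ[K] (Fin n → K)) :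
    ∃ C : ℕ, ∀ (k : ℤ) (x : Fin n → K), x ∈ ball hv n k → g x ∈ ball hv n (k - C) := by
  classical
  have h1 : ∀ i j : Fin n, ∃ C : ℕ, ((-(C : ℤ) : ℤ) : WithTop ℤ) ≤
      v (g (fun l => if j = l then 1 else 0) i) := fun i j => CvL_val hv _
  choose c hc using h1
  refine ⟨∑ i : Fin n, ∑ j : Fin n, c i j, fun k x hx i => ?_⟩
  rw [LinearMap.pi_apply_eq_sum_univ g x, Finset.sum_apply]
  refine hv.sum _ _ fun j _ => ?_
  rw [Pi.smul_apply, smul_eq_mul, hv.mul]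
  have h2 : c i j ≤ ∑ i : Fin n, ∑ j : Fin n, c i j :=
    (Finset.single_le_sum (f := fun j => c i j) (fun _ _ => Nat.zero_le _)
      (Finset.mem_univ j)).trans
      (Finset.single_le_sum (f := fun i => ∑ j : Fin n, c i j) (fun _ _ => Nat.zero_le _)
      (Finset.mem_univ i))
  have h3 : ((k - ((∑ i : Fin n, ∑ j : Fin n, c i j : ℕ) : ℤ) : ℤ) : WithTop ℤ) ≤
      ((k + -(c i j : ℤ) : ℤ) : WithTop ℤ) := by
    rw [WithTop.coe_le_coe]
    have h4 : (c i j : ℤ) ≤ ((∑ i : Fin n, ∑ j : Fin n, c i j : ℕ) : ℤ) := by exact_mod_cast h2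
    linarith
  refine h3.trans ?_
  rw [WithTop.coe_add]
  exact add_le_add (hx j) (hc i j)

lemma IsLatt.cm {hv : IsCDV K v} {n : ℕ} {N : MM hv n} (hN : IsLatt hv N)
    (g : (Fin n → K) ≃ₗ[K] (Fin n → K)) : IsLatt hv (cm hv g N) := by
  obtain ⟨m, hm1, hm2⟩ := hN
  obtain ⟨C, hC⟩ := CvL_lin hv g.toLinearMap
  obtain ⟨C', hC'⟩ := CvL_lin hv g.symm.toLinearMap
  refine ⟨m + C + C', fun x hx => ?_, fun x hx => ?_⟩
  · rw [mem_cm]
    have h1 : g x ∈ ball hv n (((m + C + C' : ℕ) : ℤ) - C) := hC _ x hx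
    exact hm1 (ball_anti hv (by push_cast; linarith) h1)
  · rw [mem_cm] at hx
    have h1 : g.symm (g x) ∈ ball hv n (-(m : ℤ) - C') := hC' _ _ (hm2 hx)
    rw [g.symm_apply_apply] at h1
    exact ball_anti hv (by push_cast; linarith) h1

lemma le_sg (hv : IsCDV K v) {n : ℕ} (N : MM hv n) : N ≤ sg hv N := by
  intro x hx
  rw [mem_sg]
  intro a ha
  have h0 : 0 ≤ v a := le_trans zero_le_one ha
  exact N.smul_mem (⟨a, h0⟩ : OO hv) hx

lemma IsLatt.sg {hv : IsCDV K v} {n : ℕ} {N : MM hv n} (hN : IsLatt hv N) :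
    IsLatt hv (sg hv N) := by
  obtain ⟨m, hm1, hm2⟩ := hN
  obtain ⟨p, hp⟩ := hv.surj
  refine ⟨m + 1, (ball_anti hv (by omega)).trans (hm1.trans (le_sg hv N)), fun x hx i => ?_⟩
  rw [mem_sg_iff hv hp] at hx
  have h1 : ((-(m : ℤ) : ℤ) : WithTop ℤ) ≤ v (p * x i) := hm2 hx i
  have h2 := (hv.le_mul_left (m := 1) hp).1 h1
  have h3 : (-((m + 1 : ℕ) : ℤ) : ℤ) = -(m : ℤ) - 1 := by push_cast; ring
  rw [h3]
  exact h2

lemma inco_ext (hv : IsCDV K v) {n : ℕ} {g : (Fin n → K) ≃ₗ[K] (Fin n → K)} {a : Fin n → ℤ}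
    {N N' : MM hv n} (h : InCo hv g a N) (h' : InCo hv g a N') : N = N' := by
  ext x
  rw [h x, h' x]

lemma sg_inco (hv : IsCDV K v) {n : ℕ} {g : (Fin n → K) ≃ₗ[K] (Fin n → K)} {a : Fin n → ℤ}
    {N : MM hv n} (h : InCo hv g a N) : InCo hv g (fun i => a i - 1) (sg hv N) := by
  obtain ⟨p, hp⟩ := hv.surj
  intro x
  have h1 : (fun i => p * x i) = p • x := by
    funext i
    rfl
  rw [mem_sg_iff hv hp, h, h1, map_smul]
  refine forall_congr' fun i => ?_
  rw [Pi.smul_apply, smul_eq_mul]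
  exact hv.le_mul_left (m := 1) hp

end Pool.Agent.PLB
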