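import Pool.Agent.PLB.CvBas

set_option autoImplicit false

/-! Theorem PB, the converse: separation.

The functional is a coordinate with respect to a basis of `N` in which `u` is not integral. -/

namespace Pool.Agent.PLB

universe u

variable {K : Type u} [DivisionRing K] {v : K → WithTop ℤ}

theorem exists_sep {hv : IsCDV K v} {n : ℕ} {N : MM hv n} (hN : IsLatt hv N)
    (g : (Fin n → K) ≃ₗ[K] (Fin n → K)) {u : Fin n → K} (hu : u ∉ N) :
    ∃ d : Fin n → K, (∀ x ∈ N, 0 ≤ v (∑ i, g x i * d i)) ∧ ¬ 0 ≤ v (∑ i, g u i * d i) := by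
  obtain ⟨g1, h1⟩ := exists_basis hN
  have h2 : ¬ ∀ i, ((0 : ℤ) : WithTop ℤ) ≤ v (g1 u i) := fun h => hu ((h1 u).2 h)
  obtain ⟨i, hi⟩ := not_forall.1 h2
  set φ : (Fin n → K) →ₗ[K] K :=
    (LinearMap.proj i) ∘ₗ g1.toLinearMap ∘ₗ g.symm.toLinearMap with hφ
  have h3 : ∀ x : Fin n → K, ∑ j, g x j * φ (fun k => if j = k then 1 else 0) = g1 x i := by
    intro x
    have h4 := LinearMap.pi_apply_eq_sum_univ φ (g x)
    have h5 : φ (g x) = g1 x i := by
      show g1 (g.symm (g x)) i = g1 x i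
      rw [g.symm_apply_apply]
    rw [← h5, h4]
    rfl
  refine ⟨fun j => φ (fun k => if j = k then 1 else 0), fun x hx => ?_, ?_⟩
  · rw [h3 x]
    exact (h1 x).1 hx i
  · rw [h3 u]
    exact hi

end Pool.Agent.PLB
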