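import Pool.Agent.PLB.CvStep

set_option autoImplicit false

/-! Theorem PB, the converse: elementary divisors.

Induction on `n` (`n = 0`: `g = refl`; everything is trivial, `Subsingleton`).  Step: `g1, c, N1` from
`smith_step`, `g', a'` for `N1`; `g x = (g1 x 0, g' (tail (g1 x)))` is a linear automorphism (inverse
`y ↦ g1⁻¹ (y 0, g'⁻¹ (tail y))`), `a = Fin.cons c a'`. -/

namespace Pool.Agent.PLB

universe u

variable {K : Type u} [DivisionRing K] {v : K → WithTop ℤ}

/-- apply `g` to the tail of a vector -/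
private def cvSmithExt {n : ℕ} (g : (Fin n → K) ≃ₗ[K] (Fin n → K)) :
    (Fin (n + 1) → K) ≃ₗ[K] (Fin (n + 1) → K) where
  toFun x := (Fin.cons (x 0) (g (fun i => x i.succ)) : Fin (n + 1) → K)
  invFun y := (Fin.cons (y 0) (g.symm (fun i => y i.succ)) : Fin (n + 1) → K)
  map_add' x y := by
    funext i
    refine Fin.cases ?_ (fun j => ?_) i
    · rfl
    · show g (fun i => (x + y) i.succ) j = g (fun i => x i.succ) j + g (fun i => y i.succ) j
      have h : (fun i : Fin n => (x + y) i.succ) = (fun i => x i.succ) + fun i => y i.succ := rfl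
      rw [h, map_add]
      rfl
  map_smul' a x := by
    funext i
    refine Fin.cases ?_ (fun j => ?_) i
    · rfl
    · show g (fun i => (a • x) i.succ) j = a * g (fun i => x i.succ) j
      have h : (fun i : Fin n => (a • x) i.succ) = a • fun i => x i.succ := rfl
      rw [h, map_smul]
      rfl
  left_inv x := by
    funext i
    refine Fin.cases ?_ (fun j => ?_) i
    · rfl
    · show g.symm (g (fun i => x i.succ)) j = x j.succ
      rw [g.symm_apply_apply]
  right_inv x := by
    funext i
    refine Fin.cases ?_ (fun j => ?_) i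
    · rfl
    · show g (g.symm (fun i => x i.succ)) j = x j.succ
      rw [g.apply_symm_apply]

private lemma cvSmithExt_zero {n : ℕ} (g : (Fin n → K) ≃ₗ[K] (Fin n → K)) (x : Fin (n + 1) → K) :
    cvSmithExt g x 0 = x 0 := rfl

private lemma cvSmithExt_succ {n : ℕ} (g : (Fin n → K) ≃ₗ[K] (Fin n → K)) (x : Fin (n + 1) → K)
    (j : Fin n) : cvSmithExt g x j.succ = g (fun i => x i.succ) j := rfl

theorem smith (hv : IsCDV K v) (n m : ℕ) : ∀ (N : MM hv n), N ≤ ball hv n 0 →
    ball hv n (m : ℤ) ≤ N → ∃ (g : (Fin n → K) ≃ₗ[K] (Fin n → K)) (a : Fin n → ℕ),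
      (∀ x, g x ∈ ball hv n 0 ↔ x ∈ ball hv n 0) ∧ InCo hv g (fun i => (a i : ℤ)) N := by
  induction n with
  | zero =>
    intro N _ _
    refine ⟨LinearEquiv.refl K _, fun _ => 0, fun x => Iff.rfl, ?_⟩
    intro x
    constructor
    · intro _ i
      exact i.elim0
    · intro _
      have h : x = 0 := Subsingleton.elim _ _
      rw [h]
      exact N.zero_mem
  | succ n ih =>
    intro N h1 h2
    obtain ⟨g1, c, N1, hg1, hN1, hb, hx⟩ := smith_step hv h1 h2
    obtain ⟨g', a', hg', ha'⟩ := ih N1 hN1 hb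
    refine ⟨g1.trans (cvSmithExt g'), Fin.cons c a', ?_, ?_⟩
    · intro x
      rw [← hg1 x]
      show cvSmithExt g' (g1 x) ∈ ball hv (n + 1) 0 ↔ g1 x ∈ ball hv (n + 1) 0
      rw [mem_ball, mem_ball, Fin.forall_fin_succ, Fin.forall_fin_succ, cvSmithExt_zero]
      have h3 := hg' (fun i => g1 x i.succ)
      rw [mem_ball, mem_ball] at h3
      exact and_congr Iff.rfl h3
    · intro x
      rw [hx x, Fin.forall_fin_succ]
      have h3 := ha' (fun i => g1 x i.succ)
      exact and_congr Iff.rfl h3

end Pool.Agent.PLB
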