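import Pool.Agent.PLB.CvL

set_option autoImplicit false

/-! Theorem PB, the converse: one step of the elementary divisor algorithm.

Choose an element `u` of `N` and a coordinate `i₀` such that the value `c` of `u i₀` is minimal; permute
the coordinates and subtract multiples of the first one from the others. -/

namespace Pool.Agent.PLB

universe u

variable {K : Type u} [DivisionRing K] {v : K → WithTop ℤ}

private lemma cvstep_min (hv : IsCDV K v) {n m : ℕ} {N : MM hv (n + 1)}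
    (h1 : N ≤ ball hv (n + 1) 0) (h2 : ball hv (n + 1) (m : ℤ) ≤ N) :
    ∃ (c : ℕ) (w : Fin (n + 1) → K) (i₀ : Fin (n + 1)), w ∈ N ∧
      v (w i₀) = ((c : ℤ) : WithTop ℤ) ∧ ∀ x ∈ N, ∀ i, ((c : ℤ) : WithTop ℤ) ≤ v (x i) := by
  classical
  have hex : ∃ c : ℕ, ∃ (w : Fin (n + 1) → K) (i₀ : Fin (n + 1)), w ∈ N ∧
      v (w i₀) = ((c : ℤ) : WithTop ℤ) := by
    obtain ⟨p, hp⟩ := hv.exists_val (m : ℤ)
    refine ⟨m, fun _ => p, 0, h2 ?_, hp⟩
    rw [mem_ball]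
    intro i
    rw [hp]
  obtain ⟨w, i₀, hw, hc⟩ := Nat.find_spec hex
  refine ⟨Nat.find hex, w, i₀, hw, hc, fun x hx i => ?_⟩
  by_cases h0 : x i = 0
  · rw [h0, hv.zero]
    exact le_top
  · obtain ⟨k, hk⟩ := hv.ex h0
    have hk0 : (0 : ℤ) ≤ k := by
      have h3 := (mem_ball hv).1 (h1 hx) i
      rw [hk, WithTop.coe_le_coe] at h3
      exact h3
    have h4 : Nat.find hex ≤ k.toNat :=
      Nat.find_min' hex ⟨x, i, hx, by rw [hk, Int.toNat_of_nonneg hk0]⟩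
    rw [hk, WithTop.coe_le_coe]
    omega

/-- the permutation and the elementary transformation -/
private def cvstep_g {n : ℕ} (i₀ : Fin (n + 1)) (d : Fin (n + 1) → K) (hd : d 0 = 0) :
    (Fin (n + 1) → K) ≃ₗ[K] (Fin (n + 1) → K) where
  toFun x i := x (Equiv.swap 0 i₀ i) - x i₀ * d i
  invFun y j := y (Equiv.swap 0 i₀ j) + y 0 * d (Equiv.swap 0 i₀ j)
  map_add' x y := by
    funext i
    show x (Equiv.swap 0 i₀ i) + y (Equiv.swap 0 i₀ i) - (x i₀ + y i₀) * d i =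
      (x (Equiv.swap 0 i₀ i) - x i₀ * d i) + (y (Equiv.swap 0 i₀ i) - y i₀ * d i)
    rw [add_mul]
    abel
  map_smul' a x := by
    funext i
    show a * x (Equiv.swap 0 i₀ i) - a * x i₀ * d i = a * (x (Equiv.swap 0 i₀ i) - x i₀ * d i)
    rw [mul_sub, mul_assoc]
  left_inv x := by
    funext j
    show x (Equiv.swap 0 i₀ (Equiv.swap 0 i₀ j)) - x i₀ * d (Equiv.swap 0 i₀ j) +
      (x (Equiv.swap 0 i₀ 0) - x i₀ * d 0) * d (Equiv.swap 0 i₀ j) = x j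
    rw [Equiv.swap_apply_self, Equiv.swap_apply_left, hd, mul_zero, sub_zero, sub_add_cancel]
  right_inv y := by
    funext i
    show y (Equiv.swap 0 i₀ (Equiv.swap 0 i₀ i)) + y 0 * d (Equiv.swap 0 i₀ (Equiv.swap 0 i₀ i)) -
      (y (Equiv.swap 0 i₀ i₀) + y 0 * d (Equiv.swap 0 i₀ i₀)) * d i = y i
    rw [Equiv.swap_apply_self, Equiv.swap_apply_right, hd, mul_zero, add_zero, add_sub_cancel_right]

private lemma cvstep_g_apply {n : ℕ} {i₀ : Fin (n + 1)} {d : Fin (n + 1) → K} (hd : d 0 = 0)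
    (x : Fin (n + 1) → K) (i : Fin (n + 1)) :
    cvstep_g i₀ d hd x i = x (Equiv.swap 0 i₀ i) - x i₀ * d i := rfl

private lemma cvstep_g_zero {n : ℕ} {i₀ : Fin (n + 1)} {d : Fin (n + 1) → K} (hd : d 0 = 0)
    (x : Fin (n + 1) → K) : cvstep_g i₀ d hd x 0 = x i₀ := by
  rw [cvstep_g_apply, Equiv.swap_apply_left, hd, mul_zero, sub_zero]

private lemma cvstep_symm_apply {n : ℕ} {i₀ : Fin (n + 1)} {d : Fin (n + 1) → K} (hd : d 0 = 0)
    (y : Fin (n + 1) → K) (j : Fin (n + 1)) :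
    (cvstep_g i₀ d hd).symm y j = y (Equiv.swap 0 i₀ j) + y 0 * d (Equiv.swap 0 i₀ j) := rfl

private lemma cvstep_ball (hv : IsCDV K v) {n : ℕ} {i₀ : Fin (n + 1)} {d : Fin (n + 1) → K}
    (hd : d 0 = 0) (hd' : ∀ i, 0 ≤ v (d i)) (x : Fin (n + 1) → K) :
    cvstep_g i₀ d hd x ∈ ball hv (n + 1) 0 ↔ x ∈ ball hv (n + 1) 0 := by
  have hm : ∀ a b : K, 0 ≤ v a → 0 ≤ v b → 0 ≤ v (a * b) := by
    intro a b ha hb
    rw [hv.mul]
    exact add_nonneg ha hb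
  rw [mem_ball, mem_ball]
  constructor
  · intro h j
    have h1 : x = (cvstep_g i₀ d hd).symm (cvstep_g i₀ d hd x) := by
      rw [LinearEquiv.symm_apply_apply]
    rw [h1, cvstep_symm_apply]
    exact (le_min (h _) (hm _ _ (h 0) (hd' _))).trans (hv.add _ _)
  · intro h i
    rw [cvstep_g_apply]
    exact hv.sub (h _) (hm _ _ (h i₀) (hd' i))

/-- the vector with the coordinates `(0, y)` in the new order -/
private def cvstep_H {n : ℕ} (i₀ : Fin (n + 1)) (y : Fin n → K) : Fin (n + 1) → K :=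
  fun j => (Fin.cons 0 y : Fin (n + 1) → K) (Equiv.swap 0 i₀ j)

private lemma cvstep_H_succ {n : ℕ} (i₀ : Fin (n + 1)) (y : Fin n → K) (i : Fin n) :
    cvstep_H i₀ y (Equiv.swap 0 i₀ i.succ) = y i := by
  show (Fin.cons 0 y : Fin (n + 1) → K) (Equiv.swap 0 i₀ (Equiv.swap 0 i₀ i.succ)) = y i
  rw [Equiv.swap_apply_self, Fin.cons_succ]

private lemma cvstep_H_or {n : ℕ} (i₀ : Fin (n + 1)) (y : Fin n → K) (j : Fin (n + 1)) :
    cvstep_H i₀ y j = 0 ∨ ∃ i, cvstep_H i₀ y j = y i := by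
  show (Fin.cons 0 y : Fin (n + 1) → K) (Equiv.swap 0 i₀ j) = 0 ∨
    ∃ i, (Fin.cons 0 y : Fin (n + 1) → K) (Equiv.swap 0 i₀ j) = y i
  generalize Equiv.swap 0 i₀ j = l
  refine Fin.cases (Or.inl rfl) (fun i => Or.inr ⟨i, rfl⟩) l

private lemma cvstep_H_add {n : ℕ} (i₀ : Fin (n + 1)) (y z : Fin n → K) :
    cvstep_H i₀ (y + z) = cvstep_H i₀ y + cvstep_H i₀ z := by
  funext j
  show (Fin.cons 0 (y + z) : Fin (n + 1) → K) (Equiv.swap 0 i₀ j) =
    (Fin.cons 0 y : Fin (n + 1) → K) (Equiv.swap 0 i₀ j) +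
      (Fin.cons 0 z : Fin (n + 1) → K) (Equiv.swap 0 i₀ j)
  generalize Equiv.swap 0 i₀ j = l
  refine Fin.cases ?_ (fun i => ?_) l
  · rw [Fin.cons_zero, Fin.cons_zero, Fin.cons_zero, add_zero]
  · rw [Fin.cons_succ, Fin.cons_succ, Fin.cons_succ, Pi.add_apply]

private lemma cvstep_H_smul (hv : IsCDV K v) {n : ℕ} (i₀ : Fin (n + 1)) (a : OO hv)
    (y : Fin n → K) : cvstep_H i₀ (a • y) = a • cvstep_H i₀ y := by
  funext j
  show (Fin.cons 0 (a • y) : Fin (n + 1) → K) (Equiv.swap 0 i₀ j) =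
    (a : K) * (Fin.cons 0 y : Fin (n + 1) → K) (Equiv.swap 0 i₀ j)
  generalize Equiv.swap 0 i₀ j = l
  refine Fin.cases ?_ (fun i => ?_) l
  · rw [Fin.cons_zero, Fin.cons_zero, mul_zero]
  · rw [Fin.cons_succ, Fin.cons_succ, OO_smul]

private lemma cvstep_H_zero {n : ℕ} (i₀ : Fin (n + 1)) :
    cvstep_H i₀ (0 : Fin n → K) = 0 := by
  funext j
  rcases cvstep_H_or i₀ (0 : Fin n → K) j with h | ⟨i, h⟩
  · exact h
  · exact h

/-- the remaining lattice -/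
private def cvstep_N (hv : IsCDV K v) {n : ℕ} (i₀ : Fin (n + 1)) (N : MM hv (n + 1)) :
    MM hv n where
  carrier := {y | cvstep_H i₀ y ∈ N}
  add_mem' := by
    intro y z hy hz
    show cvstep_H i₀ (y + z) ∈ N
    rw [cvstep_H_add]
    exact N.add_mem hy hz
  zero_mem' := by
    show cvstep_H i₀ 0 ∈ N
    rw [cvstep_H_zero]
    exact N.zero_mem
  smul_mem' := by
    intro a y hy
    show cvstep_H i₀ (a • y) ∈ N
    rw [cvstep_H_smul]
    exact N.smul_mem a hy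

private lemma cvstep_mem (hv : IsCDV K v) {n : ℕ} {i₀ : Fin (n + 1)} {N : MM hv (n + 1)}
    {y : Fin n → K} : y ∈ cvstep_N hv i₀ N ↔ cvstep_H i₀ y ∈ N := Iff.rfl

/-- the main identity -/
private lemma cvstep_id {n : ℕ} {i₀ : Fin (n + 1)} {w : Fin (n + 1) → K} (hw : w i₀ ≠ 0)
    {d : Fin (n + 1) → K} (hd : d 0 = 0)
    (hd1 : ∀ i : Fin n, d i.succ = (w i₀)⁻¹ * w (Equiv.swap 0 i₀ i.succ)) (x : Fin (n + 1) → K)
    (j : Fin (n + 1)) : cvstep_H i₀ (fun i : Fin n => cvstep_g i₀ d hd x i.succ) j =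
      x j - x i₀ * (w i₀)⁻¹ * w j := by
  have hj : ∃ l, j = Equiv.swap 0 i₀ l := ⟨Equiv.swap 0 i₀ j, (Equiv.swap_apply_self _ _ _).symm⟩
  obtain ⟨l, rfl⟩ := hj
  refine Fin.cases ?_ (fun i => ?_) l
  · rw [Equiv.swap_apply_left, mul_assoc, inv_mul_cancel₀ hw, mul_one, sub_self]
    show (Fin.cons 0 _ : Fin (n + 1) → K) (Equiv.swap 0 i₀ i₀) = 0
    rw [Equiv.swap_apply_right, Fin.cons_zero]
  · rw [cvstep_H_succ, cvstep_g_apply, hd1, mul_assoc]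

theorem smith_step (hv : IsCDV K v) {n m : ℕ} {N : MM hv (n + 1)} (h1 : N ≤ ball hv (n + 1) 0)
    (h2 : ball hv (n + 1) (m : ℤ) ≤ N) :
    ∃ (g : (Fin (n + 1) → K) ≃ₗ[K] (Fin (n + 1) → K)) (c : ℕ) (N1 : MM hv n),
      (∀ x, g x ∈ ball hv (n + 1) 0 ↔ x ∈ ball hv (n + 1) 0) ∧ N1 ≤ ball hv n 0 ∧
      ball hv n (m : ℤ) ≤ N1 ∧
      ∀ x, x ∈ N ↔ ((c : ℤ) : WithTop ℤ) ≤ v (g x 0) ∧ (fun i : Fin n => g x i.succ) ∈ N1 := by
  obtain ⟨c, w, i₀, hw, hc, hmin⟩ := cvstep_min hv h1 h2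
  have hw0 : w i₀ ≠ 0 := hv.ne_zero hc
  obtain ⟨d, hd, hd1⟩ : ∃ d : Fin (n + 1) → K, d 0 = 0 ∧
      ∀ i : Fin n, d i.succ = (w i₀)⁻¹ * w (Equiv.swap 0 i₀ i.succ) :=
    ⟨Fin.cons 0 (fun i : Fin n => (w i₀)⁻¹ * w (Equiv.swap 0 i₀ i.succ)), Fin.cons_zero _ _,
      fun i => Fin.cons_succ _ _ i⟩
  have hd' : ∀ i, 0 ≤ v (d i) := by
    intro i
    refine Fin.cases ?_ (fun i => ?_) i
    · rw [hd, hv.zero]
      exact le_top
    · rw [hd1]
      refine (hv.div_nonneg hw0 ?_).2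
      rw [hc]
      exact hmin w hw _
  refine ⟨cvstep_g i₀ d hd, c, cvstep_N hv i₀ N, cvstep_ball hv hd hd', ?_, ?_, fun x => ?_⟩
  · intro y hy
    rw [mem_ball]
    intro i
    rw [← cvstep_H_succ i₀ y i]
    exact (mem_ball hv).1 (h1 ((cvstep_mem hv).1 hy)) _
  · intro y hy
    rw [cvstep_mem]
    apply h2
    rw [mem_ball] at hy ⊢
    intro j
    rcases cvstep_H_or i₀ y j with h | ⟨i, h⟩
    · rw [h, hv.zero]
      exact le_top
    · rw [h]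
      exact hy i
  · rw [cvstep_g_zero, cvstep_mem]
    constructor
    · intro hx
      have hb : 0 ≤ v (x i₀ * (w i₀)⁻¹) := by
        refine (hv.div_nonneg hw0 ?_).1
        rw [hc]
        exact hmin x hx _
      refine ⟨hmin x hx i₀, ?_⟩
      have h3 : cvstep_H i₀ (fun i : Fin n => cvstep_g i₀ d hd x i.succ) =
          x - (⟨x i₀ * (w i₀)⁻¹, hb⟩ : OO hv) • w := by
        funext j
        rw [cvstep_id hw0 hd hd1, Pi.sub_apply, OO_smul]
      rw [h3]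
      exact N.sub_mem hx (N.smul_mem _ hw)
    · rintro ⟨hx, hN⟩
      have hb : 0 ≤ v (x i₀ * (w i₀)⁻¹) := by
        refine (hv.div_nonneg hw0 ?_).1
        rw [hc]
        exact hx
      have h3 : x = cvstep_H i₀ (fun i : Fin n => cvstep_g i₀ d hd x i.succ) +
          (⟨x i₀ * (w i₀)⁻¹, hb⟩ : OO hv) • w := by
        funext j
        rw [Pi.add_apply, cvstep_id hw0 hd hd1, OO_smul, sub_add_cancel]
      rw [h3]
      exact N.add_mem hN (N.smul_mem _ hw)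

end Pool.Agent.PLB
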