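import Pool.Agent.PLB.CvDefs

set_option autoImplicit false

/-! Theorem PB, the converse: rules for the valuation of a division ring. -/

namespace Pool.Agent.PLB

universe u

variable {K : Type u} [DivisionRing K] {v : K → WithTop ℤ}

lemma IsCDV.ne_zero (hv : IsCDV K v) {a : K} {m : ℤ} (h : v a = (m : WithTop ℤ)) : a ≠ 0 := by
  rintro rfl
  rw [hv.zero] at h
  exact WithTop.top_ne_coe h

lemma IsCDV.inv (hv : IsCDV K v) {a : K} {m : ℤ} (h : v a = (m : WithTop ℤ)) :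
    v a⁻¹ = ((-m : ℤ) : WithTop ℤ) := by
  have ha := hv.ne_zero h
  obtain ⟨k, hk⟩ := hv.ex (inv_ne_zero ha)
  have h1 := hv.mul a a⁻¹
  rw [mul_inv_cancel₀ ha, hv.one, h, hk, ← WithTop.coe_add] at h1
  have h2 : (0 : ℤ) = m + k := WithTop.coe_inj.1 h1
  have h3 : k = -m := by omega
  rw [hk, h3]

/-- every integer is a value -/
lemma IsCDV.exists_val (hv : IsCDV K v) (m : ℤ) : ∃ p : K, v p = (m : WithTop ℤ) := by
  obtain ⟨t, ht⟩ := hv.surj
  have ht' : v t = ((1 : ℤ) : WithTop ℤ) := ht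
  induction m using Int.induction_on with
  | zero => exact ⟨1, hv.one⟩
  | succ n ih =>
    obtain ⟨p, hp⟩ := ih
    exact ⟨p * t, by rw [hv.mul, hp, ht', ← WithTop.coe_add]⟩
  | pred n ih =>
    obtain ⟨p, hp⟩ := ih
    refine ⟨p * t⁻¹, ?_⟩
    rw [hv.mul, hp, hv.inv ht', ← WithTop.coe_add]
    rfl

lemma IsCDV.sub (hv : IsCDV K v) {a b : K} {m : WithTop ℤ} (ha : m ≤ v a) (hb : m ≤ v b) :
    m ≤ v (a - b) := by
  rw [sub_eq_add_neg]
  exact (le_min ha (by rw [hv.neg]; exact hb)).trans (hv.add _ _)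

lemma IsCDV.sum (hv : IsCDV K v) {ι : Type*} (s : Finset ι) (f : ι → K) {m : WithTop ℤ}
    (h : ∀ i ∈ s, m ≤ v (f i)) : m ≤ v (∑ i ∈ s, f i) := by
  classical
  induction s using Finset.induction_on with
  | empty =>
    rw [Finset.sum_empty, hv.zero]
    exact le_top
  | insert a s ha ih =>
    rw [Finset.sum_insert ha]
    exact (le_min (h a (Finset.mem_insert_self a s))
      (ih fun i hi => h i (Finset.mem_insert_of_mem hi))).trans (hv.add _ _)

/-- multiplication from the left by an element of value `m` -/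
lemma IsCDV.le_mul_left (hv : IsCDV K v) {p a : K} {m k : ℤ} (hp : v p = (m : WithTop ℤ)) :
    (k : WithTop ℤ) ≤ v (p * a) ↔ ((k - m : ℤ) : WithTop ℤ) ≤ v a := by
  by_cases ha : a = 0
  · rw [ha, mul_zero, hv.zero]
    exact ⟨fun _ => le_top, fun _ => le_top⟩
  · obtain ⟨n, hn⟩ := hv.ex ha
    rw [hv.mul, hp, hn, ← WithTop.coe_add, WithTop.coe_le_coe, WithTop.coe_le_coe]
    omega

/-- multiplication from the right by an element of value `m` -/
lemma IsCDV.le_mul_right (hv : IsCDV K v) {p a : K} {m k : ℤ} (hp : v p = (m : WithTop ℤ)) :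
    (k : WithTop ℤ) ≤ v (a * p) ↔ ((k - m : ℤ) : WithTop ℤ) ≤ v a := by
  by_cases ha : a = 0
  · rw [ha, zero_mul, hv.zero]
    exact ⟨fun _ => le_top, fun _ => le_top⟩
  · obtain ⟨n, hn⟩ := hv.ex ha
    rw [hv.mul, hp, hn, ← WithTop.coe_add, WithTop.coe_le_coe, WithTop.coe_le_coe]
    omega

/-- two quotients: `v a ≥ v b` and `b ≠ 0` give `a b⁻¹, b⁻¹ a ∈ O` -/
lemma IsCDV.div_nonneg (hv : IsCDV K v) {a b : K} (hb : b ≠ 0) (h : v b ≤ v a) :
    0 ≤ v (a * b⁻¹) ∧ 0 ≤ v (b⁻¹ * a) := by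
  obtain ⟨n, hn⟩ := hv.ex hb
  rw [hn] at h
  have h1 : ((0 - -n : ℤ) : WithTop ℤ) ≤ v a := by
    rw [zero_sub, neg_neg]
    exact h
  exact ⟨(hv.le_mul_right (hv.inv hn)).2 h1, (hv.le_mul_left (hv.inv hn)).2 h1⟩

lemma mem_sg_iff (hv : IsCDV K v) {p : K} (hp : v p = 1) {n : ℕ} {N : MM hv n}
    {x : Fin n → K} : x ∈ sg hv N ↔ (fun i => p * x i) ∈ N := by
  rw [mem_sg]
  constructor
  · intro h
    exact h p hp.ge
  · intro h a ha
    have hp0 : p ≠ 0 := hv.ne_zero (m := 1) hp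
    have h1 : 0 ≤ v (a * p⁻¹) := (hv.div_nonneg hp0 (by rw [hp]; exact ha)).1
    have h2 := N.smul_mem (⟨a * p⁻¹, h1⟩ : OO hv) h
    have h3 : (⟨a * p⁻¹, h1⟩ : OO hv) • (fun i => p * x i) = fun i => a * x i := by
      funext i
      rw [OO_smul]
      change a * p⁻¹ * (p * x i) = a * x i
      rw [mul_assoc, inv_mul_cancel_left₀ hp0]
    rwa [h3] at h2

end Pool.Agent.PLB
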