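import Mathlib

set_option autoImplicit false

/-! Projective planes with a group of automorphisms (abstract part of Theorem PB, section 3):
definitions. -/

namespace Pool.Agent.PLB

/-- projective planes -/
structure IsPP {P H : Type*} (I : P → H → Prop) : Prop where
  line : ∀ p q, p ≠ q → ∃! l, I p l ∧ I q l
  point : ∀ l m, l ≠ m → ∃! p, I p l ∧ I p m
  three : ∀ l, ∃ p q r, I p l ∧ I q l ∧ I r l ∧ p ≠ q ∧ p ≠ r ∧ q ≠ r
  three' : ∀ p, ∃ l m n, I p l ∧ I p m ∧ I p n ∧ l ≠ m ∧ l ≠ n ∧ m ≠ n
  off : ∀ l, ∃ p, ¬ I p l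
  off' : ∀ p, ∃ l, ¬ I p l
  ex : Nonempty P
  ex' : Nonempty H

lemma IsPP.dual {P H : Type*} {I : P → H → Prop} (h : IsPP I) : IsPP (fun l p => I p l) :=
  ⟨h.point, h.line, h.three', h.three, h.off', h.off, h.ex', h.ex⟩

section

variable {P H G : Type*} [Group G] [MulAction G P] [MulAction G H]

/-- `g` fixes every point of the line `l` -/
def AxG (I : P → H → Prop) (l : H) (g : G) : Prop := ∀ p, I p l → g • p = p

/-- `g` fixes every line through the point `c` -/
def CeG (I : P → H → Prop) (c : P) (g : G) : Prop := ∀ m, I c m → g • m = m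

/-- elements with centre `c` and axis `l` -/
def El (G : Type*) [Group G] [MulAction G P] [MulAction G H] (I : P → H → Prop) (c : P) (l : H) :
    Subgroup G where
  carrier := {g | AxG I l g ∧ CeG I c g}
  mul_mem' := by
    rintro a b ⟨h1, h2⟩ ⟨h3, h4⟩
    exact ⟨fun p hp => by rw [mul_smul, h3 p hp, h1 p hp],
      fun m hm => by rw [mul_smul, h4 m hm, h2 m hm]⟩
  one_mem' := ⟨fun p _ => one_smul G p, fun m _ => one_smul G m⟩
  inv_mem' := by
    rintro a ⟨h1, h2⟩
    exact ⟨fun p hp => by rw [inv_smul_eq_iff, h1 p hp],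
      fun m hm => by rw [inv_smul_eq_iff, h2 m hm]⟩

/-- the set of elations with axis `l` -/
def Tr (G : Type*) [Group G] [MulAction G P] [MulAction G H] (I : P → H → Prop) (l : H) : Set G :=
  {g | ∃ c, I c l ∧ g ∈ El G I c l}

/-- a Moufang plane, with a faithful group `G` of automorphisms which contains all elations -/
structure MP (G : Type*) [Group G] [MulAction G P] [MulAction G H] (I : P → H → Prop) : Prop where
  pp : IsPP I
  inc : ∀ (g : G) (p : P) (l : H), I (g • p) (g • l) ↔ I p l
  faith : ∀ g : G, (∀ p : P, g • p = p) → g = 1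
  mou : ∀ (l : H) (p q : P), ¬ I p l → ¬ I q l → ∃ g : G, g ∈ Tr G I l ∧ g • p = q

/-- a triangle: `l j` is the side opposite to `e j` -/
structure Frame (I : P → H → Prop) where
  e : Fin 3 → P
  l : Fin 3 → H
  inc : ∀ i j, I (e i) (l j) ↔ i ≠ j

/-- the root group `U_ij`: centre `e i`, axis `l j` (matrices `1 + a E_ij`) -/
def U (G : Type*) [Group G] [MulAction G P] [MulAction G H] {I : P → H → Prop} (F : Frame I)
    (i j : Fin 3) : Subgroup G := El G I (F.e i) (F.l j)

/-- the dual triangle -/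
def Frame.dual {I : P → H → Prop} (F : Frame I) : Frame (fun l p => I p l) where
  e := F.l
  l := F.e
  inc i j := by rw [F.inc]; exact ne_comm

end

end Pool.Agent.PLB
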