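import Pool.Agent.PLB.FarB
import Pool.Agent.PLB.PP

set_option autoImplicit false

/-! Theorem PB, (1.5): every element above `x` is a join of cycles `r^i x`; automorphisms fixing points or lines.

PLAN. `le_of_cyc`: induction on the size of `[x, y]`. If `[x, y]` has two different coatoms `a`, `b` then `y = a ⊔ b` and
induction applies to `a` and `b`. If `[x, y]` has exactly one coatom then by SD' it has exactly one atom; then it is a
chain: let `p` be the atom, `y ⊓ s x = p` (an element of `[x, s x]` which is not an atom contains two atoms over `x`);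
two covers `w ≠ w' ≤ y` of `p` span a line of the plane `[p, s p]` which meets the coatom `s x` of `[p, s p]` in an atom over
`p`, below `y ⊓ s x`, contradiction; so `[p, y]` has one atom, and so on: `[x, y]` is a chain, a straight chain `Str`, so
`y = r^i x` for some point `r` (`str_ext`). (Alternatively use Helper87/ML: `Primary`.)
`fix_above`: if `g` fixes all `y ≥ x` then `g = 1`: for any `z`, `x ≤ s^k z` and `g` commutes with `s`.
`ax_pts`: `p^i x ≤ Hk h i x` (`inc_it`) is fixed, so `g • p = p` (`smul_eq_of_it`, `g x = x` by `k = 0`). `ax_of_pts`: `y` in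
`[x, Hk h k x]` is the join of the cycles `r^i x ≤ y`; for each of them `r^i x = p^i x` with `Inc p h` (`lift_on`; note
`r^i x ≤ Hk h k x ⊓ s^i x ≤ Hk h i x`). `cx_..`: duals. `le_of_mu`: if `x ≰ y`, `w = x ⊓ y < x`, take an atom `f w ≤ x` over
`w`: `mu f x > mu f w = min (mu f x) (mu f y)`, so `mu f y = mu f w < mu f x`. -/

namespace Pool.Agent.PLB

open Pool.Agent.Helper87.ML Pool.Agent.RIG OrderDual

universe u

variable {X : Type u} [Lattice X] [IsModularLattice X] {s : X ≃o X} [PB X s]

/-- an interval with one coatom is a chain -/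
private theorem cyca_chain {L : Type u} [Lattice L] (hF : LF L) (hSD : SD' L) (n : ℕ) :
    ∀ {x y b : L}, (Set.Icc x y).ncard = n → x ≤ b → b ⋖ y →
      (∀ a, x ≤ a → a ⋖ y → a = b) →
      ∀ u v, x ≤ u → u ≤ y → x ≤ v → v ≤ y → u ≤ v ∨ v ≤ u := by
  induction n using Nat.strong_induction_on with
  | _ n ih =>
    intro x y b hn hxb hby huniq u v hxu huy hxv hvy
    have hxy : x < y := hxb.trans_lt hby.lt
    obtain ⟨φ⟩ := hSD x y hxy.le
    -- the atom
    let bb : Set.Icc x y := ⟨b, hxb, hby.le⟩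
    let pp : Set.Icc x y := OrderDual.ofDual (φ bb)
    have hpp : ∀ w : Set.Icc x y, (w : L) ≠ x → pp ≤ w := by
      intro w hw
      obtain ⟨w', hw'⟩ := φ.surjective (OrderDual.toDual w)
      have h1 : (w' : L) ≠ y := by
        intro h2
        apply hw
        have h3 : (⟨x, le_rfl, hxy.le⟩ : Set.Icc x y) ≤ w' := w'.2.1
        have h4 : w' = (⟨y, hxy.le, le_rfl⟩ : Set.Icc x y) := Subtype.ext h2
        obtain ⟨z, hz⟩ := φ.surjective (OrderDual.toDual (⟨x, le_rfl, hxy.le⟩ : Set.Icc x y))
        have h5 : z ≤ w' := by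
          rw [h4]
          exact z.2.2
        have h6 := φ.monotone h5
        rw [hz, hw'] at h6
        have h7 : w ≤ (⟨x, le_rfl, hxy.le⟩ : Set.Icc x y) := h6
        exact le_antisymm h7 w.2.1
      have h2 : (w' : L) < y := lt_of_le_of_ne w'.2.2 h1
      obtain ⟨a, ha1, ha2⟩ := lf_cov' hF h2
      have h3 : a = b := huniq a (w'.2.1.trans ha1) ha2
      rw [h3] at ha1
      have h4 : w' ≤ bb := ha1
      have h5 := φ.monotone h4
      rw [hw'] at h5
      exact h5
    have hpx : (pp : L) ≠ x := by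
      intro h1
      have h2 : pp = (⟨x, le_rfl, hxy.le⟩ : Set.Icc x y) := Subtype.ext h1
      obtain ⟨z, hz⟩ := φ.surjective (OrderDual.toDual (⟨x, le_rfl, hxy.le⟩ : Set.Icc x y))
      have h3 : φ bb = φ z := by
        rw [hz, ← h2]
        rfl
      have h4 : bb = z := φ.injective h3
      have h5 : φ (⟨y, hxy.le, le_rfl⟩ : Set.Icc x y) ≥ φ z := by
        exact φ.monotone z.2.2
      rw [hz] at h5
      have h6 : OrderDual.ofDual (φ (⟨y, hxy.le, le_rfl⟩ : Set.Icc x y)) ≤
          (⟨x, le_rfl, hxy.le⟩ : Set.Icc x y) := h5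
      have h7 : OrderDual.ofDual (φ (⟨y, hxy.le, le_rfl⟩ : Set.Icc x y)) =
          (⟨x, le_rfl, hxy.le⟩ : Set.Icc x y) := le_antisymm h6
            (OrderDual.ofDual (φ (⟨y, hxy.le, le_rfl⟩ : Set.Icc x y))).2.1
      have h8 : φ (⟨y, hxy.le, le_rfl⟩ : Set.Icc x y) = φ z := by
        rw [hz, ← h7]
        rfl
      have h9 := φ.injective h8
      rw [← h4] at h9
      exact hby.lt.ne (congrArg Subtype.val h9).symm
    by_cases h1 : u = x
    · exact Or.inl (h1.le.trans hxv)
    by_cases h2 : v = x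
    · exact Or.inr (h2.le.trans hxu)
    have hpu : (pp : L) ≤ u := hpp ⟨u, hxu, huy⟩ h1
    have hpv : (pp : L) ≤ v := hpp ⟨v, hxv, hvy⟩ h2
    by_cases h3 : (pp : L) = y
    · exact Or.inl (huy.trans (h3.symm.le.trans hpv))
    have h4 : (pp : L) < y := lt_of_le_of_ne pp.2.2 h3
    have h5 : (pp : L) ≤ b := by
      obtain ⟨a, ha1, ha2⟩ := lf_cov' hF h4
      rw [← huniq a (pp.2.1.trans ha1) ha2]
      exact ha1
    have h6 : x < (pp : L) := lt_of_le_of_ne pp.2.1 (Ne.symm hpx)
    have h7 : (Set.Icc (pp : L) y).ncard < n := by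
      rw [← hn]
      apply Set.ncard_lt_ncard _ (hF x y)
      refine ⟨fun z hz => ⟨h6.le.trans hz.1, hz.2⟩, fun hcon => ?_⟩
      have := (hcon ⟨le_rfl, hxy.le⟩).1
      exact h6.not_ge this
    exact ih _ h7 rfl h5 hby (fun a ha1 ha2 => huniq a (h6.le.trans ha1) ha2) u v hpu huy hpv hvy

theorem le_of_cyc (s : X ≃o X) [PB X s] {x y w : X} (hxy : x ≤ y)
    (h : ∀ (r : Pt s) (i : ℕ), r.1^[i] x ≤ y → r.1^[i] x ≤ w) : y ≤ w := by
  have hF : LF X := PB.fin s
  have hSD : SD' X := PB.sd s
  have key : ∀ (n : ℕ) (y : X), (Set.Icc x y).ncard = n → x ≤ y →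
      (∀ (r : Pt s) (i : ℕ), r.1^[i] x ≤ y → r.1^[i] x ≤ w) → y ≤ w := by
    intro n
    induction n using Nat.strong_induction_on with
    | _ n ih =>
      intro y hn hxy h
      rcases eq_or_lt_of_le hxy with h0 | h0
      · obtain ⟨p, m, hp, _, _⟩ := plane_chain4 (PB.pl (s := s) x)
        obtain ⟨f, _⟩ := thru (s := s) hp
        have h1 := h f 0 hxy
        rw [← h0]
        exact h1
      · obtain ⟨a, ha1, ha2⟩ := lf_cov' hF h0
        have hlt : ∀ a, x ≤ a → a ⋖ y → (Set.Icc x a).ncard < n := by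
          intro a ha1 ha2
          rw [← hn]
          apply Set.ncard_lt_ncard _ (hF x y)
          refine ⟨fun z hz => ⟨hz.1, hz.2.trans ha2.le⟩, fun hcon => ?_⟩
          exact ha2.lt.not_ge (hcon ⟨hxy, le_rfl⟩).2
        have hle : ∀ a, x ≤ a → a ⋖ y → a ≤ w := fun a ha1 ha2 =>
          ih _ (hlt a ha1 ha2) a rfl ha1 fun r i hr => h r i (hr.trans ha2.le)
        by_cases h1 : ∀ b, x ≤ b → b ⋖ y → b = a
        · have h2 := cyca_chain hF hSD n hn ha1 ha2 h1
          have hfin : (Set.Icc x y).Finite := hF x y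
          have hne : (Set.Icc x y).Nonempty := ⟨x, le_rfl, hxy⟩
          have hpos : 0 < (Set.Icc x y).ncard := (Set.ncard_pos hfin).2 hne
          obtain ⟨m, hm⟩ : ∃ m, (Set.Icc x y).ncard = m + 1 := ⟨_, (Nat.succ_pred_eq_of_pos hpos).symm⟩
          have hCI : CI x y m := ⟨h2, hm⟩
          obtain ⟨v, hv0, hvm, hv⟩ := hCI.str hF (PB.up (s := s))
          have hm1 : 1 ≤ m := by
            by_contra h3
            have h4 : m = 0 := by omega
            rw [h4] at hvm
            rw [hv0] at hvm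
            exact h0.ne hvm
          obtain ⟨f, hf⟩ := str_ext (s := s) m v hv hm1
          have h5 := hf m le_rfl
          rw [hv0, hvm] at h5
          have h6 := h f m h5.le
          rw [h5] at h6
          exact h6
        · push Not at h1
          obtain ⟨b, hb1, hb2, hb3⟩ := h1
          have h2 : a ⊔ b = y := by
            rcases eq_or_lt_of_le (sup_le ha2.le hb2.le) with h3 | h3
            · exact h3
            · exfalso
              rcases eq_or_lt_of_le (le_sup_left : a ≤ a ⊔ b) with h4 | h4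
              · have h5 : b ≤ a := by
                  rw [h4]
                  exact le_sup_right
                rcases eq_or_lt_of_le h5 with h6 | h6
                · exact hb3 h6
                · exact hb2.2 h6 ha2.lt
              · exact ha2.2 h4 h3
          rw [← h2]
          exact sup_le (hle a ha1 ha2) (hle b hb1 hb2)
  exact key _ y rfl hxy h

theorem fix_above (s : X ≃o X) [PB X s] {g : X ≃o X} (x : X) (h : ∀ y, x ≤ y → g y = y) :
    g = 1 := by
  ext z
  obtain ⟨k, hk⟩ := PB.dir (s := s) x z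
  have h1 := h _ hk
  rw [aut_it s] at h1
  exact (s.injective.iterate k) h1

theorem eq_one_of_pts (s : X ≃o X) [PB X s] {g : X ≃o X} {x : X} (hx : g x = x)
    (h : ∀ f : Pt s, g • f = f) : g = 1 := by
  have h1 : ∀ (r : Pt s) (i : ℕ), g (r.1^[i] x) = r.1^[i] x := by
    intro r i
    have h2 := smul_it g r i x
    rw [h r, hx] at h2
    exact h2.symm
  refine fix_above s x fun y hy => le_antisymm ?_ ?_
  · have h2 : y ≤ g.symm y := by
      refine le_of_cyc s hy fun r i hr => ?_
      have h3 : r.1^[i] x = g.symm (r.1^[i] x) := by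
        rw [OrderIso.eq_symm_apply]
        exact h1 r i
      rw [h3]
      exact g.symm.monotone hr
    have h3 := g.monotone h2
    rwa [g.apply_symm_apply] at h3
  · refine le_of_cyc s hy fun r i hr => ?_
    rw [← h1 r i]
    exact g.monotone hr

theorem eq_one_of_triv (s : X ≃o X) [PB X s] {g : X ≃o X} {x : X}
    (h : ∀ k₀ : ℕ, ∃ k, k₀ ≤ k ∧ Triv g x (s^[k] x)) : g = 1 := by
  refine fix_above s x fun y hy => ?_
  obtain ⟨k, hk⟩ := PB.dir (s := s) y x
  obtain ⟨k', hk', h1⟩ := h k
  exact h1 y hy (hk.trans (Pool.Agent.RIG.it_le_it (PB.up (s := s)) hk' x))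

end Pool.Agent.PLB
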