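import Pool.Agent.PLB.CycA

set_option autoImplicit false

/-! Theorem PB, (1.5): automorphisms fixing points or lines; the plane at infinity.

PLAN. `ax_pts`: `p^i x ≤ Hk h i x` (`inc_it`) is fixed, so `g • p = p` (`smul_eq_of_it`, `g x = x` by `k = 0`). `ax_of_pts`: `y` in
`[x, Hk h k x]` is the join of the cycles `r^i x ≤ y` (`le_of_cyc`); for each of them `r^i x = p^i x` with `Inc p h`
(`lift_on`; note `r^i x ≤ Hk h k x ⊓ s^i x ≤ Hk h i x`, `Hk_inf`), so `g y ≥ y` and `g.symm y ≥ y`. `cx_lns`, `cx_of_lns`: duals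
(`ax_dual`, `cx_dual`; `g.dual`). `le_of_mu`: if `x ≰ y`, `w = x ⊓ y < x`, take an atom `f w ≤ x` over `w` (`thru`):
`mu f x > mu f w = min (mu f x) (mu f y)`, so `mu f y = mu f w < mu f x`. `isPP`: `exists_line`, `exists_point`, `three_on`
and its dual, `exists_off` and its dual. -/

namespace Pool.Agent.PLB

open Pool.Agent.Helper87.ML Pool.Agent.RIG OrderDual

universe u

variable {X : Type u} [Lattice X] [IsModularLattice X] {s : X ≃o X} [PB X s]

theorem ax_pts {g : X ≃o X} {h : Ln s} {x : X} (k : Ax h x g) {p : Pt s} (hp : Inc p h) :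
    g • p = p := by
  have hx : g x = x := k 0 x le_rfl (Hk_zero h x).ge
  refine smul_eq_of_it x (fun i => ?_)
  rw [hx]
  exact k i _ (it_le_it p (Nat.zero_le i) x) (inc_it hp i x)

theorem ax_of_pts {g : X ≃o X} {h : Ln s} {x : X} (hx : g x = x)
    (k : ∀ p : Pt s, Inc p h → g • p = p) : Ax h x g := by
  intro n y hxy hy
  have key : ∀ (r : Pt s) (i : ℕ), r.1^[i] x ≤ y → g (r.1^[i] x) = r.1^[i] x := by
    intro r i hri
    have h1 : r.1^[i] x ≤ Hk h i x := by
      have h2 : r.1^[i] x ≤ Hk h n x ⊓ s^[i] x := le_inf (hri.trans hy) (it_le_s r i x)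
      rw [Hk_inf] at h2
      exact h2.trans (Hk_le_Hk h (min_le_right n i) x)
    obtain ⟨p, hp, hpr⟩ := lift_on h1
    have h3 := smul_it g p i x
    rw [k p hp, hx, hpr] at h3
    exact h3.symm
  apply le_antisymm
  · have h1 : y ≤ g.symm y := by
      refine le_of_cyc s hxy (fun r i hri => ?_)
      rw [OrderIso.le_symm_apply, key r i hri]
      exact hri
    rw [OrderIso.le_symm_apply] at h1
    exact h1
  · refine le_of_cyc s hxy (fun r i hri => ?_)
    rw [← key r i hri]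
    exact g.monotone hri

theorem cx_lns {g : X ≃o X} {f : Pt s} {x : X} (k : Cx f x g) {h : Ln s} (hf : Inc f h) :
    g • h = h := by
  have h1 : Ax f.co (toDual x) (g.dual : Xᵒᵈ → Xᵒᵈ) := (ax_dual f x g).2 k
  have h2 : g.dual • h.pt = h.pt := ax_pts h1 ((inc_dual f h).2 hf)
  have h3 : (g • h).pt = h.pt := h2
  exact congrArg Pt.co' h3

theorem cx_of_lns {g : X ≃o X} {f : Pt s} {x : X} (hx : g x = x)
    (k : ∀ h : Ln s, Inc f h → g • h = h) : Cx f x g := by
  have hx' : g.dual (toDual x) = toDual x := congrArg toDual hx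
  have h1 : Ax f.co (toDual x) (g.dual : Xᵒᵈ → Xᵒᵈ) := by
    refine ax_of_pts hx' (fun p hp => ?_)
    have h2 : Inc f p.co' := (inc_dual f p.co').1 hp
    have h3 : g • p.co' = p.co' := k _ h2
    exact congrArg Ln.pt h3
  exact (ax_dual f x g).1 h1

theorem le_of_mu (s : X ≃o X) [PB X s] (o : X) {x y : X}
    (h : ∀ f : Pt s, mu o f x ≤ mu o f y) : x ≤ y := by
  by_contra hcon
  have hlt : x ⊓ y < x := lt_of_le_of_ne inf_le_left (fun he => hcon (inf_eq_left.1 he))
  obtain ⟨a, ha, hax⟩ := lf_cov (PB.fin s) hlt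
  obtain ⟨f, hf⟩ := thru (s := s) ha
  have h1 : mu o f (x ⊓ y) < mu o f x := by
    rw [← mu_lev o f inf_le_left, hf]
    exact hax
  rw [mu_inf, min_eq_left (h f)] at h1
  exact lt_irrefl _ h1

/-- the plane at infinity -/
theorem isPP (s : X ≃o X) [PB X s] [Nonempty X] : IsPP (Inc (s := s)) := by
  obtain ⟨x⟩ := (inferInstance : Nonempty X)
  obtain ⟨a, b, c, ⟨ha, -, -⟩, -⟩ := (PB.pl (s := s) x).2.2.2.2
  refine ⟨fun p q hpq => exists_line hpq, fun l m hlm => exists_point hlm, fun l => ?_,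
    fun p => ?_, fun l => ?_, fun p => ?_, ?_, ?_⟩
  · obtain ⟨p, q, r, h1, h2, h3, h4, h5, h6⟩ := three_on l x
    exact ⟨p, q, r, h1, h2, h3, fun h => h4 (by rw [h]), fun h => h5 (by rw [h]),
      fun h => h6 (by rw [h])⟩
  · obtain ⟨P, Q, R, h1, h2, h3, h4, h5, h6⟩ := three_on p.co (toDual x)
    refine ⟨P.co', Q.co', R.co', (inc_dual p P.co').1 h1, (inc_dual p Q.co').1 h2,
      (inc_dual p R.co').1 h3, fun h => h4 ?_, fun h => h5 ?_, fun h => h6 ?_⟩
    · have h7 : P = Q := congrArg Ln.pt h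
      rw [h7]
    · have h7 : P = R := congrArg Ln.pt h
      rw [h7]
    · have h7 : Q = R := congrArg Ln.pt h
      rw [h7]
  · obtain ⟨f, hf, -⟩ := exists_off l l x
    exact ⟨f, far_not_inc hf⟩
  · obtain ⟨h, hf, -⟩ := exists_off_co p p x
    exact ⟨h, far_not_inc hf⟩
  · obtain ⟨f, -⟩ := thru (s := s) ha
    exact ⟨f⟩
  · obtain ⟨l, -⟩ := thru_co (s := s) ha
    exact ⟨l⟩

end Pool.Agent.PLB
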