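import Pool.Agent.RIG.TR

set_option autoImplicit false

/-! Two-sided lattices of planes, their points and lines at infinity. -/

namespace Pool.Agent.PLB

open Pool.Agent.Helper87.ML Pool.Agent.RIG OrderDual

universe u

section Lat

variable {X : Type u} [Lattice X]

/-- two-sided lattices of planes (used together with `IsModularLattice X`) -/
class PB (X : Type u) [Lattice X] (s : X ≃o X) : Prop where
  fin : LF X
  sd : SD' X
  up : IsUp (s : X → X)
  pl : ∀ x, IsPlane x (s x)
  dir : ∀ x y : X, ∃ k : ℕ, x ≤ s^[k] y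

/-- the shift of the dual lattice -/
def dl (s : X ≃o X) : Xᵒᵈ ≃o Xᵒᵈ := s.symm.dual

/-- `f` is a point at infinity (model: `f x = x + (C ∩ s x)`) -/
structure IsEnd (s : X ≃o X) (f : X → X) : Prop where
  mono : Monotone f
  cov : ∀ x, x ⋖ f x
  str : ∀ x, ¬ f (f x) ≤ s x
  comm : ∀ x, f (s x) = s (f x)

/-- `h` is a line at infinity (model: `h x = (H ∩ x) + s⁻¹ x`) -/
structure IsCo (s : X ≃o X) (h : X → X) : Prop where
  mono : Monotone h
  cov : ∀ x, h x ⋖ x
  str : ∀ x, ¬ s.symm x ≤ h (h x)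
  comm : ∀ x, h (s x) = s (h x)

/-- points at infinity -/
def Pt (s : X ≃o X) : Type u := {f : X → X // IsEnd s f}

/-- lines at infinity -/
def Ln (s : X ≃o X) : Type u := {h : X → X // IsCo s h}

variable {s : X ≃o X}

@[ext] lemma Pt.ext {f g : Pt s} (h : ∀ x, f.1 x = g.1 x) : f = g := Subtype.ext (funext h)

@[ext] lemma Ln.ext {f g : Ln s} (h : ∀ x, f.1 x = g.1 x) : f = g := Subtype.ext (funext h)

/-- incidence -/
def Inc (f : Pt s) (h : Ln s) : Prop := ∀ x, f.1 x ≤ h.1 (s x)

/-- `f` and `h` are far at the base `x` -/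
def Far (f : Pt s) (h : Ln s) (x : X) : Prop := ¬ f.1 x ≤ h.1 (s x)

/-- `H_k(x)` (model: `(H ∩ s^k x) + x`) -/
def Hk (h : Ln s) (k : ℕ) (x : X) : X := h.1^[k] (s^[k] x)

/-- `F_k(x)` (model: `(C ∩ x) + s^-k x`) -/
def Fk (f : Pt s) (k : ℕ) (x : X) : X := f.1^[k] (s.symm^[k] x)

/-- levels for a point -/
structure IsMu (s : X ≃o X) (f : X → X) (m : X → ℤ) : Prop where
  mono : Monotone m
  sh : ∀ x, m (s x) = m x + 1
  inf : ∀ x y, m (x ⊓ y) = min (m x) (m y)
  lev : ∀ x y, x ≤ y → (f x ≤ y ↔ m x < m y)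

/-- levels for a line -/
structure IsNu (s : X ≃o X) (h : X → X) (n : X → ℤ) : Prop where
  mono : Monotone n
  sh : ∀ x, n (s x) = n x + 1
  sup : ∀ x y, n (x ⊔ y) = max (n x) (n y)
  lev : ∀ x y, x ≤ y → (x ≤ h y ↔ n x < n y)

open Classical in
/-- the level function of the point `f` with value `0` at `o` -/
noncomputable def mu (o : X) (f : Pt s) (x : X) : ℤ :=
  if h : ∃ m, IsMu s f.1 m ∧ m o = 0 then h.choose x else 0

open Classical in
/-- the level function of the line `h` with value `0` at `o` -/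
noncomputable def nu (o : X) (h : Ln s) (x : X) : ℤ :=
  if h : ∃ n, IsNu s h.1 n ∧ n o = 0 then h.choose x else 0

/-- `g` fixes all elements between `x` and the line `h` -/
def Ax (h : Ln s) (x : X) (g : X → X) : Prop := ∀ k y, x ≤ y → y ≤ Hk h k x → g y = y

/-- `g` fixes all elements between `x` and the point `f` -/
def Cx (f : Pt s) (x : X) (g : X → X) : Prop := ∀ k y, y ≤ x → Fk f k x ≤ y → g y = y

/-- `g` is the identity on `[a, b]` -/
def Triv (g : X → X) (a b : X) : Prop := ∀ y, a ≤ y → y ≤ b → g y = y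

/-- rank functions -/
structure IsRk (s : X ≃o X) (r : X → ℤ) : Prop where
  cov : ∀ x y, x ⋖ y → r y = r x + 1
  lt : ∀ x y, x < y → r x < r y
  mod : ∀ x y, r (x ⊔ y) + r (x ⊓ y) = r x + r y
  sh : ∀ x, r (s x) = r x + 3

/-- automorphisms preserving the rank -/
def Gp (X : Type u) [Lattice X] : Subgroup (X ≃o X) where
  carrier := {g | ∀ r : X → ℤ, (∀ x y, x ⋖ y → r y = r x + 1) → ∀ x, r (g x) = r x}
  mul_mem' := by
    intro a b ha hb r hr x
    show r (a (b x)) = r x
    rw [ha r hr, hb r hr]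
  one_mem' := fun r _ x => rfl
  inv_mem' := by
    intro a ha r hr x
    have h := ha r hr (a⁻¹ x)
    have e : a (a⁻¹ x) = x := a.apply_symm_apply x
    rw [e] at h
    exact h.symm

variable [IsModularLattice X] [PB X s]

omit [IsModularLattice X] in
lemma aut_comm (g : X ≃o X) (x : X) : g (s x) = s (g x) := by
  have h1 := (PB.up (s := s) x)
  have h2 := (PB.up (s := s) (g x))
  have h3 : IsLUB (insert (g x) {y | g x ⋖ y}) (g (s x)) := by
    have h4 := (OrderIso.isLUB_image' g (s := insert x {y | x ⋖ y}) (x := s x)).2 h1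
    have h5 : g '' insert x {y | x ⋖ y} = insert (g x) {y | g x ⋖ y} := by
      ext y
      simp only [Set.mem_image, Set.mem_insert_iff, Set.mem_ofPred_eq]
      constructor
      · rintro ⟨z, rfl | hz, rfl⟩
        · exact Or.inl rfl
        · exact Or.inr ((apply_covBy_apply_iff g).2 hz)
      · rintro (rfl | hy)
        · exact ⟨x, Or.inl rfl, rfl⟩
        · refine ⟨g.symm y, Or.inr ?_, g.apply_symm_apply y⟩
          rw [← apply_covBy_apply_iff g, g.apply_symm_apply]
          exact hy
    rwa [h5] at h4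
  exact h3.unique h2

omit [IsModularLattice X] in
lemma aut_comm_symm (g : X ≃o X) (x : X) : g (s.symm x) = s.symm (g x) := by
  apply s.injective
  rw [← aut_comm, s.apply_symm_apply, s.apply_symm_apply]

instance : SMul (X ≃o X) (Pt s) where
  smul g f := ⟨fun x => g (f.1 (g.symm x)), by
    refine ⟨fun x y h => ?_, fun x => ?_, fun x h => ?_, fun x => ?_⟩
    · exact g.monotone (f.2.mono (g.symm.monotone h))
    · have h := f.2.cov (g.symm x)
      rw [← apply_covBy_apply_iff g, g.apply_symm_apply] at h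
      exact h
    · rw [g.symm_apply_apply] at h
      have h1 : g (f.1 (f.1 (g.symm x))) ≤ g (s (g.symm x)) := by
        rw [aut_comm, g.apply_symm_apply]
        exact h
      exact f.2.str _ (g.le_iff_le.1 h1)
    · show g (f.1 (g.symm (s x))) = s (g (f.1 (g.symm x)))
      rw [aut_comm g.symm, f.2.comm, aut_comm]⟩

instance : SMul (X ≃o X) (Ln s) where
  smul g f := ⟨fun x => g (f.1 (g.symm x)), by
    refine ⟨fun x y h => ?_, fun x => ?_, fun x h => ?_, fun x => ?_⟩
    · exact g.monotone (f.2.mono (g.symm.monotone h))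
    · have h := f.2.cov (g.symm x)
      rw [← apply_covBy_apply_iff g, g.apply_symm_apply] at h
      exact h
    · rw [g.symm_apply_apply] at h
      have h1 : g (s.symm (g.symm x)) ≤ g (f.1 (f.1 (g.symm x))) := by
        rw [aut_comm_symm (s := s) g, g.apply_symm_apply]
        exact h
      exact f.2.str _ (g.le_iff_le.1 h1)
    · show g (f.1 (g.symm (s x))) = s (g (f.1 (g.symm x)))
      rw [aut_comm g.symm, f.2.comm, aut_comm]⟩

instance : MulAction (X ≃o X) (Pt s) where
  one_smul _ := rfl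
  mul_smul _ _ _ := rfl

instance : MulAction (X ≃o X) (Ln s) where
  one_smul _ := rfl
  mul_smul _ _ _ := rfl

end Lat

end Pool.Agent.PLB
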