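import Pool.Agent.PLB.Defs

set_option autoImplicit false

/-! Duality: points and lines of the dual lattice. (Definitions; the instance `PB Xᵒᵈ (dl s)` is
in `PLB/DuI.lean`.) -/

namespace Pool.Agent.PLB

open Pool.Agent.Helper87.ML Pool.Agent.RIG OrderDual

universe u

variable {X : Type u} [Lattice X] {s : X ≃o X}

lemma dl_apply (s : X ≃o X) (x : X) : dl s (toDual x) = toDual (s.symm x) := rfl

lemma dl_symm_apply (s : X ≃o X) (x : X) : (dl s).symm (toDual x) = toDual (s x) := rfl

lemma dl_it (s : X ≃o X) (k : ℕ) (x : X) : (dl s)^[k] (toDual x) = toDual (s.symm^[k] x) := by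
  induction k generalizing x with
  | zero => rfl
  | succ k ih => rw [Function.iterate_succ_apply, Function.iterate_succ_apply, dl_apply, ih]

lemma dl_symm_it (s : X ≃o X) (k : ℕ) (x : X) :
    (dl s).symm^[k] (toDual x) = toDual (s^[k] x) := by
  induction k generalizing x with
  | zero => rfl
  | succ k ih => rw [Function.iterate_succ_apply, Function.iterate_succ_apply, dl_symm_apply, ih]

/-- a point as a line of the dual lattice -/
def Pt.co (f : Pt s) : Ln (dl s) := ⟨fun x => toDual (f.1 (ofDual x)), by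
  refine ⟨fun x y h => ?_, fun x => ?_, fun x h => ?_, fun x => ?_⟩
  · exact toDual_le_toDual.2 (f.2.mono h)
  · exact (toDual_covBy_toDual_iff (a := ofDual x)).2 (f.2.cov (ofDual x))
  · exact f.2.str (ofDual x) (toDual_le_toDual.1 h)
  · show toDual (f.1 (s.symm (ofDual x))) = toDual (s.symm (f.1 (ofDual x)))
    congr 1
    apply s.injective
    rw [← f.2.comm, s.apply_symm_apply, s.apply_symm_apply]⟩

/-- a line as a point of the dual lattice -/
def Ln.pt (h : Ln s) : Pt (dl s) := ⟨fun x => toDual (h.1 (ofDual x)), by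
  refine ⟨fun x y h' => ?_, fun x => ?_, fun x h' => ?_, fun x => ?_⟩
  · exact toDual_le_toDual.2 (h.2.mono h')
  · exact (toDual_covBy_toDual_iff (b := ofDual x)).2 (h.2.cov (ofDual x))
  · exact h.2.str (ofDual x) (toDual_le_toDual.1 h')
  · show toDual (h.1 (s.symm (ofDual x))) = toDual (s.symm (h.1 (ofDual x)))
    congr 1
    apply s.injective
    rw [← h.2.comm, s.apply_symm_apply, s.apply_symm_apply]⟩

/-- a point of the dual lattice as a line -/
def Pt.co' (f : Pt (dl s)) : Ln s := ⟨fun x => ofDual (f.1 (toDual x)), by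
  refine ⟨fun x y h => ?_, fun x => ?_, fun x h => ?_, fun x => ?_⟩
  · exact f.2.mono h
  · exact (toDual_covBy_toDual_iff).1 (f.2.cov (toDual x))
  · exact f.2.str (toDual x) h
  · have h1 := f.2.comm (toDual (s x))
    rw [dl_apply, s.symm_apply_apply] at h1
    have h2 : ofDual (f.1 (toDual x)) = s.symm (ofDual (f.1 (toDual (s x)))) := congrArg ofDual h1
    show ofDual (f.1 (toDual (s x))) = s (ofDual (f.1 (toDual x)))
    rw [h2, s.apply_symm_apply]⟩

/-- a line of the dual lattice as a point -/
def Ln.pt' (f : Ln (dl s)) : Pt s := ⟨fun x => ofDual (f.1 (toDual x)), by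
  refine ⟨fun x y h => ?_, fun x => ?_, fun x h => ?_, fun x => ?_⟩
  · exact f.2.mono h
  · exact (toDual_covBy_toDual_iff).1 (f.2.cov (toDual x))
  · exact f.2.str (toDual x) h
  · have h1 := f.2.comm (toDual (s x))
    rw [dl_apply, s.symm_apply_apply] at h1
    have h2 : ofDual (f.1 (toDual x)) = s.symm (ofDual (f.1 (toDual (s x)))) := congrArg ofDual h1
    show ofDual (f.1 (toDual (s x))) = s (ofDual (f.1 (toDual x)))
    rw [h2, s.apply_symm_apply]⟩

@[simp] lemma Pt.co_pt' (f : Pt s) : f.co.pt' = f := rfl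
@[simp] lemma Ln.pt_co' (h : Ln s) : h.pt.co' = h := rfl
@[simp] lemma Pt.co'_pt (f : Pt (dl s)) : f.co'.pt = f := rfl
@[simp] lemma Ln.pt'_co (h : Ln (dl s)) : h.pt'.co = h := rfl

lemma Pt.co_apply (f : Pt s) (x : X) : f.co.1 (toDual x) = toDual (f.1 x) := rfl
lemma Ln.pt_apply (h : Ln s) (x : X) : h.pt.1 (toDual x) = toDual (h.1 x) := rfl

lemma Pt.co_it (f : Pt s) (k : ℕ) (x : X) : f.co.1^[k] (toDual x) = toDual (f.1^[k] x) := by
  induction k generalizing x with
  | zero => rfl
  | succ k ih => rw [Function.iterate_succ_apply, Function.iterate_succ_apply, f.co_apply, ih]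

lemma Ln.pt_it (h : Ln s) (k : ℕ) (x : X) : h.pt.1^[k] (toDual x) = toDual (h.1^[k] x) := by
  induction k generalizing x with
  | zero => rfl
  | succ k ih => rw [Function.iterate_succ_apply, Function.iterate_succ_apply, h.pt_apply, ih]

lemma Hk_co (f : Pt s) (k : ℕ) (x : X) : Hk f.co k (toDual x) = toDual (Fk f k x) := by
  unfold Hk Fk
  rw [dl_it, f.co_it]

lemma Fk_pt (h : Ln s) (k : ℕ) (x : X) : Fk h.pt k (toDual x) = toDual (Hk h k x) := by
  unfold Hk Fk
  rw [dl_symm_it, h.pt_it]

lemma ln_comm_symm (h : Ln s) (x : X) : h.1 (s.symm x) = s.symm (h.1 x) := by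
  apply s.injective
  rw [← h.2.comm, s.apply_symm_apply, s.apply_symm_apply]

lemma pt_comm_symm (f : Pt s) (x : X) : f.1 (s.symm x) = s.symm (f.1 x) := by
  apply s.injective
  rw [← f.2.comm, s.apply_symm_apply, s.apply_symm_apply]

/-- the dual incidence -/
lemma inc_dual (f : Pt s) (h : Ln s) : Inc h.pt f.co ↔ Inc f h := by
  constructor
  · intro k x
    have h1 := k (toDual (s x))
    rw [dl_apply, s.symm_apply_apply] at h1
    exact h1
  · intro k x
    show toDual (h.1 (ofDual x)) ≤ toDual (f.1 (s.symm (ofDual x)))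
    have h1 := k (s.symm (ofDual x))
    rw [s.apply_symm_apply] at h1
    exact toDual_le_toDual.2 h1

/-- `Far` at `x` is `Far` of the dual at `s x` -/
lemma far_dual (f : Pt s) (h : Ln s) (x : X) : Far h.pt f.co (toDual (s x)) ↔ Far f h x := by
  unfold Far
  rw [dl_apply, s.symm_apply_apply, f.co_apply, h.pt_apply, toDual_le_toDual]

lemma ax_dual (f : Pt s) (x : X) (g : X → X) :
    Ax f.co (toDual x) (fun y => toDual (g (ofDual y))) ↔ Cx f x g := by
  constructor
  · intro h k y h1 h2
    have h3 := h k (toDual y) (toDual_le_toDual.2 h1) (by rw [Hk_co]; exact toDual_le_toDual.2 h2)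
    exact congrArg ofDual h3
  · intro h k y h1 h2
    rw [Hk_co] at h2
    exact congrArg toDual (h k (ofDual y) h1 h2)

lemma cx_dual (h : Ln s) (x : X) (g : X → X) :
    Cx h.pt (toDual x) (fun y => toDual (g (ofDual y))) ↔ Ax h x g := by
  constructor
  · intro k' k y h1 h2
    have h3 := k' k (toDual y) (toDual_le_toDual.2 h1) (by rw [Fk_pt]; exact toDual_le_toDual.2 h2)
    exact congrArg ofDual h3
  · intro k' k y h1 h2
    rw [Fk_pt] at h2
    exact congrArg toDual (k' k (ofDual y) h1 h2)

lemma isNu_dual (f : Pt s) (m : X → ℤ) :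
    IsNu (dl s) f.co.1 (fun y => - m (ofDual y)) ↔ IsMu s f.1 m := by
  constructor
  · intro h
    refine ⟨fun x y hxy => ?_, fun x => ?_, fun x y => ?_, fun x y hxy => ?_⟩
    · have h1 := h.mono (toDual_le_toDual.2 hxy)
      simp only [ofDual_toDual] at h1
      linarith
    · have h1 := h.sh (toDual (s x))
      rw [dl_apply, s.symm_apply_apply] at h1
      simp only [ofDual_toDual] at h1
      linarith
    · have h1 := h.sup (toDual x) (toDual y)
      rw [← toDual_inf] at h1
      simp only [ofDual_toDual] at h1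
      rw [max_neg_neg] at h1
      linarith
    · have h1 := h.lev (toDual y) (toDual x) (toDual_le_toDual.2 hxy)
      rw [f.co_apply, toDual_le_toDual] at h1
      simp only [ofDual_toDual] at h1
      rw [h1]
      constructor <;> intro h2 <;> linarith
  · intro h
    refine ⟨fun x y hxy => ?_, fun x => ?_, fun x y => ?_, fun x y hxy => ?_⟩
    · have h1 := h.mono (ofDual_le_ofDual.2 hxy)
      show - m (ofDual x) ≤ - m (ofDual y)
      linarith
    · have h1 := h.sh (s.symm (ofDual x))
      rw [s.apply_symm_apply] at h1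
      show - m (s.symm (ofDual x)) = - m (ofDual x) + 1
      linarith
    · have h1 := h.inf (ofDual x) (ofDual y)
      show - m (ofDual x ⊓ ofDual y) = max (- m (ofDual x)) (- m (ofDual y))
      rw [h1, max_neg_neg]
    · have h1 := h.lev (ofDual y) (ofDual x) hxy
      show f.1 (ofDual y) ≤ ofDual x ↔ - m (ofDual x) < - m (ofDual y)
      rw [h1]
      constructor <;> intro h2 <;> linarith

lemma isMu_dual (h : Ln s) (m : X → ℤ) :
    IsMu (dl s) h.pt.1 (fun y => - m (ofDual y)) ↔ IsNu s h.1 m := by
  constructor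
  · intro k
    refine ⟨fun x y hxy => ?_, fun x => ?_, fun x y => ?_, fun x y hxy => ?_⟩
    · have h1 := k.mono (toDual_le_toDual.2 hxy)
      simp only [ofDual_toDual] at h1
      linarith
    · have h1 := k.sh (toDual (s x))
      rw [dl_apply, s.symm_apply_apply] at h1
      simp only [ofDual_toDual] at h1
      linarith
    · have h1 := k.inf (toDual x) (toDual y)
      rw [← toDual_sup] at h1
      simp only [ofDual_toDual] at h1
      rw [min_neg_neg] at h1
      linarith
    · have h1 := k.lev (toDual y) (toDual x) (toDual_le_toDual.2 hxy)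
      rw [h.pt_apply, toDual_le_toDual] at h1
      simp only [ofDual_toDual] at h1
      rw [h1]
      constructor <;> intro h2 <;> linarith
  · intro k
    refine ⟨fun x y hxy => ?_, fun x => ?_, fun x y => ?_, fun x y hxy => ?_⟩
    · have h1 := k.mono (ofDual_le_ofDual.2 hxy)
      show - m (ofDual x) ≤ - m (ofDual y)
      linarith
    · have h1 := k.sh (s.symm (ofDual x))
      rw [s.apply_symm_apply] at h1
      show - m (s.symm (ofDual x)) = - m (ofDual x) + 1
      linarith
    · have h1 := k.sup (ofDual x) (ofDual y)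
      show - m (ofDual x ⊔ ofDual y) = min (- m (ofDual x)) (- m (ofDual y))
      rw [h1, min_neg_neg]
    · have h1 := k.lev (ofDual y) (ofDual x) hxy
      show ofDual y ≤ h.1 (ofDual x) ↔ - m (ofDual x) < - m (ofDual y)
      rw [h1]
      constructor <;> intro h2 <;> linarith

end Pool.Agent.PLB
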