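import Pool.Agent.PLB.IdxA

set_option autoImplicit false

/-! Theorem PB, (2.9) and (2.10).

PLAN. `ela1`: `compact` at the base `x = x'` with `R j φ := (∀ y, x ≤ y → y ≤ Hk h j x → φ y = y) ∧
(∀ i ≤ j, φ (f^i x) = f'^i x) ∧ ∀ n, 2 * n ≤ j → ∀ y, Hk h n x ≤ y → y ≤ s^n (Hk h n x) → φ y = y`
(`s^n (Hk h n x) ≤ s^(2n) x`, `Hk_le_s`). Nonempty: let `g₀` be as in `ax_trans`, `idx` with `n = j`, `m = j`:
`g = g₀ b⁻¹` satisfies `Ax h x g`, `g (f^j x) = g₀ (f^j x) = f'^j x` (so `g (f^i x) = f'^i x` for `i ≤ j`: meet with `s^i x`),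
and `triv_mono`. `IIso` from `g` restricted to `[x, s^j x]` (`g x = x`). Conclusion: `smul_eq_of_it`.
`ela2`: `e` is far from `h` at `w = Hk h d x` for some `d` (`far_large`). For `n ≥ d` put `z = Hk h n x = Hk h (n-d) w`
(`Hk_Hk`): far there; `lam` at the base `z` for the point `e`, with `m = n - d` (`g (e^i z) = e^i z` as `g • e = e` and
`g z = z`, `smul_it`): `Triv g (e^(n-d) z) (s^n ..)`, where `e^(n-d) z = e^(n-d) (Hk h (n-d) w) = s^(n-d) w` (`far_top`, `i = 0`).
So `Triv g w (s^n w)` (`triv_s`) for all `n ≥ d`; `eq_one_of_triv`. -/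

namespace Pool.Agent.PLB

open Pool.Agent.Helper87.ML Pool.Agent.RIG OrderDual

universe u

variable {X : Type u} [Lattice X] [IsModularLattice X] {s : X ≃o X} [PB X s]

theorem ela1 {f f' : Pt s} {h : Ln s} {x : X} (k : Far f h x) (k' : Far f' h x) :
    ∃ g : X ≃o X, Ax h x g ∧ g • f = f' ∧ ∀ n, Triv g (Hk h n x) (s^[n] (Hk h n x)) := by
  have hs : IsUp (s : X → X) := PB.up (s := s)
  obtain ⟨g₀, hg₀, hgf⟩ := ax_trans k k'
  have hne : ∀ j, ∃ φ : IIso x (s^[j] x) x (s^[j] x),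
      (fun (j : ℕ) (φ : X → X) => (∀ y, x ≤ y → y ≤ Hk h j x → φ y = y) ∧
        (∀ i, i ≤ j → φ (f.1^[i] x) = f'.1^[i] x) ∧
        ∀ n, 2 * n ≤ j → ∀ y, Hk h n x ≤ y → y ≤ s^[n] (Hk h n x) → φ y = y) j φ.f := by
    intro j
    obtain ⟨g, b, e, -, hb2, hg1, hg2⟩ := idx k hg₀ j j
    have hgx : g x = x := hg1 0 x le_rfl le_rfl
    have hg₀x : g₀ x = x := hg₀ 0 x le_rfl le_rfl
    have hgsx : ∀ i, g (s^[i] x) = s^[i] x := fun i => by rw [aut_it, hgx]
    have hgj : g (f.1^[j] x) = f'.1^[j] x := by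
      have h1 : g₀ (f.1^[j] x) = g (b (f.1^[j] x)) := by
        rw [e]
        rfl
      rw [hb2] at h1
      rw [← h1, ← smul_it, hgf, hg₀x]
    let φ : IIso x (s^[j] x) x (s^[j] x) :=
      { f := g
        g := g.symm
        fm := by
          intro z h1 h2
          have h3 := g.monotone h1
          have h4 := g.monotone h2
          rw [hgx] at h3
          rw [hgsx] at h4
          exact ⟨h3, h4⟩
        gm := by
          intro z h1 h2
          constructor
          · rw [OrderIso.le_symm_apply, hgx]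
            exact h1
          · rw [OrderIso.symm_apply_le, hgsx]
            exact h2
        gf := fun z _ _ => g.symm_apply_apply z
        fg := fun z _ _ => g.apply_symm_apply z
        le := fun z w _ _ _ _ => g.le_iff_le }
    refine ⟨φ, fun y h1 h2 => hg1 j y h1 h2, fun i hi => ?_, fun n hn y h1 h2 => ?_⟩
    · show g (f.1^[i] x) = f'.1^[i] x
      have h1 := it_inf_s f j i x
      have h2 := it_inf_s f' j i x
      rw [min_eq_right hi] at h1 h2
      rw [← h1, ← h2, g.map_inf, hgj, hgsx]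
    · show g y = y
      exact triv_mono k hg1 (by omega : n ≤ j) hg2 y h1 h2
  obtain ⟨g, hgx, hR⟩ := compact s x x (fun (j : ℕ) (φ : X → X) =>
      (∀ y, x ≤ y → y ≤ Hk h j x → φ y = y) ∧
        (∀ i, i ≤ j → φ (f.1^[i] x) = f'.1^[i] x) ∧
        ∀ n, 2 * n ≤ j → ∀ y, Hk h n x ≤ y → y ≤ s^[n] (Hk h n x) → φ y = y) hne
    (by
      rintro j φ ⟨h1, h2, h3⟩
      refine ⟨fun y h4 h5 => h1 y h4 (h5.trans (Hk_le_Hk h (Nat.le_succ j) x)),
        fun i hi => h2 i (by omega), fun n hn => h3 n (by omega)⟩)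
    (by
      rintro j φ φ' he ⟨h1, h2, h3⟩
      refine ⟨fun y h4 h5 => ?_, fun i hi => ?_, fun n hn y h4 h5 => ?_⟩
      · rw [← he y h4 (h5.trans (Hk_le_s h j x))]
        exact h1 y h4 h5
      · rw [← he (f.1^[i] x) (it_le_it f (Nat.zero_le i) x)
          ((it_le_it f hi x).trans (it_le_s f j x))]
        exact h2 i hi
      · have h6 : s^[n] (Hk h n x) ≤ s^[j] x := by
          have h7 : s^[n] (Hk h n x) ≤ s^[n] (s^[n] x) :=
            (s.monotone.iterate n) (Hk_le_s h n x)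
          refine h7.trans ?_
          rw [← Function.iterate_add_apply]
          exact Pool.Agent.RIG.it_le_it hs (by omega) x
        rw [← he y ((le_Hk h n x).trans h4) (h5.trans h6)]
        exact h3 n hn y h4 h5)
  refine ⟨g, fun j => (hR j).1, smul_eq_of_it x fun i => ?_, fun n => (hR (2 * n)).2.2 n le_rfl⟩
  rw [hgx]
  exact (hR i).2.1 i le_rfl

theorem ela2 {h : Ln s} {x : X} {g : X ≃o X} (hg : Ax h x g)
    (hT : ∀ n, Triv g (Hk h n x) (s^[n] (Hk h n x))) {e : Pt s} (he : ¬ Inc e h)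
    (hge : g • e = e) : g = 1 := by
  obtain ⟨d, hd⟩ := far_large he x
  have hw : Far e h (Hk h d x) := hd d le_rfl
  refine eq_one_of_triv s (x := Hk h d x) fun n => ⟨n + d, Nat.le_add_right n d, ?_⟩
  have hz : Hk h n (Hk h d x) = Hk h (n + d) x := Hk_Hk h n d x
  have hgz : g (Hk h (n + d) x) = Hk h (n + d) x := hg (n + d) _ (le_Hk h (n + d) x) le_rfl
  have hfix : g (e.1^[n + (n + d)] (Hk h (n + d) x)) = e.1^[n + (n + d)] (Hk h (n + d) x) := by
    rw [← smul_it, hge, hgz]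
  have h1 := (lam (hd (n + d) (Nat.le_add_left d n)) (ax_Hk (n + d) hg) hfix).1 (hT (n + d))
  have h2 : e.1^[n] (Hk h (n + d) x) = s^[n] (Hk h d x) := by
    have h3 := far_top hw 0 n
    rw [Nat.zero_add, hz] at h3
    exact h3
  rw [h2] at h1
  have h4 : s^[n + d] (s^[n] (Hk h d x)) = s^[n] (s^[n + d] (Hk h d x)) := by
    rw [← Function.iterate_add_apply, ← Function.iterate_add_apply, Nat.add_comm]
  rw [h4] at h1
  exact (triv_s n _ _).1 h1

end Pool.Agent.PLB
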