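import Pool.Agent.PLB.PP

set_option autoImplicit false

/-! Abstract projective planes: a collineation with an axis has a centre; uniqueness.

PLAN. `axis_center`: `τ l = l` (two points of `l` are fixed). (a) If a point `x` off `l` is fixed take `c = x`: a line `m`
through `x` meets `l` in a fixed point. (b) Otherwise for `x` off `l` the line `m` through `x` and `σ x` is fixed (it meets `l`
in a point `p`; `τ m` contains `σ x` and `σ p = p`). Two such lines `m`, `m'` (different) meet in a fixed point, which is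
on `l`. Fix one `x` and put `c = m ∩ l`. A line `m'` through `c` different from `l` and `m` contains `y ≠ c` off `l`; the
line `y (σ y)` meets `m` in a fixed point of `l`, i.e. in `c`, so it is `m'`.
`center_fixed`: two lines through `c` are fixed. `el_unique`: `g` in `El c l` fixing `x` off `l`, `x ≠ c`: then every line
through `x` is fixed (it meets `l`), so every point `y` off the line `x c` is fixed (`y = xy ∩ cy`), then all points
(use another fixed point off the line `x c`). -/

namespace Pool.Agent.PLB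

private lemma ppx_line {P H : Type*} {I : P → H → Prop} (hI : IsPP I) {p q : P} {l m : H}
    (hpq : p ≠ q) (h1 : I p l) (h2 : I q l) (h3 : I p m) (h4 : I q m) : l = m :=
  (hI.line p q hpq).unique ⟨h1, h2⟩ ⟨h3, h4⟩

private lemma ppx_point {P H : Type*} {I : P → H → Prop} (hI : IsPP I) {p q : P} {l m : H}
    (hlm : l ≠ m) (h1 : I p l) (h2 : I p m) (h3 : I q l) (h4 : I q m) : p = q :=
  (hI.point l m hlm).unique ⟨h1, h2⟩ ⟨h3, h4⟩

private lemma ppx_fp {P H : Type*} {I : P → H → Prop} (hI : IsPP I) {σ : P → P} {τ : H → H}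
    (hst : ∀ p l, I (σ p) (τ l) ↔ I p l) {p : P} {l m : H} (hlm : l ≠ m) (h1 : I p l)
    (h2 : I p m) (hl : τ l = l) (hm : τ m = m) : σ p = p := by
  have h3 := (hst p l).2 h1
  have h4 := (hst p m).2 h2
  rw [hl] at h3
  rw [hm] at h4
  exact ppx_point hI hlm h3 h4 h1 h2

private lemma ppx_fl {P H : Type*} {I : P → H → Prop} (hI : IsPP I) {σ : P → P} {τ : H → H}
    (hst : ∀ p l, I (σ p) (τ l) ↔ I p l) {p q : P} {l : H} (hpq : p ≠ q) (h1 : I p l)
    (h2 : I q l) (hp : σ p = p) (hq : σ q = q) : τ l = l := by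
  have h3 := (hst p l).2 h1
  have h4 := (hst q l).2 h2
  rw [hp] at h3
  rw [hq] at h4
  exact ppx_line hI hpq h3 h4 h1 h2

private lemma ppx_ne {P H : Type*} {I : P → H → Prop} {x : P} {l m : H} (h1 : I x m)
    (h2 : ¬ I x l) : m ≠ l := by
  rintro rfl
  exact h2 h1

theorem axis_fixed {P H : Type*} {I : P → H → Prop} (hI : IsPP I) {σ : P → P} {τ : H → H}
    (hst : ∀ p l, I (σ p) (τ l) ↔ I p l) {l : H} (hl : ∀ p, I p l → σ p = p) : τ l = l := by
  obtain ⟨p, q, r, hp, hq, -, hpq, -, -⟩ := hI.three l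
  exact ppx_fl hI hst hpq hp hq (hl p hp) (hl q hq)

theorem axis_center {P H : Type*} {I : P → H → Prop} (hI : IsPP I) {σ : P → P} {τ : H → H}
    (hst : ∀ p l, I (σ p) (τ l) ↔ I p l) {l : H} (hl : ∀ p, I p l → σ p = p) :
    ∃ c, ∀ m, I c m → τ m = m := by
  have htl : τ l = l := axis_fixed hI hst hl
  by_cases hx : ∃ x, ¬ I x l ∧ σ x = x
  · obtain ⟨x, hxl, hsx⟩ := hx
    refine ⟨x, fun m hm => ?_⟩
    obtain ⟨p, ⟨hp1, hp2⟩, -⟩ := hI.point m l (ppx_ne hm hxl)
    have hpx : p ≠ x := by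
      rintro rfl
      exact hxl hp2
    exact ppx_fl hI hst hpx hp1 hm (hl p hp2) hsx
  · push Not at hx
    have key : ∀ x, ¬ I x l → ∃ m, I x m ∧ τ m = m := by
      intro x hxl
      obtain ⟨m, ⟨hm1, hm2⟩, -⟩ := hI.line x (σ x) (hx x hxl).symm
      refine ⟨m, hm1, ?_⟩
      obtain ⟨p, ⟨hp1, hp2⟩, -⟩ := hI.point m l (ppx_ne hm1 hxl)
      have h1 := (hst x m).2 hm1
      have h2 := (hst p m).2 hp1
      rw [hl p hp2] at h2
      have hne : σ x ≠ p := by
        intro e
        apply hxl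
        rw [← hst x l, e, htl]
        exact hp2
      exact ppx_line hI hne h1 h2 hm2 hp1
    obtain ⟨x0, hx0⟩ := hI.off l
    obtain ⟨m, hm1, hm2⟩ := key x0 hx0
    have hml := ppx_ne hm1 hx0
    obtain ⟨c, ⟨hc1, hc2⟩, -⟩ := hI.point m l hml
    refine ⟨c, fun m' hm' => ?_⟩
    by_cases e1 : m' = l
    · rw [e1]
      exact htl
    by_cases e2 : m' = m
    · rw [e2]
      exact hm2
    have hy : ∃ y, I y m' ∧ y ≠ c := by
      obtain ⟨p, q, r, hp, hq, -, hpq, -, -⟩ := hI.three m'
      by_cases hpc : p = c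
      · refine ⟨q, hq, ?_⟩
        rintro rfl
        exact hpq hpc
      · exact ⟨p, hp, hpc⟩
    obtain ⟨y, hy1, hyc⟩ := hy
    have hyl : ¬ I y l := fun h => e1 (ppx_line hI hyc hy1 hm' h hc2)
    have hym : ¬ I y m := fun h => e2 (ppx_line hI hyc hy1 hm' h hc1)
    obtain ⟨k, hk1, hk2⟩ := key y hyl
    have hkm : k ≠ m := ppx_ne hk1 hym
    obtain ⟨q, ⟨hq1, hq2⟩, -⟩ := hI.point k m hkm
    have hq3 : σ q = q := ppx_fp hI hst hkm hq1 hq2 hk2 hm2
    have hq4 : I q l := by
      by_contra h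
      exact hx q h hq3
    have hqc : q = c := ppx_point hI hml hq2 hq4 hc1 hc2
    rw [hqc] at hq1
    have hkm' : k = m' := ppx_line hI hyc hk1 hq1 hy1 hm'
    rw [← hkm']
    exact hk2

theorem center_fixed {P H : Type*} {I : P → H → Prop} (hI : IsPP I) {σ : P → P} {τ : H → H}
    (hst : ∀ p l, I (σ p) (τ l) ↔ I p l) {c : P} (hc : ∀ m, I c m → τ m = m) : σ c = c := by
  obtain ⟨l, m, n, hl, hm, -, hlm, -, -⟩ := hI.three' c
  exact ppx_fp hI hst hlm hl hm (hc l hl) (hc m hm)

/-- a central collineation which fixes one more point is trivial -/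
theorem central_trivial {P H : Type*} {I : P → H → Prop} (hI : IsPP I) {σ : P → P} {τ : H → H}
    (hst : ∀ p l, I (σ p) (τ l) ↔ I p l) {c x : P} {l : H} (hl : ∀ p, I p l → σ p = p)
    (hc : ∀ m, I c m → τ m = m) (hx : ¬ I x l) (hxc : x ≠ c) (hsx : σ x = x) :
    (∀ p, σ p = p) ∧ ∀ m, τ m = m := by
  have h1 : ∀ n, I x n → τ n = n := by
    intro n hn
    obtain ⟨p, ⟨hp1, hp2⟩, -⟩ := hI.point n l (ppx_ne hn hx)
    have hpx : p ≠ x := by
      rintro rfl
      exact hx hp2
    exact ppx_fl hI hst hpx hp1 hn (hl p hp2) hsx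
  obtain ⟨k, ⟨hk1, hk2⟩, -⟩ := hI.line x c hxc
  have h2 : ∀ y, ¬ I y k → σ y = y := by
    intro y hy
    have hyx : y ≠ x := by
      rintro rfl
      exact hy hk1
    have hyc : y ≠ c := by
      rintro rfl
      exact hy hk2
    obtain ⟨m, ⟨hm1, hm2⟩, -⟩ := hI.line y x hyx
    obtain ⟨n, ⟨hn1, hn2⟩, -⟩ := hI.line y c hyc
    have hmn : m ≠ n := by
      rintro rfl
      have e := ppx_line hI hxc hm2 hn2 hk1 hk2
      rw [e] at hm1
      exact hy hm1
    exact ppx_fp hI hst hmn hm1 hn1 (h1 m hm2) (hc n hn2)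
  have h3 : ∀ y, σ y = y := by
    intro y
    by_cases hy : I y k
    · obtain ⟨n, hn1, hnk⟩ : ∃ n, I y n ∧ n ≠ k := by
        obtain ⟨a, b, -, ha, hb, -, hab, -, -⟩ := hI.three' y
        by_cases hak : a = k
        · refine ⟨b, hb, ?_⟩
          rintro rfl
          exact hab hak
        · exact ⟨a, ha, hak⟩
      have h4 : ∀ z, I z n → z ≠ y → σ z = z := by
        intro z hz hzy
        exact h2 z fun hzk => hnk (ppx_line hI hzy hz hn1 hzk hy)
      have h5 : τ n = n := by
        obtain ⟨a, b, d, ha, hb, hd, hab, had, hbd⟩ := hI.three n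
        by_cases hay : a = y
        · have hby : b ≠ y := by
            rintro rfl
            exact hab hay
          have hdy : d ≠ y := by
            rintro rfl
            exact had hay
          exact ppx_fl hI hst hbd hb hd (h4 b hb hby) (h4 d hd hdy)
        · by_cases hby : b = y
          · have hdy : d ≠ y := by
              rintro rfl
              exact hbd hby
            exact ppx_fl hI hst had ha hd (h4 a ha hay) (h4 d hd hdy)
          · exact ppx_fl hI hst hab ha hb (h4 a ha hay) (h4 b hb hby)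
      exact ppx_fp hI hst hnk hn1 hy h5 (h1 k hk1)
    · exact h2 y hy
  refine ⟨h3, fun m => ?_⟩
  obtain ⟨p, q, r, hp, hq, -, hpq, -, -⟩ := hI.three m
  exact ppx_fl hI hst hpq hp hq (h3 p) (h3 q)

end Pool.Agent.PLB
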