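import Pool.Agent.PLB.ElaA
import Pool.Agent.PLB.PPx

set_option autoImplicit false

/-! Theorem PB, (2.11): elations at every base; the plane at infinity is a Moufang plane.

PLAN. `ela`: take `g` from `ela1`; `g x = x` (`Ax` with `k = 0`), so `g ∈ Gp X` (`fix_mem_Gp`). If `g = 1` any centre on `h`
(`isPP`, or `three_on`). Otherwise `g` fixes all points of `h` (`ax_pts`), so it has a centre `c` (`axis_center` with `isPP`,
`smul_inc`), `g • c = c` (`center_fixed`), and `c` is on `h` by `ela2`.
`faith`: let `x : X`, `g` trivial on points, so also on lines (a line is determined by two points on it).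
(a) For an elation `t ∈ Tr (Gp X) Inc h` with `t x = x`: `u = g t g⁻¹ t⁻¹` is trivial on points. `t` fixes all `y ≥ x` with
`nu h y = nu h x` (`ax_of_pts`, `ax_iff`) and `g t g⁻¹` fixes all `y ≥ g x` with `nu y = nu (g x)`. After a shift
(`ax_s`; both commute with `s`) the levels of `x` and `g x` agree and both fix `x ⊔ g x`. So `u` fixes a point and is trivial
on points: `u = 1` (`eq_one_of_pts`). Hence `t (g x) = g (t x) = g x`.
(b) Let `y = g x`. Let `w = s^j x` (`j` an integer) with `y ≤ s w`, not `y ≤ w`. `v = y ⊔ w` is fixed by all elations fixing `x`.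
If `v ≠ s w` it is an atom or a coatom of the plane `[w, s w]`; choose atoms `a ≤ v`, `b` not `≤ v`, points `f, f'` with
`f w = a`, `f' w = b`, a line `h` far from both at `w` (`exists_off_co`); `ela` at `w` gives `t` with `t w = w` (so `t x = x`),
`t a = b`, contradiction. So `y ⊔ w = s w`; if `y < s w` take `y ≤ m ⋖ s w`; `s w ≤ s m`, so `w ≤ m`, contradiction. So
`g x = s w = s^(j+1) x`, and the rank gives `g x = x`; `eq_one_of_pts`.
`mp`: `isPP`, `smul_inc`, `faith`, and `exists_far2` + `ela`. -/

namespace Pool.Agent.PLB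

open Pool.Agent.Helper87.ML Pool.Agent.RIG OrderDual

universe u

variable {X : Type u} [Lattice X] [IsModularLattice X] {s : X ≃o X} [PB X s]

private lemma elab_lines {g : X ≃o X} (h : ∀ f : Pt s, g • f = f) (l : Ln s) (x : X) :
    g • l = l := by
  obtain ⟨p, q, r, hp, hq, -, hpq, -, -⟩ := three_on l x
  have hne : p ≠ q := by
    rintro rfl
    exact hpq rfl
  have h1 := (smul_inc g p l).2 hp
  have h2 := (smul_inc g q l).2 hq
  rw [h p] at h1
  rw [h q] at h2
  exact (exists_line hne).unique ⟨h1, h2⟩ ⟨hp, hq⟩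

/-- shift two elements to the same level -/
private lemma elab_level (h : Ln s) (o x y : X) : ∃ a b : ℕ,
    nu o h (s^[a] x) = nu o h (s^[b] y) := by
  rcases le_total (nu o h x) (nu o h y) with h1 | h1
  · refine ⟨(nu o h y - nu o h x).toNat, 0, ?_⟩
    rw [nu_s, nu_s]
    have h2 : (((nu o h y - nu o h x).toNat : ℕ) : ℤ) = nu o h y - nu o h x :=
      Int.toNat_of_nonneg (by linarith)
    rw [h2]
    push_cast
    ring
  · refine ⟨0, (nu o h x - nu o h y).toNat, ?_⟩
    rw [nu_s, nu_s]
    have h2 : (((nu o h x - nu o h y).toNat : ℕ) : ℤ) = nu o h x - nu o h y :=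
      Int.toNat_of_nonneg (by linarith)
    rw [h2]
    push_cast
    ring

private lemma elab_comm {g : X ≃o X} (hg : ∀ f : Pt s, g • f = f) {t : X ≃o X} {h : Ln s} {x : X}
    (ht : Ax h x t) : t (g x) = g x := by
  have hl : g • h = h := elab_lines hg h x
  have htx : t x = x := ht 0 x le_rfl (by rw [Hk_zero])
  have h1 : Ax h (g x) (g * t * g⁻¹ : X ≃o X) := by
    have h2 := (ax_smul (s := s) (h := h) (x := x) g t).2 ht
    rw [hl] at h2
    exact h2
  obtain ⟨a, b, hab⟩ := elab_level h x x (g x)
  have h3 : Ax h (s^[a] x) t := (ax_s a).2 ht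
  have h4 : Ax h (s^[b] (g x)) (g * t * g⁻¹ : X ≃o X) := (ax_s b).2 h1
  rw [ax_iff x] at h3 h4
  have hsup : nu x h (s^[a] x ⊔ s^[b] (g x)) = nu x h (s^[a] x) := by
    rw [nu_sup, ← hab, max_self]
  have h5 := h3 _ le_sup_left hsup
  have h6 := h4 _ le_sup_right (hsup.trans hab)
  have h7 : (g * t * g⁻¹ * t⁻¹ : X ≃o X) = 1 := by
    refine eq_one_of_pts s (x := s^[a] x ⊔ s^[b] (g x)) ?_ ?_
    · have h8 : t⁻¹ (s^[a] x ⊔ s^[b] (g x)) = s^[a] x ⊔ s^[b] (g x) := by
        have h9 : t.symm (t (s^[a] x ⊔ s^[b] (g x))) = s^[a] x ⊔ s^[b] (g x) :=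
          t.symm_apply_apply _
        rw [h5] at h9
        exact h9
      show (g * t * g⁻¹ : X ≃o X) (t⁻¹ (s^[a] x ⊔ s^[b] (g x))) = _
      rw [h8]
      exact h6
    · intro f
      have hgi : ∀ f : Pt s, g⁻¹ • f = f := fun f => by
        rw [inv_smul_eq_iff, hg f]
      rw [mul_smul, mul_smul, mul_smul, hgi, hg, smul_inv_smul]
  have h8 : g * t = t * g := by
    have h9 : g * t * g⁻¹ = t := mul_inv_eq_one.1 h7
    calc g * t = (g * t * g⁻¹) * g := by group
      _ = t * g := by rw [h9]
  have h9 : (g * t) x = (t * g) x := by rw [h8]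
  have h10 : g (t x) = t (g x) := h9
  rw [htx] at h10
  exact h10.symm

theorem ela {f f' : Pt s} {h : Ln s} {x : X} (k : Far f h x) (k' : Far f' h x) :
    ∃ g : Gp X, (g : X ≃o X) x = x ∧ g ∈ Tr (Gp X) (Inc (s := s)) h ∧ g • f = f' := by
  haveI : Nonempty X := ⟨x⟩
  obtain ⟨g, hA, hgf, hT⟩ := ela1 k k'
  have hx : g x = x := hA 0 x le_rfl (by rw [Hk_zero])
  have hm : g ∈ Gp X := fix_mem_Gp s hx
  have hI : IsPP (Inc (s := s)) := isPP s
  have hst : ∀ (p : Pt s) (l : Ln s), Inc (g • p) (g • l) ↔ Inc p l := fun p l => smul_inc g p l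
  have hax : ∀ p : Pt s, Inc p h → g • p = p := fun p hp => ax_pts hA hp
  refine ⟨⟨g, hm⟩, hx, ?_, hgf⟩
  obtain ⟨c, hc⟩ := axis_center (σ := fun p : Pt s => g • p) (τ := fun l : Ln s => g • l) hI
    hst hax
  have hcc : g • c = c := center_fixed (σ := fun p : Pt s => g • p)
    (τ := fun l : Ln s => g • l) hI hst hc
  by_cases hch : Inc c h
  · exact ⟨c, hch, hax, hc⟩
  · have h1 : g = 1 := ela2 hA hT hch hcc
    obtain ⟨p, q, r, hp, -⟩ := hI.three h
    refine ⟨p, hp, hax, fun m _ => ?_⟩
    show g • m = m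
    rw [h1, one_smul]

theorem faith (s : X ≃o X) [PB X s] (g : Gp X) (h : ∀ f : Pt s, g • f = f) : g = 1 := by
  obtain ⟨g, hm⟩ := g
  have hg : ∀ f : Pt s, g • f = f := h
  apply Subtype.ext
  show g = 1
  by_cases hX : Nonempty X
  · obtain ⟨x⟩ := hX
    obtain ⟨r, hr⟩ := exists_rk s
    have hrx : r (g x) = r x := gp_rk hr hm x
    have hc : ∀ f f' : Pt s, mu x f (g x) = mu x f' (g x) := by
      intro f f'
      obtain ⟨l, k, k'⟩ := exists_off_co f f' x
      obtain ⟨t, ht, htf⟩ := ax_trans k k'
      have htx : t x = x := ht 0 x le_rfl (by rw [Hk_zero])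
      have h1 := mu_smul x f t (g x)
      rw [htf, htx, elab_comm hg ht] at h1
      exact h1.symm
    have h0 : ∀ f : Pt s, mu x f x = 0 := fun f => (mu_spec x f).2
    have key : g x = x := by
      by_cases hP : Nonempty (Pt s)
      · obtain ⟨f0⟩ := hP
        rcases le_total 0 (mu x f0 (g x)) with h1 | h1
        · obtain ⟨n, hn⟩ := Int.eq_ofNat_of_zero_le h1
          have h2 : g x = s^[n] x := by
            apply le_antisymm
            · refine le_of_mu s x fun f => ?_
              rw [mu_s, h0, hc f f0, hn]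
              simp
            · refine le_of_mu s x fun f => ?_
              rw [mu_s, h0, hc f f0, hn]
              simp
          have h3 := rk_s hr n x
          rw [← h2, hrx] at h3
          have h4 : n = 0 := by omega
          rw [h4] at h2
          exact h2
        · obtain ⟨n, hn⟩ := Int.eq_ofNat_of_zero_le (neg_nonneg.2 h1)
          have hn' : mu x f0 (g x) = - (n : ℤ) := by
            linarith
          have h2 : s^[n] (g x) = x := by
            apply le_antisymm
            · refine le_of_mu s x fun f => ?_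
              rw [mu_s, h0, hc f f0, hn']
              simp
            · refine le_of_mu s x fun f => ?_
              rw [mu_s, h0, hc f f0, hn']
              simp
          have h3 := rk_s hr n (g x)
          rw [h2, hrx] at h3
          have h4 : n = 0 := by omega
          rw [h4] at h2
          exact h2
      · apply le_antisymm
        · exact le_of_mu s x fun f => (hP ⟨f⟩).elim
        · exact le_of_mu s x fun f => (hP ⟨f⟩).elim
    exact eq_one_of_pts s key hg
  · ext x
    exact (hX ⟨x⟩).elim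

theorem mp (s : X ≃o X) [PB X s] [Nonempty X] : MP (Gp X) (Inc (s := s)) where
  pp := isPP s
  inc g p l := smul_inc (g : X ≃o X) p l
  faith g h := Pool.Agent.PLB.faith s g h
  mou l p q hp hq := by
    obtain ⟨x, k, k'⟩ := exists_far2 hp hq
    obtain ⟨g, -, hg, hgf⟩ := ela k k'
    exact ⟨g, hg, hgf⟩

end Pool.Agent.PLB
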