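import Pool.Agent.PLB.Defs

set_option autoImplicit false

/-! Theorem PB, (1.1): iterates of points at infinity.

PLAN. `end_str` is the definition (`Str`, RIG/Chain.lean: covers and straightness). `step`: `x ≤ y` gives `f x ≤ f y`
(monotone) and `y ⋖ f y`, `y < f x ⊔ y ≤ f y`. `it_le_s`: `x ⋖ f x` gives `f x ≤ s x` (`RIG.cov_le_s`), and `f`, `s` commute.
`it_inf_s`: `RIG.Str.inf_it` and `RIG.Str.le_it'`. `it_sup_s`: `f^j x ≤ s^j x` and `f^(j+1) x ≰ s^j x` (`RIG.Str.not_le_it`),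
then `step` repeatedly with `y = f^t (s^j x)`: show by induction `f^(j+t) x ⊔ s^j x = f^t (s^j x)`. `seg`: `RIG.Str.icc`.
The variable `s` in the RIG lemmas is the function `(s : X → X)`, `hF = PB.fin s`, `hs = PB.up`. -/

namespace Pool.Agent.PLB

open Pool.Agent.Helper87.ML Pool.Agent.RIG OrderDual

universe u

variable {X : Type u} [Lattice X] [IsModularLattice X] {s : X ≃o X} [PB X s]

theorem end_str (f : Pt s) (x : X) (m : ℕ) : Str (s : X → X) (fun i => f.1^[i] x) m := by
  constructor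
  · intro i _
    show f.1^[i] x ⋖ f.1^[i + 1] x
    rw [Function.iterate_succ_apply']
    exact f.2.cov _
  · intro i _
    show ¬ f.1^[i + 2] x ≤ s (f.1^[i] x)
    rw [Function.iterate_succ_apply', Function.iterate_succ_apply']
    exact f.2.str _

omit [IsModularLattice X] [PB X s] in
theorem it_s (f : Pt s) (i j : ℕ) (x : X) : f.1^[i] (s^[j] x) = s^[j] (f.1^[i] x) := by
  have h : Function.Commute f.1 (s : X → X) := fun y => f.2.comm y
  exact (h.iterate_iterate i j) x

omit [IsModularLattice X] [PB X s] in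
theorem it_symm (f : Pt s) (i j : ℕ) (x : X) :
    f.1^[i] (s.symm^[j] x) = s.symm^[j] (f.1^[i] x) := by
  have h : Function.Commute f.1 (s.symm : X → X) := fun y => by
    apply s.injective
    rw [← f.2.comm, s.apply_symm_apply, s.apply_symm_apply]
  exact (h.iterate_iterate i j) x

omit [IsModularLattice X] [PB X s] in
theorem it_mono (f : Pt s) (i : ℕ) {x y : X} (h : x ≤ y) : f.1^[i] x ≤ f.1^[i] y :=
  (f.2.mono.iterate i) h

omit [IsModularLattice X] [PB X s] in
private theorem enda_sm (f : Pt s) (x : X) : StrictMono (fun i => f.1^[i] x) := by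
  refine strictMono_nat_of_lt_succ fun i => ?_
  show f.1^[i] x < f.1^[i + 1] x
  rw [Function.iterate_succ_apply']
  exact (f.2.cov _).lt

omit [IsModularLattice X] [PB X s] in
theorem it_le_it (f : Pt s) {i j : ℕ} (h : i ≤ j) (x : X) : f.1^[i] x ≤ f.1^[j] x :=
  (enda_sm f x).monotone h

omit [IsModularLattice X] [PB X s] in
theorem it_lt (f : Pt s) {i j : ℕ} (x : X) : f.1^[i] x < f.1^[j] x ↔ i < j :=
  (enda_sm f x).lt_iff_lt

omit [IsModularLattice X] [PB X s] in
theorem it_inj (f : Pt s) {i j : ℕ} {x : X} (h : f.1^[i] x = f.1^[j] x) : i = j :=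
  (enda_sm f x).injective h

omit [IsModularLattice X] [PB X s] in
theorem step (f : Pt s) {x y : X} (h : x ≤ y) (h1 : ¬ f.1 x ≤ y) : f.1 x ⊔ y = f.1 y := by
  have h2 : f.1 x ⊔ y ≤ f.1 y := sup_le (f.2.mono h) (f.2.cov y).le
  have h3 : y < f.1 x ⊔ y := lt_of_le_of_ne le_sup_right fun e => h1 (e ▸ le_sup_left)
  rcases eq_or_lt_of_le h2 with h4 | h4
  · exact h4
  · exact absurd h4 ((f.2.cov y).2 h3)

theorem it_le_s (f : Pt s) (i : ℕ) (x : X) : f.1^[i] x ≤ s^[i] x := by
  have h := (end_str f x i).le_it' (PB.up (s := s)) 0 i (by omega)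
  simpa using h

theorem it_not_le_s (f : Pt s) (i : ℕ) (x : X) : ¬ f.1^[i + 1] x ≤ s^[i] x := by
  have h := (end_str f x (i + 1)).not_le_it (PB.fin s) (PB.up (s := s)) 0 i (by omega)
  simpa using h

theorem it_inf_s (f : Pt s) (i j : ℕ) (x : X) : f.1^[i] x ⊓ s^[j] x = f.1^[min i j] x := by
  rcases Nat.le_total i j with h | h
  · rw [min_eq_left h]
    exact inf_eq_left.2 ((it_le_it f h x).trans (it_le_s f j x))
  · rw [min_eq_right h]
    have h1 := (end_str f x i).inf_it (PB.fin s) (PB.up (s := s)) 0 j i (by omega) le_rfl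
    simpa using h1

theorem it_sup_s (f : Pt s) {i j : ℕ} (h : j ≤ i) (x : X) :
    f.1^[i] x ⊔ s^[j] x = f.1^[i - j] (s^[j] x) := by
  obtain ⟨t, rfl⟩ := Nat.exists_eq_add_of_le h
  rw [Nat.add_sub_cancel_left]
  induction t with
  | zero => exact sup_eq_right.2 (it_le_s f j x)
  | succ t ih =>
    have ih' := ih (by omega)
    have h1 : f.1^[j + t] x ≤ f.1^[t] (s^[j] x) := by
      rw [← ih']
      exact le_sup_left
    have h2 : ¬ f.1 (f.1^[j + t] x) ≤ f.1^[t] (s^[j] x) := by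
      rw [it_s, ← Function.iterate_succ_apply' f.1]
      have h3 := (end_str f x (t + j + 1)).not_le_it (PB.fin s) (PB.up (s := s)) t j le_rfl
      have e : (j + t).succ = t + j + 1 := by omega
      rw [e]
      exact h3
    have h3 := step f h1 h2
    rw [← Function.iterate_succ_apply' f.1, ← Function.iterate_succ_apply' f.1] at h3
    show f.1^[(j + t).succ] x ⊔ s^[j] x = f.1^[t.succ] (s^[j] x)
    rw [← h3, ← ih', ← sup_assoc, sup_eq_left.2 (it_le_it f (Nat.le_succ (j + t)) x)]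

theorem seg (f : Pt s) (k : ℕ) {x y : X} (h1 : x ≤ y) (h2 : y ≤ f.1^[k] x) :
    ∃ i ≤ k, y = f.1^[i] x := by
  obtain ⟨t, _, h3, h4⟩ := (end_str f x k).icc (PB.fin s) (PB.up (s := s)) k 0 k (by omega) le_rfl y
    h1 h2
  exact ⟨t, h3, h4⟩

/-- a cover of `x` below `f^k x` is `f x` -/
theorem atom_of_le (f : Pt s) (k : ℕ) {x a : X} (h1 : x ⋖ a) (h2 : a ≤ f.1^[k] x) :
    a = f.1 x := by
  obtain ⟨i, hi, rfl⟩ := seg f k h1.le h2
  rcases Nat.lt_trichotomy i 1 with h3 | h3 | h3
  · have h4 : i = 0 := by omega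
    subst h4
    exact absurd h1.lt (lt_irrefl _)
  · subst h3
    rfl
  · exact absurd ((it_lt f x).2 h3) (h1.2 ((it_lt (i := 0) f x).2 Nat.one_pos))

end Pool.Agent.PLB
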