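import Pool.Agent.PLB.IncA

set_option autoImplicit false

/-! Theorem PB, (1.6): points far from a line; levels and ranks.

Everything follows from the levels (`nu_lev`, `mu_lev`), `step` and the ranks.  `far_h` is the dual of
`far_f` (`far_dual`).  `far_inf`: the meet has the level of `x` and is some `f^i x`.  `far_sup`,
`far_comm`, `far_join`, `far_top`, `far_next`: inequality and equal ranks.  `mu_nu_le`: after a shift
`x ≤ y`, then `f^a x ≤ y` with `a = mu y - mu x`. -/

namespace Pool.Agent.PLB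

open Pool.Agent.Helper87.ML Pool.Agent.RIG OrderDual

universe u

variable {X : Type u} [Lattice X] [IsModularLattice X] {s : X ≃o X} [PB X s]

private lemma farA_f_le (f : Pt s) (x : X) : f.1 x ≤ s x := it_le_s f 1 x

private lemma farA_nu_s (o : X) (h : Ln s) (x : X) : nu o h (s x) = nu o h x + 1 := by
  have h1 := nu_s o h 1 x
  simpa using h1

private lemma farA_of_le (o : X) (f : Pt s) (h : Ln s) (x : X)
    (k : nu o h x + 1 ≤ nu o h (f.1 x)) : Far f h x := by
  intro h1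
  have h2 := (nu_lev o h (farA_f_le f x)).1 h1
  rw [farA_nu_s] at h2
  omega

theorem far_iff_nu (o : X) (f : Pt s) (h : Ln s) (x : X) :
    Far f h x ↔ nu o h (f.1 x) = nu o h x + 1 := by
  constructor
  · intro h1
    have h2 : ¬ nu o h (f.1 x) < nu o h (s x) := fun h3 =>
      h1 ((nu_lev o h (farA_f_le f x)).2 h3)
    have h3 := nu_mono o h (farA_f_le f x)
    rw [farA_nu_s] at h2 h3
    omega
  · intro h1
    exact farA_of_le o f h x h1.ge

theorem far_iff_mu (o : X) (f : Pt s) (h : Ln s) (x : X) :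
    Far f h x ↔ mu o f (Hk h 1 x) = mu o f x := by
  have h1 := mu_lev o f (le_Hk h 1 x)
  have h2 := mu_mono o f (le_Hk h 1 x)
  constructor
  · intro h3
    have h4 : ¬ mu o f x < mu o f (Hk h 1 x) := fun h5 => h3 (h1.2 h5)
    omega
  · intro h3 h4
    have h5 := h1.1 h4
    omega

omit [IsModularLattice X] [PB X s] in
theorem far_not_inc {f : Pt s} {h : Ln s} {x : X} (k : Far f h x) : ¬ Inc f h := fun h1 => k (h1 x)

theorem far_s (f : Pt s) (h : Ln s) (k : ℕ) (x : X) : Far f h (s^[k] x) ↔ Far f h x := by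
  have h1 : f.1 (s^[k] x) = s^[k] (f.1 x) := it_s f 1 k x
  rw [far_iff_nu x, far_iff_nu x, h1, nu_s, nu_s]
  constructor <;> intro h2 <;> omega

theorem far_symm (f : Pt s) (h : Ln s) (k : ℕ) (x : X) :
    Far f h (s.symm^[k] x) ↔ Far f h x := by
  have h1 : f.1 (s.symm^[k] x) = s.symm^[k] (f.1 x) := it_symm f 1 k x
  rw [far_iff_nu x, far_iff_nu x, h1, nu_symm, nu_symm]
  constructor <;> intro h2 <;> omega

theorem far_up (o : X) {f : Pt s} {h : Ln s} {x y : X} (hxy : x ≤ y)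
    (hn : nu o h y = nu o h x) (k : Far f h x) : Far f h y := by
  have h1 := (far_iff_nu o f h x).1 k
  have h2 := nu_mono o h (f.2.mono hxy)
  exact farA_of_le o f h y (by omega)

theorem far_down (o : X) {f : Pt s} {h : Ln s} {x y : X} (hyx : y ≤ x)
    (hn : mu o f y = mu o f x) (k : Far f h x) : Far f h y := by
  have h1 := (far_iff_mu o f h x).1 k
  have h2 := mu_mono o f (Hk_mono h 1 hyx)
  have h3 := mu_mono o f (le_Hk h 1 y)
  exact (far_iff_mu o f h y).2 (by omega)

theorem far_f {f : Pt s} {h : Ln s} {x : X} (k : Far f h x) (m : ℕ) :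
    Far f h (f.1^[m] x) := by
  induction m with
  | zero => exact k
  | succ m ih =>
    rw [Function.iterate_succ_apply']
    generalize f.1^[m] x = z at ih
    have h1 := (far_iff_nu z f h z).1 ih
    have h2 := step f (farA_f_le f z) (f.2.str z)
    have h3 := nu_sup z h (f.1 (f.1 z)) (s z)
    rw [h2, f.2.comm, farA_nu_s, farA_nu_s, h1] at h3
    refine farA_of_le z f h _ ?_
    rcases le_total (nu z h (f.1 (f.1 z))) (nu z h z + 1) with h4 | h4
    · rw [max_eq_right h4] at h3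
      omega
    · rw [max_eq_left h4] at h3
      omega

theorem far_h {f : Pt s} {h : Ln s} {x : X} (k : Far f h x) (m : ℕ) :
    Far f h (h.1^[m] x) := by
  have h1 := far_f ((far_dual f h x).2 k) m
  rw [Ln.pt_it] at h1
  have h2 : h.1^[m] (s x) = s (h.1^[m] x) := co_s h m 1 x
  rw [h2] at h1
  exact (far_dual f h _).1 h1

theorem far_Hk {f : Pt s} {h : Ln s} {x : X} (k : Far f h x) (m : ℕ) :
    Far f h (Hk h m x) := by
  exact far_h ((far_s f h m x).2 k) m

theorem far_nu (o : X) {f : Pt s} {h : Ln s} {x : X} (k : Far f h x) (m : ℕ) :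
    nu o h (f.1^[m] x) = nu o h x + m := by
  induction m with
  | zero => simp
  | succ m ih =>
    rw [Function.iterate_succ_apply', (far_iff_nu o f h _).1 (far_f k m), ih]
    push_cast
    ring

theorem far_mu (o : X) {f : Pt s} {h : Ln s} {x : X} (k : Far f h x) (m : ℕ) :
    mu o f (Hk h m x) = mu o f x := by
  induction m with
  | zero => rfl
  | succ m ih =>
    have h1 : Hk h (m + 1) x = Hk h 1 (Hk h m x) := by rw [Hk_Hk, add_comm]
    rw [h1, (far_iff_mu o f h _).1 (far_Hk k m), ih]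

theorem far_inf {f : Pt s} {h : Ln s} {x : X} (k : Far f h x) (i j : ℕ) :
    f.1^[i] x ⊓ Hk h j x = x := by
  have h0 : x ≤ f.1^[i] x := it_le_it f (Nat.zero_le i) x
  have h2 : x ≤ f.1^[i] x ⊓ Hk h j x := le_inf h0 (le_Hk h j x)
  obtain ⟨l, -, hl⟩ := seg f i h2 inf_le_left
  have h1 := nu_mono x h (inf_le_right : f.1^[i] x ⊓ Hk h j x ≤ Hk h j x)
  rw [hl, far_nu x k, nu_Hk] at h1
  have h3 : l = 0 := by omega
  rw [hl, h3]
  rfl

theorem far_sup {f : Pt s} {h : Ln s} {x : X} (k : Far f h x) (m : ℕ) :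
    f.1^[m] x ⊔ Hk h m x = s^[m] x := by
  obtain ⟨r, hr⟩ := exists_rk s
  have h1 := hr.mod (f.1^[m] x) (Hk h m x)
  rw [far_inf k, rk_it hr, rk_Hk hr] at h1
  refine rk_eq hr (sup_le (it_le_s f m x) (Hk_le_s h m x)) ?_
  rw [rk_s hr]
  omega

private lemma farA_rk {f : Pt s} {h : Ln s} {x : X} (k : Far f h x) {r : X → ℤ} (hr : IsRk s r)
    (i j : ℕ) : r (f.1^[i] x ⊔ Hk h j x) = r x + i + 2 * j := by
  have h1 := hr.mod (f.1^[i] x) (Hk h j x)
  rw [far_inf k, rk_it hr, rk_Hk hr] at h1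
  omega

theorem far_comm {f : Pt s} {h : Ln s} {x : X} (k : Far f h x) (i j : ℕ) :
    f.1^[i] (Hk h j x) = Hk h j (f.1^[i] x) := by
  obtain ⟨r, hr⟩ := exists_rk s
  have h1 : f.1^[i] x ⊔ Hk h j x = f.1^[i] (Hk h j x) := by
    refine rk_eq hr (sup_le (it_mono f i (le_Hk h j x)) (it_le_it f (Nat.zero_le i) _)) ?_
    rw [farA_rk k hr, rk_it hr, rk_Hk hr]
    omega
  have h2 : f.1^[i] x ⊔ Hk h j x = Hk h j (f.1^[i] x) := by
    refine rk_eq hr (sup_le (le_Hk h j _) (Hk_mono h j (it_le_it f (Nat.zero_le i) x))) ?_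
    rw [farA_rk k hr, rk_Hk hr, rk_it hr]
  rw [← h1, h2]

theorem far_join {f : Pt s} {h : Ln s} {x : X} (k : Far f h x) (i j : ℕ) :
    f.1^[i] x ⊔ Hk h j x = f.1^[i] (Hk h j x) := by
  obtain ⟨r, hr⟩ := exists_rk s
  refine rk_eq hr (sup_le (it_mono f i (le_Hk h j x)) (it_le_it f (Nat.zero_le i) _)) ?_
  rw [farA_rk k hr, rk_it hr, rk_Hk hr]
  omega

theorem far_top {f : Pt s} {h : Ln s} {x : X} (k : Far f h x) (i m : ℕ) :
    f.1^[i + m] (Hk h m x) = s^[m] (f.1^[i] x) := by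
  obtain ⟨r, hr⟩ := exists_rk s
  have h1 : f.1^[i + m] (Hk h m x) ≤ s^[m] (f.1^[i] x) := by
    rw [← far_join k, ← far_sup (far_f k i) m]
    refine sup_le ?_ ((Hk_mono h m (it_le_it f (Nat.zero_le i) x)).trans le_sup_right)
    rw [add_comm, Function.iterate_add_apply]
    exact le_sup_left
  refine rk_eq hr h1 ?_
  rw [rk_s hr, rk_it hr, rk_it hr, rk_Hk hr]
  push_cast
  omega

theorem far_next {f : Pt s} {h : Ln s} {x : X} (k : Far f h x) (m : ℕ) :
    f.1 (Hk h (m + 1) x) = s (Hk h m x) := by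
  have h1 : Hk h (m + 1) x = Hk h 1 (Hk h m x) := by rw [Hk_Hk, add_comm]
  rw [h1]
  exact far_top (far_Hk k m) 0 1

theorem mu_nu_le (o : X) {f : Pt s} {h : Ln s} {x : X} (k : Far f h x) (y : X) :
    mu o f y - mu o f x ≤ nu o h y - nu o h x := by
  obtain ⟨n, hn⟩ := PB.dir (s := s) x y
  have h1 := mu_mono o f hn
  have h2 := mu_s o f n y
  have h3 := nu_s o h n y
  obtain ⟨a, ha⟩ : ∃ a : ℕ, (a : ℤ) = mu o f (s^[n] y) - mu o f x :=
    ⟨(mu o f (s^[n] y) - mu o f x).toNat, Int.toNat_of_nonneg (by omega)⟩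
  have h4 : f.1^[a] x ≤ s^[n] y := (mu_lev_it o f hn a).2 (by omega)
  have h5 := nu_mono o h h4
  rw [far_nu o k] at h5
  omega

theorem mu_nu_eq (o : X) {f : Pt s} {h : Ln s} {x : X} (k : Far f h x) (y : X) :
    mu o f y - mu o f x = nu o h y - nu o h x ↔ Far f h y := by
  constructor
  · intro h1
    have h2 := mu_nu_le o k (f.1 y)
    have h3 : mu o f (f.1 y) = mu o f y + 1 := by
      have h4 := mu_f o f 1 y
      simpa using h4
    exact farA_of_le o f h y (by omega)
  · intro h1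
    have h2 := mu_nu_le o k y
    have h3 := mu_nu_le o h1 x
    omega

end Pool.Agent.PLB
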