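import Pool.Agent.PLB.FarA

set_option autoImplicit false

/-! Theorem PB, (1.6), continued: existence of far bases; behaviour under automorphisms.

PLAN. `far_large`: by `¬ Inc f h` (and `inc_iff_nu`) some `z` has `nu (f z) = nu z + 1`, i.e. `Far f h z`; after a shift
(`s^[k]` or `s.symm^[k]`, `far_s`, `far_symm`) `nu z = nu x`, so `z ≤ Hk h m x` for all large `m` (`exists_Hk`), and
`far_up` (`nu_Hk`). `exists_far2`: take `x` arbitrary and `m` large for both. Automorphisms: `(g • f).1 y = g (f.1 (g.symm y))`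
by definition, `aut_comm`, `aut_comm_symm`; `smul_eq_of_it`: `end_ext` at `g x` with `smul_it`; `smul_eq_of_co`: `co_ext_Hk`
with `smul_Hk`. -/

namespace Pool.Agent.PLB

open Pool.Agent.Helper87.ML Pool.Agent.RIG OrderDual

universe u

variable {X : Type u} [Lattice X] [IsModularLattice X] {s : X ≃o X} [PB X s]

private theorem farb_shift {f : Pt s} {h : Ln s} (k : ¬ Inc f h) (x : X) :
    ∃ z, nu x h z = nu x h x ∧ Far f h z := by
  obtain ⟨z, hz⟩ : ∃ z, Far f h z := not_forall.1 k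
  rcases le_total (nu x h z) (nu x h x) with h1 | h1
  · obtain ⟨n, hn⟩ := Int.eq_ofNat_of_zero_le (sub_nonneg.2 h1)
    refine ⟨s^[n] z, ?_, (far_s f h n z).2 hz⟩
    rw [nu_s]
    omega
  · obtain ⟨n, hn⟩ := Int.eq_ofNat_of_zero_le (sub_nonneg.2 h1)
    refine ⟨s.symm^[n] z, ?_, (far_symm f h n z).2 hz⟩
    rw [nu_symm]
    omega

theorem far_large {f : Pt s} {h : Ln s} (k : ¬ Inc f h) (x : X) :
    ∃ m₀, ∀ m, m₀ ≤ m → Far f h (Hk h m x) := by
  obtain ⟨z, h1, h2⟩ := farb_shift k x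
  obtain ⟨m₀, h3⟩ := exists_Hk x h (x := x) (y := z) h1.le
  refine ⟨m₀, fun m hm => ?_⟩
  refine far_up x (h3 m hm) ?_ h2
  rw [nu_Hk, h1]

theorem exists_far {f : Pt s} {h : Ln s} (k : ¬ Inc f h) : ∃ x, Far f h x := not_forall.1 k

theorem exists_far2 {f f' : Pt s} {h : Ln s} (k : ¬ Inc f h) (k' : ¬ Inc f' h) :
    ∃ x, Far f h x ∧ Far f' h x := by
  obtain ⟨x, -⟩ := exists_far k
  obtain ⟨m₁, h1⟩ := far_large k x
  obtain ⟨m₂, h2⟩ := far_large k' x
  exact ⟨Hk h (max m₁ m₂) x, h1 _ (le_max_left _ _), h2 _ (le_max_right _ _)⟩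

/-! automorphisms -/

theorem smul_apply (g : X ≃o X) (f : Pt s) (x : X) : (g • f).1 (g x) = g (f.1 x) := by
  show g (f.1 (g.symm (g x))) = _
  rw [g.symm_apply_apply]

private theorem farb_smul_ln (g : X ≃o X) (h : Ln s) (x : X) : (g • h).1 (g x) = g (h.1 x) := by
  show g (h.1 (g.symm (g x))) = _
  rw [g.symm_apply_apply]

theorem smul_it (g : X ≃o X) (f : Pt s) (k : ℕ) (x : X) :
    (g • f).1^[k] (g x) = g (f.1^[k] x) := by
  induction k generalizing x with
  | zero => rfl
  | succ k ih => rw [Function.iterate_succ_apply, Function.iterate_succ_apply, smul_apply, ih]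

theorem smul_it_ln (g : X ≃o X) (h : Ln s) (k : ℕ) (x : X) :
    (g • h).1^[k] (g x) = g (h.1^[k] x) := by
  induction k generalizing x with
  | zero => rfl
  | succ k ih => rw [Function.iterate_succ_apply, Function.iterate_succ_apply, farb_smul_ln, ih]

theorem aut_it (s : X ≃o X) [PB X s] (g : X ≃o X) (k : ℕ) (x : X) :
    g (s^[k] x) = s^[k] (g x) := by
  induction k generalizing x with
  | zero => rfl
  | succ k ih => rw [Function.iterate_succ_apply, Function.iterate_succ_apply, ih, aut_comm]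

private theorem farb_aut_symm (s : X ≃o X) [PB X s] (g : X ≃o X) (k : ℕ) (x : X) :
    g (s.symm^[k] x) = s.symm^[k] (g x) := by
  induction k generalizing x with
  | zero => rfl
  | succ k ih =>
    rw [Function.iterate_succ_apply, Function.iterate_succ_apply, ih, aut_comm_symm (s := s)]

theorem smul_Hk (g : X ≃o X) (h : Ln s) (k : ℕ) (x : X) : Hk (g • h) k (g x) = g (Hk h k x) := by
  unfold Hk
  rw [← aut_it s g k x, smul_it_ln]

theorem smul_Fk (g : X ≃o X) (f : Pt s) (k : ℕ) (x : X) : Fk (g • f) k (g x) = g (Fk f k x) := by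
  unfold Fk
  rw [← farb_aut_symm s g k x, smul_it]

private theorem farb_iff (g : X ≃o X) (f : Pt s) (h : Ln s) (x : X) :
    (g • f).1 (g x) ≤ (g • h).1 (s (g x)) ↔ f.1 x ≤ h.1 (s x) := by
  rw [smul_apply, ← aut_comm (s := s), farb_smul_ln, g.le_iff_le]

theorem smul_inc (g : X ≃o X) (f : Pt s) (h : Ln s) : Inc (g • f) (g • h) ↔ Inc f h := by
  constructor
  · intro k x
    exact (farb_iff g f h x).1 (k (g x))
  · intro k x
    have h1 := (farb_iff g f h (g.symm x)).2 (k (g.symm x))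
    rw [g.apply_symm_apply] at h1
    exact h1

theorem smul_far (g : X ≃o X) (f : Pt s) (h : Ln s) (x : X) :
    Far (g • f) (g • h) (g x) ↔ Far f h x := not_congr (farb_iff g f h x)

/-- `g • f = f'` can be checked on one ray -/
theorem smul_eq_of_it {g : X ≃o X} {f f' : Pt s} (x : X)
    (h : ∀ i, g (f.1^[i] x) = f'.1^[i] (g x)) : g • f = f' :=
  end_ext (g x) fun i => by rw [smul_it]; exact h i

theorem smul_eq_of_co {g : X ≃o X} {h h' : Ln s} (x : X)
    (k : ∀ i, g (Hk h i x) = Hk h' i (g x)) : g • h = h' :=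
  co_ext_Hk (g x) fun i => by rw [smul_Hk]; exact k i

end Pool.Agent.PLB
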