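import Pool.Agent.PLB.FnDefs

set_option autoImplicit false

/-! Theorem PB, section 7: the number of elements of `[z, s^i z]` is bounded.

`iter_le`: monotonicity of the iterates (`s_mono`, `le_s` of RIG/Shift.lean; compare RIG/Iter.lean).
`cov_card`: `block_iso` (RIG/Shift.lean) gives `IIso z (s z) y (s y)`; all covers of `z` are below `s z`
(`cov_le_s`), and `IIso` maps the covers of `z` below `s z` bijectively onto the covers of `y` below
`s y` (lemmas on `IIso` in RIG/Basic.lean).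
`card_bound`: induction on `i` with `B 0 = 1`.  For `y ∈ [z, s^(i+1) z]` let `w = y ⊓ s^i z`.  The interval
`[w, y]` is isomorphic to `[s^i z, y ⊔ s^i z]`, a part of the plane `[s^i z, s^(i+1) z]`, so `y` is reached
from `w` by at most three covers (first clause of `IsPlane`).  Every `x ≤ s^(i+1) z` has at most `c`
covers (`cov_card`: `s x ≤ s^(i+2) z`, this is where `i + 1 ≤ N` for the final level is used), so there
are at most `B i * (1 + c + c^2 + c^3)` elements `y`.  (`Set.ncard` of a finite union; or: the set of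
elements reachable from a finite set of `b` elements by one cover has at most `b * c` elements.) -/

namespace Pool.Agent.PLB

open Pool.Agent.Helper87.ML Pool.Agent.RIG

universe u

private lemma fnbd_cov {M : Type u} [Lattice M] {s : M → M} (hs : IsUp s) {a b : M}
    (φ : IIso a (s a) b (s b)) {p : M} (hp : a ⋖ p) : b ⋖ φ.f p := by
  have h1 := φ.cov le_rfl (cov_le_s hs hp) hp
  rwa [φ.bot (le_s hs a) (le_s hs b)] at h1

/-- one step: the covers of the elements of a finite set -/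
private lemma fnbd_step {M : Type u} [Lattice M] {z t : M} {c : ℕ} (A : Set M) (hA : A.Finite)
    (hAs : A ⊆ Set.Icc z t)
    (hc : ∀ q ∈ Set.Icc z t, {p | q ⋖ p}.Finite ∧ {p | q ⋖ p}.ncard ≤ c) :
    ∃ A' : Set M, A'.Finite ∧ A' ⊆ Set.Icc z t ∧ A ⊆ A' ∧
      (∀ q ∈ A, ∀ p, q ⋖ p → p ≤ t → p ∈ A') ∧ A'.ncard ≤ A.ncard * (1 + c) := by
  classical
  let F : M → Finset M := fun q => if h : {p | q ⋖ p}.Finite then h.toFinset else ∅
  have hF : ∀ q ∈ A, ∀ p, q ⋖ p → p ∈ F q := by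
    intro q hq p hp
    have h := (hc q (hAs hq)).1
    show p ∈ (if h : {p | q ⋖ p}.Finite then h.toFinset else ∅)
    rw [dif_pos h, Set.Finite.mem_toFinset]
    exact hp
  have hFc : ∀ q ∈ hA.toFinset, (F q).card ≤ c := by
    intro q hq
    rw [Set.Finite.mem_toFinset] at hq
    obtain ⟨h, h'⟩ := hc q (hAs hq)
    show (if h : {p | q ⋖ p}.Finite then h.toFinset else ∅ : Finset M).card ≤ c
    rw [dif_pos h, ← Set.ncard_eq_toFinset_card _ h]
    exact h'
  have hF' : ∀ q ∈ hA.toFinset, ∀ p ∈ F q, q ⋖ p := by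
    intro q hq p hp
    rw [Set.Finite.mem_toFinset] at hq
    have h := (hc q (hAs hq)).1
    have hp' : p ∈ (if h : {p | q ⋖ p}.Finite then h.toFinset else ∅ : Finset M) := hp
    rw [dif_pos h, Set.Finite.mem_toFinset] at hp'
    exact hp'
  let U : Finset M := hA.toFinset ∪ (hA.toFinset.biUnion F).filter fun p => p ≤ t
  refine ⟨(U : Set M), U.finite_toSet, ?_, ?_, ?_, ?_⟩
  · intro p hp
    rw [Finset.mem_coe, Finset.mem_union, Finset.mem_filter, Finset.mem_biUnion] at hp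
    rcases hp with hp | ⟨⟨q, hq, hp⟩, hpt⟩
    · exact hAs (hA.mem_toFinset.1 hp)
    · have h1 := hAs (hA.mem_toFinset.1 hq)
      exact ⟨h1.1.trans (hF' q hq p hp).le, hpt⟩
  · intro p hp
    rw [Finset.mem_coe, Finset.mem_union]
    exact Or.inl (hA.mem_toFinset.2 hp)
  · intro q hq p hp hpt
    rw [Finset.mem_coe, Finset.mem_union, Finset.mem_filter, Finset.mem_biUnion]
    exact Or.inr ⟨⟨q, hA.mem_toFinset.2 hq, hF q hq p hp⟩, hpt⟩
  · rw [Set.ncard_coe_finset, Set.ncard_eq_toFinset_card A hA, mul_add, mul_one]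
    refine (Finset.card_union_le _ _).trans (Nat.add_le_add_left ?_ _)
    exact (Finset.card_filter_le _ _).trans
      (Finset.card_biUnion_le_card_mul _ _ _ hFc)

/-- an element of the interval below the plane is at most three covers above the meet -/
private lemma fnbd_reach {M : Type u} [Lattice M] [IsModularLattice M] (hL : LF M) {t t' y : M}
    (hP : IsPlane t t') (hy : y ≤ t') : y ⊓ t = y ∨ (y ⊓ t ⋖ y) ∨
      (∃ a, y ⊓ t ⋖ a ∧ a ⋖ y) ∨ (∃ a b, y ⊓ t ⋖ a ∧ a ⋖ b ∧ b ⋖ y) := by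
  by_contra hcon
  push Not at hcon
  obtain ⟨h0, h1, h2, h3⟩ := hcon
  have hw : y ⊓ t ≤ y := inf_le_left
  obtain ⟨a1, ha1, ha1y⟩ := lf_cov hL (lt_of_le_of_ne hw h0)
  have n1 : a1 ≠ y := by
    rintro rfl
    exact h1 ha1
  obtain ⟨a2, ha2, ha2y⟩ := lf_cov hL (lt_of_le_of_ne ha1y n1)
  have n2 : a2 ≠ y := by
    rintro rfl
    exact h2 a1 ha1 ha2
  obtain ⟨a3, ha3, ha3y⟩ := lf_cov hL (lt_of_le_of_ne ha2y n2)
  have n3 : a3 ≠ y := by
    rintro rfl
    exact h3 a1 a2 ha1 ha2 ha3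
  have key : ∀ a, y ⊓ t ≤ a → a ≤ y → (a ⊔ t) ⊓ y = a := by
    intro a e1 e2
    rw [sup_inf_assoc_of_le t e2, inf_comm t y, sup_eq_left.2 e1]
  have lt' : ∀ a b, y ⊓ t ≤ a → a < b → b ≤ y → a ⊔ t < b ⊔ t := by
    intro a b e1 e2 e3
    refine lt_of_le_of_ne (sup_le_sup_right e2.le t) ?_
    intro e4
    have e5 := key a e1 (e2.le.trans e3)
    rw [e4, key b (e1.trans e2.le) e3] at e5
    exact e2.ne' e5
  have l0 : t < a1 ⊔ t := by
    have e := lt' (y ⊓ t) a1 le_rfl ha1.lt ha1y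
    rwa [sup_eq_right.2 (inf_le_right : y ⊓ t ≤ t)] at e
  have l1 := lt' a1 a2 ha1.le ha2.lt ha2y
  have l2 := lt' a2 a3 (ha1.le.trans ha2.le) ha3.lt ha3y
  have l3 := lt' a3 y (ha1.le.trans (ha2.le.trans ha3.le)) (lt_of_le_of_ne ha3y n3) le_rfl
  have ht : t ≤ t' := by
    obtain ⟨p, m, hp, hpm, hm⟩ := plane_chain4 hP
    exact hp.le.trans (hpm.le.trans hm.le)
  have l4 : y ⊔ t ≤ t' := sup_le hy ht
  rcases hP.1 (a2 ⊔ t) le_sup_right ((l2.trans l3).le.trans l4) with e | e | e | e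
  · exact (l0.trans l1).ne' e
  · exact e.2 l0 l1
  · exact e.2 l2 (l3.trans_le l4)
  · exact ((l2.trans l3).trans_le l4).ne e

lemma iter_le {M : Type u} [Lattice M] {s : M → M} {z : M} {N : ℕ} (h : GoodTo M s z N)
    {i k : ℕ} (hik : i ≤ k) : s^[i] z ≤ s^[k] z := it_le_it h.up hik z

lemma cov_card {M : Type u} [Lattice M] {s : M → M} {z : M} {N : ℕ} (h : GoodTo M s z N)
    {y : M} (hz : z ≤ y) (hy : s y ≤ s^[N] z) :
    {p | y ⋖ p}.Finite ∧ {p | y ⋖ p}.ncard = {p | z ⋖ p}.ncard := by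
  have hmod : IsModularLattice M := h.mod
  have hzz : s z ≤ s^[N] z := (s_mono h.up hz).trans hy
  obtain ⟨φ⟩ := block_iso h.fin h.sd h.up hz (h.pl z le_rfl hzz) (h.pl y hz hy)
  refine ⟨(h.fin y (s y)).subset fun p hp => ⟨hp.le, cov_le_s h.up hp⟩, ?_⟩
  symm
  refine Set.ncard_congr (fun p _ => φ.f p) ?_ ?_ ?_
  · intro p hp
    exact fnbd_cov h.up φ hp
  · intro p q hp hq e
    exact φ.inj hp.le (cov_le_s h.up hp) hq.le (cov_le_s h.up hq) e
  · intro p hp
    exact ⟨φ.g p, fnbd_cov h.up φ.symm hp, φ.fg p hp.le (cov_le_s h.up hp)⟩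

theorem card_bound (c i : ℕ) : ∃ B : ℕ, ∀ (M : Type u) [Lattice M] (s : M → M) (z : M) (N : ℕ),
    GoodTo M s z N → i + 1 ≤ N → {p | z ⋖ p}.ncard ≤ c → (Set.Icc z (s^[i] z)).ncard ≤ B := by
  induction i with
  | zero =>
    refine ⟨1, ?_⟩
    intro M _ s z N _ _ _
    rw [Function.iterate_zero, id, Set.Icc_self, Set.ncard_singleton]
  | succ i ih =>
    obtain ⟨B, hB⟩ := ih
    refine ⟨B * (1 + c) * (1 + c) * (1 + c), ?_⟩
    intro M _ s z N h hN hz
    have hmod : IsModularLattice M := h.mod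
    have h1 := hB M s z N h (by omega) hz
    have hle : s^[i] z ≤ s^[i + 1] z := iter_le h (Nat.le_succ i)
    have hc : ∀ q ∈ Set.Icc z (s^[i + 1] z), {p | q ⋖ p}.Finite ∧ {p | q ⋖ p}.ncard ≤ c := by
      intro q hq
      have h2 : s q ≤ s^[N] z := by
        refine (s_mono h.up hq.2).trans ?_
        rw [← Function.iterate_succ_apply' s (i + 1) z]
        exact iter_le h hN
      obtain ⟨h3, h4⟩ := cov_card h hq.1 h2
      exact ⟨h3, h4.le.trans hz⟩
    obtain ⟨A1, f1, s1, i1, c1, n1⟩ := fnbd_step (Set.Icc z (s^[i] z)) (h.fin _ _)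
      (Set.Icc_subset_Icc_right hle) hc
    obtain ⟨A2, f2, s2, i2, c2, n2⟩ := fnbd_step A1 f1 s1 hc
    obtain ⟨A3, f3, s3, i3, c3, n3⟩ := fnbd_step A2 f2 s2 hc
    have hP : IsPlane (s^[i] z) (s^[i + 1] z) := by
      rw [Function.iterate_succ_apply']
      apply h.pl _ (le_it h.up i z)
      rw [← Function.iterate_succ_apply' s i z]
      exact iter_le h (by omega)
    have hsub : Set.Icc z (s^[i + 1] z) ⊆ A3 := by
      intro y hy
      have hw : y ⊓ s^[i] z ∈ Set.Icc z (s^[i] z) :=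
        ⟨le_inf hy.1 (le_it h.up i z), inf_le_right⟩
      rcases fnbd_reach h.fin hP hy.2 with e | e | ⟨a, e1, e2⟩ | ⟨a, b, e1, e2, e3⟩
      · rw [e] at hw
        exact i3 (i2 (i1 hw))
      · exact i3 (i2 (c1 _ hw y e hy.2))
      · have m1 := c1 _ hw a e1 (e2.le.trans hy.2)
        exact i3 (c2 _ m1 y e2 hy.2)
      · have m1 := c1 _ hw a e1 (e2.le.trans (e3.le.trans hy.2))
        have m2 := c2 _ m1 b e2 (e3.le.trans hy.2)
        exact c3 _ m2 y e3 hy.2
    calc (Set.Icc z (s^[i + 1] z)).ncard ≤ A3.ncard := Set.ncard_le_ncard hsub f3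
      _ ≤ A2.ncard * (1 + c) := n3
      _ ≤ A1.ncard * (1 + c) * (1 + c) := Nat.mul_le_mul_right _ n2
      _ ≤ (Set.Icc z (s^[i] z)).ncard * (1 + c) * (1 + c) * (1 + c) :=
        Nat.mul_le_mul_right _ (Nat.mul_le_mul_right _ n1)
      _ ≤ B * (1 + c) * (1 + c) * (1 + c) :=
        Nat.mul_le_mul_right _ (Nat.mul_le_mul_right _ (Nat.mul_le_mul_right _ h1))

end Pool.Agent.PLB
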