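import Pool.Agent.PLB.FnDefs

set_option autoImplicit false

/-! Theorem PB, section 7: the iterates of the shift in `Lat K v`.

`sg_ball`: `sg (ball m) = ball (m - 1)`: `mem_sg_iff` with `v p = 1`, `le_mul_left`.
`emb_up`: `f` and `R` as in the proof of `converse` (Conv.lean): `f (s x) = sg (f x)`.  Let `y` be the
element with `f y = sg (f x)` (it exists: `R (sg (f x))`); `y` is the least upper bound of `x` and its
covers: upper bound by `cov_le_sg`, least by `up_of_plane`-type argument (`plane_sg`; or apply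
`up_of_plane` to the function `s'` with `f (s' x) = sg (f x)` for all `x`, exactly as in Conv.lean, and
uniqueness of least upper bounds `IsLUB.unique`).
`lat_iter`: take `f = e.toOrderEmbedding.trans f0`, `f0` from `exists_emb`; `f o = ball 0`, so
`f (s^[j] o) = ball (-j)` by induction; `x ≤ s^[j] o ↔ f x ≤ ball (-j)`; relate `f0 (e x)` with
`(e x).1`: use `exists_emb'` below (prove it as `exists_emb` in CvEmb.lean, with the same
embedding). -/

namespace Pool.Agent.PLB

open Pool.Agent.Helper87.ML Pool.Agent.Helper87.ML2 Pool.Agent.RIG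

universe u

/-- an element of `Lat` as an `O`-submodule -/
private def FnS_f {K : Type u} [DivisionRing K] {v : K → WithTop ℤ} (hv : IsCDV K v)
    (N : Lat K v) : MM hv 3 where
  carrier := N.1
  add_mem' := fun hx hy => N.1.add_mem hx hy
  zero_mem' := N.1.zero_mem
  smul_mem' := fun a x hx => N.2.1 x hx (a : K) a.2

lemma exists_emb' {K : Type u} [DivisionRing K] {v : K → WithTop ℤ} (hv : IsCDV K v) :
    ∃ f : Lat K v ↪o MM hv 3, (∀ N, (∃ x, f x = N) ↔ (ball hv 3 0 ≤ N ∧ IsLatt hv N)) ∧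
      ∀ (x : Lat K v) (w : Fin 3 → K), w ∈ f x ↔ w ∈ x.1 := by
  refine ⟨OrderEmbedding.ofMapLEIff (FnS_f hv) fun a b => Iff.rfl, fun N => ?_,
    fun x w => Iff.rfl⟩
  constructor
  · rintro ⟨x, rfl⟩
    have h0 : ball hv 3 0 ≤ FnS_f hv x := fun u hu => x.2.2.1 u fun i => hu i
    obtain ⟨n, hn⟩ := x.2.2.2
    refine ⟨h0, n, ?_, fun u hu i => hn u hu i⟩
    refine le_trans ?_ h0
    intro u hu i
    refine le_trans ?_ (hu i)
    rw [WithTop.coe_le_coe]
    exact Int.natCast_nonneg n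
  · rintro ⟨h0, m, _, hm⟩
    refine ⟨⟨N.toAddSubgroup, fun u hu a ha => ?_, fun u hu => h0 fun i => hu i,
      m, fun u hu i => hm hu i⟩, ?_⟩
    · exact N.smul_mem (⟨a, ha⟩ : OO hv) hu
    · ext x
      exact Iff.rfl

lemma sg_ball {K : Type u} [DivisionRing K] {v : K → WithTop ℤ} (hv : IsCDV K v) (n : ℕ)
    (m : ℤ) : sg hv (ball hv n m) = ball hv n (m - 1) := by
  obtain ⟨p, hp⟩ := hv.surj
  have hp' : v p = ((1 : ℤ) : WithTop ℤ) := hp
  ext x
  rw [mem_sg_iff hv hp, mem_ball, mem_ball]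
  refine forall_congr' fun i => ?_
  exact hv.le_mul_left hp'

theorem emb_up {K : Type u} [DivisionRing K] {v : K → WithTop ℤ} (hv : IsCDV K v)
    {L : Type u} [Lattice L] (f : L ↪o MM hv 3)
    (hf : ∀ N, (∃ x, f x = N) ↔ (ball hv 3 0 ≤ N ∧ IsLatt hv N)) {s : L → L} (hs : IsUp s)
    (x : L) : f (s x) = sg hv (f x) := by
  set R : MM hv 3 → Prop := fun N => ball hv 3 0 ≤ N ∧ IsLatt hv N with hRdef
  have hR : ∀ y, (∃ x, f x = y) ↔ R y := hf
  have hfR : ∀ x, R (f x) := fun x => (hR _).1 ⟨x, rfl⟩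
  have hconv : ∀ a b c, R a → R c → a ≤ b → b ≤ c → R b := fun a b c ha hc hab hbc =>
    ⟨ha.1.trans hab, ha.2.of_le hc.2 hab hbc⟩
  have hs' : ∀ x : L, ∃ y : L, f y = sg hv (f x) := fun x =>
    (hR _).2 ⟨(hfR x).1.trans (le_sg hv _), (hfR x).2.sg⟩
  choose s' hs' using hs'
  have h1 : ∀ x, IsPlane x (s' x) := by
    intro x
    obtain ⟨φ⟩ := emb_icc f R hR hconv x (s' x)
    have h2 : IsPlane (f x) (f (s' x)) := by
      rw [hs']
      exact plane_sg (hfR x).2
    have h3 : f x ≤ f (s' x) := by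
      rw [hs']
      exact le_sg hv _
    exact isPlane_congr h3 φ.symm h2
  have hup : IsUp s' := by
    refine up_of_plane h1 ?_
    intro x y hxy
    rw [← f.le_iff_le, hs']
    refine cov_le_sg (hfR x).2 (hfR y).2 (f.le_iff_le.2 hxy.le) ?_
    intro M h2 h3
    obtain ⟨z, hz⟩ := (hR M).2 (hconv _ _ _ (hfR x) (hfR y) h2 h3)
    rw [← hz] at h2 h3 ⊢
    rw [f.le_iff_le] at h2 h3
    rcases hxy.eq_or_eq h2 h3 with h4 | h4
    · left
      rw [h4]
    · right
      rw [h4]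
  have h2 : s x = s' x := (hs x).unique (hup x)
  rw [h2, hs']

theorem lat_iter {K : Type u} [DivisionRing K] {v : K → WithTop ℤ} (hv : IsCDV K v)
    {L : Type u} [Lattice L] (e : L ≃o Lat K v) {s : L → L} (hs : IsUp s) {o : L}
    (ho : ∀ x, o ≤ x) (j : ℕ) (x : L) :
    x ≤ s^[j] o ↔ ∀ w ∈ (e x).1, ∀ i, ((-(j : ℤ) : ℤ) : WithTop ℤ) ≤ v (w i) := by
  obtain ⟨f0, hf0, hm⟩ := exists_emb' hv
  obtain ⟨f, hf⟩ : ∃ f : L ↪o MM hv 3, f = e.toOrderEmbedding.trans f0 := ⟨_, rfl⟩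
  have hfe : ∀ y, f y = f0 (e y) := by
    intro y
    rw [hf]
    rfl
  have hR : ∀ y, (∃ x, f x = y) ↔ (ball hv 3 0 ≤ y ∧ IsLatt hv y) := by
    intro y
    refine Iff.trans ?_ (hf0 y)
    constructor
    · rintro ⟨x, hx⟩
      refine ⟨e x, ?_⟩
      rw [← hfe]
      exact hx
    · rintro ⟨x, hx⟩
      refine ⟨e.symm x, ?_⟩
      rw [hfe, e.apply_symm_apply]
      exact hx
  have h0 : f o = ball hv 3 0 := by
    apply le_antisymm
    · obtain ⟨y, hy⟩ := (hR (ball hv 3 0)).2 ⟨le_rfl, isLatt_ball hv 3 0⟩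
      rw [← hy, f.le_iff_le]
      exact ho y
    · exact ((hR (f o)).1 ⟨o, rfl⟩).1
  have hj : ∀ j : ℕ, f (s^[j] o) = ball hv 3 (-(j : ℤ)) := by
    intro j
    induction j with
    | zero =>
      rw [Function.iterate_zero, id, h0]
      simp
    | succ j ih =>
      rw [Function.iterate_succ_apply', emb_up hv f hR hs, ih, sg_ball]
      congr 1
      push_cast
      ring
  rw [← f.le_iff_le, hj j, hfe]
  constructor
  · intro h w hw i
    exact h ((hm (e x) w).2 hw) i
  · intro h w hw i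
    exact h w ((hm (e x) w).1 hw) i

end Pool.Agent.PLB
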