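import Pool.Agent.PLB.FnLat

set_option autoImplicit false

/-! Theorem PB, section 7: the shift of the limit.

`lim_cov`: if `a ≤ τ i` and `a ⋖ b` then `b ≤ τ (i + 1)`: let `b ≤ τ k`, `k ≥ i + 1`, `φ` from `app k`;
`φ a ⋖ φ b` in `M` (covers in an interval are covers), so `φ b ≤ s (φ a) ≤ s (s^i z)` (`cov_le_s`,
`s_mono`), which is `φ (τ (i + 1))`.
`lim_s`: `a ≤ τ i`, `φ` from `app (i + 1)`; `s (φ a) ≤ s^(i+1) z`; `c` = preimage of `s (φ a)`.  Upper bound: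
`lim_cov` and `cov_le_s`.  Least: if `d` is an upper bound of `a` and its covers so is the infimum
`d'` of `d` and `c`; all covers of `φ a` in `M` are below `s^(i+1) z` and are images of covers of `a`,
so `s (φ a) ≤ φ d'` (`s_le`) and `c ≤ d' ≤ d`.  The plane: `GoodTo.pl` for `φ a`
(`s (φ a) ≤ s^(i+1) z ≤ s^(i+2) z`) and `isPlane_congr` along `[a, c] ≃o [φ a, s (φ a)]`.
`lim_t`: the same with `a = τ k` (`c = τ (k + 1)` since `φ (τ (k + 1)) = s (φ (τ k))`). -/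

namespace Pool.Agent.PLB

open Pool.Agent.Helper87.ML Pool.Agent.Helper87.ML2 Pool.Agent.RIG

universe u

/-- covers in an interval are covers -/
private lemma fnUp_cov {L M : Type*} [PartialOrder L] [PartialOrder M] {u v : L} {u' v' : M}
    (φ : Set.Icc u v ≃o Set.Icc u' v') {a b : Set.Icc u v} (h : (a : L) ⋖ (b : L)) :
    (φ a : M) ⋖ (φ b : M) := by
  have h1 : a < b := h.1
  refine ⟨φ.lt_iff_lt.2 h1, ?_⟩
  intro x hx1 hx2
  obtain ⟨y, hy⟩ : ∃ y : Set.Icc u v, (φ y : M) = x :=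
    ⟨φ.symm ⟨x, (φ a).2.1.trans hx1.le, hx2.le.trans (φ b).2.2⟩, by rw [φ.apply_symm_apply]⟩
  rw [← hy] at hx1 hx2
  have h2 : a < y := φ.lt_iff_lt.1 hx1
  have h3 : y < b := φ.lt_iff_lt.1 hx2
  exact h.2 h2 h3

/-- restriction to a smaller interval -/
private lemma fnUp_icc {L M : Type*} [PartialOrder L] [PartialOrder M] {u v : L} {u' v' : M}
    (φ : Set.Icc u v ≃o Set.Icc u' v') (a c : Set.Icc u v) :
    Nonempty (Set.Icc (φ a : M) (φ c : M) ≃o Set.Icc (a : L) (c : L)) := by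
  have h1 : ∀ x : Set.Icc (φ a : M) (φ c : M), (x : M) ∈ Set.Icc u' v' := fun x =>
    ⟨(φ a).2.1.trans x.2.1, x.2.2.trans (φ c).2.2⟩
  have h2 : ∀ y : Set.Icc (a : L) (c : L), (y : L) ∈ Set.Icc u v := fun y =>
    ⟨a.2.1.trans y.2.1, y.2.2.trans c.2.2⟩
  refine ⟨{ toFun := fun x => ⟨(φ.symm ⟨x, h1 x⟩ : Set.Icc u v), ?_, ?_⟩
            invFun := fun y => ⟨(φ ⟨y, h2 y⟩ : Set.Icc u' v'), ?_, ?_⟩
            left_inv := ?_
            right_inv := ?_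
            map_rel_iff' := ?_ }⟩
  · have h3 : a ≤ φ.symm ⟨x, h1 x⟩ := by
      rw [← φ.le_iff_le, φ.apply_symm_apply]
      exact x.2.1
    exact h3
  · have h3 : φ.symm ⟨x, h1 x⟩ ≤ c := by
      rw [← φ.le_iff_le, φ.apply_symm_apply]
      exact x.2.2
    exact h3
  · have h3 : a ≤ ⟨y, h2 y⟩ := y.2.1
    exact φ.le_iff_le.2 h3
  · have h3 : (⟨y, h2 y⟩ : Set.Icc u v) ≤ c := y.2.2
    exact φ.le_iff_le.2 h3
  · intro x
    refine Subtype.ext ?_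
    show ((φ ⟨(φ.symm ⟨x, h1 x⟩ : Set.Icc u v), _⟩ : Set.Icc u' v') : M) = x
    rw [Subtype.coe_eta, φ.apply_symm_apply]
  · intro y
    refine Subtype.ext ?_
    show ((φ.symm ⟨(φ ⟨y, h2 y⟩ : Set.Icc u' v'), _⟩ : Set.Icc u v) : L) = y
    rw [Subtype.coe_eta, φ.symm_apply_apply]
  · intro x y
    have h3 : φ.symm ⟨x, h1 x⟩ ≤ φ.symm ⟨y, h1 y⟩ ↔
        (⟨x, h1 x⟩ : Set.Icc u' v') ≤ ⟨y, h1 y⟩ := φ.symm.le_iff_le
    exact h3

lemma lim_cov {L : Type} [PartialOrder L] {τ : ℕ → L} (h : Lim.{u} L τ) {a b : L} {i : ℕ}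
    (ha : a ≤ τ i) (hab : a ⋖ b) : b ≤ τ (i + 1) := by
  obtain ⟨k0, hk0⟩ := h.cof b
  obtain ⟨k, hk⟩ : ∃ k, k = max k0 (i + 1) := ⟨_, rfl⟩
  have hk1 : k0 ≤ k := by
    rw [hk]
    exact le_max_left _ _
  have hk2 : i + 1 ≤ k := by
    rw [hk]
    exact le_max_right _ _
  have hbk : b ≤ τ k := hk0.trans (h.mono hk1)
  obtain ⟨M, _, s, z, hg, φ, hφ⟩ := h.app k
  have := hg.mod
  have ha' : a ∈ Set.Icc (τ 0) (τ k) := ⟨h.bot a, hab.le.trans hbk⟩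
  have hb' : b ∈ Set.Icc (τ 0) (τ k) := ⟨h.bot b, hbk⟩
  have ht : ∀ j, j ≤ k → τ j ∈ Set.Icc (τ 0) (τ k) := fun j hj => ⟨h.bot _, h.mono hj⟩
  have h1 : (φ ⟨a, ha'⟩ : M) ⋖ (φ ⟨b, hb'⟩ : M) := fnUp_cov φ hab
  have h2 : (φ ⟨b, hb'⟩ : M) ≤ s (φ ⟨a, ha'⟩ : M) := cov_le_s hg.up h1
  have h3 : (⟨a, ha'⟩ : Set.Icc (τ 0) (τ k)) ≤ ⟨τ i, ht i (by omega)⟩ := ha
  have h4 : (φ ⟨a, ha'⟩ : M) ≤ s^[i] z := by
    rw [← hφ i (by omega) (ht i (by omega))]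
    exact φ.le_iff_le.2 h3
  have h5 : (φ ⟨b, hb'⟩ : M) ≤ (φ ⟨τ (i + 1), ht (i + 1) hk2⟩ : M) := by
    rw [hφ (i + 1) hk2, Function.iterate_succ_apply']
    exact h2.trans (s_mono hg.up h4)
  have h6 : (⟨b, hb'⟩ : Set.Icc (τ 0) (τ k)) ≤ ⟨τ (i + 1), ht (i + 1) hk2⟩ := φ.le_iff_le.1 h5
  exact h6

private lemma fnUp_main {L : Type} [PartialOrder L] {τ : ℕ → L} (h : Lim.{u} L τ) (a : L) (i : ℕ)
    (ha : a ≤ τ i) : ∃ c, IsLUB (insert a {y | a ⋖ y}) c ∧ @IsPlane L (limLat h) a c ∧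
      (a = τ i → c = τ (i + 1)) := by
  obtain ⟨M, _, s, z, hg, φ, hφ⟩ := h.app (i + 1)
  have := hg.mod
  have ht : ∀ j, j ≤ i + 1 → τ j ∈ Set.Icc (τ 0) (τ (i + 1)) := fun j hj => ⟨h.bot _, h.mono hj⟩
  obtain ⟨a', haa⟩ : ∃ a' : Set.Icc (τ 0) (τ (i + 1)), (a' : L) = a :=
    ⟨⟨a, h.bot a, ha.trans (h.mono (Nat.le_succ i))⟩, rfl⟩
  have h4 : (φ a' : M) ≤ s^[i] z := by
    rw [← hφ i (Nat.le_succ i) (ht i (Nat.le_succ i))]
    refine φ.le_iff_le.2 ?_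
    show (a' : L) ≤ τ i
    rw [haa]
    exact ha
  have h5 : s (φ a' : M) ≤ s^[i + 1] z :=
    (s_mono hg.up h4).trans (le_of_eq (Function.iterate_succ_apply' s i z).symm)
  obtain ⟨c', hc⟩ : ∃ c' : Set.Icc (τ 0) (τ (i + 1)), (φ c' : M) = s (φ a' : M) :=
    ⟨φ.symm ⟨s (φ a' : M), (φ a').2.1.trans (le_s hg.up _), h5⟩, by rw [φ.apply_symm_apply]⟩
  have hac : a' ≤ c' := by
    rw [← φ.le_iff_le]
    show (φ a' : M) ≤ (φ c' : M)
    rw [hc]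
    exact le_s hg.up _
  have hyc : ∀ y, a ⋖ y → y ≤ (c' : L) := by
    intro y hy
    have hy1 : y ≤ τ (i + 1) := lim_cov h ha hy
    obtain ⟨y', hyy⟩ : ∃ y' : Set.Icc (τ 0) (τ (i + 1)), (y' : L) = y :=
      ⟨⟨y, h.bot y, hy1⟩, rfl⟩
    rw [← haa, ← hyy] at hy
    have h6 : (φ y' : M) ≤ (φ c' : M) := by
      rw [hc]
      exact cov_le_s hg.up (fnUp_cov φ hy)
    have h7 : y' ≤ c' := φ.le_iff_le.1 h6
    rw [← hyy]
    exact h7
  refine ⟨c', ⟨?_, ?_⟩, ?_, ?_⟩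
  · rintro y (rfl | hy)
    · rw [← haa]
      exact hac
    · exact hyc y hy
  · intro d hd
    obtain ⟨e, he⟩ := lim_glb h d (c' : L)
    have he1 : e ≤ d := he.1 (Set.mem_insert _ _)
    have he2 : e ≤ (c' : L) := he.1 (Set.mem_insert_of_mem _ (Set.mem_singleton _))
    have he3 : ∀ y, y ≤ d → y ≤ (c' : L) → y ≤ e := by
      intro y hy1 hy2
      refine he.2 ?_
      rintro x (rfl | rfl)
      · exact hy1
      · exact hy2
    refine le_trans ?_ he1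
    obtain ⟨e', hee⟩ : ∃ e' : Set.Icc (τ 0) (τ (i + 1)), (e' : L) = e :=
      ⟨⟨e, h.bot e, he2.trans c'.2.2⟩, rfl⟩
    have h6 : (φ c' : M) ≤ (φ e' : M) := by
      rw [hc]
      refine s_le hg.up ?_ ?_
      · refine φ.le_iff_le.2 ?_
        show (a' : L) ≤ (e' : L)
        rw [hee]
        refine he3 _ ?_ hac
        rw [haa]
        exact hd (Set.mem_insert _ _)
      · intro y' hy'
        have hy1 : y' ≤ s (φ a' : M) := cov_le_s hg.up hy'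
        obtain ⟨y, hy⟩ : ∃ y : Set.Icc (τ 0) (τ (i + 1)), (φ y : M) = y' :=
          ⟨φ.symm ⟨y', (φ a').2.1.trans hy'.le, hy1.trans h5⟩, by rw [φ.apply_symm_apply]⟩
        rw [← hy] at hy' ⊢
        have hcov : (a' : L) ⋖ (y : L) := by
          have h7 := fnUp_cov φ.symm hy'
          rw [φ.symm_apply_apply, φ.symm_apply_apply] at h7
          exact h7
        rw [haa] at hcov
        refine φ.le_iff_le.2 ?_
        show (y : L) ≤ (e' : L)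
        rw [hee]
        exact he3 _ (hd (Set.mem_insert_of_mem _ hcov)) (hyc _ hcov)
    have h7 : c' ≤ e' := φ.le_iff_le.1 h6
    rw [← hee]
    exact h7
  · have hpl : IsPlane (φ a' : M) (φ c' : M) := by
      rw [hc]
      refine hg.pl _ (φ a').2.1 (h5.trans ?_)
      rw [Function.iterate_succ_apply' s (i + 1)]
      exact le_s hg.up _
    obtain ⟨e⟩ := fnUp_icc φ a' c'
    have h6 : (φ a' : M) ≤ (φ c' : M) := φ.le_iff_le.2 hac
    rw [← haa]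
    exact @isPlane_congr M L _ (limLat h) _ _ _ _ h6 e hpl
  · intro hai
    have h6 : (φ c' : M) = (φ ⟨τ (i + 1), ht (i + 1) le_rfl⟩ : M) := by
      have h7 : a' = ⟨τ i, ht i (Nat.le_succ i)⟩ := Subtype.ext (haa.trans hai)
      rw [hφ (i + 1) le_rfl, hc, h7, hφ i (Nat.le_succ i), Function.iterate_succ_apply']
    have h7 : c' = ⟨τ (i + 1), ht (i + 1) le_rfl⟩ := φ.injective (Subtype.ext h6)
    rw [h7]

lemma lim_s {L : Type} [PartialOrder L] {τ : ℕ → L} (h : Lim.{u} L τ) (a : L) :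
    ∃ c, IsLUB (insert a {y | a ⋖ y}) c ∧ @IsPlane L (limLat h) a c := by
  obtain ⟨i, hi⟩ := h.cof a
  obtain ⟨c, hc1, hc2, _⟩ := fnUp_main h a i hi
  exact ⟨c, hc1, hc2⟩

lemma lim_t {L : Type} [PartialOrder L] {τ : ℕ → L} (h : Lim.{u} L τ) (k : ℕ) :
    IsLUB (insert (τ k) {y | τ k ⋖ y}) (τ (k + 1)) := by
  obtain ⟨c, hc1, _, hc3⟩ := fnUp_main h (τ k) k le_rfl
  rw [← hc3 rfl]
  exact hc1

end Pool.Agent.PLB
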