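import Pool.Agent.PLB.FnCL
import Pool.Agent.PLB.FnBd
import Pool.Agent.PLB.FnUp
import Pool.Agent.PLB.FnS

set_option autoImplicit false

/-! Theorem PB, section 7: the corollary for finite lattices. -/

namespace Pool.Agent.PLB

open Pool.Agent.Helper87.ML Pool.Agent.Helper87.ML2 Pool.Agent.RIG

universe u

/-- `[z, t]` is the lattice of the left `O`-submodules of `(π⁻ʲ O / O) ^ 3`, `O` the valuation ring of
a complete discretely valued division ring with finite residue ring and an anti-automorphism -/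
def IsBox {M : Type u} [PartialOrder M] (j : ℕ) (z t : M) : Prop :=
  ∃ (K : Type) (_ : DivisionRing K) (v : K → WithTop ℤ), IsCDV K v ∧ (∃ ψ, IsAntiAut K v ψ) ∧
    Nonempty (Set.Icc z t ≃o
      {x : Lat K v // ∀ w ∈ x.1, ∀ i, ((-(j : ℤ) : ℤ) : WithTop ℤ) ≤ v (w i)})

/-- the limit is the lattice of a division ring -/
theorem lim_main (hmain : MainPB) {L : Type} [PartialOrder L] {τ : ℕ → L} (h : Lim.{u} L τ)
    (j : ℕ) : IsBox j (τ 0) (τ j) := by
  letI := limLat h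
  haveI := lim_mod h
  have h1 : ∀ a : L, ∃ c, IsLUB (insert a {y | a ⋖ y}) c ∧ IsPlane a c := lim_s h
  choose s hs using h1
  have hup : IsUp s := fun x => (hs x).1
  obtain ⟨K, _, v, hv, hψ, ⟨e⟩⟩ := hmain L (lim_fin h) ⟨τ 0⟩ (lim_sd h) s hup (fun x => (hs x).2)
  have hst : ∀ k, s (τ k) = τ (k + 1) := fun k => (hup (τ k)).unique (lim_t h k)
  have hit : ∀ k, s^[k] (τ 0) = τ k := by
    intro k
    induction k with
    | zero => rfl
    | succ k ih => rw [Function.iterate_succ_apply', ih, hst]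
  have key : ∀ x : L, x ≤ τ j ↔
      ∀ w ∈ (e x).1, ∀ i, ((-(j : ℤ) : ℤ) : WithTop ℤ) ≤ v (w i) := by
    intro x
    rw [← hit j]
    exact lat_iter hv e hup h.bot j x
  refine ⟨K, inferInstance, v, hv, hψ, ⟨?_⟩⟩
  exact {
    toFun := fun x => ⟨e x.1, (key x.1).1 x.2.2⟩
    invFun := fun y => ⟨e.symm y.1, h.bot _, (key _).2 (by
      rw [e.apply_symm_apply]
      exact y.2)⟩
    left_inv := fun x => Subtype.ext (e.symm_apply_apply x.1)
    right_inv := fun y => Subtype.ext (e.apply_symm_apply y.1)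
    map_rel_iff' := fun {x y} => e.le_iff_le (x := x.1) (y := y.1) }

/-- deep lattices of planes are coordinatised -/
theorem deep (hmain : MainPB) (c j : ℕ) : ∃ N : ℕ, ∀ (M : Type u) [Lattice M] (s : M → M) (z : M),
    GoodTo M s z N → {p | z ⋖ p}.ncard ≤ c → IsBox j z (s^[j] z) := by
  by_contra hcon
  push Not at hcon
  have h1 : ∀ N : ℕ, ∃ (M : Type u) (_ : Lattice M) (s : M → M) (z : M),
      GoodTo M s z (N + 1) ∧ {p | z ⋖ p}.ncard ≤ c ∧ ¬ IsBox j z (s^[j] z) := by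
    intro N
    obtain ⟨M, i1, s, z, h2, h3, h4⟩ := hcon (N + 1)
    exact ⟨M, i1, s, z, h2, h3, h4⟩
  choose M iM s z hG hc hB using h1
  choose B hB' using fun i => card_bound.{u} c i
  have hmono : ∀ N, Monotone (fun i => (s N)^[i] (z N)) := fun N i k hik => iter_le (hG N) hik
  obtain ⟨L, iL, τ, h2, h3, h4, h5⟩ := compact_posets (Q := M) (fun N i => (s N)^[i] (z N)) hmono B
    (fun N i hi => ⟨(hG N).fin _ _, hB' i (M N) (s N) (z N) (N + 1) (hG N) (by omega) (hc N)⟩)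
  have hL : Lim.{u} L τ := by
    refine ⟨h2, h3, h4, fun i => ?_⟩
    obtain ⟨N, -, hN, φ, hφ⟩ := h5 i i
    refine ⟨M N, iM N, s N, z N, ?_, φ, hφ⟩
    have h6 := hG N
    refine ⟨h6.mod, h6.fin, h6.sd, h6.up, fun y hz hy => h6.pl y hz (hy.trans ?_)⟩
    exact iter_le h6 (by omega)
  obtain ⟨N, -, hN, φ, hφ⟩ := h5 j 0
  obtain ⟨K, iK, v, hv, hψ, ⟨e⟩⟩ := lim_main hmain hL j
  exact hB N ⟨K, iK, v, hv, hψ, ⟨φ.symm.trans e⟩⟩

end Pool.Agent.PLB
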