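import Pool.Agent.PLB.CvV

set_option autoImplicit false

/-! Theorem PB: elementary facts on the model lattices.

PLAN. `lat_sup_inf`: the supremum of two elements of `Lat K v` is the sum of the subgroups, the infimum is the intersection.
`lat_map`: apply `f` to all coordinates. -/

namespace Pool.Agent.PLB

universe u

private lemma UnE_bd {K : Type u} [DivisionRing K] {v : K → WithTop ℤ} {m n : ℕ} (h : m ≤ n)
    {a : K} (ha : ((-(m : ℤ) : ℤ) : WithTop ℤ) ≤ v a) : ((-(n : ℤ) : ℤ) : WithTop ℤ) ≤ v a :=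
  (WithTop.coe_le_coe.2 (by omega)).trans ha

theorem lat_sup_inf {K : Type u} [DivisionRing K] {v : K → WithTop ℤ} (hv : IsCDV K v)
    (x y : Lat K v) : (∃ j, IsLUB {x, y} j) ∧ ∃ g, IsGLB {x, y} g := by
  obtain ⟨hx1, hx2, m, hx3⟩ := x.2
  obtain ⟨hy1, hy2, n, hy3⟩ := y.2
  constructor
  · refine ⟨⟨x.1 ⊔ y.1, ?_, ?_, max m n, ?_⟩, ?_, ?_⟩
    · intro u hu a ha
      obtain ⟨u1, h1, u2, h2, rfl⟩ := AddSubgroup.mem_sup.1 hu
      refine AddSubgroup.mem_sup.2 ⟨_, hx1 u1 h1 a ha, _, hy1 u2 h2 a ha, ?_⟩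
      funext i
      change a * u1 i + a * u2 i = a * (u1 i + u2 i)
      rw [mul_add]
    · intro u hu
      exact (le_sup_left : x.1 ≤ x.1 ⊔ y.1) (hx2 u hu)
    · intro u hu i
      obtain ⟨u1, h1, u2, h2, rfl⟩ := AddSubgroup.mem_sup.1 hu
      exact (le_min (UnE_bd (le_max_left m n) (hx3 u1 h1 i))
        (UnE_bd (le_max_right m n) (hy3 u2 h2 i))).trans (hv.add _ _)
    · intro z hz
      rcases hz with hz | hz
      · rw [hz]
        exact (le_sup_left : x.1 ≤ x.1 ⊔ y.1)
      · rw [Set.mem_singleton_iff.1 hz]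
        exact (le_sup_right : y.1 ≤ x.1 ⊔ y.1)
    · intro z hz
      have h1 : x.1 ≤ z.1 := hz (Or.inl rfl)
      have h2 : y.1 ≤ z.1 := hz (Or.inr rfl)
      exact (sup_le h1 h2 : x.1 ⊔ y.1 ≤ z.1)
  · refine ⟨⟨x.1 ⊓ y.1, ?_, ?_, m, ?_⟩, ?_, ?_⟩
    · intro u hu a ha
      exact ⟨hx1 u hu.1 a ha, hy1 u hu.2 a ha⟩
    · intro u hu
      exact ⟨hx2 u hu, hy2 u hu⟩
    · intro u hu i
      exact hx3 u hu.1 i
    · intro z hz
      rcases hz with hz | hz
      · rw [hz]
        exact (inf_le_left : x.1 ⊓ y.1 ≤ x.1)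
      · rw [Set.mem_singleton_iff.1 hz]
        exact (inf_le_right : x.1 ⊓ y.1 ≤ y.1)
    · intro z hz
      have h1 : z.1 ≤ x.1 := hz (Or.inl rfl)
      have h2 : z.1 ≤ y.1 := hz (Or.inr rfl)
      exact (le_inf h1 h2 : z.1 ≤ x.1 ⊓ y.1)

/-- the map induced by `g : K → K'`, as a preimage -/
private def UnE_f {K : Type u} [DivisionRing K] {v : K → WithTop ℤ} {K' : Type u}
    [DivisionRing K'] {v' : K' → WithTop ℤ} (g : K' ≃+* K) (h : ∀ a, v (g a) = v' a)
    (N : Lat K v) : Lat K' v' :=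
  ⟨{ carrier := {u | (fun i => g (u i)) ∈ N.1}
     add_mem' := by
      intro a b ha hb
      have e : (fun i => g ((a + b) i)) = (fun i => g (a i)) + fun i => g (b i) := by
        funext i
        exact map_add g _ _
      change (fun i => g ((a + b) i)) ∈ N.1
      rw [e]
      exact N.1.add_mem ha hb
     zero_mem' := by
      have e : (fun i => g ((0 : Fin 3 → K') i)) = 0 := by
        funext i
        exact map_zero g
      change (fun i => g ((0 : Fin 3 → K') i)) ∈ N.1
      rw [e]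
      exact N.1.zero_mem
     neg_mem' := by
      intro a ha
      have e : (fun i => g ((-a) i)) = -fun i => g (a i) := by
        funext i
        exact map_neg g _
      change (fun i => g ((-a) i)) ∈ N.1
      rw [e]
      exact N.1.neg_mem ha }, by
    obtain ⟨h1, h2, n, h3⟩ := N.2
    refine ⟨?_, ?_, n, ?_⟩
    · intro u hu a ha
      have e : (fun i => g (a * u i)) = fun i => g a * g (u i) := by
        funext i
        exact map_mul g _ _
      change (fun i => g (a * u i)) ∈ N.1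
      rw [e]
      exact h1 _ hu _ (by rw [h]; exact ha)
    · intro u hu
      exact h2 _ fun i => by rw [h]; exact hu i
    · intro u hu i
      have h4 := h3 _ hu i
      rwa [h] at h4⟩

private lemma UnE_mem {K : Type u} [DivisionRing K] {v : K → WithTop ℤ} {K' : Type u}
    [DivisionRing K'] {v' : K' → WithTop ℤ} (g : K' ≃+* K) (h : ∀ a, v (g a) = v' a)
    (N : Lat K v) (u : Fin 3 → K') : u ∈ (UnE_f g h N).1 ↔ (fun i => g (u i)) ∈ N.1 := Iff.rfl

theorem lat_map {K : Type u} [DivisionRing K] {v : K → WithTop ℤ} {K' : Type u} [DivisionRing K']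
    {v' : K' → WithTop ℤ} (f : K ≃+* K') (h : ∀ a, v' (f a) = v a) :
    Nonempty (Lat K v ≃o Lat K' v') := by
  have h' : ∀ a, v (f.symm a) = v' a := fun a => by rw [← h, f.apply_symm_apply]
  refine ⟨⟨⟨UnE_f f.symm h', UnE_f f h, fun N => ?_, fun N => ?_⟩, ?_⟩⟩
  · apply Subtype.ext
    ext u
    rw [UnE_mem, UnE_mem]
    simp only [RingEquiv.symm_apply_apply]
  · apply Subtype.ext
    ext u
    rw [UnE_mem, UnE_mem]
    simp only [RingEquiv.apply_symm_apply]
  · intro N N'
    change (∀ u, u ∈ (UnE_f f.symm h' N).1 → u ∈ (UnE_f f.symm h' N').1) ↔ ∀ u, u ∈ N.1 → u ∈ N'.1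
    constructor
    · intro h1 u hu
      have h2 := h1 (fun i => f (u i)) (by
        rw [UnE_mem]
        simp only [RingEquiv.symm_apply_apply]
        exact hu)
      rw [UnE_mem] at h2
      simp only [RingEquiv.symm_apply_apply] at h2
      exact h2
    · intro h1 u hu
      exact h1 _ hu

end Pool.Agent.PLB
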