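import Pool.Agent.PLB.Fn
import Pool.Agent.PLB.UnE

set_option autoImplicit false

/-! Theorem PB, section 7: the model lattices occur at every depth in finite lattices.

PLAN. `L = Lat K v` is a lattice (`lat_sup_inf`; a `Lattice` structure on a copy `L` of it with `e : L ≃o Lat K v`), `converse`
gives modularity, finiteness, the shift `s`, planes, SD'. `o` the least element. `M = Set.Iic (s^[N + 1] o)` (finite, an
ideal of `L`, so intervals are intervals of `L`), with the shift `s' x = s x ⊓ s^[N + 1] o`; `IsUp s'` (every element below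
`s x` above `x` is a join of covers of `x`: `[x, s x]` is a plane; or use that `M` is finite and check directly the least upper
bound). `z = o`, `s'^[k] o = s^[k] o` for `k ≤ N + 1`. If `s' y ≤ s'^[N] o = s^[N] o` then `y ≤ s^[N] o`, so `s y ≤ s^[N + 1] o` and `s' y = s y`:
`[y, s' y]` is a plane. `lat_iter` identifies `[o, s^[N] o]` with the box. -/

namespace Pool.Agent.PLB

open Pool.Agent.Helper87.ML Pool.Agent.Helper87.ML2 Pool.Agent.RIG

/-- intervals of a principal ideal are intervals of the lattice -/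
private def fnE_icc {L : Type} [Lattice L] {c : L} (x y : Set.Iic c) :
    Set.Icc x y ≃o Set.Icc (x : L) (y : L) where
  toFun t := ⟨(t.1 : L), t.2.1, t.2.2⟩
  invFun t := ⟨⟨t.1, t.2.2.trans y.2⟩, t.2.1, t.2.2⟩
  left_inv _ := rfl
  right_inv _ := rfl
  map_rel_iff' := Iff.rfl

/-- covers in a principal ideal -/
private lemma fnE_cov {L : Type} [Lattice L] {c : L} {x y : Set.Iic c} :
    x ⋖ y ↔ (x : L) ⋖ (y : L) := by
  constructor
  · intro h
    refine ⟨h.1, fun t h1 h2 => ?_⟩
    exact h.2 (c := ⟨t, h2.le.trans y.2⟩) h1 h2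
  · intro h
    exact ⟨h.1, fun t h1 h2 => h.2 (c := (t : L)) h1 h2⟩

/-- the least upper bound of `x` and its covers in a principal ideal -/
private lemma fnE_up {L : Type} [Lattice L] {s : L → L} (hs : IsUp s)
    (hp : ∀ x, IsPlane x (s x)) (c : L) :
    IsUp (fun x : Set.Iic c => (⟨s x ⊓ c, inf_le_right⟩ : Set.Iic c)) := by
  intro x
  constructor
  · rintro y (rfl | hy)
    · exact le_inf (le_s hs _) y.2
    · exact le_inf (cov_le_s hs (fnE_cov.1 hy)) y.2
  · intro t ht
    have hxt : (x : L) ≤ (t : L) := ht (Set.mem_insert _ _)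
    have hct : ∀ y : L, (x : L) ⋖ y → y ≤ c → y ≤ (t : L) := by
      intro y hy hyc
      have h : x ⋖ (⟨y, hyc⟩ : Set.Iic c) := fnE_cov.2 hy
      exact ht (Set.mem_insert_of_mem _ h)
    show s (x : L) ⊓ c ≤ (t : L)
    have h1 : (x : L) ≤ s (x : L) ⊓ c := le_inf (le_s hs _) x.2
    rcases (hp (x : L)).1 (s (x : L) ⊓ c) h1 inf_le_left with h2 | h2 | h2 | h2
    · rw [h2]
      exact hxt
    · exact hct _ h2 inf_le_right
    · obtain ⟨p, q, r, ⟨hp1, hq1, -⟩, ⟨hp2, hq2, -⟩, hpq, -, -⟩ :=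
        (hp (x : L)).2.2.2.1 (s (x : L) ⊓ c) h1 h2
      have h3 : p ⊔ q ≤ s (x : L) ⊓ c := sup_le hp2 hq2
      have h4 : p < p ⊔ q := by
        refine lt_of_le_of_ne le_sup_left fun h => ?_
        have h5 : q ≤ p := by
          rw [h]
          exact le_sup_right
        rcases hp1.eq_or_eq hq1.le h5 with h6 | h6
        · exact hq1.lt.ne' h6
        · exact hpq h6.symm
      have h5 : p ⊔ q = s (x : L) ⊓ c := by
        rcases (hp (x : L)).1 (p ⊔ q) (hp1.le.trans le_sup_left) (h3.trans inf_le_left) with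
          h6 | h6 | h6 | h6
        · exact absurd (h6 ▸ h4) hp1.lt.not_gt
        · exact absurd h4 (h6.2 hp1.lt)
        · rcases h6.eq_or_eq h3 inf_le_left with h7 | h7
          · exact h7.symm
          · exact absurd h7 h2.lt.ne
        · exact absurd (h6 ▸ h3) h2.lt.not_ge
      rw [← h5]
      exact sup_le (hct p hp1 (hp2.trans inf_le_right)) (hct q hq1 (hq2.trans inf_le_right))
    · rw [h2]
      apply s_le hs hxt
      intro y hy
      exact hct y hy ((cov_le_s hs hy).trans (inf_eq_left.1 h2))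

private theorem fnE_core {K : Type} [DivisionRing K] {v : K → WithTop ℤ} (hv : IsCDV K v)
    {ψ : K → K} (hψ : IsAntiAut K v ψ) {L : Type} [Lattice L] (e : L ≃o Lat K v) (N : ℕ) :
    ∃ (M : Type) (_ : Lattice M) (s : M → M) (z : M), Finite M ∧ GoodTo M s z N ∧
      ∀ j ≤ N, Nonempty (Set.Icc z (s^[j] z) ≃o
        {x : Lat K v // ∀ w ∈ x.1, ∀ i, ((-(j : ℤ) : ℤ) : WithTop ℤ) ≤ v (w i)}) := by
  obtain ⟨hmod, hfin, ⟨x0⟩, ⟨s, hs, hp⟩, hsd⟩ := converse hv hψ e
  obtain ⟨o, ho⟩ : ∃ o : L, ∀ x, o ≤ x := by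
    obtain ⟨m, hm⟩ := (hfin x0).exists_minimal ⟨x0, le_rfl⟩
    refine ⟨m, fun y => ?_⟩
    have h1 : m ⊓ y ∈ Set.Iic x0 := inf_le_left.trans hm.1
    exact (hm.2 h1 inf_le_left).trans inf_le_right
  have hmono : ∀ i k : ℕ, i ≤ k → s^[i] o ≤ s^[k] o := by
    intro i k hik
    induction k, hik using Nat.le_induction with
    | base => exact le_rfl
    | succ k _ ih =>
      rw [Function.iterate_succ_apply']
      exact ih.trans (le_s hs _)
  obtain ⟨c, hc⟩ : ∃ c, c = s^[N + 1] o := ⟨_, rfl⟩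
  obtain ⟨s', hs'⟩ : ∃ s' : Set.Iic c → Set.Iic c,
    s' = fun x : Set.Iic c => (⟨s x ⊓ c, inf_le_right⟩ : Set.Iic c) := ⟨_, rfl⟩
  have hs'a : ∀ x : Set.Iic c, ((s' x : Set.Iic c) : L) = s x ⊓ c := by
    intro x
    rw [hs']
  have hup : IsUp s' := by
    rw [hs']
    exact fnE_up hs hp c
  have hit : ∀ k : ℕ, k ≤ N + 1 → ((s'^[k] ⟨o, ho c⟩ : Set.Iic c) : L) = s^[k] o := by
    intro k
    induction k with
    | zero =>
      intro _
      rfl
    | succ k ih =>
      intro hk
      rw [Function.iterate_succ_apply', Function.iterate_succ_apply', hs'a, ih (by omega),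
        inf_eq_left, hc, ← Function.iterate_succ_apply' s]
      exact hmono _ _ hk
  have hfinM : Finite (Set.Iic c) := hfin c
  refine ⟨Set.Iic c, inferInstance, s', ⟨o, ho c⟩, hfinM, ⟨inferInstance, ?_, ?_, hup, ?_⟩, ?_⟩
  · intro x y
    exact Set.toFinite _
  · intro x y hxy
    obtain ⟨δ⟩ := hsd (x : L) (y : L) hxy
    exact ⟨(fnE_icc x y).trans (δ.trans (fnE_icc x y).symm.dual)⟩
  · intro y _ hy
    have h1 : s (y : L) ⊓ c ≤ s^[N] o := by
      rw [← hit N (by omega), ← hs'a]
      exact hy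
    have h2 : (y : L) ≤ s^[N] o := (le_inf (le_s hs _) y.2).trans h1
    have h3 : s (y : L) ≤ c := by
      have h := s_mono hs h2
      rw [← Function.iterate_succ_apply' s, ← hc] at h
      exact h
    have h4 : ((s' y : Set.Iic c) : L) = s (y : L) := by
      rw [hs'a]
      exact inf_eq_left.2 h3
    have h5 : IsPlane (y : L) ((s' y : Set.Iic c) : L) := by
      rw [h4]
      exact hp _
    have h6 : (y : L) ≤ ((s' y : Set.Iic c) : L) := by
      rw [h4]
      exact le_s hs _
    exact isPlane_congr h6 (fnE_icc y (s' y)).symm h5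
  · intro j hj
    have key : ∀ x : L, x ≤ s^[j] o ↔
        ∀ w ∈ (e x).1, ∀ i, ((-(j : ℤ) : ℤ) : WithTop ℤ) ≤ v (w i) := fun x =>
      lat_iter hv e hs ho j x
    have h1 := fnE_icc (⟨o, ho c⟩ : Set.Iic c) (s'^[j] ⟨o, ho c⟩)
    rw [hit j (by omega)] at h1
    refine ⟨h1.trans ?_⟩
    exact {
      toFun := fun x => ⟨e x.1, (key x.1).1 x.2.2⟩
      invFun := fun y => ⟨e.symm y.1, ho _, (key _).2 (by
        rw [e.apply_symm_apply]
        exact y.2)⟩
      left_inv := fun x => Subtype.ext (e.symm_apply_apply x.1)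
      right_inv := fun y => Subtype.ext (e.apply_symm_apply y.1)
      map_rel_iff' := fun {x y} => e.le_iff_le (x := x.1) (y := y.1) }

/-- the lattice structure of the model lattice -/
@[reducible] private noncomputable def fnE_lat {K : Type} [DivisionRing K] {v : K → WithTop ℤ}
    (hv : IsCDV K v) : Lattice (Lat K v) :=
  { (inferInstance : PartialOrder (Lat K v)) with
    sup := fun x y => (lat_sup_inf hv x y).1.choose
    inf := fun x y => (lat_sup_inf hv x y).2.choose
    le_sup_left := fun x y => (lat_sup_inf hv x y).1.choose_spec.1 (Set.mem_insert _ _)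
    le_sup_right := fun x y => (lat_sup_inf hv x y).1.choose_spec.1
      (Set.mem_insert_of_mem _ rfl)
    sup_le := fun x y z h1 h2 => (lat_sup_inf hv x y).1.choose_spec.2 (by
      rintro t (rfl | rfl)
      · exact h1
      · exact h2)
    inf_le_left := fun x y => (lat_sup_inf hv x y).2.choose_spec.1 (Set.mem_insert _ _)
    inf_le_right := fun x y => (lat_sup_inf hv x y).2.choose_spec.1
      (Set.mem_insert_of_mem _ rfl)
    le_inf := fun x y z h1 h2 => (lat_sup_inf hv y z).2.choose_spec.2 (by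
      rintro t (rfl | rfl)
      · exact h1
      · exact h2) }

theorem box_deep {K : Type} [DivisionRing K] {v : K → WithTop ℤ} (hv : IsCDV K v)
    (hψ : ∃ ψ, IsAntiAut K v ψ) (N : ℕ) :
    ∃ (M : Type) (_ : Lattice M) (s : M → M) (z : M), Finite M ∧ GoodTo M s z N ∧
      ∀ j ≤ N, Nonempty (Set.Icc z (s^[j] z) ≃o
        {x : Lat K v // ∀ w ∈ x.1, ∀ i, ((-(j : ℤ) : ℤ) : WithTop ℤ) ≤ v (w i)}) := by
  obtain ⟨ψ, hψ⟩ := hψ
  exact @fnE_core K _ v hv ψ hψ (Lat K v) (fnE_lat hv) (OrderIso.refl (Lat K v)) N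

end Pool.Agent.PLB
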