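import Pool.Agent.PLB.CvV

set_option autoImplicit false

/-! Theorem PB, the coefficient division rings: the canonical involution of a division ring of dimension 4 over its
centre (pure algebra).

For `x` outside the centre `F` the commutator map `y ↦ x y - y x` is `F`-linear of rank at least `2` (its range is
stable under right multiplication by `x`), so the centralizer of `x` is `F + F x`; hence every element satisfies a
quadratic equation `x ^ 2 = t x - n` over `F`, and `c x = t - x` is the canonical involution. -/

namespace Pool.Agent.PLB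

universe u

variable {K : Type u} [DivisionRing K]

private lemma qte_mul {a b : K} (ha : a ∈ Subring.center K) (hb : b ∈ Subring.center K) :
    a * b ∈ Subring.center K := mul_mem ha hb

private lemma qte_comm {a : K} (ha : a ∈ Subring.center K) (g : K) : g * a = a * g :=
  Subring.mem_center_iff.1 ha g

private lemma qte_inv {a : K} (ha : a ∈ Subring.center K) : a⁻¹ ∈ Subring.center K := by
  rw [Subring.mem_center_iff] at ha ⊢
  intro g
  by_cases h0 : a = 0
  · rw [h0, inv_zero, mul_zero, zero_mul]
  · have h1 := ha g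
    have h2 : a * (g * a⁻¹) = a * (a⁻¹ * g) := by
      rw [← mul_assoc, ← h1, mul_assoc, mul_inv_cancel₀ h0, mul_one, ← mul_assoc,
        mul_inv_cancel₀ h0, one_mul]
    exact mul_left_cancel₀ h0 h2

/-- commutator with `x` -/
private def qte_phi (x : K) : K →ₗ[Subring.center K] K where
  toFun y := x * y - y * x
  map_add' y z := by
    rw [mul_add, add_mul]
    abel
  map_smul' a y := by
    show x * ((a : K) * y) - (a : K) * y * x = (a : K) * (x * y - y * x)
    rw [← mul_assoc, qte_comm a.2 x, mul_sub, mul_assoc, mul_assoc]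

private lemma qte_phi_apply (x y : K) : qte_phi x y = x * y - y * x := rfl

/-- the centralizer of a noncentral element -/
private lemma qte_cen (h : Module.finrank (Subring.center K) K = 4) {x : K}
    (hx : x ∉ Subring.center K) {y : K} (hxy : x * y = y * x) :
    ∃ a b : K, a ∈ Subring.center K ∧ b ∈ Subring.center K ∧ y = a + b * x := by
  haveI : FiniteDimensional (Subring.center K) K :=
    FiniteDimensional.of_finrank_pos (by rw [h]; norm_num)
  have hrank : 2 ≤ Module.finrank (Subring.center K) (LinearMap.range (qte_phi x)) := by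
    by_contra hlt
    have hle : Module.finrank (Subring.center K) (LinearMap.range (qte_phi x)) ≤ 1 := by omega
    rw [finrank_le_one_iff] at hle
    obtain ⟨v, hv⟩ := hle
    obtain ⟨g, hg⟩ : ∃ g : K, g * x ≠ x * g := by
      by_contra hne
      push Not at hne
      exact hx (Subring.mem_center_iff.2 hne)
    obtain ⟨z, hz⟩ : ∃ z, z = x * g - g * x := ⟨_, rfl⟩
    have hz0 : z ≠ 0 := by
      rw [hz]
      exact sub_ne_zero.2 (Ne.symm hg)
    obtain ⟨c, hc⟩ := hv ⟨qte_phi x g, LinearMap.mem_range_self _ _⟩
    obtain ⟨d, hd⟩ := hv ⟨qte_phi x (g * x), LinearMap.mem_range_self _ _⟩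
    have hc' : (c : K) * (v : K) = z := by
      have := congrArg Subtype.val hc
      rw [hz]
      exact this
    have hd' : (d : K) * (v : K) = z * x := by
      have h1 := congrArg Subtype.val hd
      have h2 : (d : K) * (v : K) = x * (g * x) - g * x * x := h1
      rw [h2, hz, sub_mul, mul_assoc x g x]
    have hc0 : (c : K) ≠ 0 := by
      intro h0
      rw [h0, zero_mul] at hc'
      exact hz0 hc'.symm
    have hv' : (v : K) = (c : K)⁻¹ * z := by
      rw [← hc', ← mul_assoc, inv_mul_cancel₀ hc0, one_mul]
    have hl : z * x = z * ((d : K) * (c : K)⁻¹) := by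
      rw [← hd', hv', ← mul_assoc, qte_comm (qte_mul d.2 (qte_inv c.2)) z]
    have hx' : x = (d : K) * (c : K)⁻¹ := mul_left_cancel₀ hz0 hl
    apply hx
    rw [hx']
    exact qte_mul d.2 (qte_inv c.2)
  have hsum := LinearMap.finrank_range_add_finrank_ker (qte_phi x)
  rw [h] at hsum
  have hker : Module.finrank (Subring.center K) (LinearMap.ker (qte_phi x)) ≤ 2 := by omega
  have hdep : ¬ LinearIndependent (Subring.center K) ![(1 : K), x, y] := by
    intro hli
    have h1 := finrank_span_eq_card hli
    have h2 : Submodule.span (Subring.center K) (Set.range ![(1 : K), x, y]) ≤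
        LinearMap.ker (qte_phi x) := by
      rw [Submodule.span_le]
      rintro _ ⟨i, rfl⟩
      fin_cases i
      · show qte_phi x 1 = 0
        rw [qte_phi_apply, mul_one, one_mul, sub_self]
      · show qte_phi x x = 0
        rw [qte_phi_apply, sub_self]
      · show qte_phi x y = 0
        rw [qte_phi_apply, hxy, sub_self]
    have h3 := Submodule.finrank_mono h2
    rw [h1, Fintype.card_fin] at h3
    omega
  rw [Fintype.not_linearIndependent_iff] at hdep
  obtain ⟨g, hg, i, hi⟩ := hdep
  rw [Fin.sum_univ_three] at hg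
  have hg' : (g 0 : K) * 1 + (g 1 : K) * x + (g 2 : K) * y = 0 := hg
  rw [mul_one] at hg'
  have hcast : ∀ j : Fin 3, (g j : K) = 0 → g j = 0 := fun j hj => Subtype.ext hj
  by_cases h2 : (g 2 : K) = 0
  · exfalso
    rw [h2, zero_mul, add_zero] at hg'
    by_cases h1 : (g 1 : K) = 0
    · rw [h1, zero_mul, add_zero] at hg'
      apply hi
      fin_cases i
      · exact hcast 0 hg'
      · exact hcast 1 h1
      · exact hcast 2 h2
    · apply hx
      have h3 : x = (g 1 : K)⁻¹ * (-(g 0 : K)) := by
        have h4 : (g 1 : K) * x = -(g 0 : K) := by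
          rw [eq_neg_iff_add_eq_zero, add_comm]
          exact hg'
        rw [← h4, ← mul_assoc, inv_mul_cancel₀ h1, one_mul]
      rw [h3]
      exact qte_mul (qte_inv (g 1).2) (neg_mem (g 0).2)
  · refine ⟨(g 2 : K)⁻¹ * (-(g 0 : K)), (g 2 : K)⁻¹ * (-(g 1 : K)),
      qte_mul (qte_inv (g 2).2) (neg_mem (g 0).2), qte_mul (qte_inv (g 2).2) (neg_mem (g 1).2), ?_⟩
    have h4 : (g 2 : K) * y = -(g 0 : K) + -(g 1 : K) * x := by
      rw [← sub_eq_zero] at hg'
      have h5 : (g 2 : K) * y = ((g 0 : K) + (g 1 : K) * x + (g 2 : K) * y - 0) +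
          (-(g 0 : K) + -(g 1 : K) * x) := by
        rw [neg_mul]
        abel
      rw [h5, hg', zero_add]
    calc y = (g 2 : K)⁻¹ * ((g 2 : K) * y) := by
          rw [← mul_assoc, inv_mul_cancel₀ h2, one_mul]
      _ = _ := by
          rw [h4, mul_add, mul_assoc]

/-- quadratic equations -/
private lemma qte_quad (h : Module.finrank (Subring.center K) K = 4) (x : K) :
    ∃ t : K, t ∈ Subring.center K ∧ (∃ n ∈ Subring.center K, x * x = t * x - n) ∧
      (x ∈ Subring.center K → t = 2 * x) := by
  by_cases hx : x ∈ Subring.center K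
  · refine ⟨2 * x, ?_, ⟨x * x, qte_mul hx hx, ?_⟩, fun _ => rfl⟩
    · rw [two_mul]
      exact add_mem hx hx
    · rw [two_mul, add_mul, add_sub_cancel_right]
  · obtain ⟨a, b, ha, hb, hab⟩ := qte_cen h hx (y := x * x) (mul_assoc x x x).symm
    refine ⟨b, hb, ⟨-a, neg_mem ha, ?_⟩, fun h' => absurd h' hx⟩
    rw [hab, sub_neg_eq_add, add_comm]

/-- the trace -/
private noncomputable def qte_t (h : Module.finrank (Subring.center K) K = 4) (x : K) : K :=
  Classical.choose (qte_quad h x)

private lemma qte_t_mem (h : Module.finrank (Subring.center K) K = 4) (x : K) :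
    qte_t h x ∈ Subring.center K := (Classical.choose_spec (qte_quad h x)).1

private lemma qte_t_eq (h : Module.finrank (Subring.center K) K = 4) (x : K) :
    ∃ n ∈ Subring.center K, x * x = qte_t h x * x - n := (Classical.choose_spec (qte_quad h x)).2.1

private lemma qte_t_cen (h : Module.finrank (Subring.center K) K = 4) {x : K}
    (hx : x ∈ Subring.center K) : qte_t h x = 2 * x := (Classical.choose_spec (qte_quad h x)).2.2 hx

private lemma qte_uniq (h : Module.finrank (Subring.center K) K = 4) {x t n : K}
    (hx : x ∉ Subring.center K) (ht : t ∈ Subring.center K) (hn : n ∈ Subring.center K)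
    (he : x * x = t * x - n) : qte_t h x = t := by
  obtain ⟨n', hn', he'⟩ := qte_t_eq h x
  by_contra hne
  apply hx
  have h0 : qte_t h x - t ≠ 0 := sub_ne_zero.2 hne
  have h1 : (qte_t h x - t) * x = n' - n := by
    rw [he'] at he
    rw [sub_mul]
    have h2 : qte_t h x * x = t * x - n + n' := by
      rw [← he, sub_add_cancel]
    rw [h2]
    abel
  have h3 : x = (qte_t h x - t)⁻¹ * (n' - n) := by
    rw [← h1, ← mul_assoc, inv_mul_cancel₀ h0, one_mul]
  rw [h3]
  exact qte_mul (qte_inv (sub_mem (qte_t_mem h x) ht)) (sub_mem hn' hn)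

/-- the trace of `a + b x` -/
private lemma qte_lin (h : Module.finrank (Subring.center K) K = 4) {x a b : K}
    (ha : a ∈ Subring.center K) (hb : b ∈ Subring.center K) :
    qte_t h (a + b * x) = 2 * a + b * qte_t h x := by
  by_cases hx : x ∈ Subring.center K
  · rw [qte_t_cen h hx, qte_t_cen h (add_mem ha (qte_mul hb hx)), two_mul, two_mul, two_mul,
      mul_add]
    abel
  · by_cases hb0 : b = 0
    · rw [hb0, zero_mul, zero_mul, add_zero, add_zero, qte_t_cen h ha]
    · have hz : a + b * x ∉ Subring.center K := by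
        intro hz
        apply hx
        have h1 : x = b⁻¹ * (a + b * x - a) := by
          rw [add_sub_cancel_left, ← mul_assoc, inv_mul_cancel₀ hb0, one_mul]
        rw [h1]
        exact qte_mul (qte_inv hb) (sub_mem hz ha)
      obtain ⟨n, hn, he⟩ := qte_t_eq h x
      obtain ⟨t, ht⟩ : ∃ t, t = qte_t h x := ⟨_, rfl⟩
      have htm : t ∈ Subring.center K := by rw [ht]; exact qte_t_mem h x
      rw [← ht] at he ⊢
      refine qte_uniq h hz (n := a * a + a * b * t + b * b * n) ?_ ?_ ?_
      · rw [two_mul]
        exact add_mem (add_mem ha ha) (qte_mul hb htm)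
      · exact add_mem (add_mem (qte_mul ha ha) (qte_mul (qte_mul ha hb) htm))
          (qte_mul (qte_mul hb hb) hn)
      · have e1 : x * a = a * x := qte_comm ha x
        have e2 : x * b = b * x := qte_comm hb x
        have e3 : b * a = a * b := qte_comm ha b
        have e4 : t * a = a * t := qte_comm ha t
        have e5 : t * b = b * t := qte_comm hb t
        have l : (a + b * x) * (a + b * x) = a * a + a * (b * x) + a * (b * x) + b * (b * (x * x)) := by
          have f1 : b * x * a = a * (b * x) := by rw [mul_assoc, e1, ← mul_assoc, e3, mul_assoc]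
          have f2 : b * x * (b * x) = b * (b * (x * x)) := by
            rw [mul_assoc, ← mul_assoc x b x, e2, mul_assoc b x x]
          rw [add_mul, mul_add, mul_add, f1, f2]
          abel
        have r : (2 * a + b * t) * (a + b * x) = a * a + a * a + (a * (b * x) + a * (b * x)) +
            a * (b * t) + b * (b * (t * x)) := by
          have f1 : b * t * a = a * (b * t) := by rw [mul_assoc, e4, ← mul_assoc, e3, mul_assoc]
          have f2 : b * t * (b * x) = b * (b * (t * x)) := by
            rw [mul_assoc, ← mul_assoc t b x, e5, mul_assoc b t x]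
          rw [two_mul, add_mul, mul_add, mul_add, add_mul, add_mul, f1, f2]
          abel
        rw [l, r, he, mul_sub, mul_sub, mul_assoc a b t, mul_assoc b b n]
        abel

/-- polarization -/
private lemma qte_pol (h : Module.finrank (Subring.center K) K = 4) (x y : K) :
    ∃ f ∈ Subring.center K, x * y + y * x =
      (qte_t h (x + y) - qte_t h x) * x + (qte_t h (x + y) - qte_t h y) * y + f := by
  obtain ⟨n, hn, he⟩ := qte_t_eq h x
  obtain ⟨m, hm, hf⟩ := qte_t_eq h y
  obtain ⟨k, hk, hg⟩ := qte_t_eq h (x + y)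
  refine ⟨n + m - k, sub_mem (add_mem hn hm) hk, ?_⟩
  have h1 : x * y + y * x = (x + y) * (x + y) - x * x - y * y := by
    rw [add_mul, mul_add, mul_add]
    abel
  rw [h1, hg, he, hf, mul_add, sub_mul, sub_mul]
  abel

/-- additivity of the trace -/
private lemma qte_add (h : Module.finrank (Subring.center K) K = 4) (x y : K) :
    qte_t h (x + y) = qte_t h x + qte_t h y := by
  by_cases hc : x * y = y * x
  · by_cases hx : x ∈ Subring.center K
    · have h1 := qte_lin h (x := y) hx (one_mem (Subring.center K))
      rw [one_mul, one_mul] at h1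
      rw [h1, qte_t_cen h hx]
    · obtain ⟨a, b, ha, hb, hab⟩ := qte_cen h hx hc
      have e : x + (a + b * x) = a + (1 + b) * x := by
        rw [add_mul, one_mul]
        abel
      rw [hab, e, qte_lin h ha (add_mem (one_mem _) hb), qte_lin h ha hb, add_mul, one_mul]
      abel
  · obtain ⟨f, hf, he⟩ := qte_pol h x y
    obtain ⟨n, hn, hx⟩ := qte_t_eq h x
    obtain ⟨s, hs⟩ : ∃ s, s = qte_t h (x + y) := ⟨_, rfl⟩
    obtain ⟨t, ht⟩ : ∃ t, t = qte_t h x := ⟨_, rfl⟩
    obtain ⟨r, hr⟩ : ∃ r, r = qte_t h y := ⟨_, rfl⟩
    have hsm : s ∈ Subring.center K := by rw [hs]; exact qte_t_mem h _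
    have htm : t ∈ Subring.center K := by rw [ht]; exact qte_t_mem h _
    have hrm : r ∈ Subring.center K := by rw [hr]; exact qte_t_mem h _
    rw [← hs, ← ht, ← hr] at he
    rw [← ht] at hx
    rw [← hs, ← ht, ← hr]
    -- commutator with x
    have c1 : x * (x * y + y * x) - (x * y + y * x) * x = t * (x * y - y * x) := by
      have e1 : x * (x * y + y * x) - (x * y + y * x) * x = x * x * y - y * (x * x) := by
        rw [mul_add, add_mul, ← mul_assoc, ← mul_assoc, ← mul_assoc]
        abel
      rw [e1, hx, sub_mul, mul_sub, mul_sub, ← mul_assoc y t x, qte_comm htm y, qte_comm hn y,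
        mul_assoc, mul_assoc]
      abel
    have c2 : x * (x * y + y * x) - (x * y + y * x) * x = (s - r) * (x * y - y * x) := by
      have g1 : x * ((s - t) * x) = (s - t) * x * x := by
        rw [← mul_assoc, qte_comm (sub_mem hsm htm) x]
      have g2 : x * ((s - r) * y) = (s - r) * (x * y) := by
        rw [← mul_assoc, qte_comm (sub_mem hsm hrm) x, mul_assoc]
      rw [he, mul_add, mul_add, add_mul, add_mul, g1, g2, qte_comm hf x, mul_sub, mul_assoc (s - r) y x]
      abel
    have c3 : (t - (s - r)) * (x * y - y * x) = 0 := by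
      rw [sub_mul, ← c1, ← c2, sub_self]
    rcases mul_eq_zero.1 c3 with c4 | c4
    · rw [sub_eq_zero] at c4
      rw [c4, sub_add_cancel]
    · exact absurd (sub_eq_zero.1 c4) hc

theorem exists_conj {K : Type u} [DivisionRing K] (h : Module.finrank (Subring.center K) K = 4) :
    ∃ c : K → K, (∀ a b, c (a + b) = c a + c b) ∧ (∀ a b, c (a * b) = c b * c a) ∧
      (∀ a, c (c a) = a) ∧ (∀ a, a + c a ∈ Subring.center K) ∧
      (∀ a, a * c a ∈ Subring.center K) ∧ ∀ a ∈ Subring.center K, c a = a := by
  have hadd : ∀ a b, qte_t h (a + b) - (a + b) = (qte_t h a - a) + (qte_t h b - b) := by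
    intro a b
    rw [qte_add h a b]
    abel
  have hcc : ∀ a, qte_t h (qte_t h a - a) - (qte_t h a - a) = a := by
    intro a
    have h1 := qte_lin h (x := a) (qte_t_mem h a) (neg_mem (one_mem (Subring.center K)))
    rw [neg_one_mul, neg_one_mul, ← sub_eq_add_neg, ← sub_eq_add_neg] at h1
    rw [h1, two_mul]
    abel
  have hsum : ∀ a, a + (qte_t h a - a) ∈ Subring.center K := by
    intro a
    rw [add_sub_cancel]
    exact qte_t_mem h a
  have hnrm : ∀ a, a * (qte_t h a - a) ∈ Subring.center K := by
    intro a
    obtain ⟨n, hn, he⟩ := qte_t_eq h a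
    rw [mul_sub, he, qte_comm (qte_t_mem h a) a, sub_sub_cancel]
    exact hn
  have hcen : ∀ a ∈ Subring.center K, qte_t h a - a = a := by
    intro a ha
    rw [qte_t_cen h ha, two_mul, add_sub_cancel_right]
  refine ⟨fun a => qte_t h a - a, hadd, ?_, hcc, hsum, hnrm, hcen⟩
  intro x y
  show qte_t h (x * y) - x * y = (qte_t h y - y) * (qte_t h x - x)
  obtain ⟨t, ht⟩ : ∃ t, t = qte_t h x := ⟨_, rfl⟩
  obtain ⟨r, hr⟩ : ∃ r, r = qte_t h y := ⟨_, rfl⟩
  have htm : t ∈ Subring.center K := by rw [ht]; exact qte_t_mem h _
  have hrm : r ∈ Subring.center K := by rw [hr]; exact qte_t_mem h _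
  have hnx : x * (t - x) ∈ Subring.center K := by rw [ht]; exact hnrm x
  have hny : y * (r - y) ∈ Subring.center K := by rw [hr]; exact hnrm y
  rw [← ht, ← hr]
  have hww : x * y * ((r - y) * (t - x)) = x * (t - x) * (y * (r - y)) := by
    calc x * y * ((r - y) * (t - x)) = x * ((y * (r - y)) * (t - x)) := by
          rw [mul_assoc, mul_assoc]
      _ = x * ((t - x) * (y * (r - y))) := by rw [qte_comm hny (t - x)]
      _ = x * (t - x) * (y * (r - y)) := by rw [mul_assoc]
  by_cases hw : x * y ∈ Subring.center K
  · rw [hcen _ hw]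
    by_cases hx0 : x = 0
    · have ht0 : t = 0 := by
        rw [ht, hx0, qte_t_cen h (zero_mem _), mul_zero]
      rw [hx0, ht0, zero_mul, sub_zero, mul_zero]
    · have hcx0 : t - x ≠ 0 := by
        intro h0
        have h1 := hcc x
        rw [← ht, h0, qte_t_cen h (zero_mem _), mul_zero, sub_zero] at h1
        exact hx0 h1.symm
      obtain ⟨n, hn⟩ : ∃ n, n = x * (t - x) := ⟨_, rfl⟩
      rw [← hn] at hnx hww
      have hn0 : n ≠ 0 := by
        rw [hn]
        exact mul_ne_zero hx0 hcx0
      -- y = (w / n) * c x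
      have hy : y = 0 + (n⁻¹ * (x * y)) * (t - x) := by
        have h1 : x * (0 + (n⁻¹ * (x * y)) * (t - x)) = x * y := by
          rw [zero_add, ← mul_assoc, qte_comm (qte_mul (qte_inv hnx) hw) x, mul_assoc, ← hn,
            qte_comm hnx, ← mul_assoc, mul_inv_cancel₀ hn0, one_mul]
        exact (mul_left_cancel₀ hx0 h1).symm
      have hry : r - y = n⁻¹ * (x * y) * x := by
        have h2 := qte_lin h (x := t - x) (zero_mem (Subring.center K))
          (qte_mul (qte_inv hnx) hw)
        rw [← hy, ← hr, mul_zero, zero_add] at h2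
        have h3 := hcc x
        rw [← ht] at h3
        have h4 : qte_t h (t - x) = x + (t - x) := by
          rw [← sub_eq_iff_eq_add]
          exact h3
        rw [h4] at h2
        calc r - y = n⁻¹ * (x * y) * (x + (t - x)) - (0 + n⁻¹ * (x * y) * (t - x)) := by
              rw [← hy, ← h2]
          _ = n⁻¹ * (x * y) * x := by
              rw [zero_add, mul_add, add_sub_cancel_right]
      rw [hry, mul_assoc (n⁻¹ * (x * y)) x (t - x), ← hn, qte_comm hnx, ← mul_assoc,
        mul_inv_cancel₀ hn0, one_mul]
  · obtain ⟨f, hf, he⟩ := qte_pol h x y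
    rw [qte_add h x y, ← ht, ← hr, add_sub_cancel_left, add_sub_cancel_right] at he
    have hs : x * y + (r - y) * (t - x) = t * r + f := by
      have h1 : (r - y) * (t - x) = t * r - r * x - t * y + y * x := by
        rw [sub_mul, mul_sub, mul_sub, qte_comm htm y, qte_comm htm r]
        abel
      rw [h1]
      have h2 : x * y + (t * r - r * x - t * y + y * x) = (x * y + y * x) + (t * r - r * x - t * y) := by
        abel
      rw [h2, he]
      abel
    have hsm : x * y + (r - y) * (t - x) ∈ Subring.center K := by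
      rw [hs]
      exact add_mem (qte_mul htm hrm) hf
    have hq : qte_t h (x * y) = x * y + (r - y) * (t - x) := by
      refine qte_uniq h hw hsm (qte_mul hnx hny) ?_
      rw [← hww, ← qte_comm hsm (x * y), mul_add, add_sub_cancel_right]
    rw [hq, add_sub_cancel_left]

end Pool.Agent.PLB
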