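import Pool.Agent.PLB.QtD
import Pool.Agent.PLB.QtE

set_option autoImplicit false

/-! Theorem PB, the coefficient division rings: which of them have an anti-automorphism.

PLAN. `qt_val`: suppose `v (c x) ≠ v x`, and (exchange `x` and `c x`) `v x < v (c x)`. `c x = t - x` (`t` central) commutes with `x`. Let
`y = c x * x⁻¹`, `0 < v y`, `c y = y⁻¹` (`c` is multiplicative in the reverse order, `c 1 = 1`), so `T = y + y⁻¹` is central. Define
`s 0 = 0`, `s (n + 1) = (T - s n)⁻¹`: central, `v (s n) > 0`, `v (T - s n) = - v y`, and `s (n + 1) - y = (s n - y) * (T - s n)⁻¹ * y` up to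
the order of the commuting factors (`y = (T - y)⁻¹`), so `v (s n - y)` tends to infinity; hence `y` commutes with everything
(`y w - w y = (y - s n) w - w (y - s n)`), so `y` is central, `c y = y`, `y = y⁻¹`, `y ^ 2 = 1`, `v y = 0`, contradiction.
`qt_main`: `→` is `qt_fwd`; `←`: the identity, or `exists_conj` with `qt_val`. -/

namespace Pool.Agent.PLB

universe u

variable {K : Type u} [DivisionRing K] {v : K → WithTop ℤ}

/-- a convergent sequence of central elements -/
private theorem qtf_seq (hv : IsCDV K v) {y : K} {m : ℤ} (hm : 1 ≤ m)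
    (hy : v y = (m : WithTop ℤ)) (hT : y + y⁻¹ ∈ Subring.center K) (n : ℕ) :
    ∃ a ∈ Subring.center K, (((n : ℤ) + 1 : ℤ) : WithTop ℤ) ≤ v (y - a) := by
  have hy0 : y ≠ 0 := hv.ne_zero hy
  induction n with
  | zero =>
    refine ⟨0, Subring.zero_mem _, ?_⟩
    rw [sub_zero, hy, WithTop.coe_le_coe]
    simpa using hm
  | succ n ih =>
    obtain ⟨a, ha, han⟩ := ih
    set b := y + y⁻¹ - a with hb
    have hbc : b ∈ Subring.center K := Subring.sub_mem _ hT ha
    have hb1 : ¬ ((1 : ℤ) : WithTop ℤ) ≤ v b := by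
      intro h
      have h1 : ((1 : ℤ) : WithTop ℤ) ≤ v (y - a) :=
        le_trans (WithTop.coe_le_coe.2 (by omega)) han
      have h2 := hv.sub h h1
      have h3 : b - (y - a) = y⁻¹ := by
        rw [hb]
        abel
      rw [h3, hv.inv hy, WithTop.coe_le_coe] at h2
      omega
    have hb0 : b ≠ 0 := by
      intro h
      rw [h, hv.zero] at hb1
      exact hb1 le_top
    obtain ⟨k, hk⟩ := hv.ex hb0
    rw [hk, WithTop.coe_le_coe] at hb1
    refine ⟨b⁻¹, ?_, ?_⟩
    · rw [Subring.mem_center_iff]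
      intro g
      have h1 : Commute g b := Subring.mem_center_iff.1 hbc g
      exact h1.inv_right₀
    · have h1 : y - b⁻¹ = b⁻¹ * ((y - a) * y) := by
        have h2 : (y - a) * y = b * y - 1 := by
          have h3 : b * y = (y - a) * y + 1 := by
            rw [hb]
            have h4 : y + y⁻¹ - a = (y - a) + y⁻¹ := by abel
            rw [h4, add_mul, inv_mul_cancel₀ hy0]
          rw [h3]
          abel
        rw [h2, mul_sub, inv_mul_cancel_left₀ hb0, mul_one]
      rw [h1, hv.le_mul_left (hv.inv hk), hv.le_mul_right hy]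
      refine le_trans (WithTop.coe_le_coe.2 ?_) han
      push_cast
      omega

private theorem qtf_lt (hv : IsCDV K v) {c : K → K} (h1 : ∀ a b, c (a * b) = c b * c a)
    (h2 : ∀ a, c (c a) = a) (h3 : ∀ a, a + c a ∈ Subring.center K)
    (h4 : ∀ a ∈ Subring.center K, c a = a) (x : K) : ¬ v x < v (c x) := by
  intro hlt
  have hx0 : x ≠ 0 := by
    rintro rfl
    rw [hv.zero] at hlt
    exact not_top_lt hlt
  have hc0 : c 0 = 0 := h4 0 (Subring.zero_mem _)
  have hc1 : c 1 = 1 := h4 1 (Subring.one_mem _)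
  have hcx0 : c x ≠ 0 := by
    intro h
    have h5 := h2 x
    rw [h, hc0] at h5
    exact hx0 h5.symm
  obtain ⟨i, hi⟩ := hv.ex hx0
  obtain ⟨j, hj⟩ := hv.ex hcx0
  rw [hi, hj, WithTop.coe_lt_coe] at hlt
  have hcomm : Commute (c x) x := by
    have h := Subring.mem_center_iff.1 (h3 x) x
    rw [mul_add, add_mul] at h
    exact (add_left_cancel h).symm
  have hcxi : c x⁻¹ = (c x)⁻¹ := by
    have h := h1 x x⁻¹
    rw [mul_inv_cancel₀ hx0, hc1] at h
    exact eq_inv_of_mul_eq_one_left h.symm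
  obtain ⟨y, hy⟩ : ∃ y, y = c x * x⁻¹ := ⟨_, rfl⟩
  have hcy : c y = y⁻¹ := by
    rw [hy, h1, h2, hcxi, mul_inv_rev, inv_inv]
    exact hcomm.inv_left₀
  have hvy : v y = ((j + -i : ℤ) : WithTop ℤ) := by
    rw [hy, hv.mul, hj, hv.inv hi, ← WithTop.coe_add]
  have hT : y + y⁻¹ ∈ Subring.center K := by
    rw [← hcy]
    exact h3 y
  have hseq := qtf_seq hv (by omega) hvy hT
  have hyc : y ∈ Subring.center K := by
    rw [Subring.mem_center_iff]
    intro w
    by_contra hne
    have hd : w * y - y * w ≠ 0 := sub_ne_zero.2 hne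
    have hw0 : w ≠ 0 := by
      rintro rfl
      rw [zero_mul, mul_zero] at hne
      exact hne rfl
    obtain ⟨k, hk⟩ := hv.ex hd
    obtain ⟨l, hl⟩ := hv.ex hw0
    obtain ⟨a, ha, han⟩ := hseq (k - l).toNat
    have e : w * y - y * w = w * (y - a) - (y - a) * w := by
      rw [mul_sub, sub_mul, Subring.mem_center_iff.1 ha w]
      abel
    have h5 : (((((k - l).toNat : ℕ) : ℤ) + 1 + l : ℤ) : WithTop ℤ) ≤ v (w * (y - a)) := by
      rw [hv.le_mul_left hl, add_sub_cancel_right]
      exact han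
    have h6 : (((((k - l).toNat : ℕ) : ℤ) + 1 + l : ℤ) : WithTop ℤ) ≤ v ((y - a) * w) := by
      rw [hv.le_mul_right hl, add_sub_cancel_right]
      exact han
    have h7 := hv.sub h5 h6
    rw [← e, hk, WithTop.coe_le_coe] at h7
    omega
  have h5 := h4 y hyc
  rw [hcy] at h5
  have h6 := hv.inv hvy
  rw [h5, hvy, WithTop.coe_inj] at h6
  omega

theorem qt_val (hv : IsCDV K v) {c : K → K} (h1 : ∀ a b, c (a * b) = c b * c a)
    (h2 : ∀ a, c (c a) = a) (h3 : ∀ a, a + c a ∈ Subring.center K)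
    (h4 : ∀ a ∈ Subring.center K, c a = a) (x : K) : v (c x) = v x := by
  refine le_antisymm (not_lt.1 (qtf_lt hv h1 h2 h3 h4 x)) (not_lt.1 fun h => ?_)
  refine qtf_lt hv h1 h2 h3 h4 (c x) ?_
  rwa [h2]

theorem qt_main (hv : IsCDV K v) : (∃ ψ, IsAntiAut K v ψ) ↔
    ((∀ a b : K, a * b = b * a) ∨ Module.finrank (Subring.center K) K = 4) := by
  constructor
  · rintro ⟨ψ, hψ⟩
    exact qt_fwd hv hψ
  · rintro (h | h)
    · exact ⟨id, Function.bijective_id, fun _ _ => rfl, fun a b => h a b, fun _ => rfl⟩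
    · obtain ⟨c, hadd, hmul, hinv, htr, -, hcen⟩ := exists_conj h
      exact ⟨c, (show Function.Involutive c from hinv).bijective, hadd, hmul,
        qt_val hv hmul hinv htr hcen⟩

end Pool.Agent.PLB
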