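import Pool.Agent.PLB.MainA
import Pool.Agent.PLB.Conv
import Pool.Agent.PLB.QtF
import Pool.Agent.PLB.UnE
import Pool.Agent.PLB.Fn
import Pool.Agent.PLB.FnE

set_option autoImplicit false

/-! Theorem PB: assembly. -/

namespace Pool.Agent.PLB

open Pool.Agent.Helper87.ML Pool.Agent.RIG

universe u

/-- `K` is commutative or has dimension 4 over its centre -/
def Quat (K : Type u) [DivisionRing K] : Prop :=
  (∀ a b : K, a * b = b * a) ∨ Module.finrank (Subring.center K) K = 4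

theorem planes_iff (L : Type u) [Lattice L] :
    (IsModularLattice L ∧ (∀ x : L, (Set.Iic x).Finite) ∧ Nonempty L ∧
      (∃ s : L → L, IsUp s ∧ ∀ x, IsPlane x (s x)) ∧ SD' L) ↔
    ∃ (K : Type u) (_ : DivisionRing K) (v : K → WithTop ℤ), IsCDV K v ∧ Quat K ∧
      Nonempty (L ≃o Lat K v) := by
  constructor
  · rintro ⟨hm, hf, hn, ⟨s, hs, hp⟩, hsd⟩
    obtain ⟨K, i, v, hv, hψ, e⟩ := main_fwd hf hsd hs hp
    exact ⟨K, i, v, hv, (qt_main hv).1 hψ, e⟩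
  · rintro ⟨K, i, v, hv, hq, ⟨e⟩⟩
    obtain ⟨ψ, hψ⟩ := (qt_main hv).2 hq
    exact converse hv hψ e

theorem mainPB : MainPB := by
  intro L _ _ hf hn hsd s hs hp
  exact main_fwd hf hsd hs hp

/-- `[z, t]` is isomorphic to the lattice of the elements `N` of `Lat K v` all of whose vectors have
coordinates of value at least `-j` -/
def IsBox' {M : Type u} [PartialOrder M] (j : ℕ) (z t : M) : Prop :=
  ∃ (K : Type) (_ : DivisionRing K) (v : K → WithTop ℤ), IsCDV K v ∧ Quat K ∧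
    Nonempty (Set.Icc z t ≃o
      {x : Lat K v // ∀ w ∈ x.1, ∀ i, ((-(j : ℤ) : ℤ) : WithTop ℤ) ≤ v (w i)})

theorem deep' (c j : ℕ) : ∃ N : ℕ, ∀ (M : Type u) [Lattice M] (s : M → M) (z : M),
    GoodTo M s z N → {p | z ⋖ p}.ncard ≤ c → IsBox' j z (s^[j] z) := by
  obtain ⟨N, hN⟩ := deep.{u} mainPB c j
  refine ⟨N, fun M _ s z h1 h2 => ?_⟩
  obtain ⟨K, i, v, hv, hψ, e⟩ := hN M s z h1 h2
  exact ⟨K, i, v, hv, (qt_main hv).1 hψ, e⟩

theorem box_deep' {K : Type} [DivisionRing K] {v : K → WithTop ℤ} (hv : IsCDV K v) (hq : Quat K)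
    (N : ℕ) :
    ∃ (M : Type) (_ : Lattice M) (s : M → M) (z : M), Finite M ∧ GoodTo M s z N ∧
      ∀ j ≤ N, Nonempty (Set.Icc z (s^[j] z) ≃o
        {x : Lat K v // ∀ w ∈ x.1, ∀ i, ((-(j : ℤ) : ℤ) : WithTop ℤ) ≤ v (w i)}) :=
  box_deep hv ((qt_main hv).2 hq) N

end Pool.Agent.PLB
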