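import Pool.Agent.PLB.TrX

set_option autoImplicit false

/-! Theorem PB, (4.2): the elements fixed by an elation. An elation with centre `p` and axis `l`
fixes exactly the elements `z` for which `mu p z - nu l z` is at least a certain integer. -/

namespace Pool.Agent.PLB

open Pool.Agent.Helper87.ML Pool.Agent.RIG OrderDual
open scoped commutatorElement

universe u

variable {X : Type u} [Lattice X] [IsModularLattice X] {s : X ≃o X} [PB X s]

/-- the case of equal levels -/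
private theorem fixa_eq (o : X) {p : Pt s} {l : Ln s} (hp : Inc p l) {t : Gp X}
    (ht : t ∈ El (Gp X) (Inc (s := s)) p l) {z y : X} (hz : (t : X ≃o X) z = z)
    (hn : nu o l y = nu o l z) (h : mu o p z ≤ mu o p y) : (t : X ≃o X) y = y := by
  haveI : Nonempty X := ⟨o⟩
  have hM : MP (Gp X) (Inc (s := s)) := mp s
  have htr : t ∈ Tr (Gp X) (Inc (s := s)) l := ⟨p, hp, ht⟩
  obtain ⟨e, he⟩ := hM.pp.off l
  obtain ⟨t1, ht1, hf1⟩ := split he z
  obtain ⟨t2, ht2, hf2⟩ := split he y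
  have c1 : t * t1 = t1 * t := tr_comm hM htr ht1
  have c2 : t * t2 = t2 * t := tr_comm hM htr ht2
  obtain ⟨z', hz'⟩ : ∃ z', z' = (t1 : X ≃o X) z := ⟨_, rfl⟩
  obtain ⟨y', hy'⟩ : ∃ y', y' = (t2 : X ≃o X) y := ⟨_, rfl⟩
  rw [← hz'] at hf1
  rw [← hy'] at hf2
  have tz : (t : X ≃o X) z' = z' := by
    have h1 : ((t * t1 : Gp X) : X ≃o X) z = ((t1 * t : Gp X) : X ≃o X) z := by rw [c1]
    have h2 : (t : X ≃o X) ((t1 : X ≃o X) z) = (t1 : X ≃o X) ((t : X ≃o X) z) := h1
    rw [hz, ← hz'] at h2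
    exact h2
  have mz : mu o p z' = mu o p z := by rw [hz', tr_mu o hp ht1]
  have my : mu o p y' = mu o p y := by rw [hy', tr_mu o hp ht2]
  have nz : nu o l z' = nu o l z := by rw [hz', tr_nu o ht1]
  have ny : nu o l y' = nu o l y := by rw [hy', tr_nu o ht2]
  have e1 : mu o e y' - mu o e z' = nu o l y' - nu o l z' := (mu_nu_eq o hf1 y').2 hf2
  have e2 : mu o e y' = mu o e z' := by
    rw [ny, nz, hn] at e1
    linarith
  obtain ⟨w, hw⟩ : ∃ w, w = z' ⊓ y' := ⟨_, rfl⟩
  have hwz : w ≤ z' := hw ▸ inf_le_left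
  have hwy : w ≤ y' := hw ▸ inf_le_right
  have mw : mu o p w = mu o p z' := by
    rw [hw, mu_inf, min_eq_left]
    rw [mz, my]
    exact h
  have ew : mu o e w = mu o e z' := by rw [hw, mu_inf, e2, min_self]
  have nw : nu o l w = nu o l z' := by
    apply le_antisymm (nu_mono o l hwz)
    have h1 := mu_nu_le o hf1 w
    rw [ew] at h1
    linarith
  have tw : (t : X ≃o X) w = w := (cx_iff o p z' _).1 (cx_el ht tz) w hwz mw
  have ty : (t : X ≃o X) y' = y' := by
    apply (ax_iff o l w _).1 (ax_tr htr tw) y' hwy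
    rw [nw, ny, nz, hn]
  have h1 : ((t * t2 : Gp X) : X ≃o X) y = ((t2 * t : Gp X) : X ≃o X) y := by rw [c2]
  have h2 : (t : X ≃o X) ((t2 : X ≃o X) y) = (t2 : X ≃o X) ((t : X ≃o X) y) := h1
  rw [← hy', ty, hy'] at h2
  exact ((t2 : X ≃o X).injective h2).symm

private theorem fixa_level (h : Ln s) (o x y : X) : ∃ a b : ℕ,
    nu o h (s^[a] x) = nu o h (s^[b] y) := by
  rcases le_total (nu o h x) (nu o h y) with h1 | h1
  · refine ⟨(nu o h y - nu o h x).toNat, 0, ?_⟩
    rw [nu_s, nu_s]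
    have h2 : (((nu o h y - nu o h x).toNat : ℕ) : ℤ) = nu o h y - nu o h x :=
      Int.toNat_of_nonneg (by linarith)
    rw [h2]
    push_cast
    ring
  · refine ⟨0, (nu o h x - nu o h y).toNat, ?_⟩
    rw [nu_s, nu_s]
    have h2 : (((nu o h x - nu o h y).toNat : ℕ) : ℤ) = nu o h x - nu o h y :=
      Int.toNat_of_nonneg (by linarith)
    rw [h2]
    push_cast
    ring

theorem fix_mono (o : X) {p : Pt s} {l : Ln s} (hp : Inc p l) {t : Gp X}
    (ht : t ∈ El (Gp X) (Inc (s := s)) p l) {z y : X} (hz : (t : X ≃o X) z = z)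
    (h : mu o p z - nu o l z ≤ mu o p y - nu o l y) : (t : X ≃o X) y = y := by
  obtain ⟨a, b, hab⟩ := fixa_level l o z y
  have h1 : (t : X ≃o X) (s^[a] z) = s^[a] z := by rw [aut_it s, hz]
  have h2 : mu o p (s^[a] z) ≤ mu o p (s^[b] y) := by
    have h3 := hab
    rw [nu_s, nu_s] at h3
    rw [mu_s, mu_s]
    linarith
  have h4 := fixa_eq o hp ht h1 hab.symm h2
  rw [aut_it s] at h4
  exact (s.injective.iterate b) h4

/-- `t` has value at least `n` (for an elation `t` with centre `p` and axis `l`) -/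
def Fx (o : X) (p : Pt s) (l : Ln s) (n : ℤ) (t : Gp X) : Prop :=
  ∀ z, -n ≤ mu o p z - nu o l z → (t : X ≃o X) z = z

omit [IsModularLattice X] [PB X s] in
theorem fx_anti {o : X} {p : Pt s} {l : Ln s} {m n : ℤ} (h : m ≤ n) {t : Gp X}
    (k : Fx o p l n t) : Fx o p l m t := fun z hz => k z (by linarith)

theorem fx_iff (o : X) {p : Pt s} {l : Ln s} (hp : Inc p l) {t : Gp X}
    (ht : t ∈ El (Gp X) (Inc (s := s)) p l) (z : X) :
    (t : X ≃o X) z = z ↔ Fx o p l (nu o l z - mu o p z) t := by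
  constructor
  · intro hz y hy
    exact fix_mono o hp ht hz (by linarith)
  · intro k
    exact k z (by linarith)

theorem fx_one (o : X) (p : Pt s) (l : Ln s) (n : ℤ) : Fx o p l n 1 := fun _ _ => rfl

theorem fx_mul {o : X} {p : Pt s} {l : Ln s} {n : ℤ} {t t' : Gp X} (h : Fx o p l n t)
    (h' : Fx o p l n t') : Fx o p l n (t * t') := by
  intro z hz
  show (t : X ≃o X) ((t' : X ≃o X) z) = z
  rw [h' z hz, h z hz]

theorem fx_inv {o : X} {p : Pt s} {l : Ln s} {n : ℤ} {t : Gp X} (h : Fx o p l n t) :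
    Fx o p l n t⁻¹ := by
  intro z hz
  show (t : X ≃o X).symm z = z
  rw [OrderIso.symm_apply_eq]
  exact (h z hz).symm

theorem lev_all (o : X) {p : Pt s} {l : Ln s} (hp : Inc p l) (n : ℤ) :
    ∃ z, mu o p z - nu o l z = n := by
  have hmo : mu o p o = 0 := (mu_spec o p).2
  have hno : nu o l o = 0 := (nu_spec o l).2
  obtain ⟨k, rfl | rfl⟩ := n.eq_nat_or_neg
  · refine ⟨p.1^[k] o, ?_⟩
    rw [mu_f, inc_nu_it o hp, hmo, hno]
    ring
  · obtain ⟨e, he, -⟩ := exists_off l l o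
    refine ⟨e.1^[k] o, ?_⟩
    have h1 : o ≤ e.1^[k] o := it_le_it e (Nat.zero_le k) o
    have h2 : mu o p (e.1^[k] o) = 0 := by
      apply le_antisymm
      · by_contra h3
        rw [not_le] at h3
        have h4 : p.1 o ≤ e.1^[k] o := by
          rw [mu_lev o p h1, hmo]
          exact h3
        have h5 := atom_of_le e k (p.2.cov o) h4
        apply he
        rw [← h5]
        exact hp o
      · have h3 := mu_mono o p h1
        rw [hmo] at h3
        exact h3
    rw [h2, far_nu o he, hno]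
    ring

theorem fx_ex (o : X) {p : Pt s} {l : Ln s} (hp : Inc p l) {t : Gp X}
    (ht : t ∈ El (Gp X) (Inc (s := s)) p l) (h1 : t ≠ 1) :
    ∃ n, Fx o p l n t ∧ ¬ Fx o p l (n + 1) t := by
  haveI : Nonempty X := ⟨o⟩
  have hinh : ∃ n, Fx o p l n t := by
    obtain ⟨z, hz⟩ := tr_fix (s := s) (l := l) (t := t) ⟨p, hp, ht⟩
    exact ⟨_, (fx_iff o hp ht z).1 hz⟩
  have hbd : ∃ b : ℤ, ∀ n, Fx o p l n t → n ≤ b := by
    by_contra hc
    apply h1
    apply Subtype.ext
    apply OrderIso.ext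
    funext z
    have h2 : ∃ n, Fx o p l n t ∧ nu o l z - mu o p z < n := by
      by_contra h3
      apply hc
      refine ⟨nu o l z - mu o p z, fun n hn => ?_⟩
      by_contra h4
      exact h3 ⟨n, hn, not_le.1 h4⟩
    obtain ⟨n, hn, hlt⟩ := h2
    exact (fx_iff o hp ht z).2 (fx_anti hlt.le hn)
  obtain ⟨n, hn, hmax⟩ := Int.exists_greatest_of_bdd hbd hinh
  refine ⟨n, hn, fun h2 => ?_⟩
  have h3 := hmax _ h2
  linarith

theorem fx_conj {o : X} (p : Pt s) (l : Ln s) (n : ℤ) (t g : Gp X)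
    (hg : (g : X ≃o X) o = o) :
    Fx o (g • p) (g • l) n (g * t * g⁻¹) ↔ Fx o p l n t := by
  have hm : ∀ z, mu o (g • p) ((g : X ≃o X) z) = mu o p z := by
    intro z
    have h1 := mu_smul o p (g : X ≃o X) z
    rw [hg] at h1
    exact h1
  have hn : ∀ z, nu o (g • l) ((g : X ≃o X) z) = nu o l z := by
    intro z
    have h1 := nu_smul o l (g : X ≃o X) z
    rw [hg] at h1
    exact h1
  constructor
  · intro k z hz
    have h1 := k ((g : X ≃o X) z) (by rw [hm, hn]; exact hz)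
    have h2 : (g : X ≃o X) ((t : X ≃o X) ((g : X ≃o X).symm ((g : X ≃o X) z))) =
        (g : X ≃o X) z := h1
    rw [OrderIso.symm_apply_apply] at h2
    exact (g : X ≃o X).injective h2
  · intro k z hz
    obtain ⟨y, rfl⟩ := (g : X ≃o X).surjective z
    rw [hm, hn] at hz
    show (g : X ≃o X) ((t : X ≃o X) ((g : X ≃o X).symm ((g : X ≃o X) y))) = (g : X ≃o X) y
    rw [OrderIso.symm_apply_apply, k y hz]

end Pool.Agent.PLB
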