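import Mathlib

set_option autoImplicit false

/-! Theorem PB, section 7: compactness (only Mathlib).

Let `U` be a nonprincipal ultrafilter on `ℕ` (`Filter.hyperfilter`).  For `x` in
`W N = Icc (t N 0) (t N N)` let `lv x` be the least `i` with `x ≤ t N i`; for `i ≤ N` choose an
injection `g N i` of `{x ∈ W N | lv x = i}` into `Fin (F i)` (finite of cardinality `≤ F i`,
`Set.ncard_le_ncard`, `Finite.card_le..`), and the code `cd N x = (lv x, g x) : ℕ × ℕ`; `cd N` is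
injective on `W N`.  `Rel N a b := ∃ x y ∈ W N, cd x = a, cd y = b, x ≤ y`.
`L = {a : ℕ × ℕ // ∀ᶠ N in U, Rel N a a}`, `a ≤ b := ∀ᶠ N in U, Rel N a b`: a partial order
(transitivity and antisymmetry by the injectivity of `cd N`).
`τ k`: for `N ≥ k` the code of `t N k` is in the finite set `C k = {(i, m) | i ≤ k, m < F i}`, so there is
`a ∈ C k` with `cd N (t N k) = a` for `U`-almost all `N` (an ultrafilter contains one member of a
finite cover: `Ultrafilter.eventually_exists_mem_iff`, `Set.Finite`).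
If `a ≤ τ i` then `a ∈ C i`; every `a = (i, m) ∈ L` satisfies `a ≤ τ i`.
Given `i` and `m`: for `U`-almost all `N` (in particular for some `N ≥ max i m`, the hyperfilter contains
all cofinite sets) we have `Rel N a b ↔ a ≤ b` for all `a, b ∈ C i` (finitely many conditions, and
`∀ᶠ ¬ P ↔ ¬ ∀ᶠ P` for ultrafilters; `Rel N a a ↔ a ∈ L`), and `cd N (t N k) = τ k` for `k ≤ i`.
Then `φ a` is the `x ∈ W N` with `cd N x = a`. -/

namespace Pool.Agent.PLB

universe u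

private theorem FnCL_code {α : Type u} {s : Set α} (hs : s.Finite) {n : ℕ} (h : s.ncard ≤ n) :
    ∃ g : α → ℕ, Set.InjOn g s ∧ ∀ x ∈ s, g x < n := by
  classical
  refine ⟨fun x => if hx : x ∈ hs.toFinset then ((hs.toFinset.equivFin ⟨x, hx⟩ : Fin _) : ℕ)
    else 0, ?_, ?_⟩
  · intro x hx y hy hxy
    have hx' : x ∈ hs.toFinset := hs.mem_toFinset.2 hx
    have hy' : y ∈ hs.toFinset := hs.mem_toFinset.2 hy
    simp only [hx', hy', dite_true] at hxy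
    have h1 := hs.toFinset.equivFin.injective (Fin.ext hxy)
    exact congrArg Subtype.val h1
  · intro x hx
    have hx' : x ∈ hs.toFinset := hs.mem_toFinset.2 hx
    simp only [hx', dite_true]
    refine lt_of_lt_of_le (Fin.is_lt _) ?_
    rwa [← Set.ncard_eq_toFinset_card s hs]

section one

variable {P : Type u} [PartialOrder P]

private noncomputable def FnCL_lv (t : ℕ → P) (x : P) : ℕ := sInf {i | x ≤ t i}

private noncomputable def FnCL_cd (t : ℕ → P) (g : ℕ → P → ℕ) (x : P) : ℕ × ℕ :=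
  (FnCL_lv t x, g (FnCL_lv t x) x)

private def FnCL_R (t : ℕ → P) (g : ℕ → P → ℕ) (N : ℕ) (a b : ℕ × ℕ) : Prop :=
  ∃ x y, x ∈ Set.Icc (t 0) (t N) ∧ y ∈ Set.Icc (t 0) (t N) ∧ FnCL_cd t g x = a ∧
    FnCL_cd t g y = b ∧ x ≤ y

private theorem FnCL_lv_le {t : ℕ → P} {x : P} {i : ℕ} (h : x ≤ t i) : FnCL_lv t x ≤ i :=
  Nat.sInf_le h

private theorem FnCL_le_lv {t : ℕ → P} {x : P} {i : ℕ} (h : x ≤ t i) : x ≤ t (FnCL_lv t x) :=
  Nat.sInf_mem (s := {i | x ≤ t i}) ⟨i, h⟩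

private theorem FnCL_inj {t : ℕ → P} {g : ℕ → P → ℕ} {N : ℕ}
    (hg : ∀ i, i ≤ N → Set.InjOn (g i) (Set.Icc (t 0) (t i))) {x y : P}
    (hx : x ∈ Set.Icc (t 0) (t N)) (hy : y ∈ Set.Icc (t 0) (t N))
    (h : FnCL_cd t g x = FnCL_cd t g y) : x = y := by
  have h1 : FnCL_lv t x = FnCL_lv t y := congrArg Prod.fst h
  have h2 : g (FnCL_lv t x) x = g (FnCL_lv t y) y := congrArg Prod.snd h
  rw [← h1] at h2
  refine hg _ (FnCL_lv_le hx.2) ⟨hx.1, FnCL_le_lv hx.2⟩ ⟨hy.1, ?_⟩ h2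
  rw [h1]
  exact FnCL_le_lv hy.2

private theorem FnCL_mem {t : ℕ → P} {g : ℕ → P → ℕ} {N : ℕ} {F : ℕ → ℕ}
    (hg : ∀ i, i ≤ N → ∀ x ∈ Set.Icc (t 0) (t i), g i x < F i) {i : ℕ} (hi : i ≤ N) {x : P}
    (hx : x ∈ Set.Icc (t 0) (t i)) :
    (FnCL_cd t g x).1 ≤ i ∧ (FnCL_cd t g x).2 < F (FnCL_cd t g x).1 := by
  have h1 : FnCL_lv t x ≤ i := FnCL_lv_le hx.2
  exact ⟨h1, hg _ (h1.trans hi) x ⟨hx.1, FnCL_le_lv hx.2⟩⟩

end one

private theorem FnCL_fin (F : ℕ → ℕ) (i : ℕ) :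
    {a : ℕ × ℕ | a.1 ≤ i ∧ a.2 < F a.1}.Finite := by
  refine ((Set.finite_Iic i).prod
    (Set.finite_Iic (∑ k ∈ Finset.range (i + 1), F k))).subset ?_
  rintro ⟨a, b⟩ ⟨h1, h2⟩
  refine ⟨h1, ?_⟩
  have h3 : F a ≤ ∑ k ∈ Finset.range (i + 1), F k :=
    Finset.single_le_sum (f := F) (fun _ _ => Nat.zero_le _)
      (Finset.mem_range.2 (Nat.lt_succ_of_le h1))
  exact h2.le.trans h3

private structure FnCL_L (E : ℕ × ℕ → ℕ × ℕ → Prop) where
  val : ℕ × ℕ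
  prop : E val val

private theorem FnCL_L_ext {E : ℕ × ℕ → ℕ × ℕ → Prop} {a b : FnCL_L E} (h : a.val = b.val) :
    a = b := by
  cases a
  cases b
  simp only at h
  subst h
  rfl

theorem compact_posets {Q : ℕ → Type u} [∀ N, PartialOrder (Q N)] (t : ∀ N, ℕ → Q N)
    (ht : ∀ N, Monotone (t N)) (F : ℕ → ℕ)
    (hF : ∀ N i, i ≤ N → (Set.Icc (t N 0) (t N i)).Finite ∧
      (Set.Icc (t N 0) (t N i)).ncard ≤ F i) :
    ∃ (L : Type) (_ : PartialOrder L) (τ : ℕ → L), Monotone τ ∧ (∀ a, τ 0 ≤ a) ∧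
      (∀ a, ∃ i, a ≤ τ i) ∧ ∀ i m : ℕ, ∃ N, m ≤ N ∧ i ≤ N ∧
        ∃ φ : Set.Icc (τ 0) (τ i) ≃o Set.Icc (t N 0) (t N i), ∀ k ≤ i, ∀ h,
          ((φ ⟨τ k, h⟩ : Set.Icc (t N 0) (t N i)) : Q N) = t N k := by
  classical
  -- the codes
  have hg0 : ∀ N i, ∃ g : Q N → ℕ, i ≤ N → Set.InjOn g (Set.Icc (t N 0) (t N i)) ∧
      ∀ x ∈ Set.Icc (t N 0) (t N i), g x < F i := by
    intro N i
    by_cases h : i ≤ N
    · obtain ⟨g, h1, h2⟩ := FnCL_code (hF N i h).1 (hF N i h).2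
      exact ⟨g, fun _ => ⟨h1, h2⟩⟩
    · exact ⟨fun _ => 0, fun h' => absurd h' h⟩
  choose g hg using hg0
  have hg1 : ∀ N i, i ≤ N → Set.InjOn (g N i) (Set.Icc (t N 0) (t N i)) := fun N i h => (hg N i h).1
  have hg2 : ∀ N i, i ≤ N → ∀ x ∈ Set.Icc (t N 0) (t N i), g N i x < F i :=
    fun N i h => (hg N i h).2
  let U : Ultrafilter ℕ := Filter.hyperfilter ℕ
  let R : ℕ → ℕ × ℕ → ℕ × ℕ → Prop := fun N => FnCL_R (t N) (g N) N
  let cd : ∀ N, Q N → ℕ × ℕ := fun N => FnCL_cd (t N) (g N)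
  let C : ℕ → Set (ℕ × ℕ) := fun i => {a | a.1 ≤ i ∧ a.2 < F a.1}
  have hC : ∀ i, (C i).Finite := FnCL_fin F
  have hinj : ∀ N {x y : Q N}, x ∈ Set.Icc (t N 0) (t N N) → y ∈ Set.Icc (t N 0) (t N N) →
      cd N x = cd N y → x = y := fun N x y hx hy h => FnCL_inj (hg1 N) hx hy h
  have hmem : ∀ N i, i ≤ N → ∀ x ∈ Set.Icc (t N 0) (t N i), cd N x ∈ C i :=
    fun N i hi x hx => FnCL_mem (hg2 N) hi hx
  have hR : ∀ N {x y : Q N}, x ∈ Set.Icc (t N 0) (t N N) → y ∈ Set.Icc (t N 0) (t N N) →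
      (R N (cd N x) (cd N y) ↔ x ≤ y) := by
    intro N x y hx hy
    constructor
    · rintro ⟨x', y', h1, h2, h3, h4, h5⟩
      rw [← hinj N h1 hx h3, ← hinj N h2 hy h4]
      exact h5
    · intro h
      exact ⟨x, y, hx, hy, rfl, rfl, h⟩
  have hW : ∀ N i, i ≤ N → ∀ x ∈ Set.Icc (t N 0) (t N i), x ∈ Set.Icc (t N 0) (t N N) :=
    fun N i hi x hx => ⟨hx.1, hx.2.trans (ht N hi)⟩
  have htW : ∀ N i, i ≤ N → t N i ∈ Set.Icc (t N 0) (t N N) :=
    fun N i hi => ⟨ht N (Nat.zero_le i), ht N hi⟩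
  have hge : ∀ m : ℕ, ∀ᶠ N in (U : Filter ℕ), m ≤ N := fun m =>
    Filter.Eventually.filter_mono Nat.hyperfilter_le_atTop (Filter.eventually_ge_atTop m)
  -- the limit
  let E : ℕ × ℕ → ℕ × ℕ → Prop := fun a b => ∀ᶠ N in (U : Filter ℕ), R N a b
  let po : PartialOrder (FnCL_L E) :=
    { le := fun a b => ∀ᶠ N in (U : Filter ℕ), R N a.val b.val
      le_refl := fun a => a.prop
      le_trans := by
        intro a b c h1 h2
        filter_upwards [h1, h2] with N h3 h4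
        obtain ⟨x, y, hx, hy, e1, e2, h5⟩ := h3
        obtain ⟨y', z, hy', hz, e3, e4, h6⟩ := h4
        have e5 : y = y' := hinj N hy hy' (e2.trans e3.symm)
        subst e5
        exact ⟨x, z, hx, hz, e1, e4, h5.trans h6⟩
      le_antisymm := by
        intro a b h1 h2
        obtain ⟨N, h3, h4⟩ := (h1.and h2).exists
        obtain ⟨x, y, hx, hy, e1, e2, h5⟩ := h3
        obtain ⟨y', x', hy', hx', e3, e4, h6⟩ := h4
        have e5 : y = y' := hinj N hy hy' (e2.trans e3.symm)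
        have e6 : x = x' := hinj N hx hx' (e1.trans e4.symm)
        subst e5
        subst e6
        have e7 : x = y := le_antisymm h5 h6
        subst e7
        exact FnCL_L_ext (e1.symm.trans e2) }
  -- the chain
  have hτ0 : ∀ k, ∃ a ∈ C k, ∀ᶠ N in (U : Filter ℕ), cd N (t N k) = a := by
    intro k
    refine (Ultrafilter.eventually_exists_mem_iff (hC k)).1 ?_
    filter_upwards [hge k] with N hN
    exact ⟨cd N (t N k), hmem N k hN (t N k) ⟨ht N (Nat.zero_le k), le_rfl⟩, rfl⟩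
  choose τ' hτC hτ' using hτ0
  have hτR : ∀ k, ∀ᶠ N in (U : Filter ℕ), R N (τ' k) (τ' k) := by
    intro k
    filter_upwards [hτ' k, hge k] with N h1 hN
    rw [← h1]
    exact (hR N (htW N k hN) (htW N k hN)).2 le_rfl
  let τ : ℕ → FnCL_L E := fun k => ⟨τ' k, hτR k⟩
  have hmono : Monotone τ := by
    intro k l hkl
    show ∀ᶠ N in (U : Filter ℕ), R N (τ' k) (τ' l)
    filter_upwards [hτ' k, hτ' l, hge l] with N h1 h2 hN
    rw [← h1, ← h2]
    exact (hR N (htW N k (hkl.trans hN)) (htW N l hN)).2 (ht N hkl)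
  have hbot : ∀ a : FnCL_L E, τ 0 ≤ a := by
    intro a
    show ∀ᶠ N in (U : Filter ℕ), R N (τ' 0) a.val
    filter_upwards [hτ' 0, a.prop] with N h1 h2
    obtain ⟨x, y, hx, hy, e1, e2, h5⟩ := h2
    rw [← h1, ← e1]
    exact (hR N (htW N 0 (Nat.zero_le N)) hx).2 hx.1
  have hcof : ∀ a : FnCL_L E, ∃ i, a ≤ τ i := by
    intro a
    refine ⟨a.val.1, ?_⟩
    show ∀ᶠ N in (U : Filter ℕ), R N a.val (τ' a.val.1)
    filter_upwards [hτ' a.val.1, hge a.val.1, a.prop] with N h1 hN h2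
    obtain ⟨x, y, hx, hy, e1, e2, h5⟩ := h2
    have h3 : x ≤ t N (FnCL_lv (t N) x) := FnCL_le_lv hx.2
    have h4 : FnCL_lv (t N) x = a.val.1 := congrArg Prod.fst e1
    rw [h4] at h3
    have h6 := (hR N hx (htW N a.val.1 hN)).2 h3
    rw [h1] at h6
    have h7 : cd N x = a.val := e1
    rw [h7] at h6
    exact h6
  have hle : ∀ (a : FnCL_L E) i, a ≤ τ i → a.val ∈ C i := by
    intro a i h
    obtain ⟨N, h1, h2, hN⟩ := (Filter.Eventually.and h ((hτ' i).and (hge i))).exists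
    obtain ⟨x, y, hx, hy, e1, e2, h5⟩ := h1
    have e3 : y = t N i := hinj N hy (htW N i hN) (e2.trans h2.symm)
    subst e3
    rw [← e1]
    exact hmem N i hN x ⟨hx.1, h5⟩
  refine ⟨FnCL_L E, po, τ, hmono, hbot, hcof, ?_⟩
  intro i m
  -- a good index
  have hgood : ∀ᶠ N in (U : Filter ℕ), ∀ a ∈ C i, ∀ b ∈ C i,
      (R N a b ↔ ∀ᶠ M in (U : Filter ℕ), R M a b) := by
    rw [Filter.eventually_all_finite (hC i)]
    intro a _
    rw [Filter.eventually_all_finite (hC i)]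
    intro b _
    by_cases h : ∀ᶠ M in (U : Filter ℕ), R M a b
    · filter_upwards [h] with N hN
      exact ⟨fun _ => h, fun _ => hN⟩
    · have h' := Ultrafilter.eventually_not.2 h
      filter_upwards [h'] with N hN
      exact ⟨fun h1 => absurd h1 hN, fun h1 => absurd h1 h⟩
  have hτi : ∀ᶠ N in (U : Filter ℕ), ∀ k ∈ Set.Iic i, cd N (t N k) = τ' k := by
    rw [Filter.eventually_all_finite (Set.finite_Iic i)]
    exact fun k _ => hτ' k
  obtain ⟨N, hE, hT, hi, hm⟩ := (hgood.and (hτi.and ((hge i).and (hge m)))).exists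
  refine ⟨N, hm, hi, ?_⟩
  have hex : ∀ a : Set.Icc (τ 0) (τ i), ∃ x : Set.Icc (t N 0) (t N i), cd N x.1 = a.1.val := by
    intro a
    have ha := hle a.1 i a.2.2
    have h1 : R N a.1.val (τ' i) := (hE _ ha _ (hτC i)).2 a.2.2
    obtain ⟨x, y, hx, hy, e1, e2, h5⟩ := h1
    have e3 : y = t N i :=
      hinj N hy (htW N i hi) (e2.trans (hT i (Set.mem_Iic.2 le_rfl)).symm)
    subst e3
    exact ⟨⟨x, hx.1, h5⟩, e1⟩
  choose φ hφ using hex
  have hord : ∀ a b : Set.Icc (τ 0) (τ i), φ a ≤ φ b ↔ a ≤ b := by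
    intro a b
    have h1 := hR N (hW N i hi _ (φ a).2) (hW N i hi _ (φ b).2)
    rw [hφ, hφ] at h1
    have h2 := hE _ (hle a.1 i a.2.2) _ (hle b.1 i b.2.2)
    exact h1.symm.trans h2
  have hsur : Function.Surjective φ := by
    intro x
    have hxC := hmem N i hi x.1 x.2
    have hxW := hW N i hi x.1 x.2
    have h1 : ∀ᶠ M in (U : Filter ℕ), R M (cd N x.1) (cd N x.1) :=
      (hE _ hxC _ hxC).1 ((hR N hxW hxW).2 le_rfl)
    have h2 : ∀ᶠ M in (U : Filter ℕ), R M (cd N x.1) (τ' i) := by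
      refine (hE _ hxC _ (hτC i)).1 ?_
      rw [← hT i (Set.mem_Iic.2 le_rfl)]
      exact (hR N hxW (htW N i hi)).2 x.2.2
    let a : FnCL_L E := ⟨cd N x.1, h1⟩
    refine ⟨⟨a, hbot a, h2⟩, ?_⟩
    apply Subtype.ext
    exact hinj N (hW N i hi _ (φ _).2) hxW (hφ _)
  let eo : Set.Icc (τ 0) (τ i) ↪o Set.Icc (t N 0) (t N i) :=
    OrderEmbedding.ofMapLEIff φ hord
  refine ⟨RelIso.ofSurjective eo hsur, ?_⟩
  intro k hk h
  show ((φ ⟨τ k, h⟩ : Set.Icc (t N 0) (t N i)) : Q N) = t N k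
  refine hinj N (hW N i hi _ (φ _).2) (htW N k (hk.trans hi)) ?_
  rw [hφ]
  exact (hT k (Set.mem_Iic.2 hk)).symm

end Pool.Agent.PLB
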