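import Pool.Agent.PLB.Conv

set_option autoImplicit false

/-! Theorem PB, section 7 (finite lattices): definitions. -/

namespace Pool.Agent.PLB

open Pool.Agent.Helper87.ML Pool.Agent.RIG

universe u

/-- the lattice `M` satisfies the hypotheses of Theorem PB between `z` and `s^N z` -/
structure GoodTo (M : Type u) [Lattice M] (s : M → M) (z : M) (N : ℕ) : Prop where
  mod : IsModularLattice M
  fin : LF M
  sd : SD' M
  up : IsUp s
  pl : ∀ y, z ≤ y → s y ≤ s^[N] z → IsPlane y (s y)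

/-- `L` is the union of the intervals `[τ 0, τ i]`, and each of them occurs in lattices which are
good up to any given level -/
structure Lim (L : Type) [PartialOrder L] (τ : ℕ → L) : Prop where
  mono : Monotone τ
  bot : ∀ a, τ 0 ≤ a
  cof : ∀ a, ∃ i, a ≤ τ i
  app : ∀ i : ℕ, ∃ (M : Type u) (_ : Lattice M) (s : M → M) (z : M), GoodTo M s z (i + 1) ∧
    ∃ φ : Set.Icc (τ 0) (τ i) ≃o Set.Icc z (s^[i] z), ∀ k ≤ i, ∀ h,
      ((φ ⟨τ k, h⟩ : Set.Icc z (s^[i] z)) : M) = s^[k] z

/-- the conclusion of Theorem PB for all lattices in `Type` -/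
def MainPB : Prop := ∀ (L : Type) [Lattice L] [IsModularLattice L],
  (∀ x : L, (Set.Iic x).Finite) → Nonempty L → SD' L → ∀ s : L → L, IsUp s →
  (∀ x, IsPlane x (s x)) → ∃ (K : Type) (_ : DivisionRing K) (v : K → WithTop ℤ),
    IsCDV K v ∧ (∃ ψ, IsAntiAut K v ψ) ∧ Nonempty (L ≃o Lat K v)

end Pool.Agent.PLB
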