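import Pool.Agent.PLB.FnDefs

set_option autoImplicit false

/-! Theorem PB, section 7: the limit is a lattice.

`lim_lub`: `a, b ≤ τ i`; `φ` from `app i`; the supremum of `φ a`, `φ b` in `M` lies in `[z, s^i z]`; let
`c` be its preimage.  If `d` is an upper bound of `a, b` in `L`, `d ≤ τ k`, `k ≥ i`, take the `φ'` of
`app k`: the preimage `c'` of `φ' a ⊔ φ' b` is the least upper bound of `a, b` in `[τ 0, τ k]`, so
`c' ≤ τ i`, `c' ≤ c` and (as `c' ∈ [τ 0, τ i]` is an upper bound) `c ≤ c'`; `c' ≤ d`.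
`lim_glb`: the same, easier (lower bounds of `a` are in `[τ 0, τ i]`).
`lim_sup_map`, `lim_inf_map`: `φ` preserves suprema and infima (the ones of `L` are in
`[τ 0, τ i]`).
`lim_mod`: apply `φ` (`IsModularLattice M`).  `lim_fin`: `Iic a ⊆ Icc (τ 0) (τ i)`, finite by `LF M`.
`lim_sd`: `[a, b]` is isomorphic to `[φ a, φ b]`. -/

namespace Pool.Agent.PLB

open Pool.Agent.Helper87.ML Pool.Agent.RIG

universe u

/-- least upper bounds in `[τ 0, τ i]` -/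
private lemma fnlat_lub {L : Type} [PartialOrder L] {τ : ℕ → L} (h : Lim.{u} L τ) (i : ℕ)
    {a b : L} (ha : a ≤ τ i) (hb : b ≤ τ i) :
    ∃ c, c ≤ τ i ∧ a ≤ c ∧ b ≤ c ∧ ∀ d, d ≤ τ i → a ≤ d → b ≤ d → c ≤ d := by
  obtain ⟨M, _, s, z, -, φ, -⟩ := h.app i
  have h1 : (φ ⟨a, h.bot a, ha⟩ : M) ⊔ (φ ⟨b, h.bot b, hb⟩ : M) ∈ Set.Icc z (s^[i] z) :=
    ⟨(φ ⟨a, h.bot a, ha⟩).2.1.trans le_sup_left,
      sup_le (φ ⟨a, h.bot a, ha⟩).2.2 (φ ⟨b, h.bot b, hb⟩).2.2⟩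
  refine ⟨φ.symm ⟨_, h1⟩, (φ.symm ⟨_, h1⟩).2.2, ?_, ?_, fun d hd had hbd => ?_⟩
  · have h2 : (⟨a, h.bot a, ha⟩ : Set.Icc (τ 0) (τ i)) ≤ φ.symm ⟨_, h1⟩ := by
      rw [φ.le_symm_apply]
      exact Subtype.mk_le_mk.2 le_sup_left
    exact h2
  · have h2 : (⟨b, h.bot b, hb⟩ : Set.Icc (τ 0) (τ i)) ≤ φ.symm ⟨_, h1⟩ := by
      rw [φ.le_symm_apply]
      exact Subtype.mk_le_mk.2 le_sup_right
    exact h2
  · have h2 : φ.symm ⟨_, h1⟩ ≤ (⟨d, h.bot d, hd⟩ : Set.Icc (τ 0) (τ i)) := by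
      rw [φ.symm_apply_le]
      have h3 : φ ⟨a, h.bot a, ha⟩ ≤ φ ⟨d, h.bot d, hd⟩ := φ.monotone (Subtype.mk_le_mk.2 had)
      have h4 : φ ⟨b, h.bot b, hb⟩ ≤ φ ⟨d, h.bot d, hd⟩ := φ.monotone (Subtype.mk_le_mk.2 hbd)
      have h5 : (φ ⟨a, h.bot a, ha⟩ : M) ⊔ (φ ⟨b, h.bot b, hb⟩ : M) ≤ (φ ⟨d, h.bot d, hd⟩ : M) :=
        sup_le h3 h4
      exact h5
    exact h2

/-- greatest lower bounds in `[τ 0, τ i]` -/
private lemma fnlat_glb {L : Type} [PartialOrder L] {τ : ℕ → L} (h : Lim.{u} L τ) (i : ℕ)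
    {a b : L} (ha : a ≤ τ i) (hb : b ≤ τ i) :
    ∃ c, c ≤ a ∧ c ≤ b ∧ ∀ d, d ≤ a → d ≤ b → d ≤ c := by
  obtain ⟨M, _, s, z, -, φ, -⟩ := h.app i
  have h1 : (φ ⟨a, h.bot a, ha⟩ : M) ⊓ (φ ⟨b, h.bot b, hb⟩ : M) ∈ Set.Icc z (s^[i] z) :=
    ⟨le_inf (φ ⟨a, h.bot a, ha⟩).2.1 (φ ⟨b, h.bot b, hb⟩).2.1,
      inf_le_left.trans (φ ⟨a, h.bot a, ha⟩).2.2⟩
  refine ⟨φ.symm ⟨_, h1⟩, ?_, ?_, fun d had hbd => ?_⟩
  · have h2 : φ.symm ⟨_, h1⟩ ≤ (⟨a, h.bot a, ha⟩ : Set.Icc (τ 0) (τ i)) := by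
      rw [φ.symm_apply_le]
      exact Subtype.mk_le_mk.2 inf_le_left
    exact h2
  · have h2 : φ.symm ⟨_, h1⟩ ≤ (⟨b, h.bot b, hb⟩ : Set.Icc (τ 0) (τ i)) := by
      rw [φ.symm_apply_le]
      exact Subtype.mk_le_mk.2 inf_le_right
    exact h2
  · have hd : d ≤ τ i := had.trans ha
    have h2 : (⟨d, h.bot d, hd⟩ : Set.Icc (τ 0) (τ i)) ≤ φ.symm ⟨_, h1⟩ := by
      rw [φ.le_symm_apply]
      have h3 : φ ⟨d, h.bot d, hd⟩ ≤ φ ⟨a, h.bot a, ha⟩ := φ.monotone (Subtype.mk_le_mk.2 had)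
      have h4 : φ ⟨d, h.bot d, hd⟩ ≤ φ ⟨b, h.bot b, hb⟩ := φ.monotone (Subtype.mk_le_mk.2 hbd)
      have h5 : (φ ⟨d, h.bot d, hd⟩ : M) ≤ (φ ⟨a, h.bot a, ha⟩ : M) ⊓ (φ ⟨b, h.bot b, hb⟩ : M) :=
        le_inf h3 h4
      exact h5
    exact h2

private lemma fnlat_cof {L : Type} [PartialOrder L] {τ : ℕ → L} (h : Lim.{u} L τ) (a b : L) :
    ∃ i, a ≤ τ i ∧ b ≤ τ i := by
  obtain ⟨i, hi⟩ := h.cof a
  obtain ⟨j, hj⟩ := h.cof b
  exact ⟨max i j, hi.trans (h.mono (le_max_left i j)), hj.trans (h.mono (le_max_right i j))⟩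

lemma lim_lub {L : Type} [PartialOrder L] {τ : ℕ → L} (h : Lim.{u} L τ) (a b : L) :
    ∃ c, IsLUB {a, b} c := by
  obtain ⟨i, ha, hb⟩ := fnlat_cof h a b
  obtain ⟨c, hc, hac, hbc, hmin⟩ := fnlat_lub h i ha hb
  refine ⟨c, ?_, fun d hd => ?_⟩
  · rintro x (rfl | rfl)
    · exact hac
    · exact hbc
  · have had : a ≤ d := hd (Set.mem_insert _ _)
    have hbd : b ≤ d := hd (Set.mem_insert_of_mem _ (Set.mem_singleton _))
    obtain ⟨k, hk⟩ := h.cof d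
    have hdk : d ≤ τ (max i k) := hk.trans (h.mono (le_max_right i k))
    have hik : τ i ≤ τ (max i k) := h.mono (le_max_left i k)
    obtain ⟨c', -, hac', hbc', hmin'⟩ := fnlat_lub h (max i k) (ha.trans hik) (hb.trans hik)
    have h1 : c' ≤ τ i := hmin' _ hik ha hb
    exact (hmin c' h1 hac' hbc').trans (hmin' d hdk had hbd)

lemma lim_glb {L : Type} [PartialOrder L] {τ : ℕ → L} (h : Lim.{u} L τ) (a b : L) :
    ∃ c, IsGLB {a, b} c := by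
  obtain ⟨i, ha, hb⟩ := fnlat_cof h a b
  obtain ⟨c, hac, hbc, hmax⟩ := fnlat_glb h i ha hb
  refine ⟨c, ?_, fun d hd => ?_⟩
  · rintro x (rfl | rfl)
    · exact hac
    · exact hbc
  · exact hmax d (hd (Set.mem_insert _ _)) (hd (Set.mem_insert_of_mem _ (Set.mem_singleton _)))

/-- the lattice structure of the limit -/
@[reducible] noncomputable def limLat {L : Type} [P : PartialOrder L] {τ : ℕ → L}
    (h : Lim.{u} L τ) : Lattice L :=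
  { P with
    sup := fun a b => (lim_lub h a b).choose
    inf := fun a b => (lim_glb h a b).choose
    le_sup_left := fun a b => (lim_lub h a b).choose_spec.1 (Set.mem_insert _ _)
    le_sup_right := fun a b =>
      (lim_lub h a b).choose_spec.1 (Set.mem_insert_of_mem _ (Set.mem_singleton _))
    sup_le := fun a b c h1 h2 => (lim_lub h a b).choose_spec.2 (by
      rintro x (rfl | rfl)
      · exact h1
      · exact h2)
    inf_le_left := fun a b => (lim_glb h a b).choose_spec.1 (Set.mem_insert _ _)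
    inf_le_right := fun a b =>
      (lim_glb h a b).choose_spec.1 (Set.mem_insert_of_mem _ (Set.mem_singleton _))
    le_inf := fun a b c h1 h2 => (lim_glb h b c).choose_spec.2 (by
      rintro x (rfl | rfl)
      · exact h1
      · exact h2) }

lemma lim_sup_map {L : Type} [PartialOrder L] {τ : ℕ → L} (h : Lim.{u} L τ) {M : Type u}
    [Lattice M] {z t : M} {i : ℕ} (φ : Set.Icc (τ 0) (τ i) ≃o Set.Icc z t)
    (a b : Set.Icc (τ 0) (τ i)) (hab : (limLat h).sup a.1 b.1 ∈ Set.Icc (τ 0) (τ i)) :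
    ((φ ⟨(limLat h).sup a.1 b.1, hab⟩ : Set.Icc z t) : M) = (φ a : M) ⊔ (φ b : M) := by
  apply le_antisymm
  · have h1 : (φ a : M) ⊔ (φ b : M) ∈ Set.Icc z t :=
      ⟨(φ a).2.1.trans le_sup_left, sup_le (φ a).2.2 (φ b).2.2⟩
    have h2 : a ≤ φ.symm ⟨_, h1⟩ := by
      rw [φ.le_symm_apply]
      exact Subtype.mk_le_mk.2 le_sup_left
    have h3 : b ≤ φ.symm ⟨_, h1⟩ := by
      rw [φ.le_symm_apply]
      exact Subtype.mk_le_mk.2 le_sup_right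
    have h4 : (limLat h).sup a.1 b.1 ≤ (φ.symm ⟨_, h1⟩ : Set.Icc (τ 0) (τ i)).1 :=
      (limLat h).sup_le _ _ _ h2 h3
    have h5 : (⟨(limLat h).sup a.1 b.1, hab⟩ : Set.Icc (τ 0) (τ i)) ≤ φ.symm ⟨_, h1⟩ := h4
    rw [φ.le_symm_apply] at h5
    exact h5
  · have h1 : a ≤ (⟨(limLat h).sup a.1 b.1, hab⟩ : Set.Icc (τ 0) (τ i)) :=
      (limLat h).le_sup_left a.1 b.1
    have h2 : b ≤ (⟨(limLat h).sup a.1 b.1, hab⟩ : Set.Icc (τ 0) (τ i)) :=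
      (limLat h).le_sup_right a.1 b.1
    exact sup_le (φ.monotone h1) (φ.monotone h2)

lemma lim_inf_map {L : Type} [PartialOrder L] {τ : ℕ → L} (h : Lim.{u} L τ) {M : Type u}
    [Lattice M] {z t : M} {i : ℕ} (φ : Set.Icc (τ 0) (τ i) ≃o Set.Icc z t)
    (a b : Set.Icc (τ 0) (τ i)) (hab : (limLat h).inf a.1 b.1 ∈ Set.Icc (τ 0) (τ i)) :
    ((φ ⟨(limLat h).inf a.1 b.1, hab⟩ : Set.Icc z t) : M) = (φ a : M) ⊓ (φ b : M) := by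
  apply le_antisymm
  · have h1 : (⟨(limLat h).inf a.1 b.1, hab⟩ : Set.Icc (τ 0) (τ i)) ≤ a :=
      (limLat h).inf_le_left a.1 b.1
    have h2 : (⟨(limLat h).inf a.1 b.1, hab⟩ : Set.Icc (τ 0) (τ i)) ≤ b :=
      (limLat h).inf_le_right a.1 b.1
    exact le_inf (φ.monotone h1) (φ.monotone h2)
  · have h1 : (φ a : M) ⊓ (φ b : M) ∈ Set.Icc z t :=
      ⟨le_inf (φ a).2.1 (φ b).2.1, inf_le_left.trans (φ a).2.2⟩
    have h2 : φ.symm ⟨_, h1⟩ ≤ a := by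
      rw [φ.symm_apply_le]
      exact Subtype.mk_le_mk.2 inf_le_left
    have h3 : φ.symm ⟨_, h1⟩ ≤ b := by
      rw [φ.symm_apply_le]
      exact Subtype.mk_le_mk.2 inf_le_right
    have h4 : (φ.symm ⟨_, h1⟩ : Set.Icc (τ 0) (τ i)).1 ≤ (limLat h).inf a.1 b.1 :=
      (limLat h).le_inf _ _ _ h2 h3
    have h5 : φ.symm ⟨_, h1⟩ ≤ (⟨(limLat h).inf a.1 b.1, hab⟩ : Set.Icc (τ 0) (τ i)) := h4
    rw [φ.symm_apply_le] at h5
    exact h5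

lemma lim_mod {L : Type} [PartialOrder L] {τ : ℕ → L} (h : Lim.{u} L τ) :
    @IsModularLattice L (limLat h) := by
  refine @IsModularLattice.mk L (limLat h) ?_
  intro x y w hxw
  obtain ⟨i, hx, hy⟩ := fnlat_cof h x y
  obtain ⟨j, hj, hw⟩ := fnlat_cof h x w
  have hi : τ i ≤ τ (max i j) := h.mono (le_max_left _ _)
  have hj' : τ j ≤ τ (max i j) := h.mono (le_max_right _ _)
  obtain ⟨n, hn⟩ : ∃ n, n = max i j := ⟨_, rfl⟩
  rw [← hn] at hi hj'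
  have kx : x ∈ Set.Icc (τ 0) (τ n) := ⟨h.bot x, hx.trans hi⟩
  have ky : y ∈ Set.Icc (τ 0) (τ n) := ⟨h.bot y, hy.trans hi⟩
  have kw : w ∈ Set.Icc (τ 0) (τ n) := ⟨h.bot w, hw.trans hj'⟩
  have k1 : (limLat h).sup x y ∈ Set.Icc (τ 0) (τ n) := ⟨h.bot _, (limLat h).sup_le _ _ _ kx.2 ky.2⟩
  have k2 : (limLat h).inf y w ∈ Set.Icc (τ 0) (τ n) :=
    ⟨h.bot _, ((limLat h).inf_le_left y w).trans ky.2⟩
  have k3 : (limLat h).inf ((limLat h).sup x y) w ∈ Set.Icc (τ 0) (τ n) :=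
    ⟨h.bot _, ((limLat h).inf_le_right _ w).trans kw.2⟩
  have k4 : (limLat h).sup x ((limLat h).inf y w) ∈ Set.Icc (τ 0) (τ n) :=
    ⟨h.bot _, (limLat h).sup_le _ _ _ kx.2 k2.2⟩
  obtain ⟨M, iM, s, z, hM, φ, -⟩ := h.app n
  have iMod : IsModularLattice M := hM.mod
  have e1 := lim_sup_map h φ ⟨x, kx⟩ ⟨y, ky⟩ k1
  have e2 := lim_inf_map h φ ⟨y, ky⟩ ⟨w, kw⟩ k2
  have e3 := lim_inf_map h φ ⟨(limLat h).sup x y, k1⟩ ⟨w, kw⟩ k3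
  have e4 := lim_sup_map h φ ⟨x, kx⟩ ⟨(limLat h).inf y w, k2⟩ k4
  rw [e1] at e3
  rw [e2] at e4
  have hxw' : (φ ⟨x, kx⟩ : M) ≤ (φ ⟨w, kw⟩ : M) :=
    φ.monotone (show (⟨x, kx⟩ : Set.Icc (τ 0) (τ n)) ≤ ⟨w, kw⟩ from hxw)
  have h5 : (φ ⟨_, k3⟩ : M) ≤ (φ ⟨_, k4⟩ : M) := by
    rw [e3, e4]
    exact sup_inf_le_assoc_of_le _ hxw'
  have h6 : (⟨_, k3⟩ : Set.Icc (τ 0) (τ n)) ≤ ⟨_, k4⟩ := φ.le_iff_le.1 h5
  exact h6

lemma lim_fin {L : Type} [PartialOrder L] {τ : ℕ → L} (h : Lim.{u} L τ) (a : L) :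
    (Set.Iic a).Finite := by
  obtain ⟨i, hi⟩ := h.cof a
  obtain ⟨M, iM, s, z, hM, φ, -⟩ := h.app i
  have h1 : Finite (Set.Icc z (s^[i] z)) := (hM.fin z (s^[i] z)).to_subtype
  have h2 : Finite (Set.Icc (τ 0) (τ i)) := Finite.of_equiv _ φ.symm.toEquiv
  exact (Set.toFinite (Set.Icc (τ 0) (τ i))).subset fun x hx => ⟨h.bot x, le_trans hx hi⟩

/-- intervals inside isomorphic intervals -/
private noncomputable def fnlat_iso {L : Type} [PartialOrder L] {M : Type u} [PartialOrder M]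
    {p q : L} {z t : M} (φ : Set.Icc p q ≃o Set.Icc z t) (x y : Set.Icc p q) :
    Set.Icc x.1 y.1 ≃o Set.Icc (φ x : M) (φ y : M) where
  toFun w := ⟨φ ⟨w.1, x.2.1.trans w.2.1, w.2.2.trans y.2.2⟩,
    φ.monotone (show x ≤ ⟨w.1, x.2.1.trans w.2.1, w.2.2.trans y.2.2⟩ from w.2.1),
    φ.monotone (show (⟨w.1, x.2.1.trans w.2.1, w.2.2.trans y.2.2⟩ : Set.Icc p q) ≤ y from w.2.2)⟩
  invFun v := ⟨φ.symm ⟨v.1, (φ x).2.1.trans v.2.1, v.2.2.trans (φ y).2.2⟩,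
    (φ.le_symm_apply).2 (show φ x ≤ ⟨v.1, (φ x).2.1.trans v.2.1, v.2.2.trans (φ y).2.2⟩ from v.2.1),
    (φ.symm_apply_le).2 (show (⟨v.1, (φ x).2.1.trans v.2.1, v.2.2.trans (φ y).2.2⟩ : Set.Icc z t) ≤
      φ y from v.2.2)⟩
  left_inv w := by
    apply Subtype.ext
    show ((φ.symm (φ ⟨w.1, x.2.1.trans w.2.1, w.2.2.trans y.2.2⟩) : Set.Icc p q) : L) = w.1
    rw [φ.symm_apply_apply]
  right_inv v := by
    apply Subtype.ext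
    show ((φ (φ.symm ⟨v.1, (φ x).2.1.trans v.2.1, v.2.2.trans (φ y).2.2⟩) : Set.Icc z t) : M) = v.1
    rw [φ.apply_symm_apply]
  map_rel_iff' := by
    intro w w'
    show (φ ⟨w.1, x.2.1.trans w.2.1, w.2.2.trans y.2.2⟩ : Set.Icc z t) ≤
      φ ⟨w'.1, x.2.1.trans w'.2.1, w'.2.2.trans y.2.2⟩ ↔ w ≤ w'
    rw [φ.le_iff_le]
    exact Iff.rfl

lemma lim_sd {L : Type} [PartialOrder L] {τ : ℕ → L} (h : Lim.{u} L τ) : SD' L := by
  intro x y hxy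
  obtain ⟨i, hi⟩ := h.cof y
  obtain ⟨M, iM, s, z, hM, φ, -⟩ := h.app i
  let x' : Set.Icc (τ 0) (τ i) := ⟨x, h.bot x, hxy.trans hi⟩
  let y' : Set.Icc (τ 0) (τ i) := ⟨y, h.bot y, hi⟩
  have h1 : (φ x' : M) ≤ (φ y' : M) := φ.monotone (show x' ≤ y' from hxy)
  obtain ⟨ψ⟩ := hM.sd _ _ h1
  have e : Set.Icc x y ≃o Set.Icc (φ x' : M) (φ y' : M) := fnlat_iso φ x' y'
  exact ⟨e.trans (ψ.trans e.symm.dual)⟩

end Pool.Agent.PLB
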