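import Mathlib

set_option autoImplicit false

/-! Theorem PB, (2.7): the group theoretic part.

PLAN. Conjugation by `θ` maps `A` onto `B` and `K` onto `K'`, so `K'.relIndex B = K.relIndex A` is finite and
nonzero. `K' = K ⊓ B`. The map `B / (K ⊓ B) → A / K` induced by the inclusion is injective; both sets are finite of the
same size, so it is surjective: every `a` in `A` is `b * k`. Apply this to the inverse of `a`. (Work in the group `A`:
`K.subgroupOf A`, `B.subgroupOf A`; or with `Subgroup.relIndex` and `Subgroup.relIndex_mul_relIndex`.) -/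

namespace Pool.Agent.PLB

theorem cosets {Γ : Type*} [Group Γ] (A B K K' : Subgroup Γ) (hB : B ≤ A) (hK : K ≤ A)
    (θ : Γ) (hθ : ∀ a, a ∈ A ↔ θ * a * θ⁻¹ ∈ B) (hθK : ∀ a, a ∈ K ↔ θ * a * θ⁻¹ ∈ K')
    (hKK : ∀ b ∈ B, b ∈ K' ↔ b ∈ K) (hfin : K.relIndex A ≠ 0) {a : Γ} (ha : a ∈ A) :
    ∃ k ∈ K, ∃ b ∈ B, a = k * b := by
  have hmap : ∀ (S T : Subgroup Γ), (∀ a, a ∈ S ↔ θ * a * θ⁻¹ ∈ T) →
      S.map (MulAut.conj θ).toMonoidHom = T := by
    intro S T h
    ext x
    rw [Subgroup.mem_map]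
    constructor
    · rintro ⟨y, hy, rfl⟩
      exact (h y).1 hy
    · intro hx
      refine ⟨θ⁻¹ * x * θ, (h _).2 ?_, ?_⟩
      · have e : θ * (θ⁻¹ * x * θ) * θ⁻¹ = x := by group
        rw [e]
        exact hx
      · show θ * (θ⁻¹ * x * θ) * θ⁻¹ = x
        group
  have h1 : K'.relIndex B = K.relIndex A := by
    have h2 := Subgroup.relIndex_map_map_of_injective (f := (MulAut.conj θ).toMonoidHom) K A
      (MulAut.conj θ).injective
    rw [hmap A B hθ, hmap K K' hθK] at h2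
    exact h2
  have h3 : K'.subgroupOf B = K.subgroupOf B := by
    ext x
    rw [Subgroup.mem_subgroupOf, Subgroup.mem_subgroupOf]
    exact hKK x x.2
  have h4 : K.relIndex B = K.relIndex A := by
    rw [← h1]
    unfold Subgroup.relIndex
    rw [h3]
  have hf : Finite (A ⧸ K.subgroupOf A) := by
    apply Nat.finite_of_card_ne_zero
    exact hfin
  have hb := (Subgroup.quotientSubgroupOfEmbeddingOfLE K hB).injective.bijective_of_nat_card_le
    (le_of_eq (show Nat.card (A ⧸ K.subgroupOf A) = Nat.card (B ⧸ K.subgroupOf B) from h4.symm))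
  obtain ⟨q, hq⟩ := hb.2 (QuotientGroup.mk (⟨a⁻¹, A.inv_mem ha⟩ : A))
  obtain ⟨b, rfl⟩ := QuotientGroup.mk_surjective q
  rw [Subgroup.quotientSubgroupOfEmbeddingOfLE_apply_mk, QuotientGroup.eq,
    Subgroup.mem_subgroupOf] at hq
  have hq' : (b : Γ)⁻¹ * a⁻¹ ∈ K := hq
  refine ⟨((b : Γ)⁻¹ * a⁻¹)⁻¹, K.inv_mem hq', (b : Γ)⁻¹, B.inv_mem b.2, ?_⟩
  group

end Pool.Agent.PLB
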