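import Pool.Agent.PLB.LamB
import Pool.Agent.PLB.GrpI

set_option autoImplicit false

/-! Theorem PB, (2.7) and (2.8).

PLAN. `idx`: `cosets` with `A = {g | Ax h x g}`, `B = {g | Ax h (f^m x) g}`, `y = Hk h n x`,
`K = {g ∈ A | Triv g y (s^n y)}`, `y' = Hk h n (f^m x)`, `K' = {g ∈ B | Triv g y' (s^n y')}` (subgroups of `X ≃o X`),
`θ` from `hom_far` (`θ x = f^m x`, `θ • f = f`, `θ • h = h`; `Far f h (f^m x)`: `far_f`). `B ≤ A`: `ax_it`. `hθ`: `ax_smul`.
`hθK`: `θ y = y'` (`smul_Hk`), `θ (s^n y) = s^n y'`. `hKK`: for `b ∈ B`: `lam` at the base `y` (`far_Hk`, `ax_Hk`;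
`f^(m+n) y = s^n (f^m x)` by `far_top` is fixed by `b`), and `f^m y = y'` (`far_comm`). `hfin`: two elements of `A` with the
same restriction to the finite interval `[y, s^n y]` (which `A` preserves) are in the same coset of `K`.
`triv_mono`: by induction it suffices to pass from `n + 1` to `n`. Let `z = Hk h (n+1) x`. `Triv g z (s^(n+1) z)` gives
`Triv g z (s^n z)`; `lam` at the base `z` with `m = 1` (`g` fixes `f^(1+n) z = s^(n+1) x`, `far_top` with `i = 0`, `x` fixed):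
`Triv g (f z) (s^n (f z))`, and `f z = s (Hk h n x)` (`far_next`); `triv_s`. -/

namespace Pool.Agent.PLB

open Pool.Agent.Helper87.ML Pool.Agent.RIG OrderDual

universe u

variable {X : Type u} [Lattice X] [IsModularLattice X] {s : X ≃o X} [PB X s]

omit [IsModularLattice X] [PB X s] in
private lemma idxa_fix {h : Ln s} {x : X} {g : X → X} (k : Ax h x g) : g x = x :=
  k 0 x le_rfl le_rfl

/-- the subgroup of elements fixing everything between `x` and `h` -/
private def idxA (h : Ln s) (x : X) : Subgroup (X ≃o X) where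
  carrier := {g | Ax h x g}
  mul_mem' := by
    intro a b ha hb k y h1 h2
    show a (b y) = y
    rw [hb k y h1 h2, ha k y h1 h2]
  one_mem' := fun _ _ _ _ => rfl
  inv_mem' := by
    intro a ha k y h1 h2
    have e : a y = y := ha k y h1 h2
    show a.symm y = y
    rw [OrderIso.symm_apply_eq]
    exact e.symm

/-- the subgroup of elements of `idxA` which are trivial on `[a, b]` -/
private def idxK (h : Ln s) (x a b : X) : Subgroup (X ≃o X) where
  carrier := {g | Ax h x g ∧ Triv g a b}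
  mul_mem' := by
    rintro c d ⟨hc, hc'⟩ ⟨hd, hd'⟩
    refine ⟨(idxA h x).mul_mem hc hd, fun y h1 h2 => ?_⟩
    show c (d y) = y
    rw [hd' y h1 h2, hc' y h1 h2]
  one_mem' := ⟨fun _ _ _ _ => rfl, fun _ _ _ => rfl⟩
  inv_mem' := by
    rintro c ⟨hc, hc'⟩
    refine ⟨(idxA h x).inv_mem hc, fun y h1 h2 => ?_⟩
    show c.symm y = y
    rw [OrderIso.symm_apply_eq]
    exact (hc' y h1 h2).symm

private lemma idxa_triv_conj (θ a : X ≃o X) (u v : X) :
    Triv (θ * a * θ⁻¹ : X ≃o X) (θ u) (θ v) ↔ Triv a u v := by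
  constructor
  · intro h1 y h2 h3
    have h4 := h1 (θ y) (θ.monotone h2) (θ.monotone h3)
    have h5 : θ (a (θ.symm (θ y))) = θ y := h4
    rw [θ.symm_apply_apply] at h5
    exact θ.injective h5
  · intro h1 y h2 h3
    show θ (a (θ.symm y)) = y
    have h4 : u ≤ θ.symm y := by
      rw [← θ.le_iff_le, θ.apply_symm_apply]
      exact h2
    have h5 : θ.symm y ≤ v := by
      rw [← θ.le_iff_le, θ.apply_symm_apply]
      exact h3
    rw [h1 _ h4 h5, θ.apply_symm_apply]

private lemma idxa_fin (h : Ln s) (x : X) (a b : X) (ha : ∀ g : X ≃o X, Ax h x g → g a = a)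
    (hb : ∀ g : X ≃o X, Ax h x g → g b = b) :
    (idxK h x a b).relIndex (idxA h x) ≠ 0 := by
  have : Finite (Set.Icc a b) := (PB.fin (X := X) s a b).to_subtype
  let act : (g : X ≃o X) → Ax h x g → Set.Icc a b → Set.Icc a b := fun g hg z =>
    ⟨g z.1, by
      constructor
      · have h1 := g.monotone z.2.1
        rwa [ha g hg] at h1
      · have h1 := g.monotone z.2.2
        rwa [hb g hg] at h1⟩
  let ρ : (idxA h x) →* Equiv.Perm (Set.Icc a b) :=
    { toFun := fun g =>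
        { toFun := act g.1 g.2
          invFun := act g.1⁻¹ ((idxA h x).inv_mem g.2)
          left_inv := fun z => Subtype.ext (g.1.symm_apply_apply z.1)
          right_inv := fun z => Subtype.ext (g.1.apply_symm_apply z.1) }
      map_one' := by
        ext z
        rfl
      map_mul' := by
        intro c d
        ext z
        rfl }
  have hker : ρ.ker = (idxK h x a b).subgroupOf (idxA h x) := by
    ext g
    rw [MonoidHom.mem_ker, Subgroup.mem_subgroupOf]
    constructor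
    · intro h1
      refine ⟨g.2, fun y h2 h3 => ?_⟩
      have h4 := congrArg (fun e : Equiv.Perm (Set.Icc a b) => (e ⟨y, h2, h3⟩).1) h1
      exact h4
    · intro h1
      ext z
      exact h1.2 z.1 z.2.1 z.2.2
  show ((idxK h x a b).subgroupOf (idxA h x)).index ≠ 0
  rw [← hker, Subgroup.index_ker]
  exact Nat.card_pos.ne'

theorem idx {f : Pt s} {h : Ln s} {x : X} (k : Far f h x) {g₀ : X ≃o X} (hg : Ax h x g₀)
    (n m : ℕ) : ∃ g b : X ≃o X, g₀ = g * b ∧ Ax h x b ∧ b (f.1^[m] x) = f.1^[m] x ∧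
      Ax h x g ∧ Triv g (Hk h n x) (s^[n] (Hk h n x)) := by
  obtain ⟨θ, t1, t2, t3⟩ := hom_far k (far_f k m)
  have hy : θ (Hk h n x) = Hk h n (f.1^[m] x) := by
    rw [← smul_Hk, t3, t1]
  have hsy : θ (s^[n] (Hk h n x)) = s^[n] (Hk h n (f.1^[m] x)) := by
    rw [aut_it, hy]
  have hB : idxA h (f.1^[m] x) ≤ idxA h x := fun g h1 => ((ax_it k m g).1 h1).1
  have hK : idxK h x (Hk h n x) (s^[n] (Hk h n x)) ≤ idxA h x := fun g h1 => h1.1
  have hθ : ∀ a, a ∈ idxA h x ↔ θ * a * θ⁻¹ ∈ idxA h (f.1^[m] x) := by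
    intro a
    have h1 := ax_smul (h := h) (x := x) θ a
    rw [t3, t1] at h1
    exact h1.symm
  have hθK : ∀ a, a ∈ idxK h x (Hk h n x) (s^[n] (Hk h n x)) ↔
      θ * a * θ⁻¹ ∈ idxK h (f.1^[m] x) (Hk h n (f.1^[m] x)) (s^[n] (Hk h n (f.1^[m] x))) := by
    intro a
    have h1 := idxa_triv_conj θ a (Hk h n x) (s^[n] (Hk h n x))
    rw [hy, hsy] at h1
    exact and_congr (hθ a) h1.symm
  have hKK : ∀ b ∈ idxA h (f.1^[m] x),
      b ∈ idxK h (f.1^[m] x) (Hk h n (f.1^[m] x)) (s^[n] (Hk h n (f.1^[m] x))) ↔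
        b ∈ idxK h x (Hk h n x) (s^[n] (Hk h n x)) := by
    intro b hb
    have h1 := (ax_it k m b).1 hb
    have h2 : b (f.1^[m + n] (Hk h n x)) = f.1^[m + n] (Hk h n x) := by
      rw [far_top k m n, aut_it, h1.2]
    have h3 := lam (far_Hk k n) (ax_Hk n h1.1) (m := m) (n := n) h2
    rw [far_comm k m n] at h3
    exact ⟨fun h4 => ⟨h1.1, h3.2 h4.2⟩, fun h4 => ⟨hb, h3.1 h4.2⟩⟩
  have hfin : (idxK h x (Hk h n x) (s^[n] (Hk h n x))).relIndex (idxA h x) ≠ 0 := by
    have h1 : ∀ g : X ≃o X, Ax h x g → g (Hk h n x) = Hk h n x := fun g h2 =>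
      h2 n _ (le_Hk h n x) le_rfl
    exact idxa_fin h x _ _ h1 fun g h2 => by rw [aut_it, h1 g h2]
  obtain ⟨g, hg1, b, hb1, e⟩ := cosets _ _ _ _ hB hK θ hθ hθK hKK hfin hg
  exact ⟨g, b, e, hB hb1, ((ax_it k m b).1 hb1).2, hg1.1, hg1.2⟩

private lemma idxa_step {f : Pt s} {h : Ln s} {x : X} (k : Far f h x) {g : X ≃o X}
    (hg : Ax h x g) (n : ℕ) (hT : Triv g (Hk h (n + 1) x) (s^[n + 1] (Hk h (n + 1) x))) :
    Triv g (Hk h n x) (s^[n] (Hk h n x)) := by
  have h0 : g x = x := idxa_fix hg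
  have h1 : Triv g (Hk h (n + 1) x) (s^[n] (Hk h (n + 1) x)) := by
    intro y h2 h3
    refine hT y h2 (h3.trans ?_)
    have h4 : f.1^[1] (s^[n] (Hk h (n + 1) x)) ≤ s^[1] (s^[n] (Hk h (n + 1) x)) := it_le_s f 1 _
    have h5 : s^[n] (Hk h (n + 1) x) ≤ f.1^[1] (s^[n] (Hk h (n + 1) x)) :=
      it_le_it f (Nat.zero_le 1) _
    have h6 : s^[1] (s^[n] (Hk h (n + 1) x)) = s^[n + 1] (Hk h (n + 1) x) := by
      rw [← Function.iterate_add_apply, Nat.add_comm]
    rw [← h6]
    exact h5.trans h4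
  have h2 : g (f.1^[1 + n] (Hk h (n + 1) x)) = f.1^[1 + n] (Hk h (n + 1) x) := by
    have h3 := far_top k 0 (n + 1)
    have e : 0 + (n + 1) = 1 + n := by omega
    rw [e] at h3
    rw [h3, aut_it]
    show s^[n + 1] (g x) = s^[n + 1] x
    rw [h0]
  have h3 := (lam (far_Hk k (n + 1)) (ax_Hk (n + 1) hg) (m := 1) (n := n) h2).1 h1
  have h4 : f.1^[1] (Hk h (n + 1) x) = s^[1] (Hk h n x) := far_next k n
  rw [h4] at h3
  have h5 : s^[n] (s^[1] (Hk h n x)) = s^[1] (s^[n] (Hk h n x)) := by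
    rw [← Function.iterate_add_apply, ← Function.iterate_add_apply, Nat.add_comm]
  rw [h5] at h3
  exact (triv_s 1 _ _).1 h3

theorem triv_mono {f : Pt s} {h : Ln s} {x : X} (k : Far f h x) {g : X ≃o X} (hg : Ax h x g)
    {n i : ℕ} (hi : i ≤ n) (hT : Triv g (Hk h n x) (s^[n] (Hk h n x))) :
    Triv g (Hk h i x) (s^[i] (Hk h i x)) := by
  obtain ⟨t, rfl⟩ := Nat.exists_eq_add_of_le hi
  clear hi
  induction t with
  | zero => exact hT
  | succ t ih => exact ih (idxa_step k hg (i + t) hT)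

end Pool.Agent.PLB
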