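import Pool.Agent.PLB.MuA
import Pool.Agent.PLB.CoA

set_option autoImplicit false

/-! Theorem PB, (1.2): the level function of a line at infinity (duals of MuA.lean).

`nu o h x = - mu (toDual o) h.pt (toDual x)` : both sides are `IsNu` functions with value `0` at `o`
(`isMu_dual`, `mu_unique` in `(Xᵒᵈ, dl s)`). Everything else is a translation of MuA.lean. -/

namespace Pool.Agent.PLB

open Pool.Agent.Helper87.ML Pool.Agent.RIG OrderDual

universe u

variable {X : Type u} [Lattice X] [IsModularLattice X] {s : X ≃o X} [PB X s]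

theorem exists_nu (o : X) (h : Ln s) : ∃ n, IsNu s h.1 n ∧ n o = 0 := by
  obtain ⟨m, hm, h0⟩ := exists_mu (toDual o) h.pt
  refine ⟨fun x => - m (toDual x), ?_, ?_⟩
  · refine (isMu_dual h (fun x => - m (toDual x))).1 ?_
    have e : (fun y : Xᵒᵈ => - (fun x => - m (toDual x)) (ofDual y)) = m := by
      funext y
      simp
    rw [e]
    exact hm
  · show - m (toDual o) = 0
    rw [h0, neg_zero]

theorem nu_unique {h : Ln s} {n n' : X → ℤ} (k : IsNu s h.1 n) (k' : IsNu s h.1 n') (x y : X) :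
    n x - n y = n' x - n' y := by
  have h1 := mu_unique ((isMu_dual h n).2 k) ((isMu_dual h n').2 k') (toDual x) (toDual y)
  simp only [ofDual_toDual] at h1
  linarith

theorem nu_spec (o : X) (h : Ln s) : IsNu s h.1 (nu o h) ∧ nu o h o = 0 := by
  unfold nu
  simp only [exists_nu o h, ↓reduceDIte]
  exact (exists_nu o h).choose_spec

theorem nu_eq_mu (o : X) (h : Ln s) (x : X) :
    nu o h x = - mu (toDual o) h.pt (toDual x) := by
  have hm := mu_spec (toDual o) h.pt
  have hn := nu_spec o h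
  have h1 : IsNu s h.1 (fun x => - mu (toDual o) h.pt (toDual x)) := by
    refine (isMu_dual h (fun x => - mu (toDual o) h.pt (toDual x))).1 ?_
    have e : (fun y : Xᵒᵈ => - (fun x => - mu (toDual o) h.pt (toDual x)) (ofDual y)) =
        mu (toDual o) h.pt := by
      funext y
      simp
    rw [e]
    exact hm.1
  have h2 := nu_unique hn.1 h1 x o
  have h3 := hm.2
  have h4 := hn.2
  linarith

theorem mu_eq_nu (o : X) (f : Pt s) (x : X) :
    mu o f x = - nu (toDual o) f.co (toDual x) := by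
  have hm := mu_spec o f
  have hn := nu_spec (toDual o) f.co
  have h1 : IsMu s f.1 (fun x => - nu (toDual o) f.co (toDual x)) := by
    refine (isNu_dual f (fun x => - nu (toDual o) f.co (toDual x))).1 ?_
    have e : (fun y : Xᵒᵈ => - (fun x => - nu (toDual o) f.co (toDual x)) (ofDual y)) =
        nu (toDual o) f.co := by
      funext y
      simp
    rw [e]
    exact hn.1
  have h2 := mu_unique hm.1 h1 x o
  have h3 := hm.2
  have h4 := hn.2
  linarith

theorem nu_h (o : X) (h : Ln s) (k : ℕ) (x : X) : nu o h (h.1^[k] x) = nu o h x - k := by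
  rw [nu_eq_mu, nu_eq_mu, ← h.pt_it, mu_f]
  ring

theorem nu_s (o : X) (h : Ln s) (k : ℕ) (x : X) : nu o h (s^[k] x) = nu o h x + k := by
  rw [nu_eq_mu, nu_eq_mu, ← dl_symm_it, mu_symm]
  ring

theorem nu_symm (o : X) (h : Ln s) (k : ℕ) (x : X) : nu o h (s.symm^[k] x) = nu o h x - k := by
  rw [nu_eq_mu, nu_eq_mu, ← dl_it, mu_s]
  ring

theorem nu_mono (o : X) (h : Ln s) {x y : X} (hxy : x ≤ y) : nu o h x ≤ nu o h y :=
  (nu_spec o h).1.mono hxy

theorem nu_sup (o : X) (h : Ln s) (x y : X) : nu o h (x ⊔ y) = max (nu o h x) (nu o h y) :=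
  (nu_spec o h).1.sup x y

theorem nu_lev (o : X) (h : Ln s) {x y : X} (hxy : x ≤ y) :
    x ≤ h.1 y ↔ nu o h x < nu o h y :=
  (nu_spec o h).1.lev x y hxy

theorem nu_cov (o : X) (h : Ln s) {x y : X} (hxy : x ⋖ y) :
    (x = h.1 y ∧ nu o h y = nu o h x + 1) ∨ (x ≠ h.1 y ∧ nu o h y = nu o h x) := by
  have hc : toDual y ⋖ toDual x := toDual_covBy_toDual_iff.2 hxy
  have ex := nu_eq_mu o h x
  have ey := nu_eq_mu o h y
  rcases mu_cov (toDual o) h.pt hc with ⟨h1, h2⟩ | ⟨h1, h2⟩
  · left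
    refine ⟨?_, ?_⟩
    · rw [h.pt_apply] at h1
      exact toDual_inj.1 h1
    · linarith
  · right
    refine ⟨?_, ?_⟩
    · intro h3
      apply h1
      rw [h.pt_apply, ← h3]
    · linarith

theorem nu_base (o o' : X) (h : Ln s) (x : X) : nu o' h x = nu o h x - nu o h o' := by
  rw [nu_eq_mu, nu_eq_mu, nu_eq_mu, mu_base (toDual o) (toDual o')]
  ring

theorem nu_Hk (o : X) (h : Ln s) (k : ℕ) (x : X) : nu o h (Hk h k x) = nu o h x := by
  rw [nu_eq_mu, nu_eq_mu, ← Fk_pt, mu_Fk]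

theorem nu_smul (o : X) (h : Ln s) (g : X ≃o X) (x : X) :
    nu (g o) (g • h) (g x) = nu o h x := by
  have h1 := mu_smul (toDual o) h.pt g.dual (toDual x)
  rw [nu_eq_mu, nu_eq_mu, ← h1]
  rfl

theorem nu_le_of_Hk (o : X) (h : Ln s) {x y : X} {k : ℕ} (hy : y ≤ Hk h k x) :
    nu o h y ≤ nu o h x := by
  rw [← nu_Hk o h k x]
  exact nu_mono o h hy

/-- if the level of `y` is at most the level of `x` then `y ≤ H_k(x)` for all large `k` -/
theorem exists_Hk (o : X) (h : Ln s) {x y : X} (hy : nu o h y ≤ nu o h x) :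
    ∃ k₀, ∀ k, k₀ ≤ k → y ≤ Hk h k x := by
  have h1 : mu (toDual o) h.pt (toDual x) ≤ mu (toDual o) h.pt (toDual y) := by
    have ex := nu_eq_mu o h x
    have ey := nu_eq_mu o h y
    linarith
  obtain ⟨k₀, hk⟩ := exists_Fk (toDual o) h.pt h1
  refine ⟨k₀, fun k hkk => ?_⟩
  have h2 := hk k hkk
  rw [Fk_pt] at h2
  exact toDual_le_toDual.1 h2

/-- `Ax` in terms of levels -/
theorem ax_iff (o : X) (h : Ln s) (x : X) (g : X → X) :
    Ax h x g ↔ ∀ y, x ≤ y → nu o h y = nu o h x → g y = y := by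
  constructor
  · intro ha y hxy hy
    obtain ⟨k₀, hk⟩ := exists_Hk o h (x := x) (y := y) hy.le
    exact ha k₀ y hxy (hk k₀ le_rfl)
  · intro ha k y hxy hy
    exact ha y hxy (le_antisymm (nu_le_of_Hk o h hy) (nu_mono o h hxy))

/-- `Cx` in terms of levels -/
theorem cx_iff (o : X) (f : Pt s) (x : X) (g : X → X) :
    Cx f x g ↔ ∀ y, y ≤ x → mu o f y = mu o f x → g y = y := by
  constructor
  · intro ha y hyx hy
    obtain ⟨k₀, hk⟩ := exists_Fk o f (x := x) (y := y) hy.ge
    exact ha k₀ y hyx (hk k₀ le_rfl)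
  · intro ha k y hyx hy
    exact ha y hyx (le_antisymm (mu_mono o f hyx) (mu_le_of_Fk o f hy))

end Pool.Agent.PLB
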