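import Pool.Agent.PLB.LinB
import Pool.Agent.PLB.NuA

set_option autoImplicit false

/-! Theorem PB, (1.5): points on a line.

PLAN. `inc_iff_nu`: `f x ≤ h (s x)` iff `f x < s x` has `nu (f x) < nu (s x) = nu x + 1` (`nu_lev`). `lift_on`: let
`a = r^i x ≤ Hk h i x` be a cycle; extend it to a straight ray inside `h`: if `c (j) ≤ Hk h j x` is constructed, the plane
`[c j, s (c j)]` has the line `h (s (c j))` (coatom `≥ c j`? `nu (c j) = nu x` as `c j ≤ Hk h j x`) and, for `j ≥ 1`, the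
coatom `s (c (j-1))`; these are different (`nu (s (c (j-1))) = nu x + 1`), so there is an atom `c (j+1)` over `c j` on the
line `h (s (c j))` not below `s (c (j-1))` (a line has at least 3 points and meets the other line in one point). Then
`ray_end`, `inc_of_it` (`c i ≤ Hk h i x`: `c (j+1) ≤ h (s (c j)) ≤ Hk h (j+1) x`). `thru_on` is the case `i = 1`.
`three_on`: three atoms on the line `h (s x)` of the plane. `exists_off`: an atom over `x` not below `h (s x)`,
`h' (s x)`: two lines do not cover a plane (`RIG.Plane.lean`, `plane_line_off2` is the dual; or: take the three noncollinear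
points / a third point on a line joining a point of `h` and a point of `h'`). -/

namespace Pool.Agent.PLB

open Pool.Agent.Helper87.ML Pool.Agent.RIG OrderDual

universe u

variable {X : Type u} [Lattice X] [IsModularLattice X] {s : X ≃o X} [PB X s]

private theorem inca_nu_s (o : X) (h : Ln s) (x : X) : nu o h (s x) = nu o h x + 1 := by
  have h1 := nu_s o h 1 x
  rw [Function.iterate_one] at h1
  simpa using h1

private theorem inca_le_s (f : Pt s) (x : X) : f.1 x ≤ s x :=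
  cov_le_s (PB.up (s := s)) (f.2.cov x)

theorem inc_iff_nu (o : X) (f : Pt s) (h : Ln s) :
    Inc f h ↔ ∀ x, nu o h (f.1 x) = nu o h x := by
  constructor
  · intro hf x
    have h1 := (nu_lev o h (inca_le_s f x)).1 (hf x)
    rw [inca_nu_s] at h1
    have h2 := nu_mono o h (f.2.cov x).le
    omega
  · intro hf x
    rw [nu_lev o h (inca_le_s f x), inca_nu_s, hf x]
    omega

theorem inc_nu_it (o : X) {f : Pt s} {h : Ln s} (hf : Inc f h) (k : ℕ) (x : X) :
    nu o h (f.1^[k] x) = nu o h x := by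
  induction k generalizing x with
  | zero => rfl
  | succ k ih => rw [Function.iterate_succ_apply, ih, (inc_iff_nu o f h).1 hf]

theorem inc_mu_it (o : X) {f : Pt s} {h : Ln s} (hf : Inc f h) (k : ℕ) (x : X) :
    mu o f (h.1^[k] x) = mu o f x := by
  induction k generalizing x with
  | zero => rfl
  | succ k ih =>
    rw [Function.iterate_succ_apply, ih]
    rcases mu_cov o f (h.2.cov x) with ⟨h1, -⟩ | ⟨-, h1⟩
    · exfalso
      have h2 : f.1 (h.1 x) ≤ h.1 (s (h.1 x)) := hf (h.1 x)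
      rw [← h1, ← h.2.comm] at h2
      apply h.2.str (s x)
      rw [s.symm_apply_apply]
      exact h2
    · exact h1.symm

private theorem inca_line (h : Ln s) (x : X) : x ≤ h.1 (s x) := le_Hk h 1 x

private theorem inca_pl (s : X ≃o X) [PB X s] (x : X) : IsPlane x (s x) := PB.pl x

/-- the next element of a straight ray inside a line -/
private theorem inca_next (o : X) (h : Ln s) {a b : X} (hab : a ⋖ b) (hn : nu o h b = nu o h a) :
    ∃ c c' : X, b ⋖ c ∧ b ⋖ c' ∧ c ≠ c' ∧ ¬ c ≤ s a ∧ ¬ c' ≤ s a ∧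
      nu o h c = nu o h b ∧ nu o h c' = nu o h b := by
  have hbs : b ≤ s a := cov_le_s (PB.up (s := s)) hab
  have hco : s a ⋖ s b := (apply_covBy_apply_iff s).2 hab
  have hne : h.1 (s b) ≠ s a := by
    intro he
    have h1 : nu o h (h.1 (s b)) = nu o h (s b) - 1 := by
      have h2 := nu_h o h 1 (s b)
      rw [Function.iterate_one] at h2
      simpa using h2
    rw [he, inca_nu_s, inca_nu_s] at h1
    omega
  obtain ⟨p, q, r, ⟨hp, hq, hr⟩, ⟨hpl, hql, hrl⟩, hpq, hpr, hqr⟩ :=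
    (inca_pl s b).2.2.2.1 (h.1 (s b)) (inca_line h b) (h.2.cov (s b))
  obtain ⟨z, -, hz⟩ := (inca_pl s b).2.2.1 (h.1 (s b)) (s a) (inca_line h b) (h.2.cov (s b)) hbs hco hne
  have hlev : ∀ c, b ⋖ c → c ≤ h.1 (s b) → nu o h c = nu o h b := by
    intro c hc hcl
    have h1 := (nu_lev o h (hcl.trans (h.2.cov (s b)).le)).1 hcl
    rw [inca_nu_s] at h1
    have h2 := nu_mono o h hc.le
    omega
  have huni : ∀ c, b ⋖ c → c ≤ h.1 (s b) → c ≤ s a → c = z := fun c hc hcl hca =>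
    hz c ⟨⟨hc, hcl.trans (h.2.cov (s b)).le⟩, hcl, hca⟩
  by_cases h1 : p ≤ s a
  · have h2 : ¬ q ≤ s a := fun h3 => hpq ((huni p hp hpl h1).trans (huni q hq hql h3).symm)
    have h3 : ¬ r ≤ s a := fun h3 => hpr ((huni p hp hpl h1).trans (huni r hr hrl h3).symm)
    exact ⟨q, r, hq, hr, hqr, h2, h3, hlev q hq hql, hlev r hr hrl⟩
  · by_cases h2 : q ≤ s a
    · have h3 : ¬ r ≤ s a := fun h3 => hqr ((huni q hq hql h2).trans (huni r hr hrl h3).symm)
      exact ⟨p, r, hp, hr, hpr, h1, h3, hlev p hp hpl, hlev r hr hrl⟩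
    · exact ⟨p, q, hp, hq, hpq, h1, h2, hlev p hp hpl, hlev q hq hql⟩

/-- extension of a finite straight chain inside a line -/
private theorem inca_ext (o : X) (h : Ln s) (c : ℕ → X) (m : ℕ) (h1 : ∀ i, i ≤ m → c i ⋖ c (i + 1))
    (h2 : ∀ i, i + 1 ≤ m → ¬ c (i + 2) ≤ s (c i)) (hn : nu o h (c (m + 1)) = nu o h (c 0)) :
    ∃ p : Pt s, Inc p h ∧ ∀ i, i ≤ m + 1 → p.1^[i] (c 0) = c i := by
  classical
  -- monotonicity and levels
  have hmono : ∀ i, i ≤ m + 1 → c 0 ≤ c i := by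
    intro i
    induction i with
    | zero => exact fun _ => le_rfl
    | succ i ih => exact fun hi => (ih (by omega)).trans (h1 i (by omega)).le
  have hmono' : ∀ j, j ≤ m + 1 → c (m + 1 - j) ≤ c (m + 1) := by
    intro j
    induction j with
    | zero => exact fun _ => le_rfl
    | succ j ih =>
      intro hj
      have h3 := (h1 (m + 1 - (j + 1)) (by omega)).le
      have e : m + 1 - (j + 1) + 1 = m + 1 - j := by omega
      rw [e] at h3
      exact h3.trans (ih (by omega))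
  have hlev : ∀ i, i ≤ m + 1 → nu o h (c i) = nu o h (c 0) := by
    intro i hi
    have h3 := nu_mono o h (hmono i hi)
    have h4 := hmono' (m + 1 - i) (by omega)
    have e : m + 1 - (m + 1 - i) = i := by omega
    rw [e] at h4
    have h5 := nu_mono o h h4
    omega
  have hstep : ∀ p : {p : X × X // p.1 ⋖ p.2 ∧ nu o h p.2 = nu o h p.1},
      ∃ q : {p : X × X // p.1 ⋖ p.2 ∧ nu o h p.2 = nu o h p.1}, q.1.1 = p.1.2 ∧ ¬ q.1.2 ≤ s p.1.1 := by
    rintro ⟨⟨a, b⟩, hab, hn'⟩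
    obtain ⟨d, -, hd, -, -, hd1, -, hd2, -⟩ := inca_next o h hab hn'
    exact ⟨⟨(b, d), hd, hd2⟩, rfl, hd1⟩
  choose F hF1 hF2 using hstep
  have hq0 : c m ⋖ c (m + 1) ∧ nu o h (c (m + 1)) = nu o h (c m) :=
    ⟨h1 m le_rfl, by rw [hn, hlev m (by omega)]⟩
  let q0 : {p : X × X // p.1 ⋖ p.2 ∧ nu o h p.2 = nu o h p.1} := ⟨(c m, c (m + 1)), hq0⟩
  let q : ℕ → {p : X × X // p.1 ⋖ p.2 ∧ nu o h p.2 = nu o h p.1} := fun n => F^[n] q0
  have hqs : ∀ n, q (n + 1) = F (q n) := fun n => Function.iterate_succ_apply' F n q0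
  let d : ℕ → X := fun j => if j ≤ m then c j else (q (j - (m + 1))).1.2
  have hd1 : ∀ j, j ≤ m → d j = c j := fun j hj => if_pos hj
  have hd2 : ∀ n, d (m + 1 + n) = (q n).1.2 := by
    intro n
    show (if m + 1 + n ≤ m then c (m + 1 + n) else (q (m + 1 + n - (m + 1))).1.2) = _
    rw [if_neg (by omega), Nat.add_sub_cancel_left]
  have hd3 : d (m + 1) = c (m + 1) := hd2 0
  have hd4 : ∀ j, j ≤ m + 1 → d j = c j := by
    intro j hj
    rcases Nat.lt_or_ge m j with h3 | h3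
    · have : j = m + 1 := by omega
      rw [this]
      exact hd3
    · exact hd1 j h3
  have hq1 : ∀ n, (q (n + 1)).1.1 = (q n).1.2 := fun n => by rw [hqs, hF1]
  have hdl : ∀ n, nu o h (d n) = nu o h (c 0) := by
    intro n
    rcases Nat.lt_or_ge n (m + 1) with h3 | h3
    · rw [hd4 n h3.le]
      exact hlev n h3.le
    · obtain ⟨k, rfl⟩ := Nat.exists_eq_add_of_le h3
      rw [hd2]
      induction k with
      | zero => exact hn
      | succ k ih =>
        rw [(q (k + 1)).2.2, hq1]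
        exact ih (by omega)
  have hdc : ∀ n, d n ⋖ d (n + 1) := by
    intro n
    rcases Nat.lt_or_ge n (m + 1) with h3 | h3
    · rw [hd4 n h3.le, hd4 (n + 1) h3]
      exact h1 n (by omega)
    · obtain ⟨k, rfl⟩ := Nat.exists_eq_add_of_le h3
      rw [hd2, add_assoc, hd2, ← hq1]
      exact (q (k + 1)).2.1
  have hds : ∀ n, ¬ d (n + 2) ≤ s (d n) := by
    intro n
    rcases Nat.lt_or_ge n m with h3 | h3
    · rw [hd4 n (by omega), hd4 (n + 2) (by omega)]
      exact h2 n h3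
    · rcases Nat.eq_or_lt_of_le h3 with h4 | h4
      · subst h4
        have e1 : m + 2 = m + 1 + 1 := rfl
        rw [e1, hd2 1, hd1 m le_rfl, hqs 0]
        exact hF2 (q 0)
      · obtain ⟨k, rfl⟩ := Nat.exists_eq_add_of_le (show m + 1 ≤ n from h4)
        have e1 : m + 1 + k + 2 = m + 1 + (k + 2) := rfl
        rw [e1, hd2, hd2, hqs (k + 1), ← hq1]
        exact hF2 (q (k + 1))
  obtain ⟨p, hp⟩ := ray_end d hdc hds
  have hd0 : d 0 = c 0 := hd1 0 (Nat.zero_le m)
  rw [hd0] at hp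
  refine ⟨p, ?_, fun i hi => by rw [hp i, hd4 i hi]⟩
  refine inc_of_it (c 0) fun i => ?_
  rw [hp i]
  induction i with
  | zero => rw [hd0]; exact le_rfl
  | succ i ih =>
    have h3 : d (i + 1) ≤ h.1 (s (d i)) := by
      rw [nu_lev o h (cov_le_s (PB.up (s := s)) (hdc i)), inca_nu_s, hdl, hdl]
      omega
    have h4 : h.1 (s (d i)) ≤ h.1 (s (Hk h i (c 0))) := h.2.mono (s.monotone ih)
    have h5 : h.1 (s (Hk h i (c 0))) = Hk h (i + 1) (c 0) := by
      rw [add_comm i 1, ← Hk_Hk]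
      rfl
    rw [← h5]
    exact h3.trans h4

private theorem inca_nu_it (o : X) {r : Pt s} {h : Ln s} {i : ℕ} {x : X} (hr : r.1^[i] x ≤ Hk h i x) :
    nu o h (r.1^[i] x) = nu o h x := by
  have h1 := nu_le_of_Hk o h hr
  have h2 := nu_mono o h (it_le_it r (Nat.zero_le i) x)
  rw [Function.iterate_zero, id] at h2
  omega

/-- the case of a positive exponent -/
private theorem inca_lift {r : Pt s} {h : Ln s} {i : ℕ} {x : X} (hr : r.1^[i + 1] x ≤ Hk h (i + 1) x) :
    ∃ p : Pt s, Inc p h ∧ ∀ j, j ≤ i + 1 → p.1^[j] x = r.1^[j] x := by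
  refine inca_ext x h (fun j => r.1^[j] x) i (fun j _ => ?_) (fun j _ => ?_) (inca_nu_it x hr)
  · show r.1^[j] x ⋖ r.1^[j + 1] x
    rw [Function.iterate_succ_apply']
    exact r.2.cov _
  · show ¬ r.1^[j + 2] x ≤ s (r.1^[j] x)
    rw [Function.iterate_succ_apply', Function.iterate_succ_apply']
    exact r.2.str _

theorem thru_on {h : Ln s} {x a : X} (hxa : x ⋖ a) (ha : a ≤ h.1 (s x)) :
    ∃ p : Pt s, Inc p h ∧ p.1 x = a := by
  obtain ⟨r, hr⟩ := thru (s := s) hxa
  have h1 : r.1^[0 + 1] x ≤ Hk h (0 + 1) x := by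
    show r.1 x ≤ h.1 (s x)
    rw [hr]
    exact ha
  obtain ⟨p, hp1, hp2⟩ := inca_lift h1
  refine ⟨p, hp1, ?_⟩
  have h2 := hp2 1 le_rfl
  rw [Function.iterate_one, Function.iterate_one] at h2
  rw [h2, hr]

theorem three_on (h : Ln s) (x : X) : ∃ p q r : Pt s, Inc p h ∧ Inc q h ∧ Inc r h ∧
    p.1 x ≠ q.1 x ∧ p.1 x ≠ r.1 x ∧ q.1 x ≠ r.1 x := by
  obtain ⟨p, q, r, ⟨hp, hq, hr⟩, ⟨hpl, hql, hrl⟩, hpq, hpr, hqr⟩ :=
    (inca_pl s x).2.2.2.1 (h.1 (s x)) (inca_line h x) (h.2.cov (s x))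
  obtain ⟨p', h1, rfl⟩ := thru_on hp hpl
  obtain ⟨q', h2, rfl⟩ := thru_on hq hql
  obtain ⟨r', h3, rfl⟩ := thru_on hr hrl
  exact ⟨p', q', r', h1, h2, h3, hpq, hpr, hqr⟩

theorem lift_on {r : Pt s} {h : Ln s} {i : ℕ} {x : X} (hr : r.1^[i] x ≤ Hk h i x) :
    ∃ p : Pt s, Inc p h ∧ p.1^[i] x = r.1^[i] x := by
  cases i with
  | zero =>
    obtain ⟨p, -, -, hp, -⟩ := three_on h x
    exact ⟨p, hp, rfl⟩
  | succ i =>
    obtain ⟨p, hp1, hp2⟩ := inca_lift hr
    exact ⟨p, hp1, hp2 (i + 1) le_rfl⟩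

/-- a line through a point and a coatom -/
theorem thru_on_co {f : Pt s} {x a : X} (hxa : a ⋖ s x) (ha : f.1 x ≤ a) :
    ∃ h : Ln s, Inc f h ∧ h.1 (s x) = a := by
  have h1 : (toDual (s x) : Xᵒᵈ) ⋖ toDual a := toDual_covBy_toDual_iff.2 hxa
  have h2 : toDual a ≤ f.co.1 (dl s (toDual (s x))) := by
    rw [dl_apply, s.symm_apply_apply, f.co_apply]
    exact toDual_le_toDual.2 ha
  obtain ⟨p, hp1, hp2⟩ := thru_on h1 h2
  refine ⟨p.co', (inc_dual f p.co').1 (by rw [Pt.co'_pt]; exact hp1), ?_⟩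
  exact congrArg ofDual hp2

theorem third_on {p q : Pt s} {h : Ln s} (x : X) :
    ∃ r : Pt s, Inc r h ∧ r.1 x ≠ p.1 x ∧ r.1 x ≠ q.1 x := by
  obtain ⟨a, b, c, ha, hb, hc, hab, hac, hbc⟩ := three_on h x
  by_cases c1 : a.1 x = p.1 x ∨ a.1 x = q.1 x
  · by_cases c2 : b.1 x = p.1 x ∨ b.1 x = q.1 x
    · refine ⟨c, hc, fun e => ?_, fun e => ?_⟩
      · rcases c1 with c1 | c1 <;> rcases c2 with c2 | c2
        · exact hab (c1.trans c2.symm)
        · exact hac (c1.trans e.symm)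
        · exact hbc (c2.trans e.symm)
        · exact hab (c1.trans c2.symm)
      · rcases c1 with c1 | c1 <;> rcases c2 with c2 | c2
        · exact hab (c1.trans c2.symm)
        · exact hbc (c2.trans e.symm)
        · exact hac (c1.trans e.symm)
        · exact hab (c1.trans c2.symm)
    · push Not at c2
      exact ⟨b, hb, c2.1, c2.2⟩
  · push Not at c1
    exact ⟨a, ha, c1.1, c1.2⟩

/-- two points of a line which agree exactly up to the level `m` -/
theorem exact_on (h : Ln s) (x : X) (m : ℕ) : ∃ p q : Pt s, Inc p h ∧ Inc q h ∧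
    p.1^[m] x = q.1^[m] x ∧ p.1^[m + 1] x ≠ q.1^[m + 1] x := by
  obtain ⟨p, q, -, hp, hq, -, hpq, -, -⟩ := three_on h x
  cases m with
  | zero => exact ⟨p, q, hp, hq, rfl, hpq⟩
  | succ m =>
    have hc : p.1^[m] x ⋖ p.1^[m + 1] x := by
      rw [Function.iterate_succ_apply']
      exact p.2.cov _
    obtain ⟨c, c', hc1, hc2, hcc, hs1, hs2, hn1, hn2⟩ := inca_next x h hc
      (by rw [inc_nu_it x hp, inc_nu_it x hp])
    obtain ⟨d, hd1, hd2, hd3, hd4⟩ : ∃ d, p.1^[m + 1] x ⋖ d ∧ ¬ d ≤ s (p.1^[m] x) ∧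
        nu x h d = nu x h (p.1^[m + 1] x) ∧ p.1^[m + 1 + 1] x ≠ d := by
      by_cases e : p.1^[m + 1 + 1] x = c
      · exact ⟨c', hc2, hs2, hn2, by rw [e]; exact hcc⟩
      · exact ⟨c, hc1, hs1, hn1, e⟩
    have hex := inca_ext x h (fun j => if j ≤ m + 1 then p.1^[j] x else d) (m + 1)
      (fun j hj => ?_) (fun j hj => ?_) ?_
    · obtain ⟨q', hq1, hq2⟩ := hex
      have e0 : (if 0 ≤ m + 1 then p.1^[0] x else d) = x := by
        rw [if_pos (Nat.zero_le _)]
        rfl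
      rw [e0] at hq2
      refine ⟨p, q', hp, hq1, ?_, ?_⟩
      · rw [hq2 (m + 1) (by omega)]
        simp
      · rw [hq2 (m + 1 + 1) (by omega)]
        show p.1^[m + 1 + 1] x ≠ (if m + 1 + 1 ≤ m + 1 then p.1^[m + 1 + 1] x else d)
        rw [if_neg (by omega)]
        exact hd4
    · show (if j ≤ m + 1 then p.1^[j] x else d) ⋖ (if j + 1 ≤ m + 1 then p.1^[j + 1] x else d)
      rw [if_pos hj]
      by_cases e : j + 1 ≤ m + 1
      · rw [if_pos e, Function.iterate_succ_apply']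
        exact p.2.cov _
      · rw [if_neg e]
        have : j = m + 1 := by omega
        rw [this]
        exact hd1
    · show ¬ (if j + 2 ≤ m + 1 then p.1^[j + 2] x else d) ≤ s (if j ≤ m + 1 then p.1^[j] x else d)
      rw [if_pos (by omega : j ≤ m + 1)]
      by_cases e : j + 2 ≤ m + 1
      · rw [if_pos e, Function.iterate_succ_apply', Function.iterate_succ_apply']
        exact p.2.str _
      · rw [if_neg e]
        have : j = m := by omega
        rw [this]
        exact hd2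
    · show nu x h (if m + 1 + 1 ≤ m + 1 then p.1^[m + 1 + 1] x else d) =
        nu x h (if 0 ≤ m + 1 then p.1^[0] x else d)
      rw [if_neg (by omega), if_pos (by omega), hd3, inc_nu_it x hp]
      rfl

theorem exists_off (h h' : Ln s) (x : X) : ∃ f : Pt s, Far f h x ∧ Far f h' x := by
  have hpl := isPlane_dual (PB.sd (s := s)) (le_s (PB.up (s := s)) x) (inca_pl s x)
  obtain ⟨m, -, h2, h3, h4⟩ := plane_line_off2 hpl (p := toDual (h.1 (s x))) (q := toDual (h'.1 (s x)))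
    (toDual_covBy_toDual_iff.2 (h.2.cov (s x))) (toDual_le_toDual.2 (inca_line h x))
    (toDual_covBy_toDual_iff.2 (h'.2.cov (s x))) (toDual_le_toDual.2 (inca_line h' x))
  have h5 : x ⋖ ofDual m := by
    have h6 : toDual (ofDual m) ⋖ toDual x := h2
    exact toDual_covBy_toDual_iff.1 h6
  obtain ⟨f, hf⟩ := thru (s := s) h5
  refine ⟨f, fun h6 => h3 ?_, fun h6 => h4 ?_⟩
  · rw [hf] at h6
    exact toDual_le_toDual.2 h6
  · rw [hf] at h6
    exact toDual_le_toDual.2 h6

theorem exists_off_co (f f' : Pt s) (x : X) : ∃ h : Ln s, Far f h x ∧ Far f' h x := by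
  obtain ⟨m, -, h2, h3, h4⟩ := plane_line_off2 (inca_pl s x) (f.2.cov x) (inca_le_s f x) (f'.2.cov x)
    (inca_le_s f' x)
  obtain ⟨l, hl⟩ := thru_co (s := s) h2
  refine ⟨l, fun h6 => h3 ?_, fun h6 => h4 ?_⟩
  · rw [hl] at h6
    exact h6
  · rw [hl] at h6
    exact h6

end Pool.Agent.PLB
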