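import Pool.Agent.PLB.TrvB

set_option autoImplicit false

/-! Theorem PB, (2.5) and step (A) of Lemma Lambda.

`proj`: put `u = a ⊔ c`; `b ⊓ u = a`, `b ⊔ u = b ⊔ c`. By modularity `w = (w ⊓ b) ⊔ u` for `u ≤ w ≤ b ⊔ u` and
`y = (y ⊔ u) ⊓ b` for `a ≤ y ≤ b`; `g` preserves sup and inf and fixes `a, b, c, u`.
`triv_two`: `p`, `p'` on `h` with `p x ≠ p' x`: take `q` on `h` with `q x ≠ p x, p' x` (`third_on`); `proj` with
`a = x`, `b = f^k x ⊔ p^k x`, `c = q^k x` and with `b' = f^k x ⊔ p'^k x`: `b ⊔ c = s^k x = b' ⊔ c` (`Hk_sup_it`, `far_sup`),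
`b ⊓ c = x` (`c ≤ Hk h k x`; `b ⊓ Hk h k x = p^k x` by modularity and `far_inf`; `it_inf_it`). General `p, p'`: go through a
third point (`third_on`). `triv_line`: `→` trivial. `←`: by the previous step `g` is trivial on `[x, f^k x ⊔ p^k x]` for all
`p` on `h`. It fixes every `r^i x` with `r^i x ≤ s^k x`, so `i ≤ k` (`it_not_le_s`): if `r = f` clear; otherwise let `l` be the
line through `f` and `r` (`exists_line`), `p` the point of `l` and `h` (`exists_point`; `l ≠ h` since `f` is not on `h`),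
`f x ≠ p x` (`Far`), so `r^i x ≤ Hk l k x = f^k x ⊔ p^k x`. Then for `y` in `[x, s^k x]`: `y ≤ g y` and `y ≤ g.symm y` by
`le_of_cyc`. -/

namespace Pool.Agent.PLB

open Pool.Agent.Helper87.ML Pool.Agent.RIG OrderDual

universe u

variable {X : Type u} [Lattice X] [IsModularLattice X] {s : X ≃o X} [PB X s]

omit [PB X s] in
theorem proj {g : X ≃o X} {a b c : X} (hab : a ≤ b) (ga : g a = a) (gb : g b = b) (gc : g c = c)
    (h : b ⊓ (a ⊔ c) = a) : Triv g a b ↔ Triv g (a ⊔ c) (b ⊔ c) := by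
  have gu : g (a ⊔ c) = a ⊔ c := by rw [map_sup, ga, gc]
  have hbu : b ⊔ c = (a ⊔ c) ⊔ b := by
    rw [sup_assoc, sup_comm c b, ← sup_assoc, sup_eq_right.2 hab]
  constructor
  · intro k w h1 h2
    have h3 : w = (a ⊔ c) ⊔ (b ⊓ w) := by
      have h4 : ((a ⊔ c) ⊔ b) ⊓ w = (a ⊔ c) ⊔ (b ⊓ w) := sup_inf_assoc_of_le b h1
      rw [← h4, ← hbu]
      exact (inf_eq_right.2 h2).symm
    have h5 : g (b ⊓ w) = b ⊓ w :=
      k _ (le_inf hab (le_sup_left.trans h1)) inf_le_left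
    rw [h3, map_sup, gu, h5]
  · intro k y h1 h2
    have h3 : y = (y ⊔ (a ⊔ c)) ⊓ b := by
      have h4 : (y ⊔ (a ⊔ c)) ⊓ b = y ⊔ ((a ⊔ c) ⊓ b) := sup_inf_assoc_of_le (a ⊔ c) h2
      rw [h4, inf_comm, h]
      exact (sup_eq_left.2 h1).symm
    have h5 : g (y ⊔ (a ⊔ c)) = y ⊔ (a ⊔ c) := by
      refine k _ le_sup_right ?_
      rw [hbu]
      exact sup_le (h2.trans le_sup_right) le_sup_left
    have h6 : g y = g (y ⊔ (a ⊔ c)) ⊓ g b := by
      rw [← map_inf, ← h3]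
    rw [h6, h5, gb, ← h3]

private theorem lamA_x {h : Ln s} {x : X} {g : X ≃o X} (hg : Ax h x g) : g x = x :=
  hg 0 x le_rfl (le_Hk h 0 x)

private theorem lamA_p {h : Ln s} {x : X} {g : X ≃o X} (hg : Ax h x g) {p : Pt s} (hp : Inc p h)
    (n : ℕ) : g (p.1^[n] x) = p.1^[n] x :=
  hg n _ (it_le_it p (Nat.zero_le n) x) (inc_it hp n x)

private theorem lamA_step {f : Pt s} {h : Ln s} {x : X} (k : Far f h x) {g : X ≃o X} (hg : Ax h x g)
    {n : ℕ} (hf : g (f.1^[n] x) = f.1^[n] x) {p q : Pt s} (hp : Inc p h) (hq : Inc q h)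
    (hpq : p.1 x ≠ q.1 x) :
    Triv g x (f.1^[n] x ⊔ p.1^[n] x) ↔ Triv g (x ⊔ q.1^[n] x) (s^[n] x) := by
  have hx : ∀ r : Pt s, x ≤ r.1^[n] x := fun r => it_le_it r (Nat.zero_le n) x
  have hb : (f.1^[n] x ⊔ p.1^[n] x) ⊓ Hk h n x = p.1^[n] x := by
    rw [sup_comm, sup_inf_assoc_of_le _ (inc_it hp n x), far_inf k n n]
    exact sup_eq_left.2 (hx p)
  have h1 : (f.1^[n] x ⊔ p.1^[n] x) ⊓ (x ⊔ q.1^[n] x) = x := by
    rw [sup_eq_right.2 (hx q)]
    have h2 : q.1^[n] x = Hk h n x ⊓ q.1^[n] x := (inf_eq_right.2 (inc_it hq n x)).symm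
    rw [h2, ← inf_assoc, hb]
    exact it_inf_it hpq n n
  have h3 : (f.1^[n] x ⊔ p.1^[n] x) ⊔ q.1^[n] x = s^[n] x := by
    rw [sup_assoc, Hk_sup_it hp hq hpq n, far_sup k n]
  have h4 := proj (g := g) (a := x) (b := f.1^[n] x ⊔ p.1^[n] x) (c := q.1^[n] x)
    ((hx f).trans le_sup_left) (lamA_x hg) (by rw [map_sup, hf, lamA_p hg hp]) (lamA_p hg hq n) h1
  rw [h3] at h4
  exact h4

private theorem lamA_two {f : Pt s} {h : Ln s} {x : X} (k : Far f h x) {g : X ≃o X} (hg : Ax h x g)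
    {n : ℕ} (hf : g (f.1^[n] x) = f.1^[n] x) {p p' : Pt s} (hp : Inc p h) (hp' : Inc p' h)
    (ht : Triv g x (f.1^[n] x ⊔ p.1^[n] x)) : Triv g x (f.1^[n] x ⊔ p'.1^[n] x) := by
  obtain ⟨q, hq, h1, h2⟩ := third_on (p := p) (q := p') (h := h) x
  exact (lamA_step k hg hf hp' hq h2.symm).2 ((lamA_step k hg hf hp hq h1.symm).1 ht)

theorem triv_two {f : Pt s} {h : Ln s} {x : X} (k : Far f h x) {g : X ≃o X} (hg : Ax h x g)
    {n : ℕ} (hf : g (f.1^[n] x) = f.1^[n] x) {p p' : Pt s} (hp : Inc p h) (hp' : Inc p' h)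
    (ht : Triv g x (f.1^[n] x ⊔ p.1^[n] x)) : Triv g x (f.1^[n] x ⊔ p'.1^[n] x) :=
  lamA_two k hg hf hp hp' ht

theorem triv_line {f : Pt s} {h : Ln s} {x : X} (k : Far f h x) {g : X ≃o X} (hg : Ax h x g)
    {n : ℕ} (hf : g (f.1^[n] x) = f.1^[n] x) {p : Pt s} (hp : Inc p h) :
    Triv g x (s^[n] x) ↔ Triv g x (f.1^[n] x ⊔ p.1^[n] x) := by
  constructor
  · intro ht y h1 h2
    exact ht y h1 (h2.trans (sup_le (it_le_s f n x) (it_le_s p n x)))
  · intro ht y h1 h2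
    have key : ∀ (r : Pt s) (i : ℕ), r.1^[i] x ≤ s^[n] x → g (r.1^[i] x) = r.1^[i] x := by
      intro r i hr
      have hi : i ≤ n := by
        by_contra hc
        exact it_not_le_s r n x ((it_le_it r (by omega) x).trans hr)
      have hx : x ≤ r.1^[i] x := it_le_it r (Nat.zero_le i) x
      by_cases hfr : f = r
      · refine ht _ hx ?_
        rw [← hfr]
        exact (it_le_it f hi x).trans le_sup_left
      · obtain ⟨l, ⟨hl1, hl2⟩, -⟩ := exists_line hfr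
        have hlh : l ≠ h := fun e => far_not_inc k (e ▸ hl1)
        obtain ⟨p', ⟨hp1, hp2⟩, -⟩ := exists_point hlh
        have hne : f.1 x ≠ p'.1 x := fun e => k (e ▸ hp2 x)
        refine lamA_two k hg hf hp hp2 ht _ hx ?_
        rw [Hk_sup_it hl1 hp1 hne n]
        exact (it_le_it r hi x).trans (inc_it hl2 n x)
    have hgx : g x = x := lamA_x hg
    refine le_antisymm ?_ ?_
    · have h3 : y ≤ g.symm y := by
        refine le_of_cyc s h1 fun r i hr => ?_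
        rw [OrderIso.le_symm_apply, key r i (hr.trans h2)]
        exact hr
      rwa [OrderIso.le_symm_apply] at h3
    · refine le_of_cyc s h1 fun r i hr => ?_
      rw [← key r i (hr.trans h2)]
      exact g.monotone hr

end Pool.Agent.PLB
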