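import Pool.Agent.PLB.LamA

set_option autoImplicit false

/-! Theorem PB, (2.6): Lemma Lambda. The claim is reduced by `triv_line` at the bases `x` and
`f^m x` to two planes of cycles, which are compared by three projectivities; all meets are
identified by the rank. -/

namespace Pool.Agent.PLB

open Pool.Agent.Helper87.ML Pool.Agent.RIG OrderDual

universe u

variable {X : Type u} [Lattice X] [IsModularLattice X] {s : X ≃o X} [PB X s]

omit [IsModularLattice X] [PB X s] in
private theorem lamb_symm (m : ℕ) (y : X) : s^[m] (s.symm^[m] y) = y :=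
  (Function.LeftInverse.iterate (s.apply_symm_apply) m) y

omit [IsModularLattice X] [PB X s] in
private theorem lamb_symm' (m : ℕ) (y : X) : s.symm^[m] (s^[m] y) = y :=
  (Function.LeftInverse.iterate (s.symm_apply_apply) m) y

omit [IsModularLattice X] [PB X s] in
private theorem lamb_sup (m : ℕ) (a b : X) : s^[m] (a ⊔ b) = s^[m] a ⊔ s^[m] b := by
  induction m generalizing a b with
  | zero => rfl
  | succ m ih =>
    rw [Function.iterate_succ_apply, Function.iterate_succ_apply, Function.iterate_succ_apply,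
      s.map_sup, ih]

omit [IsModularLattice X] [PB X s] in
private theorem lamb_it (p : Pt s) (m n : ℕ) (x : X) : p.1^[n] (p.1^[m] x) = p.1^[m + n] x := by
  rw [add_comm, Function.iterate_add_apply]

omit [IsModularLattice X] [PB X s] in
private theorem lamb_x_le (p : Pt s) (m : ℕ) (x : X) : x ≤ p.1^[m] x :=
  it_le_it p (Nat.zero_le m) x

theorem triv_s {g : X ≃o X} (m : ℕ) (a b : X) :
    Triv g (s^[m] a) (s^[m] b) ↔ Triv g a b := by
  constructor
  · intro k y h1 h2
    have h3 := k (s^[m] y) ((s.monotone.iterate m) h1) ((s.monotone.iterate m) h2)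
    rw [aut_it s] at h3
    exact (s.injective.iterate m) h3
  · intro k y h1 h2
    have h3 : a ≤ s.symm^[m] y := by
      rw [← lamb_symm' (s := s) m a]
      exact (s.symm.monotone.iterate m) h1
    have h4 : s.symm^[m] y ≤ b := by
      rw [← lamb_symm' (s := s) m b]
      exact (s.symm.monotone.iterate m) h2
    have h5 := congrArg (s^[m]) (k _ h3 h4)
    rw [← aut_it s, lamb_symm] at h5
    exact h5

/-- rank of the join of a cycle of `f` and an element on `h` -/
theorem rk_far {r : X → ℤ} (hr : IsRk s r) {f : Pt s} {h : Ln s} {x v : X} (k : Far f h x)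
    (i j : ℕ) (hv : x ≤ v) (hv' : v ≤ Hk h j x) :
    r (f.1^[i] x ⊔ v) = r v + i ∧ f.1^[i] x ⊓ v = x := by
  have h1 : f.1^[i] x ⊓ v = x := by
    apply le_antisymm
    · exact (inf_le_inf_left _ hv').trans (le_of_eq (far_inf k i j))
    · exact le_inf (lamb_x_le f i x) hv
  refine ⟨?_, h1⟩
  have h2 := hr.mod (f.1^[i] x) v
  rw [h1, rk_it hr f i x] at h2
  linarith

omit [IsModularLattice X] [PB X s] in
/-- identification of a meet by the rank -/
private theorem lamb_meet {r : X → ℤ} (hr : IsRk s r) {a b u t : X} (h1 : a ≤ b) (h2 : a ≤ u)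
    (h3 : b ⊔ u = t) (h4 : r b + r u = r t + r a) : b ⊓ u = a := by
  have h5 := hr.mod b u
  rw [h3] at h5
  exact (rk_eq hr (le_inf h1 h2) (by linarith)).symm

theorem lam {f : Pt s} {h : Ln s} {x : X} (k : Far f h x) {g : X ≃o X} (hg : Ax h x g)
    {m n : ℕ} (hf : g (f.1^[m + n] x) = f.1^[m + n] x) :
    Triv g x (s^[n] x) ↔ Triv g (f.1^[m] x) (s^[n] (f.1^[m] x)) := by
  obtain ⟨r, hr⟩ := exists_rk s
  -- fixed elements
  have gx : g x = x := hg 0 x le_rfl le_rfl
  have gs : ∀ i, g (s^[i] x) = s^[i] x := fun i => by rw [aut_it s, gx]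
  have gf : ∀ i, i ≤ m + n → g (f.1^[i] x) = f.1^[i] x := by
    intro i hi
    have h1 : f.1^[i] x = f.1^[m + n] x ⊓ s^[i] x := by
      rw [it_inf_s, min_eq_right hi]
    rw [h1, g.map_inf, hf, gs]
  have gp : ∀ (p : Pt s), Inc p h → ∀ i, g (p.1^[i] x) = p.1^[i] x := by
    intro p hp i
    exact hg i _ (lamb_x_le p i x) (inc_it hp i x)
  -- the points
  obtain ⟨p', q, hp', hq, hpq, hpq1⟩ := exact_on h x m
  obtain ⟨p, hp, hpx, -⟩ := third_on (p := q) (q := q) (h := h) x
  obtain ⟨w, hw⟩ : ∃ w, w = f.1^[m] x := ⟨_, rfl⟩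
  obtain ⟨z, hz⟩ : ∃ z, z = q.1^[m] x := ⟨_, rfl⟩
  obtain ⟨F, hF⟩ : ∃ F, F = f.1^[m + n] x := ⟨_, rfl⟩
  obtain ⟨c, hc⟩ : ∃ c, c = q.1^[m + n] x := ⟨_, rfl⟩
  obtain ⟨c', hc'⟩ : ∃ c', c' = p'.1^[m + n] x := ⟨_, rfl⟩
  have hz' : z = p'.1^[m] x := by rw [hz, hpq]
  have hxw : x ≤ w := by rw [hw]; exact lamb_x_le f m x
  have hxz : x ≤ z := by rw [hz]; exact lamb_x_le q m x
  have hxc : x ≤ c := by rw [hc]; exact lamb_x_le q (m + n) x
  have hxc' : x ≤ c' := by rw [hc']; exact lamb_x_le p' (m + n) x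
  have hzc : z ≤ c := by rw [hz, hc]; exact it_le_it q (Nat.le_add_right m n) x
  have hzc' : z ≤ c' := by rw [hz', hc']; exact it_le_it p' (Nat.le_add_right m n) x
  have hwF : w ≤ F := by rw [hw, hF]; exact it_le_it f (Nat.le_add_right m n) x
  have hzH : z ≤ Hk h m x := by rw [hz]; exact inc_it hq m x
  have hcH : c ≤ Hk h (m + n) x := by rw [hc]; exact inc_it hq (m + n) x
  have hc'H : c' ≤ Hk h (m + n) x := by rw [hc']; exact inc_it hp' (m + n) x
  -- the element `e`
  obtain ⟨e, he⟩ : ∃ e, e = Hk h n z := ⟨_, rfl⟩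
  have hqz : q.1^[n] z = c := by rw [hz, hc, lamb_it]
  have hp'z : p'.1^[n] z = c' := by rw [hz', hc', lamb_it]
  have hcc' : c' ⊔ c = e := by
    rw [he, ← Hk_sup_it hp' hq (x := z) ?_ n, hqz, hp'z]
    intro h1
    apply hpq1
    rw [Function.iterate_succ_apply', Function.iterate_succ_apply', ← hz', ← hz, h1]
  have hce : c ≤ e := hcc' ▸ le_sup_right
  have hc'e : c' ≤ e := hcc' ▸ le_sup_left
  have heH : e ≤ Hk h (m + n) x := by
    rw [he, add_comm m n, ← Hk_Hk]
    exact Hk_mono h n hzH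
  have hxe : x ≤ e := hxc.trans hce
  -- ranks
  have rw_ : r w = r x + m := by rw [hw, rk_it hr]
  have rz : r z = r x + m := by rw [hz, rk_it hr]
  have rF : r F = r x + (m + n) := by
    rw [hF, rk_it hr]
    push_cast
    ring
  have rc : r c = r x + (m + n) := by
    rw [hc, rk_it hr]
    push_cast
    ring
  have rc' : r c' = r x + (m + n) := by
    rw [hc', rk_it hr]
    push_cast
    ring
  have re : r e = r x + m + 2 * n := by rw [he, rk_Hk hr, rz]
  have rFe : r (F ⊔ e) = r x + m + 2 * n + (m + n) := by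
    have h1 := (rk_far hr k (m + n) (m + n) hxe heH).1
    rw [← hF, re] at h1
    rw [h1]
    push_cast
    ring
  have rwc : r (w ⊔ c) = r x + (m + n) + m := by
    have h1 := (rk_far hr k m (m + n) hxc hcH).1
    rw [← hw, rc] at h1
    exact h1
  -- `p^n x ⊔ c = e`
  obtain ⟨d, hd⟩ : ∃ d, d = p.1^[n] x := ⟨_, rfl⟩
  have hxd : x ≤ d := by rw [hd]; exact lamb_x_le p n x
  have hdH : d ≤ Hk h n x := by rw [hd]; exact inc_it hp n x
  have hde : d ≤ e := by
    rw [he]
    exact hdH.trans (Hk_mono h n hxz)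
  have rd : r d = r x + n := by rw [hd, rk_it hr]
  have hdc : d ⊔ c = e := by
    apply rk_eq hr (sup_le hde hce)
    have h1 := rk_sup hr hpx n (m + n)
    rw [← hd, ← hc] at h1
    rw [h1, re]
    push_cast
    linarith
  -- the element `b`
  obtain ⟨b, hb⟩ : ∃ b, b = F ⊔ d := ⟨_, rfl⟩
  have hpw : p.1^[n] w = w ⊔ d := by
    symm
    apply rk_eq hr
    · apply sup_le (lamb_x_le p n w)
      rw [hd]
      exact it_mono p n hxw
    · have h1 := (rk_far hr k m n hxd hdH).1
      rw [← hw, rd] at h1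
      rw [h1, rk_it hr, rw_]
      linarith
  have hbw : f.1^[n] w ⊔ p.1^[n] w = b := by
    rw [hpw, hb, hw, lamb_it, ← hF, ← hw, ← sup_assoc, sup_eq_left.2 hwF]
  have rb : r b = r x + n + (m + n) := by
    have h1 := (rk_far hr k (m + n) n hxd hdH).1
    rw [← hF, rd] at h1
    rw [hb, h1]
    push_cast
    ring
  have hbc : b ⊔ c = F ⊔ e := by rw [hb, sup_assoc, hdc]
  have hwb : w ≤ b := by rw [hb]; exact hwF.trans le_sup_left
  -- fixed elements again
  have gw : g w = w := by rw [hw]; exact gf m (Nat.le_add_right m n)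
  have gF : g F = F := by rw [hF]; exact hf
  have gz : g z = z := by rw [hz]; exact gp q hq m
  have gc : g c = c := by rw [hc]; exact gp q hq (m + n)
  have gc' : g c' = c' := by rw [hc']; exact gp p' hp' (m + n)
  have gd : g d = d := by rw [hd]; exact gp p hp n
  have gb : g b = b := by rw [hb, g.map_sup, gF, gd]
  -- (A)
  have A1 := triv_line k hg (gf n (Nat.le_add_left n m)) hp'
  have kw : Far f h w := by rw [hw]; exact far_f k m
  have gaw : Ax h w g := by
    rw [hw]
    exact (ax_it k m g).2 ⟨hg, gf m (Nat.le_add_right m n)⟩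
  have gfw : g (f.1^[n] w) = f.1^[n] w := by rw [hw, lamb_it]; exact hf
  have A2 := triv_line kw gaw gfw hp
  rw [hbw] at A2
  -- (B1)
  have B1 : Triv g w b ↔ Triv g (w ⊔ c) (b ⊔ c) := by
    apply proj hwb gw gb gc
    apply lamb_meet hr hwb le_sup_left (t := F ⊔ e)
    · rw [← sup_assoc, sup_eq_left.2 hwb, hbc]
    · rw [rb, rwc, rFe, rw_]
      ring
  -- (B2)
  obtain ⟨a', ha'⟩ : ∃ a', a' = w ⊔ z := ⟨_, rfl⟩
  obtain ⟨b', hb'⟩ : ∃ b', b' = F ⊔ c' := ⟨_, rfl⟩
  have hab' : a' ≤ b' := by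
    rw [ha', hb']
    exact sup_le_sup hwF hzc'
  have ga' : g a' = a' := by rw [ha', g.map_sup, gw, gz]
  have gb' : g b' = b' := by rw [hb', g.map_sup, gF, gc']
  have ra' : r a' = r x + m + m := by
    have h1 := (rk_far hr k m m hxz hzH).1
    rw [← hw, ← ha', rz] at h1
    exact h1
  have rb' : r b' = r x + (m + n) + (m + n) := by
    have h1 := (rk_far hr k (m + n) (m + n) hxc' hc'H).1
    rw [← hF, ← hb', rc'] at h1
    rw [h1]
    push_cast
    ring
  have hac : a' ⊔ c = w ⊔ c := by rw [ha', sup_assoc, sup_eq_right.2 hzc]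
  have hbc' : b' ⊔ c = F ⊔ e := by rw [hb', sup_assoc, hcc']
  have B2 : Triv g a' b' ↔ Triv g (a' ⊔ c) (b' ⊔ c) := by
    apply proj hab' ga' gb' gc
    apply lamb_meet hr hab' le_sup_left (t := F ⊔ e)
    · rw [← sup_assoc, sup_eq_left.2 hab', hbc']
    · rw [hac, rb', rwc, rFe, ra']
      ring
  rw [hac, hbc'] at B2
  rw [hbc] at B1
  -- (C)
  have hws : w ≤ s^[m] x := by rw [hw]; exact it_le_s f m x
  have hzs : z ≤ s^[m] x := by rw [hz]; exact it_le_s q m x
  have has : a' ⊔ s^[m] x = s^[m] x := by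
    rw [ha']
    exact sup_eq_right.2 (sup_le hws hzs)
  have hbs : b' ⊔ s^[m] x = s^[m] (f.1^[n] x ⊔ p'.1^[n] x) := by
    have h1 : F ⊔ s^[m] x = s^[m] (f.1^[n] x) := by
      rw [hF, it_sup_s f (Nat.le_add_right m n), Nat.add_sub_cancel_left, it_s]
    have h2 : c' ⊔ s^[m] x = s^[m] (p'.1^[n] x) := by
      rw [hc', it_sup_s p' (Nat.le_add_right m n), Nat.add_sub_cancel_left, it_s]
    rw [lamb_sup, ← h1, ← h2, hb', sup_sup_distrib_right]
  have rbs : r (s^[m] (f.1^[n] x ⊔ p'.1^[n] x)) = r x + n + n + 3 * m := by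
    have h1 := (rk_far hr k n n (lamb_x_le p' n x) (inc_it hp' n x)).1
    rw [rk_s hr, h1, rk_it hr]
  have C1 : Triv g a' b' ↔ Triv g (a' ⊔ s^[m] x) (b' ⊔ s^[m] x) := by
    apply proj hab' ga' gb' (gs m)
    rw [has]
    apply lamb_meet hr hab' (sup_eq_right.1 has) hbs
    rw [rbs, rb', ra', rk_s hr]
    ring
  rw [has, hbs, triv_s] at C1
  rw [← hw, A1, A2, ← C1, B2, B1]

end Pool.Agent.PLB
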