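import Pool.Agent.PLB.FxT

set_option autoImplicit false

/-! Theorem PB, section 5: the lattice `Lam z` in `K ^ 3` attached to `z` (definition and additivity).

`u ∈ Lam z` iff `v(u) + mu (pt u) z ≥ 0`, `v(u)` = smallest value of a coordinate.
PLAN. `lam_add`: `u, u' ∈ Lam z`. If they are proportional (`u' = rs u a`, `hH.pt_eq`) all points are equal and `V n` is a
subgroup. Otherwise there is a row `φ ≠ 0` with `dot φ u = dot φ u' = 0` (the line through `pt u`, `pt u'`, `hH.ln_surj`,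
`hH.inc`); scale it (`ls`) such that all `φ j ∈ V 0` and some `φ j₀ ∉ V 1`. Let `N = nu (ln φ) z` and `c : K` of exact value `N`
(`exists_val`). `tau (rs u c) φ` fixes `z`: by `fx_iff` (`TC.mem`) this is `Fx (N - mu (pt u) z)`, by `fx_tau`:
`u i c φ j ∈ V (N - mu)`, true as `u i ∈ V (- mu)`, `c ∈ V N`, `φ j ∈ V 0`. So `tau (rs (u + u') c) φ` fixes `z` (`TC.add_l`), and
backwards, with `j = j₀`: `(u + u') i c φ j₀ ∈ V (N - mu (pt (u+u')) z)`, so `(u + u') i ∈ V (- mu (pt (u+u')) z)` (`val_cancel`).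
(`pt (rs w c) = pt w`.) -/

namespace Pool.Agent.PLB

open Pool.Agent.Helper87.ML Pool.Agent.RIG OrderDual
open scoped commutatorElement

universe u

variable {X : Type u} [Lattice X] [IsModularLattice X] {s : X ≃o X} [PB X s]

section

variable {K : Type u} [DivisionRing K] {V : ℤ → AddSubgroup K} (hV : Vl K V)
include hV

theorem vl_anti {m n : ℤ} (h : m ≤ n) : V n ≤ V m := by
  exact antitone_int_of_succ_le hV.anti h

theorem vl_bdd (a : K) : ∃ n, a ∈ V n := by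
  by_cases h : a = 0
  · exact ⟨0, h ▸ (V 0).zero_mem⟩
  · obtain ⟨n, hn, -⟩ := hV.ex a h
    exact ⟨n, hn⟩

/-- values of inverses, exact form -/
private theorem lamc_inv {a : K} {m : ℤ} (h : a ∈ V m) (h' : a ∉ V (m + 1)) :
    a⁻¹ ∈ V (-m) ∧ a⁻¹ ∉ V (-m + 1) := by
  have ha : a ≠ 0 := fun h0 => h' (h0 ▸ (V (m + 1)).zero_mem)
  obtain ⟨k, hk, hk'⟩ := hV.ex a⁻¹ (inv_ne_zero ha)
  have h1 := hV.mul _ _ _ _ h hk
  have h2 := hV.mul' _ _ _ _ h h' hk hk'
  rw [mul_inv_cancel₀ ha] at h1 h2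
  have h3 : m + k = 0 := by
    by_contra hne
    rcases lt_or_gt_of_ne hne with h3 | h3
    · exact h2 (vl_anti hV (by omega : m + k + 1 ≤ 0) hV.one)
    · exact hV.one' (vl_anti hV (by omega : 1 ≤ m + k) h1)
  have h4 : k = -m := by omega
  rw [h4] at hk hk'
  exact ⟨hk, hk'⟩

/-- values of inverses -/
theorem vl_inv {a : K} {n : ℤ} (h : a ∉ V (n + 1)) : a⁻¹ ∈ V (-n) := by
  have ha : a ≠ 0 := fun h0 => h (h0 ▸ (V (n + 1)).zero_mem)
  obtain ⟨m, hm, hm'⟩ := hV.ex a ha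
  have h1 : m ≤ n := by
    by_contra h2
    exact h (vl_anti hV (by omega : n + 1 ≤ m) hm)
  exact vl_anti hV (by omega : -n ≤ -m) (lamc_inv hV hm hm').1

theorem vl_inv' {a : K} {n : ℤ} (ha : a ≠ 0) (h : a ∈ V n) : a⁻¹ ∉ V (-n + 1) := by
  obtain ⟨m, hm, hm'⟩ := hV.ex a ha
  have h1 : n ≤ m := by
    by_contra h2
    exact hm' (vl_anti hV (by omega : m + 1 ≤ n) h)
  intro h2
  exact (lamc_inv hV hm hm').2 (vl_anti hV (by omega : -m + 1 ≤ -n + 1) h2)

theorem val_cancel {a b : K} {m n : ℤ} (hb : b ∉ V (n + 1)) (h : a * b ∈ V (m + n)) :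
    a ∈ V m := by
  have hb0 : b ≠ 0 := fun h0 => hb (h0 ▸ (V (n + 1)).zero_mem)
  have h1 := hV.mul _ _ _ _ h (vl_inv hV hb)
  rw [mul_inv_cancel_right₀ hb0, add_neg_cancel_right] at h1
  exact h1

theorem exists_val (n : ℤ) : ∃ c, c ∈ V n ∧ c ∉ V (n + 1) := by
  obtain ⟨p, hp, hp'⟩ := hV.pi
  have hi := lamc_inv hV (m := 1) hp hp'
  induction n using Int.induction_on with
  | zero => exact ⟨1, hV.one, hV.one'⟩
  | succ k ih =>
    obtain ⟨c, hc, hc'⟩ := ih
    exact ⟨c * p, hV.mul _ _ _ _ hc hp, hV.mul' _ _ _ _ hc hc' hp hp'⟩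
  | pred k ih =>
    obtain ⟨c, hc, hc'⟩ := ih
    exact ⟨c * p⁻¹, hV.mul _ _ _ _ hc hi.1, hV.mul' _ _ _ _ hc hc' hi.1 hi.2⟩

/-- a nonzero vector has an exact value -/
theorem vec_val {u : Fin 3 → K} (hu : u ≠ 0) :
    ∃ n, (∀ i, u i ∈ V n) ∧ ∃ i, u i ∉ V (n + 1) := by
  obtain ⟨i₀, hi₀⟩ : ∃ i, u i ≠ 0 := by
    by_contra h
    push Not at h
    exact hu (funext h)
  obtain ⟨m, -, hm'⟩ := hV.ex _ hi₀
  have hb : ∃ b : ℤ, ∀ z : ℤ, (∀ i, u i ∈ V z) → z ≤ b := by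
    refine ⟨m, fun z hz => ?_⟩
    by_contra h2
    exact hm' (vl_anti hV (by omega : m + 1 ≤ z) (hz i₀))
  have hn : ∃ z : ℤ, ∀ i, u i ∈ V z := by
    obtain ⟨a, ha⟩ := vl_bdd hV (u 0)
    obtain ⟨b, hb⟩ := vl_bdd hV (u 1)
    obtain ⟨c, hc⟩ := vl_bdd hV (u 2)
    refine ⟨min a (min b c), fun i => ?_⟩
    fin_cases i
    · exact vl_anti hV (by omega) ha
    · exact vl_anti hV (by omega) hb
    · exact vl_anti hV (by omega) hc
  obtain ⟨n, hn1, hn2⟩ := Int.exists_greatest_of_bdd hb hn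
  refine ⟨n, hn1, ?_⟩
  by_contra h
  push Not at h
  have := hn2 _ h
  omega

end

/-- the set of columns `u` with `v(u) + mu (pt u) z ≥ 0` -/
def LamS (o : X) {K : Type u} [DivisionRing K] (V : ℤ → AddSubgroup K)
    (pt : (Fin 3 → K) → Pt s) (z : X) : Set (Fin 3 → K) :=
  {u | u = 0 ∨ ∀ i, u i ∈ V (- mu o (pt u) z)}

private theorem lamc_rs_ne {K : Type u} [DivisionRing K] {u : Fin 3 → K} {a : K} (hu : u ≠ 0)
    (ha : a ≠ 0) : rs u a ≠ 0 := by
  intro h
  refine hu (funext fun i => ?_)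
  have h1 : u i * a = 0 := congrFun h i
  exact (mul_eq_zero.1 h1).resolve_right ha

private theorem lamc_dot_rs {K : Type u} [DivisionRing K] (φ u : Fin 3 → K) (a : K) :
    dot φ (rs u a) = dot φ u * a := by
  simp only [dot, rs, add_mul, mul_assoc]

private theorem lamc_rs_add {K : Type u} [DivisionRing K] (u v : Fin 3 → K) (a : K) :
    rs (u + v) a = rs u a + rs v a := by
  funext i
  simp only [rs, Pi.add_apply, add_mul]

private theorem lamc_dot_add {K : Type u} [DivisionRing K] (φ u v : Fin 3 → K) :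
    dot φ (u + v) = dot φ u + dot φ v := by
  simp only [dot, Pi.add_apply, mul_add]
  abel

section

variable {o : X} {F : Frame (Inc (s := s))} {K : Type u} [DivisionRing K]
  {V : ℤ → AddSubgroup K} {xa xb xc : K → Gp X} {pt : (Fin 3 → K) → Pt s}
  {ln : (Fin 3 → K) → Ln s} {tau : (Fin 3 → K) → (Fin 3 → K) → Gp X}
  (hC : CR o F K V xa xb xc) (hH : HC F K xa xb xc pt ln) (hT : TC F K xa xb xc pt ln tau)
include hC hH hT

theorem lam_add (z : X) {u u' : Fin 3 → K} (hu : u ∈ LamS o V pt z)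
    (hu' : u' ∈ LamS o V pt z) : u + u' ∈ LamS o V pt z := by
  haveI : Nonempty X := ⟨o⟩
  rcases hu with hu | hu
  · rw [hu, zero_add]; exact hu'
  rcases hu' with hu' | hu'
  · rw [hu', add_zero]; exact Or.inr hu
  by_cases hu0 : u = 0
  · rw [hu0, zero_add]; exact Or.inr hu'
  by_cases hu0' : u' = 0
  · rw [hu0', add_zero]; exact Or.inr hu
  by_cases hs : u + u' = 0
  · exact Or.inl hs
  have hV := hC.vl
  have hpt : ∀ {w : Fin 3 → K} {a : K}, w ≠ 0 → a ≠ 0 → pt (rs w a) = pt w := fun hw ha =>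
    ((hH.pt_eq _ _ hw (lamc_rs_ne hw ha)).2 ⟨_, ha, rfl⟩).symm
  refine Or.inr fun i => ?_
  by_cases hpp : pt u = pt u'
  · obtain ⟨a, ha, hua⟩ := (hH.pt_eq u u' hu0 hu0').1 hpp
    have h1 : u + u' = rs u (1 + a) := by
      rw [hua]
      funext i
      simp only [rs, Pi.add_apply, mul_add, mul_one]
    have h2 : (1 + a) ≠ 0 := by
      intro h
      refine hs ?_
      rw [h1, h]
      funext i
      simp only [rs, mul_zero, Pi.zero_apply]
    have h3 : pt (u + u') = pt u := by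
      rw [h1]
      exact hpt hu0 h2
    rw [h3]
    exact (V _).add_mem (hu i) (hpp ▸ hu' i)
  · obtain ⟨l, hl, -⟩ := (isPP s).line (pt u) (pt u') hpp
    obtain ⟨φ, hφ, rfl⟩ := hH.ln_surj l
    have d1 : dot φ u = 0 := (hH.inc u φ hu0 hφ).1 hl.1
    have d2 : dot φ u' = 0 := (hH.inc u' φ hu0' hφ).1 hl.2
    have d3 : dot φ (u + u') = 0 := by rw [lamc_dot_add, d1, d2, add_zero]
    obtain ⟨n, hn, j, hj⟩ := vec_val hV hφ
    obtain ⟨c, hc, hc'⟩ := exists_val hV (nu o (ln φ) z - n)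
    have hc0 : c ≠ 0 := fun h0 => hc' (h0 ▸ (V (nu o (ln φ) z - n + 1)).zero_mem)
    have key : ∀ w : Fin 3 → K, w ≠ 0 → dot φ w = 0 →
        ((tau (rs w c) φ : X ≃o X) z = z ↔
          ∀ i j, w i * c * φ j ∈ V (nu o (ln φ) z - mu o (pt w) z)) := by
      intro w hw hd
      have hw' : rs w c ≠ 0 := lamc_rs_ne hw hc0
      have hd' : dot φ (rs w c) = 0 := by rw [lamc_dot_rs, hd, zero_mul]
      have h1 := fx_iff o ((hH.inc _ φ hw' hφ).2 hd') (hT.mem _ _ hw' hφ hd') z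
      rw [hpt hw hc0] at h1
      have h2 := fx_tau hC hH hT hw' hφ hd' (nu o (ln φ) z - mu o (pt w) z)
      rw [hpt hw hc0] at h2
      exact h1.trans h2
    have fwd : ∀ w : Fin 3 → K, w ≠ 0 → dot φ w = 0 → (∀ i, w i ∈ V (-mu o (pt w) z)) →
        (tau (rs w c) φ : X ≃o X) z = z := by
      intro w hw hd hL
      refine (key w hw hd).2 fun i j => ?_
      have h1 := hV.mul _ _ _ _ (hV.mul _ _ _ _ (hL i) hc) (hn j)
      have h2 : -mu o (pt w) z + (nu o (ln φ) z - n) + n = nu o (ln φ) z - mu o (pt w) z := by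
        ring
      rw [h2] at h1
      exact h1
    have f1 := fwd u hu0 d1 hu
    have f2 := fwd u' hu0' d2 hu'
    have f3 : (tau (rs (u + u') c) φ : X ≃o X) z = z := by
      rw [lamc_rs_add, hT.add_l _ _ _ (by rw [lamc_dot_rs, d1, zero_mul])
        (by rw [lamc_dot_rs, d2, zero_mul])]
      show (tau (rs u c) φ : X ≃o X) ((tau (rs u' c) φ : X ≃o X) z) = z
      rw [f2, f1]
    have h1 := (key _ hs d3).1 f3 i j
    have h2 : nu o (ln φ) z - mu o (pt (u + u')) z =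
        -mu o (pt (u + u')) z + (nu o (ln φ) z - n) + n := by ring
    rw [h2] at h1
    exact val_cancel hV hc' (val_cancel hV hj h1)

theorem lam_rs (z : X) {u : Fin 3 → K} (hu : u ∈ LamS o V pt z) {a : K} (ha : a ∈ V 0) :
    rs u a ∈ LamS o V pt z := by
  rcases hu with hu | hu
  · left
    rw [hu]
    funext i
    simp only [rs, Pi.zero_apply, zero_mul]
  by_cases hu0 : u = 0
  · left
    rw [hu0]
    funext i
    simp only [rs, Pi.zero_apply, zero_mul]
  by_cases ha0 : a = 0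
  · left
    rw [ha0]
    funext i
    simp only [rs, Pi.zero_apply, mul_zero]
  right
  intro i
  have h1 : pt (rs u a) = pt u :=
    ((hH.pt_eq _ _ hu0 (lamc_rs_ne hu0 ha0)).2 ⟨_, ha0, rfl⟩).symm
  rw [h1]
  have h2 := hC.vl.mul _ _ _ _ (hu i) ha
  rw [add_zero] at h2
  exact h2

theorem lam_neg (z : X) {u : Fin 3 → K} (hu : u ∈ LamS o V pt z) :
    -u ∈ LamS o V pt z := by
  have h1 : -u = rs u (-1) := by
    funext i
    simp only [rs, Pi.neg_apply, mul_neg, mul_one]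
  rw [h1]
  exact lam_rs hC hH hT z hu ((V 0).neg_mem hC.vl.one)

end

end Pool.Agent.PLB
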