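import Pool.Agent.PLB.LamC

set_option autoImplicit false

/-! Theorem PB, section 5: indices of right stable subgroups of `K ^ 3` (pure algebra).

With `q = [V 0 : V 1]`: `idx_ge`: right stable subgroups `A < B` with finite index have index at least `q`;
`idx_cube`: `[V(-n)^3 : V(0)^3] = q^(3n)`. -/

namespace Pool.Agent.PLB

universe u

/-- right stable subgroups -/
def RSt {K : Type u} [DivisionRing K] (V : ℤ → AddSubgroup K) (A : AddSubgroup (Fin 3 → K)) :
    Prop := ∀ u ∈ A, ∀ a ∈ V 0, rs u a ∈ A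

/-- the cube of `V n` -/
def cube {K : Type u} [DivisionRing K] (V : ℤ → AddSubgroup K) (n : ℤ) :
    AddSubgroup (Fin 3 → K) where
  carrier := {u | ∀ i, u i ∈ V n}
  add_mem' h h' i := (V n).add_mem (h i) (h' i)
  zero_mem' _ := (V n).zero_mem
  neg_mem' h i := (V n).neg_mem (h i)

section

variable {K : Type u} [DivisionRing K] {V : ℤ → AddSubgroup K} (hV : Vl K V)
include hV

theorem idx_ne : (V 1).relIndex (V 0) ≠ 0 := by
  classical
  obtain ⟨T, hT⟩ := hV.fin
  have h10 : V 1 ≤ V 0 := by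
    have h := hV.anti 0
    rwa [zero_add] at h
  let f : T → ((V 0) ⧸ ((V 1).addSubgroupOf (V 0))) := fun t =>
    if h : (t : K) ∈ V 0 then QuotientAddGroup.mk ⟨t, h⟩ else 0
  have hf : Function.Surjective f := by
    intro x
    obtain ⟨a, rfl⟩ := QuotientAddGroup.mk_surjective x
    obtain ⟨t, ht, hat⟩ := hT a a.2
    have ht0 : t ∈ V 0 := by
      have h := (V 0).sub_mem a.2 (h10 hat)
      rwa [sub_sub_cancel] at h
    refine ⟨⟨t, ht⟩, ?_⟩
    have hft : f ⟨t, ht⟩ = QuotientAddGroup.mk ⟨t, ht0⟩ := dif_pos ht0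
    rw [hft, QuotientAddGroup.eq, AddSubgroup.mem_addSubgroupOf]
    have h2 : ((-(⟨t, ht0⟩ : V 0) + a : V 0) : K) = (a : K) - t := by
      rw [AddSubgroup.coe_add, AddSubgroup.coe_neg, neg_add_eq_sub]
    rw [h2]
    exact hat
  haveI : Finite ((V 0) ⧸ ((V 1).addSubgroupOf (V 0))) := Finite.of_surjective f hf
  exact AddSubgroup.index_ne_zero_of_finite

theorem idx_ge {A B : AddSubgroup (Fin 3 → K)} (hA : RSt V A) (hB : RSt V B) (h : A < B)
    (h0 : A.relIndex B ≠ 0) : (V 1).relIndex (V 0) ≤ A.relIndex B := by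
  obtain ⟨hle, u, huB, huA⟩ := SetLike.lt_iff_le_and_exists.1 h
  let f : K →+ (Fin 3 → K) := AddMonoidHom.mk' (fun a => rs u a) (fun a b => by
    funext i
    exact mul_add _ _ _)
  have h1 : (A.comap f).relIndex (V 0) = A.relIndex ((V 0).map f) := AddSubgroup.relIndex_comap A f (V 0)
  have h2 : (V 0).map f ≤ B := by
    rintro x ⟨a, ha, rfl⟩
    exact hB u huB a ha
  have h3 : A.relIndex ((V 0).map f) ≤ A.relIndex B := AddSubgroup.relIndex_le_of_le_right h2 h0
  have h4 : A.comap f ⊓ V 0 ≤ V 1 := by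
    rintro a ⟨ha, ha0⟩
    by_contra hc
    have h5 : a⁻¹ ∈ V (-0) := vl_inv hV (by rwa [zero_add])
    rw [neg_zero] at h5
    have hane : a ≠ 0 := fun h => hc (h ▸ (V 1).zero_mem)
    have h6 := hA _ ha _ h5
    have h7 : rs (f a) a⁻¹ = u := by
      funext i
      exact mul_inv_cancel_right₀ hane (u i)
    rw [h7] at h6
    exact huA h6
  have h8 : (A.comap f).relIndex (V 0) ≠ 0 := by
    rw [h1]
    intro h9
    exact h0 (AddSubgroup.relIndex_eq_zero_of_le_right h2 h9)
  have h10 : (V 1).relIndex (V 0) ≤ (A.comap f ⊓ V 0).relIndex (V 0) :=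
    AddSubgroup.relIndex_le_of_le_left h4 (by rwa [AddSubgroup.inf_relIndex_right])
  rw [AddSubgroup.inf_relIndex_right, h1] at h10
  exact h10.trans h3

private lemma lami_map {m : ℤ} {c : K} (hc : c ∈ V m) (hc' : c ∉ V (m + 1)) (k : ℤ) :
    V (m + k) = (V k).map (AddMonoidHom.mulLeft c) := by
  have hc0 : c ≠ 0 := fun h => hc' (h ▸ (V (m + 1)).zero_mem)
  ext x
  constructor
  · intro hx
    refine ⟨c⁻¹ * x, ?_, mul_inv_cancel_left₀ hc0 x⟩
    have h := hV.mul _ _ _ _ (vl_inv hV hc') hx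
    rwa [neg_add_cancel_left] at h
  · rintro ⟨a, ha, rfl⟩
    exact hV.mul _ _ _ _ hc ha

private lemma lami_step (m : ℤ) : (V (m + 1)).relIndex (V m) = (V 1).relIndex (V 0) := by
  obtain ⟨c, hc, hc'⟩ := exists_val hV m
  have h1 := lami_map hV hc hc' 1
  have h0 := lami_map hV hc hc' 0
  rw [add_zero] at h0
  have hc0 : c ≠ 0 := fun h => hc' (h ▸ (V (m + 1)).zero_mem)
  rw [h1]
  conv_lhs => rw [h0]
  exact AddSubgroup.relIndex_map_map_of_injective _ _ (mul_right_injective₀ hc0)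

private lemma lami_pow (n : ℕ) :
    (V 0).relIndex (V (-(n : ℤ))) = (V 1).relIndex (V 0) ^ n := by
  induction n with
  | zero =>
    rw [Nat.cast_zero, neg_zero, pow_zero]
    exact AddSubgroup.relIndex_self _
  | succ n ih =>
    have h1 : V 0 ≤ V (-(n : ℤ)) := vl_anti hV (by omega)
    have h2 : V (-(n : ℤ)) ≤ V (-((n + 1 : ℕ) : ℤ)) := vl_anti hV (by omega)
    rw [← AddSubgroup.relIndex_mul_relIndex _ _ _ h1 h2, ih, pow_succ]
    have h3 := lami_step hV (-((n + 1 : ℕ) : ℤ))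
    have h4 : -((n + 1 : ℕ) : ℤ) + 1 = -(n : ℤ) := by push_cast; ring
    rw [h4] at h3
    rw [h3]

omit hV in
private lemma lami_pi (W : ℤ → AddSubgroup K) (m n : ℤ) :
    (cube W m).relIndex (cube W n) = (W m).relIndex (W n) ^ 3 := by
  let f : (Fin 3 → W n) →+ (Fin 3 → K) := AddMonoidHom.mk' (fun u i => (u i : K)) (fun a b => rfl)
  have h1 : (⊤ : AddSubgroup (Fin 3 → W n)).map f = cube W n := by
    ext x
    constructor
    · rintro ⟨u, -, rfl⟩ i
      exact (u i).2
    · intro hx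
      exact ⟨fun i => ⟨x i, hx i⟩, trivial, rfl⟩
  have h2 : (cube W m).comap f = AddSubgroup.pi Set.univ (fun _ => (W m).addSubgroupOf (W n)) := by
    ext x
    rw [AddSubgroup.mem_comap, AddSubgroup.mem_pi]
    constructor
    · intro h i _
      exact h i
    · intro h i
      exact h i trivial
  rw [← h1, ← AddSubgroup.relIndex_comap (cube W m) f ⊤, h2, AddSubgroup.relIndex_top_right,
    AddSubgroup.index_pi, Finset.prod_const, Finset.card_univ, Fintype.card_fin]
  rfl

theorem idx_cube (n : ℕ) :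
    (cube V 0).relIndex (cube V (-(n : ℤ))) = (V 1).relIndex (V 0) ^ (3 * n) := by
  rw [lami_pi V 0 (-(n : ℤ)), lami_pow hV n, ← pow_mul, mul_comm n 3]

end

end Pool.Agent.PLB
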