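import Pool.Agent.PLB.LamO
import Pool.Agent.PLB.LamI

set_option autoImplicit false

/-! Theorem PB, section 5: every right lattice is some `Lam z`.

The index of `Lam x` in `Lam y` is at least `q ^ (rk y - rk x)` (`lamk_ge`), with equality for `o ≤ s^n o`, so every
cover has index exactly `q`. Given `M`, take `z` of maximal rank in `[o, s^n o]` with `Lam z ≤ M`. -/

namespace Pool.Agent.PLB

open Pool.Agent.Helper87.ML Pool.Agent.RIG OrderDual
open scoped commutatorElement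

universe u

variable {X : Type u} [Lattice X] [IsModularLattice X] {s : X ≃o X} [PB X s]

section

variable {o : X} {F : Frame (Inc (s := s))} {K : Type u} [DivisionRing K]
  {V : ℤ → AddSubgroup K} {xa xb xc : K → Gp X} {pt : (Fin 3 → K) → Pt s}
  {ln : (Fin 3 → K) → Ln s} {tau : (Fin 3 → K) → (Fin 3 → K) → Gp X}
  (hC : CR o F K V xa xb xc) (hH : HC F K xa xb xc pt ln) (hT : TC F K xa xb xc pt ln tau)
include hC hH hT

private theorem lamk_mono {x y : X} (h : x ≤ y) : Lam hC hH hT x ≤ Lam hC hH hT y :=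
  (lam_le_iff hC hH hT x y).1 h

private theorem lamk_le {x y : X} (h : Lam hC hH hT x ≤ Lam hC hH hT y) : x ≤ y :=
  (lam_le_iff hC hH hT x y).2 h

private theorem lamk_lt {x y : X} (h : x < y) : Lam hC hH hT x < Lam hC hH hT y :=
  lt_of_le_not_ge (lamk_mono hC hH hT h.le) fun h1 => h.not_ge (lamk_le hC hH hT h1)

private theorem lamk_rst (x : X) : RSt V (Lam hC hH hT x) :=
  fun _ hu _ ha => lam_rs hC hH hT x hu ha

private theorem lamk_top (n : ℕ) : Lam hC hH hT (s^[n] o) = cube V (-(n : ℤ)) :=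
  SetLike.coe_injective (lam_shift hC hH hT n)

private theorem lamk_bot : Lam hC hH hT o = cube V 0 :=
  SetLike.coe_injective (lam_o hC hH hT)

private theorem lamk_idx (n : ℕ) : (Lam hC hH hT o).relIndex (Lam hC hH hT (s^[n] o)) =
    (V 1).relIndex (V 0) ^ (3 * n) := by
  rw [lamk_top, lamk_bot]
  exact idx_cube hC.vl n

private theorem lamk_ne {x y : X} (hx : o ≤ x) (h : x ≤ y) :
    (Lam hC hH hT x).relIndex (Lam hC hH hT y) ≠ 0 := by
  obtain ⟨n, hn⟩ := PB.dir (s := s) y o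
  intro h0
  have h1 := AddSubgroup.relIndex_mul_relIndex _ _ _ (lamk_mono hC hH hT h)
    (lamk_mono hC hH hT hn)
  have h2 := AddSubgroup.relIndex_mul_relIndex _ _ _ (lamk_mono hC hH hT hx)
    (lamk_mono hC hH hT (h.trans hn))
  rw [h0, zero_mul] at h1
  rw [← h1, mul_zero, lamk_idx] at h2
  exact pow_ne_zero _ (idx_ne hC.vl) h2.symm

private theorem lamk_ge {r : X → ℤ} (hr : IsRk s r) (m : ℕ) : ∀ {x y : X}, o ≤ x → x ≤ y →
    r y = r x + m →
    (V 1).relIndex (V 0) ^ m ≤ (Lam hC hH hT x).relIndex (Lam hC hH hT y) := by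
  induction m with
  | zero =>
    intro x y hx h _
    rw [pow_zero]
    exact Nat.one_le_iff_ne_zero.2 (lamk_ne hC hH hT hx h)
  | succ m ih =>
    intro x y hx h hm
    have hlt : x < y := by
      refine lt_of_le_of_ne h fun h1 => ?_
      rw [h1] at hm
      push_cast at hm
      linarith
    obtain ⟨w, hw, hwy⟩ := lf_cov (PB.fin (s := s)) hlt
    have h1 := hr.cov x w hw
    have h2 := ih (hx.trans hw.le) hwy (by
      rw [h1, hm]
      push_cast
      ring)
    have h3 := idx_ge hC.vl (lamk_rst hC hH hT x) (lamk_rst hC hH hT w)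
      (lamk_lt hC hH hT hw.lt) (lamk_ne hC hH hT hx hw.le)
    rw [← AddSubgroup.relIndex_mul_relIndex _ _ _ (lamk_mono hC hH hT hw.le)
      (lamk_mono hC hH hT hwy), pow_succ, mul_comm]
    exact Nat.mul_le_mul h3 h2

theorem idx_cov {z z' : X} (hz : o ≤ z) (h : z ⋖ z') :
    (Lam hC hH hT z).relIndex (Lam hC hH hT z') = (V 1).relIndex (V 0) := by
  obtain ⟨r, hr⟩ := exists_rk s
  obtain ⟨n, hn⟩ := PB.dir (s := s) z' o
  have hq : 0 < (V 1).relIndex (V 0) := Nat.pos_of_ne_zero (idx_ne hC.vl)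
  have h1 := idx_ge hC.vl (lamk_rst hC hH hT z) (lamk_rst hC hH hT z')
    (lamk_lt hC hH hT h.lt) (lamk_ne hC hH hT hz h.le)
  refine le_antisymm ?_ h1
  obtain ⟨a, ha⟩ := Int.le.dest (rk_mono hr hz)
  obtain ⟨b, hb⟩ := Int.le.dest (rk_mono hr hn)
  have h2 := lamk_ge hC hH hT hr a le_rfl hz ha.symm
  have h3 := lamk_ge hC hH hT hr b (hz.trans h.le) hn hb.symm
  have h4 := hr.cov z z' h
  have h5 := rk_s hr n o
  have h6 : a + 1 + b = 3 * n := by
    zify
    linarith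
  have h7 := lamk_idx hC hH hT n
  rw [← AddSubgroup.relIndex_mul_relIndex _ _ _ (lamk_mono hC hH hT hz)
    (lamk_mono hC hH hT (h.le.trans hn)), ← AddSubgroup.relIndex_mul_relIndex _ _ _
    (lamk_mono hC hH hT h.le) (lamk_mono hC hH hT hn), ← h6, pow_add, pow_add, pow_one] at h7
  by_contra hc
  push Not at hc
  generalize (Lam hC hH hT o).relIndex (Lam hC hH hT z) = A at *
  generalize (Lam hC hH hT z').relIndex (Lam hC hH hT (s^[n] o)) = B at *
  generalize (Lam hC hH hT z).relIndex (Lam hC hH hT z') = C at *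
  generalize (V 1).relIndex (V 0) = q at *
  have h8 : 0 < q ^ a := Nat.pow_pos hq
  have h9 : 0 < q ^ b := Nat.pow_pos hq
  have h10 : q ^ a * q * q ^ b < A * (C * B) := by
    calc q ^ a * q * q ^ b = q ^ a * (q * q ^ b) := by ring
      _ < q ^ a * (C * q ^ b) := Nat.mul_lt_mul_of_pos_left (Nat.mul_lt_mul_of_pos_right hc h9) h8
      _ ≤ A * (C * B) := Nat.mul_le_mul h2 (Nat.mul_le_mul le_rfl h3)
  exact absurd h7 h10.ne'

private theorem lamk_pt {u : Fin 3 → K} (hu : u ≠ 0) {a : K} (ha : a ≠ 0) :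
    rs u a ≠ 0 ∧ pt (rs u a) = pt u := by
  have h1 : rs u a ≠ 0 := by
    intro h
    apply hu
    funext i
    have h2 := congrFun h i
    have h3 : u i * a = 0 := h2
    exact (mul_eq_zero.1 h3).resolve_right ha
  exact ⟨h1, ((hH.pt_eq u (rs u a) hu h1).2 ⟨a, ha, rfl⟩).symm⟩

private theorem lamk_mem {u : Fin 3 → K} (hu : u ≠ 0) (z : X) :
    u ∈ Lam hC hH hT z ↔ ∀ i, u i ∈ V (- mu o (pt u) z) := by
  constructor
  · rintro (h | h)
    · exact absurd h hu
    · exact h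
  · intro h
    exact Or.inr h

theorem lam_surj (M : AddSubgroup (Fin 3 → K)) (hM : RSt V M) (h0 : cube V 0 ≤ M) {n : ℕ}
    (hn : M ≤ cube V (-(n : ℤ))) : ∃ z, o ≤ z ∧ Lam hC hH hT z = M := by
  obtain ⟨r, hr⟩ := exists_rk s
  have hon : o ≤ s^[n] o := by
    refine lamk_le hC hH hT ?_
    rw [lamk_top, lamk_bot]
    exact h0.trans hn
  obtain ⟨z, ⟨hz1, hz2⟩, hz3⟩ := Set.exists_max_image
    {z | z ∈ Set.Icc o (s^[n] o) ∧ Lam hC hH hT z ≤ M} r
    ((PB.fin (s := s) o (s^[n] o)).subset fun z hz => hz.1)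
    ⟨o, ⟨le_rfl, hon⟩, by rw [lamk_bot]; exact h0⟩
  refine ⟨z, hz1.1, ?_⟩
  by_contra hne
  obtain ⟨u, huM, huz⟩ : ∃ u, u ∈ M ∧ u ∉ Lam hC hH hT z := by
    by_contra hc
    push Not at hc
    exact hne (le_antisymm hz2 hc)
  obtain ⟨p, hp1, hp2⟩ := hC.vl.pi
  have hp0 : p ≠ 0 := by
    rintro rfl
    exact hp2 (V 2).zero_mem
  have hpV : p ∈ V 0 := vl_anti hC.vl (by norm_num) hp1
  have hu0 : u ≠ 0 := by
    rintro rfl
    exact huz (Lam hC hH hT z).zero_mem
  -- powers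
  have hpk : ∀ k : ℕ, p ^ k ∈ V (k : ℤ) := by
    intro k
    induction k with
    | zero =>
      rw [pow_zero]
      exact hC.vl.one
    | succ k ih =>
      have h1 := hC.vl.mul _ _ _ _ ih hp1
      rw [pow_succ]
      push_cast
      exact h1
  have hrs : ∀ k : ℕ, rs u (p ^ (k + 1)) = rs (rs u (p ^ k)) p := by
    intro k
    funext i
    show u i * p ^ (k + 1) = u i * p ^ k * p
    rw [pow_succ, mul_assoc]
  have hex : ∃ k : ℕ, rs u (p ^ k) ∈ Lam hC hH hT z := by
    obtain ⟨m, hm, -⟩ := vec_val hC.vl hu0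
    refine ⟨(- mu o (pt u) z - m).toNat, ?_⟩
    obtain ⟨h1, h2⟩ := lamk_pt hC hH hT hu0 (pow_ne_zero (- mu o (pt u) z - m).toNat hp0)
    rw [lamk_mem hC hH hT h1, h2]
    intro i
    have h3 := hC.vl.mul _ _ _ _ (hm i) (hpk (- mu o (pt u) z - m).toNat)
    refine vl_anti hC.vl ?_ h3
    have h4 := Int.self_le_toNat (- mu o (pt u) z - m)
    linarith
  -- the last power outside
  obtain ⟨v, hvM, hvz, hvp⟩ : ∃ v, v ∈ M ∧ v ∉ Lam hC hH hT z ∧ rs v p ∈ Lam hC hH hT z := by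
    classical
    have h1 := Nat.find_spec hex
    have h2 : Nat.find hex ≠ 0 := by
      intro h2
      rw [h2, pow_zero] at h1
      apply huz
      have h3 : rs u (1 : K) = u := by
        funext i
        exact mul_one _
      rwa [h3] at h1
    obtain ⟨k, hk⟩ := Nat.exists_eq_succ_of_ne_zero h2
    have h3 : ¬ rs u (p ^ k) ∈ Lam hC hH hT z := Nat.find_min hex (by omega)
    refine ⟨rs u (p ^ k), hM u huM _ ?_, h3, ?_⟩
    · exact vl_anti hC.vl (Int.natCast_nonneg k) (hpk k)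
    · rw [← hrs]
      rw [hk] at h1
      exact h1
  have hv0 : v ≠ 0 := by
    rintro rfl
    exact hvz (Lam hC hH hT z).zero_mem
  obtain ⟨m, hm, i, hi⟩ := vec_val hC.vl hv0
  obtain ⟨hvp0, hvpt⟩ := lamk_pt hC hH hT hv0 hp0
  have hmu : - mu o (pt v) z = m + 1 := by
    apply le_antisymm
    · by_contra hc
      rw [lamk_mem hC hH hT hvp0, hvpt] at hvp
      have h1 : v i * p ∈ V (- mu o (pt v) z) := hvp i
      have h2 := hC.vl.mul' m 1 (v i) p (hm i) hi hp1 (by norm_num; exact hp2)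
      exact h2 (vl_anti hC.vl (by linarith [Int.add_one_le_of_lt (not_le.1 hc)]) h1)
    · by_contra hc
      apply hvz
      rw [lamk_mem hC hH hT hv0]
      intro j
      exact vl_anti hC.vl (by linarith [Int.add_one_le_of_lt (not_le.1 hc)]) (hm j)
  have hcov : z ⋖ (pt v).1 z := (pt v).2.cov z
  have hvf : v ∈ Lam hC hH hT ((pt v).1 z) := by
    rw [lamk_mem hC hH hT hv0]
    have h1 := mu_f o (pt v) 1 z
    rw [Function.iterate_one] at h1
    have h2 : - mu o (pt v) ((pt v).1 z) = m := by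
      rw [h1]
      push_cast
      linarith
    rw [h2]
    exact hm
  -- the intersection
  have hN1 : Lam hC hH hT z < Lam hC hH hT ((pt v).1 z) ⊓ M := by
    refine lt_of_le_not_ge (le_inf (lamk_mono hC hH hT hcov.le) hz2) fun h1 => ?_
    exact hvz (h1 ⟨hvf, hvM⟩)
  have hN2 : RSt V (Lam hC hH hT ((pt v).1 z) ⊓ M) := fun w hw a ha =>
    ⟨lamk_rst hC hH hT _ w hw.1 a ha, hM w hw.2 a ha⟩
  have h1 := idx_cov hC hH hT hz1.1 hcov
  have h2 := AddSubgroup.relIndex_mul_relIndex _ _ _ hN1.le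
    (inf_le_left : Lam hC hH hT ((pt v).1 z) ⊓ M ≤ Lam hC hH hT ((pt v).1 z))
  have hq := idx_ne hC.vl
  rw [h1] at h2
  have h3 : (Lam hC hH hT z).relIndex (Lam hC hH hT ((pt v).1 z) ⊓ M) ≠ 0 := by
    intro h3
    rw [h3, zero_mul] at h2
    exact hq h2.symm
  have h4 := idx_ge hC.vl (lamk_rst hC hH hT z) hN2 hN1 h3
  have h5 : (Lam hC hH hT ((pt v).1 z) ⊓ M).relIndex (Lam hC hH hT ((pt v).1 z)) = 1 := by
    generalize (Lam hC hH hT z).relIndex (Lam hC hH hT ((pt v).1 z) ⊓ M) = A at *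
    generalize (Lam hC hH hT ((pt v).1 z) ⊓ M).relIndex (Lam hC hH hT ((pt v).1 z)) = B at *
    generalize (V 1).relIndex (V 0) = q at *
    have h6 : B ≠ 0 := by
      rintro rfl
      rw [mul_zero] at h2
      exact hq h2.symm
    by_contra h7
    have h8 : 2 ≤ B := by omega
    have h9 : q * 2 ≤ A * B := Nat.mul_le_mul h4 h8
    omega
  rw [AddSubgroup.relIndex_eq_one] at h5
  have h6 : Lam hC hH hT ((pt v).1 z) ≤ M := h5.trans inf_le_right
  have h7 : (pt v).1 z ≤ s^[n] o := by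
    refine lamk_le hC hH hT ?_
    rw [lamk_top]
    exact h6.trans hn
  have h8 := hz3 _ ⟨⟨hz1.1.trans hcov.le, h7⟩, h6⟩
  rw [hr.cov _ _ hcov] at h8
  linarith

end

end Pool.Agent.PLB
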