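import Pool.Agent.PLB.LamC

set_option autoImplicit false

/-! Theorem PB, section 5: the order of `X` and the order of the lattices `Lam z`.

PLAN. `→` of `lam_le_iff`: `mu_mono`, `vl_anti`. `←`: `le_of_mu`: for a point `f = pt u`, scale `u` (`rs`, `exists_val`, `vec_val`;
`pt (rs u a) = pt u`) so that its exact value is `- mu f z`: then `u ∈ Lam z ⊆ Lam z'`, so `- mu f z' ≤ - mu f z` (`vec_val`,
`vl_anti`). `lam_shift`: `mu (s^[n] o) = n` (`mu_s`, `mu o f o = 0`). -/

namespace Pool.Agent.PLB

open Pool.Agent.Helper87.ML Pool.Agent.RIG OrderDual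
open scoped commutatorElement

universe u

variable {X : Type u} [Lattice X] [IsModularLattice X] {s : X ≃o X} [PB X s]

section

variable {o : X} {F : Frame (Inc (s := s))} {K : Type u} [DivisionRing K]
  {V : ℤ → AddSubgroup K} {xa xb xc : K → Gp X} {pt : (Fin 3 → K) → Pt s}
  {ln : (Fin 3 → K) → Ln s} {tau : (Fin 3 → K) → (Fin 3 → K) → Gp X}
  (hC : CR o F K V xa xb xc) (hH : HC F K xa xb xc pt ln) (hT : TC F K xa xb xc pt ln tau)
include hC hH hT

theorem lam_le_iff (z z' : X) : z ≤ z' ↔ LamS o V pt z ⊆ LamS o V pt z' := by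
  constructor
  · rintro h u (hu | hu)
    · exact Or.inl hu
    · refine Or.inr fun i => vl_anti hC.vl ?_ (hu i)
      exact neg_le_neg (mu_mono o (pt u) h)
  · intro h
    refine le_of_mu s o fun f => ?_
    obtain ⟨u, hu0, rfl⟩ := hH.pt_surj f
    obtain ⟨n, hn, i, hi⟩ := vec_val hC.vl hu0
    obtain ⟨c, hc, hc'⟩ := exists_val hC.vl (- mu o (pt u) z - n)
    have hc0 : c ≠ 0 := fun e => hc' (e ▸ (V _).zero_mem)
    have h1 : ∀ j, rs u c j ∈ V (- mu o (pt u) z) := by
      intro j
      have h2 := hC.vl.mul n _ (u j) c (hn j) hc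
      have e : n + (- mu o (pt u) z - n) = - mu o (pt u) z := by ring
      rw [e] at h2
      exact h2
    have h3 : rs u c i ∉ V (- mu o (pt u) z + 1) := by
      have h2 := hC.vl.mul' n _ (u i) c (hn i) hi hc hc'
      have e : n + (- mu o (pt u) z - n) + 1 = - mu o (pt u) z + 1 := by ring
      rw [e] at h2
      exact h2
    have hw : rs u c ≠ 0 := by
      intro e
      apply h3
      rw [e]
      exact (V _).zero_mem
    have hp : pt u = pt (rs u c) := (hH.pt_eq u (rs u c) hu0 hw).2 ⟨c, hc0, rfl⟩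
    have h4 : rs u c ∈ LamS o V pt z := Or.inr fun j => by rw [← hp]; exact h1 j
    rcases h h4 with h5 | h5
    · exact absurd h5 hw
    · by_contra hcon
      have h6 : - mu o (pt u) z + 1 ≤ - mu o (pt u) z' := by omega
      have h7 := h5 i
      rw [← hp] at h7
      exact h3 (vl_anti hC.vl h6 h7)

theorem lam_shift (n : ℕ) : LamS o V pt (s^[n] o) = {u | ∀ i, u i ∈ V (-(n : ℤ))} := by
  have h1 : ∀ u : Fin 3 → K, mu o (pt u) (s^[n] o) = n := by
    intro u
    rw [mu_s, (mu_spec o (pt u)).2, zero_add]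
  ext u
  constructor
  · rintro (h | h)
    · intro i
      rw [h]
      exact (V _).zero_mem
    · intro i
      have h2 := h i
      rw [h1] at h2
      exact h2
  · intro h
    refine Or.inr fun i => ?_
    rw [h1]
    exact h i

theorem lam_o : LamS o V pt o = {u | ∀ i, u i ∈ V 0} := by
  have h := lam_shift hC hH hT 0
  rw [Function.iterate_zero, id, Nat.cast_zero, neg_zero] at h
  exact h

/-- `Lam z` as a subgroup -/
def Lam (z : X) : AddSubgroup (Fin 3 → K) where
  carrier := LamS o V pt z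
  add_mem' h h' := lam_add hC hH hT z h h'
  zero_mem' := Or.inl rfl
  neg_mem' h := lam_neg hC hH hT z h

end

end Pool.Agent.PLB
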