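import Pool.Agent.PLB.RayA

set_option autoImplicit false

/-! Theorem PB, (1.3), continued: duals and consequences of RayA.lean.

PLAN. `co_ext`, `ray_co`: duals of `end_ext`, `ray_end` (apply them to `(Xᵒᵈ, dl s)`, `Ln.pt`, `Pt.co'`, Du.lean; a descending
sequence `d` is the ascending sequence `toDual ∘ d`). `co_ext_Hk`: `Hk h i x = s^i (h^i x)` (`co_s`). `ray_Hk`: apply `ray_co`
to `d' i = s^-i (d i)`. `str_ext`: extend the finite straight chain by dependent choice: in the plane
`[c (i+1), s (c (i+1))]` the element `s (c i)` is not the top (ranks, or `RIG.s_lt`), so there is a cover of `c (i+1)` not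
below it (compare `RIG.Str.ext` in CI.lean, which gives extensions of any finite length; a plane is generated by
its points); then `ray_end`. `thru`: `str_ext` with `m = 1`. `thru_co`: dual of `thru`. -/

namespace Pool.Agent.PLB

open Pool.Agent.Helper87.ML Pool.Agent.RIG OrderDual

universe u

variable {X : Type u} [Lattice X] [IsModularLattice X] {s : X ≃o X} [PB X s]

omit [IsModularLattice X] [PB X s] in
private theorem rayb_it_symm (s : X ≃o X) (i : ℕ) (y : X) : s^[i] (s.symm^[i] y) = y := by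
  induction i generalizing y with
  | zero => rfl
  | succ i ih =>
    rw [Function.iterate_succ_apply, Function.iterate_succ_apply' (s.symm : X → X),
      s.apply_symm_apply, ih]

omit [IsModularLattice X] [PB X s] in
private theorem rayb_symm_it (s : X ≃o X) (i : ℕ) (y : X) : s.symm^[i] (s^[i] y) = y :=
  rayb_it_symm s.symm i y

omit [IsModularLattice X] [PB X s] in
private theorem rayb_it_inj (s : X ≃o X) (i : ℕ) {x y : X} (h : s^[i] x = s^[i] y) : x = y := by
  rw [← rayb_symm_it s i x, h, rayb_symm_it]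

omit [IsModularLattice X] [PB X s] in
private theorem rayb_cov (t : X ≃o X) (i : ℕ) {x y : X} (h : x ⋖ y) : t^[i] x ⋖ t^[i] y := by
  induction i with
  | zero => exact h
  | succ i ih =>
    rw [Function.iterate_succ_apply' (t : X → X), Function.iterate_succ_apply' (t : X → X)]
    exact (apply_covBy_apply_iff t).2 ih

omit [IsModularLattice X] [PB X s] in
private theorem rayb_le (t : X ≃o X) (i : ℕ) {x y : X} : t^[i] x ≤ t^[i] y ↔ x ≤ y := by
  induction i with
  | zero => exact Iff.rfl
  | succ i ih =>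
    rw [Function.iterate_succ_apply' (t : X → X), Function.iterate_succ_apply' (t : X → X),
      t.le_iff_le, ih]

theorem co_ext {h h' : Ln s} (x : X) (k : ∀ i, h.1^[i] x = h'.1^[i] x) : h = h' := by
  have h1 : h.pt = h'.pt := by
    refine end_ext (s := dl s) (toDual x) fun i => ?_
    rw [Ln.pt_it, Ln.pt_it, k]
  exact congrArg Pt.co' h1

theorem ray_co (d : ℕ → X) (h1 : ∀ i, d (i + 1) ⋖ d i) (h2 : ∀ i, ¬ s.symm (d i) ≤ d (i + 2)) :
    ∃ h : Ln s, ∀ i, h.1^[i] (d 0) = d i := by
  obtain ⟨f, hf⟩ := ray_end (s := dl s) (fun i => toDual (d i))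
    (fun i => toDual_covBy_toDual_iff.2 (h1 i)) (fun i hi => h2 i (toDual_le_toDual.1 hi))
  refine ⟨f.co', fun i => ?_⟩
  have h3 := Ln.pt_it f.co' i (d 0)
  rw [Pt.co'_pt] at h3
  exact toDual.injective (h3.symm.trans (hf i))

theorem co_ext_Hk {h h' : Ln s} (x : X) (k : ∀ i, Hk h i x = Hk h' i x) : h = h' := by
  refine co_ext x fun i => rayb_it_inj s i ?_
  rw [← co_s, ← co_s]
  exact k i

/-- a line from an ascending sequence of the `H_i(x)` -/
theorem ray_Hk (x : X) (d : ℕ → X) (h0 : d 0 = x) (h1 : ∀ i, d (i + 1) ⋖ s (d i))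
    (h2 : ∀ i, ¬ s (d i) ≤ d (i + 2)) : ∃ h : Ln s, ∀ i, Hk h i x = d i := by
  have e1 : ∀ i (y : X), s.symm^[i] y = s.symm^[i + 1] (s y) := fun i y => by
    rw [Function.iterate_succ_apply, s.symm_apply_apply]
  obtain ⟨h, hh⟩ := ray_co (s := s) (fun i => s.symm^[i] (d i))
    (fun i => by
      show s.symm^[i + 1] (d (i + 1)) ⋖ s.symm^[i] (d i)
      rw [e1 i (d i)]
      exact rayb_cov s.symm (i + 1) (h1 i))
    (fun i hi => h2 i (by
      have h3 : s.symm (s.symm^[i] (d i)) = s.symm^[i + 2] (s (d i)) := by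
        rw [← e1 (i + 1) (d i), Function.iterate_succ_apply']
      have h4 : s.symm^[i + 2] (s (d i)) ≤ s.symm^[i + 2] (d (i + 2)) := by
        rw [← h3]
        exact hi
      exact (rayb_le s.symm (i + 2)).1 h4))
  refine ⟨h, fun i => ?_⟩
  have h3 : h.1^[i] x = s.symm^[i] (d i) := by
    have := hh i
    rw [← h0]
    exact this
  show h.1^[i] (s^[i] x) = d i
  rw [co_s, h3, rayb_it_symm]

/-- extension of finite straight chains -/
theorem str_ext (m : ℕ) (c : ℕ → X) (h : Str (s : X → X) c m) (hm : 1 ≤ m) :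
    ∃ f : Pt s, ∀ i, i ≤ m → f.1^[i] (c 0) = c i := by
  classical
  have hnx : ∀ u v : X, ∃ p, u ⋖ v → v ⋖ p ∧ ¬ p ≤ s u := by
    intro u v
    by_cases huv : u ⋖ v
    · obtain ⟨p, hp1, -, hp3⟩ := exists_cov_off (PB.fin s) (PB.up (s := s))
        (cov_le_s (PB.up (s := s)) huv) (s.lt_iff_lt.2 huv.lt) le_rfl
      exact ⟨p, fun _ => ⟨hp1, hp3⟩⟩
    · exact ⟨v, fun h => absurd h huv⟩
  choose nx hnx using hnx
  let P : ℕ → X × X := fun k => Nat.rec (c (m - 1), c m) (fun _ q => (q.2, nx q.1 q.2)) k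
  have hP0 : P 0 = (c (m - 1), c m) := rfl
  have hPs : ∀ k, P (k + 1) = ((P k).2, nx (P k).1 (P k).2) := fun k => rfl
  have hPc : ∀ k, (P k).1 ⋖ (P k).2 := by
    intro k
    induction k with
    | zero =>
      have h3 := h.1 (m - 1) (by omega)
      have e : m - 1 + 1 = m := by omega
      rw [e] at h3
      exact h3
    | succ k ih => exact (hnx _ _ ih).1
  let d : ℕ → X := fun i => if i ≤ m then c i else (P (i - m)).2
  have hd1 : ∀ i, i ≤ m → d i = c i := fun i hi => if_pos hi
  have hd2 : ∀ k, d (m + k) = (P k).2 := by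
    intro k
    rcases Nat.eq_zero_or_pos k with rfl | hk
    · exact hd1 _ le_rfl
    · show (if m + k ≤ m then c (m + k) else (P (m + k - m)).2) = (P k).2
      rw [if_neg (by omega), Nat.add_sub_cancel_left]
  have hd3 : ∀ k, d (m - 1 + k) = (P k).1 := by
    intro k
    rcases Nat.eq_zero_or_pos k with rfl | hk
    · exact hd1 _ (by omega)
    · obtain ⟨j, rfl⟩ : ∃ j, k = j + 1 := ⟨k - 1, by omega⟩
      have e : m - 1 + (j + 1) = m + j := by omega
      rw [e, hd2]
  obtain ⟨f, hf⟩ := ray_end (s := s) d (fun i => by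
      by_cases hi : i + 1 ≤ m
      · rw [hd1 i (by omega), hd1 (i + 1) hi]
        exact h.1 i (by omega)
      · have e1 : i = m - 1 + (i + 1 - m) := by omega
        have e2 : i + 1 = m + (i + 1 - m) := by omega
        have h3 := hPc (i + 1 - m)
        rw [← hd3, ← hd2, ← e1, ← e2] at h3
        exact h3)
    (fun i => by
      by_cases hi : i + 2 ≤ m
      · rw [hd1 i (by omega), hd1 (i + 2) hi]
        exact h.2 i hi
      · have e1 : i = m - 1 + (i + 1 - m) := by omega
        have e2 : i + 2 = m + (i + 1 - m + 1) := by omega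
        have h3 := (hnx _ _ (hPc (i + 1 - m))).2
        have h4 : nx (P (i + 1 - m)).1 (P (i + 1 - m)).2 = d (i + 2) := by
          rw [e2, hd2]
        rw [h4, ← hd3, ← e1] at h3
        exact h3)
  refine ⟨f, fun i hi => ?_⟩
  have h3 := hf i
  rw [hd1 i hi, hd1 0 (Nat.zero_le _)] at h3
  exact h3

theorem thru {x a : X} (h : x ⋖ a) : ∃ f : Pt s, f.1 x = a := by
  obtain ⟨f, hf⟩ := str_ext (s := s) 1 (fun i => if i = 0 then x else a)
    ⟨fun i hi => by
      have e : i = 0 := by omega
      subst e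
      exact h, fun i hi => absurd hi (by omega)⟩ le_rfl
  exact ⟨f, hf 1 le_rfl⟩

theorem thru_co {x a : X} (h : a ⋖ x) : ∃ l : Ln s, l.1 x = a := by
  obtain ⟨f, hf⟩ := thru (s := dl s) (toDual_covBy_toDual_iff.2 h)
  exact ⟨f.co', congrArg ofDual hf⟩

end Pool.Agent.PLB
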