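import Pool.Agent.PLB.RkA
import Pool.Agent.PLB.RayB

set_option autoImplicit false

/-! Theorem PB, (1.4): the line through two points at infinity.

PLAN. Let `f x ≠ f' x`. `it_inf_it`: `f^i x ⊓ f'^j x = x`, otherwise it contains a cover of `x` which is both `f x` and
`f' x` (`atom_of_le`). Rank: `r (f^i x ⊔ f'^j x) = r x + i + j` (`IsRk.mod`). Put `d i = f^i x ⊔ f'^i x`: `d (i+1) ⋖ s (d i)`:
`f^(i+1) x ≤ s (f^i x)` so `d (i+1) ≤ s (d i)`, ranks `r x + 2 i + 2` and `r x + 2 i + 3` (an inequality `a ≤ b` with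
`r b = r a + 1` is a cover, `IsRk.lt`). Not `s (d i) ≤ d (i+2)`: otherwise `s x ≤ d (i+2)`, then the three independent
atoms of the plane `[x, s x]` are below the rank-two-like element `d (i+2)`: `d (i+2) ⊓ s x = f x ⊔ f' x` (compute
`(f^k x ⊔ f'^k x) ⊓ s x`: modular law, `d k ⊓ s x ≥ f x ⊔ f' x`, and `d k ⊔ s x = f^(k-1) (s x) ⊔ f'^(k-1) (s x)` has rank
`r x + 3 + 2 (k - 1)`, provided `f (s x) ≠ f' (s x)`, i.e. `s (f x) ≠ s (f' x)`; so the rank of the meet is `r x + 2`).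
So `ray_Hk` gives a line `h` with `Hk h k x = d k`. `Inc f h`: by `Far`-free argument: for every `z` shift so that
`x ≤ s^n z`...; simplest: `Inc f h` iff for all `z`, `f z ≤ h (s z)`. For `z ≥ x`: if `f^m x ≤ z`, `f^(m+1) x ≰ z` then
`f z = f^(m+1) x ⊔ z ≤ Hk h (m+1) x ⊔ z ≤ Hk h (m+1) z`, and an atom over `z` below `Hk h k z` is below
`Hk h k z ⊓ s z = Hk h 1 z = h (s z)` (`Hk_inf`). General `z`: `x ≤ s^k z` for some `k`, and both sides commute
with `s`. Uniqueness: `Inc f h`, `Inc f' h` give `d k ≤ Hk h k x` (`inc_it`), equality by rank (`rk_Hk`), `co_ext_Hk`. -/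

namespace Pool.Agent.PLB

open Pool.Agent.Helper87.ML Pool.Agent.RIG OrderDual

universe u

variable {X : Type u} [Lattice X] [IsModularLattice X] {s : X ≃o X} [PB X s]

private theorem lina_le (f : Pt s) (i : ℕ) (x : X) : x ≤ f.1^[i] x :=
  it_le_it f (Nat.zero_le i) x

private theorem lina_le_s (f : Pt s) (x : X) : f.1 x ≤ s x := it_le_s f 1 x

private theorem lina_cov {r : X → ℤ} (hr : IsRk s r) {a b : X} (h : a ≤ b)
    (h1 : r b = r a + 1) : a ⋖ b := by
  refine ⟨lt_of_le_of_ne h (fun e => ?_), fun c h2 h3 => ?_⟩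
  · rw [e] at h1
    omega
  · have h4 := hr.lt _ _ h2
    have h5 := hr.lt _ _ h3
    omega

theorem it_inf_it {f f' : Pt s} {x : X} (h : f.1 x ≠ f'.1 x) (i j : ℕ) :
    f.1^[i] x ⊓ f'.1^[j] x = x := by
  have h1 : x ≤ f.1^[i] x ⊓ f'.1^[j] x := le_inf (lina_le f i x) (lina_le f' j x)
  rcases eq_or_lt_of_le h1 with h2 | h2
  · exact h2.symm
  · obtain ⟨a, ha, ha2⟩ := lf_cov (PB.fin s) h2
    have h3 := atom_of_le f i ha (ha2.trans inf_le_left)
    have h4 := atom_of_le f' j ha (ha2.trans inf_le_right)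
    exact absurd (h3.symm.trans h4) h

theorem rk_sup {r : X → ℤ} (hr : IsRk s r) {f f' : Pt s} {x : X} (h : f.1 x ≠ f'.1 x)
    (i j : ℕ) : r (f.1^[i] x ⊔ f'.1^[j] x) = r x + i + j := by
  have h1 := hr.mod (f.1^[i] x) (f'.1^[j] x)
  rw [it_inf_it h i j, rk_it hr f i x, rk_it hr f' j x] at h1
  omega

/-- distinct points differ somewhere, and then everywhere further up on the common part -/
theorem exists_ne {f f' : Pt s} (h : f ≠ f') (x : X) :
    ∃ m, f.1^[m] x = f'.1^[m] x ∧ f.1^[m + 1] x ≠ f'.1^[m + 1] x := by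
  by_contra hc
  apply h
  apply end_ext x
  intro i
  induction i with
  | zero => rfl
  | succ i ih =>
    by_contra h2
    exact hc ⟨i, ih, h2⟩

/-- a point on a line: levels -/
theorem inc_it {f : Pt s} {h : Ln s} (hf : Inc f h) (k : ℕ) (x : X) : f.1^[k] x ≤ Hk h k x := by
  induction k with
  | zero => exact le_rfl
  | succ k ih =>
    rw [Function.iterate_succ_apply', add_comm k 1, ← Hk_Hk h 1 k x]
    exact (hf _).trans (Hk_mono h 1 ih)

private theorem lina_top (f : Pt s) {x y : X} (hxy : x ≤ y) :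
    ∃ m, f.1^[m] x ≤ y ∧ ¬ f.1 (f.1^[m] x) ≤ y := by
  by_contra hc
  obtain ⟨n, hn⟩ := PB.dir (s := s) y x
  have h1 : ∀ m, f.1^[m] x ≤ y := by
    intro m
    induction m with
    | zero => exact hxy
    | succ m ih =>
      rw [Function.iterate_succ_apply']
      by_contra h2
      exact hc ⟨m, ih, h2⟩
  exact it_not_le_s f n x ((h1 (n + 1)).trans hn)

/-- incidence can be checked at one base -/
theorem inc_of_it {f : Pt s} {h : Ln s} (x : X) (k : ∀ i, f.1^[i] x ≤ Hk h i x) : Inc f h := by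
  intro z
  obtain ⟨n, hn⟩ := PB.dir (s := s) x z
  obtain ⟨m, h1, h2⟩ := lina_top f hn
  have h3 := step f h1 h2
  have h4 : f.1 (s^[n] z) ≤ Hk h (m + 1) (s^[n] z) := by
    rw [← h3]
    apply sup_le
    · rw [← Function.iterate_succ_apply' f.1 m x]
      exact (k (m + 1)).trans (Hk_mono h (m + 1) hn)
    · exact le_Hk h (m + 1) _
  have h5 : f.1 (s^[n] z) ≤ Hk h (m + 1) (s^[n] z) ⊓ s^[1] (s^[n] z) :=
    le_inf h4 (lina_le_s f _)
  rw [Hk_inf, Nat.min_eq_right (Nat.le_add_left 1 m), Hk_s h 1 n z] at h5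
  have h6 : f.1 (s^[n] z) = s^[n] (f.1 z) := it_s f 1 n z
  rw [h6] at h5
  have h7 : ∀ (n : ℕ) (a b : X), s^[n] a ≤ s^[n] b → a ≤ b := by
    intro n
    induction n with
    | zero => exact fun a b hab => hab
    | succ n ih =>
      intro a b hab
      rw [Function.iterate_succ_apply', Function.iterate_succ_apply'] at hab
      exact ih a b (s.le_iff_le.1 hab)
  exact h7 n _ _ h5

theorem Hk_sup_it {f f' : Pt s} {h : Ln s} (hf : Inc f h) (hf' : Inc f' h) {x : X}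
    (hx : f.1 x ≠ f'.1 x) (k : ℕ) : f.1^[k] x ⊔ f'.1^[k] x = Hk h k x := by
  obtain ⟨r, hr⟩ := exists_rk s
  apply rk_eq hr (sup_le (inc_it hf k x) (inc_it hf' k x))
  rw [rk_Hk hr, rk_sup hr hx]
  omega

private theorem lina_ne {f f' : Pt s} {x : X} (hx : f.1 x ≠ f'.1 x) : f.1 (s x) ≠ f'.1 (s x) := by
  rw [f.2.comm, f'.2.comm]
  exact fun h => hx (s.injective h)

private theorem lina_str {f f' : Pt s} {x : X} (hx : f.1 x ≠ f'.1 x) (k : ℕ) :
    ¬ s x ≤ f.1^[k + 1] x ⊔ f'.1^[k + 1] x := by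
  intro h
  obtain ⟨r, hr⟩ := exists_rk s
  have h1 : (f.1^[k + 1] x ⊔ f'.1^[k + 1] x) ⊔ s x = f.1^[k] (s x) ⊔ f'.1^[k] (s x) := by
    have e1 := it_sup_s f (show 1 ≤ k + 1 by omega) x
    have e2 := it_sup_s f' (show 1 ≤ k + 1 by omega) x
    rw [Nat.add_sub_cancel] at e1 e2
    have e3 : (f.1^[k + 1] x ⊔ f'.1^[k + 1] x) ⊔ s x =
        (f.1^[k + 1] x ⊔ s x) ⊔ (f'.1^[k + 1] x ⊔ s x) := by
      rw [sup_sup_sup_comm, sup_idem]
    rw [e3]
    exact congrArg₂ (· ⊔ ·) e1 e2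
  have h2 := rk_sup hr (lina_ne hx) k k
  rw [← h1, sup_eq_left.2 h, rk_sup hr hx, hr.sh] at h2
  push_cast at h2
  omega

theorem exists_line {f f' : Pt s} (h : f ≠ f') : ∃! l : Ln s, Inc f l ∧ Inc f' l := by
  obtain ⟨r, hr⟩ := exists_rk s
  have hX : Nonempty X := by
    by_contra hc
    apply h
    ext x
    exact absurd ⟨x⟩ hc
  obtain ⟨x0⟩ := hX
  obtain ⟨m, hm1, hm2⟩ := exists_ne h x0
  obtain ⟨x, hx⟩ : ∃ x, f.1 x ≠ f'.1 x := by
    refine ⟨f.1^[m] x0, ?_⟩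
    rw [Function.iterate_succ_apply', Function.iterate_succ_apply', ← hm1] at hm2
    exact hm2
  obtain ⟨l, hl⟩ := ray_Hk (s := s) x (fun i => f.1^[i] x ⊔ f'.1^[i] x) (sup_idem x)
    (fun i => by
      apply lina_cov hr
      · show f.1^[i + 1] x ⊔ f'.1^[i + 1] x ≤ s (f.1^[i] x ⊔ f'.1^[i] x)
        rw [Function.iterate_succ_apply', Function.iterate_succ_apply']
        exact sup_le ((lina_le_s f _).trans (s.monotone le_sup_left))
          ((lina_le_s f' _).trans (s.monotone le_sup_right))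
      · show r (s (f.1^[i] x ⊔ f'.1^[i] x)) = r (f.1^[i + 1] x ⊔ f'.1^[i + 1] x) + 1
        rw [hr.sh, rk_sup hr hx, rk_sup hr hx]
        push_cast
        ring)
    (fun i => by
      show ¬ s (f.1^[i] x ⊔ f'.1^[i] x) ≤ f.1^[i + 2] x ⊔ f'.1^[i + 2] x
      intro h1
      exact lina_str hx (i + 1)
        ((s.monotone ((lina_le f i x).trans le_sup_left)).trans h1))
  refine ⟨l, ⟨inc_of_it x (fun i => ?_), inc_of_it x (fun i => ?_)⟩, fun l' hl' => ?_⟩
  · rw [hl i]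
    exact le_sup_left
  · rw [hl i]
    exact le_sup_right
  · apply co_ext_Hk x
    intro i
    rw [hl i]
    exact (Hk_sup_it hl'.1 hl'.2 hx i).symm

end Pool.Agent.PLB
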