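import Pool.Agent.PLB.LinA

set_option autoImplicit false

/-! Theorem PB, (1.4): two lines at infinity meet in exactly one point.

PLAN. Dual of `exists_line`: apply it to the points `h.pt`, `h'.pt` of `(Xᵒᵈ, dl s)` (instance `pb_dual`) and translate
with `inc_dual`, `Ln.pt'`, `Pt.co` (Du.lean). -/

namespace Pool.Agent.PLB

open Pool.Agent.Helper87.ML Pool.Agent.RIG OrderDual

universe u

variable {X : Type u} [Lattice X] [IsModularLattice X] {s : X ≃o X} [PB X s]

/-- two lines meet in one point -/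
theorem exists_point {h h' : Ln s} (k : h ≠ h') : ∃! f : Pt s, Inc f h ∧ Inc f h' := by
  have hne : h.pt ≠ h'.pt := fun e => k (congrArg Pt.co' e)
  obtain ⟨l, ⟨hl1, hl2⟩, hl3⟩ := exists_line (s := dl s) hne
  have c1 : l.pt'.co = l := rfl
  refine ⟨l.pt', ⟨?_, ?_⟩, ?_⟩
  · rw [← inc_dual, c1]
    exact hl1
  · rw [← inc_dual, c1]
    exact hl2
  · rintro f ⟨h1, h2⟩
    have h3 : f.co = l := hl3 f.co ⟨(inc_dual f h).2 h1, (inc_dual f h').2 h2⟩
    exact congrArg Ln.pt' h3

end Pool.Agent.PLB
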