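import Pool.Agent.PLB.MdX
import Pool.Agent.PLB.LamK

set_option autoImplicit false

/-! Theorem PB, section 5: the model of `X`.

`z ↦ Lam z` is an order isomorphism from `Set.Ici o` onto the right lattices: order embedding by `lam_le_iff`, onto by
`lam_surj`; `Lam z` is right stable (`lam_rs`), contains `cube V 0` (`lam_o`, `lam_le_iff`) and is contained in
`cube V (-n)` as `z ≤ s^[n] o` (`PB.dir`, `lam_shift`). -/

namespace Pool.Agent.PLB

open Pool.Agent.Helper87.ML Pool.Agent.RIG OrderDual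
open scoped commutatorElement

universe u

variable {X : Type u} [Lattice X] [IsModularLattice X] {s : X ≃o X} [PB X s]

theorem model_of_cr {o : X} {F : Frame (Inc (s := s))} {K : Type u} [DivisionRing K]
    {V : ℤ → AddSubgroup K} {xa xb xc : K → Gp X} {pt : (Fin 3 → K) → Pt s}
    {ln : (Fin 3 → K) → Ln s} {tau : (Fin 3 → K) → (Fin 3 → K) → Gp X}
    (hC : CR o F K V xa xb xc) (hH : HC F K xa xb xc pt ln)
    (hT : TC F K xa xb xc pt ln tau) : Nonempty (Set.Ici o ≃o RLat K V) := by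
  have hle : ∀ z z' : X, Lam hC hH hT z ≤ Lam hC hH hT z' ↔ z ≤ z' := fun z z' =>
    (lam_le_iff hC hH hT z z').symm
  have h0 : cube V 0 = Lam hC hH hT o := SetLike.coe_injective (lam_o hC hH hT).symm
  have hn : ∀ n : ℕ, Lam hC hH hT (s^[n] o) = cube V (-(n : ℤ)) := fun n =>
    SetLike.coe_injective (lam_shift hC hH hT n)
  have hup : ∀ z : X, ∃ n : ℕ, Lam hC hH hT z ≤ cube V (-(n : ℤ)) := by
    intro z
    obtain ⟨n, h⟩ := PB.dir (s := s) z o
    exact ⟨n, hn n ▸ (hle _ _).2 h⟩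
  have hlow : ∀ z : X, o ≤ z → cube V 0 ≤ Lam hC hH hT z := fun z hz => h0 ▸ (hle _ _).2 hz
  refine ⟨RelIso.ofSurjective (OrderEmbedding.ofMapLEIff
    (fun z : Set.Ici o => (⟨Lam hC hH hT z.1, fun u hu a ha => lam_rs hC hH hT z.1 hu ha,
      hlow z.1 z.2, hup z.1⟩ : RLat K V)) (fun z z' => hle z.1 z'.1)) ?_⟩
  rintro ⟨M, hM, h1, n, h2⟩
  obtain ⟨z, hz, e⟩ := lam_surj hC hH hT M hM h1 h2
  exact ⟨⟨z, hz⟩, Subtype.ext e⟩

end Pool.Agent.PLB
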