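import Pool.Agent.PLB.Con2
import Pool.Agent.PLB.Cmp
import Pool.Agent.PLB.MdY
import Pool.Agent.PLB.AntE

set_option autoImplicit false

/-! Theorem PB: the forward direction. -/

namespace Pool.Agent.PLB

open Pool.Agent.Helper87.ML Pool.Agent.RIG OrderDual
open scoped commutatorElement

universe u

theorem vop_congr {K : Type u} [DivisionRing K] {V : ℤ → AddSubgroup K} (hV : Vl K V)
    {a b : Kᵐᵒᵖ} (h : ∀ n, a.unop ∈ V n ↔ b.unop ∈ V n) : vop V a = vop V b := by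
  have key : ∀ x y : WithTop ℤ, (∀ m : ℤ, ((m : ℤ) : WithTop ℤ) ≤ x ↔ ((m : ℤ) : WithTop ℤ) ≤ y) →
      x ≤ y := by
    intro x y hxy
    induction x using WithTop.recTopCoe with
    | top =>
      induction y using WithTop.recTopCoe with
      | top => exact le_rfl
      | coe y =>
        exfalso
        have h1 := (hxy (y + 1)).1 le_top
        rw [WithTop.coe_le_coe] at h1
        omega
    | coe x => exact (hxy x).1 le_rfl
  have h2 : ∀ m : ℤ, ((m : ℤ) : WithTop ℤ) ≤ vop V a ↔ ((m : ℤ) : WithTop ℤ) ≤ vop V b := by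
    intro m
    rw [vop_le hV, vop_le hV, h]
  exact le_antisymm (key _ _ h2) (key _ _ fun m => (h2 m).symm)

theorem main_X {X : Type u} [Lattice X] [IsModularLattice X] (s : X ≃o X) [PB X s] (o : X) :
    ∃ (K : Type u) (_ : DivisionRing K) (v : K → WithTop ℤ), IsCDV K v ∧
      (∃ ψ, IsAntiAut K v ψ) ∧ Nonempty (Set.Ici o ≃o Lat K v) := by
  obtain ⟨F, hF⟩ := exists_frame (s := s) o
  obtain ⟨K, i, V, xa, xb, xc, hC⟩ := exists_crd hF
  obtain ⟨pt, ln, hH⟩ := exists_hc hC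
  obtain ⟨tau, hT⟩ := exists_tc hC hH
  obtain ⟨ψ, h1, h2, h3, h4⟩ := exists_psi hC hH hT
  obtain ⟨e⟩ := model_of_cr hC hH hT
  obtain ⟨e'⟩ := right_left hC.vl
  refine ⟨Kᵐᵒᵖ, inferInstance, vop V, cdv hC.vl (crd_complete hC),
    ⟨fun a => MulOpposite.op (ψ a.unop), ?_, ?_, ?_, ?_⟩, ⟨e.trans e'⟩⟩
  · constructor
    · intro a b hab
      apply MulOpposite.unop_injective
      exact h1.1 (MulOpposite.op_injective hab)
    · intro a
      obtain ⟨b, hb⟩ := h1.2 a.unop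
      exact ⟨MulOpposite.op b, by simp [hb]⟩
  · intro a b
    simp only [MulOpposite.unop_add, h2, MulOpposite.op_add]
  · intro a b
    simp only [MulOpposite.unop_mul, h3, MulOpposite.op_mul]
  · intro a
    exact vop_congr hC.vl fun n => h4 n a.unop

theorem main_fwd {L : Type u} [Lattice L] [IsModularLattice L] [Nonempty L]
    (hfin : ∀ x : L, (Set.Iic x).Finite) (hSD : SD' L) {s : L → L} (hs : IsUp s)
    (hpl : ∀ x, IsPlane x (s x)) :
    ∃ (K : Type u) (_ : DivisionRing K) (v : K → WithTop ℤ), IsCDV K v ∧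
      (∃ ψ, IsAntiAut K v ψ) ∧ Nonempty (L ≃o Lat K v) := by
  obtain ⟨X, i1, i2, t, i3, o, ⟨e⟩⟩ := exists_pb hfin hSD hs hpl
  obtain ⟨K, i4, v, h1, h2, ⟨e'⟩⟩ := main_X t o
  exact ⟨K, i4, v, h1, h2, ⟨e.trans e'⟩⟩

end Pool.Agent.PLB
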