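import Pool.Agent.PLB.LamI
import Pool.Agent.PLB.Model

set_option autoImplicit false

/-! Theorem PB, section 5: from the filtration `V` to a valuation, from right to left lattices, the model of `X`.

PLAN. The new division ring is `Kᵐᵒᵖ` (left modules
over `Kᵐᵒᵖ` are right modules over `K`). `cdv`: `vop a = ⊤` for `a = 0`, otherwise the exact value `n` of `unop a` (`Vl.ex`;
`unop a ∈ V m ↔ (m : WithTop ℤ) ≤ vop a`, `vop_le`). `IsCDV`: `mul`: exact values (`Vl.mul`, `Vl.mul'`), `surj`: `Vl.pi`, `fin`: `Vl.fin`,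
`complete`: hypothesis. `right_left`: the order isomorphism between right stable subgroups `M` of `K ^ 3` with
`cube V 0 ≤ M ≤ cube V (-n)` and `Lat Kᵐᵒᵖ vop` is `M ↦ {fun i => op (u i) | u ∈ M}`; (`op a * op (u i) = op (u i * a)`). -/

namespace Pool.Agent.PLB

open Pool.Agent.Helper87.ML Pool.Agent.RIG OrderDual
open scoped commutatorElement

universe u

open Classical in
/-- the valuation of `Kᵐᵒᵖ` defined by the filtration `V` of `K` -/
noncomputable def vop {K : Type u} [DivisionRing K] (V : ℤ → AddSubgroup K) (a : Kᵐᵒᵖ) :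
    WithTop ℤ :=
  if h : ∃ n : ℤ, a.unop ∈ V n ∧ a.unop ∉ V (n + 1) then ((h.choose : ℤ) : WithTop ℤ) else ⊤

theorem vop_le {K : Type u} [DivisionRing K] {V : ℤ → AddSubgroup K} (hV : Vl K V)
    (a : Kᵐᵒᵖ) (m : ℤ) : ((m : ℤ) : WithTop ℤ) ≤ vop V a ↔ a.unop ∈ V m := by
  by_cases h : ∃ n : ℤ, a.unop ∈ V n ∧ a.unop ∉ V (n + 1)
  · rw [vop, dif_pos h, WithTop.coe_le_coe]
    obtain ⟨h1, h2⟩ := h.choose_spec
    constructor
    · intro h3
      exact vl_anti hV h3 h1
    · intro h3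
      by_contra h4
      exact h2 (vl_anti hV (by omega) h3)
  · rw [vop, dif_neg h]
    refine ⟨fun _ => ?_, fun _ => le_top⟩
    have h1 : a.unop = 0 := by
      by_contra h2
      exact h (hV.ex _ h2)
    rw [h1]
    exact (V m).zero_mem

private theorem mdx_eq {K : Type u} [DivisionRing K] {V : ℤ → AddSubgroup K} (hV : Vl K V)
    {a : Kᵐᵒᵖ} {n : ℤ} (h : a.unop ∈ V n) (h' : a.unop ∉ V (n + 1)) :
    vop V a = ((n : ℤ) : WithTop ℤ) := by
  have hex : ∃ n : ℤ, a.unop ∈ V n ∧ a.unop ∉ V (n + 1) := ⟨n, h, h'⟩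
  rw [vop, dif_pos hex]
  have hs := hex.choose_spec
  have h1 : hex.choose = n := by
    by_contra hne
    rcases lt_or_gt_of_ne hne with h1 | h1
    · exact hs.2 (vl_anti hV (by omega) h)
    · exact h' (vl_anti hV (by omega) hs.1)
  rw [h1]

private theorem mdx_zero {K : Type u} [DivisionRing K] (V : ℤ → AddSubgroup K) :
    vop V (0 : Kᵐᵒᵖ) = ⊤ := by
  rw [vop, dif_neg]
  rintro ⟨n, -, h⟩
  exact h (V (n + 1)).zero_mem

private theorem mdx_ex {K : Type u} [DivisionRing K] {V : ℤ → AddSubgroup K} (hV : Vl K V)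
    {a : Kᵐᵒᵖ} (ha : a ≠ 0) : ∃ n, a.unop ∈ V n ∧ a.unop ∉ V (n + 1) := by
  refine hV.ex _ fun h => ha ?_
  exact MulOpposite.unop_injective h

theorem cdv {K : Type u} [DivisionRing K] {V : ℤ → AddSubgroup K} (hV : Vl K V)
    (hc : ∀ a : ℕ → K, (∀ n : ℕ, a (n + 1) - a n ∈ V n) → ∃ b, ∀ n : ℕ, b - a n ∈ V n) :
    IsCDV Kᵐᵒᵖ (vop V) where
  top a := by
    constructor
    · intro h
      by_contra h1
      obtain ⟨n, h2, h3⟩ := mdx_ex hV h1
      rw [mdx_eq hV h2 h3] at h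
      exact WithTop.coe_ne_top h
    · rintro rfl
      exact mdx_zero V
  mul a b := by
    by_cases ha : a = 0
    · rw [ha, zero_mul, mdx_zero, top_add]
    by_cases hb : b = 0
    · rw [hb, mul_zero, mdx_zero, add_top]
    obtain ⟨m, h1, h2⟩ := mdx_ex hV ha
    obtain ⟨n, h3, h4⟩ := mdx_ex hV hb
    have h5 : (a * b).unop ∈ V (n + m) := by
      rw [MulOpposite.unop_mul]
      exact hV.mul _ _ _ _ h3 h1
    have h6 : (a * b).unop ∉ V (n + m + 1) := by
      rw [MulOpposite.unop_mul]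
      exact hV.mul' _ _ _ _ h3 h4 h1 h2
    rw [mdx_eq hV h1 h2, mdx_eq hV h3 h4, mdx_eq hV h5 h6, ← WithTop.coe_add, add_comm]
  add a b := by
    by_cases ha : a = 0
    · rw [ha, zero_add]
      exact min_le_right _ _
    by_cases hb : b = 0
    · rw [hb, add_zero]
      exact min_le_left _ _
    obtain ⟨m, h1, h2⟩ := mdx_ex hV ha
    obtain ⟨n, h3, h4⟩ := mdx_ex hV hb
    rw [mdx_eq hV h1 h2, mdx_eq hV h3 h4, ← WithTop.coe_min, vop_le hV, MulOpposite.unop_add]
    exact (V (min m n)).add_mem (vl_anti hV (min_le_left m n) h1)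
      (vl_anti hV (min_le_right m n) h3)
  surj := by
    obtain ⟨a, h1, h2⟩ := hV.pi
    refine ⟨MulOpposite.op a, ?_⟩
    have h3 : (MulOpposite.op a).unop ∈ V 1 := h1
    have h4 : (MulOpposite.op a).unop ∉ V (1 + 1) := h2
    rw [mdx_eq hV h3 h4]
    rfl
  fin := by
    classical
    obtain ⟨T, hT⟩ := hV.fin
    refine ⟨T.image MulOpposite.op, fun a ha => ?_⟩
    have h1 : a.unop ∈ V 0 := (vop_le hV a 0).1 ha
    obtain ⟨t, ht, h2⟩ := hT _ h1
    refine ⟨MulOpposite.op t, Finset.mem_image_of_mem _ ht, ?_⟩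
    exact (vop_le hV (a - MulOpposite.op t) 1).2 h2
  complete a ha := by
    obtain ⟨b, hb⟩ := hc (fun n => (a n).unop) (fun n => (vop_le hV (a (n + 1) - a n) n).1 (ha n))
    refine ⟨MulOpposite.op b, fun n => ?_⟩
    exact (vop_le hV (MulOpposite.op b - a n) n).2 (hb n)

/-- right lattices -/
def RLat (K : Type u) [DivisionRing K] (V : ℤ → AddSubgroup K) : Type u :=
  {M : AddSubgroup (Fin 3 → K) // RSt V M ∧ cube V 0 ≤ M ∧ ∃ n : ℕ, M ≤ cube V (-(n : ℤ))}

instance (K : Type u) [DivisionRing K] (V : ℤ → AddSubgroup K) : PartialOrder (RLat K V) :=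
  inferInstanceAs (PartialOrder {_M : AddSubgroup (Fin 3 → K) // _})

private def mdx_f (K : Type u) [DivisionRing K] : (Fin 3 → K) →+ (Fin 3 → Kᵐᵒᵖ) where
  toFun u i := MulOpposite.op (u i)
  map_zero' := rfl
  map_add' _ _ := rfl

private def mdx_g (K : Type u) [DivisionRing K] : (Fin 3 → Kᵐᵒᵖ) →+ (Fin 3 → K) where
  toFun u i := (u i).unop
  map_zero' := rfl
  map_add' _ _ := rfl

private def mdx_to {K : Type u} [DivisionRing K] {V : ℤ → AddSubgroup K} (hV : Vl K V)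
    (M : RLat K V) : Lat Kᵐᵒᵖ (vop V) := by
  refine ⟨M.1.comap (mdx_g K), ?_, ?_, ?_⟩
  · intro w hw a ha
    exact M.2.1 _ hw a.unop ((vop_le hV a 0).1 ha)
  · intro w hw
    exact M.2.2.1 fun i => (vop_le hV (w i) 0).1 (hw i)
  · obtain ⟨n, hn⟩ := M.2.2.2
    exact ⟨n, fun w hw i => (vop_le hV (w i) (-(n : ℤ))).2 (hn hw i)⟩

private def mdx_inv {K : Type u} [DivisionRing K] {V : ℤ → AddSubgroup K} (hV : Vl K V)
    (N : Lat Kᵐᵒᵖ (vop V)) : RLat K V := by
  refine ⟨N.1.comap (mdx_f K), ?_, ?_, ?_⟩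
  · intro u hu a ha
    exact N.2.1 _ hu (MulOpposite.op a) ((vop_le hV (MulOpposite.op a) 0).2 ha)
  · intro u hu
    exact N.2.2.1 _ fun i => (vop_le hV (MulOpposite.op (u i)) 0).2 (hu i)
  · obtain ⟨n, hn⟩ := N.2.2.2
    exact ⟨n, fun u hu i => (vop_le hV (MulOpposite.op (u i)) (-(n : ℤ))).1 (hn _ hu i)⟩

theorem right_left {K : Type u} [DivisionRing K] {V : ℤ → AddSubgroup K} (hV : Vl K V) :
    Nonempty (RLat K V ≃o Lat Kᵐᵒᵖ (vop V)) := by
  refine ⟨{ toFun := mdx_to hV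
            invFun := mdx_inv hV
            left_inv := fun M => Subtype.ext (AddSubgroup.ext fun u => Iff.rfl)
            right_inv := fun N => Subtype.ext (AddSubgroup.ext fun u => Iff.rfl)
            map_rel_iff' := ?_ }⟩
  intro M M'
  constructor
  · intro h u hu
    exact h (show mdx_f K u ∈ M.1.comap (mdx_g K) from hu)
  · intro h w hw
    exact h (show mdx_g K w ∈ M.1 from hw)

end Pool.Agent.PLB
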