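import Pool.Agent.PLB.EndA

set_option autoImplicit false

/-! Theorem PB, (1.2): the level function of a point at infinity.

PLAN. For `x ≤ y` let `D(x, y) = max {i : f^i x ≤ y}` (finite: the interval `[x, y]` is finite and `f^i x` is strictly
increasing). `D` is additive: if `D(x, y) = a` then `f^(a+b) x ⊔ y = f^b y` (`step`, induction on `b`), so
`f^(a+b) x ≤ z iff f^b y ≤ z` for `y ≤ z`; hence `D(x, z) = D(x, y) + D(y, z)`. `D(x, s^k x) = k` (`it_le_s`, `it_not_le_s`),
`D(s x, s y) = D(x, y)`. Put `m x = D(s^-k o, x) - k` for any `k` with `s^-k o ≤ x` (PB.dir); independent of `k` by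
additivity. `inf`: for `w = x ⊓ y`, if `f w ≤ x` and `f w ≤ y` then `f w ≤ w`, a contradiction; so `m w = m x` or
`m w = m y`. `lev`: for `x ≤ y`, `f x ≤ y iff D(x, y) ≥ 1`.
Uniqueness (`mu_unique`): for `x ≤ y`, `m y - m x` is determined: if `f x ≤ y` is false then `m x = m y`; otherwise pass
from `x` to `f x`, `m (f x) = m x + 1` (as `m x < m (f x)`, and `f (f x) ≤ s x` is false, so by `lev` for
`f x ≤ s x` we have `m (f x) = m (s x) = m x + 1`), induction on the size of `[x, y]`; any two elements have a common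
upper bound. -/

namespace Pool.Agent.PLB

open Pool.Agent.Helper87.ML Pool.Agent.RIG OrderDual

universe u

variable {X : Type u} [Lattice X] [IsModularLattice X] {s : X ≃o X} [PB X s]

omit [IsModularLattice X] in
private lemma mua_le_s (f : Pt s) (x : X) : f.1 x ≤ s x :=
  (PB.up (s := s) x).1 (Set.mem_insert_of_mem _ (f.2.cov x))

omit [IsModularLattice X] in
private lemma mua_bdd (f : Pt s) (x y : X) : BddAbove {i : ℕ | f.1^[i] x ≤ y} := by
  have h1 : Set.Finite {i : ℕ | f.1^[i] x ≤ y} := by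
    refine Set.Finite.of_finite_image (f := fun i => f.1^[i] x) ?_ ?_
    · refine (PB.fin (s := s) x y).subset ?_
      rintro _ ⟨i, hi, rfl⟩
      exact ⟨it_le_it f (Nat.zero_le i) x, hi⟩
    · intro i _ j _ h
      exact it_inj f h
  exact h1.bddAbove

/-- the relative level -/
private noncomputable def muaD (f : Pt s) (x y : X) : ℕ := sSup {i : ℕ | f.1^[i] x ≤ y}

omit [IsModularLattice X] in
private lemma mua_D (f : Pt s) {x y : X} (h : x ≤ y) (i : ℕ) :
    f.1^[i] x ≤ y ↔ i ≤ muaD f x y := by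
  constructor
  · intro h1
    exact le_csSup (mua_bdd f x y) h1
  · intro h1
    have h2 : muaD f x y ∈ {i : ℕ | f.1^[i] x ≤ y} :=
      Nat.sSup_mem ⟨0, h⟩ (mua_bdd f x y)
    exact (it_le_it f h1 x).trans h2

private lemma mua_sup (f : Pt s) {x y : X} (h : x ≤ y) (b : ℕ) :
    f.1^[muaD f x y + b] x ⊔ y = f.1^[b] y := by
  induction b with
  | zero => exact sup_eq_right.2 ((mua_D f h _).2 le_rfl)
  | succ b ih =>
    set a := muaD f x y with ha
    have h1 : f.1^[a + (b + 1)] x = f.1 (f.1^[a + b] x) := by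
      rw [← add_assoc, Function.iterate_succ_apply']
    have h2 : f.1^[b + 1] y = f.1 (f.1^[b] y) := Function.iterate_succ_apply' _ _ _
    have h3 : f.1^[a + b] x ≤ f.1^[a + (b + 1)] x := it_le_it f (by omega) x
    have h4 : y ⊓ f.1^[a + (b + 1)] x = f.1^[a] x := by
      obtain ⟨i, _, hi2⟩ := seg f (a + (b + 1)) (x := x) (y := y ⊓ f.1^[a + (b + 1)] x)
        (le_inf h (it_le_it f (Nat.zero_le _) x)) inf_le_right
      have h5 : i ≤ a := (mua_D f h i).1 (by rw [← hi2]; exact inf_le_left)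
      refine le_antisymm ?_ (le_inf ((mua_D f h a).2 le_rfl) (it_le_it f (by omega) x))
      rw [hi2]
      exact it_le_it f h5 x
    have h6 : ¬ f.1 (f.1^[a + b] x) ≤ f.1^[b] y := by
      rw [← ih, ← h1]
      intro h7
      have h8 : (f.1^[a + b] x ⊔ y) ⊓ f.1^[a + (b + 1)] x = f.1^[a + b] x ⊔ y ⊓ f.1^[a + (b + 1)] x :=
        sup_inf_assoc_of_le y h3
      rw [h4, inf_eq_right.2 h7, sup_eq_left.2 (it_le_it f (by omega) x)] at h8
      have := it_inj f h8
      omega
    have h9 := step f (x := f.1^[a + b] x) (y := f.1^[b] y) (by rw [← ih]; exact le_sup_left) h6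
    rw [h1, h2, ← h9, ← ih, ← h1, ← sup_assoc, sup_eq_left.2 h3]

private lemma mua_add (f : Pt s) {x y z : X} (h : x ≤ y) (h' : y ≤ z) :
    muaD f x z = muaD f x y + muaD f y z := by
  have h1 : ∀ b, f.1^[muaD f x y + b] x ≤ z ↔ f.1^[b] y ≤ z := by
    intro b
    rw [← mua_sup f h b]
    constructor
    · intro h2
      exact sup_le h2 h'
    · intro h2
      exact le_sup_left.trans h2
  have h2 : ∀ b, muaD f x y + b ≤ muaD f x z ↔ b ≤ muaD f y z := by
    intro b
    rw [← mua_D f (h.trans h'), ← mua_D f h']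
    exact h1 b
  have h3 := (h2 (muaD f y z)).2 le_rfl
  have h4 : muaD f x y ≤ muaD f x z := (h2 0).2 (Nat.zero_le _)
  have h5 := (h2 (muaD f x z - muaD f x y)).1 (by omega)
  omega

private lemma mua_le_it (f : Pt s) (k : ℕ) (x : X) : x ≤ s^[k] x :=
  (it_le_it f (Nat.zero_le k) x).trans (it_le_s f k x)

private lemma mua_D_s (f : Pt s) (k : ℕ) (x : X) : muaD f x (s^[k] x) = k := by
  have h : x ≤ s^[k] x := mua_le_it f k x
  refine le_antisymm ?_ ((mua_D f h k).1 (it_le_s f k x))
  by_contra h1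
  have h2 := (mua_D f h (k + 1)).2 (by omega)
  exact it_not_le_s f k x h2

private lemma mua_indep (f : Pt s) {o x : X} {k : ℕ} (h : o ≤ s^[k] x) (j : ℕ) :
    muaD f o (s^[k + j] x) = muaD f o (s^[k] x) + j := by
  have h1 : s^[k + j] x = s^[j] (s^[k] x) := by
    rw [add_comm, Function.iterate_add_apply]
  rw [h1, mua_add f h (mua_le_it f j _), mua_D_s]

private lemma mua_indep' (f : Pt s) {o x : X} {k l : ℕ} (h : o ≤ s^[k] x) (h' : o ≤ s^[l] x) :
    (muaD f o (s^[k] x) : ℤ) - k = (muaD f o (s^[l] x) : ℤ) - l := by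
  rcases le_total k l with hkl | hkl
  · obtain ⟨j, rfl⟩ := Nat.exists_eq_add_of_le hkl
    rw [mua_indep f h j]
    push_cast
    ring
  · obtain ⟨j, rfl⟩ := Nat.exists_eq_add_of_le hkl
    rw [mua_indep f h' j]
    push_cast
    ring

omit [IsModularLattice X] [PB X s] in
private lemma mua_s_mono (k : ℕ) {x y : X} (h : x ≤ y) : s^[k] x ≤ s^[k] y :=
  s.monotone.iterate k h

private lemma mua_ge (f : Pt s) {o x : X} {k l : ℕ} (h : o ≤ s^[k] x) (hkl : k ≤ l) :
    o ≤ s^[l] x := by
  obtain ⟨j, rfl⟩ := Nat.exists_eq_add_of_le hkl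
  rw [add_comm, Function.iterate_add_apply]
  exact h.trans (mua_le_it f j _)

omit [IsModularLattice X] [PB X s] in
private lemma mua_s_inf (k : ℕ) (x y : X) : s^[k] (x ⊓ y) = s^[k] x ⊓ s^[k] y := by
  induction k generalizing x y with
  | zero => rfl
  | succ k ih => rw [Function.iterate_succ_apply, map_inf, ih, ← Function.iterate_succ_apply,
      ← Function.iterate_succ_apply]

theorem exists_mu (o : X) (f : Pt s) : ∃ m, IsMu s f.1 m ∧ m o = 0 := by
  have hK : ∀ x : X, ∃ k : ℕ, o ≤ s^[k] x := fun x => PB.dir (s := s) o x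
  choose K hK using hK
  have key : ∀ x : X, ∀ k : ℕ, o ≤ s^[k] x →
      (muaD f o (s^[K x] x) : ℤ) - K x = (muaD f o (s^[k] x) : ℤ) - k :=
    fun x k hk => mua_indep' f (hK x) hk
  refine ⟨fun x => (muaD f o (s^[K x] x) : ℤ) - K x, ⟨?_, ?_, ?_, ?_⟩, ?_⟩
  · intro x y h
    have h1 := hK x
    have h2 : s^[K x] x ≤ s^[K x] y := mua_s_mono _ h
    show (muaD f o (s^[K x] x) : ℤ) - K x ≤ (muaD f o (s^[K y] y) : ℤ) - K y
    rw [key y (K x) (h1.trans h2), mua_add f h1 h2]
    push_cast
    linarith [Int.natCast_nonneg (muaD f (s^[K x] x) (s^[K x] y))]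
  · intro x
    have h1 := hK x
    have h2 : o ≤ s^[K x + 1] x := mua_ge f h1 (Nat.le_succ _)
    have h3 : s^[K x] (s x) = s^[K x + 1] x := (Function.iterate_succ_apply _ _ _).symm
    show (muaD f o (s^[K (s x)] (s x)) : ℤ) - K (s x) = (muaD f o (s^[K x] x) : ℤ) - K x + 1
    rw [key (s x) (K x) (by rw [h3]; exact h2), h3, mua_indep f h1 1]
    push_cast
    ring
  · intro x y
    have h1 := hK (x ⊓ y)
    set k := K (x ⊓ y) with hk
    have hx : o ≤ s^[k] x := h1.trans (mua_s_mono _ inf_le_left)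
    have hy : o ≤ s^[k] y := h1.trans (mua_s_mono _ inf_le_right)
    have h2 : muaD f o (s^[k] (x ⊓ y)) = min (muaD f o (s^[k] x)) (muaD f o (s^[k] y)) := by
      have h3 : ∀ i, i ≤ muaD f o (s^[k] (x ⊓ y)) ↔
          i ≤ min (muaD f o (s^[k] x)) (muaD f o (s^[k] y)) := by
        intro i
        rw [le_min_iff, ← mua_D f h1, ← mua_D f hx, ← mua_D f hy, mua_s_inf, le_inf_iff]
      exact le_antisymm ((h3 _).1 le_rfl) ((h3 _).2 le_rfl)
    show (muaD f o (s^[k] (x ⊓ y)) : ℤ) - k =
      min ((muaD f o (s^[K x] x) : ℤ) - K x) ((muaD f o (s^[K y] y) : ℤ) - K y)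
    rw [key x k hx, key y k hy, h2]
    push_cast
    rw [min_sub_sub_right]
  · intro x y h
    have h1 := hK x
    set k := K x with hk
    have h2 : s^[k] x ≤ s^[k] y := mua_s_mono _ h
    show f.1 x ≤ y ↔ (muaD f o (s^[k] x) : ℤ) - k < (muaD f o (s^[K y] y) : ℤ) - K y
    rw [key y k (h1.trans h2), mua_add f h1 h2]
    have h3 : f.1 x ≤ y ↔ f.1^[1] (s^[k] x) ≤ s^[k] y := by
      rw [it_s f 1 k x]
      constructor
      · intro h4
        exact mua_s_mono k h4
      · intro h4
        have h5 : StrictMono (s^[k] : X → X) := s.strictMono.iterate k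
        have h6 : ∀ a b : X, s^[k] a ≤ s^[k] b → a ≤ b := by
          intro a b hab
          have h7 : s^[k] (a ⊓ b) = s^[k] a := by
            rw [mua_s_inf]
            exact inf_eq_left.2 hab
          have h8 : Function.Injective (s^[k] : X → X) := s.injective.iterate k
          exact inf_eq_left.1 (h8 h7)
        exact h6 _ _ h4
    rw [h3, mua_D f h2 1]
    push_cast
    constructor
    · intro h4
      have : (1 : ℤ) ≤ muaD f (s^[k] x) (s^[k] y) := by exact_mod_cast h4
      linarith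
    · intro h4
      have : (0 : ℤ) < muaD f (s^[k] x) (s^[k] y) := by linarith
      exact_mod_cast this
  · show (muaD f o (s^[K o] o) : ℤ) - K o = 0
    rw [mua_D_s, sub_self]

omit [IsModularLattice X] in
theorem isMu_f {f : Pt s} {m : X → ℤ} (h : IsMu s f.1 m) (x : X) : m (f.1 x) = m x + 1 := by
  have h1 := (h.lev x (f.1 x) (f.2.cov x).le).1 le_rfl
  have h2 := h.mono (mua_le_s f x)
  rw [h.sh x] at h2
  linarith

omit [IsModularLattice X] in
private lemma mua_isMu_it {f : Pt s} {m : X → ℤ} (h : IsMu s f.1 m) (k : ℕ) (x : X) :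
    m (f.1^[k] x) = m x + k := by
  induction k with
  | zero => simp
  | succ k ih =>
    rw [Function.iterate_succ_apply', isMu_f h, ih]
    push_cast
    ring

omit [IsModularLattice X] in
private lemma mua_isMu_lev {f : Pt s} {m : X → ℤ} (h : IsMu s f.1 m) {x y : X} (hxy : x ≤ y)
    (i : ℕ) : f.1^[i] x ≤ y ↔ m x + i ≤ m y := by
  induction i with
  | zero =>
    constructor
    · intro h1
      simpa using h.mono hxy
    · intro _
      exact hxy
  | succ i ih =>
    have e : f.1^[i + 1] x = f.1 (f.1^[i] x) := Function.iterate_succ_apply' _ _ _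
    constructor
    · intro h1
      have h2 : f.1^[i] x ≤ y := (it_le_it f (Nat.le_succ i) x).trans h1
      rw [e, h.lev _ _ h2, mua_isMu_it h] at h1
      push_cast
      linarith
    · intro h1
      push_cast at h1
      have h2 : f.1^[i] x ≤ y := ih.2 (by linarith)
      rw [e, h.lev _ _ h2, mua_isMu_it h]
      linarith

omit [IsModularLattice X] in
private lemma mua_uniq_le {f : Pt s} {m m' : X → ℤ} (h : IsMu s f.1 m) (h' : IsMu s f.1 m')
    {x y : X} (hxy : x ≤ y) : m y - m x ≤ m' y - m' x := by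
  have h1 := h.mono hxy
  have h2 : ((m y - m x).toNat : ℤ) = m y - m x := Int.toNat_of_nonneg (by linarith)
  have h3 := (mua_isMu_lev h hxy (m y - m x).toNat).2 (by rw [h2]; linarith)
  have h4 := (mua_isMu_lev h' hxy (m y - m x).toNat).1 h3
  rw [h2] at h4
  linarith

theorem mu_unique {f : Pt s} {m m' : X → ℤ} (h : IsMu s f.1 m) (h' : IsMu s f.1 m') (x y : X) :
    m x - m y = m' x - m' y := by
  have a1 := mua_uniq_le h h' (le_sup_left : x ≤ x ⊔ y)
  have a2 := mua_uniq_le h' h (le_sup_left : x ≤ x ⊔ y)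
  have a3 := mua_uniq_le h h' (le_sup_right : y ≤ x ⊔ y)
  have a4 := mua_uniq_le h' h (le_sup_right : y ≤ x ⊔ y)
  linarith

theorem mu_spec (o : X) (f : Pt s) : IsMu s f.1 (mu o f) ∧ mu o f o = 0 := by
  unfold mu
  simp only [exists_mu o f, ↓reduceDIte]
  exact (exists_mu o f).choose_spec

theorem mu_f (o : X) (f : Pt s) (k : ℕ) (x : X) : mu o f (f.1^[k] x) = mu o f x + k :=
  mua_isMu_it (mu_spec o f).1 k x

theorem mu_s (o : X) (f : Pt s) (k : ℕ) (x : X) : mu o f (s^[k] x) = mu o f x + k := by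
  induction k with
  | zero => simp
  | succ k ih =>
    rw [Function.iterate_succ_apply', (mu_spec o f).1.sh, ih]
    push_cast
    ring

omit [IsModularLattice X] [PB X s] in
private lemma mua_s_symm (k : ℕ) (x : X) : s^[k] (s.symm^[k] x) = x := by
  have h : Function.LeftInverse (s : X → X) (s.symm : X → X) := s.apply_symm_apply
  exact h.iterate k x

omit [IsModularLattice X] [PB X s] in
private lemma mua_symm_s (k : ℕ) (x : X) : s.symm^[k] (s^[k] x) = x := by
  have h : Function.LeftInverse (s.symm : X → X) (s : X → X) := s.symm_apply_apply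
  exact h.iterate k x

theorem mu_symm (o : X) (f : Pt s) (k : ℕ) (x : X) : mu o f (s.symm^[k] x) = mu o f x - k := by
  have h := mu_s o f k (s.symm^[k] x)
  rw [mua_s_symm] at h
  linarith

theorem mu_mono (o : X) (f : Pt s) {x y : X} (h : x ≤ y) : mu o f x ≤ mu o f y :=
  (mu_spec o f).1.mono h

theorem mu_inf (o : X) (f : Pt s) (x y : X) : mu o f (x ⊓ y) = min (mu o f x) (mu o f y) :=
  (mu_spec o f).1.inf x y

theorem mu_lev (o : X) (f : Pt s) {x y : X} (h : x ≤ y) :
    f.1 x ≤ y ↔ mu o f x < mu o f y :=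
  (mu_spec o f).1.lev x y h

/-- for `x ≤ y`: `f^k x ≤ y` iff the level grows by at least `k` -/
theorem mu_lev_it (o : X) (f : Pt s) {x y : X} (h : x ≤ y) (k : ℕ) :
    f.1^[k] x ≤ y ↔ mu o f x + k ≤ mu o f y :=
  mua_isMu_lev (mu_spec o f).1 h k

theorem mu_cov (o : X) (f : Pt s) {x y : X} (h : x ⋖ y) :
    (y = f.1 x ∧ mu o f y = mu o f x + 1) ∨ (y ≠ f.1 x ∧ mu o f y = mu o f x) := by
  by_cases hy : y = f.1 x
  · left
    refine ⟨hy, ?_⟩
    rw [hy]
    exact isMu_f (mu_spec o f).1 x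
  · right
    refine ⟨hy, ?_⟩
    have h1 : ¬ f.1 x ≤ y := by
      intro h2
      rcases h2.lt_or_eq with h3 | h3
      · exact h.2 (f.2.cov x).lt h3
      · exact hy h3.symm
    rw [mu_lev o f h.le, not_lt] at h1
    exact le_antisymm h1 (mu_mono o f h.le)

/-- change of the base point of the normalisation -/
theorem mu_base (o o' : X) (f : Pt s) (x : X) : mu o' f x = mu o f x - mu o f o' := by
  have h := mu_unique (mu_spec o' f).1 (mu_spec o f).1 x o'
  rw [(mu_spec o' f).2] at h
  linarith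

theorem mu_Fk (o : X) (f : Pt s) (k : ℕ) (x : X) : mu o f (Fk f k x) = mu o f x := by
  unfold Fk
  rw [mu_f, mu_symm]
  ring

/-- automorphisms transport levels -/
theorem mu_smul (o : X) (f : Pt s) (g : X ≃o X) (x : X) :
    mu (g o) (g • f) (g x) = mu o f x := by
  have h0 := (mu_spec (g o) (g • f)).1
  have e : ∀ z : X, (g • f).1 (g z) = g (f.1 z) := by
    intro z
    show g (f.1 (g.symm (g z))) = g (f.1 z)
    rw [g.symm_apply_apply]
  have h : IsMu s f.1 (fun z => mu (g o) (g • f) (g z)) := by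
    refine ⟨fun a b hab => h0.mono (g.monotone hab), fun a => ?_, fun a b => ?_,
      fun a b hab => ?_⟩
    · show mu (g o) (g • f) (g (s a)) = mu (g o) (g • f) (g a) + 1
      rw [aut_comm, h0.sh]
    · show mu (g o) (g • f) (g (a ⊓ b)) = _
      rw [map_inf, h0.inf]
    · have h1 := h0.lev (g a) (g b) (g.monotone hab)
      rw [e, g.le_iff_le] at h1
      exact h1
  have h2 := mu_unique h (mu_spec o f).1 x o
  simp only [(mu_spec o f).2, (mu_spec (g o) (g • f)).2] at h2
  linarith

/-- `z ≤ z'` can be tested by the levels of all points with `f z ≤ z'` ... (see `le_of_mu` in CycA) -/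
theorem mu_le_of_Fk (o : X) (f : Pt s) {x y : X} {k : ℕ} (h : Fk f k x ≤ y) :
    mu o f x ≤ mu o f y := by
  rw [← mu_Fk o f k x]
  exact mu_mono o f h

/-- if the level of `x` is at most the level of `y` then `F_k(x) ≤ y` for all large `k` -/
theorem exists_Fk (o : X) (f : Pt s) {x y : X} (h : mu o f x ≤ mu o f y) :
    ∃ k₀, ∀ k, k₀ ≤ k → Fk f k x ≤ y := by
  obtain ⟨k₀, hk₀⟩ := PB.dir (s := s) x y
  refine ⟨k₀, fun k hk => ?_⟩
  have h1 : x ≤ s^[k] y := mua_ge f hk₀ hk
  have h2 : s.symm^[k] x ≤ y := by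
    have h3 : s.symm^[k] x ≤ s.symm^[k] (s^[k] y) := s.symm.monotone.iterate k h1
    rwa [mua_symm_s] at h3
  unfold Fk
  rw [mu_lev_it o f h2, mu_symm]
  linarith

end Pool.Agent.PLB
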