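import Pool.Agent.RIG.DeepMain

set_option autoImplicit false

/-! In a modular lattice with self-dual intervals every projective plane at depth four has a
doubly transitive automorphism group. -/

namespace Pool.Agent.Results.MP_34a2f2_co.DeepPlanes

open Pool.Agent.Helper87.ML

universe u

theorem result (L : Type u) [Lattice L] (hm : IsModularLattice L)
    (hfin : ∀ x y : L, (Set.Icc x y).Finite) (hSD : SD' L)
    (s : L → L) (hs : ∀ x, IsLUB (insert x {y | x ⋖ y}) (s x))
    (z : L) (hz : ∀ y, z ≤ y → y ≤ s (s (s z)) → IsPlane y (s y))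
    (a b c d : Set.Icc z (s z)) (ha : z ⋖ (a : L)) (hb : z ⋖ (b : L)) (hc : z ⋖ (c : L))
    (hd : z ⋖ (d : L)) (hab : a ≠ b) (hcd : c ≠ d) :
    ∃ φ : Set.Icc z (s z) ≃o Set.Icc z (s z), φ a = c ∧ φ b = d := by
  obtain ⟨φ, h1, h2⟩ := Pool.Agent.RIG.deep_main hfin hSD hs hz ha hb hc hd
    (fun h => hab (Subtype.ext h)) (fun h => hcd (Subtype.ext h))
  exact ⟨φ, h1, h2⟩

end Pool.Agent.Results.MP_34a2f2_co.DeepPlanes
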