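import Pool.Agent.PLB.PPx

set_option autoImplicit false

/-! Theorem PB, section 3: elations of a Moufang plane.

`el_triv`: `central_trivial` and faithfulness.  `tr_mul`: the product has a centre (`axis_center`); if it
is not on the axis then it is a fixed point `x`, and with `y = g' x ≠ x` the line `x y` contains both
centres, which are equal.  `tr_sharp`: `mou` and `tr_triv`.  `el_center`: a point off both `l` and the
line `c d` is fixed. -/

namespace Pool.Agent.PLB

variable {P H G : Type*} [Group G] [MulAction G P] [MulAction G H] {I : P → H → Prop}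

private lemma ppa_line (hI : IsPP I) {p q : P} {l m : H} (hpq : p ≠ q) (h1 : I p l) (h2 : I q l)
    (h3 : I p m) (h4 : I q m) : l = m :=
  (hI.line p q hpq).unique ⟨h1, h2⟩ ⟨h3, h4⟩

private lemma ppa_point (hI : IsPP I) {p q : P} {l m : H} (hlm : l ≠ m) (h1 : I p l) (h2 : I p m)
    (h3 : I q l) (h4 : I q m) : p = q :=
  (hI.point l m hlm).unique ⟨h1, h2⟩ ⟨h3, h4⟩

private lemma ppa_ne_line {x : P} {l m : H} (h1 : I x m) (h2 : ¬ I x l) : m ≠ l := by
  rintro rfl
  exact h2 h1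

private lemma ppa_ne_point {x y : P} {l : H} (h1 : I x l) (h2 : ¬ I y l) : x ≠ y := by
  rintro rfl
  exact h2 h1

/-- a point on none of two lines -/
private lemma ppa_off2 (hI : IsPP I) (l k : H) : ∃ x, ¬ I x l ∧ ¬ I x k := by
  obtain ⟨p, hp⟩ := hI.off l
  by_cases hpk : I p k
  · obtain ⟨q, hq⟩ := hI.off k
    by_cases hql : I q l
    · have hpq : p ≠ q := ppa_ne_point hpk hq
      obtain ⟨m, ⟨hm1, hm2⟩, -⟩ := hI.line p q hpq
      obtain ⟨r, hr, hrp, hrq⟩ : ∃ r, I r m ∧ r ≠ p ∧ r ≠ q := by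
        obtain ⟨a, b, c, ha, hb, hc, hab, hac, hbc⟩ := hI.three m
        by_cases h1 : a = p
        · by_cases h2 : b = q
          · refine ⟨c, hc, ?_, ?_⟩
            · rintro rfl
              exact hac h1
            · rintro rfl
              exact hbc h2
          · refine ⟨b, hb, ?_, h2⟩
            rintro rfl
            exact hab h1
        · by_cases h2 : a = q
          · by_cases h3 : b = p
            · refine ⟨c, hc, ?_, ?_⟩
              · rintro rfl
                exact hbc h3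
              · rintro rfl
                exact hac h2
            · refine ⟨b, hb, h3, ?_⟩
              rintro rfl
              exact hab h2
          · exact ⟨a, ha, h1, h2⟩
      refine ⟨r, fun h => hrq ?_, fun h => hrp ?_⟩
      · exact ppa_point hI (ppa_ne_line hm1 hp) hr h hm2 hql
      · exact ppa_point hI (ppa_ne_line hm2 hq) hr h hm1 hpk
    · exact ⟨q, hql, hq⟩
  · exact ⟨p, hp, hpk⟩

theorem el_triv (hM : MP G I) {c x : P} {l : H} {g : G} (hg : g ∈ El G I c l) (hx : ¬ I x l)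
    (hxc : x ≠ c) (hgx : g • x = x) : g = 1 :=
  hM.faith g (central_trivial (σ := fun p => g • p) (τ := fun m => g • m) hM.pp
    (fun p m => hM.inc g p m) hg.1 hg.2 hx hxc hgx).1

theorem tr_triv (hM : MP G I) {x : P} {l : H} {g : G} (hg : g ∈ Tr G I l) (hx : ¬ I x l)
    (hgx : g • x = x) : g = 1 := by
  obtain ⟨c, hc, hgc⟩ := hg
  exact el_triv hM hgc hx (ppa_ne_point hc hx).symm hgx

theorem tr_one (hM : MP G I) (l : H) : (1 : G) ∈ Tr G I l := by
  obtain ⟨c, -, -, hc, -⟩ := hM.pp.three l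
  exact ⟨c, hc, (El G I c l).one_mem⟩

theorem tr_mul (hM : MP G I) {l : H} {g g' : G} (hg : g ∈ Tr G I l) (hg' : g' ∈ Tr G I l) :
    g * g' ∈ Tr G I l := by
  obtain ⟨d, hd, hgd⟩ := hg
  obtain ⟨d', hd', hgd'⟩ := hg'
  have hax : ∀ p, I p l → (g * g') • p = p := by
    intro p hp
    rw [mul_smul, hgd'.1 p hp, hgd.1 p hp]
  obtain ⟨x, hx⟩ := axis_center (σ := fun p => (g * g') • p) (τ := fun m => (g * g') • m) hM.pp
    (fun p m => hM.inc (g * g') p m) hax
  by_cases hxl : I x l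
  · exact ⟨x, hxl, hax, hx⟩
  have hfx : (g * g') • x = x := center_fixed (σ := fun p => (g * g') • p)
    (τ := fun m => (g * g') • m) hM.pp (fun p m => hM.inc (g * g') p m) hx
  rw [mul_smul] at hfx
  by_cases hy : g' • x = x
  · have h1 : g' = 1 := tr_triv hM ⟨d', hd', hgd'⟩ hxl hy
    rw [hy] at hfx
    have h2 : g = 1 := tr_triv hM ⟨d, hd, hgd⟩ hxl hfx
    rw [h1, h2, one_mul]
    exact tr_one hM l
  · -- the line through `x`, `g' x` and the centre of `g'`
    obtain ⟨m', ⟨hm1, hm2⟩, -⟩ := hM.pp.line x d' (ppa_ne_point hd' hxl).symm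
    have hm3 : I (g' • x) m' := by
      have h1 := (hM.inc g' x m').2 hm1
      rwa [hgd'.2 m' hm2] at h1
    have hyl : ¬ I (g' • x) l := by
      intro h
      have h1 := hM.inc g' x l
      have h2 : g' • l = l := axis_fixed (σ := fun p => g' • p) (τ := fun m => g' • m) hM.pp
        (fun p m => hM.inc g' p m) hgd'.1
      rw [h2] at h1
      exact hxl (h1.1 h)
    -- the line through `g' x`, `x` and the centre of `g`
    obtain ⟨m, ⟨hn1, hn2⟩, -⟩ := hM.pp.line (g' • x) d (ppa_ne_point hd hyl).symm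
    have hn3 : I x m := by
      have h1 := (hM.inc g (g' • x) m).2 hn1
      rwa [hgd.2 m hn2, hfx] at h1
    have hmm : m' = m := ppa_line hM.pp hy hm3 hm1 hn1 hn3
    have hdd : d' = d := by
      rw [← hmm] at hn2
      exact ppa_point hM.pp (ppa_ne_line hm1 hxl) hm2 hd' hn2 hd
    rw [hdd] at hgd'
    exact ⟨d, hd, (El G I d l).mul_mem hgd hgd'⟩

theorem tr_inv {l : H} {g : G} (hg : g ∈ Tr G I l) : g⁻¹ ∈ Tr G I l := by
  obtain ⟨c, hc, hgc⟩ := hg
  exact ⟨c, hc, (El G I c l).inv_mem hgc⟩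

theorem tr_sharp (hM : MP G I) {l : H} {p q : P} (hp : ¬ I p l) (hq : ¬ I q l) :
    ∃! g : G, g ∈ Tr G I l ∧ g • p = q := by
  obtain ⟨g, hg, hgp⟩ := hM.mou l p q hp hq
  refine ⟨g, ⟨hg, hgp⟩, ?_⟩
  rintro g' ⟨hg', hgp'⟩
  have h1 : g⁻¹ * g' ∈ Tr G I l := tr_mul hM (tr_inv hg) hg'
  have h2 : (g⁻¹ * g') • p = p := by
    rw [mul_smul, hgp', inv_smul_eq_iff, hgp]
  have h3 := tr_triv hM h1 hp h2
  exact (inv_mul_eq_one.1 h3).symm

theorem el_conj (hM : MP G I) (k : G) {c : P} {l : H} {g : G} (hg : g ∈ El G I c l) :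
    k * g * k⁻¹ ∈ El G I (k • c) (k • l) := by
  refine ⟨fun p hp => ?_, fun m hm => ?_⟩
  · have h1 := (hM.inc k⁻¹ p (k • l)).2 hp
    rw [inv_smul_smul] at h1
    rw [mul_smul, mul_smul, hg.1 _ h1, smul_inv_smul]
  · have h1 := (hM.inc k⁻¹ (k • c) m).2 hm
    rw [inv_smul_smul] at h1
    rw [mul_smul, mul_smul, hg.2 _ h1, smul_inv_smul]

theorem el_center (hM : MP G I) {c d : P} {l : H} {g : G} (hg : g ∈ El G I c l)
    (hg' : g ∈ El G I d l) (hcd : c ≠ d) : g = 1 := by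
  obtain ⟨k, ⟨hk1, hk2⟩, -⟩ := hM.pp.line c d hcd
  obtain ⟨x, hxl, hxk⟩ := ppa_off2 hM.pp l k
  have hxc : x ≠ c := (ppa_ne_point hk1 hxk).symm
  have hxd : x ≠ d := (ppa_ne_point hk2 hxk).symm
  obtain ⟨m, ⟨hm1, hm2⟩, -⟩ := hM.pp.line x c hxc
  obtain ⟨n, ⟨hn1, hn2⟩, -⟩ := hM.pp.line x d hxd
  have hmn : m ≠ n := by
    rintro rfl
    have e := ppa_line hM.pp hcd hm2 hn2 hk1 hk2
    rw [e] at hm1
    exact hxk hm1
  have h1 := (hM.inc g x m).2 hm1
  have h2 := (hM.inc g x n).2 hn1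
  rw [hg.2 m hm2] at h1
  rw [hg'.2 n hn2] at h2
  exact el_triv hM hg hxl hxc (ppa_point hM.pp hmn h1 h2 hm1 hn1)

end Pool.Agent.PLB
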