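import Pool.Agent.PLB.PPd

set_option autoImplicit false

/-! Theorem PB, section 3: commutators of root groups.

`U G F i j` = elations with centre `e i` and axis `l j` (`l j` is opposite to `e j`). For distinct
`i, j, k` the commutator of `U i j` and `U j k` is in `U i k`, it is biadditive and bijective in
each variable (the other one being nontrivial). -/

namespace Pool.Agent.PLB

open scoped commutatorElement

variable {P H G : Type*} [Group G] [MulAction G P] [MulAction G H] {I : P → H → Prop}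

theorem u_dual (F : Frame I) (i j : Fin 3) : U G F.dual i j = U G F j i :=
  el_dual (F.e j) (F.l i)

private theorem ppb_axis (hM : MP G I) {c : P} {l : H} {g : G} (hg : g ∈ El G I c l) :
    g • l = l :=
  axis_fixed hM.pp (σ := fun p => g • p) (τ := fun m => g • m) (hM.inc g) hg.1

private theorem ppb_center (hM : MP G I) {c : P} {l : H} {g : G} (hg : g ∈ El G I c l) :
    g • c = c :=
  center_fixed hM.pp (σ := fun p => g • p) (τ := fun m => g • m) (hM.inc g) hg.2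

/-- an element fixes a line: incidence is preserved -/
private theorem ppb_on (hM : MP G I) {g : G} {l : H} (hl : g • l = l) (p : P) :
    I (g • p) l ↔ I p l := by
  have h := hM.inc g p l
  rw [hl] at h
  exact h

private theorem ppb_line (hM : MP G I) {p q : P} {l m : H} (hpq : p ≠ q) (h1 : I p l)
    (h2 : I q l) (h3 : I p m) (h4 : I q m) : l = m :=
  (hM.pp.line p q hpq).unique ⟨h1, h2⟩ ⟨h3, h4⟩

private theorem ppb_point (hM : MP G I) {p q : P} {l m : H} (hlm : l ≠ m) (h1 : I p l)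
    (h2 : I p m) (h3 : I q l) (h4 : I q m) : p = q :=
  (hM.pp.point l m hlm).unique ⟨h1, h2⟩ ⟨h3, h4⟩

variable (hM : MP G I) (F : Frame I) {i j k : Fin 3} (hij : i ≠ j) (hjk : j ≠ k) (hik : i ≠ k)
include hM hij hjk hik

theorem comm_apply {x b : G} (hx : x ∈ U G F i j) (hb : b ∈ U G F j k) :
    ⁅x, b⁆ • (b • F.e k) = x • (b • F.e k) := by
  have h1 : x • F.e k = F.e k := hx.1 _ ((F.inc k j).2 hjk.symm)
  have h2 : x⁻¹ • F.e k = F.e k := by rw [inv_smul_eq_iff, h1]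
  rw [commutatorElement_def, mul_smul, mul_smul, mul_smul, inv_smul_smul, h2]

omit hik hjk in
/-- the point `q = b e_k` is on `l_i` and off `l_k` -/
private theorem ppb_q {b : G} (hb : b ∈ U G F j k) :
    (i ≠ k → I (b • F.e k) (F.l i)) ∧ ¬ I (b • F.e k) (F.l k) := by
  constructor
  · intro hik
    have h1 : b • F.l i = F.l i := hb.2 _ ((F.inc j i).2 hij.symm)
    exact (ppb_on hM h1 _).2 ((F.inc k i).2 hik.symm)
  · intro h
    have h1 : b • F.l k = F.l k := ppb_axis hM hb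
    exact (F.inc k k).1 ((ppb_on hM h1 _).1 h) rfl

theorem comm_mem {x b : G} (hx : x ∈ U G F i j) (hb : b ∈ U G F j k) : ⁅x, b⁆ ∈ U G F i k := by
  have hxl : x • F.l k = F.l k := hx.2 _ ((F.inc i k).2 hik)
  have h1 : x * b * x⁻¹ ∈ Tr G I (F.l k) := by
    refine ⟨x • F.e j, ?_, ?_⟩
    · exact (ppb_on hM hxl _).2 ((F.inc j k).2 hjk)
    · have h2 := el_conj hM x hb
      rw [hxl] at h2
      exact h2
  have h2 : b⁻¹ ∈ Tr G I (F.l k) := tr_inv ⟨F.e j, (F.inc j k).2 hjk, hb⟩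
  have h3 : ⁅x, b⁆ ∈ Tr G I (F.l k) := by
    rw [commutatorElement_def]
    exact tr_mul hM h1 h2
  have hq := (ppb_q hM F hij hb).2
  have hap := comm_apply hM F hij hjk hik hx hb
  by_cases hf : x • (b • F.e k) = b • F.e k
  · rw [hf] at hap
    rw [tr_triv hM h3 hq hap]
    exact (U G F i k).one_mem
  · obtain ⟨c, hc, hcc⟩ := h3
    have hie : I (F.e i) (F.l k) := (F.inc i k).2 hik
    have hne : F.e i ≠ b • F.e k := by
      intro h
      apply hq
      rw [← h]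
      exact hie
    obtain ⟨m, ⟨hm1, hm2⟩, -⟩ := hM.pp.line _ _ hne
    have hxm : x • m = m := hx.2 m hm1
    have hm3 : I (x • (b • F.e k)) m := (ppb_on hM hxm _).2 hm2
    have hne2 : c ≠ b • F.e k := by
      intro h
      apply hq
      rw [← h]
      exact hc
    obtain ⟨m', ⟨hm1', hm2'⟩, -⟩ := hM.pp.line _ _ hne2
    have hcm : ⁅x, b⁆ • m' = m' := hcc.2 m' hm1'
    have hm3' : I (x • (b • F.e k)) m' := by
      rw [← hap]
      exact (ppb_on hM hcm _).2 hm2'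
    have hmm : m' = m := ppb_line hM hf hm3' hm2' hm3 hm2
    rw [hmm] at hm1'
    have hml : m ≠ F.l k := by
      intro h
      apply hq
      rw [← h]
      exact hm2
    have hce : c = F.e i := ppb_point hM hml hm1' hc hm1 hie
    rw [hce] at hcc
    exact hcc

theorem commute_ij_ik {x a : G} (hx : x ∈ U G F i j) (ha : a ∈ U G F i k) :
    x * a = a * x :=
  ce_comm hM ((F.inc i j).2 hij) ((F.inc i k).2 hik) hx ha

theorem commute_ik_jk {a b : G} (ha : a ∈ U G F i k) (hb : b ∈ U G F j k) :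
    a * b = b * a :=
  tr_comm hM ⟨F.e i, (F.inc i k).2 hik, ha⟩ ⟨F.e j, (F.inc j k).2 hjk, hb⟩

theorem u_comm {a b : G} (ha : a ∈ U G F i k) (hb : b ∈ U G F i k) : a * b = b * a :=
  tr_comm hM ⟨F.e i, (F.inc i k).2 hik, ha⟩ ⟨F.e i, (F.inc i k).2 hik, hb⟩

theorem comm_mul_l {x x' b : G} (hx : x ∈ U G F i j) (hx' : x' ∈ U G F i j)
    (hb : b ∈ U G F j k) : ⁅x * x', b⁆ = ⁅x, b⁆ * ⁅x', b⁆ := by
  have h1 : ⁅x', b⁆ ∈ U G F i k := comm_mem hM F hij hjk hik hx' hb
  have h2 : ⁅x, b⁆ ∈ U G F i k := comm_mem hM F hij hjk hik hx hb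
  have h3 : x * ⁅x', b⁆ = ⁅x', b⁆ * x := commute_ij_ik hM F hij hjk hik hx h1
  have h4 : ⁅x, b⁆ * ⁅x', b⁆ = ⁅x', b⁆ * ⁅x, b⁆ := u_comm hM F hij hjk hik h2 h1
  have h5 : ⁅x * x', b⁆ = x * ⁅x', b⁆ * x⁻¹ * ⁅x, b⁆ := by
    simp only [commutatorElement_def]
    group
  rw [h5, h3, h4, mul_inv_cancel_right]

theorem comm_mul_r {x b b' : G} (hx : x ∈ U G F i j) (hb : b ∈ U G F j k)
    (hb' : b' ∈ U G F j k) : ⁅x, b * b'⁆ = ⁅x, b⁆ * ⁅x, b'⁆ := by
  have h1 : ⁅x, b'⁆ ∈ U G F i k := comm_mem hM F hij hjk hik hx hb'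
  have h3 : ⁅x, b'⁆ * b = b * ⁅x, b'⁆ := commute_ik_jk hM F hij hjk hik h1 hb
  have h5 : ⁅x, b * b'⁆ = ⁅x, b⁆ * (b * ⁅x, b'⁆ * b⁻¹) := by
    simp only [commutatorElement_def]
    group
  rw [h5, ← h3, mul_inv_cancel_right]

theorem comm_bij_l {b : G} (hb : b ∈ U G F j k) (hb1 : b ≠ 1) {a : G} (ha : a ∈ U G F i k) :
    ∃! x, x ∈ U G F i j ∧ ⁅x, b⁆ = a := by
  obtain ⟨q, hq⟩ : ∃ q, q = b • F.e k := ⟨_, rfl⟩
  have hql := (ppb_q hM F hij hb).2
  have hqi := (ppb_q hM F hij hb).1 hik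
  rw [← hq] at hql hqi
  have hqk : q ≠ F.e k := by
    intro h
    apply hb1
    apply el_triv hM hb (x := F.e k)
    · intro h2
      exact (F.inc k k).1 h2 rfl
    · intro h2
      have h3 := (F.inc j j).not.2 (not_not.2 rfl)
      apply h3
      rw [← h2]
      exact (F.inc k j).2 hjk.symm
    · rw [← hq, h]
  have hij_l : F.l i ≠ F.l j := by
    intro h
    have h3 := (F.inc j j).not.2 (not_not.2 rfl)
    apply h3
    rw [← h]
    exact (F.inc j i).2 hij.symm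
  have hqj : ¬ I q (F.l j) := by
    intro h
    exact hqk (ppb_point hM hij_l hqi h ((F.inc k i).2 hik.symm) ((F.inc k j).2 hjk.symm))
  have hie : I (F.e i) (F.l k) := (F.inc i k).2 hik
  have hiej : I (F.e i) (F.l j) := (F.inc i j).2 hij
  have hqe : q ≠ F.e i := by
    intro h
    apply hql
    rw [h]
    exact hie
  obtain ⟨m, ⟨hm1, hm2⟩, -⟩ := hM.pp.line _ _ hqe
  have ham : a • m = m := ha.2 m hm2
  have hm3 : I (a • q) m := (ppb_on hM ham _).2 hm1
  have hmj : m ≠ F.l j := by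
    intro h
    apply hqj
    rw [← h]
    exact hm1
  have haq : ¬ I (a • q) (F.l j) := by
    intro h
    have h1 : a • q = F.e i := ppb_point hM hmj hm3 h hm2 hiej
    have h2 : a • F.e i = F.e i := ppb_center hM ha
    rw [← h2] at h1
    exact hqe (smul_left_cancel a h1)
  obtain ⟨x, hx, hxq⟩ := el_exists (G := G) hM hiej hqj haq hm2 hm1 hm3
  have hqi_ne : q ≠ F.e i := hqe
  refine ⟨x, ⟨hx, ?_⟩, ?_⟩
  · have h1 : ⁅x, b⁆ ∈ U G F i k := comm_mem hM F hij hjk hik hx hb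
    have h2 := comm_apply hM F hij hjk hik hx hb
    rw [← hq, hxq] at h2
    have h3 : a⁻¹ * ⁅x, b⁆ ∈ U G F i k := (U G F i k).mul_mem ((U G F i k).inv_mem ha) h1
    have h4 : (a⁻¹ * ⁅x, b⁆) • q = q := by rw [mul_smul, h2, inv_smul_smul]
    have h5 := el_triv hM h3 hql hqi_ne h4
    exact (inv_mul_eq_one.1 h5).symm
  · rintro y ⟨hy, hya⟩
    have h2 := comm_apply hM F hij hjk hik hy hb
    rw [← hq, hya] at h2
    have h3 : x⁻¹ * y ∈ U G F i j := (U G F i j).mul_mem ((U G F i j).inv_mem hx) hy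
    have h4 : (x⁻¹ * y) • q = q := by rw [mul_smul, ← h2, ← hxq, inv_smul_smul]
    have h5 := el_triv hM h3 hqj hqi_ne h4
    exact (inv_mul_eq_one.1 h5).symm

theorem comm_bij_r {x : G} (hx : x ∈ U G F i j) (hx1 : x ≠ 1) {a : G} (ha : a ∈ U G F i k) :
    ∃! b, b ∈ U G F j k ∧ ⁅x, b⁆ = a := by
  have h1 : x ∈ U G F.dual j i := by rw [u_dual]; exact hx
  have h2 : a⁻¹ ∈ U G F.dual k i := by rw [u_dual]; exact (U G F i k).inv_mem ha
  obtain ⟨b, ⟨hb, hba⟩, hu⟩ :=
    comm_bij_l (mp_dual hM) F.dual hjk.symm hij.symm hik.symm h1 hx1 h2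
  refine ⟨b, ⟨?_, ?_⟩, ?_⟩
  · rw [u_dual] at hb
    exact hb
  · rw [← commutatorElement_inv, hba, inv_inv]
  · rintro b' ⟨hb', hba'⟩
    apply hu
    refine ⟨?_, ?_⟩
    · rw [u_dual]
      exact hb'
    · rw [← commutatorElement_inv, hba']

end Pool.Agent.PLB
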