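import Pool.Agent.PLB.PPb

set_option autoImplicit false

/-! Theorem PB, section 3: opposite root elements, the closure properties of the maps `b ↦ ⁅x, b⁆`.

PLAN. `opp`: `x ∈ U i j`, `x ≠ 1`: `x • e_j` is a point of the line `e_i e_j = l_k`, `≠ e_j`, `≠ e_i`; the group `U j i`
(centre `e_j`, axis `l_i` through `e_j, e_k`) is sharply transitive on the points `≠ e_j` of `l_k`: take `y ∈ U j i` with
`y • (x • e_j) = e_i`. For `b ∈ U j k`: `(y x) b (y x)⁻¹` is an elation with axis `l_k` and centre `y x e_j = e_i`, so it is in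
`U i k`. `x b x⁻¹ = ⁅x, b⁆ b`, `y ⁅x, b⁆ y⁻¹ = ⁅y, ⁅x, b⁆⁆ ⁅x, b⁆`, `y b y⁻¹ = b` (`commute_ij_ik` for `j, i, k`). So
`⁅y, ⁅x, b⁆⁆ ⁅x, b⁆ b ∈ U i k`, hence `⁅y, ⁅x, b⁆⁆ b ∈ U i k ⊓ U j k = 1` : (O1) `⁅y, ⁅x, b⁆⁆ = b⁻¹`. By the same argument for
`y` there is `x' ∈ U i j` with `x' • (y • e_i) = e_j` and `⁅x', ⁅y, a⁆⁆ = a⁻¹` for `a ∈ U i k`; put `a = ⁅x, b⁆`:
`⁅x', b⁻¹⁆ = ⁅x, b⁆⁻¹`, so `⁅x', b⁆ = ⁅x, b⁆` and `x' = x` (`comm_bij_l` with some `b ≠ 1`). So (O2) and `x • (y • e_i) = e_j`.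
`n = x y x`: `n e_j = x e_i = e_i`, `n e_i = x (y e_i) = e_j`, `n e_k = e_k`.
`closure_l`: if `x = 1` take `x₂ = 1` (then `b₁ = 1`). Otherwise `y` opposite to `x`, `y'` opposite to `x₁`, `n = x y x`,
`x₂ = n y' n⁻¹ ∈ El (n e_j) (n l_i) = El e_i l_j = U i j` (`n` maps `l_i = e_j e_k` to `e_i e_k = l_j`). On the abelian group
`U i k * U j k`: `n⁻¹ b n = ⁅x, b⁆⁻¹`, `n β n⁻¹ = ⁅x, β⁆` for `β ∈ U j k`, `n α n⁻¹ = ⁅y, α⁆` for `α ∈ U i k` (from (O1), (O2)), so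
`⁅x₂, b⁆ = ⁅x, ⁅y', ⁅x, b⁆⁻¹⁆⁆ = ⁅x, ⁅y', ⁅x₁, b₁⁆⁆⁆⁻¹ = ⁅x, b₁⁻¹⁆⁻¹ = ⁅x, b₁⁆`.
`closure_r`: `closure_l` for the dual plane and `(k, j, i)` (`mp_dual`, `u_dual`), `⁅b, x⁆ = ⁅x, b⁆⁻¹`. -/

namespace Pool.Agent.PLB

open scoped commutatorElement

variable {P H G : Type*} [Group G] [MulAction G P] [MulAction G H] {I : P → H → Prop}

variable (hM : MP G I) (F : Frame I) {i j k : Fin 3} (hij : i ≠ j) (hjk : j ≠ k) (hik : i ≠ k)
include hM hij hjk hik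

omit hij hik in
private theorem ppc_ne : F.e j ≠ F.e k := by
  intro h
  have h1 := (F.inc j k).2 hjk
  rw [h] at h1
  exact (F.inc k k).1 h1 rfl

omit hM hij hjk hik in
private theorem ppc_fp {x : G} (hx : x ∈ U G F i j) {m : Fin 3} (hm : m ≠ j) :
    x • F.e m = F.e m := hx.1 _ ((F.inc m j).2 hm)

omit hM hij hjk hik in
private theorem ppc_fl {x : G} (hx : x ∈ U G F i j) {m : Fin 3} (hm : i ≠ m) :
    x • F.l m = F.l m := hx.2 _ ((F.inc i m).2 hm)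

omit hij hjk hik in
private theorem ppc_pt {p q : P} {l m : H} (hlm : l ≠ m) (h1 : I p l) (h2 : I p m) (h3 : I q l)
    (h4 : I q m) : p = q :=
  (hM.pp.point l m hlm).unique ⟨h1, h2⟩ ⟨h3, h4⟩

omit hij hjk hik in
private theorem ppc_ln {p q : P} {l m : H} (hpq : p ≠ q) (h1 : I p l) (h2 : I q l) (h3 : I p m)
    (h4 : I q m) : l = m :=
  (hM.pp.line p q hpq).unique ⟨h1, h2⟩ ⟨h3, h4⟩

omit hM hij hik in
private theorem ppc_nl : F.l j ≠ F.l k := by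
  intro h
  have h1 := (F.inc j k).2 hjk
  rw [← h] at h1
  exact (F.inc j j).1 h1 rfl

/-- first half of `opp` -/
private theorem ppc_opp0 {x : G} (hx : x ∈ U G F i j) (hx1 : x ≠ 1) :
    ∃ y ∈ U G F j i, y ≠ 1 ∧ y • (x • F.e j) = F.e i ∧ (∀ b ∈ U G F j k, ⁅y, ⁅x, b⁆⁆ = b⁻¹) := by
  have hji : F.e j ≠ F.e i := ppc_ne hM F hij.symm
  have hjj : ¬ I (F.e j) (F.l j) := fun h => (F.inc j j).1 h rfl
  have hii : ¬ I (F.e i) (F.l i) := fun h => (F.inc i i).1 h rfl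
  have h1 : x • F.e j ≠ F.e j := fun h => hx1 (el_triv hM hx hjj hji h)
  have h2 : I (x • F.e j) (F.l k) := by
    have h3 := (hM.inc x (F.e j) (F.l k)).2 ((F.inc j k).2 hjk)
    rwa [ppc_fl F hx hik] at h3
  have h3 : x • F.e j ≠ F.e i := by
    intro h
    rw [← ppc_fp F hx hij] at h
    exact hji (MulAction.injective x h)
  have h4 : ¬ I (x • F.e j) (F.l i) := by
    intro h
    exact h1 (ppc_pt hM (ppc_nl F hik) h h2 ((F.inc j i).2 hij.symm) ((F.inc j k).2 hjk))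
  obtain ⟨y, hy, hyp⟩ := el_exists hM (c := F.e j) (p := x • F.e j) (q := F.e i) (l := F.l i)
    (m := F.l k) ((F.inc j i).2 hij.symm) h4 hii ((F.inc j k).2 hjk) h2 ((F.inc i k).2 hik)
  have hy' : y ∈ U G F j i := hy
  refine ⟨y, hy', ?_, hyp, fun b hb => ?_⟩
  · rintro rfl
    rw [one_smul] at hyp
    exact h3 hyp
  · have ha := comm_mem hM F hij hjk hik hx hb
    have hc := comm_mem hM F hij.symm hik hjk hy' ha
    have hconj : (y * x) * b * (y * x)⁻¹ ∈ El G I (F.e i) (F.l k) := by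
      have h5 := el_conj hM (y * x) (c := F.e j) (l := F.l k) (g := b) hb
      rw [mul_smul, mul_smul, hyp, ppc_fl F hx hik, ppc_fl F hy' hjk] at h5
      exact h5
    have hyb : y * b = b * y := commute_ij_ik hM F hij.symm hik hjk hy' hb
    have hab : ⁅x, b⁆ * ⁅y, ⁅x, b⁆⁆ = ⁅y, ⁅x, b⁆⁆ * ⁅x, b⁆ := commute_ik_jk hM F hij hjk hik ha hc
    have h5 : (y * x) * b * (y * x)⁻¹ = ⁅x, b⁆ * (⁅y, ⁅x, b⁆⁆ * b) := by
      rw [← mul_assoc, hab]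
      have h6 : x * b * x⁻¹ = ⁅x, b⁆ * b := by
        rw [commutatorElement_def]
        group
      have h7 : y * ⁅x, b⁆ * y⁻¹ = ⁅y, ⁅x, b⁆⁆ * ⁅x, b⁆ := by
        rw [commutatorElement_def y]
        group
      have h8 : y * b * y⁻¹ = b := by
        rw [hyb]
        group
      calc (y * x) * b * (y * x)⁻¹ = y * (x * b * x⁻¹) * y⁻¹ := by group
        _ = y * (⁅x, b⁆ * b) * y⁻¹ := by rw [h6]
        _ = (y * ⁅x, b⁆ * y⁻¹) * (y * b * y⁻¹) := by group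
        _ = ⁅y, ⁅x, b⁆⁆ * ⁅x, b⁆ * b := by rw [h7, h8]
    rw [h5] at hconj
    have h6 : ⁅y, ⁅x, b⁆⁆ * b ∈ El G I (F.e i) (F.l k) := by
      have h7 := (El G I (F.e i) (F.l k)).mul_mem ((El G I (F.e i) (F.l k)).inv_mem ha) hconj
      rwa [inv_mul_cancel_left] at h7
    have h7 : ⁅y, ⁅x, b⁆⁆ * b ∈ El G I (F.e j) (F.l k) := (El G I (F.e j) (F.l k)).mul_mem hc hb
    have h8 := el_center hM h6 h7 hji.symm
    exact eq_inv_of_mul_eq_one_left h8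

/-- a nontrivial element -/
private theorem ppc_nontriv : ∃ b ∈ U G F j k, b ≠ 1 := by
  have hkk : ¬ I (F.e k) (F.l k) := fun h => (F.inc k k).1 h rfl
  have hq : ∃ q, I q (F.l i) ∧ q ≠ F.e j ∧ q ≠ F.e k := by
    obtain ⟨a, b, c, ha, hb, hc, hab, hac, hbc⟩ := hM.pp.three (F.l i)
    by_cases h1 : a = F.e j
    · by_cases h2 : b = F.e k
      · exact ⟨c, hc, fun h => hac (h1.trans h.symm), fun h => hbc (h2.trans h.symm)⟩
      · exact ⟨b, hb, fun h => hab (h1.trans h.symm), h2⟩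
    · by_cases h2 : a = F.e k
      · by_cases h3 : b = F.e j
        · exact ⟨c, hc, fun h => hbc (h3.trans h.symm), fun h => hac (h2.trans h.symm)⟩
        · exact ⟨b, hb, h3, fun h => hab (h2.trans h.symm)⟩
      · exact ⟨a, ha, h1, h2⟩
  obtain ⟨q, hq1, hq2, hq3⟩ := hq
  have hqk : ¬ I q (F.l k) := fun h =>
    hq2 (ppc_pt hM (ppc_nl F hik) hq1 h ((F.inc j i).2 hij.symm) ((F.inc j k).2 hjk))
  obtain ⟨b, hb, hbq⟩ := el_exists hM (c := F.e j) (p := F.e k) (q := q) (l := F.l k) (m := F.l i)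
    ((F.inc j k).2 hjk) hkk hqk ((F.inc j i).2 hij.symm) ((F.inc k i).2 hik.symm) hq1
  refine ⟨b, hb, ?_⟩
  rintro rfl
  rw [one_smul] at hbq
  exact hq3 hbq.symm

/-- inverses in the second argument -/
private theorem ppc_inv {x b : G} (hx : x ∈ U G F i j) (hb : b ∈ U G F j k) :
    ⁅x, b⁻¹⁆ = ⁅x, b⁆⁻¹ := by
  have h1 := comm_mul_r hM F hij hjk hik hx hb ((U G F j k).inv_mem hb)
  rw [mul_inv_cancel, commutatorElement_one_right] at h1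
  exact (inv_eq_of_mul_eq_one_right h1.symm).symm

theorem opp {x : G} (hx : x ∈ U G F i j) (hx1 : x ≠ 1) :
    ∃ y ∈ U G F j i, y • (x • F.e j) = F.e i ∧ x • (y • F.e i) = F.e j ∧
      (∀ b ∈ U G F j k, ⁅y, ⁅x, b⁆⁆ = b⁻¹) ∧ (∀ a ∈ U G F i k, ⁅x, ⁅y, a⁆⁆ = a⁻¹) ∧
      (x * y * x) • F.e i = F.e j ∧ (x * y * x) • F.e j = F.e i ∧
      (x * y * x) • F.e k = F.e k := by
  obtain ⟨y, hy, hy1, hyp, hO1⟩ := ppc_opp0 hM F hij hjk hik hx hx1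
  obtain ⟨x', hx', -, hxp, hO2⟩ := ppc_opp0 hM F hij.symm hik hjk hy hy1
  obtain ⟨b, hb, hb1⟩ := ppc_nontriv hM F hij hjk hik
  have ha := comm_mem hM F hij hjk hik hx hb
  have h1 : ⁅x', b⁆ = ⁅x, b⁆ := by
    have h2 := hO2 ⁅x, b⁆ ha
    rw [hO1 b hb, ppc_inv hM F hij hjk hik hx' hb] at h2
    exact inv_injective h2
  have h2 : x' = x := (comm_bij_l hM F hij hjk hik hb hb1 ha).unique ⟨hx', h1⟩ ⟨hx, rfl⟩
  subst h2
  refine ⟨y, hy, hyp, hxp, hO1, hO2, ?_, ?_, ?_⟩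
  · rw [mul_smul, mul_smul, ppc_fp F hx hij, hxp]
  · rw [mul_smul, mul_smul, hyp, ppc_fp F hx hij]
  · rw [mul_smul, mul_smul, ppc_fp F hx hjk.symm, ppc_fp F hy hik.symm, ppc_fp F hx hjk.symm]

/-- conjugation by `n` on `U j k` -/
private theorem ppc_nb {x y : G} (hx : x ∈ U G F i j) (hy : y ∈ U G F j i)
    (hO1 : ∀ b ∈ U G F j k, ⁅y, ⁅x, b⁆⁆ = b⁻¹) {b : G} (hb : b ∈ U G F j k) :
    (x * y * x) * b * (x * y * x)⁻¹ = ⁅x, b⁆ := by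
  have ha := comm_mem hM F hij hjk hik hx hb
  have h6 : x * b * x⁻¹ = ⁅x, b⁆ * b := by
    rw [commutatorElement_def]
    group
  have h7 : y * ⁅x, b⁆ * y⁻¹ = b⁻¹ * ⁅x, b⁆ := by
    rw [← hO1 b hb, commutatorElement_def y]
    group
  have hyb : y * b = b * y := commute_ij_ik hM F hij.symm hik hjk hy hb
  have h8 : y * b * y⁻¹ = b := by
    rw [hyb]
    group
  have h9 : x * ⁅x, b⁆ = ⁅x, b⁆ * x := commute_ij_ik hM F hij hjk hik hx ha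
  have h10 : ⁅x, b⁆ * b = b * ⁅x, b⁆ := commute_ik_jk hM F hij hjk hik ha hb
  calc (x * y * x) * b * (x * y * x)⁻¹ = x * (y * (x * b * x⁻¹) * y⁻¹) * x⁻¹ := by group
    _ = x * (y * (⁅x, b⁆ * b) * y⁻¹) * x⁻¹ := by rw [h6]
    _ = x * ((y * ⁅x, b⁆ * y⁻¹) * (y * b * y⁻¹)) * x⁻¹ := by group
    _ = x * (b⁻¹ * (⁅x, b⁆ * b)) * x⁻¹ := by rw [h7, h8, mul_assoc b⁻¹]
    _ = x * ⁅x, b⁆ * x⁻¹ := by rw [h10, inv_mul_cancel_left]
    _ = ⁅x, b⁆ := by rw [h9, mul_inv_cancel_right]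

/-- conjugation by `n` on `U i k` -/
private theorem ppc_na {x y : G} (hx : x ∈ U G F i j) (hy : y ∈ U G F j i)
    (hO2 : ∀ a ∈ U G F i k, ⁅x, ⁅y, a⁆⁆ = a⁻¹) {a : G} (ha : a ∈ U G F i k) :
    (x * y * x) * a * (x * y * x)⁻¹ = ⁅y, a⁆ := by
  have hc := comm_mem hM F hij.symm hik hjk hy ha
  have h1 : x * a = a * x := commute_ij_ik hM F hij hjk hik hx ha
  have h2 : x * a * x⁻¹ = a := by rw [h1, mul_inv_cancel_right]
  have h3 : y * a * y⁻¹ = ⁅y, a⁆ * a := by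
    rw [commutatorElement_def]
    group
  have h4 : x * ⁅y, a⁆ * x⁻¹ = a⁻¹ * ⁅y, a⁆ := by
    rw [← hO2 a ha, commutatorElement_def x]
    group
  have h5 : a * ⁅y, a⁆ = ⁅y, a⁆ * a := commute_ik_jk hM F hij hjk hik ha hc
  calc (x * y * x) * a * (x * y * x)⁻¹ = x * (y * (x * a * x⁻¹) * y⁻¹) * x⁻¹ := by group
    _ = x * (⁅y, a⁆ * a) * x⁻¹ := by rw [h2, h3]
    _ = (x * ⁅y, a⁆ * x⁻¹) * (x * a * x⁻¹) := by group
    _ = a⁻¹ * (⁅y, a⁆ * a) := by rw [h4, h2, mul_assoc]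
    _ = ⁅y, a⁆ := by rw [← h5, inv_mul_cancel_left]

theorem closure_l {x x₁ : G} (hx : x ∈ U G F i j) (hx₁ : x₁ ∈ U G F i j) (h1 : x₁ ≠ 1) :
    ∃ x₂ ∈ U G F i j, ∀ b ∈ U G F j k, ∀ b₁ ∈ U G F j k, ⁅x₁, b₁⁆ = ⁅x, b⁆ →
      ⁅x₂, b⁆ = ⁅x, b₁⁆ := by
  by_cases hx1 : x = 1
  · refine ⟨1, (U G F i j).one_mem, fun b _ b₁ _ _ => ?_⟩
    rw [hx1, commutatorElement_one_left, commutatorElement_one_left]
  obtain ⟨y, hy, -, -, hO1, hO2, hn1, hn2, hn3⟩ := opp hM F hij hjk hik hx hx1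
  obtain ⟨y', hy', -, -, hO1', -, -, -, -⟩ := opp hM F hij hjk hik hx₁ h1
  have hx₂ : (x * y * x) * y' * (x * y * x)⁻¹ ∈ U G F i j := by
    have h2 := el_conj hM (x * y * x) (c := F.e j) (l := F.l i) (g := y') hy'
    rw [hn2] at h2
    have h3 : (x * y * x) • F.l i = F.l j := by
      have h4 := (hM.inc (x * y * x) (F.e j) (F.l i)).2 ((F.inc j i).2 hij.symm)
      have h5 := (hM.inc (x * y * x) (F.e k) (F.l i)).2 ((F.inc k i).2 hik.symm)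
      rw [hn2] at h4
      rw [hn3] at h5
      exact ppc_ln hM (ppc_ne hM F hik) h4 h5 ((F.inc i j).2 hij) ((F.inc k j).2 hjk.symm)
    rw [h3] at h2
    exact h2
  refine ⟨_, hx₂, fun b hb b₁ hb₁ heq => ?_⟩
  have ha := comm_mem hM F hij hjk hik hx hb
  have hc : (x * y * x) * ⁅x, b⁆⁻¹ * (x * y * x)⁻¹ = b := by
    rw [ppc_na hM F hij hjk hik hx hy hO2 ((U G F i k).inv_mem ha),
      ppc_inv hM F hij.symm hik hjk hy ha, hO1 b hb, inv_inv]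
  have hd : ⁅y', ⁅x, b⁆⁻¹⁆ = b₁ := by
    rw [ppc_inv hM F hij.symm hik hjk hy' ha, ← heq, hO1' b₁ hb₁, inv_inv]
  calc ⁅(x * y * x) * y' * (x * y * x)⁻¹, b⁆
      = ⁅(x * y * x) * y' * (x * y * x)⁻¹, (x * y * x) * ⁅x, b⁆⁻¹ * (x * y * x)⁻¹⁆ := by rw [hc]
    _ = (x * y * x) * ⁅y', ⁅x, b⁆⁻¹⁆ * (x * y * x)⁻¹ := by
        rw [commutatorElement_def, commutatorElement_def y']
        group
    _ = (x * y * x) * b₁ * (x * y * x)⁻¹ := by rw [hd]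
    _ = ⁅x, b₁⁆ := ppc_nb hM F hij hjk hik hx hy hO1 hb₁

theorem closure_r {b b₁ : G} (hb : b ∈ U G F j k) (hb₁ : b₁ ∈ U G F j k) (h1 : b₁ ≠ 1) :
    ∃ b₂ ∈ U G F j k, ∀ x ∈ U G F i j, ∀ x₁ ∈ U G F i j, ⁅x₁, b₁⁆ = ⁅x, b⁆ →
      ⁅x, b₂⁆ = ⁅x₁, b⁆ := by
  obtain ⟨b₂, hb₂, h2⟩ := closure_l (mp_dual hM) F.dual hjk.symm hij.symm hik.symm
    (x := b) (x₁ := b₁) (by rw [u_dual]; exact hb) (by rw [u_dual]; exact hb₁) h1
  rw [u_dual] at hb₂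
  refine ⟨b₂, hb₂, fun x hx x₁ hx₁ heq => ?_⟩
  have h3 := h2 x (by rw [u_dual]; exact hx) x₁ (by rw [u_dual]; exact hx₁) (by
    rw [← commutatorElement_inv x₁, ← commutatorElement_inv x, heq])
  rw [← commutatorElement_inv b₂, ← commutatorElement_inv b, h3]

end Pool.Agent.PLB
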