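import Pool.Agent.PLB.PPa

set_option autoImplicit false

/-! Theorem PB, section 3: elations of a Moufang plane, continued.

`el_exists`: the centre of the `g ∈ Tr l` with `g p = q` is on the line through `p` and `q`. `tr_comm`: for different centres the
commutator is in two groups `El c l`, `El d l`; for the same centre use an elation `k` with another centre and `k g'`. `mp_dual`: the
line `l` is mapped to `m` by the elation with centre `p` and axis through `p` and `l ∩ m` which maps a point of `l` to `m`. -/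

namespace Pool.Agent.PLB

variable {P H G : Type*} [Group G] [MulAction G P] [MulAction G H] {I : P → H → Prop}

private theorem PPd_line (hI : IsPP I) {p q : P} {l m : H}
    (hpq : p ≠ q) (h1 : I p l) (h2 : I q l) (h3 : I p m) (h4 : I q m) : l = m :=
  (hI.line p q hpq).unique ⟨h1, h2⟩ ⟨h3, h4⟩

private theorem PPd_point (hI : IsPP I) {p q : P} {l m : H}
    (hlm : l ≠ m) (h1 : I p l) (h2 : I p m) (h3 : I q l) (h4 : I q m) : p = q :=
  (hI.point l m hlm).unique ⟨h1, h2⟩ ⟨h3, h4⟩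

private theorem PPd_ne {x : P} {l m : H} (h1 : I x m) (h2 : ¬ I x l) : m ≠ l := by
  rintro rfl
  exact h2 h1

private theorem PPd_pne {x y : P} {l : H} (h1 : I x l) (h2 : ¬ I y l) : y ≠ x := by
  rintro rfl
  exact h2 h1

/-- a point of the line `l` different from `x` -/
private theorem PPd_other (hI : IsPP I) (l : H) (x : P) : ∃ y, I y l ∧ y ≠ x := by
  obtain ⟨p, q, r, hp, hq, -, hpq, -, -⟩ := hI.three l
  by_cases h : p = x
  · refine ⟨q, hq, ?_⟩
    rintro rfl
    exact hpq h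
  · exact ⟨p, hp, h⟩

/-- a point of the line `l` different from `x` and `y` -/
private theorem PPd_third (hI : IsPP I) (l : H) (x y : P) : ∃ z, I z l ∧ z ≠ x ∧ z ≠ y := by
  obtain ⟨p, q, r, hp, hq, hr, hpq, hpr, hqr⟩ := hI.three l
  by_cases h1 : p = x
  · by_cases h2 : q = y
    · refine ⟨r, hr, ?_, ?_⟩
      · rintro rfl
        exact hpr h1
      · rintro rfl
        exact hqr h2
    · refine ⟨q, hq, ?_, h2⟩
      rintro rfl
      exact hpq h1
  · by_cases h2 : p = y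
    · by_cases h3 : q = x
      · refine ⟨r, hr, ?_, ?_⟩
        · rintro rfl
          exact hqr h3
        · rintro rfl
          exact hpr h2
      · refine ⟨q, hq, h3, ?_⟩
        rintro rfl
        exact hpq h2
    · exact ⟨p, hp, h1, h2⟩

theorem el_exists (hM : MP G I) {c p q : P} {l m : H} (hcl : I c l) (hp : ¬ I p l)
    (hq : ¬ I q l) (hcm : I c m) (hpm : I p m) (hqm : I q m) :
    ∃ g : G, g ∈ El G I c l ∧ g • p = q := by
  by_cases hpq : p = q
  · exact ⟨1, (El G I c l).one_mem, by rw [one_smul, hpq]⟩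
  obtain ⟨g, ⟨c', hc', hg⟩, hgp⟩ := hM.mou l p q hp hq
  have hpc : p ≠ c' := PPd_pne hc' hp
  obtain ⟨n, ⟨hn1, hn2⟩, -⟩ := hM.pp.line p c' hpc
  have h1 : g • n = n := hg.2 n hn2
  have h2 : I q n := by
    have h3 := (hM.inc g p n).2 hn1
    rwa [hgp, h1] at h3
  have h3 : n = m := PPd_line hM.pp hpq hn1 h2 hpm hqm
  rw [h3] at hn2
  have h4 : c' = c := PPd_point hM.pp (PPd_ne hpm hp) hn2 hc' hcm hcl
  rw [h4] at hg
  exact ⟨g, hg, hgp⟩

private theorem PPd_comm (hM : MP G I) {l : H} {c d : P} (hcd : c ≠ d) (hc : I c l) (hd : I d l) {g g' : G}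
    (hg : g ∈ El G I c l) (hg' : g' ∈ El G I d l) : g * g' = g' * g := by
  have h1 : g * g' * g⁻¹ ∈ El G I d l := by
    have h := el_conj hM g hg'
    rwa [hg.1 d hd, hg.2 l hc] at h
  have h2 : g' * g⁻¹ * g'⁻¹ ∈ El G I c l := by
    have h := el_conj hM g' ((El G I c l).inv_mem hg)
    rwa [hg'.1 c hc, hg'.2 l hd] at h
  have h3 : g * g' * g⁻¹ * g'⁻¹ ∈ El G I d l := (El G I d l).mul_mem h1 ((El G I d l).inv_mem hg')
  have h4 : g * g' * g⁻¹ * g'⁻¹ ∈ El G I c l := by
    have h := (El G I c l).mul_mem hg h2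
    have h5 : g * (g' * g⁻¹ * g'⁻¹) = g * g' * g⁻¹ * g'⁻¹ := by group
    rwa [h5] at h
  have h5 := el_center hM h4 h3 hcd
  have h6 : g * g' * g⁻¹ = g' := mul_inv_eq_one.1 h5
  rwa [mul_inv_eq_iff_eq_mul] at h6

theorem tr_comm (hM : MP G I) {l : H} {g g' : G} (hg : g ∈ Tr G I l) (hg' : g' ∈ Tr G I l) :
    g * g' = g' * g := by
  obtain ⟨c, hc, hg⟩ := hg
  obtain ⟨d, hd, hg'⟩ := hg'
  by_cases hcd : c = d
  · subst hcd
    obtain ⟨d, hd', hdc⟩ := PPd_other hM.pp l c
    obtain ⟨p, hp⟩ := hM.pp.off l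
    have hpd : p ≠ d := PPd_pne hd' hp
    obtain ⟨n, ⟨hn1, hn2⟩, -⟩ := hM.pp.line p d hpd
    obtain ⟨q, hqn, hqp, hqd⟩ := PPd_third hM.pp n p d
    have hnl : n ≠ l := PPd_ne hn1 hp
    have hql : ¬ I q l := fun h => hqd (PPd_point hM.pp hnl hqn h hn2 hd')
    obtain ⟨k, hk, hkp⟩ := el_exists hM hd' hp hql hn2 hn1 hqn
    have hk1 : k ≠ 1 := by
      rintro rfl
      rw [one_smul] at hkp
      exact hqp hkp.symm
    have h1 : g * k = k * g := PPd_comm hM hdc.symm hc hd' hg hk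
    obtain ⟨e, he, hkg⟩ := tr_mul hM (l := l) ⟨d, hd', hk⟩ ⟨c, hc, hg'⟩
    have hec : c ≠ e := by
      rintro rfl
      apply hk1
      refine el_center hM (c := c) (d := d) ?_ hk hdc.symm
      have h := (El G I c l).mul_mem hkg ((El G I c l).inv_mem hg')
      rwa [mul_inv_cancel_right] at h
    have h2 : g * (k * g') = (k * g') * g := PPd_comm hM hec hc he hg hkg
    have h3 : k * (g * g') = k * (g' * g) := by
      rw [← mul_assoc, ← h1, mul_assoc, h2, mul_assoc]
    exact mul_left_cancel h3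
  · exact PPd_comm hM hcd hc hd hg hg'

theorem el_dual (c : P) (l : H) : El G (fun (l : H) (p : P) => I p l) l c = El G I c l := by
  ext g
  exact ⟨fun h => ⟨h.2, h.1⟩, fun h => ⟨h.2, h.1⟩⟩

theorem mp_dual (hM : MP G I) : MP G (fun (l : H) (p : P) => I p l) := by
  refine ⟨hM.pp.dual, fun g l p => hM.inc g p l, fun g hg => ?_, fun p l m hl hm => ?_⟩
  · refine hM.faith g fun p => ?_
    obtain ⟨l, m, -, h1, h2, -, h3, -, -⟩ := hM.pp.three' p
    have h4 := (hM.inc g p l).2 h1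
    have h5 := (hM.inc g p m).2 h2
    rw [hg l] at h4
    rw [hg m] at h5
    exact PPd_point hM.pp h3 h4 h5 h1 h2
  · by_cases hlm : l = m
    · obtain ⟨a, -, -, ha, -, -, -, -, -⟩ := hM.pp.three' p
      exact ⟨1, ⟨a, ha, (El G (fun (l : H) (p : P) => I p l) a p).one_mem⟩, by rw [one_smul, hlm]⟩
    obtain ⟨x, ⟨hx1, hx2⟩, -⟩ := hM.pp.point l m hlm
    have hpx : p ≠ x := PPd_pne hx1 hl
    obtain ⟨a, ⟨ha1, ha2⟩, -⟩ := hM.pp.line p x hpx
    obtain ⟨y, hyl, hyx⟩ := PPd_other hM.pp l x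
    have hla : a ≠ l := PPd_ne ha1 hl
    have hma : a ≠ m := PPd_ne ha1 hm
    have hya : ¬ I y a := fun h => hla (PPd_line hM.pp hyx h ha2 hyl hx1)
    have hpy : p ≠ y := PPd_pne hyl hl
    obtain ⟨n, ⟨hn1, hn2⟩, -⟩ := hM.pp.line p y hpy
    have hnm : n ≠ m := PPd_ne hn1 hm
    obtain ⟨y', ⟨hy1, hy2⟩, -⟩ := hM.pp.point n m hnm
    have hy'a : ¬ I y' a := by
      intro h
      have h1 : y' = x := PPd_point hM.pp hma h hy2 ha2 hx2
      rw [h1] at hy1
      have h2 : n = a := PPd_line hM.pp hpx hn1 hy1 ha1 ha2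
      rw [h2] at hn2
      exact hya hn2
    obtain ⟨g, hg, hgy⟩ := el_exists hM ha1 hya hy'a hn1 hn2 hy1
    refine ⟨g, ⟨a, ha1, ?_⟩, ?_⟩
    · rw [el_dual]
      exact hg
    · have hgx : g • x = x := hg.1 x ha2
      have h1 := (hM.inc g x l).2 hx1
      have h2 := (hM.inc g y l).2 hyl
      rw [hgx] at h1
      rw [hgy] at h2
      exact PPd_line hM.pp (PPd_pne ha2 hy'a) h2 h1 hy2 hx2

/-- elations with the same centre commute -/
theorem ce_comm (hM : MP G I) {c : P} {l l' : H} (hl : I c l) (hl' : I c l') {g g' : G}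
    (hg : g ∈ El G I c l) (hg' : g' ∈ El G I c l') : g * g' = g' * g := by
  refine tr_comm (mp_dual hM) (l := c) ⟨l, hl, ?_⟩ ⟨l', hl', ?_⟩
  · rw [el_dual]
    exact hg
  · rw [el_dual]
    exact hg'

end Pool.Agent.PLB
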