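import Pool.Agent.PLB.PtD

set_option autoImplicit false

/-! Theorem PB, section 5: every point has coordinates.

PLAN. `off_ex`: `e 2` and `p` are not on `l 2`; let `r` be the point where the line `e 1, p` meets the line `l 1 = e 0 e 2`
(if `p` is on `l 1` then `r = p`); `r` is not on `l 2`; `el_exists` gives `g ∈ U 0 2` (centre `e 0`, axis `l 2`) with `g e_2 = r`,
and `g' ∈ U 1 2` (centre `e 1`) with `g' r = p`; `g g' = g' g` (`commute_ik_jk`). `off_inj`: `tr_triv` for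
`(xc a' xb b')⁻¹ (xc a xb b) = xc (a - a') xb (b - b') ∈ Tr (l 2)`, so `xc (a - a') = xb (b' - b)` has two centres (`el_center`).
`on_ex`: `p` on `l 2`, `p ≠ e 1`: `el_exists` with centre `e 1`, axis `l 0` (through `e 1, e 2`), `p` and `e 0` not on `l 0`.
`on_inj`: `el_triv`. `ptf_eq`: case distinction on the definition of `ptf`; `rs` does not change the quotients
`u i * (u j)⁻¹`; conversely equal quotients give proportional vectors. `ptf_e`: computation with `Pi.single`. -/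

namespace Pool.Agent.PLB

open Pool.Agent.Helper87.ML Pool.Agent.RIG OrderDual
open scoped commutatorElement

universe u

variable {X : Type u} [Lattice X] [IsModularLattice X] {s : X ≃o X} [PB X s]

section

variable {P H G : Type*} [Group G] [MulAction G P] [MulAction G H] {I : P → H → Prop}

private theorem pta_axis (hM : MP G I) {c : P} {l : H} {g : G} (hg : g ∈ El G I c l) :
    g • l = l :=
  axis_fixed hM.pp (σ := fun p => g • p) (τ := fun m => g • m) (hM.inc g) hg.1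

private theorem pta_on (hM : MP G I) {g : G} {l : H} (hl : g • l = l) (p : P) :
    I (g • p) l ↔ I p l := by
  have h := hM.inc g p l
  rw [hl] at h
  exact h

private theorem pta_line (hM : MP G I) {p q : P} {l m : H} (hpq : p ≠ q) (h1 : I p l)
    (h2 : I q l) (h3 : I p m) (h4 : I q m) : l = m :=
  (hM.pp.line p q hpq).unique ⟨h1, h2⟩ ⟨h3, h4⟩

private theorem pta_off_ex (hM : MP G I) (F : Frame I) {p : P} (hp : ¬ I p (F.l 2)) :
    ∃ a b : G, a ∈ U G F 0 2 ∧ b ∈ U G F 1 2 ∧ p = a • b • F.e 2 := by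
  have h10 : (1 : Fin 3) ≠ 0 := by decide
  have h12 : (1 : Fin 3) ≠ 2 := by decide
  have h01 : (0 : Fin 3) ≠ 1 := by decide
  have h02 : (0 : Fin 3) ≠ 2 := by decide
  have h21 : (2 : Fin 3) ≠ 1 := by decide
  have i12 : I (F.e 1) (F.l 2) := (F.inc 1 2).2 h12
  have i11 : ¬ I (F.e 1) (F.l 1) := fun h => (F.inc 1 1).1 h rfl
  have i22 : ¬ I (F.e 2) (F.l 2) := fun h => (F.inc 2 2).1 h rfl
  have hpe : F.e 1 ≠ p := by
    rintro rfl
    exact hp i12
  obtain ⟨m, ⟨hm1, hm2⟩, -⟩ := hM.pp.line _ _ hpe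
  have hml : m ≠ F.l 1 := by
    rintro rfl
    exact i11 hm1
  obtain ⟨r, ⟨hr1, hr2⟩, -⟩ := hM.pp.point _ _ hml
  have hrl : ¬ I r (F.l 2) := by
    intro h
    by_cases hre : r = F.e 1
    · rw [hre] at hr2
      exact i11 hr2
    · have h1 := pta_line hM hre hr1 hm1 h i12
      rw [h1] at hm2
      exact hp hm2
  obtain ⟨a, ha, hae⟩ := el_exists hM ((F.inc 0 2).2 h02) i22 hrl ((F.inc 0 1).2 h01)
    ((F.inc 2 1).2 h21) hr2
  obtain ⟨b, hb, hbe⟩ := el_exists hM i12 hrl hp hm1 hr1 hm2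
  refine ⟨a, b, ha, hb, ?_⟩
  have hc : a * b = b * a := commute_ik_jk hM F h01 h12 h02 ha hb
  rw [← mul_smul, hc, mul_smul, hae, hbe]

private theorem pta_off_inj (hM : MP G I) (F : Frame I) {a b a' b' : G} (ha : a ∈ U G F 0 2)
    (hb : b ∈ U G F 1 2) (ha' : a' ∈ U G F 0 2) (hb' : b' ∈ U G F 1 2)
    (h : a • b • F.e 2 = a' • b' • F.e 2) : a'⁻¹ * a = 1 ∧ b' * b⁻¹ = 1 := by
  have h12 : (1 : Fin 3) ≠ 2 := by decide
  have h01 : (0 : Fin 3) ≠ 1 := by decide
  have h02 : (0 : Fin 3) ≠ 2 := by decide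
  have i12 : I (F.e 1) (F.l 2) := (F.inc 1 2).2 h12
  have i02 : I (F.e 0) (F.l 2) := (F.inc 0 2).2 h02
  have i11 : ¬ I (F.e 1) (F.l 1) := fun h => (F.inc 1 1).1 h rfl
  have i22 : ¬ I (F.e 2) (F.l 2) := fun h => (F.inc 2 2).1 h rfl
  have he : F.e 0 ≠ F.e 1 := by
    intro h1
    apply i11
    rw [← h1]
    exact (F.inc 0 1).2 h01
  have h1 : (a' * b')⁻¹ * (a * b) ∈ Tr G I (F.l 2) :=
    tr_mul hM (tr_inv (tr_mul hM ⟨_, i02, ha'⟩ ⟨_, i12, hb'⟩)) (tr_mul hM ⟨_, i02, ha⟩ ⟨_, i12, hb⟩)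
  have h2 : ((a' * b')⁻¹ * (a * b)) • F.e 2 = F.e 2 := by
    rw [mul_smul, inv_smul_eq_iff, mul_smul, mul_smul, h]
  have h3 := tr_triv hM h1 i22 h2
  have h4 : a' * b' = a * b := inv_mul_eq_one.1 h3
  have h5 : a'⁻¹ * a = b' * b⁻¹ := by
    rw [eq_mul_inv_iff_mul_eq, mul_assoc, ← h4, inv_mul_cancel_left]
  have h6 : a'⁻¹ * a ∈ El G I (F.e 0) (F.l 2) := mul_mem (inv_mem ha') ha
  have h7 : a'⁻¹ * a ∈ El G I (F.e 1) (F.l 2) := by
    rw [h5]
    exact mul_mem hb' (inv_mem hb)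
  have h8 := el_center hM h6 h7 he
  exact ⟨h8, by rw [← h5, h8]⟩

private theorem pta_on_ex (hM : MP G I) (F : Frame I) {p : P} (hp : I p (F.l 2)) :
    p = F.e 1 ∨ ∃ g ∈ U G F 1 0, p = g • F.e 0 := by
  have h10 : (1 : Fin 3) ≠ 0 := by decide
  have h12 : (1 : Fin 3) ≠ 2 := by decide
  have h02 : (0 : Fin 3) ≠ 2 := by decide
  have i12 : I (F.e 1) (F.l 2) := (F.inc 1 2).2 h12
  have i10 : I (F.e 1) (F.l 0) := (F.inc 1 0).2 h10
  have i02 : I (F.e 0) (F.l 2) := (F.inc 0 2).2 h02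
  have i00 : ¬ I (F.e 0) (F.l 0) := fun h => (F.inc 0 0).1 h rfl
  by_cases hpe : p = F.e 1
  · exact Or.inl hpe
  · right
    have hp0 : ¬ I p (F.l 0) := by
      intro h
      have h1 := pta_line hM hpe h i10 hp i12
      rw [h1] at i00
      exact i00 i02
    obtain ⟨g, hg, hge⟩ := el_exists hM i10 i00 hp0 i12 i02 hp
    exact ⟨g, hg, hge.symm⟩

end

section

variable {o : X} {F : Frame (Inc (s := s))} {K : Type u} [DivisionRing K]
  {V : ℤ → AddSubgroup K} {xa xb xc x10 : K → Gp X} (hC : CR o F K V xa xb xc)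
  (hD : C10 F K xb xc x10)
include hC

theorem off_ex {p : Pt s} (hp : ¬ Inc p (F.l 2)) : ∃ a b, p = xc a • xb b • F.e 2 := by
  have : Nonempty X := ⟨o⟩
  obtain ⟨g, g', hg, hg', h⟩ := pta_off_ex (mp (X := X) s) F hp
  obtain ⟨a, rfl⟩ := hC.rd.c_surj g hg
  obtain ⟨b, rfl⟩ := hC.rd.b_surj g' hg'
  exact ⟨a, b, h⟩

omit [IsModularLattice X] in
private theorem pta_c0 : xc 0 = 1 := by
  have h := hC.rd.c_add 0 0
  rw [add_zero] at h
  exact mul_eq_left.1 h.symm

omit [IsModularLattice X] in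
private theorem pta_b0 : xb 0 = 1 := by
  have h := hC.rd.b_add 0 0
  rw [add_zero] at h
  exact mul_eq_left.1 h.symm

omit [IsModularLattice X] in
private theorem pta_cneg (a : K) : xc (-a) = (xc a)⁻¹ := by
  have h := hC.rd.c_add (-a) a
  rw [neg_add_cancel, pta_c0 hC] at h
  exact eq_inv_of_mul_eq_one_left h.symm

omit [IsModularLattice X] in
private theorem pta_bneg (a : K) : xb (-a) = (xb a)⁻¹ := by
  have h := hC.rd.b_add (-a) a
  rw [neg_add_cancel, pta_b0 hC] at h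
  exact eq_inv_of_mul_eq_one_left h.symm

theorem off_inj {a b a' b' : K} (h : xc a • xb b • F.e 2 = xc a' • xb b' • F.e 2) :
    a = a' ∧ b = b' := by
  have : Nonempty X := ⟨o⟩
  obtain ⟨h1, h2⟩ := pta_off_inj (mp (X := X) s) F (hC.rd.c_mem a) (hC.rd.b_mem b)
    (hC.rd.c_mem a') (hC.rd.b_mem b') h
  rw [← pta_cneg hC, ← hC.rd.c_add] at h1
  rw [← pta_bneg hC, ← hC.rd.b_add] at h2
  exact ⟨(neg_add_eq_zero.1 (hC.rd.c_inj _ h1)).symm, (add_neg_eq_zero.1 (hC.rd.b_inj _ h2)).symm⟩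

theorem off_not (a b : K) : ¬ Inc (xc a • xb b • F.e 2) (F.l 2) := by
  have : Nonempty X := ⟨o⟩
  have hM := mp (X := X) s
  intro h
  rw [pta_on hM (pta_axis hM (hC.rd.c_mem a)), pta_on hM (pta_axis hM (hC.rd.b_mem b))] at h
  exact (F.inc 2 2).1 h rfl

include hD

theorem on_ex {p : Pt s} (hp : Inc p (F.l 2)) : p = F.e 1 ∨ ∃ m, p = x10 m • F.e 0 := by
  have : Nonempty X := ⟨o⟩
  rcases pta_on_ex (mp (X := X) s) F hp with h | ⟨g, hg, h⟩
  · exact Or.inl h
  · right
    obtain ⟨m, rfl⟩ := hD.surj g hg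
    exact ⟨m, h⟩

omit hC in
private theorem pta_x0 : x10 0 = 1 := by
  have h := hD.add 0 0
  rw [add_zero] at h
  exact mul_eq_left.1 h.symm

omit hC in
private theorem pta_xneg (a : K) : x10 (-a) = (x10 a)⁻¹ := by
  have h := hD.add (-a) a
  rw [neg_add_cancel, pta_x0 hD] at h
  exact eq_inv_of_mul_eq_one_left h.symm

omit hC hD in
private theorem pta_ne : F.e 0 ≠ F.e 1 := by
  intro h1
  have i01 : Inc (F.e 0) (F.l 1) := (F.inc 0 1).2 (by decide)
  rw [h1] at i01
  exact (F.inc 1 1).1 i01 rfl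

theorem on_inj {m m' : K} (h : x10 m • F.e 0 = x10 m' • F.e 0) : m = m' := by
  have : Nonempty X := ⟨o⟩
  have hM := mp (X := X) s
  have h1 : (x10 m')⁻¹ * x10 m ∈ El (Gp X) (Inc (s := s)) (F.e 1) (F.l 0) :=
    mul_mem (inv_mem (hD.mem m')) (hD.mem m)
  have h2 : ((x10 m')⁻¹ * x10 m) • F.e 0 = F.e 0 := by
    rw [mul_smul, inv_smul_eq_iff, h]
  have h3 := el_triv hM h1 (fun h => (F.inc 0 0).1 h rfl) pta_ne h2
  rw [← pta_xneg hD, ← hD.add] at h3
  exact (neg_add_eq_zero.1 (hD.inj _ h3)).symm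

theorem on_ne (m : K) : x10 m • F.e 0 ≠ F.e 1 := by
  intro h
  have h1 : x10 m • F.e 1 = F.e 1 := (hD.mem m).1 _ ((F.inc 1 0).2 (by decide))
  rw [← h1] at h
  exact pta_ne (MulAction.injective (x10 m) h)

theorem on_inc (m : K) : Inc (x10 m • F.e 0) (F.l 2) := by
  have : Nonempty X := ⟨o⟩
  have h1 : x10 m • F.l 2 = F.l 2 := (hD.mem m).2 _ ((F.inc 1 2).2 (by decide))
  exact (pta_on (mp (X := X) s) h1 (F.e 0)).2 ((F.inc 0 2).2 (by decide))

theorem ptf_surj (p : Pt s) : ∃ u, u ≠ 0 ∧ ptf F xb xc x10 u = p := by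
  by_cases hp : Inc p (F.l 2)
  · rcases on_ex hC hD hp with h | ⟨m, h⟩
    · refine ⟨![0, 1, 0], fun h0 => ?_, ?_⟩
      · have h1 := congrFun h0 1
        simp at h1
      · rw [h]
        unfold ptf
        rw [if_neg (by simp), if_neg (by simp)]
    · refine ⟨![1, m, 0], fun h0 => ?_, ?_⟩
      · have h1 := congrFun h0 0
        simp at h1
      · rw [h]
        unfold ptf
        rw [if_neg (by simp), if_pos (by simp)]
        simp
  · obtain ⟨a, b, h⟩ := off_ex hC hp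
    refine ⟨![a, b, 1], fun h0 => ?_, ?_⟩
    · have h1 := congrFun h0 2
      simp at h1
    · rw [h]
      unfold ptf
      rw [if_pos (by simp)]
      simp

theorem ptf_eq (u v : Fin 3 → K) (hu : u ≠ 0) (hv : v ≠ 0) :
    ptf F xb xc x10 u = ptf F xb xc x10 v ↔ ∃ a, a ≠ 0 ∧ v = rs u a := by
  have i12 : Inc (F.e 1) (F.l 2) := (F.inc 1 2).2 (by decide)
  constructor
  · intro h
    by_cases u2 : u 2 = 0
    · have v2 : v 2 = 0 := by
        by_contra v2
        unfold ptf at h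
        rw [if_neg (not_not.2 u2), if_pos v2] at h
        apply off_not hC (v 0 * (v 2)⁻¹) (v 1 * (v 2)⁻¹)
        rw [← h]
        split_ifs with u0
        · exact on_inc hC hD _
        · exact i12
      unfold ptf at h
      rw [if_neg (not_not.2 u2), if_neg (not_not.2 v2)] at h
      by_cases u0 : u 0 = 0
      · rw [if_neg (not_not.2 u0)] at h
        have v0 : v 0 = 0 := by
          by_contra v0
          rw [if_pos v0] at h
          exact on_ne hC hD _ h.symm
        have u1 : u 1 ≠ 0 := by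
          intro u1
          apply hu
          funext i
          fin_cases i
          · exact u0
          · exact u1
          · exact u2
        have v1 : v 1 ≠ 0 := by
          intro v1
          apply hv
          funext i
          fin_cases i
          · exact v0
          · exact v1
          · exact v2
        refine ⟨(u 1)⁻¹ * v 1, mul_ne_zero (inv_ne_zero u1) v1, ?_⟩
        funext i
        fin_cases i
        · show v 0 = u 0 * ((u 1)⁻¹ * v 1)
          rw [u0, v0, zero_mul]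
        · show v 1 = u 1 * ((u 1)⁻¹ * v 1)
          rw [mul_inv_cancel_left₀ u1]
        · show v 2 = u 2 * ((u 1)⁻¹ * v 1)
          rw [u2, v2, zero_mul]
      · rw [if_pos u0] at h
        have v0 : v 0 ≠ 0 := by
          intro v0
          rw [if_neg (not_not.2 v0)] at h
          exact on_ne hC hD _ h
        rw [if_pos v0] at h
        have h3 := on_inj hC hD h
        refine ⟨(u 0)⁻¹ * v 0, mul_ne_zero (inv_ne_zero u0) v0, ?_⟩
        funext i
        fin_cases i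
        · show v 0 = u 0 * ((u 0)⁻¹ * v 0)
          rw [mul_inv_cancel_left₀ u0]
        · show v 1 = u 1 * ((u 0)⁻¹ * v 0)
          rw [← mul_assoc, h3, inv_mul_cancel_right₀ v0]
        · show v 2 = u 2 * ((u 0)⁻¹ * v 0)
          rw [u2, v2, zero_mul]
    · have v2 : v 2 ≠ 0 := by
        intro v2
        unfold ptf at h
        rw [if_pos u2, if_neg (not_not.2 v2)] at h
        apply off_not hC (u 0 * (u 2)⁻¹) (u 1 * (u 2)⁻¹)
        rw [h]
        split_ifs with v0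
        · exact on_inc hC hD _
        · exact i12
      unfold ptf at h
      rw [if_pos u2, if_pos v2] at h
      obtain ⟨h3, h4⟩ := off_inj hC h
      refine ⟨(u 2)⁻¹ * v 2, mul_ne_zero (inv_ne_zero u2) v2, ?_⟩
      funext i
      fin_cases i
      · show v 0 = u 0 * ((u 2)⁻¹ * v 2)
        rw [← mul_assoc, h3, inv_mul_cancel_right₀ v2]
      · show v 1 = u 1 * ((u 2)⁻¹ * v 2)
        rw [← mul_assoc, h4, inv_mul_cancel_right₀ v2]
      · show v 2 = u 2 * ((u 2)⁻¹ * v 2)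
        rw [mul_inv_cancel_left₀ u2]
  · rintro ⟨a, ha, rfl⟩
    have key : ∀ i j, rs u a i * (rs u a j)⁻¹ = u i * (u j)⁻¹ := by
      intro i j
      show u i * a * (u j * a)⁻¹ = u i * (u j)⁻¹
      rw [mul_inv_rev, mul_assoc, mul_inv_cancel_left₀ ha]
    have key2 : ∀ i, rs u a i = 0 ↔ u i = 0 := by
      intro i
      show u i * a = 0 ↔ u i = 0
      rw [mul_eq_zero]
      exact ⟨fun h => h.resolve_right ha, fun h => Or.inl h⟩
    unfold ptf
    by_cases u2 : u 2 = 0
    · rw [if_neg (not_not.2 u2), if_neg (not_not.2 ((key2 2).2 u2))]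
      by_cases u0 : u 0 = 0
      · rw [if_neg (not_not.2 u0), if_neg (not_not.2 ((key2 0).2 u0))]
      · rw [if_pos u0, if_pos (fun h => u0 ((key2 0).1 h)), key]
    · rw [if_pos u2, if_pos (fun h => u2 ((key2 2).1 h)), key, key]

theorem ptf_e (i : Fin 3) : ptf F xb xc x10 (ev i) = F.e i := by
  unfold ptf ev
  fin_cases i
  · simp [pta_x0 hD]
  · simp
  · simp [pta_c0 hC, pta_b0 hC]

theorem ptf_l2 (u : Fin 3 → K) (hu : u ≠ 0) : Inc (ptf F xb xc x10 u) (F.l 2) ↔ u 2 = 0 := by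
  unfold ptf
  split_ifs with h1 h2
  · exact ⟨fun h => absurd h (off_not hC _ _), fun h => absurd h h1⟩
  · exact ⟨fun _ => not_not.1 h1, fun _ => on_inc hC hD _⟩
  · exact ⟨fun _ => not_not.1 h1, fun _ => (F.inc 1 2).2 (by decide)⟩

end

end Pool.Agent.PLB
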