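import Pool.Agent.PLB.PtA

set_option autoImplicit false

/-! Theorem PB, section 5: equations of lines.

PLAN. Let `m, k : K`, `p = x10 m • e 0` (on `l 2`). Conjugating `U 0 2` by `x10 m` : `El p (l 2) = {xc a xb (m a)}` (`el_conj`,
`x10 m xc a (x10 m)⁻¹ = ⁅x10 m, xc a⁆ xc a = xb (m a) xc a`). The line through `p` and `q = xb k • e 2` is mapped to itself by
these elements, which act transitively on its points off `l 2` (`el_exists`), so the points off `l 2` of this line are the
`xc a • xb (m a + k) • e 2` (`line_slope`). Lines through `e 1`: `El (e 1) (l 2) = U 1 2 = {xb b}`, so the points off `l 2` of the line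
through `e 1` and `xc c • e 2` are the `xc c • xb b • e 2` (`line_vert`). Every line `≠ l 2` meets `l 2` in exactly one point
(`isPP`) and is of one of these two kinds. `ex_ln`: `φ = (φ 0, φ 1, φ 2)`: `φ 1 ≠ 0`: slope `m = - φ 1⁻¹ φ 0`,
`k = - φ 1⁻¹ φ 2`; `φ 1 = 0`, `φ 0 ≠ 0`: vertical with `c = - φ 0⁻¹ φ 2`; `φ 0 = φ 1 = 0`: `l 2` (`ptf_l2`).
`ln_ex'`: conversely every line has such a row. -/

namespace Pool.Agent.PLB

open Pool.Agent.Helper87.ML Pool.Agent.RIG OrderDual
open scoped commutatorElement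

universe u

variable {X : Type u} [Lattice X] [IsModularLattice X] {s : X ≃o X} [PB X s]

section

variable {P H G : Type*} [Group G] [MulAction G P] [MulAction G H] {I : P → H → Prop}

private theorem ptb_line (hM : MP G I) {p q : P} {l m : H} (hpq : p ≠ q) (h1 : I p l)
    (h2 : I q l) (h3 : I p m) (h4 : I q m) : l = m :=
  (hM.pp.line p q hpq).unique ⟨h1, h2⟩ ⟨h3, h4⟩

private theorem ptb_point (hM : MP G I) {p q : P} {l m : H} (hlm : l ≠ m) (h1 : I p l)
    (h2 : I p m) (h3 : I q l) (h4 : I q m) : p = q :=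
  (hM.pp.point l m hlm).unique ⟨h1, h2⟩ ⟨h3, h4⟩

private theorem ptb_inv (hM : MP G I) (g : G) (p : P) (l : H) : I p (g • l) ↔ I (g⁻¹ • p) l := by
  rw [← hM.inc g (g⁻¹ • p) l, smul_inv_smul]

private theorem ptb_fix (hM : MP G I) {g : G} {l : H} (hl : g • l = l) (p : P) :
    I (g • p) l ↔ I p l := by
  have h := hM.inc g p l
  rw [hl] at h
  exact h

/-- an elation which maps a point of `k` off its axis to a point of `k` -/
private theorem ptb_triv (hM : MP G I) {c r : P} {l k : H} {g : G} (hg : g ∈ El G I c l)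
    (hc : I c l) (hck : ¬ I c k) (hr : ¬ I r l) (hrk : I r k) (h : I (g • r) k) : g = 1 := by
  have hrc : r ≠ c := by
    rintro rfl
    exact hr hc
  obtain ⟨m, ⟨hm1, hm2⟩, -⟩ := hM.pp.line r c hrc
  have hmk : m ≠ k := by
    rintro rfl
    exact hck hm2
  have h1 : I (g • r) m := by
    have h2 := (hM.inc g r m).2 hm1
    rwa [hg.2 m hm2] at h2
  exact el_triv hM hg hr hrc (ptb_point hM hmk h1 h hm1 hrk)

/-- every line different from `l` has a point off `l` -/
private theorem ptb_off (hM : MP G I) {l m : H} (h : l ≠ m) : ∃ q, I q l ∧ ¬ I q m := by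
  obtain ⟨p, q, r, hp, hq, -, hpq, -, -⟩ := hM.pp.three l
  by_cases h1 : I p m
  · refine ⟨q, hq, fun h2 => h ?_⟩
    exact ptb_line hM hpq hp hq h1 h2
  · exact ⟨p, hp, h1⟩

end

section

variable {o : X} {F : Frame (Inc (s := s))} {K : Type u} [DivisionRing K]
  {V : ℤ → AddSubgroup K} {xa xb xc x10 : K → Gp X} (hC : CR o F K V xa xb xc)
  (hD : C10 F K xb xc x10)
include hC

omit [IsModularLattice X] in
private theorem ptb_c0 : xc 0 = 1 := by
  have h := hC.rd.c_add 0 0
  rw [add_zero] at h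
  exact mul_eq_left.1 h.symm

omit [IsModularLattice X] in
private theorem ptb_b0 : xb 0 = 1 := by
  have h := hC.rd.b_add 0 0
  rw [add_zero] at h
  exact mul_eq_left.1 h.symm

omit [IsModularLattice X] in
private theorem ptb_cneg (a : K) : xc (-a) = (xc a)⁻¹ := by
  have h := hC.rd.c_add (-a) a
  rw [neg_add_cancel, ptb_c0 hC] at h
  exact eq_inv_of_mul_eq_one_left h.symm

omit [IsModularLattice X] in
private theorem ptb_bneg (a : K) : xb (-a) = (xb a)⁻¹ := by
  have h := hC.rd.b_add (-a) a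
  rw [neg_add_cancel, ptb_b0 hC] at h
  exact eq_inv_of_mul_eq_one_left h.symm

theorem line_vert (c : K) : ∃ l : Ln s, Inc (F.e 1) l ∧
    ∀ a b, Inc (xc a • xb b • F.e 2) l ↔ a = c := by
  have : Nonempty X := ⟨o⟩
  have hM := mp (X := X) s
  have i12 : Inc (F.e 1) (F.l 2) := (F.inc 1 2).2 (by decide)
  have i10 : Inc (F.e 1) (F.l 0) := (F.inc 1 0).2 (by decide)
  have i20 : Inc (F.e 2) (F.l 0) := (F.inc 2 0).2 (by decide)
  have i02 : Inc (F.e 0) (F.l 2) := (F.inc 0 2).2 (by decide)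
  have i00 : ¬ Inc (F.e 0) (F.l 0) := fun h => (F.inc 0 0).1 h rfl
  refine ⟨xc c • F.l 0, ?_, fun a b => ?_⟩
  · rw [ptb_inv hM, ← ptb_cneg hC, (hC.rd.c_mem (-c)).1 _ i12]
    exact i10
  · rw [ptb_inv hM, ← ptb_cneg hC, ← mul_smul, ← hC.rd.c_add]
    have h1 : Inc (xb b • F.e 2) (F.l 0) :=
      (ptb_fix hM ((hC.rd.b_mem b).2 _ i10) (F.e 2)).2 i20
    have h2 : ¬ Inc (xb b • F.e 2) (F.l 2) := by
      have h3 := off_not hC 0 b
      rwa [ptb_c0 hC, one_smul] at h3
    constructor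
    · intro h
      have h3 := ptb_triv hM (hC.rd.c_mem (-c + a)) i02 i00 h2 h1 h
      exact (neg_add_eq_zero.1 (hC.rd.c_inj _ h3)).symm
    · rintro rfl
      rw [neg_add_cancel, ptb_c0 hC, one_smul]
      exact h1

include hD

omit hC in
private theorem ptb_x0 : x10 0 = 1 := by
  have h := hD.add 0 0
  rw [add_zero] at h
  exact mul_eq_left.1 h.symm

omit hC in
private theorem ptb_xneg (a : K) : x10 (-a) = (x10 a)⁻¹ := by
  have h := hD.add (-a) a
  rw [neg_add_cancel, ptb_x0 hD] at h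
  exact eq_inv_of_mul_eq_one_left h.symm

private theorem ptb_key (m k a b : K) : x10 (-m) • xb (-k) • xc a • xb b • F.e 2 =
    xc a • xb (b - (m * a + k)) • F.e 2 := by
  have : Nonempty X := ⟨o⟩
  have hM := mp (X := X) s
  have h01 : (0 : Fin 3) ≠ 1 := by decide
  have h10 : (1 : Fin 3) ≠ 0 := by decide
  have h12 : (1 : Fin 3) ≠ 2 := by decide
  have h02 : (0 : Fin 3) ≠ 2 := by decide
  have hcb : ∀ b, xc a * xb b = xb b * xc a := fun b =>
    commute_ik_jk hM F h01 h12 h02 (hC.rd.c_mem a) (hC.rd.b_mem b)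
  have hxb : ∀ b, x10 (-m) * xb b = xb b * x10 (-m) := fun b =>
    commute_ij_ik hM F h10 h02 h12 (hD.mem (-m)) (hC.rd.b_mem b)
  have he : x10 (-m) • F.e 2 = F.e 2 := (hD.mem (-m)).1 _ ((F.inc 2 0).2 (by decide))
  have hc : x10 (-m) * xc a = xb (-m * a) * xc a * x10 (-m) := by
    rw [← hD.comm, commutatorElement_def]
    group
  have e1 : x10 (-m) * xb (-k) * xc a * xb b = xc a * xb (b - (m * a + k)) * x10 (-m) := by
    calc x10 (-m) * xb (-k) * xc a * xb b = x10 (-m) * (xb (-k) * xc a) * xb b := by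
          rw [mul_assoc (x10 (-m))]
      _ = x10 (-m) * (xc a * xb (-k)) * xb b := by rw [← hcb]
      _ = x10 (-m) * xc a * (xb (-k) * xb b) := by
          rw [← mul_assoc, mul_assoc (x10 (-m) * xc a)]
      _ = xb (-m * a) * xc a * (x10 (-m) * xb (-k + b)) := by
          rw [← hC.rd.b_add, hc, mul_assoc _ (x10 (-m))]
      _ = xc a * (xb (-m * a) * xb (-k + b)) * x10 (-m) := by
          rw [hxb, ← hcb, ← mul_assoc, mul_assoc (xc a)]
      _ = xc a * xb (b - (m * a + k)) * x10 (-m) := by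
          rw [← hC.rd.b_add]
          congr 3
          rw [neg_mul]
          abel
  have e2 := congrArg (fun g => g • F.e 2) e1
  simp only [mul_smul, he] at e2
  exact e2

theorem line_slope (m k : K) : ∃ l : Ln s, Inc (x10 m • F.e 0) l ∧
    ∀ a b, Inc (xc a • xb b • F.e 2) l ↔ b = m * a + k := by
  have : Nonempty X := ⟨o⟩
  have hM := mp (X := X) s
  have i01 : Inc (F.e 0) (F.l 1) := (F.inc 0 1).2 (by decide)
  have i21 : Inc (F.e 2) (F.l 1) := (F.inc 2 1).2 (by decide)
  have i12 : Inc (F.e 1) (F.l 2) := (F.inc 1 2).2 (by decide)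
  have i22 : ¬ Inc (F.e 2) (F.l 2) := fun h => (F.inc 2 2).1 h rfl
  have i11 : ¬ Inc (F.e 1) (F.l 1) := fun h => (F.inc 1 1).1 h rfl
  refine ⟨xb k • x10 m • F.l 1, ?_, fun a b => ?_⟩
  · rw [ptb_inv hM, ← ptb_bneg hC, (hC.rd.b_mem (-k)).1 _ (on_inc hC hD m), hM.inc]
    exact i01
  · rw [ptb_inv hM, ptb_inv hM, ← ptb_bneg hC, ← ptb_xneg hD, ptb_key hC hD,
      ptb_fix hM ((hC.rd.c_mem a).2 _ i01)]
    constructor
    · intro h
      have h3 := ptb_triv hM (hC.rd.b_mem _) i12 i11 i22 i21 h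
      exact sub_eq_zero.1 (hC.rd.b_inj _ h3)
    · intro h
      rw [sub_eq_zero.2 h, ptb_b0 hC, one_smul]
      exact i21

private theorem ptb_slope {m k : K} {l : Ln s} (h0 : Inc (x10 m • F.e 0) l)
    (h : ∀ a b, Inc (xc a • xb b • F.e 2) l ↔ b = m * a + k) (u : Fin 3 → K) (hu : u ≠ 0) :
    Inc (ptf F xb xc x10 u) l ↔ u 1 = m * u 0 + k * u 2 := by
  have : Nonempty X := ⟨o⟩
  have hM := mp (X := X) s
  have hl : l ≠ F.l 2 := by
    rintro rfl
    exact off_not hC 0 k ((h 0 k).2 (by rw [mul_zero, zero_add]))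
  have hp : ∀ p : Pt s, Inc p (F.l 2) → (Inc p l ↔ p = x10 m • F.e 0) := by
    intro p hp
    constructor
    · intro h1
      exact ptb_point hM hl h1 hp h0 (on_inc hC hD m)
    · rintro rfl
      exact h0
  unfold ptf
  split_ifs with u2 u0
  · rw [h, ← mul_assoc]
    constructor
    · intro h1
      have h2 := congrArg (fun z => z * u 2) h1
      simp only [add_mul] at h2
      rwa [inv_mul_cancel_right₀ u2, inv_mul_cancel_right₀ u2] at h2
    · intro h1
      rw [h1, add_mul, mul_inv_cancel_right₀ u2]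
  · have u2' := not_not.1 u2
    rw [hp _ (on_inc hC hD _), u2', mul_zero, add_zero]
    constructor
    · intro h1
      rw [← on_inj hC hD h1, inv_mul_cancel_right₀ u0]
    · intro h1
      rw [h1, mul_inv_cancel_right₀ u0]
  · have u2' := not_not.1 u2
    have u0' := not_not.1 u0
    rw [hp _ ((F.inc 1 2).2 (by decide)), u2', u0', mul_zero, mul_zero, add_zero]
    constructor
    · intro h1
      exact absurd h1.symm (on_ne hC hD m)
    · intro h1
      exfalso
      apply hu
      funext i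
      fin_cases i
      · exact u0'
      · exact h1
      · exact u2'

private theorem ptb_vert {c : K} {l : Ln s} (h0 : Inc (F.e 1) l)
    (h : ∀ a b, Inc (xc a • xb b • F.e 2) l ↔ a = c) (u : Fin 3 → K) :
    Inc (ptf F xb xc x10 u) l ↔ u 0 = c * u 2 := by
  have : Nonempty X := ⟨o⟩
  have hM := mp (X := X) s
  have hl : l ≠ F.l 2 := by
    rintro rfl
    exact off_not hC c 0 ((h c 0).2 rfl)
  have i12 : Inc (F.e 1) (F.l 2) := (F.inc 1 2).2 (by decide)
  have hp : ∀ p : Pt s, Inc p (F.l 2) → (Inc p l ↔ p = F.e 1) := by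
    intro p hp
    constructor
    · intro h1
      exact ptb_point hM hl h1 hp h0 i12
    · rintro rfl
      exact h0
  unfold ptf
  split_ifs with u2 u0
  · rw [h]
    constructor
    · intro h1
      rw [← h1, inv_mul_cancel_right₀ u2]
    · intro h1
      rw [h1, mul_inv_cancel_right₀ u2]
  · have u2' := not_not.1 u2
    rw [hp _ (on_inc hC hD _), u2', mul_zero]
    exact ⟨fun h1 => absurd h1 (on_ne hC hD _), fun h1 => absurd h1 u0⟩
  · have u2' := not_not.1 u2
    have u0' := not_not.1 u0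
    rw [hp _ i12, u2', u0', mul_zero]
    exact ⟨fun _ => rfl, fun _ => rfl⟩

theorem ex_ln (φ : Fin 3 → K) (hφ : φ ≠ 0) :
    ∃ l : Ln s, ∀ u, u ≠ 0 → (Inc (ptf F xb xc x10 u) l ↔ dot φ u = 0) := by
  by_cases h1 : φ 1 = 0
  · by_cases h0 : φ 0 = 0
    · have h2 : φ 2 ≠ 0 := by
        intro h2
        apply hφ
        funext i
        fin_cases i
        · exact h0
        · exact h1
        · exact h2
      refine ⟨F.l 2, fun u hu => ?_⟩
      rw [ptf_l2 hC hD u hu]
      unfold dot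
      rw [h0, h1, zero_mul, zero_mul, zero_add, zero_add, mul_eq_zero]
      exact ⟨fun h => Or.inr h, fun h => h.resolve_left h2⟩
    · obtain ⟨l, hl0, hl⟩ := line_vert hC (-((φ 0)⁻¹ * φ 2))
      refine ⟨l, fun u hu => ?_⟩
      rw [ptb_vert hC hD hl0 hl u]
      have e : dot φ u = φ 0 * (u 0 - -((φ 0)⁻¹ * φ 2) * u 2) := by
        unfold dot
        rw [h1, zero_mul, add_zero, mul_sub, neg_mul, mul_neg, ← mul_assoc, ← mul_assoc,
          mul_inv_cancel₀ h0, one_mul, sub_neg_eq_add]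
      rw [e, mul_eq_zero, sub_eq_zero]
      exact ⟨fun h => Or.inr h, fun h => h.resolve_left h0⟩
  · obtain ⟨l, hl0, hl⟩ := line_slope hC hD (-((φ 1)⁻¹ * φ 0)) (-((φ 1)⁻¹ * φ 2))
    refine ⟨l, fun u hu => ?_⟩
    rw [ptb_slope hC hD hl0 hl u hu]
    have e : dot φ u = φ 1 * (u 1 - (-((φ 1)⁻¹ * φ 0) * u 0 + -((φ 1)⁻¹ * φ 2) * u 2)) := by
      unfold dot
      rw [mul_sub, mul_add, neg_mul, neg_mul, mul_neg, mul_neg, ← mul_assoc, ← mul_assoc,
        ← mul_assoc, ← mul_assoc, mul_inv_cancel₀ h1, one_mul, one_mul]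
      abel
    rw [e, mul_eq_zero, sub_eq_zero]
    exact ⟨fun h => Or.inr h, fun h => h.resolve_left h1⟩

theorem ex_row (l : Ln s) :
    ∃ φ : Fin 3 → K, φ ≠ 0 ∧ ∀ u, u ≠ 0 → (Inc (ptf F xb xc x10 u) l ↔ dot φ u = 0) := by
  have : Nonempty X := ⟨o⟩
  have hM := mp (X := X) s
  by_cases hl : l = F.l 2
  · refine ⟨![0, 0, 1], fun h => ?_, fun u hu => ?_⟩
    · have h1 := congrFun h 2
      simp at h1
    · rw [hl, ptf_l2 hC hD u hu]
      unfold dot
      simp
  · obtain ⟨p, ⟨hp1, hp2⟩, -⟩ := hM.pp.point _ _ hl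
    obtain ⟨q, hq1, hq2⟩ := ptb_off hM hl
    have hpq : p ≠ q := by
      rintro rfl
      exact hq2 hp2
    obtain ⟨a, b, hab⟩ := off_ex hC hq2
    rcases on_ex hC hD hp2 with h | ⟨m, h⟩
    · obtain ⟨l', h0, h1⟩ := line_vert hC a
      have hl' : l' = l := by
        refine ptb_line hM hpq ?_ ?_ hp1 hq1
        · rw [h]
          exact h0
        · rw [hab]
          exact (h1 a b).2 rfl
      refine ⟨![1, 0, -a], fun h => ?_, fun u hu => ?_⟩
      · have h1 := congrFun h 0
        simp at h1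
      · rw [← hl', ptb_vert hC hD h0 h1 u]
        unfold dot
        simp only [Matrix.cons_val_zero, Matrix.cons_val_one, Matrix.cons_val]
        rw [one_mul, zero_mul, add_zero, neg_mul, add_neg_eq_zero]
    · obtain ⟨l', h0, h1⟩ := line_slope hC hD m (b - m * a)
      have hl' : l' = l := by
        refine ptb_line hM hpq ?_ ?_ hp1 hq1
        · rw [h]
          exact h0
        · rw [hab]
          exact (h1 a b).2 (by rw [add_sub_cancel])
      refine ⟨![-m, 1, -(b - m * a)], fun h => ?_, fun u hu => ?_⟩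
      · have h1 := congrFun h 1
        simp at h1
      · rw [← hl', ptb_slope hC hD h0 h1 u hu]
        unfold dot
        simp only [Matrix.cons_val_zero, Matrix.cons_val_one, Matrix.cons_val]
        rw [one_mul, neg_mul, neg_mul, ← sub_eq_zero]
        have e : u 1 - (m * u 0 + (b - m * a) * u 2) =
            -(m * u 0) + u 1 + -((b - m * a) * u 2) := by abel
        rw [e]

end

end Pool.Agent.PLB
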