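import Pool.Agent.PLB.PtA

set_option autoImplicit false

/-! Theorem PB, section 5: the root groups act by matrices. The points off `l 2` are treated by the
commutator relations; a point on `l 2` is determined by any nontrivial elation with this centre and
axis `l 2`. -/

namespace Pool.Agent.PLB

open Pool.Agent.Helper87.ML Pool.Agent.RIG OrderDual
open scoped commutatorElement

universe u

variable {X : Type u} [Lattice X] [IsModularLattice X] {s : X ≃o X} [PB X s]

section

variable {o : X} {F : Frame (Inc (s := s))} {K : Type u} [DivisionRing K]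
  {V : ℤ → AddSubgroup K} {xa xb xc x10 : K → Gp X} (hC : CR o F K V xa xb xc)
  (hD : C10 F K xb xc x10)

private theorem ptc_off (F : Frame (Inc (s := s))) (xb xc x10 : K → Gp X) {w : Fin 3 → K}
    (h : w 2 ≠ 0) :
    ptf F xb xc x10 w = xc (w 0 * (w 2)⁻¹) • xb (w 1 * (w 2)⁻¹) • F.e 2 := by
  unfold ptf
  rw [if_pos h]

private theorem ptc_single_zero {w : Fin 3 → K} (i : Fin 3) {c : K} (h : c = 0) :
    w + Pi.single i c = w := by
  rw [h, Pi.single_zero, add_zero]

include hC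

private theorem ptc_comm_bc (a c : K) : xc c * xb a = xb a * xc c := by
  have : Nonempty X := ⟨o⟩
  have hM : MP (Gp X) (Inc (s := s)) := mp s
  exact commute_ik_jk hM F (i := 0) (j := 1) (k := 2) (by decide) (by decide) (by decide)
    (hC.rd.c_mem c) (hC.rd.b_mem a)

private theorem ptc_comm_ac (a c : K) : xa a * xc c = xc c * xa a := by
  have : Nonempty X := ⟨o⟩
  have hM : MP (Gp X) (Inc (s := s)) := mp s
  exact commute_ij_ik hM F (i := 0) (j := 1) (k := 2) (by decide) (by decide) (by decide)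
    (hC.rd.a_mem a) (hC.rd.c_mem c)

private theorem ptc_comm_ab (a b : K) : xa a * xb b = xc (a * b) * (xb b * xa a) := by
  rw [← hC.rd.comm, commutatorElement_def]
  group

private theorem ptc_c0 : xc 0 = 1 := by
  have h := hC.rd.c_add 0 0
  rw [add_zero] at h
  exact mul_eq_left.1 h.symm

private theorem ptc_b0 : xb 0 = 1 := by
  have h := hC.rd.b_add 0 0
  rw [add_zero] at h
  exact mul_eq_left.1 h.symm

private theorem ptc_ne1 {a b : K} (h : a ≠ 0 ∨ b ≠ 0) : xc a * xb b ≠ 1 := by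
  intro h1
  have : Nonempty X := ⟨o⟩
  have hM : MP (Gp X) (Inc (s := s)) := mp s
  have h2 : xc a = (xb b)⁻¹ := eq_inv_of_mul_eq_one_left h1
  have h3 : xc a ∈ El (Gp X) (Inc (s := s)) (F.e 1) (F.l 2) := by
    rw [h2]
    exact (U (Gp X) F 1 2).inv_mem (hC.rd.b_mem b)
  have h4 : F.e 0 ≠ F.e 1 := by
    intro h5
    have h6 : Inc (F.e 0) (F.l 1) := (F.inc 0 1).2 (by decide)
    rw [h5] at h6
    exact (F.inc 1 1).1 h6 rfl
  have h5 : xc a = 1 := el_center hM (hC.rd.c_mem a) h3 h4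
  rw [h5] at h2
  have h6 : xb b = 1 := by
    rw [← inv_inv (xb b), ← h2, inv_one]
  rcases h with h | h
  · exact h (hC.rd.c_inj a h5)
  · exact h (hC.rd.b_inj b h6)

include hD

theorem act_c (a : K) (w : Fin 3 → K) (hw : w ≠ 0) :
    xc a • ptf F xb xc x10 w = ptf F xb xc x10 (w + Pi.single 0 (a * w 2)) := by
  by_cases h : w 2 = 0
  · rw [ptc_single_zero 0 (by rw [h, mul_zero])]
    exact (hC.rd.c_mem a).1 _ ((ptf_l2 hC hD w hw).2 h)
  · have h0 : (w + Pi.single 0 (a * w 2) : Fin 3 → K) 0 = w 0 + a * w 2 := by simp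
    have h1 : (w + Pi.single 0 (a * w 2) : Fin 3 → K) 1 = w 1 := by simp
    have h2 : (w + Pi.single 0 (a * w 2) : Fin 3 → K) 2 = w 2 := by simp
    have h3 : (w + Pi.single 0 (a * w 2) : Fin 3 → K) 2 ≠ 0 := by rw [h2]; exact h
    rw [ptc_off F xb xc x10 h, ptc_off F xb xc x10 h3, h0, h1, h2, add_mul,
      mul_inv_cancel_right₀ h, add_comm, hC.rd.c_add, mul_smul]

theorem act_b (a : K) (w : Fin 3 → K) (hw : w ≠ 0) :
    xb a • ptf F xb xc x10 w = ptf F xb xc x10 (w + Pi.single 1 (a * w 2)) := by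
  by_cases h : w 2 = 0
  · rw [ptc_single_zero 1 (by rw [h, mul_zero])]
    exact (hC.rd.b_mem a).1 _ ((ptf_l2 hC hD w hw).2 h)
  · have h0 : (w + Pi.single 1 (a * w 2) : Fin 3 → K) 0 = w 0 := by simp
    have h1 : (w + Pi.single 1 (a * w 2) : Fin 3 → K) 1 = w 1 + a * w 2 := by simp
    have h2 : (w + Pi.single 1 (a * w 2) : Fin 3 → K) 2 = w 2 := by simp
    have h3 : (w + Pi.single 1 (a * w 2) : Fin 3 → K) 2 ≠ 0 := by rw [h2]; exact h
    rw [ptc_off F xb xc x10 h, ptc_off F xb xc x10 h3, h0, h1, h2, add_mul,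
      mul_inv_cancel_right₀ h, add_comm (w 1 * (w 2)⁻¹) a, hC.rd.b_add, mul_smul, ← mul_smul (xb a),
      ← ptc_comm_bc hC, mul_smul]

/-- the elations with axis `l 2` and centre `ptf (a, b, 0)` -/
theorem el_two (a b : K) (h : a ≠ 0 ∨ b ≠ 0) :
    xc a * xb b ∈ El (Gp X) (Inc (s := s)) (ptf F xb xc x10 ![a, b, 0]) (F.l 2) := by
  classical
  have : Nonempty X := ⟨o⟩
  have hM : MP (Gp X) (Inc (s := s)) := mp s
  have hp : ptf F xb xc x10 ![a, b, 0] = if a ≠ 0 then x10 (b * a⁻¹) • F.e 0 else F.e 1 := by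
    unfold ptf
    have e2 : (![a, b, 0] : Fin 3 → K) 2 = 0 := rfl
    have e0 : (![a, b, 0] : Fin 3 → K) 0 = a := rfl
    have e1 : (![a, b, 0] : Fin 3 → K) 1 = b := rfl
    rw [e0, e1, e2, if_neg (not_not.2 rfl)]
  by_cases ha : a = 0
  · rw [hp, if_neg (not_not.2 ha), ha, ptc_c0 hC, one_mul]
    exact hC.rd.b_mem b
  · rw [hp, if_pos ha]
    have h1 : x10 (b * a⁻¹) • F.l 2 = F.l 2 :=
      (hD.mem (b * a⁻¹)).2 _ ((F.inc 1 2).2 (by decide))
    have h2 := el_conj hM (x10 (b * a⁻¹)) (hC.rd.c_mem a)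
    rw [h1] at h2
    have h3 : x10 (b * a⁻¹) * xc a * (x10 (b * a⁻¹))⁻¹ = xc a * xb b := by
      have h4 := hD.comm (b * a⁻¹) a
      rw [inv_mul_cancel_right₀ ha, commutatorElement_def] at h4
      rw [ptc_comm_bc hC, ← h4, inv_mul_cancel_right]
    rw [h3] at h2
    exact h2

theorem act_a (a : K) (w : Fin 3 → K) (hw : w ≠ 0) :
    xa a • ptf F xb xc x10 w = ptf F xb xc x10 (w + Pi.single 0 (a * w 1)) := by
  have : Nonempty X := ⟨o⟩
  have hM : MP (Gp X) (Inc (s := s)) := mp s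
  have h0 : (w + Pi.single 0 (a * w 1) : Fin 3 → K) 0 = w 0 + a * w 1 := by simp
  have h1 : (w + Pi.single 0 (a * w 1) : Fin 3 → K) 1 = w 1 := by simp
  have h2 : (w + Pi.single 0 (a * w 1) : Fin 3 → K) 2 = w 2 := by simp
  by_cases h : w 2 = 0
  · have hw' : w 0 ≠ 0 ∨ w 1 ≠ 0 := by
      by_contra hc
      rw [not_or, not_not, not_not] at hc
      apply hw
      funext i
      fin_cases i
      · exact hc.1
      · exact hc.2
      · exact h
    have hw'' : w 0 + a * w 1 ≠ 0 ∨ w 1 ≠ 0 := by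
      by_cases h3 : w 1 = 0
      · left
        rw [h3, mul_zero, add_zero]
        rcases hw' with h4 | h4
        · exact h4
        · exact absurd h3 h4
      · right
        exact h3
    have e1 : w = ![w 0, w 1, 0] := by
      funext i
      fin_cases i
      · rfl
      · rfl
      · exact h
    have e2 : w + Pi.single 0 (a * w 1) = ![w 0 + a * w 1, w 1, 0] := by
      funext i
      fin_cases i
      · exact h0
      · exact h1
      · exact h2.trans h
    have g1 := el_two hC hD (w 0) (w 1) hw'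
    rw [← e1] at g1
    have g2 := el_two hC hD (w 0 + a * w 1) (w 1) hw''
    rw [← e2] at g2
    have g3 := el_conj hM (xa a) g1
    have g4 : xa a • F.l 2 = F.l 2 := (hC.rd.a_mem a).2 _ ((F.inc 0 2).2 (by decide))
    rw [g4] at g3
    have g5 : xa a * (xc (w 0) * xb (w 1)) * (xa a)⁻¹ = xc (w 0 + a * w 1) * xb (w 1) := by
      rw [← mul_assoc, ptc_comm_ac hC, mul_assoc (xc (w 0)), ptc_comm_ab hC, hC.rd.c_add]
      group
    rw [g5] at g3
    by_contra hne
    exact ptc_ne1 hC hw'' (el_center hM g3 g2 hne)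
  · have h3 : (w + Pi.single 0 (a * w 1) : Fin 3 → K) 2 ≠ 0 := by rw [h2]; exact h
    rw [ptc_off F xb xc x10 h, ptc_off F xb xc x10 h3, h0, h1, h2, add_mul]
    have g1 : xa a • F.e 2 = F.e 2 := (hC.rd.a_mem a).1 _ ((F.inc 2 1).2 (by decide))
    rw [← mul_smul (xa a), ptc_comm_ac hC, mul_smul, ← mul_smul (xa a), ptc_comm_ab hC, mul_smul,
      mul_smul, g1, hC.rd.c_add, mul_smul, mul_assoc a]

end

end Pool.Agent.PLB
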