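import Pool.Agent.PLB.CrdB

set_option autoImplicit false

/-! Theorem PB, section 5: definitions of the point with given homogeneous coordinates. -/

namespace Pool.Agent.PLB

open Pool.Agent.Helper87.ML Pool.Agent.RIG OrderDual
open scoped commutatorElement

universe u

section

variable {K : Type u} [DivisionRing K]

/-- `φ(u)` for a row `φ` and a column `u` -/
def dot (φ u : Fin 3 → K) : K := φ 0 * u 0 + φ 1 * u 1 + φ 2 * u 2

/-- columns times scalars -/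
def rs (u : Fin 3 → K) (a : K) : Fin 3 → K := fun i => u i * a

/-- scalars times rows -/
def ls (a : K) (φ : Fin 3 → K) : Fin 3 → K := fun i => a * φ i

/-- unit vectors -/
def ev (i : Fin 3) : Fin 3 → K := Pi.single i 1

end

variable {X : Type u} [Lattice X] [IsModularLattice X] {s : X ≃o X} [PB X s]

open Classical in
/-- the point with homogeneous coordinates `u` -/
noncomputable def ptf {K : Type u} [DivisionRing K] (F : Frame (Inc (s := s)))
    (xb xc x10 : K → Gp X) (u : Fin 3 → K) : Pt s :=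
  if u 2 ≠ 0 then xc (u 0 * (u 2)⁻¹) • xb (u 1 * (u 2)⁻¹) • F.e 2
  else if u 0 ≠ 0 then x10 (u 1 * (u 0)⁻¹) • F.e 0 else F.e 1

/-- homogeneous coordinates of points and lines at infinity: columns for points, rows for lines -/
structure HC (F : Frame (Inc (s := s))) (K : Type u) [DivisionRing K]
    (xa xb xc : K → Gp X) (pt : (Fin 3 → K) → Pt s) (ln : (Fin 3 → K) → Ln s) : Prop where
  inc : ∀ u φ, u ≠ 0 → φ ≠ 0 → (Inc (pt u) (ln φ) ↔ dot φ u = 0)
  pt_surj : ∀ p, ∃ u, u ≠ 0 ∧ pt u = p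
  ln_surj : ∀ l, ∃ φ, φ ≠ 0 ∧ ln φ = l
  pt_eq : ∀ u v, u ≠ 0 → v ≠ 0 → (pt u = pt v ↔ ∃ a, a ≠ 0 ∧ v = rs u a)
  ln_eq : ∀ φ ψ, φ ≠ 0 → ψ ≠ 0 → (ln φ = ln ψ ↔ ∃ a, a ≠ 0 ∧ ψ = ls a φ)
  e : ∀ i, pt (ev i) = F.e i
  l : ∀ i, ln (ev i) = F.l i
  a : ∀ a w, w ≠ 0 → xa a • pt w = pt (w + Pi.single 0 (a * w 1))
  b : ∀ a w, w ≠ 0 → xb a • pt w = pt (w + Pi.single 1 (a * w 2))
  c : ∀ a w, w ≠ 0 → xc a • pt w = pt (w + Pi.single 0 (a * w 2))

end Pool.Agent.PLB
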