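import Pool.Agent.PLB.PtB
import Pool.Agent.PLB.PtC

set_option autoImplicit false

/-! Theorem PB, section 5: homogeneous coordinates of the plane at infinity.

The line with the row `φ` is given by `ex_ln`, the points by `ptf`; the properties of `HC` follow from
the modules PtA, PtB, PtC and the fact that a line is determined by its points. -/

namespace Pool.Agent.PLB

open Pool.Agent.Helper87.ML Pool.Agent.RIG OrderDual
open scoped commutatorElement

universe u

variable {X : Type u} [Lattice X] [IsModularLattice X] {s : X ≃o X} [PB X s]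

private lemma pte_dot {K : Type u} [DivisionRing K] (φ : Fin 3 → K) (i j : Fin 3) (a b : K) :
    dot φ (Pi.single j a + Pi.single i b) = φ j * a + φ i * b := by
  have h : ∀ u : Fin 3 → K, dot φ u = ∑ k, φ k * u k := by
    intro u
    rw [Fin.sum_univ_three, dot]
  rw [h]
  simp only [Pi.add_apply, Pi.single_apply, mul_add, mul_ite, mul_zero, Finset.sum_add_distrib,
    Finset.sum_ite_eq', Finset.mem_univ, if_true]

private lemma pte_ls {K : Type u} [DivisionRing K] (a : K) (φ u : Fin 3 → K) :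
    dot (ls a φ) u = a * dot φ u := by
  simp only [dot, ls, mul_add, mul_assoc]

private lemma pte_ev {K : Type u} [DivisionRing K] (i : Fin 3) : (ev i : Fin 3 → K) ≠ 0 := by
  intro h
  have h1 := congrFun h i
  rw [ev, Pi.single_eq_same, Pi.zero_apply] at h1
  exact one_ne_zero h1

private lemma pte_eve {K : Type u} [DivisionRing K] {i j : Fin 3} (h : j ≠ i) :
    dot (ev i : Fin 3 → K) (ev j) = 0 := by
  have h1 := pte_dot (ev i : Fin 3 → K) i j 1 0
  rw [Pi.single_zero, add_zero, mul_zero, add_zero, mul_one] at h1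
  rw [show (ev j : Fin 3 → K) = Pi.single j 1 from rfl, h1, ev, Pi.single_eq_of_ne h]

private lemma pte_ext [Nonempty X] {l m : Ln s} (h : ∀ p, Inc p l → Inc p m) : l = m := by
  obtain ⟨p, q, r, hp, hq, -, hpq, -⟩ := (isPP s).three l
  exact ((isPP s).line p q hpq).unique ⟨hp, hq⟩ ⟨h p hp, h q hq⟩

theorem row_eq {K : Type u} [DivisionRing K] {φ ψ : Fin 3 → K} (hφ : φ ≠ 0) (hψ : ψ ≠ 0)
    (h : ∀ u : Fin 3 → K, u ≠ 0 → dot φ u = 0 → dot ψ u = 0) : ∃ a, a ≠ 0 ∧ ψ = ls a φ := by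
  obtain ⟨i, hi⟩ : ∃ i, φ i ≠ 0 := by
    by_contra hc
    push Not at hc
    exact hφ (funext hc)
  have key : ∀ j, ψ j = ψ i * (φ i)⁻¹ * φ j := by
    intro j
    by_cases hj : j = i
    · rw [hj, mul_assoc, inv_mul_cancel₀ hi, mul_one]
    have h1 : (Pi.single j 1 + Pi.single i (-((φ i)⁻¹ * φ j)) : Fin 3 → K) ≠ 0 := by
      intro h0
      have h2 := congrFun h0 j
      rw [Pi.add_apply, Pi.single_eq_same, Pi.single_eq_of_ne hj, add_zero, Pi.zero_apply] at h2
      exact one_ne_zero h2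
    have h2 := h _ h1 (by
      rw [pte_dot, mul_one, mul_neg, ← mul_assoc, mul_inv_cancel₀ hi, one_mul, add_neg_cancel])
    rw [pte_dot, mul_one, mul_neg, ← sub_eq_add_neg, sub_eq_zero] at h2
    rw [h2, mul_assoc]
  refine ⟨ψ i * (φ i)⁻¹, fun h0 => hψ (funext fun j => ?_), funext key⟩
  rw [key j, h0, zero_mul, Pi.zero_apply]

theorem exists_hc {o : X} {F : Frame (Inc (s := s))} {K : Type u} [DivisionRing K]
    {V : ℤ → AddSubgroup K} {xa xb xc : K → Gp X} (hC : CR o F K V xa xb xc) :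
    ∃ (pt : (Fin 3 → K) → Pt s) (ln : (Fin 3 → K) → Ln s), HC F K xa xb xc pt ln := by
  have : Nonempty X := ⟨o⟩
  obtain ⟨x10, hD⟩ := exists_x10 hC
  have : Nonempty (Ln s) := ⟨F.l 0⟩
  choose! ln hln using ex_ln hC hD
  have hps := ptf_surj hC hD
  refine ⟨ptf F xb xc x10, ln, ⟨fun u φ hu hφ => hln φ hφ u hu, hps, ?_,
    ptf_eq hC hD, ?_, ptf_e hC hD, ?_, act_a hC hD, act_b hC hD, act_c hC hD⟩⟩
  · intro l
    obtain ⟨φ, hφ, h⟩ := ex_row hC hD l
    refine ⟨φ, hφ, pte_ext fun p hp => ?_⟩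
    obtain ⟨u, hu, rfl⟩ := hps p
    exact (h u hu).2 ((hln φ hφ u hu).1 hp)
  · intro φ ψ hφ hψ
    constructor
    · intro h
      refine row_eq hφ hψ fun u hu h0 => (hln ψ hψ u hu).1 ?_
      rw [← h]
      exact (hln φ hφ u hu).2 h0
    · rintro ⟨a, ha, rfl⟩
      refine pte_ext fun p hp => ?_
      obtain ⟨u, hu, rfl⟩ := hps p
      refine (hln _ hψ u hu).2 ?_
      rw [pte_ls, (hln φ hφ u hu).1 hp, mul_zero]
  · intro i
    have h1 : ∀ j, j ≠ i → Inc (F.e j) (ln (ev i)) := by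
      intro j hj
      rw [← ptf_e hC hD j]
      exact (hln _ (pte_ev i) _ (pte_ev j)).2 (pte_eve hj)
    have h2 : ∀ j, j ≠ i → Inc (F.e j) (F.l i) := fun j hj => (F.inc j i).2 hj
    obtain ⟨j, k, hj, hk, hjk⟩ : ∃ j k : Fin 3, j ≠ i ∧ k ≠ i ∧ j ≠ k := by
      fin_cases i
      · exact ⟨1, 2, by decide, by decide, by decide⟩
      · exact ⟨0, 2, by decide, by decide, by decide⟩
      · exact ⟨0, 1, by decide, by decide, by decide⟩
    have h3 : F.e j ≠ F.e k := by
      intro h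
      have h4 := (F.inc j k).2 hjk
      rw [h] at h4
      exact (F.inc k k).1 h4 rfl
    exact ((isPP s).line _ _ h3).unique ⟨h1 j hj, h1 k hk⟩ ⟨h2 j hj, h2 k hk⟩

end Pool.Agent.PLB
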