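import Pool.Agent.PLB.CvRes

set_option autoImplicit false

/-! Theorem PB, the coefficient division rings: the action of a uniformizer on the residue field.

The residue field is finite, hence commutative, its multiplicative group is cyclic; conjugation by a uniformizer induces a
power map, and an anti-automorphism forces the square of this map to be the identity. -/

namespace Pool.Agent.PLB

universe u

variable {K : Type u} [DivisionRing K] {v : K → WithTop ℤ}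

private theorem qta_k (hv : IsCDV K v) : ∃ (k : Type u) (_ : Field k) (_ : Fintype k) (ρ : K → k),
    (∀ x, ∃ a, 0 ≤ v a ∧ ρ a = x) ∧ (∀ a b, 0 ≤ v a → 0 ≤ v b → ρ (a * b) = ρ a * ρ b) ∧
    (∀ a b, 0 ≤ v a → 0 ≤ v b → (1 ≤ v (a - b) ↔ ρ a = ρ b)) ∧ ρ 1 = 1 ∧ ρ 0 = 0 ∧
    ∀ n : ℕ, 0 ≤ v (n : K) ∧ ρ n = n := by
  classical
  obtain ⟨k, dk, r, hr, hr0⟩ := exists_res hv
  obtain ⟨T, hT⟩ := hv.fin
  let ρ : K → k := fun a => if h : 0 ≤ v a then r ⟨a, h⟩ else 0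
  have hρ : ∀ a (h : 0 ≤ v a), ρ a = r ⟨a, h⟩ := fun a h => dif_pos h
  have hsub : ∀ a b, 0 ≤ v a → 0 ≤ v b → (1 ≤ v (a - b) ↔ ρ a = ρ b) := by
    intro a b ha hb
    rw [hρ a ha, hρ b hb, ← sub_eq_zero, ← map_sub, hr0]
    rfl
  have hf : Function.Surjective (fun t : T => ρ t) := by
    intro x
    obtain ⟨a, rfl⟩ := hr x
    obtain ⟨t, ht, hat⟩ := hT a a.2
    have h0 : 0 ≤ v t := by
      have h1 : (0 : WithTop ℤ) ≤ v ((a : K) - t) := le_trans zero_le_one hat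
      have h2 := hv.sub a.2 h1
      rwa [sub_sub_cancel] at h2
    refine ⟨⟨t, ht⟩, ?_⟩
    have h3 := (hsub a t a.2 h0).1 hat
    change ρ t = r a
    rw [← h3]
    exact hρ a a.2
  have : Finite k := Finite.of_surjective _ hf
  let fk : Field k := littleWedderburn k
  let _ : Fintype k := Fintype.ofFinite k
  refine ⟨k, fk, inferInstance, ρ, ?_, ?_, hsub, ?_, ?_, ?_⟩
  · intro x
    obtain ⟨a, rfl⟩ := hr x
    exact ⟨a, a.2, hρ a a.2⟩
  · intro a b ha hb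
    have hab : 0 ≤ v (a * b) := by
      rw [hv.mul]
      exact add_nonneg ha hb
    rw [hρ a ha, hρ b hb, hρ _ hab]
    exact map_mul r ⟨a, ha⟩ ⟨b, hb⟩
  · rw [hρ 1 (by rw [hv.one])]
    exact map_one r
  · rw [hρ 0 (by rw [hv.zero]; exact le_top)]
    exact map_zero r
  · intro n
    have h0 : 0 ≤ v (n : K) := ((n : OO hv)).2
    refine ⟨h0, ?_⟩
    rw [hρ _ h0]
    exact map_natCast r n

private theorem qta_pow {k : Type u} [Field k] {ρ : K → k} (hv : IsCDV K v)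
    (hm : ∀ a b, 0 ≤ v a → 0 ≤ v b → ρ (a * b) = ρ a * ρ b) (h1 : ρ 1 = 1) {a : K}
    (ha : 0 ≤ v a) (n : ℕ) : 0 ≤ v (a ^ n) ∧ ρ (a ^ n) = ρ a ^ n := by
  induction n with
  | zero =>
    rw [pow_zero, pow_zero, hv.one]
    exact ⟨le_rfl, h1⟩
  | succ n ih =>
    rw [pow_succ, pow_succ, hv.mul, hm _ _ ih.1 ha, ih.2]
    exact ⟨add_nonneg ih.1 ha, rfl⟩

private theorem qta_one (a : WithTop ℤ) (h0 : 0 ≤ a) (h : ¬ 1 ≤ a) : a = 0 := by
  have hne : a ≠ ⊤ := fun h' => h (h' ▸ le_top)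
  obtain ⟨m, rfl⟩ := WithTop.ne_top_iff_exists.1 hne
  have h3 : (0 : ℤ) ≤ m := WithTop.coe_le_coe.1 h0
  have h4 : ¬ (1 : ℤ) ≤ m := fun h' => h (WithTop.coe_le_coe.2 h')
  have h5 : m = 0 := by omega
  rw [h5]
  rfl

private theorem qta_conj (hv : IsCDV K v) {p : K} {m : ℤ} (hp : v p = (m : WithTop ℤ)) (a : K) :
    v (p * a * p⁻¹) = v a := by
  by_cases ha : a = 0
  · rw [ha, mul_zero, zero_mul]
  · obtain ⟨n, hn⟩ := hv.ex ha
    rw [hv.mul, hv.mul, hp, hn, hv.inv hp, ← WithTop.coe_add, ← WithTop.coe_add]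
    have h : m + n + -m = n := by ring
    rw [h]

/-- `q` is the order of the residue field, the powers of `g` represent its nonzero elements -/
theorem qt_res (hv : IsCDV K v) : ∃ (q : ℕ) (g : K), 2 ≤ q ∧ 1 ≤ v (q : K) ∧ v g = 0 ∧
    (∀ a, 0 ≤ v a → 1 ≤ v (a ^ q - a)) ∧
    (∀ a b, 0 ≤ v a → 0 ≤ v b → 1 ≤ v (a * b - b * a)) ∧
    (∀ a, 0 ≤ v a → 1 ≤ v a ∨ ∃ i : ℕ, 1 ≤ v (a - g ^ i)) ∧
    ∀ i j : ℕ, 1 ≤ v (g ^ i - g ^ j) → i ≡ j [MOD (q - 1)] := by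
  classical
  obtain ⟨k, fk, ftk, ρ, hs, hm, hd, h1, h0, hn⟩ := qta_k hv
  obtain ⟨γ, hγ⟩ := IsCyclic.exists_generator (α := kˣ)
  obtain ⟨g, hg, hgγ⟩ := hs (γ : k)
  have hz : (0 : WithTop ℤ) ≤ v (0 : K) := by rw [hv.zero]; exact le_top
  have hz1 : ∀ a : K, 0 ≤ v a → (1 ≤ v a ↔ ρ a = 0) := by
    intro a ha
    have h2 := hd a 0 ha hz
    rwa [sub_zero, h0] at h2
  have hord : orderOf γ = Fintype.card k - 1 := by
    rw [orderOf_eq_card_of_forall_mem_zpowers hγ, Nat.card_eq_fintype_card,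
      Fintype.card_units]
  refine ⟨Fintype.card k, g, Fintype.one_lt_card, ?_, ?_, ?_, ?_, ?_, ?_⟩
  · rw [hz1 _ (hn _).1, (hn _).2, FiniteField.cast_card_eq_zero]
  · refine qta_one _ hg fun h => ?_
    rw [hz1 g hg, hgγ] at h
    exact γ.ne_zero h
  · intro a ha
    have h2 := qta_pow hv hm h1 ha (Fintype.card k)
    rw [hd _ _ h2.1 ha, h2.2, FiniteField.pow_card]
  · intro a b ha hb
    have hab : 0 ≤ v (a * b) := by
      rw [hv.mul]
      exact add_nonneg ha hb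
    have hba : 0 ≤ v (b * a) := by
      rw [hv.mul]
      exact add_nonneg hb ha
    rw [hd _ _ hab hba, hm a b ha hb, hm b a hb ha, mul_comm]
  · intro a ha
    by_cases h2 : ρ a = 0
    · exact Or.inl ((hz1 a ha).2 h2)
    · right
      obtain ⟨i, hi⟩ := (mem_powers_iff_mem_zpowers.2 (hγ (Units.mk0 (ρ a) h2)) :
        Units.mk0 (ρ a) h2 ∈ Submonoid.powers γ)
      refine ⟨i, ?_⟩
      have h3 := qta_pow hv hm h1 hg i
      rw [hd _ _ ha h3.1, h3.2, hgγ]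
      have h4 := congrArg Units.val hi
      exact h4.symm
  · intro i j hij
    have h3 := qta_pow hv hm h1 hg i
    have h4 := qta_pow hv hm h1 hg j
    rw [hd _ _ h3.1 h4.1, h3.2, h4.2, hgγ] at hij
    rw [← hord]
    refine pow_eq_pow_iff_modEq.1 (Units.ext ?_)
    rw [Units.val_pow_eq_pow_val, Units.val_pow_eq_pow_val]
    exact hij

/-- conjugation by a uniformizer is a power map on the residue field -/
theorem qt_pow (hv : IsCDV K v) {p : K} (hp : v p = 1) :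
    ∃ r : ℕ, 0 < r ∧ ∀ a, 0 ≤ v a → 1 ≤ v (p * a * p⁻¹ - a ^ r) := by
  classical
  have hp' : v p = ((1 : ℤ) : WithTop ℤ) := hp
  have hp0 : p ≠ 0 := hv.ne_zero hp'
  obtain ⟨k, fk, ftk, ρ, hs, hm, hd, h1, h0, hn⟩ := qta_k hv
  obtain ⟨γ, hγ⟩ := IsCyclic.exists_generator (α := kˣ)
  obtain ⟨g, hg, hgγ⟩ := hs (γ : k)
  have hz : (0 : WithTop ℤ) ≤ v (0 : K) := by rw [hv.zero]; exact le_top
  have hz1 : ∀ a : K, 0 ≤ v a → (1 ≤ v a ↔ ρ a = 0) := by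
    intro a ha
    have h2 := hd a 0 ha hz
    rwa [sub_zero, h0] at h2
  have hc : ∀ a, 0 ≤ v a → 0 ≤ v (p * a * p⁻¹) := fun a ha => by rw [qta_conj hv hp' a]; exact ha
  have hpw : ∀ (a : K) (i : ℕ), p * a ^ i * p⁻¹ = (p * a * p⁻¹) ^ i := by
    intro a i
    induction i with
    | zero => rw [pow_zero, pow_zero, mul_one, mul_inv_cancel₀ hp0]
    | succ n ih =>
      rw [pow_succ, pow_succ, ← ih]
      simp only [mul_assoc]
      rw [inv_mul_cancel_left₀ hp0]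
  have hcr : ∀ a b, 0 ≤ v a → 0 ≤ v b → ρ a = ρ b → ρ (p * a * p⁻¹) = ρ (p * b * p⁻¹) := by
    intro a b ha hb hab
    have h2 := (hd a b ha hb).2 hab
    refine (hd _ _ (hc a ha) (hc b hb)).1 ?_
    have h3 : p * a * p⁻¹ - p * b * p⁻¹ = p * (a - b) * p⁻¹ := by
      rw [mul_sub, sub_mul]
    rw [h3, qta_conj hv hp']
    exact h2
  have hne : ρ (p * g * p⁻¹) ≠ 0 := by
    intro h
    rw [← hz1 _ (hc g hg), qta_conj hv hp', hz1 g hg, hgγ] at h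
    exact γ.ne_zero h
  obtain ⟨i, hi⟩ := (mem_powers_iff_mem_zpowers.2 (hγ (Units.mk0 _ hne)) :
    Units.mk0 _ hne ∈ Submonoid.powers γ)
  have hi' : ρ (p * g * p⁻¹) = (γ : k) ^ i := (congrArg Units.val hi).symm
  have hq : 1 < Fintype.card k := Fintype.one_lt_card
  have hγ1 : (γ : k) ^ (Fintype.card k - 1) = 1 := FiniteField.pow_card_sub_one_eq_one _ γ.ne_zero
  refine ⟨i + (Fintype.card k - 1), by omega, fun a ha => ?_⟩
  have h2 := qta_pow hv hm h1 ha (i + (Fintype.card k - 1))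
  rw [hd _ _ (hc a ha) h2.1, h2.2]
  by_cases h3 : ρ a = 0
  · rw [h3, zero_pow (by omega), ← hz1 _ (hc a ha), qta_conj hv hp', hz1 a ha]
    exact h3
  · obtain ⟨j, hj⟩ := (mem_powers_iff_mem_zpowers.2 (hγ (Units.mk0 (ρ a) h3)) :
      Units.mk0 (ρ a) h3 ∈ Submonoid.powers γ)
    have hj' : ρ a = (γ : k) ^ j := (congrArg Units.val hj).symm
    have h4 := qta_pow hv hm h1 hg j
    have h5 : ρ a = ρ (g ^ j) := by rw [h4.2, hgγ, hj']
    rw [hcr a (g ^ j) ha h4.1 h5, hpw, (qta_pow hv hm h1 (hc g hg) j).2, hi', hj', ← pow_mul,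
      ← pow_mul, mul_add, pow_add, pow_mul (γ : k) j (Fintype.card k - 1), mul_comm j i,
      ← pow_mul, mul_comm j (Fintype.card k - 1), pow_mul (γ : k) (Fintype.card k - 1) j, hγ1,
      one_pow, mul_one]

/-- if there is an anti-automorphism then the square of this action is trivial -/
theorem qt_sq (hv : IsCDV K v) {ψ : K → K} (hψ : IsAntiAut K v ψ) {p : K} (hp : v p = 1) {a : K}
    (ha : 0 ≤ v a) : 1 ≤ v (p * (p * a * p⁻¹) * p⁻¹ - a) := by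
  have hp' : v p = ((1 : ℤ) : WithTop ℤ) := hp
  have hp0 : p ≠ 0 := hv.ne_zero hp'
  obtain ⟨k, fk, ftk, ρ, hs, hm, hd, h1, h0, hn⟩ := qta_k hv
  obtain ⟨r, hr, hrp⟩ := qt_pow hv hp
  have hc : ∀ a, 0 ≤ v a → 0 ≤ v (p * a * p⁻¹) := fun a ha => by rw [qta_conj hv hp' a]; exact ha
  have hρp : ∀ a, 0 ≤ v a → ρ (p * a * p⁻¹) = ρ a ^ r := by
    intro a ha
    have h2 := qta_pow hv hm h1 ha r
    rw [← h2.2]
    exact (hd _ _ (hc a ha) h2.1).1 (hrp a ha)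
  -- properties of the anti-automorphism
  have hψ0 : ψ 0 = 0 := by
    have h := hψ.add 0 0
    rw [add_zero] at h
    exact left_eq_add.1 h
  have hψneg : ∀ x, ψ (-x) = -ψ x := by
    intro x
    have h := hψ.add (-x) x
    rw [neg_add_cancel, hψ0] at h
    exact eq_neg_of_add_eq_zero_left h.symm
  have hψsub : ∀ x y, ψ (x - y) = ψ x - ψ y := by
    intro x y
    rw [sub_eq_add_neg, hψ.add, hψneg, ← sub_eq_add_neg]
  have hψne : ∀ x, x ≠ 0 → ψ x ≠ 0 := fun x hx h => hx (hψ.bij.1 (h.trans hψ0.symm))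
  have hψ1 : ψ 1 = 1 := by
    have h := hψ.mul 1 1
    rw [mul_one] at h
    have h2 : ψ 1 * 1 = ψ 1 * ψ 1 := by rw [mul_one]; exact h
    exact (mul_left_cancel₀ (hψne 1 one_ne_zero) h2).symm
  have hψpow : ∀ x (n : ℕ), ψ (x ^ n) = ψ x ^ n := by
    intro x n
    induction n with
    | zero => rw [pow_zero, pow_zero, hψ1]
    | succ n ih => rw [pow_succ, hψ.mul, ih, pow_succ']
  have hψinv : ψ p⁻¹ = (ψ p)⁻¹ := by
    have h := hψ.mul p p⁻¹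
    rw [mul_inv_cancel₀ hp0, hψ1] at h
    exact eq_inv_of_mul_eq_one_left h.symm
  have hp1 : v (ψ p) = ((1 : ℤ) : WithTop ℤ) := by rw [hψ.val]; exact hp'
  have hq0 : ψ p ≠ 0 := hψne p hp0
  -- the inverse of the conjugation by `ψ p`
  have h2 : ∀ b, 0 ≤ v b → 0 ≤ v ((ψ p)⁻¹ * b * ψ p) ∧ ρ ((ψ p)⁻¹ * b * ψ p) = ρ b ^ r := by
    intro b hb
    obtain ⟨c, rfl⟩ := hψ.bij.2 b
    have hcv : 0 ≤ v c := by rwa [hψ.val] at hb
    have h3 := hrp c hcv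
    rw [← hψ.val, hψsub, hψ.mul, hψ.mul, hψinv, hψpow, ← mul_assoc] at h3
    have h4 : 0 ≤ v ((ψ p)⁻¹ * ψ c * ψ p) := by
      have h5 := qta_conj hv (hv.inv hp1) (ψ c)
      rw [inv_inv] at h5
      rw [h5]
      exact hb
    have h5 := qta_pow hv hm h1 hb r
    refine ⟨h4, ?_⟩
    rw [← h5.2]
    exact (hd _ _ h4 h5.1).1 h3
  have h3 : ∀ b, 0 ≤ v b → ρ b = (ρ b ^ r) ^ r := by
    intro b hb
    obtain ⟨hb1, hb2⟩ := h2 b hb
    have hu : v (ψ p * p⁻¹) = ((0 : ℤ) : WithTop ℤ) := by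
      rw [hv.mul, hp1, hv.inv hp', ← WithTop.coe_add]
      rfl
    have hu0 : 0 ≤ v (ψ p * p⁻¹) := by rw [hu]; exact le_rfl
    have hui : 0 ≤ v (ψ p * p⁻¹)⁻¹ := by rw [hv.inv hu]; exact le_rfl
    have hune : ψ p * p⁻¹ ≠ 0 := hv.ne_zero hu
    have h4 : b = (ψ p * p⁻¹) * (p * ((ψ p)⁻¹ * b * ψ p) * p⁻¹) * (ψ p * p⁻¹)⁻¹ := by
      rw [mul_inv_rev, inv_inv]
      simp only [mul_assoc]
      rw [inv_mul_cancel_left₀ hp0, mul_inv_cancel_left₀ hq0, inv_mul_cancel_left₀ hp0,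
        mul_inv_cancel₀ hq0, mul_one]
    have h5 := hc _ hb1
    have h6 : ρ ((ψ p * p⁻¹) * (p * ((ψ p)⁻¹ * b * ψ p) * p⁻¹) * (ψ p * p⁻¹)⁻¹) =
        ρ (p * ((ψ p)⁻¹ * b * ψ p) * p⁻¹) := by
      have h7 : 0 ≤ v ((ψ p * p⁻¹) * (p * ((ψ p)⁻¹ * b * ψ p) * p⁻¹)) := by
        rw [hv.mul]
        exact add_nonneg hu0 h5
      rw [hm _ _ h7 hui, hm _ _ hu0 h5, mul_right_comm, ← hm _ _ hu0 hui, mul_inv_cancel₀ hune, h1,
        one_mul]
    calc ρ b = ρ ((ψ p * p⁻¹) * (p * ((ψ p)⁻¹ * b * ψ p) * p⁻¹) * (ψ p * p⁻¹)⁻¹) := by rw [← h4]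
      _ = ρ (p * ((ψ p)⁻¹ * b * ψ p) * p⁻¹) := h6
      _ = (ρ b ^ r) ^ r := by rw [hρp _ hb1, hb2]
  have h4 := hc a ha
  have h5 := hc _ h4
  refine (hd _ _ h5 ha).2 ?_
  rw [hρp _ h4, hρp _ ha]
  exact (h3 a ha).symm

end Pool.Agent.PLB
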