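import Pool.Agent.PLB.QtA

set_option autoImplicit false

/-! Theorem PB, the coefficient division rings: Teichmueller elements.

PLAN. `q`, `g` from `qt_res`. `x ≡ y` modulo `V_j` (i.e. `j ≤ v (x - y)`, `j ≥ 1`), `x, y ∈ O` commuting: `x ^ q - y ^ q =
(x - y) * Σ x ^ i y ^ (q - 1 - i)` (`Commute.mul_geom_sum₂`), and the sum is `≡ q y ^ (q - 1) ≡ 0` modulo `V_1`, so
`j + 1 ≤ v (x ^ q - y ^ q)`. So `g ^ (q ^ n)` is a Cauchy sequence (all these powers commute), `IsCDV.complete` gives the limit `z`;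
`z` commutes with `g` (limit), `z ^ q = z` (again by the estimate), `z ≡ g` modulo `V_1`, so `v z = 0`, `z ^ (q - 1) = 1`. -/

namespace Pool.Agent.PLB

universe u

variable {K : Type u} [DivisionRing K] {v : K → WithTop ℤ}

/-- `z` is a Teichmueller representative of a generator of the multiplicative group of the
residue field -/
structure Tch (K : Type u) [DivisionRing K] (v : K → WithTop ℤ) (q : ℕ) (z : K) : Prop where
  two : 2 ≤ q
  val : 1 ≤ v (q : K)
  one : z ^ (q - 1) = 1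
  rep : ∀ a, 0 ≤ v a → 1 ≤ v a ∨ ∃ i : ℕ, 1 ≤ v (a - z ^ i)
  inj : ∀ i j : ℕ, 1 ≤ v (z ^ i - z ^ j) → z ^ i = z ^ j

private theorem qtb_mul (hv : IsCDV K v) {a b : K} {m n : WithTop ℤ} (ha : m ≤ v a)
    (hb : n ≤ v b) : m + n ≤ v (a * b) := by
  rw [hv.mul]
  exact add_le_add ha hb

private theorem qtb_pow (hv : IsCDV K v) {a : K} (ha : 0 ≤ v a) (n : ℕ) : 0 ≤ v (a ^ n) :=
  (OO hv).pow_mem (x := a) ha n

private theorem qtb_geom (hv : IsCDV K v) {x y : K} (hx : 0 ≤ v x) (hy : 0 ≤ v y) (n : ℕ) :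
    0 ≤ v (∑ i ∈ Finset.range n, x ^ i * y ^ (n - 1 - i)) := by
  refine hv.sum _ _ fun i _ => ?_
  have h := qtb_mul hv (qtb_pow hv hx i) (qtb_pow hv hy (n - 1 - i))
  rwa [add_zero] at h

private theorem qtb_sub (hv : IsCDV K v) {x y : K} (hc : Commute x y) (hx : 0 ≤ v x)
    (hy : 0 ≤ v y) {m : WithTop ℤ} (h : m ≤ v (x - y)) (n : ℕ) : m ≤ v (x ^ n - y ^ n) := by
  rw [← hc.geom_sum₂_mul n]
  have h1 := qtb_mul hv (qtb_geom hv hx hy n) h
  rwa [zero_add] at h1

/-- the estimate for `q`-th powers -/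
private theorem qtb_est (hv : IsCDV K v) {q : ℕ} (hq : 1 ≤ v (q : K)) {x y : K}
    (hc : Commute x y) (hx : 0 ≤ v x) (hy : 0 ≤ v y) {m : WithTop ℤ} (hm : 1 ≤ m)
    (h : m ≤ v (x - y)) : m + 1 ≤ v (x ^ q - y ^ q) := by
  rw [← hc.geom_sum₂_mul q]
  have h1 : 1 ≤ v (∑ i ∈ Finset.range q, x ^ i * y ^ (q - 1 - i)) := by
    have e : ∑ i ∈ Finset.range q, x ^ i * y ^ (q - 1 - i) =
        ∑ i ∈ Finset.range q, (x ^ i - y ^ i) * y ^ (q - 1 - i) + (q : K) * y ^ (q - 1) := by
      have e1 : (q : K) * y ^ (q - 1) = ∑ i ∈ Finset.range q, y ^ i * y ^ (q - 1 - i) := by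
        have e2 : ∀ i ∈ Finset.range q, y ^ i * y ^ (q - 1 - i) = y ^ (q - 1) := by
          intro i hi
          have hi' := Finset.mem_range.1 hi
          rw [← pow_add]
          congr 1
          omega
        rw [Finset.sum_congr rfl e2, Finset.sum_const, Finset.card_range, nsmul_eq_mul]
      rw [e1, ← Finset.sum_add_distrib]
      refine Finset.sum_congr rfl fun i _ => ?_
      rw [sub_mul, sub_add_cancel]
    rw [e]
    refine (le_min ?_ ?_).trans (hv.add _ _)
    · refine hv.sum _ _ fun i _ => ?_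
      have h2 := qtb_mul hv (qtb_sub hv hc hx hy (hm.trans h) i) (qtb_pow hv hy (q - 1 - i))
      rwa [add_zero] at h2
    · have h2 := qtb_mul hv hq (qtb_pow hv hy (q - 1))
      rwa [add_zero] at h2
  rw [add_comm]
  exact qtb_mul hv h1 h

private theorem qtb_zero (hv : IsCDV K v) {a : K}
    (h : ∀ n : ℕ, ((n : ℤ) : WithTop ℤ) ≤ v a) : a = 0 := by
  by_contra ha
  obtain ⟨m, hm⟩ := hv.ex ha
  have h1 := h (m.toNat + 1)
  rw [hm, WithTop.coe_le_coe] at h1
  omega

theorem exists_tch (hv : IsCDV K v) : ∃ q z, Tch K v q z := by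
  obtain ⟨q, g, hq2, hq, hg, hA, -, hC, hD⟩ := qt_res hv
  have hg0 : 0 ≤ v g := hg.ge
  set a : ℕ → K := fun n => g ^ (q ^ n) with ha
  have a0 : ∀ n, 0 ≤ v (a n) := fun n => qtb_pow hv hg0 _
  have asucc : ∀ n, a (n + 1) = a n ^ q := fun n => by
    show g ^ (q ^ (n + 1)) = (g ^ (q ^ n)) ^ q
    rw [← pow_mul, pow_succ]
  have acomm : ∀ n m, Commute (a n) (a m) := fun n m =>
    (Commute.refl g).pow_pow _ _
  have a1 : a 0 = g := by
    show g ^ (q ^ 0) = g
    rw [pow_zero, pow_one]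
  have hstep : ∀ n : ℕ, (((n + 1 : ℕ) : ℤ) : WithTop ℤ) ≤ v (a (n + 1) - a n) := by
    intro n
    induction n with
    | zero =>
      rw [asucc, a1]
      exact hA g hg0
    | succ n ih =>
      have h1 : (1 : WithTop ℤ) ≤ (((n + 1 : ℕ) : ℤ) : WithTop ℤ) := by
        have h2 : (1 : ℤ) ≤ ((n + 1 : ℕ) : ℤ) := by push_cast; omega
        exact WithTop.coe_le_coe.2 h2
      have h2 := qtb_est hv hq (acomm (n + 1) n) (a0 _) (a0 _) h1 ih
      rw [← asucc, ← asucc] at h2
      exact h2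
  obtain ⟨z, hz⟩ := hv.complete a (fun n => by
    refine le_trans ?_ (hstep n)
    refine WithTop.coe_le_coe.2 ?_
    push_cast
    omega)
  have hz1 : ∀ n : ℕ, (((n + 1 : ℕ) : ℤ) : WithTop ℤ) ≤ v (z - a n) := by
    intro n
    have e : z - a n = (z - a (n + 1)) + (a (n + 1) - a n) := (sub_add_sub_cancel _ _ _).symm
    rw [e]
    exact (le_min (hz (n + 1)) (hstep n)).trans (hv.add _ _)
  have hzg : (1 : WithTop ℤ) ≤ v (z - g) := by
    have h := hz1 0
    rw [a1] at h
    exact h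
  have hz0 : 0 ≤ v z := by
    have e : z = (z - g) + g := (sub_add_cancel z g).symm
    rw [e]
    exact (le_min (zero_le_one.trans hzg) hg0).trans (hv.add _ _)
  have hzne : z ≠ 0 := by
    rintro rfl
    rw [zero_sub, hv.neg, hg] at hzg
    have h1 : (1 : ℤ) ≤ 0 := WithTop.coe_le_coe.1 hzg
    omega
  have hcomm : Commute z g := by
    have h1 : z * g - g * z = 0 := by
      apply qtb_zero hv
      intro n
      have e : z * g - g * z = (z - a n) * g - g * (z - a n) := by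
        have h2 : a n * g = g * a n := by
          have := (acomm n 0).eq
          rwa [a1] at this
        rw [sub_mul, mul_sub, h2]
        abel
      rw [e]
      have h3 : ((n : ℤ) : WithTop ℤ) ≤ v (z - a n) := hz n
      have h4 := qtb_mul hv h3 hg0
      have h5 := qtb_mul hv hg0 h3
      rw [add_zero] at h4
      rw [zero_add] at h5
      exact hv.sub h4 h5
    exact sub_eq_zero.1 h1
  have hzq : z ^ q = z := by
    have h1 : z ^ q - z = 0 := by
      apply qtb_zero hv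
      intro n
      have e : z ^ q - z = (z ^ q - a n ^ q) - (z - a (n + 1)) := by
        rw [asucc]
        abel
      rw [e]
      have h1 : (1 : WithTop ℤ) ≤ (((n + 1 : ℕ) : ℤ) : WithTop ℤ) := by
        have h2 : (1 : ℤ) ≤ ((n + 1 : ℕ) : ℤ) := by push_cast; omega
        exact WithTop.coe_le_coe.2 h2
      have h2 := qtb_est hv hq (hcomm.pow_right (q ^ n)) hz0 (a0 n) h1 (hz1 n)
      have h3 : ((n : ℤ) : WithTop ℤ) ≤ (((n + 1 : ℕ) : ℤ) : WithTop ℤ) + 1 := by
        have h4 : (n : ℤ) ≤ ((n + 1 : ℕ) : ℤ) + 1 := by push_cast; omega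
        exact WithTop.coe_le_coe.2 h4
      have h5 : ((n : ℤ) : WithTop ℤ) ≤ (((n + 1 : ℕ) : ℤ) : WithTop ℤ) := by
        refine WithTop.coe_le_coe.2 ?_
        push_cast
        omega
      exact hv.sub (h3.trans h2) (h5.trans (hz (n + 1)))
    exact sub_eq_zero.1 h1
  have hone : z ^ (q - 1) = 1 := by
    have h1 : z ^ (q - 1) * z = 1 * z := by
      rw [← pow_succ, one_mul]
      have h2 : q - 1 + 1 = q := by omega
      rw [h2]
      exact hzq
    exact mul_right_cancel₀ hzne h1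
  have hzgi : ∀ i : ℕ, (1 : WithTop ℤ) ≤ v (z ^ i - g ^ i) := fun i =>
    qtb_sub hv hcomm hz0 hg0 hzg i
  refine ⟨q, z, hq2, hq, hone, fun b hb => ?_, fun i j hij => ?_⟩
  · rcases hC b hb with h | ⟨i, hi⟩
    · exact Or.inl h
    · right
      refine ⟨i, ?_⟩
      have e : b - z ^ i = (b - g ^ i) - (z ^ i - g ^ i) := by abel
      rw [e]
      exact hv.sub hi (hzgi i)
  · have e : g ^ i - g ^ j = (z ^ i - z ^ j) - ((z ^ i - g ^ i) - (z ^ j - g ^ j)) := by abel
    have h1 : 1 ≤ v (g ^ i - g ^ j) := by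
      rw [e]
      exact hv.sub hij (hv.sub (hzgi i) (hzgi j))
    have h2 : i % (q - 1) = j % (q - 1) := hD i j h1
    rw [pow_eq_pow_mod i hone, pow_eq_pow_mod j hone, h2]

end Pool.Agent.PLB
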