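import Pool.Agent.PLB.QtB

set_option autoImplicit false

/-! Theorem PB, the coefficient division rings: a uniformizer which normalizes the Teichmueller
elements, and a density argument.

PLAN. `qt_norm`: `t` with `v t = 1` (`hv.surj`), `r` from `qt_pow`, `p = Σ_{i < q - 1} (z ^ (r * i))⁻¹ * t * z ^ i`; shifting the index
(`z ^ (q - 1) = 1`) gives `(z ^ r)⁻¹ * p * z = p`. Modulo `V_2` each summand is `≡ t` (`t z ^ i t⁻¹ ≡ z ^ (r i)` modulo `V_1`), so
`p ≡ (q - 1) t ≡ - t` modulo `V_2` (`1 ≤ v q`), so `v p = 1`.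
`qt_dense`: for every `n` and `x ∈ O` there is `d` with `n ≤ v (x - d)` and `y d = d y` (induction: `x - d = p ^ n u`... write
`x - d = u p ^ n`, `u ∈ O`, add `z ^ i p ^ n` or `0`). So `y x - x y = y (x - d) - (x - d) y` has value at least `n + v y` for all `n`.
For general `x` multiply by a power of `p`. -/

namespace Pool.Agent.PLB

universe u

variable {K : Type u} [DivisionRing K] {v : K → WithTop ℤ}

private theorem qtc_vpow (hv : IsCDV K v) {p : K} {m : ℤ} (hp : v p = (m : WithTop ℤ)) (n : ℕ) :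
    v (p ^ n) = (((n : ℤ) * m : ℤ) : WithTop ℤ) := by
  induction n with
  | zero =>
    rw [pow_zero, hv.one]
    have h : ((0 : ℕ) : ℤ) * m = 0 := by simp
    rw [h]
    rfl
  | succ n ih =>
    have h : ((n + 1 : ℕ) : ℤ) * m = (n : ℤ) * m + m := by
      push_cast
      ring
    rw [pow_succ, hv.mul, ih, hp, ← WithTop.coe_add, h]

private theorem qtc_z0 {q : ℕ} {z : K} (hz : Tch K v q z) : z ≠ 0 := by
  rintro rfl
  have h1 := hz.one
  have h2 := hz.two
  rw [zero_pow (by omega)] at h1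
  exact zero_ne_one h1

private theorem qtc_vz (hv : IsCDV K v) {q : ℕ} {z : K} (hz : Tch K v q z) (k : ℕ) :
    v (z ^ k) = ((0 : ℤ) : WithTop ℤ) := by
  have h2 := hz.two
  obtain ⟨m, hm⟩ := hv.ex (qtc_z0 hz)
  have h1 := qtc_vpow hv hm (q - 1)
  rw [hz.one, hv.one] at h1
  have h3 : (0 : ℤ) = ((q - 1 : ℕ) : ℤ) * m := WithTop.coe_inj.1 h1
  have h4 : ((q - 1 : ℕ) : ℤ) ≠ 0 := by omega
  have h5 : m = 0 := by
    rcases mul_eq_zero.1 h3.symm with h | h
    · exact absurd h h4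
    · exact h
  rw [qtc_vpow hv hm k, h5, mul_zero]

private theorem qtc_vzi (hv : IsCDV K v) {q : ℕ} {z : K} (hz : Tch K v q z) (k : ℕ) :
    v (z ^ k)⁻¹ = ((0 : ℤ) : WithTop ℤ) := by
  rw [hv.inv (qtc_vz hv hz k)]
  rfl

theorem qt_norm (hv : IsCDV K v) {q : ℕ} {z : K} (hz : Tch K v q z) :
    ∃ (p : K) (r : ℕ), v p = 1 ∧ 0 < r ∧ p * z = z ^ r * p := by
  obtain ⟨t, ht⟩ := hv.surj
  have ht' : v t = ((1 : ℤ) : WithTop ℤ) := ht
  have ht0 := hv.ne_zero ht'
  have hz0 := qtc_z0 hz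
  have hq := hz.two
  obtain ⟨r, hr, hr2⟩ := qt_pow hv ht
  obtain ⟨F, hF⟩ : ∃ F : ℕ → K, ∀ i, F i = (z ^ (r * i))⁻¹ * t * z ^ i := ⟨_, fun i => rfl⟩
  have hFz : ∀ i, F i * z = z ^ r * F (i + 1) := by
    intro i
    have e2 : z ^ (r * (i + 1)) = z ^ (r * i) * z ^ r := by
      rw [← pow_add, Nat.mul_succ]
    have e1 : z ^ r * (z ^ (r * (i + 1)))⁻¹ = (z ^ (r * i))⁻¹ := by
      rw [e2, mul_inv_rev, mul_inv_cancel_left₀ (pow_ne_zero r hz0)]
    rw [hF, hF, ← mul_assoc (z ^ r), ← mul_assoc (z ^ r), e1, pow_succ, ← mul_assoc]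
  have hF0 : F 0 = t := by
    rw [hF, mul_zero, pow_zero, inv_one, one_mul, mul_one]
  have hFn : F (q - 1) = t := by
    rw [hF, pow_mul', hz.one, one_pow, inv_one, one_mul, mul_one]
  refine ⟨∑ i ∈ Finset.range (q - 1), F i, r, ?_, hr, ?_⟩
  · have hw : ∀ i, ((2 : ℤ) : WithTop ℤ) ≤ v (F i - t) := by
      intro i
      have h1 : ((1 : ℤ) : WithTop ℤ) ≤ v (t * z ^ i * t⁻¹ - (z ^ i) ^ r) := by
        apply hr2
        rw [qtc_vz hv hz i]
        exact le_rfl
      have e3 : F i - t = (z ^ (r * i))⁻¹ * (t * z ^ i * t⁻¹ - (z ^ i) ^ r) * t := by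
        have e4 : (z ^ i) ^ r = z ^ (r * i) := by rw [← pow_mul, mul_comm]
        rw [e4, mul_sub, inv_mul_cancel₀ (pow_ne_zero _ hz0), sub_mul, one_mul, hF, mul_assoc,
          mul_assoc, mul_assoc, mul_assoc, inv_mul_cancel₀ ht0, mul_one]
      rw [e3, hv.le_mul_right ht', hv.le_mul_left (qtc_vzi hv hz _)]
      exact h1
    have h2 : ((2 : ℤ) : WithTop ℤ) ≤ v (∑ i ∈ Finset.range (q - 1), (F i - t)) :=
      hv.sum _ _ fun i _ => hw i
    have h3 : ((2 : ℤ) : WithTop ℤ) ≤ v ((q : K) * t) := by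
      rw [hv.le_mul_right ht']
      exact hz.val
    have h4 : ∑ i ∈ Finset.range (q - 1), F i + t =
        ∑ i ∈ Finset.range (q - 1), (F i - t) + (q : K) * t := by
      rw [Finset.sum_sub_distrib, Finset.sum_const, Finset.card_range, nsmul_eq_mul,
        Nat.cast_sub (by omega), Nat.cast_one, sub_mul, one_mul]
      abel
    have h5 : ((2 : ℤ) : WithTop ℤ) ≤ v (∑ i ∈ Finset.range (q - 1), F i + t) := by
      rw [h4]
      exact (le_min h2 h3).trans (hv.add _ _)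
    obtain ⟨p, hp⟩ : ∃ p, p = ∑ i ∈ Finset.range (q - 1), F i := ⟨_, rfl⟩
    rw [← hp] at h5 ⊢
    have h12 : ((1 : ℤ) : WithTop ℤ) ≤ ((2 : ℤ) : WithTop ℤ) := WithTop.coe_le_coe.2 (by norm_num)
    have h6 : ((1 : ℤ) : WithTop ℤ) ≤ v p := by
      have e5 : p = (p + t) - t := by abel
      rw [e5]
      exact hv.sub (h12.trans h5) ht'.ge
    have h7 : ¬ ((2 : ℤ) : WithTop ℤ) ≤ v p := by
      intro h8
      have e6 : t = (p + t) - p := by abel
      have h9 : ((2 : ℤ) : WithTop ℤ) ≤ v t := by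
        rw [e6]
        exact hv.sub h5 h8
      rw [ht'] at h9
      have h10 := WithTop.coe_le_coe.1 h9
      omega
    have hp0 : p ≠ 0 := by
      rintro rfl
      apply h7
      rw [hv.zero]
      exact le_top
    obtain ⟨m, hm⟩ := hv.ex hp0
    rw [hm] at h6 h7 ⊢
    have h8 := WithTop.coe_le_coe.1 h6
    have h9 : ¬ (2 : ℤ) ≤ m := fun h => h7 (WithTop.coe_le_coe.2 h)
    have h10 : m = 1 := by omega
    rw [h10]
    rfl
  · have h5 : ∑ i ∈ Finset.range (q - 1), F (i + 1) = ∑ i ∈ Finset.range (q - 1), F i := by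
      have h6 := Finset.sum_range_succ' F (q - 1)
      have h7 := Finset.sum_range_succ F (q - 1)
      rw [hF0] at h6
      rw [hFn] at h7
      exact add_right_cancel (h6.symm.trans h7)
    calc (∑ i ∈ Finset.range (q - 1), F i) * z = ∑ i ∈ Finset.range (q - 1), F i * z :=
          Finset.sum_mul _ _ _
      _ = ∑ i ∈ Finset.range (q - 1), z ^ r * F (i + 1) := Finset.sum_congr rfl fun i _ => hFz i
      _ = z ^ r * ∑ i ∈ Finset.range (q - 1), F (i + 1) := (Finset.mul_sum _ _ _).symm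
      _ = z ^ r * ∑ i ∈ Finset.range (q - 1), F i := by rw [h5]

private theorem qtc_appr (hv : IsCDV K v) {q : ℕ} {z : K} (hz : Tch K v q z) {p : K}
    (hp : v p = 1) {y : K} (h1 : y * z = z * y) (h2 : y * p = p * y) {x : K} (hx : 0 ≤ v x)
    (n : ℕ) : ∃ d, (((n : ℤ) : ℤ) : WithTop ℤ) ≤ v (x - d) ∧ y * d = d * y := by
  have hp' : v p = ((1 : ℤ) : WithTop ℤ) := hp
  have hp0 := hv.ne_zero hp'
  have c1 : Commute y z := h1
  have c2 : Commute y p := h2
  induction n with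
  | zero => exact ⟨0, by rw [sub_zero]; exact hx, by rw [mul_zero, zero_mul]⟩
  | succ n ih =>
    obtain ⟨d, hd, hyd⟩ := ih
    have hpn : v (p ^ n) = ((n : ℤ) : WithTop ℤ) := by
      rw [qtc_vpow hv hp' n, mul_one]
    have hpn0 : p ^ n ≠ 0 := pow_ne_zero n hp0
    obtain ⟨u, hu⟩ : ∃ u, x - d = u * p ^ n :=
      ⟨(x - d) * (p ^ n)⁻¹, by rw [inv_mul_cancel_right₀ hpn0]⟩
    have hu0 : 0 ≤ v u := by
      rw [hu, hv.le_mul_right hpn, sub_self] at hd
      exact hd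
    have key : ∀ w : K, 1 ≤ v w → (((n + 1 : ℕ) : ℤ) : WithTop ℤ) ≤ v (w * p ^ n) := by
      intro w hw
      rw [hv.le_mul_right hpn]
      have e : ((n + 1 : ℕ) : ℤ) - (n : ℤ) = 1 := by
        push_cast
        ring
      rw [e]
      exact hw
    rcases hz.rep u hu0 with h3 | ⟨i, h3⟩
    · exact ⟨d, by rw [hu]; exact key u h3, hyd⟩
    · refine ⟨d + z ^ i * p ^ n, ?_, ?_⟩
      · have e : x - (d + z ^ i * p ^ n) = (u - z ^ i) * p ^ n := by
          rw [sub_mul, ← hu]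
          abel
        rw [e]
        exact key _ h3
      · have c3 : Commute y (z ^ i * p ^ n) := (c1.pow_right i).mul_right (c2.pow_right n)
        rw [mul_add, add_mul, hyd, c3.eq]

private theorem qtc_int (hv : IsCDV K v) {q : ℕ} {z : K} (hz : Tch K v q z) {p : K}
    (hp : v p = 1) {y : K} (h1 : y * z = z * y) (h2 : y * p = p * y) {x : K} (hx : 0 ≤ v x) :
    y * x = x * y := by
  by_cases hy : y = 0
  · rw [hy, zero_mul, mul_zero]
  by_contra hne
  obtain ⟨m, hm⟩ := hv.ex hy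
  obtain ⟨k, hk⟩ := hv.ex (sub_ne_zero.2 hne)
  obtain ⟨d, hd, hyd⟩ := qtc_appr hv hz hp h1 h2 hx ((k - m).toNat + 1)
  have e : y * x - x * y = y * (x - d) - (x - d) * y := by
    rw [mul_sub, sub_mul, hyd]
    abel
  have h3 : (((((k - m).toNat + 1 : ℕ) : ℤ) + m : ℤ) : WithTop ℤ) ≤ v (y * x - x * y) := by
    rw [e]
    apply hv.sub
    · rw [hv.le_mul_left hm, add_sub_cancel_right]
      exact hd
    · rw [hv.le_mul_right hm, add_sub_cancel_right]
      exact hd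
  rw [hk] at h3
  have h4 := WithTop.coe_le_coe.1 h3
  omega

theorem qt_dense (hv : IsCDV K v) {q : ℕ} {z : K} (hz : Tch K v q z) {p : K} (hp : v p = 1)
    {y : K} (h1 : y * z = z * y) (h2 : y * p = p * y) (x : K) : y * x = x * y := by
  by_cases hx : x = 0
  · rw [hx, mul_zero, zero_mul]
  have hp' : v p = ((1 : ℤ) : WithTop ℤ) := hp
  have hp0 := hv.ne_zero hp'
  obtain ⟨m, hm⟩ := hv.ex hx
  have hpn : v (p ^ (-m).toNat) = (((-m).toNat : ℤ) : WithTop ℤ) := by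
    rw [qtc_vpow hv hp' _, mul_one]
  have h3 : 0 ≤ v (x * p ^ (-m).toNat) := by
    rw [hv.mul, hm, hpn, ← WithTop.coe_add]
    exact WithTop.coe_le_coe.2 (show (0 : ℤ) ≤ m + ((-m).toNat : ℤ) by omega)
  have h4 := qtc_int hv hz hp h1 h2 h3
  have c2 : Commute y (p ^ (-m).toNat) := Commute.pow_right h2 _
  rw [mul_assoc x, ← c2.eq, ← mul_assoc, ← mul_assoc] at h4
  exact mul_right_cancel₀ (pow_ne_zero _ hp0) h4

end Pool.Agent.PLB
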