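import Pool.Agent.PLB.QtC

set_option autoImplicit false

/-! Theorem PB, the coefficient division rings: commutative, or of dimension 4 over the centre.

PLAN. `z`, `p`, `r` from `exists_tch`, `qt_norm`. `p (p z p⁻¹) p⁻¹ = z ^ (r * r)`, so `qt_sq` and `Tch.inj` give `z ^ (r * r) = z`.
If `z ^ r = z` then `z` and `p` are central (`qt_dense` for `y = z`, `y = p`), and then everything is central (`qt_dense` for
every `y`). Otherwise let `z' = z ^ r ≠ z`, `p z = z' p`, `p z' = z p`. `p ^ 2`, `z + z'`, `z z'` commute with `z` and `p`, so they are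
central. Every `x` is `a + b p` with `a, b` commuting with `z`: `a = (x z' - z x) (z' - z)⁻¹` commutes with `z` because
`z z x - z x (z + z') + x z z' = (z ^ 2 - (z + z') z + z z') x = 0`, and `b = (x - a) p⁻¹` commutes with `z` because `(x - a) z' = z (x - a)`
(and `p⁻¹ z = z' p⁻¹`). Every `y` commuting with `z` is `α + β z` with `α, β` central: `y' = p y p⁻¹` commutes with `z`,
`p y' p⁻¹ = y`; `β = (y - y') (z - z')⁻¹`, `α = y - β z` commute with `z` and `p`. So `1, z, p, z p` span `K` over the centre
`Z`, and they are independent: `p` does not commute with `z` (so `a + b p = 0` with `a, b` commuting with `z` gives `a = b = 0`)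
and `z` is not central. -/

namespace Pool.Agent.PLB

universe u

variable {K : Type u} [DivisionRing K] {v : K → WithTop ℤ}

private theorem qtd_span {z z' p : K} (hp : p ≠ 0) (hne : z' ≠ z) (h1 : p * z = z' * p)
    (h2 : p * z' = z * p) (h3 : z * z' = z' * z)
    (hz' : ∀ y, y * z = z * y → y * z' = z' * y)
    (hden : ∀ y, y * z = z * y → y * p = p * y → ∀ x, y * x = x * y) (y : K)
    (hy : y * z = z * y) :
    ∃ α β : K, (∀ x, α * x = x * α) ∧ (∀ x, β * x = x * β) ∧ y = α + β * z := by
  have hd : z - z' ≠ 0 := fun h => hne (sub_eq_zero.1 h).symm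
  have s1 : SemiconjBy p z z' := h1
  have s2 : SemiconjBy p z' z := h2
  have s3 : SemiconjBy p⁻¹ z z' := s2.inv_symm_left₀
  have s4 : SemiconjBy p⁻¹ z' z := s1.inv_symm_left₀
  have hyz : Commute y z := hy
  have hyz' : Commute y z' := hz' y hy
  have hzz' : Commute z z' := h3
  -- `p y p⁻¹`
  set y' := p * y * p⁻¹ with hy'
  have hpy : p * y = y' * p := by
    rw [hy', inv_mul_cancel_right₀ hp]
  have c1 : Commute y' z := by
    have e1 : SemiconjBy y z' z' := hyz'
    have e2 : SemiconjBy (p * y) z' z := s2.mul_left e1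
    exact e2.mul_left s3
  have hp2 : ∀ x, p * p * x = x * (p * p) := by
    refine hden (p * p) ?_ ?_
    · rw [mul_assoc, h1, ← mul_assoc, h2, mul_assoc]
    · rw [mul_assoc]
  have hpy' : p * y' = y * p := by
    rw [hy', ← mul_assoc, ← mul_assoc, hp2 y, mul_assoc, mul_assoc, mul_inv_cancel₀ hp, mul_one]
  have sy : SemiconjBy p y y' := hpy
  have sy' : SemiconjBy p y' y := hpy'
  -- `β`
  set β := (y - y') * (z - z')⁻¹ with hβ
  have hzsub : Commute (z - z')⁻¹ z := ((Commute.refl z).sub_left hzz'.symm).inv_left₀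
  have hβz : Commute β z := (hyz.sub_left c1).mul_left hzsub
  have e0 : (y' - y) * (z' - z)⁻¹ = β := by
    rw [hβ, ← neg_sub y y', ← neg_sub z z', inv_neg, neg_mul_neg]
  have hpβ : p * β = β * p := by
    have e1 : SemiconjBy p (y - y') (y' - y) := sy.sub_right sy'
    have e2 : SemiconjBy p (z - z')⁻¹ (z' - z)⁻¹ := (s1.sub_right s2).inv_right₀
    have e3 : SemiconjBy p β ((y' - y) * (z' - z)⁻¹) := e1.mul_right e2
    rw [e0] at e3
    exact e3
  have hβc : ∀ x, β * x = x * β := hden β hβz hpβ.symm
  have e4 : β * (z - z') = y - y' := by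
    rw [hβ, inv_mul_cancel_right₀ hd]
  have e5 : y - β * z = y' - β * z' := by
    have : β * z - β * z' = y - y' := by rw [← mul_sub, e4]
    calc y - β * z = y - (β * z - β * z') - β * z' := by abel
      _ = y' - β * z' := by rw [this]; abel
  refine ⟨y - β * z, β, hden _ ?_ ?_, hβc, by abel⟩
  · exact (hyz.sub_left (hβz.mul_left (Commute.refl z)))
  · have e6 : p * (β * z) = β * z' * p := by
      rw [← mul_assoc, hpβ, mul_assoc β p z, h1, ← mul_assoc β z' p]
    calc (y - β * z) * p = (y' - β * z') * p := by rw [e5]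
      _ = y' * p - β * z' * p := sub_mul _ _ _
      _ = p * y - p * (β * z) := by rw [hpy, e6]
      _ = p * (y - β * z) := (mul_sub _ _ _).symm

private theorem qtd_alg {z z' p : K} (hp : p ≠ 0) (hne : z' ≠ z) (h1 : p * z = z' * p)
    (h2 : p * z' = z * p) (h3 : z * z' = z' * z)
    (hz' : ∀ y, y * z = z * y → y * z' = z' * y)
    (hden : ∀ y, y * z = z * y → y * p = p * y → ∀ x, y * x = x * y) :
    Module.finrank (Subring.center K) K = 4 := by
  have hd : z' - z ≠ 0 := fun h => hne (sub_eq_zero.1 h)
  have s1 : SemiconjBy p z z' := h1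
  have s2 : SemiconjBy p z' z := h2
  have s3 : SemiconjBy p⁻¹ z z' := s2.inv_symm_left₀
  have hzz' : Commute z z' := h3
  have hs : ∀ x, (z + z') * x = x * (z + z') := by
    refine hden _ ?_ ?_
    · rw [add_mul, mul_add, h3]
    · rw [add_mul, mul_add, h1, h2, add_comm]
  have hm : ∀ x, (z * z') * x = x * (z * z') := by
    refine hden _ ?_ ?_
    · rw [mul_assoc, ← h3]
    · rw [← mul_assoc, h1, mul_assoc z' p, h2, ← mul_assoc z', ← h3]
  have hsp := qtd_span hp hne h1 h2 h3 hz' hden
  -- decomposition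
  have hdec : ∀ x : K, ∃ a b : K, a * z = z * a ∧ b * z = z * b ∧ x = a + b * p := by
    intro x
    set a := (x * z' - z * x) * (z' - z)⁻¹ with ha
    have hc : z * (x * z' - z * x) = (x * z' - z * x) * z := by
      have e1 : z * (x * z' - z * x) - (x * z' - z * x) * z =
          ((z * x) * (z + z') - (z + z') * (z * x)) + ((z * z') * x - x * (z * z')) +
          (z' * z - z * z') * x + x * (z * z' - z' * z) := by noncomm_ring
      rw [hs (z * x), hm x, h3, sub_self, sub_self, sub_self, zero_mul, mul_zero, add_zero,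
        add_zero, add_zero] at e1
      exact sub_eq_zero.1 e1
    have hzsub : Commute (z' - z)⁻¹ z := (hzz'.symm.sub_left (Commute.refl z)).inv_left₀
    have haz : Commute a z := by
      have e2 : Commute (x * z' - z * x) z := hc.symm
      exact e2.mul_left hzsub
    have e3 : a * (z' - z) = x * z' - z * x := by
      rw [ha, inv_mul_cancel_right₀ hd]
    have e4 : (x - a) * z' = z * (x - a) := by
      have e5 : a * z' - a * z = x * z' - z * x := by rw [← mul_sub, e3]
      have e6 : a * z = z * a := haz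
      calc (x - a) * z' = x * z' - (a * z' - a * z) - a * z := by rw [sub_mul]; abel
        _ = z * (x - a) := by rw [e5, e6, mul_sub]; abel
    refine ⟨a, (x - a) * p⁻¹, haz, ?_, ?_⟩
    · have e7 : p⁻¹ * z = z' * p⁻¹ := s3
      rw [mul_assoc, e7, ← mul_assoc, e4, mul_assoc]
    · rw [inv_mul_cancel_right₀ hp]
      abel
  -- independence
  have hpz : p * z ≠ z * p := by
    intro h
    rw [h1] at h
    exact hne (mul_right_cancel₀ hp h)
  have hi1 : ∀ a b : K, a * z = z * a → b * z = z * b → a + b * p = 0 → a = 0 ∧ b = 0 := by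
    intro a b ha hb h
    by_cases hb0 : b = 0
    · rw [hb0, zero_mul, add_zero] at h
      exact ⟨h, hb0⟩
    · exfalso
      have e1 : p = b⁻¹ * (-a) := by
        have e2 : b * p = -a := by
          rw [eq_neg_iff_add_eq_zero, add_comm]
          exact h
        rw [← e2, inv_mul_cancel_left₀ hb0]
      have ca : Commute a z := ha
      have cb : Commute b z := hb
      have cp : Commute p z := by
        rw [e1]
        exact cb.inv_left₀.mul_left ca.neg_left
      exact hpz cp
  have hi2 : ∀ a b : K, (∀ x, a * x = x * a) → (∀ x, b * x = x * b) → a + b * z = 0 →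
      a = 0 ∧ b = 0 := by
    intro a b ha hb h
    by_cases hb0 : b = 0
    · rw [hb0, zero_mul, add_zero] at h
      exact ⟨h, hb0⟩
    · exfalso
      have e1 : z = b⁻¹ * (-a) := by
        have e2 : b * z = -a := by
          rw [eq_neg_iff_add_eq_zero, add_comm]
          exact h
        rw [← e2, inv_mul_cancel_left₀ hb0]
      have ca : Commute a p := ha p
      have cb : Commute b p := hb p
      have cp : Commute z p := by
        rw [e1]
        exact cb.inv_left₀.mul_left ca.neg_left
      exact hpz cp.symm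
  have hcen : ∀ c : Subring.center K, ∀ x : K, (c : K) * x = x * (c : K) := by
    intro c x
    exact (Subring.mem_center_iff.1 c.2 x).symm
  let w : Fin 4 → K := ![1, z, p, z * p]
  have hli : LinearIndependent (Subring.center K) w := by
    rw [Fintype.linearIndependent_iff]
    intro g hg
    rw [Fin.sum_univ_four] at hg
    have e1 : ((g 0 : K) + (g 1 : K) * z) + ((g 2 : K) + (g 3 : K) * z) * p = 0 := by
      have e2 : g 0 • w 0 + g 1 • w 1 + g 2 • w 2 + g 3 • w 3 =
          ((g 0 : K) + (g 1 : K) * z) + ((g 2 : K) + (g 3 : K) * z) * p := by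
        show (g 0 : K) * 1 + (g 1 : K) * z + (g 2 : K) * p + (g 3 : K) * (z * p) = _
        noncomm_ring
      rw [← e2]
      exact hg
    have hcz : ∀ c d : Subring.center K, ((c : K) + (d : K) * z) * z = z * ((c : K) + (d : K) * z) := by
      intro c d
      rw [add_mul, mul_add, hcen c z, ← mul_assoc, ← hcen d z]
    obtain ⟨e3, e4⟩ := hi1 _ _ (hcz (g 0) (g 1)) (hcz (g 2) (g 3)) e1
    obtain ⟨f0, f1⟩ := hi2 _ _ (hcen (g 0)) (hcen (g 1)) e3
    obtain ⟨f2, f3⟩ := hi2 _ _ (hcen (g 2)) (hcen (g 3)) e4
    intro i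
    fin_cases i
    · exact Subtype.ext f0
    · exact Subtype.ext f1
    · exact Subtype.ext f2
    · exact Subtype.ext f3
  have hspan : ⊤ ≤ Submodule.span (Subring.center K) (Set.range w) := by
    intro x _
    obtain ⟨a, b, ha, hb, hx⟩ := hdec x
    obtain ⟨α, β, hα, hβ, h4⟩ := hsp a ha
    obtain ⟨γ, δ, hγ, hδ, h5⟩ := hsp b hb
    have hmem : ∀ i, w i ∈ Submodule.span (Subring.center K) (Set.range w) := fun i =>
      Submodule.subset_span ⟨i, rfl⟩
    have hc : ∀ c : K, (∀ x, c * x = x * c) → c ∈ Subring.center K := by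
      intro c hc
      rw [Subring.mem_center_iff]
      intro g
      exact (hc g).symm
    have e1 : x = (⟨α, hc α hα⟩ : Subring.center K) • w 0 +
        (⟨β, hc β hβ⟩ : Subring.center K) • w 1 + (⟨γ, hc γ hγ⟩ : Subring.center K) • w 2 +
        (⟨δ, hc δ hδ⟩ : Subring.center K) • w 3 := by
      show x = α * 1 + β * z + γ * p + δ * (z * p)
      rw [hx, h4, h5]
      noncomm_ring
    rw [e1]
    exact Submodule.add_mem _ (Submodule.add_mem _ (Submodule.add_mem _
      (Submodule.smul_mem _ _ (hmem 0)) (Submodule.smul_mem _ _ (hmem 1)))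
      (Submodule.smul_mem _ _ (hmem 2))) (Submodule.smul_mem _ _ (hmem 3))
  have hfin := Module.finrank_eq_card_basis (Module.Basis.mk hli hspan)
  rw [hfin, Fintype.card_fin]

theorem qt_fwd (hv : IsCDV K v) {ψ : K → K} (hψ : IsAntiAut K v ψ) :
    (∀ a b : K, a * b = b * a) ∨ Module.finrank (Subring.center K) K = 4 := by
  obtain ⟨q, z, hz⟩ := exists_tch hv
  obtain ⟨p, r, hp, hr, hpz⟩ := qt_norm hv hz
  have hp' : v p = ((1 : ℤ) : WithTop ℤ) := hp
  have hp0 : p ≠ 0 := hv.ne_zero hp'
  have hq := hz.two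
  have hz0 : z ≠ 0 := by
    intro h
    have h1 := hz.one
    rw [h, zero_pow (by omega)] at h1
    exact zero_ne_one h1
  have hvz : v z = 0 := by
    obtain ⟨m, hm⟩ := hv.ex hz0
    have hk : ∀ k : ℕ, v (z ^ k) = (((k : ℤ) * m : ℤ) : WithTop ℤ) := by
      intro k
      induction k with
      | zero =>
        rw [pow_zero, hv.one]
        simp
      | succ k ih =>
        rw [pow_succ, hv.mul, ih, hm, ← WithTop.coe_add]
        congr 1
        push_cast
        ring
    have h1 := hk (q - 1)
    rw [hz.one, hv.one] at h1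
    have h2 : (0 : ℤ) = ((q - 1 : ℕ) : ℤ) * m := WithTop.coe_inj.1 h1
    have h3 : ((q - 1 : ℕ) : ℤ) ≠ 0 := by
      intro h4
      have : q - 1 = 0 := by exact_mod_cast h4
      omega
    have h4 : m = 0 := by
      rcases mul_eq_zero.1 h2.symm with h5 | h5
      · exact absurd h5 h3
      · exact h5
    rw [hm, h4]
    rfl
  have hpi : ∀ i : ℕ, p * z ^ i = (z ^ r) ^ i * p := by
    intro i
    have s : SemiconjBy p z (z ^ r) := hpz
    exact s.pow_right i
  have hrr : z ^ (r * r) = z := by
    have h1 := qt_sq hv hψ hp (a := z) (le_of_eq hvz.symm)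
    have h2 : p * (p * z * p⁻¹) * p⁻¹ = z ^ (r * r) := by
      rw [hpz, mul_inv_cancel_right₀ hp0, hpi r, mul_inv_cancel_right₀ hp0, ← pow_mul]
    rw [h2] at h1
    have h3 := hz.inj (r * r) 1 (by rw [pow_one]; exact h1)
    rw [h3, pow_one]
  by_cases hc : z ^ r = z
  · left
    rw [hc] at hpz
    have cz : ∀ x, z * x = x * z := qt_dense hv hz hp rfl hpz.symm
    have cp : ∀ x, p * x = x * p := qt_dense hv hz hp hpz rfl
    intro a b
    exact qt_dense hv hz hp (cz a).symm (cp a).symm b
  · right
    refine qtd_alg hp0 hc hpz ?_ ?_ ?_ ?_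
    · rw [hpi r, ← pow_mul, hrr]
    · rw [← pow_succ, ← pow_succ']
    · intro y hy
      have : Commute y z := hy
      exact this.pow_right r
    · intro y h1 h2 x
      exact qt_dense hv hz hp h1 h2 x

end Pool.Agent.PLB
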