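import Pool.Agent.PLB.CoA

set_option autoImplicit false

/-! Theorem PB, (1.3): straight rays are points at infinity.

PLAN. `ray_end`: let `c` be a straight ray, `x = c 0`. For `y` choose `k` with `x ≤ s^k y` (PB.dir); the elements
`c i ⊔ s^k y` form an increasing chain, each step is equal or a cover (`c i ⋖ c (i+1)`), and it is not eventually
constant (`c (i + j) ≰ s^j-ish`: `c (n+1) ≰ s^n x` by `Str.not_le_it`, and `s^k y ≤ s^n x` for large `n`). Let
`f y = s^-k` (the cover of `s^k y` in this chain). Independence of `k`: compare `k` and `k + 1`: if `c m ≤ s^k y`,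
`c (m+1) ≰ s^k y` and `c m' ≤ s^(k+1) y`, `c (m'+1) ≰ s^(k+1) y`, then `m' = m + 1` (straightness: `c (m+1) ≤ s (s^k y)` as
`c m ⋖ c (m+1)`, and `c (m+2) ≤ s^(k+1) y` would give, with `w = c m`: the interval `[c m, c (m+2)]` is a chain whose part
below `s^(k+1) y`...; use that `c (m + 2) ⊔ s^k y` is obtained from `s^k y` by two covers and is not `≤ s (s^k y)`: a
cover `p` of `c m` with `p ≤ c (m+2) ⊓ s^k y` must be `c (m+1)`). A convenient reformulation: for every `y ≥ x` the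
sequence `c' i = c (m + i) ⊔ y` with `c m ≤ y`, `c (m+1) ≰ y` is again a straight ray starting at `y` (transport of rays),
transport to `s^k x` gives `s^k c`. Monotone: transport is functorial.
`end_ext`: two points with the same ray at `x` agree at every `y`: with `k` as above, `step` shows that `f (s^k y)` is the
first element above `s^k y` in the chain `f^i x ⊔ s^k y`. `ray_co`, `co_ext` are the duals. `thru`: extend the cover
`x ⋖ a` to a straight ray: in the plane `[c (i+1), s c (i+1)]` the element `s (c i)` is not the top, so there is a cover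
of `c (i+1)` not below it (compare `RIG.Str.ext`). -/

namespace Pool.Agent.PLB

open Pool.Agent.Helper87.ML Pool.Agent.RIG OrderDual

universe u

variable {X : Type u} [Lattice X] [IsModularLattice X] {s : X ≃o X} [PB X s]

omit [PB X s] in
private lemma rayA_not_le (hF : LF X) (hs : IsUp (s : X → X)) {a b d y : X} (hab : a ⋖ b)
    (hbd : b ⋖ d) (hicc : ∀ r, a ≤ r → r ≤ d → r = a ∨ r = b ∨ r = d) (hy0 : a ≤ y)
    (ih' : ¬ b ≤ y) : ¬ d ≤ s y := by
  intro hcon
  have had : a ≤ d := hab.le.trans hbd.le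
  have h2y : ¬ d ≤ y := fun h1 => ih' (hbd.le.trans h1)
  have h3 : y ⊔ b < y ⊔ d := by
    apply lt_of_le_of_ne (sup_le_sup_left hbd.le y)
    intro he
    have h4 : d ≤ b ⊔ y := by
      rw [sup_comm, he]; exact le_sup_right
    have h5 : (b ⊔ y) ⊓ d = b ⊔ y ⊓ d := sup_inf_assoc_of_le y hbd.le
    rw [inf_eq_right.2 h4] at h5
    rcases hicc (y ⊓ d) (le_inf hy0 had) inf_le_right with h6 | h6 | h6
    · rw [h6, sup_eq_left.2 hab.le] at h5
      exact hbd.lt.ne' h5
    · exact ih' (h6.symm.le.trans inf_le_left)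
    · exact h2y (h6.symm.le.trans inf_le_left)
  obtain ⟨p, hp1, hp2, hp3⟩ := exists_cov_off hF hs (le_sup_left : y ≤ y ⊔ b) h3
    (sup_le (le_s hs y) hcon)
  have h4 : p = y ⊔ d ⊓ p := by
    rw [← sup_inf_assoc_of_le d hp1.le]
    exact (inf_eq_right.2 hp2).symm
  rcases hicc (d ⊓ p) (le_inf had (hy0.trans hp1.le)) inf_le_left with h6 | h6 | h6
  · rw [h6, sup_eq_left.2 hy0] at h4
    exact hp1.lt.ne' h4
  · rw [h6] at h4
    exact hp3 h4.le
  · rw [h6] at h4
    have h7 : y < y ⊔ b := lt_of_le_of_ne le_sup_left fun h8 => ih' (by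
      rw [h8]; exact le_sup_right)
    rw [h4] at hp1
    exact hp1.2 h7 h3

private lemma rayA_cov {a b z : X} (hab : a ⋖ b) (ha : a ≤ z) (hb : ¬ b ≤ z) : z ⋖ b ⊔ z := by
  apply covBy_sup_of_inf_covBy_left
  have h1 : b ⊓ z = a := by
    have h5 : a ≤ b ⊓ z := le_inf hab.le ha
    rcases eq_or_lt_of_le h5 with h6 | h6
    · exact h6.symm
    · exfalso
      rcases eq_or_lt_of_le (inf_le_left : b ⊓ z ≤ b) with h7 | h7
      · exact hb (inf_eq_left.1 h7)
      · exact hab.2 h6 h7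
  rw [h1]
  exact hab

omit [IsModularLattice X] [PB X s] in
private lemma rayA_it_sup (k : ℕ) (a b : X) : s^[k] (a ⊔ b) = s^[k] a ⊔ s^[k] b := by
  induction k generalizing a b with
  | zero => rfl
  | succ k ih =>
    rw [Function.iterate_succ_apply, Function.iterate_succ_apply, Function.iterate_succ_apply,
      map_sup, ih]

omit [IsModularLattice X] [PB X s] in
private lemma rayA_it_le (k : ℕ) (a b : X) : s^[k] a ≤ s^[k] b ↔ a ≤ b := by
  induction k generalizing a b with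
  | zero => exact Iff.rfl
  | succ k ih =>
    rw [Function.iterate_succ_apply, Function.iterate_succ_apply, ih, s.le_iff_le]

omit [IsModularLattice X] [PB X s] in
private lemma rayA_it_inj (k : ℕ) {a b : X} (h : s^[k] a = s^[k] b) : a = b :=
  le_antisymm ((rayA_it_le k a b).1 h.le) ((rayA_it_le k b a).1 h.ge)

omit [IsModularLattice X] [PB X s] in
private lemma rayA_it_lt (k : ℕ) (a b : X) : s^[k] a < s^[k] b ↔ a < b := by
  rw [lt_iff_le_not_ge, lt_iff_le_not_ge, rayA_it_le, rayA_it_le]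

omit [IsModularLattice X] [PB X s] in
private lemma rayA_comm (k : ℕ) (y : X) : s^[k] (s y) = s (s^[k] y) :=
  (Function.iterate_succ_apply (s : X → X) k y).symm.trans
    (Function.iterate_succ_apply' (s : X → X) k y)

omit [IsModularLattice X] [PB X s] in
private lemma rayA_symm_it (k : ℕ) (a : X) : s^[k] (s.symm^[k] a) = a := by
  induction k generalizing a with
  | zero => rfl
  | succ k ih =>
    rw [Function.iterate_succ_apply' (f := s.symm), Function.iterate_succ_apply,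
      s.apply_symm_apply, ih]

omit [IsModularLattice X] [PB X s] in
private lemma rayA_it_cov (k : ℕ) {a b : X} (h : s^[k] a ⋖ s^[k] b) : a ⋖ b := by
  refine ⟨(rayA_it_lt k a b).1 h.1, fun t h1 h2 => ?_⟩
  exact h.2 ((rayA_it_lt k a t).2 h1) ((rayA_it_lt k t b).2 h2)

theorem end_ext {f f' : Pt s} (x : X) (h : ∀ i, f.1^[i] x = f'.1^[i] x) : f = f' := by
  have key : ∀ z, x ≤ z → f.1 z = f'.1 z := by
    intro z hz
    obtain ⟨n, hn⟩ := PB.dir (s := s) z x
    have h1 : ∃ j, ¬ f.1^[j] x ≤ z := ⟨n + 1, fun h2 => it_not_le_s f n x (h2.trans hn)⟩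
    classical
    have h2 := Nat.find_spec h1
    have h3 : Nat.find h1 ≠ 0 := by
      intro h4
      rw [h4] at h2
      exact h2 hz
    obtain ⟨m, hm⟩ := Nat.exists_eq_succ_of_ne_zero h3
    rw [hm] at h2
    have h4 : f.1^[m] x ≤ z := by
      by_contra h5
      have h6 := Nat.find_min' h1 h5
      omega
    have g1 : f.1^[m + 1] x = f.1 (f.1^[m] x) := Function.iterate_succ_apply' f.1 m x
    have g2 : f'.1^[m + 1] x = f'.1 (f'.1^[m] x) := Function.iterate_succ_apply' f'.1 m x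
    have h5 : ¬ f.1 (f.1^[m] x) ≤ z := by
      rw [← g1]
      exact h2
    have h6 : ¬ f'.1 (f'.1^[m] x) ≤ z := by
      rw [← g2, ← h]
      exact h2
    have h7 : f'.1^[m] x ≤ z := by
      rw [← h]
      exact h4
    rw [← step f h4 h5, ← step f' h7 h6, ← g1, ← g2, h]
  apply Pt.ext
  intro y
  obtain ⟨k, hk⟩ := PB.dir (s := s) x y
  have h1 := key _ hk
  have h2 := it_s f 1 k y
  have h3 := it_s f' 1 k y
  simp only [Function.iterate_one] at h2 h3
  rw [h2, h3] at h1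
  exact rayA_it_inj k h1

section

variable {c : ℕ → X} (h1 : ∀ i, c i ⋖ c (i + 1)) (h2 : ∀ i, ¬ c (i + 2) ≤ s (c i))
include h1

omit [IsModularLattice X] in
private lemma rayA_uniq {z : X} {m n : ℕ} (hm : c m ≤ z) (hm1 : ¬ c (m + 1) ≤ z) (hn : c n ≤ z)
    (hn1 : ¬ c (n + 1) ≤ z) : m = n := by
  have hmono : Monotone c := monotone_nat_of_le_succ fun i => (h1 i).le
  rcases lt_trichotomy m n with h | h | h
  · exact absurd ((hmono (show m + 1 ≤ n from h)).trans hn) hm1
  · exact h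
  · exact absurd ((hmono (show n + 1 ≤ m from h)).trans hm) hn1

include h2

omit [IsModularLattice X] [PB X s] in
private lemma rayA_str (m : ℕ) : Str (s : X → X) c m :=
  ⟨fun i _ => h1 i, fun i _ => h2 i⟩

private lemma rayA_idx {z : X} (hz : c 0 ≤ z) : ∃ m, c m ≤ z ∧ ¬ c (m + 1) ≤ z := by
  obtain ⟨n, hn⟩ := PB.dir (s := s) z (c 0)
  have h3 : ∃ j, ¬ c j ≤ z := ⟨n + 1, fun h4 => by
    have h5 := (rayA_str h1 h2 (n + 1)).not_le_it (PB.fin s) PB.up 0 n (by omega)
    rw [Nat.zero_add] at h5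
    exact h5 (h4.trans hn)⟩
  classical
  have h4 := Nat.find_spec h3
  have h5 : Nat.find h3 ≠ 0 := by
    intro h6
    rw [h6] at h4
    exact h4 hz
  obtain ⟨m, hm⟩ := Nat.exists_eq_succ_of_ne_zero h5
  refine ⟨m, ?_, ?_⟩
  · by_contra h6
    have h7 := Nat.find_min' h3 h6
    omega
  · rw [hm] at h4
    exact h4

private lemma rayA_no {z : X} {m : ℕ} (hm : c m ≤ z) (hm1 : ¬ c (m + 1) ≤ z) :
    ¬ c (m + 2) ≤ s z := by
  refine rayA_not_le (PB.fin s) PB.up (h1 m) (h1 (m + 1)) ?_ hm hm1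
  intro r h3 h4
  obtain ⟨t, ht1, ht2, rfl⟩ := Str.icc (PB.fin s) PB.up (rayA_str h1 h2 (m + 2)) 2 m (m + 2) rfl
    le_rfl r h3 h4
  have : t = m ∨ t = m + 1 ∨ t = m + 2 := by omega
  rcases this with rfl | rfl | rfl
  · exact Or.inl rfl
  · exact Or.inr (Or.inl rfl)
  · exact Or.inr (Or.inr rfl)

private lemma rayA_s {z : X} {m : ℕ} (hm : c m ≤ z) (hm1 : ¬ c (m + 1) ≤ z) :
    c (m + 1) ≤ s z ∧ ¬ c (m + 1 + 1) ≤ s z ∧ c (m + 1 + 1) ⊔ s z = s (c (m + 1) ⊔ z) := by
  have hs : IsUp (s : X → X) := PB.up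
  have h3 : c (m + 1) ≤ s z := (cov_le_s hs (h1 m)).trans (s.monotone hm)
  have h4 := rayA_no h1 h2 hm hm1
  refine ⟨h3, h4, ?_⟩
  have h5 : s z ⋖ c (m + 1 + 1) ⊔ s z := rayA_cov (h1 (m + 1)) h3 h4
  have h6 : s z ⋖ s (c (m + 1) ⊔ z) := (apply_covBy_apply_iff s).2 (rayA_cov (h1 m) hm hm1)
  have h7 : c (m + 1 + 1) ⊔ s z ≤ s (c (m + 1) ⊔ z) := by
    rw [map_sup]
    exact sup_le_sup_right (cov_le_s hs (h1 (m + 1))) _
  rcases eq_or_lt_of_le h7 with h8 | h8
  · exact h8
  · exact absurd h8 (h6.2 h5.lt)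

private lemma rayA_it {z : X} {m : ℕ} (hm : c m ≤ z) (hm1 : ¬ c (m + 1) ≤ z) (j : ℕ) :
    c (m + j) ≤ s^[j] z ∧ ¬ c (m + j + 1) ≤ s^[j] z ∧
      c (m + j + 1) ⊔ s^[j] z = s^[j] (c (m + 1) ⊔ z) := by
  induction j with
  | zero => exact ⟨hm, hm1, rfl⟩
  | succ j ih =>
    have h3 := rayA_s h1 h2 ih.1 ih.2.1
    rw [Function.iterate_succ_apply', Function.iterate_succ_apply', ← ih.2.2]
    exact h3

end

theorem ray_end (c : ℕ → X) (h1 : ∀ i, c i ⋖ c (i + 1)) (h2 : ∀ i, ¬ c (i + 2) ≤ s (c i)) :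
    ∃ f : Pt s, ∀ i, f.1^[i] (c 0) = c i := by
  choose K hK using fun y => PB.dir (s := s) (c 0) y
  choose M hM hM1 using fun y => rayA_idx h1 h2 (hK y)
  obtain ⟨f, hf⟩ : ∃ f : X → X, ∀ y, f y = s.symm^[K y] (c (M y + 1) ⊔ s^[K y] y) :=
    ⟨_, fun y => rfl⟩
  have key : ∀ y k m, c m ≤ s^[k] y → ¬ c (m + 1) ≤ s^[k] y →
      s^[k] (f y) = c (m + 1) ⊔ s^[k] y := by
    intro y k m hm hm1
    have e1 : s^[K y] (f y) = c (M y + 1) ⊔ s^[K y] y := by
      rw [hf, rayA_symm_it]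
    have e2 := rayA_it h1 h2 (hM y) (hM1 y) k
    have e3 := rayA_it h1 h2 hm hm1 (K y)
    rw [← e1] at e2
    have e4 : s^[k] (s^[K y] y) = s^[K y] (s^[k] y) := by
      rw [← Function.iterate_add_apply, ← Function.iterate_add_apply, add_comm]
    have e5 : s^[k] (s^[K y] (f y)) = s^[K y] (s^[k] (f y)) := by
      rw [← Function.iterate_add_apply, ← Function.iterate_add_apply, add_comm]
    rw [e4, e5] at e2
    have e6 := rayA_uniq h1 e2.1 e2.2.1 e3.1 e3.2.1
    apply rayA_it_inj (K y)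
    rw [← e2.2.2, e6, e3.2.2]
  have hex : ∀ y k, c 0 ≤ s^[k] y → ∃ m, c m ≤ s^[k] y ∧ ¬ c (m + 1) ≤ s^[k] y :=
    fun y k h => rayA_idx h1 h2 h
  have hmono : Monotone c := monotone_nat_of_le_succ fun i => (h1 i).le
  have hs : IsUp (s : X → X) := PB.up
  have hcov : ∀ y, y ⋖ f y := by
    intro y
    apply rayA_it_cov (s := s) (K y)
    rw [key y (K y) (M y) (hM y) (hM1 y)]
    exact rayA_cov (h1 (M y)) (hM y) (hM1 y)
  have hcomm : ∀ y, f (s y) = s (f y) := by
    intro y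
    have e1 := rayA_s h1 h2 (hM y) (hM1 y)
    have e2 : s^[K y] (s y) = s (s^[K y] y) := rayA_comm (K y) y
    have e3 : s^[K y] (s (f y)) = s (s^[K y] (f y)) := rayA_comm (K y) (f y)
    apply rayA_it_inj (K y)
    rw [key (s y) (K y) (M y + 1) (by rw [e2]; exact e1.1) (by rw [e2]; exact e1.2.1), e2, e3,
      key y (K y) (M y) (hM y) (hM1 y)]
    exact e1.2.2
  refine ⟨⟨f, ?_, hcov, ?_, hcomm⟩, ?_⟩
  · intro y y' hy
    have e0 : s^[K y] y ≤ s^[K y] y' := (rayA_it_le _ _ _).2 hy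
    obtain ⟨m, hm, hm1⟩ := hex y' (K y) ((hK y).trans e0)
    rw [← rayA_it_le (s := s) (K y), key y (K y) (M y) (hM y) (hM1 y), key y' (K y) m hm hm1]
    have e1 : M y ≤ m := by
      by_contra e2
      exact hm1 ((hmono (show m + 1 ≤ M y by omega)).trans ((hM y).trans e0))
    exact sup_le_sup (hmono (by omega)) e0
  · intro y h3
    have e1 := rayA_no h1 h2 (hM y) (hM1 y)
    have e2 := key y (K y) (M y) (hM y) (hM1 y)
    have e3 : c (M y + 1) ≤ s^[K y] (f y) := by
      rw [e2]; exact le_sup_left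
    have e4 : s^[K y] (f y) ≤ s (s^[K y] y) := by
      rw [e2]
      exact cov_le_s hs (rayA_cov (h1 (M y)) (hM y) (hM1 y))
    have e5 : ¬ c (M y + 1 + 1) ≤ s^[K y] (f y) := fun e6 => e1 (e6.trans e4)
    have e6 := key (f y) (K y) (M y + 1) e3 e5
    have e7 : s^[K y] (f (f y)) ≤ s^[K y] (s y) := (rayA_it_le _ _ _).2 h3
    have e8 : s^[K y] (s y) = s (s^[K y] y) := rayA_comm (K y) y
    rw [e6, e8] at e7
    exact e1 (le_sup_left.trans e7)
  · intro i
    show f^[i] (c 0) = c i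
    induction i with
    | zero => rfl
    | succ i ih =>
      rw [Function.iterate_succ_apply', ih]
      have e1 := key (c i) 0 i le_rfl (h1 i).lt.not_ge
      have e2 : f (c i) = c (i + 1) ⊔ c i := e1
      rw [e2]
      exact sup_eq_left.2 (h1 i).le

end Pool.Agent.PLB
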