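import Pool.Agent.PLB.CoA

set_option autoImplicit false

/-! Theorem PB: the rank function of `X` and the group `Gp X` of rank preserving automorphisms.

PLAN. In a modular lattice with finite intervals all maximal chains of `[x, y]` have the same length `l(x, y)`
(Helper87/ML/Lat.lean and Helper87/ML/Dec.lean contain length functions; or use `Order.krullDim`/`Order.height`
of `Set.Icc x y`, or `Set.Icc`-chains by induction; Mathlib: `CovBy` and `IsModularLattice` give the Jordan-Hölder
property). Put `r x = l(s^-k o, x) - 3 k` for `s^-k o ≤ x`. `l(x, s x) = 3` for a plane. For `x ≤ y` the length is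
additive; the modular law gives `l(x ⊓ y, x) = l(y, x ⊔ y)` (`infIccOrderIsoIccSup`).
`rk_unique`: two functions increasing by one along covers differ by a constant (finite intervals, common upper
bounds). -/

namespace Pool.Agent.PLB

open Pool.Agent.Helper87.ML Pool.Agent.RIG OrderDual

universe u

variable {X : Type u} [Lattice X] [IsModularLattice X] {s : X ≃o X} [PB X s]

/-- maximal chains of length `n` from `x` to `z` -/
private inductive RkaLen {Y : Type u} [Lattice Y] : Y → Y → ℕ → Prop
  | refl (x : Y) : RkaLen x x 0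
  | step {x y z : Y} {n : ℕ} (h : x ⋖ y) (h' : RkaLen y z n) : RkaLen x z (n + 1)

omit [IsModularLattice X] in
private theorem rka_le {x z : X} {n : ℕ} (h : RkaLen x z n) : x ≤ z := by
  induction h with
  | refl x => exact le_rfl
  | step h _ ih => exact h.le.trans ih

omit [IsModularLattice X] in
private theorem rka_zero {x z : X} (h : RkaLen x z 0) : x = z := by
  cases h
  rfl

omit [IsModularLattice X] in
private theorem rka_pos {x z : X} {n : ℕ} (h : RkaLen x z (n + 1)) : x < z := by
  cases h with
  | step h h' => exact h.lt.trans_le (rka_le h')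

omit [IsModularLattice X] in
private theorem rka_ex (hF : LF X) : ∀ (m : ℕ) (x z : X), x ≤ z → (Set.Icc x z).ncard ≤ m →
    ∃ n, RkaLen x z n := by
  intro m
  induction m with
  | zero =>
    intro x z hxz h
    have h1 : (Set.Icc x z).Nonempty := ⟨x, le_rfl, hxz⟩
    have h2 := (Set.ncard_pos (hF x z)).2 h1
    omega
  | succ m ih =>
    intro x z hxz h
    rcases eq_or_lt_of_le hxz with rfl | h1
    · exact ⟨0, RkaLen.refl x⟩
    · obtain ⟨y, hy, hyz⟩ := lf_cov hF h1
      have h2 : (Set.Icc y z).ncard < (Set.Icc x z).ncard := by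
        refine Set.ncard_lt_ncard ⟨Set.Icc_subset_Icc_left hy.le, fun h3 => ?_⟩ (hF x z)
        have h4 : x ∈ Set.Icc y z := h3 ⟨le_rfl, hxz⟩
        exact hy.lt.not_ge h4.1
      obtain ⟨n, hn⟩ := ih y z hyz (by omega)
      exact ⟨n + 1, RkaLen.step hy hn⟩

omit [IsModularLattice X] in
private theorem rka_exists (hF : LF X) {x z : X} (h : x ≤ z) : ∃ n, RkaLen x z n :=
  rka_ex hF _ x z h le_rfl

omit [IsModularLattice X] in
private theorem rka_trans {x y z : X} {n m : ℕ} (h : RkaLen x y n) (h' : RkaLen y z m) :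
    RkaLen x z (n + m) := by
  induction h with
  | refl x => rw [Nat.zero_add]; exact h'
  | step h _ ih =>
    have h1 := RkaLen.step h (ih h')
    rw [Nat.add_right_comm]
    exact h1

private theorem rka_cov2 {x y y' : X} (h : x ⋖ y) (h' : x ⋖ y') (hne : y ≠ y') : y ⋖ y ⊔ y' := by
  have h1 : y ⊓ y' = x := by
    have h2 : x ≤ y ⊓ y' := le_inf h.le h'.le
    rcases eq_or_lt_of_le h2 with h3 | h3
    · exact h3.symm
    · exfalso
      rcases eq_or_lt_of_le (inf_le_left : y ⊓ y' ≤ y) with h4 | h4
      · rcases eq_or_lt_of_le (inf_eq_left.1 h4) with h5 | h5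
        · exact hne h5
        · exact h'.2 h.lt h5
      · exact h.2 h3 h4
  apply covBy_sup_of_inf_covBy_right
  rw [h1]
  exact h'

private theorem rka_uniq (hF : LF X) : ∀ (n : ℕ) {x z : X} {m : ℕ}, RkaLen x z n → RkaLen x z m →
    n = m := by
  intro n
  induction n using Nat.strong_induction_on with
  | _ n ih =>
    intro x z m h h'
    rcases n with _ | n
    · rcases m with _ | m
      · rfl
      · exact absurd (rka_zero h) (rka_pos h').ne
    · rcases m with _ | m
      · exact absurd (rka_zero h') (rka_pos h).ne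
      · cases h with
        | step h1 h2 =>
          cases h' with
          | step h1' h2' =>
            rename_i y y'
            by_cases hyy : y = y'
            · subst hyy
              rw [ih n (Nat.lt_succ_self n) h2 h2']
            · have hyz := rka_le h2
              have hyz' := rka_le h2'
              obtain ⟨k, hk⟩ := rka_exists hF (sup_le hyz hyz')
              have h3 := RkaLen.step (rka_cov2 h1 h1' hyy) hk
              have h3' : RkaLen y' z (k + 1) := by
                refine RkaLen.step ?_ hk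
                rw [sup_comm]
                exact rka_cov2 h1' h1 (Ne.symm hyy)
              have h4 := ih n (Nat.lt_succ_self n) h2 h3
              rw [← h4] at h3'
              rw [ih n (Nat.lt_succ_self n) h3' h2']

private theorem rka_mod {x y x' : X} {n : ℕ} (h : RkaLen x' x n) :
    x ⊓ y ≤ x' → RkaLen (x' ⊔ y) (x ⊔ y) n := by
  induction h with
  | refl x => exact fun _ => RkaLen.refl _
  | step h h2 ih =>
    rename_i a b c n
    intro h1
    refine RkaLen.step ?_ (ih (h1.trans h.le))
    have h3 : b ⊓ (a ⊔ y) = a := by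
      have h4 : (a ⊔ y) ⊓ b = a ⊔ y ⊓ b := sup_inf_assoc_of_le y h.le
      rw [inf_comm, h4]
      apply sup_eq_left.2
      refine le_trans ?_ h1
      rw [inf_comm]
      exact inf_le_inf_right y (rka_le h2)
    have h4 : a ⊔ y ⋖ b ⊔ (a ⊔ y) := by
      apply covBy_sup_of_inf_covBy_left
      rw [h3]
      exact h
    rwa [← sup_assoc, sup_eq_left.2 h.le] at h4

omit [IsModularLattice X] in
private theorem rka_rank {r : X → ℤ} (h : ∀ x y, x ⋖ y → r y = r x + 1) {x z : X} {n : ℕ}
    (hn : RkaLen x z n) : r z = r x + n := by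
  induction hn with
  | refl x => simp
  | step h1 _ ih =>
    rw [ih, h _ _ h1]
    push_cast
    ring

omit [IsModularLattice X] in
private theorem rka_map (t : X ≃o X) {x z : X} {n : ℕ} (hn : RkaLen x z n) :
    RkaLen (t x) (t z) n := by
  induction hn with
  | refl x => exact RkaLen.refl _
  | step h1 _ ih => exact RkaLen.step ((apply_covBy_apply_iff t).2 h1) ih

omit [IsModularLattice X] in
private theorem rka_plane (s : X ≃o X) [PB X s] (x : X) : RkaLen x (s x) 3 := by
  obtain ⟨p, m, hp, hpm, hm⟩ := plane_chain4 (PB.pl (s := s) x)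
  have h1 : p ⋖ m := by
    refine ⟨hpm, fun w hw hw' => ?_⟩
    rcases (PB.pl (s := s) x).1 w (hp.le.trans hw.le) (hw'.le.trans hm.le) with h | h | h | h
    · rw [h] at hw
      exact lt_asymm hp.lt hw
    · exact h.2 hp.lt hw
    · exact h.2 hw' hm.lt
    · rw [h] at hw'
      exact lt_asymm hm.lt hw'
  exact RkaLen.step hp (RkaLen.step h1 (RkaLen.step hm (RkaLen.refl _)))

omit [IsModularLattice X] in
private theorem rka_down (s : X ≃o X) [PB X s] (k j : ℕ) (x : X) :
    RkaLen (s.symm^[j + k] x) (s.symm^[k] x) (3 * j) := by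
  induction j with
  | zero => rw [Nat.zero_add]; exact RkaLen.refl _
  | succ j ih =>
    have h1 := rka_plane s (s.symm^[j + 1 + k] x)
    have h2 : s (s.symm^[j + 1 + k] x) = s.symm^[j + k] x := by
      rw [show j + 1 + k = (j + k) + 1 by ring, Function.iterate_succ_apply', s.apply_symm_apply]
    rw [h2] at h1
    have h3 := rka_trans h1 ih
    rw [show 3 * (j + 1) = 3 + 3 * j by ring]
    exact h3

omit [IsModularLattice X] in
private theorem rka_base (s : X ≃o X) [PB X s] (o x : X) : ∃ k : ℕ, s.symm^[k] o ≤ x := by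
  obtain ⟨k, hk⟩ := PB.dir (s := s) o x
  refine ⟨k, ?_⟩
  induction k generalizing o with
  | zero => exact hk
  | succ k ih =>
    rw [Function.iterate_succ_apply]
    apply ih
    rw [Function.iterate_succ_apply'] at hk
    rw [← s.le_iff_le, s.apply_symm_apply]
    exact hk

theorem exists_rk (s : X ≃o X) [PB X s] : ∃ r : X → ℤ, IsRk s r := by
  classical
  have hF : LF X := PB.fin s
  by_cases hX : Nonempty X
  swap
  · have : IsEmpty X := not_nonempty_iff.1 hX
    exact ⟨fun _ => 0, fun x => isEmptyElim x, fun x => isEmptyElim x, fun x => isEmptyElim x,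
      fun x => isEmptyElim x⟩
  obtain ⟨o⟩ := hX
  choose k hk using rka_base s o
  choose e he using fun x => rka_exists hF (hk x)
  -- comparison for any base
  have key : ∀ (x : X) (j n : ℕ), RkaLen (s.symm^[j] o) x n → (n : ℤ) - 3 * j = (e x : ℤ) - 3 * k x := by
    intro x j n hn
    rcases Nat.le_total j (k x) with h | h
    · obtain ⟨i, hi⟩ := Nat.exists_eq_add_of_le' h
      have h1 := rka_down s j i o
      rw [← hi] at h1
      have h2 := rka_uniq hF _ (he x) (rka_trans h1 hn)
      rw [h2, hi]
      push_cast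
      ring
    · obtain ⟨i, hi⟩ := Nat.exists_eq_add_of_le' h
      have h1 := rka_down s (k x) i o
      rw [← hi] at h1
      have h2 := rka_uniq hF _ hn (rka_trans h1 (he x))
      rw [h2, hi]
      push_cast
      ring
  have hle : ∀ {x y : X} {n : ℕ}, RkaLen x y n →
      (e y : ℤ) - 3 * k y = ((e x : ℤ) - 3 * k x) + n := by
    intro x y n hn
    have h1 := key y (k x) (e x + n) (rka_trans (he x) hn)
    rw [← h1]
    push_cast
    ring
  refine ⟨fun x => (e x : ℤ) - 3 * k x, ?_, ?_, ?_, ?_⟩
  · intro x y hxy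
    have h1 := hle (RkaLen.step hxy (RkaLen.refl y))
    show (e y : ℤ) - 3 * k y = ((e x : ℤ) - 3 * k x) + 1
    rw [h1]
    simp
  · intro x y hxy
    obtain ⟨n, hn⟩ := rka_exists hF hxy.le
    rcases n with _ | n
    · exact absurd (rka_zero hn) hxy.ne
    · have h1 := hle hn
      show (e x : ℤ) - 3 * k x < (e y : ℤ) - 3 * k y
      rw [h1]
      push_cast
      linarith [Nat.cast_nonneg (α := ℤ) n]
  · intro x y
    obtain ⟨n, hn⟩ := rka_exists hF (inf_le_left : x ⊓ y ≤ x)
    have h2 := rka_mod (y := y) hn le_rfl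
    rw [sup_eq_right.2 (inf_le_right : x ⊓ y ≤ y)] at h2
    have h3 := hle hn
    have h4 := hle h2
    show ((e (x ⊔ y) : ℤ) - 3 * k (x ⊔ y)) + ((e (x ⊓ y) : ℤ) - 3 * k (x ⊓ y)) =
      ((e x : ℤ) - 3 * k x) + ((e y : ℤ) - 3 * k y)
    linarith
  · intro x
    have h1 := hle (rka_plane s x)
    show (e (s x) : ℤ) - 3 * k (s x) = ((e x : ℤ) - 3 * k x) + 3
    rw [h1]
    push_cast
    ring

omit [IsModularLattice X] in
theorem rk_unique (s : X ≃o X) [PB X s] {r r' : X → ℤ} (h : ∀ x y, x ⋖ y → r y = r x + 1)
    (h' : ∀ x y, x ⋖ y → r' y = r' x + 1) (x y : X) : r x - r y = r' x - r' y := by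
  have hF : LF X := PB.fin s
  obtain ⟨n, hn⟩ := rka_exists hF (le_sup_left : x ≤ x ⊔ y)
  obtain ⟨m, hm⟩ := rka_exists hF (le_sup_right : y ≤ x ⊔ y)
  have h1 := rka_rank h hn
  have h2 := rka_rank h hm
  have h3 := rka_rank h' hn
  have h4 := rka_rank h' hm
  linarith

omit [IsModularLattice X] [PB X s] in
theorem rk_eq {r : X → ℤ} (h : IsRk s r) {x y : X} (hxy : x ≤ y) (k : r y ≤ r x) : x = y := by
  rcases eq_or_lt_of_le hxy with h1 | h1
  · exact h1
  · exact absurd (h.lt x y h1) (not_lt.2 k)

omit [IsModularLattice X] [PB X s] in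
theorem rk_mono {r : X → ℤ} (h : IsRk s r) {x y : X} (hxy : x ≤ y) : r x ≤ r y := by
  rcases eq_or_lt_of_le hxy with h1 | h1
  · rw [h1]
  · exact (h.lt x y h1).le

omit [IsModularLattice X] [PB X s] in
theorem rk_it {r : X → ℤ} (h : IsRk s r) (f : Pt s) (k : ℕ) (x : X) :
    r (f.1^[k] x) = r x + k := by
  induction k with
  | zero => simp
  | succ k ih =>
    rw [Function.iterate_succ_apply', h.cov _ _ (f.2.cov _), ih]
    push_cast
    ring

omit [IsModularLattice X] [PB X s] in
theorem rk_s {r : X → ℤ} (h : IsRk s r) (k : ℕ) (x : X) : r (s^[k] x) = r x + 3 * k := by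
  induction k with
  | zero => simp
  | succ k ih =>
    rw [Function.iterate_succ_apply', h.sh, ih]
    push_cast
    ring

omit [IsModularLattice X] [PB X s] in
theorem rk_symm {r : X → ℤ} (h : IsRk s r) (k : ℕ) (x : X) :
    r (s.symm^[k] x) = r x - 3 * k := by
  induction k with
  | zero => simp
  | succ k ih =>
    have h1 := h.sh (s.symm (s.symm^[k] x))
    rw [s.apply_symm_apply, ih] at h1
    rw [Function.iterate_succ_apply']
    push_cast
    linarith

omit [IsModularLattice X] [PB X s] in
theorem rk_co {r : X → ℤ} (h : IsRk s r) (l : Ln s) (k : ℕ) (x : X) :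
    r (l.1^[k] x) = r x - k := by
  induction k with
  | zero => simp
  | succ k ih =>
    have h1 := h.cov _ _ (l.2.cov (l.1^[k] x))
    rw [ih] at h1
    rw [Function.iterate_succ_apply']
    push_cast
    linarith

omit [IsModularLattice X] [PB X s] in
theorem rk_Hk {r : X → ℤ} (h : IsRk s r) (l : Ln s) (k : ℕ) (x : X) :
    r (Hk l k x) = r x + 2 * k := by
  unfold Hk
  rw [rk_co h, rk_s h]
  ring

private theorem rka_gp (s : X ≃o X) [PB X s] {g : X ≃o X} {x : X}
    (h : ∀ r : X → ℤ, (∀ x y, x ⋖ y → r y = r x + 1) → r (g x) = r x) : g ∈ Gp X := by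
  intro r hr y
  have h1 := h r hr
  have h2 := rk_unique s (r := fun z => r (g z)) (r' := r)
    (fun a b hab => hr _ _ ((apply_covBy_apply_iff g).2 hab)) hr y x
  linarith

theorem mem_Gp {r : X → ℤ} (h : IsRk s r) (g : X ≃o X) (x : X) : g ∈ Gp X ↔ r (g x) = r x := by
  constructor
  · intro hg
    exact hg r h.cov x
  · intro hx
    refine rka_gp s (x := x) fun r' hr' => ?_
    have h1 := rk_unique s h.cov hr' (g x) x
    linarith

theorem gp_rk {r : X → ℤ} (h : IsRk s r) {g : X ≃o X} (hg : g ∈ Gp X) (x : X) :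
    r (g x) = r x := hg r h.cov x

/-- automorphisms with a fixed point preserve the rank -/
theorem fix_mem_Gp (s : X ≃o X) [PB X s] {g : X ≃o X} {x : X} (h : g x = x) : g ∈ Gp X :=
  rka_gp s (x := x) fun r _ => by rw [h]

/-- automorphisms change the rank by a constant -/
theorem rk_aut {r : X → ℤ} (h : IsRk s r) (g : X ≃o X) (x y : X) :
    r (g x) - r x = r (g y) - r y := by
  have h1 := rk_unique s (r := fun z => r (g z)) (r' := r)
    (fun a b hab => h.cov _ _ ((apply_covBy_apply_iff g).2 hab)) h.cov x y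
  linarith

end Pool.Agent.PLB
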