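import Pool.Agent.PLB.TauB

set_option autoImplicit false

/-! Theorem PB, section 5: values of the root elements and of the elations with axis `l j`.

PLAN. `x_ij a := tau (rs (ev i) a) (ev j) ∈ U i j` (`TC.mem`, `HC.e`, `HC.l`). Values: `fx_comm`, `fx_comm'` (VlA, VlB) applied to
`TC.comm`: if two of the three root groups `ij`, `jk`, `ik` have `value (x a) = v a` for all `a` (i.e. the statement `rt_val`) then
so has the third (exact values; `Vl.mul`, `Vl.mul'`, `Vl.ex`, one exact value with `b = 1`). Known: `01`, `12`, `02` (`CR.va, vb, vc`).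
`⁅x_10 1, x_02 a⁆ = x_12 a` gives value `0` for `x_10 1`; then `⁅x_10 a, x_02 1⁆ = x_12 a` gives `10`; `⁅x_02 1, x_21 b⁆ = x_01 b` gives
`21`; `⁅x_12 1, x_20 b⁆ = x_10 b` gives `20`.
`ax_val`: `u j = 0`, `u = ev i a + ev k b`, `t = tau u (ev j) = x_ij a * x_kj b` (`TC.add_l`). Take `z` from `exists_ap` with
coordinates `n` at `j` and `0` at `i`, `k`. (A) `mu p z = 0` for every `p` on `l j`: for `w = o` and for `w = z`, `p` is far at `w`
from `l i` or from `l k` (an atom over `w` on `l j` and `l i` is `(e k) w`, an atom on `l j` and `l k` is `(e i) w`, and these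
differ: `Far (e m) (l m) z` for all `m` by `mu_nu_eq`); `mu_nu_le` at the base `o` gives `mu p z ≤ 0`, at the base `z` gives
`mu p z ≥ 0`. So (`nu (l j) z = n`, `fx_iff`) `Fx n t` iff `t z = z`, and the same for `x_ij a`, `x_kj b`. `←` is clear. `→`: `x_ik 1` and
`x_ki 1` fix `z` (`rt_val`, `mu (e i) z = 0 = nu (l k) z`, `fx_iff`), so `⁅x_ik 1, t⁆ = x_ij b` fixes `z` (`x_ik 1` commutes with
`x_ij a`; `TC.comm`, or compute with `TC.conj`), hence `b ∈ V n`; likewise `a ∈ V n`. -/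

namespace Pool.Agent.PLB

open Pool.Agent.Helper87.ML Pool.Agent.RIG OrderDual
open scoped commutatorElement

universe u

variable {X : Type u} [Lattice X] [IsModularLattice X] {s : X ≃o X} [PB X s]

/-- two different points of a line span it, at every base -/
private theorem RtV_line {p q : Pt s} {l : Ln s} {z : X} (hp : p.1 z ≤ l.1 (s z))
    (hq : q.1 z ≤ l.1 (s z)) (h : p.1 z ≠ q.1 z) : p.1 z ⊔ q.1 z = l.1 (s z) := by
  obtain ⟨r, hr⟩ := exists_rk s
  have h1 : z ≤ p.1 z ⊓ q.1 z := le_inf (p.2.cov z).le (q.2.cov z).le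
  have h2 : r (p.1 z) = r z + 1 := hr.cov _ _ (p.2.cov z)
  have h3 : r (q.1 z) = r z + 1 := hr.cov _ _ (q.2.cov z)
  have h4 : r (s z) = r (l.1 (s z)) + 1 := hr.cov _ _ (l.2.cov (s z))
  have h5 : r (s z) = r z + 3 := hr.sh z
  have h6 : r (p.1 z ⊔ q.1 z) + r (p.1 z ⊓ q.1 z) = r (p.1 z) + r (q.1 z) := hr.mod _ _
  have h7 : p.1 z ⊓ q.1 z < p.1 z := by
    refine lt_of_le_of_ne inf_le_left fun h8 => h ?_
    have h9 : p.1 z ≤ q.1 z := inf_eq_left.1 h8
    exact ((q.2.cov z).eq_or_eq (p.2.cov z).le h9).resolve_left (p.2.cov z).lt.ne'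
  have h8 : r (p.1 z ⊓ q.1 z) < r (p.1 z) := hr.lt _ _ h7
  refine rk_eq hr (sup_le hp hq) ?_
  linarith

/-- a point of `l j` is far from `l i` or from `l k` -/
private theorem RtV_far {F : Frame (Inc (s := s))} {z : X} (hz : ∀ m, Far (F.e m) (F.l m) z)
    {i j k : Fin 3} (hij : i ≠ j) (hjk : j ≠ k) (hik : i ≠ k) {p : Pt s} (hp : Inc p (F.l j)) :
    Far p (F.l i) z ∨ Far p (F.l k) z := by
  by_cases h : Far p (F.l i) z
  · exact Or.inl h
  · right
    have h1 : p.1 z ≤ (F.l i).1 (s z) := not_not.1 h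
    have h2 : p.1 z = (F.e k).1 z := by
      by_contra h3
      have h4 := RtV_line h1 ((F.inc k i).2 hik.symm z) h3
      have h5 := RtV_line (hp z) ((F.inc k j).2 hjk.symm z) h3
      have h6 := (F.inc i j).2 hij z
      rw [← h5, h4] at h6
      exact hz i h6
    have h3 := hz k
    unfold Far at h3 ⊢
    rw [h2]
    exact h3

/-- the level of a point of `l j` -/
private theorem RtV_mu {o : X} {F : Frame (Inc (s := s))} (hF : FarF o F) {z : X}
    (hz : ∀ m, Far (F.e m) (F.l m) z)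
    {i j k : Fin 3} (hij : i ≠ j) (hjk : j ≠ k) (hik : i ≠ k) (hi : nu o (F.l i) z = 0)
    (hk : nu o (F.l k) z = 0) {p : Pt s} (hp : Inc p (F.l j)) : mu o p z = 0 := by
  have hmu0 : mu o p o = 0 := (mu_spec o p).2
  have hnu0 : ∀ l : Ln s, nu o l o = 0 := fun l => (nu_spec o l).2
  have h1 : mu o p z ≤ 0 := by
    rcases RtV_far hF hij hjk hik hp with h | h
    · have h2 := mu_nu_le o h z
      rw [hmu0, hnu0, hi] at h2
      linarith
    · have h2 := mu_nu_le o h z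
      rw [hmu0, hnu0, hk] at h2
      linarith
  have h3 : 0 ≤ mu o p z := by
    rcases RtV_far hz hij hjk hik hp with h | h
    · have h2 := mu_nu_le o h o
      rw [hmu0, hnu0, hi] at h2
      linarith
    · have h2 := mu_nu_le o h o
      rw [hmu0, hnu0, hk] at h2
      linarith
  linarith

omit [IsModularLattice X] [PB X s] in
private theorem RtV_fx_ex {o : X} {p : Pt s} {l : Ln s} {t : Gp X} {m : ℤ} (h : Fx o p l m t)
    (h' : ¬ Fx o p l (m + 1) t) (n : ℤ) : Fx o p l n t ↔ n ≤ m := by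
  constructor
  · intro k
    by_contra h1
    exact h' (fx_anti (by linarith [not_le.1 h1, Int.add_one_le_of_lt (not_le.1 h1)]) k)
  · intro k
    exact fx_anti k h

private theorem RtV_anti {K : Type u} [DivisionRing K] {V : ℤ → AddSubgroup K} (hV : Vl K V)
    {m n : ℤ} (h : m ≤ n) : V n ≤ V m := by
  obtain ⟨d, rfl⟩ := Int.le.dest h
  induction d with
  | zero => simp
  | succ d ih =>
    have h1 := hV.anti (m + (d : ℤ))
    have h2 : m + ((d + 1 : ℕ) : ℤ) = m + (d : ℤ) + 1 := by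
      push_cast
      ring
    rw [h2]
    exact h1.trans (ih (by linarith [Int.natCast_nonneg d]))

private theorem RtV_v_ex {K : Type u} [DivisionRing K] {V : ℤ → AddSubgroup K} (hV : Vl K V)
    {a : K} {m : ℤ} (h : a ∈ V m) (h' : a ∉ V (m + 1)) (n : ℤ) : a ∈ V n ↔ n ≤ m := by
  constructor
  · intro k
    by_contra h1
    exact h' (RtV_anti hV (Int.add_one_le_of_lt (not_le.1 h1)) k)
  · intro k
    exact RtV_anti hV k h

section

variable {o : X} {F : Frame (Inc (s := s))} {K : Type u} [DivisionRing K]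
  {V : ℤ → AddSubgroup K} {xa xb xc : K → Gp X} {pt : (Fin 3 → K) → Pt s}
  {ln : (Fin 3 → K) → Ln s} {tau : (Fin 3 → K) → (Fin 3 → K) → Gp X}

private theorem RtV_dot {i j : Fin 3} (hij : i ≠ j) (a : K) :
    dot (ev j) (rs (ev i) a) = 0 := by
  fin_cases i <;> fin_cases j <;> simp [dot, rs, ev] at hij ⊢

private theorem RtV_ev_ne (i : Fin 3) : (ev i : Fin 3 → K) ≠ 0 := by
  intro h
  have h1 := congrFun h i
  simp [ev] at h1

/-- the general root element -/
private theorem RtV_mem (hH : HC F K xa xb xc pt ln) (hT : TC F K xa xb xc pt ln tau)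
    {i j : Fin 3} (hij : i ≠ j) (a : K) : tau (rs (ev i) a) (ev j) ∈ U (Gp X) F i j := by
  by_cases ha : a = 0
  · have h1 : rs (ev i) a = 0 := by
      funext m
      simp [rs, ha]
    rw [h1, hT.zero_l]
    exact Subgroup.one_mem _
  · have h1 : rs (ev i) a ≠ 0 := by
      intro h
      have h2 := congrFun h i
      simp [rs, ev, ha] at h2
    have h2 := hT.mem _ _ h1 (RtV_ev_ne j) (RtV_dot hij a)
    have h3 : pt (rs (ev i) a) = F.e i := by
      rw [← hH.e i]
      exact ((hH.pt_eq _ _ (RtV_ev_ne i) h1).2 ⟨a, ha, rfl⟩).symm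
    rw [h3, hH.l j] at h2
    exact h2

private theorem RtV_ne (hH : HC F K xa xb xc pt ln) (hT : TC F K xa xb xc pt ln tau)
    {i j : Fin 3} (hij : i ≠ j) {a : K} (ha : a ≠ 0) : tau (rs (ev i) a) (ev j) ≠ 1 := by
  intro h
  have h1 := hT.act (rs (ev i) a) (ev j) (RtV_dot hij a) (ev j) (RtV_ev_ne j)
  rw [h, one_smul] at h1
  have hd : dot (ev j : Fin 3 → K) (ev j) = 1 := by
    fin_cases j <;> simp [dot, ev]
  rw [hd] at h1
  have h2 : (ev j : Fin 3 → K) + rs (rs (ev i) a) 1 ≠ 0 := by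
    intro h3
    have h4 := congrFun h3 j
    simp [rs, ev, hij.symm] at h4
  obtain ⟨b, hb, h5⟩ := (hH.pt_eq _ _ (RtV_ev_ne j) h2).1 h1
  have h6 := congrFun h5 i
  simp [rs, ev, hij] at h6
  exact ha h6

/-- the statement of `rt_val` -/
private def RtV_R (o : X) (F : Frame (Inc (s := s))) (V : ℤ → AddSubgroup K)
    (tau : (Fin 3 → K) → (Fin 3 → K) → Gp X) (i j : Fin 3) : Prop :=
  ∀ (n : ℤ) (a : K), Fx o (F.e i) (F.l j) n (tau (rs (ev i) a) (ev j)) ↔ a ∈ V n

private theorem RtV_zero (hT : TC F K xa xb xc pt ln tau) (i j : Fin 3) (n : ℤ) :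
    Fx o (F.e i) (F.l j) n (tau (rs (ev i) (0 : K)) (ev j)) := by
  have h1 : rs (ev i) (0 : K) = 0 := by
    funext m
    simp [rs]
  rw [h1, hT.zero_l]
  exact fx_one _ _ _ _

private theorem RtV_of_ex (hV : Vl K V) (hT : TC F K xa xb xc pt ln tau) {i j : Fin 3}
    (h : ∀ a : K, a ≠ 0 → ∀ m, a ∈ V m → a ∉ V (m + 1) →
      Fx o (F.e i) (F.l j) m (tau (rs (ev i) a) (ev j)) ∧
      ¬ Fx o (F.e i) (F.l j) (m + 1) (tau (rs (ev i) a) (ev j))) : RtV_R o F V tau i j := by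
  intro n a
  by_cases ha : a = 0
  · rw [ha]
    exact iff_of_true (RtV_zero hT i j n) (V n).zero_mem
  · obtain ⟨m, h1, h2⟩ := hV.ex a ha
    obtain ⟨h3, h4⟩ := h a ha m h1 h2
    rw [RtV_fx_ex h3 h4, RtV_v_ex hV h1 h2]

/-- `jk`, `ik` give `ij` -/
private theorem RtV_ij (hC : CR o F K V xa xb xc) (hH : HC F K xa xb xc pt ln)
    (hT : TC F K xa xb xc pt ln tau) {i j k : Fin 3} (hij : i ≠ j) (hjk : j ≠ k) (hik : i ≠ k)
    (h1 : RtV_R o F V tau j k) (h2 : RtV_R o F V tau i k) : RtV_R o F V tau i j := by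
  refine RtV_of_ex hC.vl hT fun a ha m hm hm' => ?_
  obtain ⟨m', h3, h4⟩ := fx_ex o ((F.inc i j).2 hij) (RtV_mem hH hT hij a) (RtV_ne hH hT hij ha)
  have h5 : Fx o (F.e j) (F.l k) 0 (tau (rs (ev j) (1 : K)) (ev k)) := (h1 0 1).2 hC.vl.one
  have h6 : ¬ Fx o (F.e j) (F.l k) (0 + 1) (tau (rs (ev j) (1 : K)) (ev k)) := fun h =>
    hC.vl.one' (by rw [zero_add] at h; exact (h1 1 1).1 h)
  have h7 := fx_comm hC.far hij hjk hik (RtV_mem hH hT hij a) (RtV_mem hH hT hjk 1) h3 h5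
  have h8 := fx_comm' hC.far hij hjk hik (RtV_mem hH hT hij a) (RtV_mem hH hT hjk 1) h3 h4 h5 h6
  rw [hT.comm i j k hij hjk hik, mul_one] at h7 h8
  rw [h2, RtV_v_ex hC.vl hm hm'] at h7 h8
  have h9 : m' = m := by linarith [Int.le_of_lt_add_one (not_le.1 h8)]
  rw [← h9]
  exact ⟨h3, h4⟩

/-- `ij`, `ik` give `jk` -/
private theorem RtV_jk (hC : CR o F K V xa xb xc) (hH : HC F K xa xb xc pt ln)
    (hT : TC F K xa xb xc pt ln tau) {i j k : Fin 3} (hij : i ≠ j) (hjk : j ≠ k) (hik : i ≠ k)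
    (h1 : RtV_R o F V tau i j) (h2 : RtV_R o F V tau i k) : RtV_R o F V tau j k := by
  refine RtV_of_ex hC.vl hT fun a ha m hm hm' => ?_
  obtain ⟨m', h3, h4⟩ := fx_ex o ((F.inc j k).2 hjk) (RtV_mem hH hT hjk a) (RtV_ne hH hT hjk ha)
  have h5 : Fx o (F.e i) (F.l j) 0 (tau (rs (ev i) (1 : K)) (ev j)) := (h1 0 1).2 hC.vl.one
  have h6 : ¬ Fx o (F.e i) (F.l j) (0 + 1) (tau (rs (ev i) (1 : K)) (ev j)) := fun h =>
    hC.vl.one' (by rw [zero_add] at h; exact (h1 1 1).1 h)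
  have h7 := fx_comm hC.far hij hjk hik (RtV_mem hH hT hij 1) (RtV_mem hH hT hjk a) h5 h3
  have h8 := fx_comm' hC.far hij hjk hik (RtV_mem hH hT hij 1) (RtV_mem hH hT hjk a) h5 h6 h3 h4
  rw [hT.comm i j k hij hjk hik, one_mul] at h7 h8
  rw [h2, RtV_v_ex hC.vl hm hm'] at h7 h8
  have h9 : m' = m := by linarith [Int.le_of_lt_add_one (not_le.1 h8)]
  rw [← h9]
  exact ⟨h3, h4⟩

end

section

variable {o : X} {F : Frame (Inc (s := s))} {K : Type u} [DivisionRing K]
  {V : ℤ → AddSubgroup K} {xa xb xc : K → Gp X} {pt : (Fin 3 → K) → Pt s}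
  {ln : (Fin 3 → K) → Ln s} {tau : (Fin 3 → K) → (Fin 3 → K) → Gp X}
  (hC : CR o F K V xa xb xc) (hH : HC F K xa xb xc pt ln) (hT : TC F K xa xb xc pt ln tau)
include hC hH hT

theorem rt_val {i j : Fin 3} (hij : i ≠ j) (n : ℤ) (a : K) :
    Fx o (F.e i) (F.l j) n (tau (rs (ev i) a) (ev j)) ↔ a ∈ V n := by
  have h01 : RtV_R o F V tau 0 1 := fun n a => by rw [hC.va, hT.xa]
  have h12 : RtV_R o F V tau 1 2 := fun n a => by rw [hC.vb, hT.xb]
  have h02 : RtV_R o F V tau 0 2 := fun n a => by rw [hC.vc, hT.xc]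
  have h10 : RtV_R o F V tau 1 0 :=
    RtV_ij hC hH hT (by decide) (by decide) (by decide) h02 h12
  have h21 : RtV_R o F V tau 2 1 :=
    RtV_jk hC hH hT (i := 0) (by decide) (by decide) (by decide) h02 h01
  have h20 : RtV_R o F V tau 2 0 :=
    RtV_jk hC hH hT (i := 1) (by decide) (by decide) (by decide) h12 h10
  fin_cases i <;> fin_cases j
  · exact absurd rfl hij
  · exact h01 n a
  · exact h02 n a
  · exact h10 n a
  · exact absurd rfl hij
  · exact h12 n a
  · exact h20 n a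
  · exact h21 n a
  · exact absurd rfl hij

theorem rt_fix {i j : Fin 3} (hij : i ≠ j) {a : K} (ha : a ∈ V 0) :
    (tau (rs (ev i) a) (ev j) : X ≃o X) o = o := by
  have h := (rt_val hC hH hT hij 0 a).2 ha
  refine h o ?_
  rw [(mu_spec o (F.e i)).2, (nu_spec o (F.l j)).2]
  simp

private theorem RtV_half {z : X} {i j k : Fin 3}
    (hij : i ≠ j) (hjk : j ≠ k) (hik : i ≠ k) {n : ℤ} (hi : mu o (F.e i) z = 0)
    (hj : nu o (F.l j) z = n) (hk : nu o (F.l k) z = 0) {a b : K}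
    (h : ((tau (rs (ev i) a) (ev j) * tau (rs (ev k) b) (ev j) : Gp X) : X ≃o X) z = z) :
    b ∈ V n := by
  have : Nonempty X := ⟨o⟩
  have hM := mp s
  have h1 : ((tau (rs (ev i) (1 : K)) (ev k) : Gp X) : X ≃o X) z = z := by
    rw [fx_iff o ((F.inc i k).2 hik) (RtV_mem hH hT hik 1), hi, hk, sub_zero,
      rt_val hC hH hT hik]
    exact hC.vl.one
  set g := tau (rs (ev i) (1 : K)) (ev k) with hg
  set x := tau (rs (ev i) a) (ev j) with hx
  set y := tau (rs (ev k) b) (ev j) with hy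
  set w := tau (rs (ev i) b) (ev j) with hw
  have hxU : x ∈ U (Gp X) F i j := RtV_mem hH hT hij a
  have hwU : w ∈ U (Gp X) F i j := RtV_mem hH hT hij b
  have hgU : g ∈ U (Gp X) F i k := RtV_mem hH hT hik 1
  have hgx : g * x = x * g := (commute_ij_ik hM F hij hjk hik hxU hgU).symm
  have hwx : w * x = x * w := u_comm hM F (i := i) (j := k) (k := j) hik hjk.symm hij hwU hxU
  have hgy : g * y * g⁻¹ * y⁻¹ = w := by
    have h2 := hT.comm i k j hik hjk.symm hij 1 b
    rw [one_mul, commutatorElement_def] at h2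
    exact h2
  have hgy' : g * y * g⁻¹ = w * y := by
    rw [← hgy]
    group
  have hc : g * (x * y) * g⁻¹ = w * (x * y) := by
    calc g * (x * y) * g⁻¹ = (g * x) * y * g⁻¹ := by group
      _ = x * (g * y * g⁻¹) := by rw [hgx]; group
      _ = (x * w) * y := by rw [hgy']; group
      _ = w * (x * y) := by rw [← hwx]; group
  have hw' : w = g * (x * y) * g⁻¹ * (x * y)⁻¹ := by
    rw [hc]
    group
  have hwz : (w : X ≃o X) z = z := by
    have hst : ∀ a : Gp X, (a : X ≃o X) z = z → ((a⁻¹ : Gp X) : X ≃o X) z = z := by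
      intro a ha
      have h3 : ((a⁻¹ : Gp X) : X ≃o X) ((a : X ≃o X) z) = z := (a : X ≃o X).symm_apply_apply z
      rwa [ha] at h3
    have h4 := hst _ h1
    have h5 := hst _ h
    rw [hw']
    show (g : X ≃o X) (((x * y : Gp X) : X ≃o X) (((g⁻¹ : Gp X) : X ≃o X)
      ((((x * y)⁻¹ : Gp X) : X ≃o X) z))) = z
    rw [h5, h4, h, h1]
  rw [hw, fx_iff o ((F.inc i j).2 hij) (RtV_mem hH hT hij b), hi, hj, sub_zero,
    rt_val hC hH hT hij] at hwz
  exact hwz

private theorem RtV_ax {i j k : Fin 3} (hij : i ≠ j) (hjk : j ≠ k) (hik : i ≠ k)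
    {u : Fin 3 → K} (hu : u ≠ 0) (huj : u j = 0) (n : ℤ) :
    Fx o (pt u) (F.l j) n (tau u (ev j)) ↔ u i ∈ V n ∧ u k ∈ V n := by
  have hdot : dot (ev j) u = 0 := by
    have : dot (ev j) u = u j := by
      fin_cases j <;> simp [dot, ev]
    rw [this, huj]
  have hdec : u = rs (ev i) (u i) + rs (ev k) (u k) := by
    funext m
    have hm : m = i ∨ m = j ∨ m = k := by
      fin_cases i <;> fin_cases j <;> fin_cases k <;> fin_cases m <;> simp_all
    rcases hm with rfl | rfl | rfl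
    · simp [rs, ev, hik]
    · simp [rs, ev, hij.symm, hjk, huj]
    · simp [rs, ev, hik.symm]
  have ht : tau u (ev j) = tau (rs (ev i) (u i)) (ev j) * tau (rs (ev k) (u k)) (ev j) := by
    rw [← hT.add_l _ _ _ (RtV_dot hij _) (RtV_dot hjk.symm _), ← hdec]
  have ht' : tau u (ev j) = tau (rs (ev k) (u k)) (ev j) * tau (rs (ev i) (u i)) (ev j) := by
    rw [← hT.add_l _ _ _ (RtV_dot hjk.symm _) (RtV_dot hij _), add_comm, ← hdec]
  have hInc : Inc (pt u) (F.l j) := by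
    rw [← hH.l j]
    exact (hH.inc _ _ hu (RtV_ev_ne j)).2 hdot
  obtain ⟨z, hz⟩ := exists_ap hC.far (fun m => if m = j then n else 0)
  have hzi := hz i
  have hzj := hz j
  have hzk := hz k
  rw [if_neg hij] at hzi
  rw [if_pos rfl] at hzj
  rw [if_neg hjk.symm] at hzk
  have hfar : ∀ m, Far (F.e m) (F.l m) z := by
    intro m
    refine (mu_nu_eq o (hC.far m) z).1 ?_
    rw [(hz m).1, (hz m).2, (mu_spec o (F.e m)).2, (nu_spec o (F.l m)).2]
  have hmu : mu o (pt u) z = 0 := RtV_mu hC.far hfar hij hjk hik hzi.2 hzk.2 hInc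
  have hmem : tau u (ev j) ∈ El (Gp X) (Inc (s := s)) (pt u) (F.l j) := by
    have h1 := hT.mem u (ev j) hu (RtV_ev_ne j) hdot
    rwa [hH.l j] at h1
  have h1 : Fx o (pt u) (F.l j) n (tau u (ev j)) ↔ ((tau u (ev j) : Gp X) : X ≃o X) z = z := by
    rw [fx_iff o hInc hmem, hmu, hzj.2, sub_zero]
  rw [h1]
  constructor
  · intro h
    refine ⟨?_, ?_⟩
    · rw [ht'] at h
      exact RtV_half hC hH hT hjk.symm hij.symm hik.symm hzk.1 hzj.2 hzi.2 h
    · rw [ht] at h
      exact RtV_half hC hH hT hij hjk hik hzi.1 hzj.2 hzk.2 h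
  · rintro ⟨h2, h3⟩
    have h4 : ((tau (rs (ev i) (u i)) (ev j) : Gp X) : X ≃o X) z = z := by
      rw [fx_iff o ((F.inc i j).2 hij) (RtV_mem hH hT hij _), hzi.1, hzj.2, sub_zero,
        rt_val hC hH hT hij]
      exact h2
    have h5 : ((tau (rs (ev k) (u k)) (ev j) : Gp X) : X ≃o X) z = z := by
      rw [fx_iff o ((F.inc k j).2 hjk.symm) (RtV_mem hH hT hjk.symm _), hzk.1, hzj.2, sub_zero,
        rt_val hC hH hT hjk.symm]
      exact h3
    rw [ht]
    show ((tau (rs (ev i) (u i)) (ev j) : Gp X) : X ≃o X)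
      (((tau (rs (ev k) (u k)) (ev j) : Gp X) : X ≃o X) z) = z
    rw [h5, h4]

theorem ax_val {j : Fin 3} {u : Fin 3 → K} (hu : u ≠ 0) (huj : u j = 0) (n : ℤ) :
    Fx o (pt u) (F.l j) n (tau u (ev j)) ↔ ∀ i, u i ∈ V n := by
  have h0 : u j ∈ V n := by
    rw [huj]
    exact (V n).zero_mem
  fin_cases j
  · rw [RtV_ax hC hH hT (i := 1) (k := 2) (by decide) (by decide) (by decide) hu huj n,
      Fin.forall_fin_succ, Fin.forall_fin_two]
    exact ⟨fun h => ⟨h0, h.1, h.2⟩, fun h => ⟨h.2.1, h.2.2⟩⟩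
  · rw [RtV_ax hC hH hT (i := 0) (k := 2) (by decide) (by decide) (by decide) hu huj n,
      Fin.forall_fin_succ, Fin.forall_fin_two]
    exact ⟨fun h => ⟨h.1, h0, h.2⟩, fun h => ⟨h.1, h.2.2⟩⟩
  · rw [RtV_ax hC hH hT (i := 0) (k := 1) (by decide) (by decide) (by decide) hu huj n,
      Fin.forall_fin_succ, Fin.forall_fin_two]
    exact ⟨fun h => ⟨h.1, h.2, h0⟩, fun h => ⟨h.1, h.2.1⟩⟩

end

end Pool.Agent.PLB
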