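import Pool.Agent.PLB.PtE

set_option autoImplicit false

/-! Theorem PB, section 5: linear transvections of `K ^ 3` are induced by elements of `Gp X`.

`tau u φ` acts as the matrix `1 + u φ` (`u` a column, `φ` a row, `φ(u) = 0`).  The matrix induces a
map on points and lines which preserves incidence; composed with the inverse of a suitable elation it
is a central collineation with one more fixed point, hence the identity (`central_trivial`). -/

namespace Pool.Agent.PLB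

open Pool.Agent.Helper87.ML Pool.Agent.RIG OrderDual
open scoped commutatorElement

universe u

variable {X : Type u} [Lattice X] [IsModularLattice X] {s : X ≃o X} [PB X s]

section

variable {o : X} {F : Frame (Inc (s := s))} {K : Type u} [DivisionRing K]
  {V : ℤ → AddSubgroup K} {xa xb xc : K → Gp X} {pt : (Fin 3 → K) → Pt s}
  {ln : (Fin 3 → K) → Ln s} (hC : CR o F K V xa xb xc) (hH : HC F K xa xb xc pt ln)

private theorem tauA_dot {K : Type u} [DivisionRing K] (φ u w : Fin 3 → K) (a : K) :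
    dot φ (w + rs u a) = dot φ w + dot φ u * a := by
  simp only [dot, rs, Pi.add_apply]
  rw [mul_add, mul_add, mul_add, add_mul, add_mul, mul_assoc, mul_assoc, mul_assoc]
  abel

private theorem tauA_dot' {K : Type u} [DivisionRing K] (ψ φ w : Fin 3 → K) (b : K) :
    dot (ψ - ls b φ) w = dot ψ w - b * dot φ w := by
  simp only [dot, ls, Pi.sub_apply]
  rw [sub_mul, sub_mul, sub_mul, mul_add, mul_add, mul_assoc, mul_assoc, mul_assoc]
  abel

private theorem tauA_zero {K : Type u} [DivisionRing K] (φ : Fin 3 → K) :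
    dot φ (0 : Fin 3 → K) = 0 := by
  simp [dot]

private theorem tauA_rs0 {K : Type u} [DivisionRing K] (u : Fin 3 → K) : rs u (0 : K) = 0 := by
  funext i
  simp [rs]

private theorem tauA_ls0 {K : Type u} [DivisionRing K] (u : Fin 3 → K) : ls (0 : K) u = 0 := by
  funext i
  simp [ls]

omit [IsModularLattice X] [PB X s] in
theorem mat_ne {u φ w : Fin 3 → K} (h : dot φ u = 0) (hw : w ≠ 0) :
    w + rs u (dot φ w) ≠ 0 := by
  intro h0
  have h1 := tauA_dot φ u w (dot φ w)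
  rw [h0, tauA_zero, h, zero_mul, add_zero] at h1
  rw [← h1, tauA_rs0, add_zero] at h0
  exact hw h0

private theorem tauA_row {K : Type u} [DivisionRing K] {u φ ψ : Fin 3 → K} (h : dot φ u = 0)
    (hψ : ψ ≠ 0) : ψ - ls (dot ψ u) φ ≠ 0 := by
  intro h0
  have h1 := tauA_dot' ψ φ u (dot ψ u)
  have h2 : dot (0 : Fin 3 → K) u = 0 := by simp [dot]
  rw [h0, h2, h, mul_zero, sub_zero] at h1
  rw [← h1, tauA_ls0, sub_zero] at h0
  exact hψ h0

private theorem tauA_inv {K : Type u} [DivisionRing K] {u φ : Fin 3 → K} (h : dot φ u = 0)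
    (ψ w : Fin 3 → K) : dot (ψ - ls (dot ψ u) φ) (w + rs u (dot φ w)) = dot ψ w := by
  rw [tauA_dot', tauA_dot, tauA_dot, h, zero_mul, add_zero]
  abel

include hH

/-- elements of `Gp X` are determined by their action on points -/
theorem gp_ext {g g' : Gp X} (h : ∀ w, w ≠ 0 → g • pt w = g' • pt w) : g = g' := by
  have h1 : g'⁻¹ * g = 1 := by
    refine faith s _ fun f => ?_
    obtain ⟨w, hw, rfl⟩ := hH.pt_surj f
    rw [mul_smul, h w hw, inv_smul_smul]
  exact (inv_mul_eq_one.1 h1).symm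

include hC

theorem exists_tau1 {u φ : Fin 3 → K} (hu : u ≠ 0) (hφ : φ ≠ 0) (h : dot φ u = 0) :
    ∃ g ∈ El (Gp X) (Inc (s := s)) (pt u) (ln φ),
      ∀ w, w ≠ 0 → g • pt w = pt (w + rs u (dot φ w)) := by
  have : Nonempty X := ⟨o⟩
  have hM : MP (Gp X) (Inc (s := s)) := mp s
  -- a point off the axis
  obtain ⟨w₀, hw₀, hdw⟩ : ∃ w₀ : Fin 3 → K, w₀ ≠ 0 ∧ dot φ w₀ ≠ 0 := by
    obtain ⟨i, hi⟩ := Function.ne_iff.1 hφ
    refine ⟨ev i, ?_, ?_⟩
    · intro h0
      have h1 := congrFun h0 i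
      simp [ev] at h1
    · have h1 : dot φ (ev i) = φ i := by
        fin_cases i <;> simp [dot, ev]
      rw [h1]
      exact hi
  have hw₁ := mat_ne h hw₀
  have hcl : Inc (pt u) (ln φ) := (hH.inc u φ hu hφ).2 h
  have hq : ¬ Inc (pt w₀) (ln φ) := fun h1 => hdw ((hH.inc w₀ φ hw₀ hφ).1 h1)
  have hq' : ¬ Inc (pt (w₀ + rs u (dot φ w₀))) (ln φ) := by
    intro h1
    have h2 := (hH.inc _ φ hw₁ hφ).1 h1
    rw [tauA_dot, h, zero_mul, add_zero] at h2
    exact hdw h2
  have hcq : pt u ≠ pt w₀ := by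
    intro h1
    rw [h1] at hcl
    exact hq hcl
  obtain ⟨m, ⟨hm1, hm2⟩, -⟩ := hM.pp.line _ _ hcq
  have hm3 : Inc (pt (w₀ + rs u (dot φ w₀))) m := by
    obtain ⟨ψ, hψ, rfl⟩ := hH.ln_surj m
    rw [hH.inc _ _ hw₁ hψ, tauA_dot, (hH.inc _ _ hu hψ).1 hm1, (hH.inc _ _ hw₀ hψ).1 hm2,
      zero_mul, add_zero]
  obtain ⟨g, hg, hgq⟩ := el_exists hM hcl hq hq' hm1 hm2 hm3
  refine ⟨g, hg, ?_⟩
  -- the map induced by the matrix
  choose W hW0 hW using hH.pt_surj
  choose Φ hΦ0 hΦ using hH.ln_surj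
  have hT : ∀ w, w ≠ 0 → pt (W (pt w) + rs u (dot φ (W (pt w)))) = pt (w + rs u (dot φ w)) := by
    intro w hw
    obtain ⟨a, ha, he⟩ := (hH.pt_eq w (W (pt w)) hw (hW0 _)).1 (hW (pt w)).symm
    refine ((hH.pt_eq _ _ (mat_ne h hw) (mat_ne h (hW0 _))).2 ⟨a, ha, ?_⟩).symm
    rw [he]
    have h1 : dot φ (rs w a) = dot φ w * a := by
      simp only [dot, rs]
      rw [add_mul, add_mul, mul_assoc, mul_assoc, mul_assoc]
    rw [h1]
    funext i
    simp only [rs, Pi.add_apply]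
    rw [add_mul, mul_assoc]
  have hst : ∀ (p : Pt s) (l : Ln s),
      Inc (g⁻¹ • pt (W p + rs u (dot φ (W p)))) (g⁻¹ • ln (Φ l - ls (dot (Φ l) u) φ)) ↔
        Inc p l := by
    intro p l
    rw [hM.inc, hH.inc _ _ (mat_ne h (hW0 p)) (tauA_row h (hΦ0 l)), tauA_inv h,
      ← hH.inc _ _ (hW0 p) (hΦ0 l), hW, hΦ]
  have hax : ∀ p : Pt s, Inc p (ln φ) → g⁻¹ • pt (W p + rs u (dot φ (W p))) = p := by
    intro p hp
    have h1 : dot φ (W p) = 0 := by
      rw [← hH.inc _ _ (hW0 p) hφ, hW]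
      exact hp
    rw [h1, tauA_rs0, add_zero, hW, inv_smul_eq_iff]
    exact (hg.1 p hp).symm
  have hce : ∀ l : Ln s, Inc (pt u) l → g⁻¹ • ln (Φ l - ls (dot (Φ l) u) φ) = l := by
    intro l hl
    have h1 : dot (Φ l) u = 0 := by
      rw [← hH.inc _ _ hu (hΦ0 l), hΦ]
      exact hl
    rw [h1, tauA_ls0, sub_zero, hΦ, inv_smul_eq_iff]
    exact (hg.2 l hl).symm
  have hfix : g⁻¹ • pt (W (pt w₀) + rs u (dot φ (W (pt w₀)))) = pt w₀ := by
    rw [hT w₀ hw₀, inv_smul_eq_iff]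
    exact hgq.symm
  have hall := (central_trivial hM.pp (σ := fun p => g⁻¹ • pt (W p + rs u (dot φ (W p))))
    (τ := fun l => g⁻¹ • ln (Φ l - ls (dot (Φ l) u) φ)) hst hax hce hq hcq.symm hfix).1
  intro w hw
  have h1 : g⁻¹ • pt (W (pt w) + rs u (dot φ (W (pt w)))) = pt w := hall (pt w)
  rw [hT w hw, inv_smul_eq_iff] at h1
  exact h1.symm

end

end Pool.Agent.PLB
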