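import Pool.Agent.PLB.TauA

set_option autoImplicit false

/-! Theorem PB, section 5: the elements `tau u φ`.

PLAN. `tau u φ` is chosen by `exists_tau1` for `u, φ ≠ 0`, `dot φ u = 0`, and is `1` otherwise. All identities are checked on
points (`gp_ext`): both sides act by the same matrix (`dot` is additive in both variables, `dot φ (rs u a) = dot φ u * a`,
`dot (ls a φ) u = a * dot φ u`). `act_ln`: from the action on points and `hH.inc`. `conj`: `M = 1 + u φ`,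
`M (1 + v ψ) M⁻¹ = 1 + (M v) (ψ M⁻¹)`, `M v = v + rs u (dot φ v)`, `ψ M⁻¹ = ψ - ls (dot ψ u) φ`.
`comm`: `⁅1 + a E_ij, 1 + b E_jk⁆ = 1 + a b E_ik`. -/

namespace Pool.Agent.PLB

open Pool.Agent.Helper87.ML Pool.Agent.RIG OrderDual
open scoped commutatorElement

universe u

section lin

variable {K : Type u} [DivisionRing K]

private theorem tb_dot_add (φ u v : Fin 3 → K) : dot φ (u + v) = dot φ u + dot φ v := by
  unfold dot
  simp only [Pi.add_apply, mul_add]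
  abel

private theorem tb_dot_rs (φ u : Fin 3 → K) (a : K) : dot φ (rs u a) = dot φ u * a := by
  unfold dot rs
  simp only [add_mul, mul_assoc]

private theorem tb_dot_add_l (φ ψ u : Fin 3 → K) : dot (φ + ψ) u = dot φ u + dot ψ u := by
  unfold dot
  simp only [Pi.add_apply, add_mul]
  abel

private theorem tb_dot_sub_l (φ ψ u : Fin 3 → K) : dot (φ - ψ) u = dot φ u - dot ψ u := by
  unfold dot
  simp only [Pi.sub_apply, sub_mul]
  abel

private theorem tb_dot_ls (φ u : Fin 3 → K) (a : K) : dot (ls a φ) u = a * dot φ u := by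
  unfold dot ls
  simp only [mul_add, mul_assoc]

private theorem tb_dot_zero_l (u : Fin 3 → K) : dot 0 u = 0 := by
  unfold dot
  simp

private theorem tb_dot_zero_r (φ : Fin 3 → K) : dot φ 0 = 0 := by
  unfold dot
  simp

private theorem tb_rs_add (u : Fin 3 → K) (a b : K) : rs u (a + b) = rs u a + rs u b := by
  funext i
  simp only [rs, Pi.add_apply, mul_add]

private theorem tb_rs_neg (u : Fin 3 → K) (a : K) : rs u (-a) = -rs u a := by
  funext i
  simp only [rs, Pi.neg_apply, mul_neg]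

private theorem tb_add_rs (u v : Fin 3 → K) (a : K) : rs (u + v) a = rs u a + rs v a := by
  funext i
  simp only [rs, Pi.add_apply, add_mul]

private theorem tb_rs_rs (u : Fin 3 → K) (a b : K) : rs (rs u a) b = rs u (a * b) := by
  funext i
  simp only [rs, mul_assoc]

private theorem tb_rs_zero (u : Fin 3 → K) : rs u 0 = 0 := by
  funext i
  simp only [rs, Pi.zero_apply, mul_zero]

private theorem tb_zero_rs (a : K) : rs (0 : Fin 3 → K) a = 0 := by
  funext i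
  simp only [rs, Pi.zero_apply, zero_mul]

private theorem tb_rs_one (u : Fin 3 → K) : rs u 1 = u := by
  funext i
  simp only [rs, mul_one]

private theorem tb_zero_ls (φ : Fin 3 → K) : ls 0 φ = 0 := by
  funext i
  simp only [ls, Pi.zero_apply, zero_mul]

private theorem tb_ls_zero (a : K) : ls a (0 : Fin 3 → K) = 0 := by
  funext i
  simp only [ls, Pi.zero_apply, mul_zero]

private theorem tb_rs_ne {u : Fin 3 → K} {a : K} (hu : u ≠ 0) (ha : a ≠ 0) : rs u a ≠ 0 := by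
  intro h
  apply hu
  have h1 := congrArg (fun v => rs v a⁻¹) h
  simp only [tb_rs_rs, tb_zero_rs, mul_inv_cancel₀ ha, tb_rs_one] at h1
  exact h1

private theorem tb_ls_ne {φ : Fin 3 → K} {a : K} (hφ : φ ≠ 0) (ha : a ≠ 0) : ls a φ ≠ 0 := by
  intro h
  apply hφ
  funext i
  have h1 := congrFun h i
  simp only [ls, Pi.zero_apply, mul_eq_zero] at h1
  exact h1.resolve_left ha

private theorem tb_dot_ev (i : Fin 3) (w : Fin 3 → K) : dot (ev i) w = w i := by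
  unfold dot ev
  fin_cases i <;> simp [Pi.single_apply]

private theorem tb_rs_ev (i : Fin 3) (a : K) : rs (ev i) a = Pi.single i a := by
  funext j
  unfold rs ev
  by_cases h : j = i
  · subst h
    simp
  · simp [Pi.single_apply, h]

private theorem tb_ev_ne (i : Fin 3) : (ev i : Fin 3 → K) ≠ 0 := by
  intro h
  have h1 := congrFun h i
  unfold ev at h1
  rw [Pi.single_eq_same, Pi.zero_apply] at h1
  exact one_ne_zero h1

private theorem tb_ex_ne {φ : Fin 3 → K} (hφ : φ ≠ 0) : ∃ w : Fin 3 → K, w ≠ 0 ∧ dot φ w ≠ 0 := by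
  obtain ⟨i, hi⟩ := Function.ne_iff.1 hφ
  rw [Pi.zero_apply] at hi
  refine ⟨ev i, tb_ev_ne i, ?_⟩
  have h1 : dot φ (ev i) = φ i := by
    unfold dot ev
    fin_cases i <;> simp [Pi.single_apply]
  rw [h1]
  exact hi

end lin

variable {X : Type u} [Lattice X] [IsModularLattice X] {s : X ≃o X} [PB X s]

/-- `tau u φ` acts as the matrix `1 + u φ` -/
structure TC (F : Frame (Inc (s := s))) (K : Type u) [DivisionRing K]
    (xa xb xc : K → Gp X) (pt : (Fin 3 → K) → Pt s) (ln : (Fin 3 → K) → Ln s)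
    (tau : (Fin 3 → K) → (Fin 3 → K) → Gp X) : Prop where
  act : ∀ u φ, dot φ u = 0 → ∀ w, w ≠ 0 → tau u φ • pt w = pt (w + rs u (dot φ w))
  act_ln : ∀ u φ, dot φ u = 0 → ∀ ψ, ψ ≠ 0 → tau u φ • ln ψ = ln (ψ - ls (dot ψ u) φ)
  mem : ∀ u φ, u ≠ 0 → φ ≠ 0 → dot φ u = 0 →
    tau u φ ∈ El (Gp X) (Inc (s := s)) (pt u) (ln φ)
  surj : ∀ u φ, u ≠ 0 → φ ≠ 0 → dot φ u = 0 → ∀ g ∈ El (Gp X) (Inc (s := s)) (pt u) (ln φ),
    ∃ a, g = tau (rs u a) φ
  add_l : ∀ u v φ, dot φ u = 0 → dot φ v = 0 → tau (u + v) φ = tau u φ * tau v φ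
  add_r : ∀ u φ ψ, dot φ u = 0 → dot ψ u = 0 → tau u (φ + ψ) = tau u φ * tau u ψ
  scal : ∀ u φ a, dot φ u = 0 → tau (rs u a) φ = tau u (ls a φ)
  zero_l : ∀ φ, tau 0 φ = 1
  zero_r : ∀ u, tau u 0 = 1
  conj : ∀ u φ v ψ, dot φ u = 0 → dot ψ v = 0 →
    tau u φ * tau v ψ * (tau u φ)⁻¹ = tau (v + rs u (dot φ v)) (ψ - ls (dot ψ u) φ)
  comm : ∀ i j k : Fin 3, i ≠ j → j ≠ k → i ≠ k → ∀ a b : K,
    ⁅tau (rs (ev i) a) (ev j), tau (rs (ev j) b) (ev k)⁆ = tau (rs (ev i) (a * b)) (ev k)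
  xa : ∀ a, xa a = tau (rs (ev 0) a) (ev 1)
  xb : ∀ a, xb a = tau (rs (ev 1) a) (ev 2)
  xc : ∀ a, xc a = tau (rs (ev 0) a) (ev 2)

theorem exists_tc {o : X} {F : Frame (Inc (s := s))} {K : Type u} [DivisionRing K]
    {V : ℤ → AddSubgroup K} {xa xb xc : K → Gp X} {pt : (Fin 3 → K) → Pt s}
    {ln : (Fin 3 → K) → Ln s} (hC : CR o F K V xa xb xc) (hH : HC F K xa xb xc pt ln) :
    ∃ tau, TC F K xa xb xc pt ln tau := by
  classical
  haveI : Nonempty X := ⟨o⟩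
  have hM : MP (Gp X) (Inc (s := s)) := mp s
  -- the elements
  have hex : ∀ u φ : Fin 3 → K, ∃ g : Gp X, (u ≠ 0 → φ ≠ 0 → dot φ u = 0 →
      g ∈ El (Gp X) (Inc (s := s)) (pt u) (ln φ) ∧
      ∀ w, w ≠ 0 → g • pt w = pt (w + rs u (dot φ w))) ∧ (u = 0 ∨ φ = 0 → g = 1) := by
    intro u φ
    by_cases hu : u = 0
    · exact ⟨1, fun h => absurd hu h, fun _ => rfl⟩
    by_cases hφ : φ = 0
    · exact ⟨1, fun _ h => absurd hφ h, fun _ => rfl⟩
    by_cases hd : dot φ u = 0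
    · obtain ⟨g, hg, hg'⟩ := exists_tau1 hC hH hu hφ hd
      exact ⟨g, fun _ _ _ => ⟨hg, hg'⟩, fun h => absurd h (not_or.2 ⟨hu, hφ⟩)⟩
    · exact ⟨1, fun _ _ h => absurd h hd, fun _ => rfl⟩
  choose tau h1 h2 using hex
  have zl : ∀ φ, tau 0 φ = 1 := fun φ => h2 0 φ (Or.inl rfl)
  have zr : ∀ u, tau u 0 = 1 := fun u => h2 u 0 (Or.inr rfl)
  have act : ∀ u φ, dot φ u = 0 → ∀ w, w ≠ 0 → tau u φ • pt w = pt (w + rs u (dot φ w)) := by
    intro u φ hd w hw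
    by_cases hu : u = 0
    · rw [hu, zl, one_smul, tb_zero_rs, add_zero]
    by_cases hφ : φ = 0
    · rw [hφ, zr, one_smul, tb_dot_zero_l, tb_rs_zero, add_zero]
    exact (h1 u φ hu hφ hd).2 w hw
  have mem : ∀ u φ, u ≠ 0 → φ ≠ 0 → dot φ u = 0 →
      tau u φ ∈ El (Gp X) (Inc (s := s)) (pt u) (ln φ) := fun u φ hu hφ hd => (h1 u φ hu hφ hd).1
  have ext : ∀ g g' : Gp X, (∀ w, w ≠ 0 → g • pt w = g' • pt w) → g = g' :=
    fun g g' h => gp_ext hH h
  -- lines are determined by their points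
  have lext : ∀ l l' : Ln s, (∀ w, w ≠ 0 → (Inc (pt w) l ↔ Inc (pt w) l')) → l = l' := by
    intro l l' h
    by_contra hne
    obtain ⟨p, -, hp⟩ := hM.pp.point l l' hne
    obtain ⟨q, r, t, hq, hr, -, hqr, -, -⟩ := hM.pp.three l
    have k : ∀ q, Inc q l → q = p := by
      intro q hq
      obtain ⟨w, hw, rfl⟩ := hH.pt_surj q
      exact hp _ ⟨hq, (h w hw).1 hq⟩
    exact hqr ((k q hq).trans (k r hr).symm)
  have act_ln : ∀ u φ, dot φ u = 0 → ∀ ψ, ψ ≠ 0 →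
      tau u φ • ln ψ = ln (ψ - ls (dot ψ u) φ) := by
    intro u φ hd ψ hψ
    have hne : ψ - ls (dot ψ u) φ ≠ 0 := by
      intro h
      have h3 : ψ = ls (dot ψ u) φ := sub_eq_zero.1 h
      have h4 : dot ψ u = 0 := by
        rw [h3, tb_dot_ls, hd, mul_zero]
      rw [h4, tb_zero_ls] at h3
      exact hψ h3
    refine lext _ _ fun w hw => ?_
    -- `w = M w'`
    set w' : Fin 3 → K := w + rs u (-dot φ w) with hw'
    have e1 : dot φ w' = dot φ w := by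
      rw [hw', tb_dot_add, tb_dot_rs, hd, zero_mul, add_zero]
    have e2 : w' + rs u (dot φ w') = w := by
      rw [e1, hw', tb_rs_neg, neg_add_cancel_right]
    have hw0 : w' ≠ 0 := by
      intro h
      rw [h, tb_dot_zero_r, tb_rs_zero, add_zero] at e2
      exact hw e2.symm
    have e3 : pt w = tau u φ • pt w' := by
      rw [act u φ hd w' hw0, e2]
    have e4 : dot (ψ - ls (dot ψ u) φ) w = dot ψ w' := by
      rw [tb_dot_sub_l, tb_dot_ls, hw', tb_dot_add, tb_dot_rs, mul_neg, sub_eq_add_neg]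
    rw [hH.inc w _ hw hne, e4, ← hH.inc w' ψ hw0 hψ, e3]
    exact hM.inc (tau u φ) (pt w') (ln ψ)
  have add_l : ∀ u v φ, dot φ u = 0 → dot φ v = 0 → tau (u + v) φ = tau u φ * tau v φ := by
    intro u v φ hu hv
    refine ext _ _ fun w hw => ?_
    rw [mul_smul, act v φ hv w hw, act u φ hu _ (mat_ne hv hw), act (u + v) φ (by
      rw [tb_dot_add, hu, hv, add_zero]) w hw, tb_dot_add, tb_dot_rs, hv, zero_mul, add_zero,
      tb_add_rs]
    congr 1
    abel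
  have add_r : ∀ u φ ψ, dot φ u = 0 → dot ψ u = 0 → tau u (φ + ψ) = tau u φ * tau u ψ := by
    intro u φ ψ hu hv
    refine ext _ _ fun w hw => ?_
    rw [mul_smul, act u ψ hv w hw, act u φ hu _ (mat_ne hv hw), act u (φ + ψ) (by
      rw [tb_dot_add_l, hu, hv, add_zero]) w hw, tb_dot_add, tb_dot_rs, hu, zero_mul, add_zero,
      tb_dot_add_l, tb_rs_add]
    congr 1
    abel
  have scal : ∀ u φ a, dot φ u = 0 → tau (rs u a) φ = tau u (ls a φ) := by
    intro u φ a hd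
    refine ext _ _ fun w hw => ?_
    rw [act _ _ (by rw [tb_dot_rs, hd, zero_mul]) w hw, act _ _ (by rw [tb_dot_ls, hd, mul_zero])
      w hw, tb_rs_rs, tb_dot_ls]
  have conj : ∀ u φ v ψ, dot φ u = 0 → dot ψ v = 0 →
      tau u φ * tau v ψ * (tau u φ)⁻¹ = tau (v + rs u (dot φ v)) (ψ - ls (dot ψ u) φ) := by
    intro u φ v ψ hu hv
    rw [mul_inv_eq_iff_eq_mul]
    have hd : dot (ψ - ls (dot ψ u) φ) (v + rs u (dot φ v)) = 0 := by
      rw [tb_dot_sub_l, tb_dot_add, tb_dot_ls, tb_dot_add, tb_dot_rs, tb_dot_rs, hu, hv, zero_mul,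
        add_zero, zero_add, sub_self]
    refine ext _ _ fun w hw => ?_
    have e1 : dot (ψ - ls (dot ψ u) φ) (w + rs u (dot φ w)) = dot ψ w := by
      rw [tb_dot_sub_l, tb_dot_add, tb_dot_ls, tb_dot_add, tb_dot_rs, tb_dot_rs, hu, zero_mul,
        add_zero, add_sub_cancel_right]
    rw [mul_smul, mul_smul, act v ψ hv w hw, act u φ hu _ (mat_ne hv hw), act u φ hu w hw,
      act _ _ hd _ (mat_ne hu hw), e1, tb_dot_add, tb_dot_rs, tb_rs_add, tb_add_rs, tb_rs_rs]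
    congr 1
    abel
  have comm : ∀ i j k : Fin 3, i ≠ j → j ≠ k → i ≠ k → ∀ a b : K,
      ⁅tau (rs (ev i) a) (ev j), tau (rs (ev j) b) (ev k)⁆ = tau (rs (ev i) (a * b)) (ev k) := by
    intro i j k hij hjk hik a b
    have d1 : dot (ev j) (rs (ev i) a) = 0 := by
      rw [tb_dot_ev, tb_rs_ev, Pi.single_eq_of_ne hij.symm]
    have d2 : dot (ev k) (rs (ev j) b) = 0 := by
      rw [tb_dot_ev, tb_rs_ev, Pi.single_eq_of_ne hjk.symm]
    have d3 : dot (ev k) (rs (ev i) a) = 0 := by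
      rw [tb_dot_ev, tb_rs_ev, Pi.single_eq_of_ne hik.symm]
    have d4 : dot (ev j) (rs (ev j) b) = b := by
      rw [tb_dot_ev, tb_rs_ev, Pi.single_eq_same]
    have d5 : dot (ev k) (rs (ev i) (a * b)) = 0 := by
      rw [tb_dot_ev, tb_rs_ev, Pi.single_eq_of_ne hik.symm]
    rw [commutatorElement_def, conj _ _ _ _ d1 d2, d3, d4, tb_zero_ls, sub_zero, tb_rs_rs,
      add_comm, add_l _ _ _ d5 d2, mul_inv_cancel_right]
  refine ⟨tau, act, act_ln, mem, ?_, add_l, add_r, scal, zl, zr, conj, comm, ?_, ?_, ?_⟩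
  · intro u φ hu hφ hd g hg
    obtain ⟨w₀, hw₀, hd₀⟩ := tb_ex_ne hφ
    have i1 : Inc (pt u) (ln φ) := (hH.inc u φ hu hφ).2 hd
    have i2 : ¬ Inc (pt w₀) (ln φ) := fun h => hd₀ ((hH.inc w₀ φ hw₀ hφ).1 h)
    have hgl : g • ln φ = ln φ := hg.2 _ i1
    obtain ⟨w₁, hw₁, he₁⟩ := hH.pt_surj (g • pt w₀)
    have i3 : ¬ Inc (pt w₁) (ln φ) := by
      intro h
      rw [he₁, ← hgl] at h
      exact i2 ((hM.inc g _ _).1 h)
    have hd₁ : dot φ w₁ ≠ 0 := fun h => i3 ((hH.inc w₁ φ hw₁ hφ).2 h)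
    have hne : pt u ≠ pt w₀ := by
      intro h
      rw [h] at i1
      exact i2 i1
    obtain ⟨l, ⟨hl1, hl2⟩, -⟩ := hM.pp.line _ _ hne
    obtain ⟨χ, hχ, rfl⟩ := hH.ln_surj l
    have c1 : dot χ u = 0 := (hH.inc u χ hu hχ).1 hl1
    have c2 : dot χ w₀ = 0 := (hH.inc w₀ χ hw₀ hχ).1 hl2
    have c3 : dot χ w₁ = 0 := by
      refine (hH.inc w₁ χ hw₁ hχ).1 ?_
      rw [he₁, ← hg.2 (ln χ) hl1]
      exact (hM.inc g _ _).2 hl2
    set α : K := (dot φ w₀)⁻¹ * dot φ w₁ with hα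
    have hα0 : α ≠ 0 := mul_ne_zero (inv_ne_zero hd₀) hd₁
    -- `w₁ = w₀ α + u β`
    have key : ∃ β : K, w₁ = rs w₀ α + rs u β := by
      by_cases hz : w₁ - rs w₀ α = 0
      · refine ⟨0, ?_⟩
        rw [tb_rs_zero, add_zero]
        exact sub_eq_zero.1 hz
      · have k1 : dot φ (w₁ - rs w₀ α) = 0 := by
          rw [sub_eq_add_neg, ← tb_rs_neg, tb_dot_add, tb_dot_rs, mul_neg, hα,
            mul_inv_cancel_left₀ hd₀, add_neg_cancel]
        have k2 : dot χ (w₁ - rs w₀ α) = 0 := by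
          rw [sub_eq_add_neg, ← tb_rs_neg, tb_dot_add, tb_dot_rs, c2, c3, zero_mul, add_zero]
        have k3 : ln φ ≠ ln χ := by
          intro h
          rw [h] at i2
          exact i2 hl2
        obtain ⟨p, -, hp⟩ := hM.pp.point _ _ k3
        have k4 : pt u = p := hp _ ⟨i1, hl1⟩
        have k5 : pt (w₁ - rs w₀ α) = p :=
          hp _ ⟨(hH.inc _ φ hz hφ).2 k1, (hH.inc _ χ hz hχ).2 k2⟩
        obtain ⟨β, -, hβ⟩ := (hH.pt_eq u _ hu hz).1 (k4.trans k5.symm)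
        refine ⟨β, ?_⟩
        rw [← hβ, add_sub_cancel]
    obtain ⟨β, hβ⟩ := key
    refine ⟨β * α⁻¹ * (dot φ w₀)⁻¹, ?_⟩
    have e5 : w₁ = rs (w₀ + rs u (β * α⁻¹)) α := by
      rw [tb_add_rs, tb_rs_rs, inv_mul_cancel_right₀ hα0]
      exact hβ
    have e6 : w₀ + rs u (β * α⁻¹) ≠ 0 := by
      intro h
      rw [h, tb_zero_rs] at e5
      exact hw₁ e5
    have e7 : g • pt w₀ = pt (w₀ + rs u (β * α⁻¹)) := by
      rw [← he₁]
      exact ((hH.pt_eq _ w₁ e6 hw₁).2 ⟨α, hα0, e5⟩).symm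
    have d1 : dot φ (rs u (β * α⁻¹ * (dot φ w₀)⁻¹)) = 0 := by
      rw [tb_dot_rs, hd, zero_mul]
    have e8 : tau (rs u (β * α⁻¹ * (dot φ w₀)⁻¹)) φ • pt w₀ = g • pt w₀ := by
      rw [act _ _ d1 w₀ hw₀, tb_rs_rs, inv_mul_cancel_right₀ hd₀, e7]
    have m1 : tau (rs u (β * α⁻¹ * (dot φ w₀)⁻¹)) φ ∈ Tr (Gp X) (Inc (s := s)) (ln φ) := by
      refine ⟨pt u, i1, ?_⟩
      by_cases h0 : β * α⁻¹ * (dot φ w₀)⁻¹ = 0
      · rw [h0, tb_rs_zero, zl]
        exact (El (Gp X) (Inc (s := s)) (pt u) (ln φ)).one_mem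
      · have h3 := mem _ φ (tb_rs_ne hu h0) hφ d1
        have h4 : pt u = pt (rs u (β * α⁻¹ * (dot φ w₀)⁻¹)) :=
          (hH.pt_eq u _ hu (tb_rs_ne hu h0)).2 ⟨_, h0, rfl⟩
        rw [← h4] at h3
        exact h3
    have i4 : ¬ Inc (g • pt w₀) (ln φ) := by
      rw [← he₁]
      exact i3
    exact (tr_sharp hM i2 i4).unique ⟨⟨pt u, i1, hg⟩, rfl⟩ ⟨m1, e8⟩
  · intro a
    refine ext _ _ fun w hw => ?_
    rw [hH.a a w hw, act _ _ (by
      rw [tb_dot_ev, tb_rs_ev, Pi.single_eq_of_ne (by decide)]) w hw, tb_rs_rs, tb_dot_ev, tb_rs_ev]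
  · intro a
    refine ext _ _ fun w hw => ?_
    rw [hH.b a w hw, act _ _ (by
      rw [tb_dot_ev, tb_rs_ev, Pi.single_eq_of_ne (by decide)]) w hw, tb_rs_rs, tb_dot_ev, tb_rs_ev]
  · intro a
    refine ext _ _ fun w hw => ?_
    rw [hH.c a w hw, act _ _ (by
      rw [tb_dot_ev, tb_rs_ev, Pi.single_eq_of_ne (by decide)]) w hw, tb_rs_rs, tb_dot_ev, tb_rs_ev]

end Pool.Agent.PLB
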