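import Pool.Agent.PLB.ElaB
import Pool.Agent.PLB.PPc

set_option autoImplicit false

/-! Theorem PB, (4.1): elations acting on `X`.

PLAN. `tr_fix`: take a point `e` not on `l` and `e' = t • e` (not on `l`, `smul_inc`, `axis_fixed`); a base `x` with both far
(`exists_far2`); `ela` gives `g ∈ Tr l`, `g x = x`, `g • e = e'`; `tr_sharp` (`mp s`): `t = g`. `ax_tr`: `ax_of_pts`.
`cx_el`: `cx_of_lns`. `tr_mu`: `mu (t o) (t • p) (t z) = mu o p z` (`mu_smul`), `t • p = p`, `mu_base`; the constant is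
`0` since `t` fixes some point. `tr_nu`, `el_nu`: the same with `nu_smul`, `nu_base` (`t • m = m` for a line `m` through the
centre or the axis). `split`: take `f` far from `l` at `z` (`exists_off`), `t ∈ Tr l` with `t • f = e` (`mp`), `smul_far`
(`t • l = l`). `el_conj_X`: see `el_conj`. -/

namespace Pool.Agent.PLB

open Pool.Agent.Helper87.ML Pool.Agent.RIG OrderDual
open scoped commutatorElement

universe u

variable {X : Type u} [Lattice X] [IsModularLattice X] {s : X ≃o X} [PB X s]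

private theorem trx_line [Nonempty X] {l : Ln s} {t : Gp X}
    (ht : t ∈ Tr (Gp X) (Inc (s := s)) l) : t • l = l := by
  obtain ⟨c, -, hA, -⟩ := ht
  have hM : MP (Gp X) (Inc (s := s)) := mp s
  exact axis_fixed (σ := fun p : Pt s => t • p) (τ := fun m : Ln s => t • m) hM.pp
    (fun p m => hM.inc t p m) hA

private theorem trx_pt {l : Ln s} {t : Gp X} (ht : t ∈ Tr (Gp X) (Inc (s := s)) l) {p : Pt s}
    (hp : Inc p l) : (t : X ≃o X) • p = p := by
  obtain ⟨c, -, hA, -⟩ := ht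
  exact hA p hp

theorem tr_fix [Nonempty X] {l : Ln s} {t : Gp X} (ht : t ∈ Tr (Gp X) (Inc (s := s)) l) :
    ∃ z, (t : X ≃o X) z = z := by
  have hM : MP (Gp X) (Inc (s := s)) := mp s
  have hl := trx_line ht
  obtain ⟨e, he⟩ := hM.pp.off l
  have he' : ¬ Inc (t • e) l := by
    intro h
    rw [← hl] at h
    exact he ((hM.inc t e l).1 h)
  obtain ⟨x, k, k'⟩ := exists_far2 he he'
  obtain ⟨g, hgx, hg, hge⟩ := ela k k'
  have h1 : t = g := (tr_sharp hM he he').unique ⟨ht, rfl⟩ ⟨hg, hge⟩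
  refine ⟨x, ?_⟩
  rw [h1]
  exact hgx

theorem ax_tr {l : Ln s} {t : Gp X} (ht : t ∈ Tr (Gp X) (Inc (s := s)) l) {z : X}
    (hz : (t : X ≃o X) z = z) : Ax l z (t : X ≃o X) :=
  ax_of_pts hz (fun _ hp => trx_pt ht hp)

theorem cx_el {p : Pt s} {l : Ln s} {t : Gp X} (ht : t ∈ El (Gp X) (Inc (s := s)) p l) {z : X}
    (hz : (t : X ≃o X) z = z) : Cx p z (t : X ≃o X) :=
  cx_of_lns hz (fun m hm => ht.2 m hm)

theorem tr_mu (o : X) {p : Pt s} {l : Ln s} (hp : Inc p l) {t : Gp X}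
    (ht : t ∈ Tr (Gp X) (Inc (s := s)) l) (z : X) :
    mu o p ((t : X ≃o X) z) = mu o p z := by
  haveI : Nonempty X := ⟨o⟩
  obtain ⟨w, hw⟩ := tr_fix ht
  have h1 := mu_smul o p (t : X ≃o X) z
  have h2 := mu_smul o p (t : X ≃o X) w
  rw [trx_pt ht hp, mu_base o] at h1 h2
  rw [hw] at h2
  linarith

private theorem trx_nu (o : X) {m : Ln s} {t : Gp X} (hm : (t : X ≃o X) • m = m) {w : X}
    (hw : (t : X ≃o X) w = w) (z : X) : nu o m ((t : X ≃o X) z) = nu o m z := by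
  have h1 := nu_smul o m (t : X ≃o X) z
  have h2 := nu_smul o m (t : X ≃o X) w
  rw [hm, nu_base o] at h1 h2
  rw [hw] at h2
  linarith

theorem tr_nu (o : X) {l : Ln s} {t : Gp X} (ht : t ∈ Tr (Gp X) (Inc (s := s)) l) (z : X) :
    nu o l ((t : X ≃o X) z) = nu o l z := by
  haveI : Nonempty X := ⟨o⟩
  obtain ⟨w, hw⟩ := tr_fix ht
  exact trx_nu o (trx_line ht) hw z

theorem el_nu (o : X) {p : Pt s} {l m : Ln s} (hl : Inc p l) (hm : Inc p m) {t : Gp X}
    (ht : t ∈ El (Gp X) (Inc (s := s)) p l) (z : X) :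
    nu o m ((t : X ≃o X) z) = nu o m z := by
  haveI : Nonempty X := ⟨o⟩
  obtain ⟨w, hw⟩ := tr_fix (l := l) (t := t) ⟨p, hl, ht⟩
  exact trx_nu o (ht.2 m hm) hw z

theorem split {e : Pt s} {l : Ln s} (he : ¬ Inc e l) (z : X) :
    ∃ t : Gp X, t ∈ Tr (Gp X) (Inc (s := s)) l ∧ Far e l ((t : X ≃o X) z) := by
  haveI : Nonempty X := ⟨z⟩
  obtain ⟨f, hf, -⟩ := exists_off l l z
  obtain ⟨t, ht, hte⟩ := (mp s).mou l f e (far_not_inc hf) he
  refine ⟨t, ht, ?_⟩
  have h1 := (smul_far (t : X ≃o X) f l z).2 hf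
  have h2 : (t : X ≃o X) • f = e := hte
  have h3 : (t : X ≃o X) • l = l := trx_line ht
  rw [h2, h3] at h1
  exact h1

end Pool.Agent.PLB
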