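import Pool.Agent.PLB.CptA
import Pool.Agent.PLB.CycB

set_option autoImplicit false

/-! Theorem PB, (2.1): automorphisms with axis `h` moving `f` to `f'`.

PLAN. `compact` with `x' = x` and `R j φ := (∀ y, x ≤ y → y ≤ Hk h j x → φ y = y) ∧ ∀ i ≤ j, φ (f^i x) = f'^i x`.
Nonempty for `j ≥ 1`: `RIG.tr` (TR.lean) with `z = x`, `l = Hk h j x`, `c = f^j x`, `c' = f'^j x`, `M` large
(`Nat.card < 2 ^ Nat.card`, `Nat.lt_two_pow_self`), `t = s^[(M+3)*j] x`; `Key` from `RIG.key1` (all blocks are planes);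
`CI x (f^j x) j`: `seg`, `it_inj`; `c ⊓ l = x`, `c ⊔ l = s^j x`: `far_inf`, `far_sup`. The automorphism of `[x, s^j x]` maps
`f^j x` to `f'^j x`, hence `f^i x = f^j x ⊓ s^i x` to `f'^i x` (`it_inf_s`; it fixes `s^i x`: `RIG.iso_it`). `hres`:
`Hk_le_Hk`. Then `Ax h x g` (every `Hk h k x` occurs) and `g • f = f'` by `smul_eq_of_it`. -/

namespace Pool.Agent.PLB

open Pool.Agent.Helper87.ML Pool.Agent.RIG OrderDual

universe u

variable {X : Type u} [Lattice X] [IsModularLattice X] {s : X ≃o X} [PB X s]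

private theorem trva_inf {L : Type u} [Lattice L] {a b c d x y : L} (φ : IIso a b c d)
    (h1 : a ≤ x) (h2 : x ≤ b) (h3 : a ≤ y) (h4 : y ≤ b) : φ.f (x ⊓ y) = φ.f x ⊓ φ.f y := by
  have h5 : a ≤ x ⊓ y := le_inf h1 h3
  have h6 : x ⊓ y ≤ b := inf_le_left.trans h2
  have hx := φ.fm x h1 h2
  have hy := φ.fm y h3 h4
  apply le_antisymm
  · exact le_inf ((φ.le _ _ h5 h6 h1 h2).2 inf_le_left) ((φ.le _ _ h5 h6 h3 h4).2 inf_le_right)
  · have h7 : c ≤ φ.f x ⊓ φ.f y := le_inf hx.1 hy.1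
    have h8 : φ.f x ⊓ φ.f y ≤ d := inf_le_left.trans hx.2
    have h9 := φ.gm _ h7 h8
    rw [← φ.fg _ h7 h8, φ.le _ _ h9.1 h9.2 h5 h6]
    apply le_inf
    · rw [← φ.le _ _ h9.1 h9.2 h1 h2, φ.fg _ h7 h8]
      exact inf_le_left
    · rw [← φ.le _ _ h9.1 h9.2 h3 h4, φ.fg _ h7 h8]
      exact inf_le_right

private theorem trva_ci (f : Pt s) (x : X) (j : ℕ) : CI x (f.1^[j] x) j := by
  refine ⟨fun y w h1 h2 h3 h4 => ?_, ?_⟩
  · obtain ⟨i, -, rfl⟩ := seg f j h1 h2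
    obtain ⟨i', -, rfl⟩ := seg f j h3 h4
    rcases le_total i i' with h | h
    · exact Or.inl (it_le_it f h x)
    · exact Or.inr (it_le_it f h x)
  · have h1 : Set.Icc x (f.1^[j] x) = (fun i => f.1^[i] x) '' (Finset.range (j + 1) : Set ℕ) := by
      ext y
      constructor
      · rintro ⟨h1, h2⟩
        obtain ⟨i, hi, rfl⟩ := seg f j h1 h2
        exact ⟨i, Finset.mem_coe.2 (Finset.mem_range.2 (Nat.lt_succ_of_le hi)), rfl⟩
      · rintro ⟨i, hi, rfl⟩
        have h2 : i < j + 1 := Finset.mem_range.1 (Finset.mem_coe.1 hi)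
        exact ⟨it_le_it f (Nat.zero_le i) x, it_le_it f (Nat.le_of_lt_succ h2) x⟩
    rw [h1, Set.ncard_image_of_injective _ (fun i i' h => it_inj f h), Set.ncard_coe_finset,
      Finset.card_range]

theorem ax_trans {f f' : Pt s} {h : Ln s} {x : X} (k : Far f h x) (k' : Far f' h x) :
    ∃ g : X ≃o X, Ax h x g ∧ g • f = f' := by
  have hs : IsUp (s : X → X) := PB.up (s := s)
  have hF : LF X := PB.fin s
  have hSD : SD' X := PB.sd s
  have hK : ∀ z t : X, Key s z t := fun z t u v _ huv _ d =>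
    key1 hF hSD hs huv (PB.pl (s := s) u) (PB.pl (s := s) v) d
  obtain ⟨g, hg, hR⟩ := compact s x x
    (fun j φ => (∀ y, x ≤ y → y ≤ Hk h j x → φ y = y) ∧ ∀ i, i ≤ j → φ (f.1^[i] x) = f'.1^[i] x)
    (fun j => by
      rcases Nat.eq_zero_or_pos j with rfl | hj
      · refine ⟨IIso.refl _ _, fun y _ _ => rfl, fun i hi => ?_⟩
        obtain rfl : i = 0 := by omega
        rfl
      · obtain ⟨φ, h1, h2⟩ := tr hF hSD hs (hK x (s^[(Nat.card (Set.Icc x (Hk h j x) ≃o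
          Set.Icc x (Hk h j x)) + 3) * j] x)) j _ hj le_rfl (trva_ci f x j) (far_inf k j j)
          (far_sup k j) (far_inf k' j j) (far_sup k' j) Nat.lt_two_pow_self
        refine ⟨φ, h1, fun i hi => ?_⟩
        have h3 : f.1^[i] x = f.1^[j] x ⊓ s^[i] x := by rw [it_inf_s, min_eq_right hi]
        have h4 : s^[i] x ≤ s^[j] x := Pool.Agent.RIG.it_le_it hs hi x
        rw [h3, trva_inf φ (it_le_it f (Nat.zero_le j) x) (it_le_s f j x) (le_it hs i x) h4, h2,
          iso_it hs φ i h4 h4, it_inf_s, min_eq_right hi])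
    (fun j φ hφ => ⟨fun y hy hy' => hφ.1 y hy (hy'.trans (Hk_le_Hk h (Nat.le_succ j) x)),
      fun i hi => hφ.2 i (by omega)⟩)
    (fun j φ φ' he hφ => by
      refine ⟨fun y hy hy' => ?_, fun i hi => ?_⟩
      · rw [← he y hy (hy'.trans (Hk_le_s h j x))]
        exact hφ.1 y hy hy'
      · rw [← he _ (it_le_it f (Nat.zero_le i) x)
          ((it_le_s f i x).trans (Pool.Agent.RIG.it_le_it hs hi x))]
        exact hφ.2 i hi)
  refine ⟨g, fun n y h1 h2 => (hR n).1 y h1 h2, smul_eq_of_it x fun i => ?_⟩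
  rw [hg]
  exact (hR i).2 i le_rfl

end Pool.Agent.PLB
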