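import Pool.Agent.PLB.TrvA

set_option autoImplicit false

/-! Theorem PB, (2.2), (2.3), (2.4): dual transvections, homogeneity, stabilisers.

PLAN. `cx_trans`: `ax_trans` in `(Xᵒᵈ, dl s)` for the points `h.pt`, `h'.pt` and the line `f.co` at the base `toDual (s x)`
(`far_dual`), translate by `ax_dual`, `OrderIso.dual`; this gives `Cx f (s x) g`, and `Cx f x g` follows as `g` commutes
with `s` (`cx_iff`, `mu_s`). `hom_base`: `compact` with `R j φ := True`: `RIG.cube_iso` for comparable elements, and for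
`x, x'` both with `x ⊔ x'`. `hom_far`: compose: move `x` to `x'` (`hom_base`); then at the base `x'` the lines: choose a
point far from both lines (`exists_off`), `cx_trans` (`Cx f x g` gives `g x = x`, `k = 0`); then the points: `ax_trans`.
`ax_up`: `[y, ...]` elements of the same level (`ax_iff`). `ax_it`: `Ax h (f^m x) g → Ax h x g`: for `y ≥ x` of the level of
`x`, `s^m y ≥ s^m x ≥ f^m x` (`it_le_s`) has the level of `f^m x` (`nu_s`, `far_nu`), so `g` fixes `s^m y` and `y`; conversely an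
element `y ≥ f^m x` with the level of `f^m x` is `f^m x ⊔ (y ⊓ Hk h k x)` for large `k` (modular law; `y ≤ Hk h k (f^m x) =
f^m x ⊔ Hk h k x`, `far_join`, `far_comm`). -/

namespace Pool.Agent.PLB

open Pool.Agent.Helper87.ML Pool.Agent.RIG OrderDual

universe u

variable {X : Type u} [Lattice X] [IsModularLattice X] {s : X ≃o X} [PB X s]

/-- an automorphism of the dual lattice as an automorphism -/
private def trvb_und (g : Xᵒᵈ ≃o Xᵒᵈ) : X ≃o X where
  toFun x := ofDual (g (toDual x))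
  invFun x := ofDual (g.symm (toDual x))
  left_inv x := by simp
  right_inv x := by simp
  map_rel_iff' := by
    intro a b
    show ofDual (g (toDual a)) ≤ ofDual (g (toDual b)) ↔ a ≤ b
    rw [ofDual_le_ofDual, g.le_iff_le, toDual_le_toDual]

omit [IsModularLattice X] [PB X s] in
private theorem trvb_inj (m : ℕ) {y z : X} (h : s^[m] y = s^[m] z) : y = z :=
  (s.injective.iterate m) h

omit [IsModularLattice X] [PB X s] in
private theorem trvb_mono (m : ℕ) {y z : X} (h : y ≤ z) : s^[m] y ≤ s^[m] z :=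
  (s.monotone.iterate m) h

omit [IsModularLattice X] [PB X s] in
private theorem trvb_symm (m : ℕ) (y : X) : s^[m] (s.symm^[m] y) = y :=
  (Function.LeftInverse.iterate (s.apply_symm_apply) m) y

omit [IsModularLattice X] [PB X s] in
private theorem trvb_symm' (m : ℕ) (y : X) : s.symm^[m] (s^[m] y) = y :=
  (Function.LeftInverse.iterate (s.symm_apply_apply) m) y

private theorem trvb_cx_s {f : Pt s} {x : X} {g : X ≃o X} (k : Cx f (s x) g) : Cx f x g := by
  rw [cx_iff x] at k ⊢
  intro y hy hm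
  have e1 : ∀ z : X, mu x f (s z) = mu x f z + 1 := fun z => by
    have := mu_s x f 1 z
    rw [Function.iterate_one] at this
    simpa using this
  have h1 := k (s y) (s.monotone hy) (by rw [e1, e1, hm])
  rw [aut_comm] at h1
  exact s.injective h1

theorem cx_trans {f : Pt s} {h h' : Ln s} {x : X} (k : Far f h x) (k' : Far f h' x) :
    ∃ g : X ≃o X, Cx f x g ∧ g • h = h' := by
  obtain ⟨g', hg1, hg2⟩ := ax_trans ((far_dual f h x).2 k) ((far_dual f h' x).2 k')
  refine ⟨trvb_und g', trvb_cx_s ?_, ?_⟩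
  · exact (ax_dual f (s x) (trvb_und g')).1 hg1
  · have h1 : (g' • h.pt).co' = h'.pt.co' := congrArg Pt.co' hg2
    exact h1

/-- the comparable case of `hom_base` -/
private theorem trvb_base (s : X ≃o X) [PB X s] {x x' : X} (hxx : x ≤ x') :
    ∃ g : X ≃o X, g x = x' := by
  have h1 : ∀ j, ∃ φ : IIso x (s^[j] x) x' (s^[j] x'), (fun (_ : ℕ) (_ : X → X) => True) j φ.f := by
    intro j
    have hK : Key (s : X → X) x (s^[j] x') := by
      intro u v hu huv hv d
      exact key1 (PB.fin s) (PB.sd s) (PB.up (s := s)) huv (PB.pl u) (PB.pl v) d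
    obtain ⟨φ⟩ := cube_iso (PB.sd s) (PB.up (s := s)) hK j le_rfl hxx le_rfl
    exact ⟨φ, trivial⟩
  obtain ⟨g, hg, -⟩ := compact s x x' (fun _ _ => True) h1 (fun _ _ _ => trivial)
    (fun _ _ _ _ _ => trivial)
  exact ⟨g, hg⟩

theorem hom_base (s : X ≃o X) [PB X s] (x x' : X) : ∃ g : X ≃o X, g x = x' := by
  obtain ⟨a, ha⟩ := trvb_base s (le_sup_left : x ≤ x ⊔ x')
  obtain ⟨b, hb⟩ := trvb_base s (le_sup_right : x' ≤ x ⊔ x')
  refine ⟨a.trans b.symm, ?_⟩
  show b.symm (a x) = x'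
  rw [ha, ← hb, b.symm_apply_apply]

theorem hom_far {f f' : Pt s} {h h' : Ln s} {x x' : X} (k : Far f h x) (k' : Far f' h' x') :
    ∃ g : X ≃o X, g x = x' ∧ g • f = f' ∧ g • h = h' := by
  obtain ⟨a, ha⟩ := hom_base s x x'
  have k1 : Far (a • f) (a • h) x' := by
    rw [← ha]
    exact (smul_far a f h x).2 k
  obtain ⟨p, hp1, hp2⟩ := exists_off (a • h) h' x'
  obtain ⟨b, hb1, hb2⟩ := cx_trans hp1 hp2
  have hbx : b x' = x' := hb1 0 x' le_rfl le_rfl
  have k2 : Far (b • a • f) h' x' := by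
    have h1 := (smul_far b (a • f) (a • h) x').2 k1
    rwa [hb2, hbx] at h1
  obtain ⟨c, hc1, hc2⟩ := ax_trans k2 k'
  have hcx : c x' = x' := hc1 0 x' le_rfl le_rfl
  have hch : c • h' = h' := smul_eq_of_co x' fun i => by
    rw [hc1 i (Hk h' i x') (le_Hk h' i x') le_rfl, hcx]
  refine ⟨c * b * a, ?_, ?_, ?_⟩
  · show c (b (a x)) = x'
    rw [ha, hbx, hcx]
  · rw [mul_smul, mul_smul, hc2]
  · rw [mul_smul, mul_smul, hb2, hch]

theorem ax_up (o : X) {h : Ln s} {x y : X} (hxy : x ≤ y) (hn : nu o h y = nu o h x)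
    {g : X → X} (k : Ax h x g) : Ax h y g := by
  rw [ax_iff o] at k ⊢
  intro z hz hnz
  exact k z (hxy.trans hz) (hnz.trans hn)

theorem ax_Hk {h : Ln s} {x : X} (m : ℕ) {g : X → X} (k : Ax h x g) : Ax h (Hk h m x) g :=
  ax_up x (le_Hk h m x) (nu_Hk x h m x) k

theorem ax_s {h : Ln s} {x : X} (m : ℕ) {g : X ≃o X} : Ax h (s^[m] x) g ↔ Ax h x g := by
  rw [ax_iff x, ax_iff x]
  constructor
  · intro k y hy hn
    have h1 := k (s^[m] y) (trvb_mono m hy) (by rw [nu_s, nu_s, hn])
    rw [aut_it s] at h1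
    exact trvb_inj m h1
  · intro k y hy hn
    have h1 : x ≤ s.symm^[m] y := by
      rw [← trvb_symm' (s := s) m x]
      exact (s.symm.monotone.iterate m) hy
    have h2 : nu x h (s.symm^[m] y) = nu x h x := by
      rw [nu_symm, hn, nu_s]
      ring
    have h3 := k _ h1 h2
    have h4 := congrArg (s^[m]) h3
    rw [← aut_it s, trvb_symm] at h4
    exact h4

theorem ax_it {f : Pt s} {h : Ln s} {x : X} (k : Far f h x) (m : ℕ) (g : X ≃o X) :
    Ax h (f.1^[m] x) g ↔ Ax h x g ∧ g (f.1^[m] x) = f.1^[m] x := by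
  constructor
  · intro ha
    refine ⟨?_, ha 0 _ le_rfl le_rfl⟩
    rw [ax_iff x] at ha ⊢
    intro y hy hn
    have h1 := ha (s^[m] y) ((it_le_s f m x).trans (trvb_mono m hy))
      (by rw [nu_s, hn, far_nu x k m])
    rw [aut_it s] at h1
    exact trvb_inj m h1
  · rintro ⟨ha, hg⟩
    rw [ax_iff x]
    intro y hy hn
    obtain ⟨k₀, hk⟩ := exists_Hk x h (le_of_eq hn)
    have h1 := hk k₀ le_rfl
    rw [← far_comm k, ← far_join k] at h1
    have hxy : x ≤ y := by
      refine le_trans ?_ hy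
      have := it_le_it f (Nat.zero_le m) x
      exact this
    have h2 : g (y ⊓ Hk h k₀ x) = y ⊓ Hk h k₀ x :=
      ha k₀ _ (le_inf hxy (le_Hk h k₀ x)) inf_le_right
    have h3 : y = f.1^[m] x ⊔ (y ⊓ Hk h k₀ x) := by
      rw [inf_comm, ← sup_inf_assoc_of_le (Hk h k₀ x) hy]
      exact (inf_eq_right.2 h1).symm
    calc g y = g (f.1^[m] x ⊔ (y ⊓ Hk h k₀ x)) := by rw [← h3]
      _ = g (f.1^[m] x) ⊔ g (y ⊓ Hk h k₀ x) := g.map_sup _ _
      _ = f.1^[m] x ⊔ (y ⊓ Hk h k₀ x) := by rw [hg, h2]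
      _ = y := h3.symm

theorem ax_smul {h : Ln s} {x : X} (a g : X ≃o X) :
    Ax (a • h) (a x) (a * g * a⁻¹ : X ≃o X) ↔ Ax h x g := by
  constructor
  · intro k i y h1 h2
    have h3 := k i (a y) (a.monotone h1) (by rw [smul_Hk]; exact a.monotone h2)
    have h4 : (a * g * a⁻¹ : X ≃o X) (a y) = a (g y) := by
      show a (g (a.symm (a y))) = a (g y)
      rw [a.symm_apply_apply]
    rw [h4] at h3
    exact a.injective h3
  · intro k i y h1 h2
    have h3 : x ≤ a.symm y := (a.le_symm_apply).2 h1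
    have h4 : a.symm y ≤ Hk h i x := by
      rw [smul_Hk] at h2
      exact (a.symm_apply_le).2 h2
    show a (g (a.symm y)) = y
    rw [k i _ h3 h4, a.apply_symm_apply]

end Pool.Agent.PLB
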