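import Pool.Agent.PLB.VlA

set_option autoImplicit false

/-! Theorem PB, uniqueness of the coordinate division ring: transport of points, lines, automorphisms along an order
isomorphism `φ : X ≃o X'`.

`tr_s` by uniqueness of least upper bounds of the upper covers; everything else is transport of structure; `mu_T`, `nu_T` by
`mu_unique`, `nu_unique`. -/

namespace Pool.Agent.PLB

open Pool.Agent.Helper87.ML Pool.Agent.RIG OrderDual
open scoped commutatorElement

universe u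

variable {X : Type u} [Lattice X] [IsModularLattice X] {s : X ≃o X} [PB X s]
  {X' : Type u} [Lattice X'] [IsModularLattice X'] {s' : X' ≃o X'} [PB X' s']

theorem tr_s (s : X ≃o X) [PB X s] (s' : X' ≃o X') [PB X' s'] (φ : X ≃o X') (x : X) :
    φ (s x) = s' (φ x) := by
  have h1 := (PB.up (s := s) x)
  have h2 := (PB.up (s := s') (φ x))
  have h3 : IsLUB (insert (φ x) {y | φ x ⋖ y}) (φ (s x)) := by
    have h4 := (OrderIso.isLUB_image' φ (s := insert x {y | x ⋖ y}) (x := s x)).2 h1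
    have h5 : φ '' insert x {y | x ⋖ y} = insert (φ x) {y | φ x ⋖ y} := by
      ext y
      simp only [Set.mem_image, Set.mem_insert_iff, Set.mem_ofPred_eq]
      constructor
      · rintro ⟨z, rfl | hz, rfl⟩
        · exact Or.inl rfl
        · exact Or.inr ((apply_covBy_apply_iff φ).2 hz)
      · rintro (rfl | hy)
        · exact ⟨x, Or.inl rfl, rfl⟩
        · refine ⟨φ.symm y, Or.inr ?_, φ.apply_symm_apply y⟩
          rw [← apply_covBy_apply_iff φ, φ.apply_symm_apply]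
          exact hy
    rwa [h5] at h4
  exact h3.unique h2

private theorem UnA_symm_s (s : X ≃o X) [PB X s] (s' : X' ≃o X') [PB X' s'] (φ : X ≃o X')
    (y : X') : φ.symm (s' y) = s (φ.symm y) := by
  rw [OrderIso.symm_apply_eq, tr_s s s' φ, φ.apply_symm_apply]

private theorem UnA_s' (s : X ≃o X) [PB X s] (s' : X' ≃o X') [PB X' s'] (φ : X ≃o X') (x : X) :
    φ (s.symm x) = s'.symm (φ x) := by
  apply s'.injective
  rw [← tr_s s s' φ, s.apply_symm_apply, s'.apply_symm_apply]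

private theorem UnA_symm_s' (s : X ≃o X) [PB X s] (s' : X' ≃o X') [PB X' s'] (φ : X ≃o X')
    (y : X') : φ.symm (s'.symm y) = s.symm (φ.symm y) := by
  rw [OrderIso.symm_apply_eq, UnA_s' s s' φ, φ.apply_symm_apply]

/-- the point `φ f φ⁻¹` -/
def tpt (φ : X ≃o X') (f : Pt s) : Pt s' :=
  ⟨fun x => φ (f.1 (φ.symm x)), by
    refine ⟨fun x y h => ?_, fun x => ?_, fun x h => ?_, fun x => ?_⟩
    · exact φ.monotone (f.2.mono (φ.symm.monotone h))
    · have h := f.2.cov (φ.symm x)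
      rw [← apply_covBy_apply_iff φ, φ.apply_symm_apply] at h
      exact h
    · rw [φ.symm_apply_apply] at h
      apply f.2.str (φ.symm x)
      rw [← φ.le_iff_le, tr_s s s' φ, φ.apply_symm_apply]
      exact h
    · show φ (f.1 (φ.symm (s' x))) = s' (φ (f.1 (φ.symm x)))
      rw [UnA_symm_s s s' φ, f.2.comm, tr_s s s' φ]⟩

/-- the line `φ h φ⁻¹` -/
def tln (φ : X ≃o X') (h : Ln s) : Ln s' :=
  ⟨fun x => φ (h.1 (φ.symm x)), by
    refine ⟨fun x y h' => ?_, fun x => ?_, fun x h' => ?_, fun x => ?_⟩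
    · exact φ.monotone (h.2.mono (φ.symm.monotone h'))
    · have h' := h.2.cov (φ.symm x)
      rw [← apply_covBy_apply_iff φ, φ.apply_symm_apply] at h'
      exact h'
    · rw [φ.symm_apply_apply] at h'
      apply h.2.str (φ.symm x)
      rw [← φ.le_iff_le, UnA_s' s s' φ, φ.apply_symm_apply]
      exact h'
    · show φ (h.1 (φ.symm (s' x))) = s' (φ (h.1 (φ.symm x)))
      rw [UnA_symm_s s s' φ, h.2.comm, tr_s s s' φ]⟩

omit [IsModularLattice X] [IsModularLattice X'] in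
/-- conjugation by `φ` -/
def tgp (φ : X ≃o X') : Gp X ≃* Gp X' where
  toFun g := ⟨(φ.symm.trans (g : X ≃o X)).trans φ, by
    intro r hr x
    show r (φ ((g : X ≃o X) (φ.symm x))) = r x
    have h1 : r (φ ((g : X ≃o X) (φ.symm x))) = r (φ (φ.symm x)) :=
      g.2 (fun z => r (φ z)) (fun y z hyz => hr _ _ ((apply_covBy_apply_iff φ).2 hyz)) (φ.symm x)
    rw [h1, φ.apply_symm_apply]⟩
  invFun g := ⟨(φ.trans (g : X' ≃o X')).trans φ.symm, by
    intro r hr x
    show r (φ.symm ((g : X' ≃o X') (φ x))) = r x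
    have h1 : r (φ.symm ((g : X' ≃o X') (φ x))) = r (φ.symm (φ x)) :=
      g.2 (fun z => r (φ.symm z))
        (fun y z hyz => hr _ _ ((apply_covBy_apply_iff φ.symm).2 hyz)) (φ x)
    rw [h1, φ.symm_apply_apply]⟩
  left_inv g := by
    apply Subtype.ext
    apply OrderIso.ext
    funext x
    show φ.symm (φ ((g : X ≃o X) (φ.symm (φ x)))) = _
    simp
  right_inv g := by
    apply Subtype.ext
    apply OrderIso.ext
    funext x
    show φ (φ.symm ((g : X' ≃o X') (φ (φ.symm x)))) = _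
    simp
  map_mul' g g' := by
    apply Subtype.ext
    apply OrderIso.ext
    funext x
    show φ ((g : X ≃o X) ((g' : X ≃o X) (φ.symm x))) =
      φ ((g : X ≃o X) (φ.symm (φ ((g' : X ≃o X) (φ.symm x)))))
    simp

theorem tpt_app (φ : X ≃o X') (f : Pt s) (x : X) :
    (tpt (s' := s') φ f).1 (φ x) = φ (f.1 x) := by
  show φ (f.1 (φ.symm (φ x))) = _
  rw [φ.symm_apply_apply]

theorem tln_app (φ : X ≃o X') (h : Ln s) (x : X) :
    (tln (s' := s') φ h).1 (φ x) = φ (h.1 x) := by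
  show φ (h.1 (φ.symm (φ x))) = _
  rw [φ.symm_apply_apply]

omit [IsModularLattice X] [IsModularLattice X'] in
theorem tgp_app (φ : X ≃o X') (g : Gp X) (x : X) :
    (tgp φ g : X' ≃o X') (φ x) = φ ((g : X ≃o X) x) := by
  show φ ((g : X ≃o X) (φ.symm (φ x))) = _
  rw [φ.symm_apply_apply]

theorem inc_T (φ : X ≃o X') (f : Pt s) (h : Ln s) :
    Inc (tpt (s' := s') φ f) (tln φ h) ↔ Inc f h := by
  have key : ∀ z, (tpt (s' := s') φ f).1 (φ z) ≤ (tln (s' := s') φ h).1 (s' (φ z)) ↔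
      f.1 z ≤ h.1 (s z) := by
    intro z
    rw [← tr_s s s' φ, tpt_app, tln_app, φ.le_iff_le]
  constructor
  · intro k x
    exact (key x).1 (k _)
  · intro k x
    obtain ⟨z, rfl⟩ := φ.surjective x
    exact (key z).2 (k z)

private theorem UnA_sln (g : X ≃o X) (h : Ln s) (x : X) : (g • h).1 (g x) = g (h.1 x) := by
  show g (h.1 (g.symm (g x))) = _
  rw [g.symm_apply_apply]

private theorem UnA_spt (g : X ≃o X) (f : Pt s) (x : X) : (g • f).1 (g x) = g (f.1 x) := by
  show g (f.1 (g.symm (g x))) = _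
  rw [g.symm_apply_apply]

theorem tgp_tpt (φ : X ≃o X') (g : Gp X) (f : Pt s) :
    tgp φ g • tpt (s' := s') φ f = tpt φ (g • f) := by
  apply Pt.ext
  intro x
  obtain ⟨w, rfl⟩ := φ.surjective x
  obtain ⟨z, rfl⟩ := (g : X ≃o X).surjective w
  have h1 : (tpt (s' := s') φ (g • f)).1 (φ ((g : X ≃o X) z)) =
      φ ((g : X ≃o X) (f.1 z)) := by
    rw [tpt_app]
    congr 1
    exact UnA_spt (g : X ≃o X) f z
  rw [h1, ← tgp_app, ← tgp_app, ← tpt_app (s' := s')]
  exact UnA_spt (tgp φ g : X' ≃o X') (tpt (s' := s') φ f) (φ z)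

theorem tgp_tln (φ : X ≃o X') (g : Gp X) (h : Ln s) :
    tgp φ g • tln (s' := s') φ h = tln φ (g • h) := by
  apply Ln.ext
  intro x
  obtain ⟨w, rfl⟩ := φ.surjective x
  obtain ⟨z, rfl⟩ := (g : X ≃o X).surjective w
  have h1 : (tln (s' := s') φ (g • h)).1 (φ ((g : X ≃o X) z)) =
      φ ((g : X ≃o X) (h.1 z)) := by
    rw [tln_app]
    congr 1
    exact UnA_sln (g : X ≃o X) h z
  rw [h1, ← tgp_app, ← tgp_app, ← tln_app (s' := s')]
  exact UnA_sln (tgp φ g : X' ≃o X') (tln (s' := s') φ h) (φ z)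

theorem tpt_surj (φ : X ≃o X') (f : Pt s') : ∃ f' : Pt s, tpt φ f' = f := by
  refine ⟨tpt φ.symm f, ?_⟩
  apply Pt.ext
  intro x
  show φ (φ.symm (f.1 (φ (φ.symm x)))) = f.1 x
  rw [φ.apply_symm_apply, φ.apply_symm_apply]

theorem tln_surj (φ : X ≃o X') (h : Ln s') : ∃ h' : Ln s, tln φ h' = h := by
  refine ⟨tln φ.symm h, ?_⟩
  apply Ln.ext
  intro x
  show φ (φ.symm (h.1 (φ (φ.symm x)))) = h.1 x
  rw [φ.apply_symm_apply, φ.apply_symm_apply]

theorem far_T (φ : X ≃o X') (f : Pt s) (h : Ln s) (x : X) :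
    Far (tpt (s' := s') φ f) (tln φ h) (φ x) ↔ Far f h x := by
  unfold Far
  rw [← tr_s s s' φ, tpt_app, tln_app, φ.le_iff_le]

theorem mu_T (φ : X ≃o X') (o : X) (f : Pt s) (x : X) :
    mu (φ o) (tpt (s' := s') φ f) (φ x) = mu o f x := by
  have k := (mu_spec o f).1
  have hm : IsMu s' (tpt (s' := s') φ f).1 (fun y => mu o f (φ.symm y)) := by
    refine ⟨fun y z hyz => k.mono (φ.symm.monotone hyz), fun y => ?_, fun y z => ?_,
      fun y z hyz => ?_⟩
    · show mu o f (φ.symm (s' y)) = mu o f (φ.symm y) + 1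
      rw [UnA_symm_s s s' φ, k.sh]
    · show mu o f (φ.symm (y ⊓ z)) = min (mu o f (φ.symm y)) (mu o f (φ.symm z))
      rw [map_inf, k.inf]
    · show (tpt (s' := s') φ f).1 y ≤ z ↔ mu o f (φ.symm y) < mu o f (φ.symm z)
      obtain ⟨u, rfl⟩ := φ.surjective y
      obtain ⟨v, rfl⟩ := φ.surjective z
      rw [φ.le_iff_le] at hyz
      rw [tpt_app, φ.le_iff_le, φ.symm_apply_apply, φ.symm_apply_apply]
      exact k.lev u v hyz
  have h1 := mu_unique (mu_spec (φ o) (tpt (s' := s') φ f)).1 hm (φ x) (φ o)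
  simp only [φ.symm_apply_apply, (mu_spec (φ o) (tpt (s' := s') φ f)).2, (mu_spec o f).2] at h1
  linarith

theorem nu_T (φ : X ≃o X') (o : X) (h : Ln s) (x : X) :
    nu (φ o) (tln (s' := s') φ h) (φ x) = nu o h x := by
  have k := (nu_spec o h).1
  have hm : IsNu s' (tln (s' := s') φ h).1 (fun y => nu o h (φ.symm y)) := by
    refine ⟨fun y z hyz => k.mono (φ.symm.monotone hyz), fun y => ?_, fun y z => ?_,
      fun y z hyz => ?_⟩
    · show nu o h (φ.symm (s' y)) = nu o h (φ.symm y) + 1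
      rw [UnA_symm_s s s' φ, k.sh]
    · show nu o h (φ.symm (y ⊔ z)) = max (nu o h (φ.symm y)) (nu o h (φ.symm z))
      rw [map_sup, k.sup]
    · show y ≤ (tln (s' := s') φ h).1 z ↔ nu o h (φ.symm y) < nu o h (φ.symm z)
      obtain ⟨u, rfl⟩ := φ.surjective y
      obtain ⟨v, rfl⟩ := φ.surjective z
      rw [φ.le_iff_le] at hyz
      rw [tln_app, φ.le_iff_le, φ.symm_apply_apply, φ.symm_apply_apply]
      exact k.lev u v hyz
  have h1 := nu_unique (nu_spec (φ o) (tln (s' := s') φ h)).1 hm (φ x) (φ o)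
  simp only [φ.symm_apply_apply, (nu_spec (φ o) (tln (s' := s') φ h)).2, (nu_spec o h).2] at h1
  linarith

theorem fx_T (φ : X ≃o X') (o : X) (p : Pt s) (l : Ln s) (n : ℤ) (g : Gp X) :
    Fx (φ o) (tpt (s' := s') φ p) (tln φ l) n (tgp φ g) ↔ Fx o p l n g := by
  have key : ∀ w, (tgp φ g : X' ≃o X') (φ w) = φ w ↔ (g : X ≃o X) w = w := by
    intro w
    rw [tgp_app, φ.injective.eq_iff]
  constructor
  · intro h w hw
    exact (key w).1 (h _ (by rw [mu_T, nu_T]; exact hw))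
  · intro h z hz
    obtain ⟨w, rfl⟩ := φ.surjective z
    rw [mu_T, nu_T] at hz
    exact (key w).2 (h w hz)

private theorem UnA_tpt_inj (φ : X ≃o X') {f f' : Pt s}
    (e : tpt (s' := s') φ f = tpt (s' := s') φ f') : f = f' := by
  apply Pt.ext
  intro x
  have h1 : (tpt (s' := s') φ f).1 (φ x) = (tpt (s' := s') φ f').1 (φ x) := by rw [e]
  rw [tpt_app, tpt_app, φ.injective.eq_iff] at h1
  exact h1

private theorem UnA_tln_inj (φ : X ≃o X') {h h' : Ln s}
    (e : tln (s' := s') φ h = tln (s' := s') φ h') : h = h' := by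
  apply Ln.ext
  intro x
  have h1 : (tln (s' := s') φ h).1 (φ x) = (tln (s' := s') φ h').1 (φ x) := by rw [e]
  rw [tln_app, tln_app, φ.injective.eq_iff] at h1
  exact h1

theorem el_T (φ : X ≃o X') (p : Pt s) (l : Ln s) (g : Gp X) :
    tgp φ g ∈ El (Gp X') (Inc (s := s')) (tpt φ p) (tln φ l) ↔
      g ∈ El (Gp X) (Inc (s := s)) p l := by
  constructor
  · rintro ⟨h1, h2⟩
    refine ⟨fun q hq => ?_, fun m hm => ?_⟩
    · have h3 := h1 (tpt φ q) ((inc_T φ q l).2 hq)
      rw [tgp_tpt] at h3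
      exact UnA_tpt_inj φ h3
    · have h3 := h2 (tln φ m) ((inc_T φ p m).2 hm)
      rw [tgp_tln] at h3
      exact UnA_tln_inj φ h3
  · rintro ⟨h1, h2⟩
    refine ⟨fun q hq => ?_, fun m hm => ?_⟩
    · obtain ⟨f, rfl⟩ := tpt_surj (s := s) φ q
      rw [tgp_tpt, h1 f ((inc_T φ f l).1 hq)]
    · obtain ⟨h, rfl⟩ := tln_surj (s := s) φ m
      rw [tgp_tln, h2 h ((inc_T φ p h).1 hm)]

end Pool.Agent.PLB
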