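import Pool.Agent.PLB.UnA
import Pool.Agent.PLB.AntB
import Pool.Agent.PLB.Crd

set_option autoImplicit false

/-! Theorem PB: uniqueness of the coordinate division ring.

The triangle `φ F` is mapped onto `F'` by an automorphism `g` of `X'` which fixes `φ o`; conjugation by `g` after `tgp φ` maps
the root groups of `F` onto those of `F'` and preserves values. This gives three additive bijections `α, β, γ : K → K'` with
`γ (a b) = α a β b`, and `γ x * (γ 1)⁻¹` is an isomorphism. -/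

namespace Pool.Agent.PLB

open Pool.Agent.Helper87.ML Pool.Agent.RIG OrderDual
open scoped commutatorElement

universe u

variable {X : Type u} [Lattice X] [IsModularLattice X] {s : X ≃o X} [PB X s]
  {X' : Type u} [Lattice X'] [IsModularLattice X'] {s' : X' ≃o X'} [PB X' s']

omit [IsModularLattice X] [IsModularLattice X'] [PB X s] [PB X' s'] in
private theorem unb_inj {K G : Type*} [AddGroup K] [Group G] {x : K → G}
    (hadd : ∀ a b, x (a + b) = x a * x b) (hinj : ∀ a, x a = 1 → a = 0) :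
    Function.Injective x := by
  intro a b h
  have h1 := hadd (a - b) b
  rw [sub_add_cancel, h] at h1
  exact sub_eq_zero.1 (hinj _ (right_eq_mul.1 h1))

private theorem unb_map {K K' G G' : Type*} [AddGroup K] [AddGroup K'] [Group G] [Group G']
    {A : Subgroup G} {A' : Subgroup G'} {x : K → G} {x' : K' → G'}
    (hadd : ∀ a b, x (a + b) = x a * x b) (hinj : ∀ a, x a = 1 → a = 0) (hmem : ∀ a, x a ∈ A)
    (hsurj : ∀ g ∈ A, ∃ a, x a = g) (hadd' : ∀ a b, x' (a + b) = x' a * x' b)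
    (hinj' : ∀ a, x' a = 1 → a = 0) (hmem' : ∀ a, x' a ∈ A') (hsurj' : ∀ g ∈ A', ∃ a, x' a = g)
    (Φ : G ≃* G') (hΦ : ∀ g, Φ g ∈ A' ↔ g ∈ A) :
    ∃ α : K → K', (∀ a, x' (α a) = Φ (x a)) ∧ (∀ a b, α (a + b) = α a + α b) ∧
      Function.Bijective α := by
  have h1 : ∀ a, ∃ b, x' b = Φ (x a) := fun a => hsurj' _ ((hΦ _).2 (hmem a))
  choose α hα using h1
  have hi := unb_inj hadd hinj
  have hi' := unb_inj hadd' hinj'
  refine ⟨α, hα, ?_, ?_, ?_⟩
  · intro a b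
    apply hi'
    rw [hα, hadd, map_mul, hadd', hα, hα]
  · intro a b h
    have h2 := hα a
    rw [h, hα] at h2
    exact (hi (Φ.injective h2)).symm
  · intro c
    have h2 : Φ.symm (x' c) ∈ A := by
      rw [← hΦ, Φ.apply_symm_apply]
      exact hmem' c
    obtain ⟨a, ha⟩ := hsurj _ h2
    refine ⟨a, hi' ?_⟩
    rw [hα, ha, Φ.apply_symm_apply]

private theorem unb_anti {K : Type*} [NonAssocRing K] {V : ℤ → AddSubgroup K} (hV : Vl K V)
    {m n : ℤ} (h : m ≤ n) : V n ≤ V m := by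
  obtain ⟨k, rfl⟩ := Int.le.dest h
  clear h
  induction k with
  | zero =>
    rw [Nat.cast_zero, add_zero]
  | succ k ih =>
    refine le_trans ?_ ih
    rw [Nat.cast_succ, ← add_assoc]
    exact hV.anti _

private theorem unb_inv {K : Type*} [DivisionRing K] {V : ℤ → AddSubgroup K} (hV : Vl K V)
    {c : K} (h0 : c ∈ V 0) (h1 : c ∉ V 1) : c⁻¹ ∈ V 0 := by
  have hc : c ≠ 0 := fun h => h1 (h ▸ (V 1).zero_mem)
  obtain ⟨m, hm, hm'⟩ := hV.ex c⁻¹ (inv_ne_zero hc)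
  have h2 := hV.mul' 0 m c c⁻¹ h0 (by rwa [zero_add]) hm hm'
  rw [mul_inv_cancel₀ hc] at h2
  have h3 : 0 ≤ m := by
    by_contra h4
    exact h2 (unb_anti hV (by omega) hV.one)
  exact unb_anti hV h3 hm

private theorem unb_alg {K K' : Type*} [DivisionRing K] [DivisionRing K']
    {V : ℤ → AddSubgroup K} {V' : ℤ → AddSubgroup K'} (hV : Vl K V) (hV' : Vl K' V')
    {α β γ : K → K'} (hadd : ∀ a b, γ (a + b) = γ a + γ b) (hbij : Function.Bijective γ)
    (hm : ∀ a b, γ (a * b) = α a * β b) (vc : ∀ n a, γ a ∈ V' n ↔ a ∈ V n) :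
    ∃ f : K ≃+* K', ∀ (n : ℤ) (a : K), f a ∈ V' n ↔ a ∈ V n := by
  have h10 : γ 1 ∈ V' 0 := (vc 0 1).2 hV.one
  have h11 : γ 1 ∉ V' 1 := fun h => hV.one' ((vc 1 1).1 h)
  have hne : γ 1 ≠ 0 := fun h => h11 (h ▸ (V' 1).zero_mem)
  have h1 : γ 1 = α 1 * β 1 := by
    rw [← hm, mul_one]
  have hα1 : α 1 ≠ 0 := fun h => hne (by rw [h1, h, zero_mul])
  have hβ1 : β 1 ≠ 0 := fun h => hne (by rw [h1, h, mul_zero])
  have hmul : ∀ a b, γ (a * b) * (γ 1)⁻¹ = γ a * (γ 1)⁻¹ * (γ b * (γ 1)⁻¹) := by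
    intro a b
    have ha : γ a = α a * β 1 := by rw [← hm, mul_one]
    have hb : γ b = α 1 * β b := by rw [← hm, one_mul]
    rw [hm, ha, hb, h1, mul_inv_rev]
    simp only [mul_assoc]
    rw [mul_inv_cancel_left₀ hβ1, inv_mul_cancel_left₀ hα1]
  have hcne : (γ 1)⁻¹ ≠ 0 := inv_ne_zero hne
  have hb : Function.Bijective (fun a => γ a * (γ 1)⁻¹) := by
    constructor
    · intro a b h
      exact hbij.1 (mul_right_cancel₀ hcne h)
    · intro c
      obtain ⟨a, ha⟩ := hbij.2 (c * γ 1)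
      refine ⟨a, ?_⟩
      change γ a * (γ 1)⁻¹ = c
      rw [ha, mul_inv_cancel_right₀ hne]
  refine ⟨{ Equiv.ofBijective _ hb with
    map_mul' := hmul
    map_add' := fun a b => by
      change γ (a + b) * (γ 1)⁻¹ = γ a * (γ 1)⁻¹ + γ b * (γ 1)⁻¹
      rw [hadd, add_mul] }, fun n a => ?_⟩
  change γ a * (γ 1)⁻¹ ∈ V' n ↔ a ∈ V n
  rw [← vc]
  constructor
  · intro h
    have h2 := hV'.mul _ _ _ _ h h10
    rwa [inv_mul_cancel_right₀ hne, add_zero] at h2
  · intro h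
    have h2 := hV'.mul _ _ _ _ h (unb_inv hV' h10 h11)
    rwa [add_zero] at h2

theorem crd_unique {o : X} {F : Frame (Inc (s := s))} {K : Type u} [DivisionRing K]
    {V : ℤ → AddSubgroup K} {xa xb xc : K → Gp X} (hC : CR o F K V xa xb xc) {o' : X'}
    {F' : Frame (Inc (s := s'))} {K' : Type u} [DivisionRing K'] {V' : ℤ → AddSubgroup K'}
    {xa' xb' xc' : K' → Gp X'} (hC' : CR o' F' K' V' xa' xb' xc') (φ : X ≃o X') (h : φ o = o') :
    ∃ f : K ≃+* K', ∀ (n : ℤ) (a : K), f a ∈ V' n ↔ a ∈ V n := by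
  have : Nonempty X' := ⟨o'⟩
  have hM : MP (Gp X') (Inc (s := s')) := mp s'
  let T : Frame (Inc (s := s')) :=
    ⟨fun i => tpt φ (F.e i), fun i => tln φ (F.l i), fun i j => by rw [inc_T]; exact F.inc i j⟩
  have hT : FarF o' T := by
    intro i
    have h1 := (far_T (s' := s') φ (F.e i) (F.l i) o).2 (hC.far i)
    rw [h] at h1
    exact h1
  obtain ⟨g, hgo, hge, hgl⟩ := frame_trans hT hC'.far
  have hge' : ∀ i, g • tpt (s' := s') φ (F.e i) = F'.e i := hge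
  have hgl' : ∀ i, g • tln (s' := s') φ (F.l i) = F'.l i := hgl
  let Φ : Gp X ≃* Gp X' := (tgp φ).trans (MulAut.conj g)
  have hΦ : ∀ t, Φ t = g * tgp φ t * g⁻¹ := fun t => rfl
  have hU : ∀ i j t, Φ t ∈ U (Gp X') F' i j ↔ t ∈ U (Gp X) F i j := by
    intro i j t
    rw [U, U, ← el_T (s' := s') φ, hΦ, ← hge' i, ← hgl' j]
    constructor
    · intro h1
      have h2 := el_conj hM g⁻¹ h1
      rw [inv_smul_smul, inv_smul_smul, inv_inv] at h2
      have h3 : g⁻¹ * (g * tgp φ t * g⁻¹) * g = tgp φ t := by group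
      rwa [h3] at h2
    · intro h1
      exact el_conj hM g h1
  have hF : ∀ i j n t, Fx o' (F'.e i) (F'.l j) n (Φ t) ↔ Fx o (F.e i) (F.l j) n t := by
    intro i j n t
    rw [← hge' i, ← hgl' j, hΦ, fx_conj _ _ _ _ _ hgo, ← h]
    exact fx_T φ o (F.e i) (F.l j) n t
  obtain ⟨α, hα, -, -⟩ := unb_map hC.rd.a_add hC.rd.a_inj hC.rd.a_mem hC.rd.a_surj hC'.rd.a_add
    hC'.rd.a_inj hC'.rd.a_mem hC'.rd.a_surj Φ (hU 0 1)
  obtain ⟨β, hβ, -, -⟩ := unb_map hC.rd.b_add hC.rd.b_inj hC.rd.b_mem hC.rd.b_surj hC'.rd.b_add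
    hC'.rd.b_inj hC'.rd.b_mem hC'.rd.b_surj Φ (hU 1 2)
  obtain ⟨γ, hγ, hγa, hγb⟩ := unb_map hC.rd.c_add hC.rd.c_inj hC.rd.c_mem hC.rd.c_surj
    hC'.rd.c_add hC'.rd.c_inj hC'.rd.c_mem hC'.rd.c_surj Φ (hU 0 2)
  refine unb_alg (α := α) (β := β) (γ := γ) hC.vl hC'.vl hγa hγb ?_ ?_
  · intro a b
    apply unb_inj hC'.rd.c_add hC'.rd.c_inj
    rw [hγ, ← hC'.rd.comm, hα, hβ, ← map_commutatorElement, hC.rd.comm]
  · intro n a
    rw [hC'.vc, hγ, hF, hC.vc]

end Pool.Agent.PLB
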