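import Pool.Agent.PLB.DuI

set_option autoImplicit false

/-! Theorem PB: an isomorphism of principal filters extends to the whole lattice.

The isomorphism `φ₀` commutes with the shift (the least upper bound of `x` and its covers; the
filter is upwards closed).  `x : X` and `z : X'` correspond to each other if
`s'^[k] z = φ₀ (s^[k] x)` for some `k` with `o ≤ s^[k] x`; then this holds for all larger `k`. -/

namespace Pool.Agent.PLB

open Pool.Agent.Helper87.ML Pool.Agent.RIG OrderDual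

universe u

private lemma UnC_cov {X : Type u} [Lattice X] {o : X} (x y : Set.Ici o) :
    x ⋖ y ↔ x.1 ⋖ y.1 := by
  have h : (Set.range (OrderEmbedding.subtype (· ∈ Set.Ici o))).OrdConnected := by
    have e : Set.range (OrderEmbedding.subtype (· ∈ Set.Ici o)) = Set.Ici o := by
      ext z
      constructor
      · rintro ⟨w, rfl⟩
        exact w.2
      · intro hz
        exact ⟨⟨z, hz⟩, rfl⟩
    rw [e]
    exact Set.ordConnected_Ici
  exact (Set.OrdConnected.apply_covBy_apply_iff (OrderEmbedding.subtype (· ∈ Set.Ici o)) h).symm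

private lemma UnC_it {X : Type u} [Lattice X] (s : X ≃o X) (k : ℕ) (a b : X) :
    s^[k] a ≤ s^[k] b ↔ a ≤ b := by
  induction k with
  | zero => exact Iff.rfl
  | succ k ih =>
    rw [Function.iterate_succ_apply', Function.iterate_succ_apply', s.le_iff_le]
    exact ih

private lemma UnC_inj {X : Type u} [Lattice X] (s : X ≃o X) (k : ℕ) {a b : X}
    (h : s^[k] a = s^[k] b) : a = b :=
  le_antisymm ((UnC_it s k a b).1 h.le) ((UnC_it s k b a).1 h.ge)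

private lemma UnC_can {X : Type u} [Lattice X] (s : X ≃o X) (k : ℕ) (a : X) :
    s^[k] (s.symm^[k] a) = a := by
  induction k generalizing a with
  | zero => rfl
  | succ k ih =>
    rw [Function.iterate_succ_apply', Function.iterate_succ_apply, ih, s.apply_symm_apply]

/-- the isomorphism of the filters commutes with the shifts -/
private lemma UnC_s {X : Type u} [Lattice X] {s : X ≃o X} (hs : IsUp (s : X → X))
    {X' : Type u} [Lattice X'] {s' : X' ≃o X'} (hs' : IsUp (s' : X' → X')) {o : X} {o' : X'}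
    (φ₀ : Set.Ici o ≃o Set.Ici o') (x : X) (hx : o ≤ x) (hx' : o ≤ s x) :
    (φ₀ ⟨s x, hx'⟩).1 = s' (φ₀ ⟨x, hx⟩).1 := by
  have h1 : IsLUB (insert (φ₀ ⟨x, hx⟩).1 {y | (φ₀ ⟨x, hx⟩).1 ⋖ y}) (φ₀ ⟨s x, hx'⟩).1 := by
    constructor
    · rintro z (hz | hz)
      · rw [hz]
        exact φ₀.monotone (show (⟨x, hx⟩ : Set.Ici o) ≤ ⟨s x, hx'⟩ from le_s hs x)
      · have hz1 : (φ₀ ⟨x, hx⟩).1 ⋖ z := hz
        have hoz : o' ≤ z := (φ₀ ⟨x, hx⟩).2.trans hz1.le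
        have h2 : φ₀ ⟨x, hx⟩ ⋖ (⟨z, hoz⟩ : Set.Ici o') := (UnC_cov _ _).2 hz1
        have h3 : (⟨x, hx⟩ : Set.Ici o) ⋖ φ₀.symm ⟨z, hoz⟩ := by
          rw [← apply_covBy_apply_iff φ₀, φ₀.apply_symm_apply]
          exact h2
        have h4 : (φ₀.symm ⟨z, hoz⟩).1 ≤ s x := cov_le_s hs ((UnC_cov _ _).1 h3)
        have h5 : φ₀ (φ₀.symm ⟨z, hoz⟩) ≤ φ₀ ⟨s x, hx'⟩ := φ₀.monotone h4
        rw [φ₀.apply_symm_apply] at h5
        exact h5
    · intro b hb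
      have hxb : (φ₀ ⟨x, hx⟩).1 ≤ b := hb (Set.mem_insert _ _)
      have hob : o' ≤ b := (φ₀ ⟨x, hx⟩).2.trans hxb
      have h2 : s x ≤ (φ₀.symm ⟨b, hob⟩).1 := by
        refine (hs x).2 ?_
        rintro y (hy | hy)
        · rw [hy]
          have h3 : (⟨x, hx⟩ : Set.Ici o) ≤ φ₀.symm ⟨b, hob⟩ := by
            rw [← φ₀.le_iff_le, φ₀.apply_symm_apply]
            exact hxb
          exact h3
        · have hy1 : x ⋖ y := hy
          have hoy : o ≤ y := hx.trans hy1.le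
          have h3 : (⟨x, hx⟩ : Set.Ici o) ⋖ ⟨y, hoy⟩ := (UnC_cov _ _).2 hy1
          have h4 : φ₀ ⟨x, hx⟩ ⋖ φ₀ ⟨y, hoy⟩ := (apply_covBy_apply_iff φ₀).2 h3
          have h5 : (φ₀ ⟨y, hoy⟩).1 ≤ b := hb (Set.mem_insert_of_mem _ ((UnC_cov _ _).1 h4))
          have h6 : (⟨y, hoy⟩ : Set.Ici o) ≤ φ₀.symm ⟨b, hob⟩ := by
            rw [← φ₀.le_iff_le, φ₀.apply_symm_apply]
            exact h5
          exact h6
      have h3 : φ₀ ⟨s x, hx'⟩ ≤ φ₀ (φ₀.symm ⟨b, hob⟩) := φ₀.monotone h2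
      rw [φ₀.apply_symm_apply] at h3
      exact h3
  exact h1.unique (hs' _)

/-- `x` and `z` correspond to each other at level `k` -/
private def UnCR {X : Type u} [Lattice X] (s : X ≃o X) {X' : Type u} [Lattice X']
    (s' : X' ≃o X') {o : X} {o' : X'} (φ₀ : Set.Ici o ≃o Set.Ici o') (k : ℕ) (x : X) (z : X') :
    Prop :=
  ∃ h : o ≤ s^[k] x, s'^[k] z = (φ₀ ⟨s^[k] x, h⟩).1

private lemma UnC_succ {X : Type u} [Lattice X] {s : X ≃o X} (hs : IsUp (s : X → X))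
    {X' : Type u} [Lattice X'] {s' : X' ≃o X'} (hs' : IsUp (s' : X' → X')) {o : X} {o' : X'}
    (φ₀ : Set.Ici o ≃o Set.Ici o') {k : ℕ} {x : X} {z : X'} (h : UnCR s s' φ₀ k x z) (i : ℕ) :
    UnCR s s' φ₀ (k + i) x z := by
  induction i with
  | zero => exact h
  | succ i ih =>
    obtain ⟨h1, h2⟩ := ih
    have h3 : s^[k + (i + 1)] x = s (s^[k + i] x) := Function.iterate_succ_apply' _ _ _
    have h4 : o ≤ s (s^[k + i] x) := h1.trans (le_s hs _)
    have h5 : ∀ (w : X) (hw : o ≤ w), w = s (s^[k + i] x) →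
        (φ₀ ⟨w, hw⟩).1 = s' (φ₀ ⟨s^[k + i] x, h1⟩).1 := by
      intro w hw hwe
      subst hwe
      exact UnC_s hs hs' φ₀ _ h1 hw
    refine ⟨by rw [h3]; exact h4, ?_⟩
    rw [h5 _ _ h3, ← h2]
    exact Function.iterate_succ_apply' _ _ _

theorem ext_iso {X : Type u} [Lattice X] [IsModularLattice X] (s : X ≃o X) [PB X s]
    {X' : Type u} [Lattice X'] [IsModularLattice X'] (s' : X' ≃o X') [PB X' s'] (o : X) (o' : X')
    (φ₀ : Set.Ici o ≃o Set.Ici o') : ∃ φ : X ≃o X', φ o = o' := by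
  have hs : IsUp (s : X → X) := PB.up
  have hs' : IsUp (s' : X' → X') := PB.up
  -- existence
  have hex : ∀ x : X, ∃ z : X', ∃ k, UnCR s s' φ₀ k x z := by
    intro x
    obtain ⟨k, hk⟩ := PB.dir (s := s) o x
    exact ⟨s'.symm^[k] (φ₀ ⟨s^[k] x, hk⟩).1, k, hk, UnC_can s' k _⟩
  -- comparison
  have hle : ∀ (x y : X) (z w : X') (k l : ℕ), UnCR s s' φ₀ k x z → UnCR s s' φ₀ l y w →
      (z ≤ w ↔ x ≤ y) := by
    intro x y z w k l h1 h2
    obtain ⟨h3, h4⟩ := UnC_succ hs hs' φ₀ h1 l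
    obtain ⟨h5, h6⟩ := UnC_succ hs hs' φ₀ h2 k
    have e : l + k = k + l := add_comm _ _
    rw [← UnC_it s' (k + l) z w, ← UnC_it s (k + l) x y, h4]
    have h7 : ∀ (m : ℕ) (hm : o ≤ s^[m] y), m = k + l → s'^[m] w = (φ₀ ⟨s^[m] y, hm⟩).1 →
        ((φ₀ ⟨s^[k + l] x, h3⟩).1 ≤ s'^[k + l] w ↔ s^[k + l] x ≤ s^[k + l] y) := by
      intro m hm hme h8
      subst hme
      rw [h8]
      exact φ₀.le_iff_le
    exact h7 _ h5 e h6
  have huniq : ∀ (x : X) (z w : X') (k l : ℕ), UnCR s s' φ₀ k x z → UnCR s s' φ₀ l x w →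
      z = w := by
    intro x z w k l h1 h2
    exact le_antisymm ((hle x x z w k l h1 h2).2 le_rfl) ((hle x x w z l k h2 h1).2 le_rfl)
  choose F hF using hex
  have hFle : ∀ x y : X, F x ≤ F y ↔ x ≤ y := by
    intro x y
    obtain ⟨k, hk⟩ := hF x
    obtain ⟨l, hl⟩ := hF y
    exact hle x y _ _ k l hk hl
  have hsurj : Function.Surjective F := by
    intro z
    obtain ⟨k, hk⟩ := PB.dir (s := s') o' z
    have h1 : s^[k] (s.symm^[k] (φ₀.symm ⟨s'^[k] z, hk⟩).1) = (φ₀.symm ⟨s'^[k] z, hk⟩).1 :=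
      UnC_can s k _
    refine ⟨s.symm^[k] (φ₀.symm ⟨s'^[k] z, hk⟩).1, ?_⟩
    obtain ⟨l, hl⟩ := hF (s.symm^[k] (φ₀.symm ⟨s'^[k] z, hk⟩).1)
    refine huniq _ _ z l k hl ⟨?_, ?_⟩
    · rw [h1]
      exact (φ₀.symm ⟨s'^[k] z, hk⟩).2
    · have h2 : ∀ (w : X) (hw : o ≤ w), w = (φ₀.symm ⟨s'^[k] z, hk⟩).1 →
          s'^[k] z = (φ₀ ⟨w, hw⟩).1 := by
        intro w hw hwe
        subst hwe
        have h3 : (⟨(φ₀.symm ⟨s'^[k] z, hk⟩).1, hw⟩ : Set.Ici o) = φ₀.symm ⟨s'^[k] z, hk⟩ := rfl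
        rw [h3, φ₀.apply_symm_apply]
      exact h2 _ _ h1
  refine ⟨RelIso.ofSurjective (OrderEmbedding.ofMapLEIff F hFle) hsurj, ?_⟩
  change F o = o'
  obtain ⟨l, hl⟩ := hF o
  refine huniq o _ o' l 0 hl ⟨le_rfl, ?_⟩
  change o' = (φ₀ ⟨o, _⟩).1
  refine le_antisymm (φ₀ ⟨o, _⟩).2 ?_
  have h1 : φ₀ ⟨o, le_rfl⟩ ≤ (⟨o', le_rfl⟩ : Set.Ici o') := by
    rw [← φ₀.symm.le_iff_le, φ₀.symm_apply_apply]
    exact (φ₀.symm ⟨o', le_rfl⟩).2
  exact h1

end Pool.Agent.PLB
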