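import Pool.Agent.PLB.UnN

set_option autoImplicit false

/-! Theorem PB: the model lattice and its coordinate division ring. -/

namespace Pool.Agent.PLB

open Pool.Agent.Helper87.ML Pool.Agent.RIG OrderDual
open scoped commutatorElement

universe u

theorem model_crd {K : Type u} [DivisionRing K] {v : K → WithTop ℤ} (hv : IsCDV K v) {ψ : K → K}
    (hψ : IsAntiAut K v ψ) :
    ∃ (X : Type u) (_ : Lattice X) (_ : IsModularLattice X) (s : X ≃o X) (_ : PB X s) (o : X)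
      (F : Frame (Inc (s := s))) (K₁ : Type u) (_ : DivisionRing K₁) (V₁ : ℤ → AddSubgroup K₁)
      (xa xb xc : K₁ → Gp X), CR o F K₁ V₁ xa xb xc ∧ Nonempty (Lat K v ≃o Set.Ici o) ∧
        ∃ f : Kᵐᵒᵖ ≃+* K₁, ∀ (n : ℤ) (a : K),
          f (MulOpposite.op a) ∈ V₁ n ↔ ((n : ℤ) : WithTop ℤ) ≤ v a := by
  haveI : PB (LL hv) (sgI hv) := pbLL hv hψ
  obtain ⟨K₁, i, V₁, xa, xb, xc, hC⟩ := exists_crd (stF_far hv)
  exact ⟨LL hv, inferInstance, inferInstance, sgI hv, inferInstance, oo hv, stF hv, K₁, i, V₁,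
    xa, xb, xc, hC, lat_ici hv, model_iso hC⟩

end Pool.Agent.PLB
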