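import Pool.Agent.PLB.UnB
import Pool.Agent.PLB.UnC
import Pool.Agent.PLB.UnE
import Pool.Agent.PLB.UnM

set_option autoImplicit false

/-! Theorem PB: the division ring is determined by the lattice. -/

namespace Pool.Agent.PLB

open Pool.Agent.Helper87.ML Pool.Agent.RIG OrderDual

universe u

theorem wt_le_ext {x y : WithTop ℤ}
    (h : ∀ m : ℤ, ((m : ℤ) : WithTop ℤ) ≤ x ↔ ((m : ℤ) : WithTop ℤ) ≤ y) : x = y := by
  have key : ∀ x y : WithTop ℤ,
      (∀ m : ℤ, ((m : ℤ) : WithTop ℤ) ≤ x ↔ ((m : ℤ) : WithTop ℤ) ≤ y) → x ≤ y := by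
    intro x y hxy
    induction x using WithTop.recTopCoe with
    | top =>
      induction y using WithTop.recTopCoe with
      | top => exact le_rfl
      | coe y =>
        exfalso
        have h1 := (hxy (y + 1)).1 le_top
        rw [WithTop.coe_le_coe] at h1
        omega
    | coe x => exact (hxy x).1 le_rfl
  exact le_antisymm (key _ _ h) (key _ _ fun m => (h m).symm)

theorem irr {K : Type u} [DivisionRing K] {v : K → WithTop ℤ} (hv : IsCDV K v)
    (hψ : ∃ ψ, IsAntiAut K v ψ) {K' : Type u} [DivisionRing K'] {v' : K' → WithTop ℤ}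
    (hv' : IsCDV K' v') (hψ' : ∃ ψ, IsAntiAut K' v' ψ) :
    Nonempty (Lat K v ≃o Lat K' v') ↔ ∃ f : K ≃+* K', ∀ a, v' (f a) = v a := by
  constructor
  · rintro ⟨e⟩
    obtain ⟨ψ, hψ⟩ := hψ
    obtain ⟨ψ', hψ'⟩ := hψ'
    obtain ⟨X, i1, i2, s, i3, o, F, K₁, i4, V₁, xa, xb, xc, hC, ⟨g⟩, f, hf⟩ := model_crd hv hψ
    obtain ⟨X', j1, j2, s', j3, o', F', K₁', j4, V₁', xa', xb', xc', hC', ⟨g'⟩, f', hf'⟩ :=
      model_crd hv' hψ'
    obtain ⟨φ, hφ⟩ := ext_iso s s' o o' (g.symm.trans (e.trans g'))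
    obtain ⟨t, ht⟩ := crd_unique hC hC' φ hφ
    refine ⟨RingEquiv.unop ((f.trans t).trans f'.symm), fun a => ?_⟩
    apply wt_le_ext
    intro m
    have h1 := hf' m ((RingEquiv.unop ((f.trans t).trans f'.symm)) a)
    rw [← h1, ← hf m a]
    have h2 : f' (MulOpposite.op ((RingEquiv.unop ((f.trans t).trans f'.symm)) a)) =
        t (f (MulOpposite.op a)) := by
      have h3 : MulOpposite.op ((RingEquiv.unop ((f.trans t).trans f'.symm)) a) =
        f'.symm (t (f (MulOpposite.op a))) := rfl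
      rw [h3, f'.apply_symm_apply]
    rw [h2, ht]
  · rintro ⟨f, hf⟩
    exact lat_map f hf

end Pool.Agent.PLB
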