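import Pool.Agent.PLB.Defs
import Pool.Agent.PLB.Conv
import Pool.Agent.PLB.CvV

set_option autoImplicit false

/-! Theorem PB, the model: the two-sided lattice `LL hv` of all lattices in `K ^ 3`.

PLAN. `dn hv N = π N` (`mem_dn_iff`: for `v p = 1`, `x ∈ dn N` iff `p⁻¹ x ∈ N`; compare `mem_sg_iff` in CvV.lean); `sg (dn N) = N =
dn (sg N)`, monotone. `pbLL`: `IsLatt` is convex and closed under sup, inf (`IsLatt.of_le`, `IsLatt.sup`, `IsLatt.inf`), so
intervals of `LL hv` are intervals of `MM hv 3` (`emb_icc` in CvGen.lean with `R = IsLatt hv`): finite (`icc_fin`), self-dual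
(`icc_sd`), planes (`plane_sg`, `isPlane_congr`), `IsUp` by `up_of_plane` and `cov_le_sg`, `dir`: `N ≤ ball (-m)`,
`ball m' ≤ N'`, `sg^[m + m'] N' ≥ ball (-m)` (`sg_ball` in FnS.lean). See the proof of `converse` in Conv.lean. `lat_ici`:
`exists_emb` in CvEmb.lean. -/

namespace Pool.Agent.PLB

open Pool.Agent.Helper87.ML Pool.Agent.Helper87.ML2 Pool.Agent.RIG

universe u

variable {K : Type u} [DivisionRing K] {v : K → WithTop ℤ}

/-- `π N` -/
def dn (hv : IsCDV K v) {n : ℕ} (N : MM hv n) : MM hv n where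
  carrier := {x | ∀ a : K, ((-1 : ℤ) : WithTop ℤ) ≤ v a → (fun i => a * x i) ∈ N}
  add_mem' := by
    intro x y hx hy a ha
    have h : (fun i => a * (x + y) i) = (fun i => a * x i) + fun i => a * y i := by
      funext i
      show a * (x i + y i) = a * x i + a * y i
      rw [mul_add]
    rw [h]
    exact N.add_mem (hx a ha) (hy a ha)
  zero_mem' := by
    intro a _
    have h : (fun i => a * (0 : Fin n → K) i) = 0 := by
      funext i
      show a * 0 = 0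
      rw [mul_zero]
    rw [h]
    exact N.zero_mem
  smul_mem' := by
    intro b x hx a ha
    have h : (fun i => a * (b • x) i) = fun i => (a * b) * x i := by
      funext i
      show a * ((b : K) * x i) = (a * b) * x i
      rw [mul_assoc]
    rw [h]
    apply hx
    rw [hv.mul]
    have h1 : (0 : WithTop ℤ) ≤ v (b : K) := b.2
    calc ((-1 : ℤ) : WithTop ℤ) = ((-1 : ℤ) : WithTop ℤ) + 0 := (add_zero _).symm
      _ ≤ v a + v (b : K) := add_le_add ha h1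

theorem mem_dn (hv : IsCDV K v) {n : ℕ} {N : MM hv n} {x : Fin n → K} : x ∈ dn hv N ↔
    ∀ a : K, ((-1 : ℤ) : WithTop ℤ) ≤ v a → (fun i => a * x i) ∈ N := Iff.rfl

theorem mem_dn_iff (hv : IsCDV K v) {p : K} (hp : v p = 1) {n : ℕ} {N : MM hv n}
    {x : Fin n → K} : x ∈ dn hv N ↔ (fun i => p⁻¹ * x i) ∈ N := by
  rw [mem_dn]
  have hp1 : v p = ((1 : ℤ) : WithTop ℤ) := hp
  have hp0 : p ≠ 0 := hv.ne_zero hp1
  constructor
  · intro h
    refine h p⁻¹ ?_
    rw [hv.inv hp1]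
  · intro h a ha
    have h1 : 0 ≤ v (a * p) := (hv.le_mul_right (k := 0) hp1).2 (by rw [zero_sub]; exact ha)
    have h2 := N.smul_mem (⟨a * p, h1⟩ : OO hv) h
    have h3 : (⟨a * p, h1⟩ : OO hv) • (fun i => p⁻¹ * x i) = fun i => a * x i := by
      funext i
      rw [OO_smul]
      change a * p * (p⁻¹ * x i) = a * x i
      rw [mul_assoc, mul_inv_cancel_left₀ hp0]
    rwa [h3] at h2

theorem sg_dn (hv : IsCDV K v) {n : ℕ} (N : MM hv n) : sg hv (dn hv N) = N := by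
  obtain ⟨p, hp⟩ := hv.surj
  have hp0 : p ≠ 0 := hv.ne_zero (m := 1) hp
  ext x
  rw [mem_sg_iff hv hp, mem_dn_iff hv hp]
  have h : (fun i => p⁻¹ * (p * x i)) = x := by
    funext i
    rw [inv_mul_cancel_left₀ hp0]
  rw [h]

theorem dn_sg (hv : IsCDV K v) {n : ℕ} (N : MM hv n) : dn hv (sg hv N) = N := by
  obtain ⟨p, hp⟩ := hv.surj
  have hp0 : p ≠ 0 := hv.ne_zero (m := 1) hp
  ext x
  rw [mem_dn_iff hv hp, mem_sg_iff hv hp]
  have h : (fun i => p * (p⁻¹ * x i)) = x := by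
    funext i
    rw [mul_inv_cancel_left₀ hp0]
  rw [h]

private lemma UnL_sg_mono (hv : IsCDV K v) {n : ℕ} {N M : MM hv n} (h : N ≤ M) :
    sg hv N ≤ sg hv M := fun _ hx a ha => h (hx a ha)

private lemma UnL_dn_mono (hv : IsCDV K v) {n : ℕ} {N M : MM hv n} (h : N ≤ M) :
    dn hv N ≤ dn hv M := fun _ hx a ha => h (hx a ha)

theorem sg_le_sg (hv : IsCDV K v) {n : ℕ} {N M : MM hv n} : sg hv N ≤ sg hv M ↔ N ≤ M := by
  refine ⟨fun h => ?_, UnL_sg_mono hv⟩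
  have h1 := UnL_dn_mono hv h
  rwa [dn_sg, dn_sg] at h1

theorem dn_le_dn (hv : IsCDV K v) {n : ℕ} {N M : MM hv n} : dn hv N ≤ dn hv M ↔ N ≤ M := by
  refine ⟨fun h => ?_, UnL_dn_mono hv⟩
  have h1 := UnL_sg_mono hv h
  rwa [sg_dn, sg_dn] at h1

theorem IsLatt.dn {hv : IsCDV K v} {n : ℕ} {N : MM hv n} (hN : IsLatt hv N) :
    IsLatt hv (dn hv N) := by
  obtain ⟨m, hm1, hm2⟩ := hN
  obtain ⟨p, hp⟩ := hv.surj
  have hp1 : v p = ((1 : ℤ) : WithTop ℤ) := hp
  have h0 : Pool.Agent.PLB.dn hv N ≤ N := by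
    intro x hx
    have h1 := hx 1 (by rw [hv.one]; exact WithTop.coe_le_coe.2 (by norm_num : (-1 : ℤ) ≤ 0))
    simpa only [one_mul] using h1
  refine ⟨m + 1, fun x hx => ?_, (h0.trans hm2).trans (ball_anti hv (by omega))⟩
  rw [mem_dn_iff hv hp]
  apply hm1
  intro i
  have h1 : (((m + 1 : ℕ) : ℤ) : WithTop ℤ) ≤ v (x i) := hx i
  refine (hv.le_mul_left (hv.inv hp1)).2 ?_
  have h3 : ((m : ℤ) - -1) = ((m + 1 : ℕ) : ℤ) := by push_cast; ring
  rw [h3]
  exact h1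

/-- the lattices of `K ^ 3` -/
def LL (hv : IsCDV K v) : Type u := {N : MM hv 3 // IsLatt hv N}

instance (hv : IsCDV K v) : Lattice (LL hv) :=
  Subtype.lattice (P := fun N : MM hv 3 => IsLatt hv N) (fun _ _ h h' => h.sup h')
    (fun _ _ h h' => h.inf h')

theorem LL_sup (hv : IsCDV K v) (x y : LL hv) : (x ⊔ y).1 = x.1 ⊔ y.1 := rfl

theorem LL_inf (hv : IsCDV K v) (x y : LL hv) : (x ⊓ y).1 = x.1 ⊓ y.1 := rfl

theorem LL_le (hv : IsCDV K v) (x y : LL hv) : x ≤ y ↔ x.1 ≤ y.1 := Iff.rfl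

/-- the inclusion of the lattices into the submodules -/
private def UnL_f (hv : IsCDV K v) : LL hv ↪o MM hv 3 :=
  OrderEmbedding.ofMapLEIff (fun N => N.1) fun _ _ => Iff.rfl

private lemma UnL_hR (hv : IsCDV K v) (y : MM hv 3) :
    (∃ x, UnL_f hv x = y) ↔ IsLatt hv y := by
  constructor
  · rintro ⟨x, rfl⟩
    exact x.2
  · intro h
    exact ⟨⟨y, h⟩, rfl⟩

instance (hv : IsCDV K v) : IsModularLattice (LL hv) :=
  emb_mod (UnL_f hv) (fun N => IsLatt hv N) (UnL_hR hv) (fun _ _ h h' => h.sup h')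
    (fun _ _ h h' => h.inf h')

/-- the shift -/
def sgI (hv : IsCDV K v) : LL hv ≃o LL hv where
  toFun N := ⟨sg hv N.1, N.2.sg⟩
  invFun N := ⟨dn hv N.1, N.2.dn⟩
  left_inv N := Subtype.ext (dn_sg hv N.1)
  right_inv N := Subtype.ext (sg_dn hv N.1)
  map_rel_iff' := by
    intro N M
    exact sg_le_sg hv

private lemma UnL_sg_ball (hv : IsCDV K v) (n : ℕ) (m : ℤ) :
    sg hv (ball hv n m) = ball hv n (m - 1) := by
  obtain ⟨p, hp⟩ := hv.surj
  have hp' : v p = ((1 : ℤ) : WithTop ℤ) := hp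
  ext x
  rw [mem_sg_iff hv hp, mem_ball, mem_ball]
  exact forall_congr' fun i => hv.le_mul_left hp'

private lemma UnL_iter (hv : IsCDV K v) (m : ℤ) (y : LL hv) (h : ball hv 3 m ≤ y.1) (k : ℕ) :
    ball hv 3 (m - k) ≤ ((sgI hv : LL hv → LL hv)^[k] y).1 := by
  induction k with
  | zero =>
    rw [Nat.cast_zero, sub_zero]
    exact h
  | succ k ih =>
    rw [Function.iterate_succ_apply']
    have h1 := UnL_sg_mono hv ih
    rw [UnL_sg_ball] at h1
    have h2 : m - ((k + 1 : ℕ) : ℤ) = m - k - 1 := by push_cast; ring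
    rw [h2]
    exact h1

theorem pbLL (hv : IsCDV K v) {ψ : K → K} (hψ : IsAntiAut K v ψ) : PB (LL hv) (sgI hv) := by
  have hconv : ∀ a b c : MM hv 3, IsLatt hv a → IsLatt hv c → a ≤ b → b ≤ c → IsLatt hv b :=
    fun a b c ha hc hab hbc => ha.of_le hc hab hbc
  have hpl : ∀ x : LL hv, IsPlane x (sgI hv x) := by
    intro x
    obtain ⟨φ⟩ := emb_icc (UnL_f hv) (fun N => IsLatt hv N) (UnL_hR hv) hconv x (sgI hv x)
    exact isPlane_congr (le_sg hv x.1) φ.symm (plane_sg x.2)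
  refine ⟨?_, ?_, ?_, hpl, ?_⟩
  · intro x y
    obtain ⟨φ⟩ := emb_icc (UnL_f hv) (fun N => IsLatt hv N) (UnL_hR hv) hconv x y
    have h1 : (Set.Icc (UnL_f hv x) (UnL_f hv y)).Finite := icc_fin x.2 y.2
    have h2 : Finite (Set.Icc (UnL_f hv x) (UnL_f hv y)) := h1
    have h3 : Finite (Set.Icc x y) := Finite.of_equiv _ φ.symm.toEquiv
    exact h3
  · intro x y hxy
    obtain ⟨φ⟩ := emb_icc (UnL_f hv) (fun N => IsLatt hv N) (UnL_hR hv) hconv x y
    obtain ⟨δ⟩ := icc_sd hψ x.2 y.2 hxy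
    exact ⟨φ.trans (δ.trans φ.symm.dual)⟩
  · refine up_of_plane hpl ?_
    intro x y hxy
    refine cov_le_sg x.2 y.2 hxy.le ?_
    intro M h2 h3
    rcases hxy.eq_or_eq (c := ⟨M, hconv _ _ _ x.2 y.2 h2 h3⟩) h2 h3 with h4 | h4
    · left
      exact congrArg Subtype.val h4
    · right
      exact congrArg Subtype.val h4
  · intro x y
    obtain ⟨m, -, hm⟩ := x.2
    obtain ⟨m', hm', -⟩ := y.2
    refine ⟨m + m', ?_⟩
    have h1 := UnL_iter hv (m' : ℤ) y hm' (m + m')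
    have h2 : (m' : ℤ) - ((m + m' : ℕ) : ℤ) = -(m : ℤ) := by push_cast; ring
    rw [h2] at h1
    exact hm.trans h1

/-- `O ^ 3` -/
def oo (hv : IsCDV K v) : LL hv := ⟨ball hv 3 0, isLatt_ball hv 3 0⟩

theorem lat_ici (hv : IsCDV K v) : Nonempty (Lat K v ≃o Set.Ici (oo hv)) := by
  obtain ⟨f, hf⟩ := exists_emb hv
  have hfR : ∀ x, ball hv 3 0 ≤ f x ∧ IsLatt hv (f x) := fun x => (hf _).1 ⟨x, rfl⟩
  have hb : Function.Bijective (fun z : Lat K v =>
      (⟨⟨f z, (hfR z).2⟩, (hfR z).1⟩ : Set.Ici (oo hv))) := by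
    constructor
    · intro a b hab
      exact f.injective (congrArg (fun z : Set.Ici (oo hv) => z.1.1) hab)
    · rintro ⟨⟨b, hb1⟩, hb2⟩
      obtain ⟨z, hz⟩ := (hf b).2 ⟨hb2, hb1⟩
      exact ⟨z, Subtype.ext (Subtype.ext hz)⟩
  refine ⟨{ Equiv.ofBijective _ hb with map_rel_iff' := ?_ }⟩
  intro a b
  exact f.le_iff_le

end Pool.Agent.PLB
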