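import Pool.Agent.PLB.UnR
import Pool.Agent.PLB.Crd

set_option autoImplicit false

/-! Theorem PB, the model: its coordinate division ring is `Kᵐᵒᵖ`.

PLAN. `α, β, γ : K → K₁` with `ug h01 a = xa (α a)`, `ug h12 a = xb (β a)`, `ug h02 a = xc (γ a)` (`ug_mem`, `RD.a_surj` etc.): additive,
injective (`ug_inj`, `RD.a_inj`), and `γ (b * a) = α a * β b` (`ug_comm`, `RD.comm`). So with `e = α 1 * β 1`, `f (op x) = γ x * e⁻¹` is a
ring homomorphism `Kᵐᵒᵖ →+* K₁` (`α a = γ a * (β 1)⁻¹`, `β b = (α 1)⁻¹ * γ b`, `γ (b * a) = γ a * e⁻¹ * γ b`... note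
`e⁻¹ = (β 1)⁻¹ * (α 1)⁻¹`). Values: `ug_fx` with `CR.va`, `CR.vb`, `CR.vc`: `γ x ∈ V₁ n ↔ n ≤ v x`, and `α 1`, `β 1`, `e` have exact value `0`
(`Vl.mul'`; the inverse of an element of exact value `0` has exact value `0`: `Vl.ex`, `Vl.mul'`, `Vl.one'`), so
`f (op x) ∈ V₁ n ↔ n ≤ v x`. Onto: `c ∈ V₁ 0`: by `res_surj` there is `a` with `c - f (op a) ∈ V₁ 1`; inductively (`f (op p)` has exact value
`1`) `a_n` with `c - f (op a_n) ∈ V₁ n` and `n ≤ v (a_(n+1) - a_n)`; the limit `a` (`IsCDV.complete`) has `c - f (op a) ∈ V₁ n` for all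
`n`, so it is `0` (`Vl.ex`). A general `c` is `f (op p)⁻ⁿ` times an element of `V₁ 0`. -/

namespace Pool.Agent.PLB

open Pool.Agent.Helper87.ML Pool.Agent.Helper87.ML2 Pool.Agent.RIG
open scoped commutatorElement

universe u

variable {K : Type u} [DivisionRing K] {v : K → WithTop ℤ} {hv : IsCDV K v}
  [PB (LL hv) (sgI hv)]

section
variable {K₁ : Type u} [DivisionRing K₁] {V₁ : ℤ → AddSubgroup K₁}

private theorem unN_le (hV : Vl K₁ V₁) {m n : ℤ} (h : m ≤ n) {x : K₁} (hx : x ∈ V₁ n) :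
    x ∈ V₁ m := by
  obtain ⟨k, rfl⟩ := Int.le.dest h
  induction k with
  | zero =>
    rw [Nat.cast_zero, add_zero] at hx
    exact hx
  | succ k ih =>
    refine ih (by omega) ?_
    refine hV.anti (m + (k : ℤ)) ?_
    have h1 : m + ((k + 1 : ℕ) : ℤ) = m + (k : ℤ) + 1 := by push_cast; ring
    rw [h1] at hx
    exact hx

private theorem unN_uniq (hV : Vl K₁ V₁) {m n : ℤ} {x : K₁} (h1 : x ∈ V₁ m) (h2 : x ∉ V₁ (m + 1))
    (h3 : x ∈ V₁ n) (h4 : x ∉ V₁ (n + 1)) : m = n := by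
  rcases lt_trichotomy m n with h | h | h
  · exact absurd (unN_le hV (by omega) h3) h2
  · exact h
  · exact absurd (unN_le hV (by omega) h1) h4

private theorem unN_inv (hV : Vl K₁ V₁) {m : ℤ} {y : K₁} (h : y ∈ V₁ m) (h' : y ∉ V₁ (m + 1)) :
    y⁻¹ ∈ V₁ (-m) := by
  have hy : y ≠ 0 := by
    rintro rfl
    exact h' (AddSubgroup.zero_mem _)
  obtain ⟨k, hk, hk'⟩ := hV.ex y⁻¹ (inv_ne_zero hy)
  have h1 := hV.mul m k y y⁻¹ h hk
  have h2 := hV.mul' m k y y⁻¹ h h' hk hk'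
  rw [mul_inv_cancel₀ hy] at h1 h2
  have h3 : m + k = 0 := by
    refine unN_uniq hV h1 h2 hV.one ?_
    rw [zero_add]
    exact hV.one'
  have h4 : k = -m := by omega
  rw [← h4]
  exact hk

end

/-- a homomorphism with trivial kernel -/
private theorem unN_inj {K₁ : Type u} [DivisionRing K₁] {G : Type u} [Group G] {x : K₁ → G}
    (hadd : ∀ a b, x (a + b) = x a * x b) (h0 : ∀ a, x a = 1 → a = 0) {a b : K₁}
    (h : x a = x b) : a = b := by
  have h1 : x (a - b) * x b = x b := by rw [← hadd, sub_add_cancel, h]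
  exact sub_eq_zero.1 (h0 _ (mul_eq_right.1 h1))

theorem model_hom {K₁ : Type u} [DivisionRing K₁] {V₁ : ℤ → AddSubgroup K₁}
    {xa xb xc : K₁ → Gp (LL hv)} (hC : CR (oo hv) (stF hv) K₁ V₁ xa xb xc) :
    ∃ f : Kᵐᵒᵖ →+* K₁, (∀ (n : ℤ) (a : K),
      f (MulOpposite.op a) ∈ V₁ n ↔ ((n : ℤ) : WithTop ℤ) ≤ v a) ∧
      ∀ c ∈ V₁ 0, ∃ a : K, 0 ≤ v a ∧ c - f (MulOpposite.op a) ∈ V₁ 1 := by
  have h01 : (0 : Fin 3) ≠ 1 := by decide
  have h12 : (1 : Fin 3) ≠ 2 := by decide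
  have h02 : (0 : Fin 3) ≠ 2 := by decide
  have hV := hC.vl
  have hα : ∀ a : K, ∃ x : K₁, xa x = ug hv h01 a := fun a => hC.rd.a_surj _ (ug_mem h01 a)
  have hβ : ∀ a : K, ∃ x : K₁, xb x = ug hv h12 a := fun a => hC.rd.b_surj _ (ug_mem h12 a)
  have hγ : ∀ a : K, ∃ x : K₁, xc x = ug hv h02 a := fun a => hC.rd.c_surj _ (ug_mem h02 a)
  choose α hα using hα
  choose β hβ using hβ
  choose γ hγ using hγ
  have cinj : ∀ {a b : K₁}, xc a = xc b → a = b := fun h =>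
    unN_inj hC.rd.c_add hC.rd.c_inj h
  have a0 : xa 0 = 1 := by
    have h := hC.rd.a_add 0 0
    rw [add_zero] at h
    exact mul_eq_left.1 h.symm
  have b0 : xb 0 = 1 := by
    have h := hC.rd.b_add 0 0
    rw [add_zero] at h
    exact mul_eq_left.1 h.symm
  have c0 : xc 0 = 1 := by
    have h := hC.rd.c_add 0 0
    rw [add_zero] at h
    exact mul_eq_left.1 h.symm
  have γ_add : ∀ a b, γ (a + b) = γ a + γ b := by
    intro a b
    apply cinj
    rw [hγ, hC.rd.c_add, hγ, hγ, ug_add]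
  have hmul : ∀ a b, γ (b * a) = α a * β b := by
    intro a b
    apply cinj
    rw [hγ, ← hC.rd.comm, hα, hβ, ug_comm h01 h12 h02]
  have hα1 : α 1 ≠ 0 := by
    intro h
    have h1 := hα 1
    rw [h, a0] at h1
    exact one_ne_zero (ug_inj h01 h1.symm)
  have hβ1 : β 1 ≠ 0 := by
    intro h
    have h1 := hβ 1
    rw [h, b0] at h1
    exact one_ne_zero (ug_inj h12 h1.symm)
  obtain ⟨e, he⟩ : ∃ e, e = α 1 * β 1 := ⟨_, rfl⟩
  have he0 : e ≠ 0 := by
    rw [he]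
    exact mul_ne_zero hα1 hβ1
  have heγ : γ 1 = e := by
    have h := hmul 1 1
    rw [mul_one] at h
    rw [h, he]
  have hαγ : ∀ a, α a = γ a * (β 1)⁻¹ := by
    intro a
    have h := hmul a 1
    rw [one_mul] at h
    rw [h, mul_assoc, mul_inv_cancel₀ hβ1, mul_one]
  have hβγ : ∀ b, β b = (α 1)⁻¹ * γ b := by
    intro b
    have h := hmul 1 b
    rw [mul_one] at h
    rw [h, ← mul_assoc, inv_mul_cancel₀ hα1, one_mul]
  have hγγ : ∀ a b, γ (b * a) = γ a * e⁻¹ * γ b := by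
    intro a b
    rw [hmul, hαγ a, hβγ b, he, mul_inv_rev]
    simp only [mul_assoc]
  have hval : ∀ (n : ℤ) (a : K), γ a ∈ V₁ n ↔ ((n : ℤ) : WithTop ℤ) ≤ v a := by
    intro n a
    rw [hC.vc, hγ, ug_fx]
  have he1 : e ∈ V₁ 0 := by
    rw [← heγ, hval, IsCDV.one hv]
    exact le_rfl
  have he2 : e ∉ V₁ (0 + 1) := by
    rw [← heγ, hval, IsCDV.one hv]
    intro h
    have h1 : ((0 + 1 : ℤ) : WithTop ℤ) ≤ ((0 : ℤ) : WithTop ℤ) := h
    rw [WithTop.coe_le_coe] at h1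
    omega
  have he3 : e⁻¹ ∈ V₁ 0 := by
    have h := unN_inv hV he1 he2
    rw [neg_zero] at h
    exact h
  refine ⟨{ toFun := fun x => γ x.unop * e⁻¹
            map_one' := ?_
            map_mul' := ?_
            map_zero' := ?_
            map_add' := ?_ }, ?_, ?_⟩
  · show γ 1 * e⁻¹ = 1
    rw [heγ, mul_inv_cancel₀ he0]
  · intro x y
    show γ (y.unop * x.unop) * e⁻¹ = γ x.unop * e⁻¹ * (γ y.unop * e⁻¹)
    rw [hγγ]
    simp only [mul_assoc]
  · show γ 0 * e⁻¹ = 0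
    have h : γ 0 = 0 := by
      have h1 := γ_add 0 0
      rw [add_zero] at h1
      exact left_eq_add.1 h1
    rw [h, zero_mul]
  · intro x y
    show γ (x.unop + y.unop) * e⁻¹ = γ x.unop * e⁻¹ + γ y.unop * e⁻¹
    rw [γ_add, add_mul]
  · intro n a
    show γ a * e⁻¹ ∈ V₁ n ↔ _
    rw [← hval]
    constructor
    · intro h
      have h1 := hV.mul n 0 _ e h he1
      rw [mul_assoc, inv_mul_cancel₀ he0, mul_one, add_zero] at h1
      exact h1
    · intro h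
      have h1 := hV.mul n 0 _ e⁻¹ h he3
      rw [add_zero] at h1
      exact h1
  · intro c hc
    show ∃ a : K, 0 ≤ v a ∧ c - γ a * e⁻¹ ∈ V₁ 1
    have h1 : c * e ∈ V₁ 0 := by
      have h2 := hV.mul 0 0 c e hc he1
      rw [add_zero] at h2
      exact h2
    obtain ⟨a, ha, h2⟩ := res_surj h02 (hC.rd.c_mem (c * e)) ((hC.vc 0 (c * e)).1 h1)
    refine ⟨a, ha, ?_⟩
    have h3 : xc (c * e) * (ug hv h02 a)⁻¹ = xc (c * e - γ a) := by
      have h4 : xc (c * e - γ a) * xc (γ a) = xc (c * e) := by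
        rw [← hC.rd.c_add, sub_add_cancel]
      rw [← h4, ← hγ, mul_assoc, mul_inv_cancel, mul_one]
    rw [h3, ← hC.vc] at h2
    have h4 := hV.mul 1 0 _ e⁻¹ h2 he3
    rw [sub_mul, mul_assoc, mul_inv_cancel₀ he0, mul_one, add_zero] at h4
    exact h4

theorem hom_surj {K₁ : Type u} [DivisionRing K₁] {V₁ : ℤ → AddSubgroup K₁} (hv : IsCDV K v)
    (hV : Vl K₁ V₁) (f : Kᵐᵒᵖ →+* K₁) (h1 : ∀ (n : ℤ) (a : K),
      f (MulOpposite.op a) ∈ V₁ n ↔ ((n : ℤ) : WithTop ℤ) ≤ v a)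
    (h2 : ∀ c ∈ V₁ 0, ∃ a : K, 0 ≤ v a ∧ c - f (MulOpposite.op a) ∈ V₁ 1) :
    Function.Surjective f := by
  obtain ⟨p, hp⟩ := hv.surj
  have hpv : ∀ n : ℕ, v (p ^ n) = ((n : ℤ) : WithTop ℤ) := by
    intro n
    induction n with
    | zero =>
      rw [pow_zero, IsCDV.one hv]
      rfl
    | succ n ih =>
      rw [pow_succ, hv.mul, ih, hp]
      have h : ((n + 1 : ℕ) : ℤ) = (n : ℤ) + 1 := by push_cast; ring
      rw [h, WithTop.coe_add]
      rfl
  have hP1 : ∀ n : ℕ, f (MulOpposite.op (p ^ n)) ∈ V₁ n := by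
    intro n
    rw [h1, hpv]
  have hP2 : ∀ n : ℕ, f (MulOpposite.op (p ^ n)) ∉ V₁ (n + 1) := by
    intro n
    rw [h1, hpv, WithTop.coe_le_coe]
    omega
  have hP0 : ∀ n : ℕ, f (MulOpposite.op (p ^ n)) ≠ 0 := by
    intro n h
    apply hP2 n
    rw [h]
    exact AddSubgroup.zero_mem _
  -- the elements of `V₁ 0`
  have hint : ∀ c ∈ V₁ 0, ∃ b : K, f (MulOpposite.op b) = c := by
    intro c hc
    have hstep : ∀ (n : ℕ) (a : K), ∃ a' : K, c - f (MulOpposite.op a) ∈ V₁ n →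
        c - f (MulOpposite.op a') ∈ V₁ ((n + 1 : ℕ) : ℤ) ∧
          ((n : ℤ) : WithTop ℤ) ≤ v (a' - a) := by
      intro n a
      by_cases hca : c - f (MulOpposite.op a) ∈ V₁ n
      · have h3 := hV.mul n (-n) _ _ hca (unN_inv hV (hP1 n) (hP2 n))
        rw [add_neg_cancel] at h3
        obtain ⟨b, hb, h4⟩ := h2 _ h3
        refine ⟨a + p ^ n * b, fun _ => ⟨?_, ?_⟩⟩
        · have h5 := hV.mul 1 n _ _ h4 (hP1 n)
          rw [sub_mul, mul_assoc, inv_mul_cancel₀ (hP0 n), mul_one, ← map_mul,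
            ← MulOpposite.op_mul] at h5
          have h6 : c - f (MulOpposite.op (a + p ^ n * b)) =
              c - f (MulOpposite.op a) - f (MulOpposite.op (p ^ n * b)) := by
            rw [MulOpposite.op_add, map_add]
            abel
          have h7 : ((n + 1 : ℕ) : ℤ) = 1 + (n : ℤ) := by push_cast; ring
          rw [h6, h7]
          exact h5
        · rw [add_sub_cancel_left, hv.mul, hpv]
          calc ((n : ℤ) : WithTop ℤ) = ((n : ℤ) : WithTop ℤ) + 0 := (add_zero _).symm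
            _ ≤ ((n : ℤ) : WithTop ℤ) + v b := add_le_add le_rfl hb
      · exact ⟨0, fun h => absurd h hca⟩
    choose g hg using hstep
    obtain ⟨a, ha0, ha1⟩ : ∃ a : ℕ → K, a 0 = 0 ∧ ∀ n, a (n + 1) = g n (a n) :=
      ⟨fun n => Nat.rec 0 (fun n x => g n x) n, rfl, fun _ => rfl⟩
    have ha : ∀ n : ℕ, c - f (MulOpposite.op (a n)) ∈ V₁ n := by
      intro n
      induction n with
      | zero =>
        rw [ha0, MulOpposite.op_zero, map_zero, sub_zero]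
        exact hc
      | succ n ih =>
        rw [ha1]
        exact (hg n (a n) ih).1
    obtain ⟨b, hb⟩ := hv.complete a (fun n => by
      rw [ha1]
      exact (hg n (a n) (ha n)).2)
    refine ⟨b, ?_⟩
    by_contra hne
    have h3 : ∀ n : ℕ, c - f (MulOpposite.op b) ∈ V₁ n := by
      intro n
      have h4 : c - f (MulOpposite.op b) =
          c - f (MulOpposite.op (a n)) - f (MulOpposite.op (b - a n)) := by
        rw [MulOpposite.op_sub, map_sub]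
        abel
      rw [h4]
      exact AddSubgroup.sub_mem _ (ha n) ((h1 _ _).2 (hb n))
    obtain ⟨m, _, hm⟩ := hV.ex (c - f (MulOpposite.op b)) (fun h => hne (sub_eq_zero.1 h).symm)
    exact hm (unN_le hV (Int.self_le_toNat (m + 1)) (h3 (m + 1).toNat))
  intro c
  by_cases hc : c = 0
  · exact ⟨0, by rw [map_zero, hc]⟩
  obtain ⟨m, hm, _⟩ := hV.ex c hc
  obtain ⟨k, hk⟩ : ∃ k : ℕ, 0 ≤ m + (k : ℤ) := ⟨(-m).toNat, by
    have := Int.self_le_toNat (-m)
    omega⟩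
  have h3 : c * f (MulOpposite.op (p ^ k)) ∈ V₁ 0 :=
    unN_le hV hk (hV.mul m k _ _ hm (hP1 k))
  obtain ⟨b, hb⟩ := hint _ h3
  refine ⟨MulOpposite.op b * (MulOpposite.op (p ^ k))⁻¹, ?_⟩
  rw [map_mul, map_inv₀, hb, mul_assoc, mul_inv_cancel₀ (hP0 k), mul_one]

theorem model_iso {K₁ : Type u} [DivisionRing K₁] {V₁ : ℤ → AddSubgroup K₁}
    {xa xb xc : K₁ → Gp (LL hv)} (hC : CR (oo hv) (stF hv) K₁ V₁ xa xb xc) :
    ∃ f : Kᵐᵒᵖ ≃+* K₁, ∀ (n : ℤ) (a : K),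
      f (MulOpposite.op a) ∈ V₁ n ↔ ((n : ℤ) : WithTop ℤ) ≤ v a := by
  obtain ⟨f, h1, h2⟩ := model_hom hC
  have h3 := hom_surj hv hC.vl f h1 h2
  exact ⟨RingEquiv.ofBijective f ⟨f.injective, h3⟩, h1⟩

end Pool.Agent.PLB
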