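import Pool.Agent.PLB.FixA

set_option autoImplicit false

/-! Theorem PB, (4.3): frames independent at `o`; values of commutators, existence of values, residue classes.

PLAN. `exists_frame`: three noncollinear points `a i` of the plane `[o, s o]`, points `e i` with `(e i) o = a i` (`thru`), lines
`l k` through `e i`, `e j` (`exists_line`); `(e k) o = a k` is not below `l k (s o) = a i ⊔ a j` (`Hk_sup_it` with `k = 1`).
`exists_ap`: for `n i ≥ 0` take `z = (e 0)^[n 0] ((e 1)^[n 1] ((e 2)^[n 2] o))`: moving along `e i` raises `mu (e i)` and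
`nu (l i)` by one and leaves `mu (e j)`, `nu (l j)` unchanged for `j ≠ i`: `Far (e i) (l i)` holds at all these elements
(`far_f` for `i` itself; `far_up` for moves along `e j`, which stay on `l i`: `inc_nu_it`), `mu (e j)` does not grow in the
direction `e i`, as `(e i) w ≠ (e j) w` (`e j` is on `l i`, `e i` is far from `l i`; `mu_cov`). In general shift by `s^-k`.
`fx_comm`: choose `z` with `mu (e i) z - nu (l j) z = -m`, `mu (e j) z - nu (l k) z = -n` (`exists_ap` with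
`n i - n j = -m`, `n j - n k = -n`); `x` and `b` fix `z`, so `⁅x, b⁆` does; `comm_mem`, `fx_iff`.
`fx_val`: for incident `p, l` and `n` there is `t ∈ El p l` of exact value `n`: take `z` with `mu p z - nu l z = -n` (`lev_all`),
then `f` far from `l` at `z` (`exists_off`) and `f'` far from `l` at `z` with `f' z ≠ f z` and `f' z ≤ f z ⊔ p z` (a third
point on the line `f z, p z` of the plane `[z, s z]`), more precisely `f'` on the line through `f` and `p`
(`thru_on`, `exists_line`); `el_exists`/`ela` at `z` gives `t ∈ El p l` with `t z = z`, `t • f = f'`; it does not fix `f z`,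
where `mu p (f z) - nu l (f z) = -n - 1`.
`fx_fin`: choose `z₀` with `mu p z₀ - nu l z₀ = 0` and `z₁ = f z₀`, `f` far from `l` at `z₀`; all `t` with `Fx 0` fix `z₀` and map
`z₁` into the finite set `[z₀, s z₀]`; two such with the same `t z₁` differ by an element fixing `z₁` (`fx_iff`). -/

namespace Pool.Agent.PLB

open Pool.Agent.Helper87.ML Pool.Agent.RIG OrderDual
open scoped commutatorElement

universe u

variable {X : Type u} [Lattice X] [IsModularLattice X] {s : X ≃o X} [PB X s]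

/-- the frame is independent at `o` -/
def FarF (o : X) (F : Frame (Inc (s := s))) : Prop := ∀ i, Far (F.e i) (F.l i) o

/-- a point on the line through `f` and `p`, different from `p`, is far from `l` -/
private lemma vla_far {f p r : Pt s} {l : Ln s} {z : X} (hf : Far f l z) (hp : Inc p l)
    (hr : r.1 z ≤ f.1 z ⊔ p.1 z) (hrp : r.1 z ≠ p.1 z) : Far r l z := by
  intro h
  have h1 : r.1 z ≤ Hk l 1 z := h
  have h2 : p.1 z ≤ Hk l 1 z := inc_it hp 1 z
  have h3 : f.1 z ⊓ Hk l 1 z = z := far_inf hf 1 1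
  have h4 : (p.1 z ⊔ f.1 z) ⊓ Hk l 1 z = p.1 z ⊔ f.1 z ⊓ Hk l 1 z :=
    (sup_inf_assoc_of_le _ h2)
  rw [h3, sup_of_le_left (p.2.cov z).le, sup_comm] at h4
  have h5 : r.1 z ≤ p.1 z := by
    rw [← h4]
    exact le_inf hr h1
  rcases (p.2.cov z).eq_or_eq (r.2.cov z).le h5 with h6 | h6
  · exact (r.2.cov z).lt.ne' h6
  · exact hrp h6

private lemma vla_ne {f p : Pt s} {l : Ln s} {z : X} (hf : Far f l z) (hp : Inc p l) :
    f.1 z ≠ p.1 z := by
  intro h
  apply hf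
  rw [h]
  exact hp z

private lemma vla_sup {f p r : Pt s} {m : Ln s} {z : X} (hf : Inc f m) (hp : Inc p m)
    (hr : Inc r m) (hfp : f.1 z ≠ p.1 z) : r.1 z ≤ f.1 z ⊔ p.1 z := by
  have h1 : f.1 z ⊔ p.1 z = Hk m 1 z := Hk_sup_it hf hp hfp 1
  rw [h1]
  exact inc_it hr 1 z

theorem exists_frame (o : X) : ∃ F : Frame (Inc (s := s)), FarF o F := by
  haveI : Nonempty X := ⟨o⟩
  obtain ⟨l2⟩ := (isPP s).ex'
  obtain ⟨e2, h2, -⟩ := exists_off l2 l2 o
  obtain ⟨e0, e1, -, h02, h12, -, h01, -, -⟩ := three_on l2 o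
  have n21 : e2.1 o ≠ e1.1 o := vla_ne h2 h12
  have n20 : e2.1 o ≠ e0.1 o := vla_ne h2 h02
  obtain ⟨l0, ⟨h20, h10⟩, -⟩ := exists_line (f := e2) (f' := e1) (by
    rintro rfl
    exact n21 rfl)
  obtain ⟨l1, ⟨h21, h11⟩, -⟩ := exists_line (f := e2) (f' := e0) (by
    rintro rfl
    exact n20 rfl)
  have k0 : Far e0 l0 o := by
    intro h
    have h1 : e0.1 o ≤ e2.1 o ⊔ e1.1 o := by
      have h3 : e2.1 o ⊔ e1.1 o = Hk l0 1 o := Hk_sup_it h20 h10 n21 1
      rw [h3]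
      exact h
    exact far_not_inc (vla_far h2 h12 h1 h01) h02
  have k1 : Far e1 l1 o := by
    intro h
    have h1 : e1.1 o ≤ e2.1 o ⊔ e0.1 o := by
      have h3 : e2.1 o ⊔ e0.1 o = Hk l1 1 o := Hk_sup_it h21 h11 n20 1
      rw [h3]
      exact h
    exact far_not_inc (vla_far h2 h02 h1 h01.symm) h12
  refine ⟨⟨![e0, e1, e2], ![l0, l1, l2], ?_⟩, ?_⟩
  · intro i j
    fin_cases i <;> fin_cases j
    · simpa using far_not_inc k0
    · simpa using h11
    · simpa using h02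
    · simpa using h10
    · simpa using far_not_inc k1
    · simpa using h12
    · simpa using h20
    · simpa using h21
    · simpa using far_not_inc h2
  · intro i
    fin_cases i
    · exact k0
    · exact k1
    · exact h2

/-- one step -/
private lemma vla_step {o : X} {F : Frame (Inc (s := s))} (hF : FarF o F) (i : Fin 3) {z : X}
    (hz : ∀ j, mu o (F.e j) z = nu o (F.l j) z) (j : Fin 3) :
    mu o (F.e j) ((F.e i).1 z) = mu o (F.e j) z + (if j = i then 1 else 0) ∧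
    nu o (F.l j) ((F.e i).1 z) = nu o (F.l j) z + (if j = i then 1 else 0) := by
  have hmu0 : ∀ f : Pt s, mu o f o = 0 := fun f => (mu_spec o f).2
  have hnu0 : ∀ l : Ln s, nu o l o = 0 := fun l => (nu_spec o l).2
  by_cases hji : j = i
  · subst hji
    rw [if_pos rfl]
    refine ⟨mu_f o (F.e j) 1 z, ?_⟩
    refine (far_iff_nu o (F.e j) (F.l j) z).1 ?_
    refine (mu_nu_eq o (hF j) z).1 ?_
    rw [hmu0, hnu0, hz]
  · rw [if_neg hji, add_zero, add_zero]
    have h1 : nu o (F.l j) ((F.e i).1 z) = nu o (F.l j) z :=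
      (inc_iff_nu o (F.e i) (F.l j)).1 ((F.inc i j).2 (Ne.symm hji)) z
    refine ⟨?_, h1⟩
    have h2 := mu_mono o (F.e j) ((F.e i).2.cov z).le
    have h3 := mu_nu_le o (hF j) ((F.e i).1 z)
    rw [hmu0, hnu0, h1, sub_zero, sub_zero, ← hz] at h3
    exact le_antisymm h3 h2

private lemma vla_steps {o : X} {F : Frame (Inc (s := s))} (hF : FarF o F) (i : Fin 3) (m : ℕ)
    {z : X} (hz : ∀ j, mu o (F.e j) z = nu o (F.l j) z) :
    ∃ z', ∀ j, mu o (F.e j) z' = mu o (F.e j) z + (if j = i then (m : ℤ) else 0) ∧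
      nu o (F.l j) z' = nu o (F.l j) z + (if j = i then (m : ℤ) else 0) := by
  induction m with
  | zero => exact ⟨z, fun j => by simp⟩
  | succ m ih =>
    obtain ⟨z', hz'⟩ := ih
    have h1 : ∀ j, mu o (F.e j) z' = nu o (F.l j) z' := fun j => by
      rw [(hz' j).1, (hz' j).2, hz j]
    refine ⟨(F.e i).1 z', fun j => ?_⟩
    have h2 := vla_step hF i h1 j
    rw [h2.1, h2.2, (hz' j).1, (hz' j).2]
    by_cases hji : j = i
    · rw [if_pos hji, if_pos hji, if_pos hji]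
      push_cast
      constructor <;> ring
    · rw [if_neg hji, if_neg hji, if_neg hji]
      simp

theorem exists_ap {o : X} {F : Frame (Inc (s := s))} (hF : FarF o F) (n : Fin 3 → ℤ) :
    ∃ z, ∀ i, mu o (F.e i) z = n i ∧ nu o (F.l i) z = n i := by
  have hmu0 : ∀ f : Pt s, mu o f o = 0 := fun f => (mu_spec o f).2
  have hnu0 : ∀ l : Ln s, nu o l o = 0 := fun l => (nu_spec o l).2
  obtain ⟨k, hk⟩ : ∃ k : ℕ, ∀ i, 0 ≤ n i + k := by
    refine ⟨(n 0).natAbs + (n 1).natAbs + (n 2).natAbs, fun i => ?_⟩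
    fin_cases i
    · show 0 ≤ n 0 + _
      omega
    · show 0 ≤ n 1 + _
      omega
    · show 0 ≤ n 2 + _
      omega
  have h0 : ∀ j, mu o (F.e j) (s.symm^[k] o) = -k ∧ nu o (F.l j) (s.symm^[k] o) = -k := by
    intro j
    rw [mu_symm, nu_symm, hmu0, hnu0]
    constructor <;> ring
  obtain ⟨z1, h1⟩ := vla_steps hF 0 (n 0 + k).toNat (z := s.symm^[k] o) (fun j => by
    rw [(h0 j).1, (h0 j).2])
  have e1 : ∀ j, mu o (F.e j) z1 = nu o (F.l j) z1 := fun j => by
    rw [(h1 j).1, (h1 j).2, (h0 j).1, (h0 j).2]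
  obtain ⟨z2, h2⟩ := vla_steps hF 1 (n 1 + k).toNat e1
  have e2 : ∀ j, mu o (F.e j) z2 = nu o (F.l j) z2 := fun j => by
    rw [(h2 j).1, (h2 j).2, e1 j]
  obtain ⟨z3, h3⟩ := vla_steps hF 2 (n 2 + k).toNat e2
  have t0 := Int.toNat_of_nonneg (hk 0)
  have t1 := Int.toNat_of_nonneg (hk 1)
  have t2 := Int.toNat_of_nonneg (hk 2)
  refine ⟨z3, fun j => ?_⟩
  rw [(h3 j).1, (h3 j).2, (h2 j).1, (h2 j).2, (h1 j).1, (h1 j).2, (h0 j).1, (h0 j).2, t0, t1, t2]
  fin_cases j <;> simp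

theorem fx_comm {o : X} {F : Frame (Inc (s := s))} (hF : FarF o F) {i j k : Fin 3}
    (hij : i ≠ j) (hjk : j ≠ k) (hik : i ≠ k) {x b : Gp X} (hx : x ∈ U (Gp X) F i j)
    (hb : b ∈ U (Gp X) F j k) {m n : ℤ} (hm : Fx o (F.e i) (F.l j) m x)
    (hn : Fx o (F.e j) (F.l k) n b) : Fx o (F.e i) (F.l k) (m + n) ⁅x, b⁆ := by
  haveI : Nonempty X := ⟨o⟩
  have hM : MP (Gp X) (Inc (s := s)) := mp s
  have hc : ⁅x, b⁆ ∈ U (Gp X) F i k := comm_mem hM F hij hjk hik hx hb
  obtain ⟨z, hz⟩ := exists_ap hF (fun t => if t = i then -(m + n) else if t = j then -n else 0)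
  have hzi := hz i
  have hzj := hz j
  have hzk := hz k
  rw [if_pos rfl] at hzi
  rw [if_neg (Ne.symm hij), if_pos rfl] at hzj
  rw [if_neg (Ne.symm hik), if_neg (Ne.symm hjk)] at hzk
  have hxz : (x : X ≃o X) z = z := by
    apply hm
    rw [hzi.1, hzj.2]
    linarith
  have hbz : (b : X ≃o X) z = z := by
    apply hn
    rw [hzj.1, hzk.2]
    linarith
  have hxz' : (x : X ≃o X).symm z = z := by
    rw [OrderIso.symm_apply_eq]
    exact hxz.symm
  have hbz' : (b : X ≃o X).symm z = z := by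
    rw [OrderIso.symm_apply_eq]
    exact hbz.symm
  have hcz : ((⁅x, b⁆ : Gp X) : X ≃o X) z = z := by
    rw [commutatorElement_def]
    show (x : X ≃o X) ((b : X ≃o X) ((x : X ≃o X).symm ((b : X ≃o X).symm z))) = z
    rw [hbz', hxz', hbz, hxz]
  have h1 := (fx_iff o ((F.inc i k).2 hik) hc z).1 hcz
  rw [hzk.2, hzi.1] at h1
  have h2 : (0 : ℤ) - -(m + n) = m + n := by ring
  rw [h2] at h1
  exact h1

theorem fx_val (o : X) {p : Pt s} {l : Ln s} (hp : Inc p l) (n : ℤ) :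
    ∃ t ∈ El (Gp X) (Inc (s := s)) p l, Fx o p l n t ∧ ¬ Fx o p l (n + 1) t := by
  haveI : Nonempty X := ⟨o⟩
  have hM : MP (Gp X) (Inc (s := s)) := mp s
  obtain ⟨z, hz⟩ := lev_all o hp (-n)
  obtain ⟨f, hf, -⟩ := exists_off l l z
  have hfp : f.1 z ≠ p.1 z := vla_ne hf hp
  obtain ⟨m, ⟨hfm, hpm⟩, -⟩ := exists_line (f := f) (f' := p) (by
    rintro rfl
    exact hfp rfl)
  obtain ⟨r, hrm, hrp, hrf⟩ := third_on (p := p) (q := f) (h := m) z
  have hr : Far r l z := vla_far hf hp (vla_sup hfm hpm hrm hfp) hrp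
  obtain ⟨g, hgz, hg, hgf⟩ := ela hf hr
  obtain ⟨t, ht, htf⟩ := el_exists (G := Gp X) hM hp (far_not_inc hf) (far_not_inc hr) hpm hfm hrm
  have htg : t = g :=
    (tr_sharp (G := Gp X) hM (far_not_inc hf) (far_not_inc hr)).unique ⟨⟨p, hp, ht⟩, htf⟩
      ⟨hg, hgf⟩
  have htz : (t : X ≃o X) z = z := by
    rw [htg]
    exact hgz
  refine ⟨t, ht, ?_, ?_⟩
  · have h1 := (fx_iff o hp ht z).1 htz
    have h2 : nu o l z - mu o p z = n := by linarith
    rw [h2] at h1
    exact h1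
  · intro h
    have h1 : (t : X ≃o X) (f.1 z) = f.1 z := by
      apply h
      have h2 := mu_mono o p (f.2.cov z).le
      have h3 := (far_iff_nu o f l z).1 hf
      linarith
    have h2 : ((t : X ≃o X) • f).1 ((t : X ≃o X) z) = (t : X ≃o X) (f.1 z) := smul_apply _ f z
    have h3 : (t : X ≃o X) • f = r := htf
    rw [h3, htz, h1] at h2
    exact hrf h2

theorem fx_fin (o : X) {p : Pt s} {l : Ln s} (hp : Inc p l) :
    ∃ T : Finset (Gp X), ∀ x ∈ El (Gp X) (Inc (s := s)) p l, Fx o p l 0 x →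
      ∃ t ∈ T, t ∈ El (Gp X) (Inc (s := s)) p l ∧ Fx o p l 1 (x * t⁻¹) := by
  classical
  obtain ⟨z, hz⟩ := lev_all o hp 0
  obtain ⟨f, hf, -⟩ := exists_off l l z
  have hfin : (Set.Icc z (s z)).Finite := PB.fin (s := s) z (s z)
  have hch : ∀ w : X, ∃ t : Gp X, (∃ x : Gp X, x ∈ El (Gp X) (Inc (s := s)) p l ∧
      Fx o p l 0 x ∧ (x : X ≃o X) (f.1 z) = w) → (t ∈ El (Gp X) (Inc (s := s)) p l ∧
      Fx o p l 0 t ∧ (t : X ≃o X) (f.1 z) = w) := by
    intro w
    by_cases h : ∃ x : Gp X, x ∈ El (Gp X) (Inc (s := s)) p l ∧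
      Fx o p l 0 x ∧ (x : X ≃o X) (f.1 z) = w
    · obtain ⟨x, hx⟩ := h
      exact ⟨x, fun _ => hx⟩
    · exact ⟨1, fun h' => (h h').elim⟩
  choose τ hτ using hch
  refine ⟨hfin.toFinset.image τ, fun x hx hx0 => ?_⟩
  have hxz : (x : X ≃o X) z = z := hx0 z (by linarith)
  have h1 : z ≤ (x : X ≃o X) (f.1 z) := by
    calc z = (x : X ≃o X) z := hxz.symm
      _ ≤ (x : X ≃o X) (f.1 z) := (x : X ≃o X).monotone (f.2.cov z).le
  have h2 : (x : X ≃o X) (f.1 z) ≤ s z := by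
    calc (x : X ≃o X) (f.1 z) ≤ (x : X ≃o X) (s z) := (x : X ≃o X).monotone (it_le_s f 1 z)
      _ = s ((x : X ≃o X) z) := aut_comm _ _
      _ = s z := by rw [hxz]
  obtain ⟨ht1, ht2, ht3⟩ := hτ ((x : X ≃o X) (f.1 z)) ⟨x, hx, hx0, rfl⟩
  refine ⟨τ ((x : X ≃o X) (f.1 z)), ?_, ht1, ?_⟩
  · exact Finset.mem_image_of_mem _ (hfin.mem_toFinset.2 ⟨h1, h2⟩)
  · have h3 : x * (τ ((x : X ≃o X) (f.1 z)))⁻¹ ∈ El (Gp X) (Inc (s := s)) p l :=
      (El (Gp X) (Inc (s := s)) p l).mul_mem hx ((El (Gp X) (Inc (s := s)) p l).inv_mem ht1)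
    have h4 : ((x * (τ ((x : X ≃o X) (f.1 z)))⁻¹ : Gp X) : X ≃o X) ((x : X ≃o X) (f.1 z)) =
        (x : X ≃o X) (f.1 z) := by
      show (x : X ≃o X) (((τ ((x : X ≃o X) (f.1 z)) : Gp X) : X ≃o X).symm
        ((x : X ≃o X) (f.1 z))) = (x : X ≃o X) (f.1 z)
      congr 1
      rw [OrderIso.symm_apply_eq]
      exact ht3.symm
    have h5 := (fx_iff o hp h3 _).1 h4
    have h6 : nu o l ((x : X ≃o X) (f.1 z)) = nu o l z + 1 := by
      rw [tr_nu o ⟨p, hp, hx⟩]
      exact (far_iff_nu o f l z).1 hf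
    have h7 : mu o p ((x : X ≃o X) (f.1 z)) = mu o p z := by
      rw [tr_mu o hp ⟨p, hp, hx⟩]
      rcases mu_cov o p (f.2.cov z) with h8 | h8
      · exact (vla_ne hf hp h8.1).elim
      · exact h8.2
    rw [h6, h7] at h5
    have h8 : nu o l z + 1 - mu o p z = 1 := by linarith
    rw [h8] at h5
    exact h5

end Pool.Agent.PLB
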