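import Pool.Agent.PLB.UnL
import Pool.Agent.PLB.VlA

set_option autoImplicit false

/-! Theorem PB, the model: the points `K ε_i` and the lines `x_j = 0` at infinity.

PLAN. `IsEnd` for `N ↦ N + (K ε_i ∩ π⁻¹ N)`: cover: if `N < M ≤ N + (K ε_i ∩ π⁻¹ N)`, `M` contains some `x ∈ K ε_i ∩ π⁻¹ N`, `x ∉ N`; every
`y ∈ K ε_i ∩ π⁻¹ N` is `c x`, and `v c < 0` would give `x = c⁻¹ y ∈ N`. `str`: there is an exact `m` with `K ε_i ∩ N = {v ≥ m} ε_i`
(`N` is a lattice); `f f N` contains `a ε_i` with `v a = m - 2`, `sg N` does not. `comm`: `sg` is an order isomorphism of `MM hv 3`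
(`sg_le_sg`, `sg_dn`), so commutes with `⊔`, `⊓`, and `sg (kax i) = kax i`. `IsCo`: `(N ∩ H_j) + π N` consists of the `x ∈ N` with `x_j ∈ π X`,
`X = {y_j | y ∈ N} = {v ≥ m}`. `Inc`: `Hln j (sg N) = (sg N ∩ H_j) + N`. `stF_far`: at `oo`, `ε_i π⁻¹` is in `Ept i oo`, not in
`Hln i (sg oo)`. `ept_dg`: direct. -/

namespace Pool.Agent.PLB

open Pool.Agent.Helper87.ML Pool.Agent.Helper87.ML2 Pool.Agent.RIG

universe u

variable {K : Type u} [DivisionRing K] {v : K → WithTop ℤ}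

private lemma unp_mul (hv : IsCDV K v) {N : MM hv 3} {x : Fin 3 → K} (hx : x ∈ N) {a : K}
    (ha : 0 ≤ v a) : (fun k => a * x k) ∈ N := N.smul_mem (⟨a, ha⟩ : OO hv) hx

private lemma unp_mulsingle (a : K) (i : Fin 3) (c : K) :
    (fun k => a * (Pi.single i c : Fin 3 → K) k) = Pi.single i (a * c) := by
  funext k
  by_cases hk : k = i
  · subst hk
    rw [Pi.single_eq_same, Pi.single_eq_same]
  · rw [Pi.single_eq_of_ne hk, Pi.single_eq_of_ne hk, mul_zero]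

private lemma unp_single {i : Fin 3} {x : Fin 3 → K} (h : ∀ k, k ≠ i → x k = 0) :
    x = Pi.single i (x i) := by
  funext k
  by_cases hk : k = i
  · subst hk
    rw [Pi.single_eq_same]
  · rw [Pi.single_eq_of_ne hk, h k hk]

private lemma unp_exact (hv : IsCDV K v) (T : K → Prop)
    (h1 : ∀ a c, 0 ≤ v a → T c → T (a * c))
    (h2 : ∃ m : ℤ, ∀ c, (m : WithTop ℤ) ≤ v c → T c)
    (h3 : ∃ m : ℤ, ∀ c, T c → (m : WithTop ℤ) ≤ v c) :
    ∃ m : ℤ, ∀ c, T c ↔ (m : WithTop ℤ) ≤ v c := by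
  obtain ⟨m2, h2⟩ := h2
  obtain ⟨m3, h3⟩ := h3
  obtain ⟨m, ⟨c0, hc0, hT⟩, hmin⟩ := Int.exists_least_of_bdd
    (P := fun k : ℤ => ∃ c, v c = (k : WithTop ℤ) ∧ T c)
    ⟨m3, fun k ⟨c, hc, hT⟩ => by
      have h4 := h3 c hT
      rw [hc] at h4
      exact WithTop.coe_le_coe.1 h4⟩
    (by
      obtain ⟨c, hc⟩ := hv.exists_val m2
      exact ⟨m2, c, hc, h2 c hc.ge⟩)
  refine ⟨m, fun c => ⟨fun hc => ?_, fun hc => ?_⟩⟩
  · by_cases hc0 : c = 0
    · rw [hc0, hv.zero]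
      exact le_top
    · obtain ⟨k, hk⟩ := hv.ex hc0
      rw [hk]
      exact WithTop.coe_le_coe.2 (hmin k ⟨c, hk, hc⟩)
  · have hne := hv.ne_zero hc0
    have h4 := (hv.div_nonneg (a := c) hne (by rw [hc0]; exact hc)).1
    have h5 := h1 _ _ h4 hT
    rwa [mul_assoc, inv_mul_cancel₀ hne, mul_one] at h5

/-- a value which is not at least `m` -/
private lemma unp_not_le (hv : IsCDV K v) {m : ℤ} {c : K} (h : ¬ (m : WithTop ℤ) ≤ v c) :
    c ≠ 0 ∧ ∃ k : ℤ, v c = (k : WithTop ℤ) ∧ k < m := by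
  have hc : c ≠ 0 := by
    rintro rfl
    apply h
    rw [hv.zero]
    exact le_top
  obtain ⟨k, hk⟩ := hv.ex hc
  rw [hk, WithTop.coe_le_coe] at h
  exact ⟨hc, k, hk, by omega⟩

/-- `K ε_i` -/
def kax (hv : IsCDV K v) (i : Fin 3) : MM hv 3 where
  carrier := {x | ∀ k, k ≠ i → x k = 0}
  add_mem' := by
    intro x y hx hy k hk
    show x k + y k = 0
    rw [hx k hk, hy k hk, add_zero]
  zero_mem' := by
    intro k _
    rfl
  smul_mem' := by
    intro a x hx k hk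
    rw [OO_smul, hx k hk, mul_zero]

/-- the hyperplane `x_j = 0` -/
def khy (hv : IsCDV K v) (j : Fin 3) : MM hv 3 where
  carrier := {x | x j = 0}
  add_mem' := by
    intro x y hx hy
    have hx' : x j = 0 := hx
    have hy' : y j = 0 := hy
    show x j + y j = 0
    rw [hx', hy', add_zero]
  zero_mem' := by
    show (0 : Fin 3 → K) j = 0
    rfl
  smul_mem' := by
    intro a x hx
    have hx' : x j = 0 := hx
    show (a • x) j = 0
    rw [OO_smul, hx', mul_zero]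

theorem mem_kax (hv : IsCDV K v) (i : Fin 3) (x : Fin 3 → K) :
    x ∈ kax hv i ↔ ∀ k, k ≠ i → x k = 0 := Iff.rfl

theorem mem_khy (hv : IsCDV K v) (j : Fin 3) (x : Fin 3 → K) : x ∈ khy hv j ↔ x j = 0 := Iff.rfl

private lemma unp_sg_mono (hv : IsCDV K v) {N M : MM hv 3} (h : N ≤ M) : sg hv N ≤ sg hv M :=
  (sg_le_sg hv).2 h

private lemma unp_dn_le (hv : IsCDV K v) (N : MM hv 3) : dn hv N ≤ N := by
  have h := le_sg hv (dn hv N)
  rwa [sg_dn] at h

private def unp_sgO (hv : IsCDV K v) : MM hv 3 ≃o MM hv 3 where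
  toFun := sg hv
  invFun := dn hv
  left_inv := dn_sg hv
  right_inv := sg_dn hv
  map_rel_iff' := by
    intro N M
    exact sg_le_sg hv

private lemma unp_sg_sup (hv : IsCDV K v) (A B : MM hv 3) :
    sg hv (A ⊔ B) = sg hv A ⊔ sg hv B := (unp_sgO hv).map_sup A B

private lemma unp_sg_inf (hv : IsCDV K v) (A B : MM hv 3) :
    sg hv (A ⊓ B) = sg hv A ⊓ sg hv B := (unp_sgO hv).map_inf A B

private lemma unp_sg_kax (hv : IsCDV K v) (i : Fin 3) : sg hv (kax hv i) = kax hv i := by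
  obtain ⟨p, hp⟩ := hv.surj
  have hp0 : p ≠ 0 := hv.ne_zero (m := 1) hp
  ext x
  rw [mem_sg_iff hv hp, mem_kax, mem_kax]
  refine forall_congr' fun k => imp_congr_right fun _ => ?_
  exact ⟨fun h => (mul_eq_zero.1 h).resolve_left hp0, fun h => by rw [h, mul_zero]⟩

private lemma unp_sg_khy (hv : IsCDV K v) (j : Fin 3) : sg hv (khy hv j) = khy hv j := by
  obtain ⟨p, hp⟩ := hv.surj
  have hp0 : p ≠ 0 := hv.ne_zero (m := 1) hp
  ext x
  rw [mem_sg_iff hv hp, mem_khy, mem_khy]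
  exact ⟨fun h => (mul_eq_zero.1 h).resolve_left hp0, fun h => by rw [h, mul_zero]⟩

/-- the exact value on the axis `i` -/
private def unp_P (hv : IsCDV K v) (i : Fin 3) (N : MM hv 3) (m : ℤ) : Prop :=
  ∀ c : K, (Pi.single i c : Fin 3 → K) ∈ N ↔ (m : WithTop ℤ) ≤ v c

private lemma unp_P_ex (hv : IsCDV K v) (i : Fin 3) {N : MM hv 3} (hN : IsLatt hv N) :
    ∃ m, unp_P hv i N m := by
  obtain ⟨m0, h1, h2⟩ := hN
  refine unp_exact hv _ ?_ ⟨m0, fun c hc => h1 fun k => ?_⟩ ⟨-(m0 : ℤ), fun c hc => ?_⟩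
  · intro a c ha hc
    have h := unp_mul hv hc ha
    rwa [unp_mulsingle] at h
  · by_cases hk : k = i
    · subst hk
      rw [Pi.single_eq_same]
      exact hc
    · rw [Pi.single_eq_of_ne hk, hv.zero]
      exact le_top
  · have h := h2 hc i
    rwa [Pi.single_eq_same] at h

private lemma unp_P_sg (hv : IsCDV K v) {i : Fin 3} {N : MM hv 3} {m : ℤ}
    (h : unp_P hv i N m) : unp_P hv i (sg hv N) (m - 1) := by
  obtain ⟨p, hp⟩ := hv.surj
  intro c
  rw [mem_sg_iff hv hp, unp_mulsingle, h]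
  exact hv.le_mul_left (m := 1) hp

private lemma unp_P_f (hv : IsCDV K v) {i : Fin 3} {N : MM hv 3} {m : ℤ}
    (h : unp_P hv i N m) : unp_P hv i (N ⊔ (kax hv i ⊓ sg hv N)) (m - 1) := by
  intro c
  constructor
  · intro hc
    obtain ⟨y, hy, z, hz, hyz⟩ := Submodule.mem_sup.1 hc
    have hzk := hz.1
    have hyk : ∀ k, k ≠ i → y k = 0 := by
      intro k hk
      have h1 := congrFun hyz k
      rw [Pi.single_eq_of_ne hk] at h1
      have h2 : y k + z k = 0 := h1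
      rwa [(mem_kax hv i z).1 hzk k hk, add_zero] at h2
    rw [unp_single hyk] at hy
    have h3 := (h _).1 hy
    have hz2 := hz.2
    rw [unp_single ((mem_kax hv i z).1 hzk)] at hz2
    have h4 := ((unp_P_sg hv h) _).1 hz2
    have h5 : c = y i + z i := by
      have h6 := congrFun hyz i
      rw [Pi.single_eq_same] at h6
      exact h6.symm
    rw [h5]
    refine (le_min ?_ h4).trans (hv.add _ _)
    exact (WithTop.coe_le_coe.2 (by omega)).trans h3
  · intro hc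
    refine Submodule.mem_sup_right ⟨?_, ((unp_P_sg hv h) c).2 hc⟩
    intro k hk
    exact Pi.single_eq_of_ne hk _

private lemma unp_f_lt (hv : IsCDV K v) {i : Fin 3} {N : MM hv 3} {m : ℤ}
    (h : unp_P hv i N m) : N < N ⊔ (kax hv i ⊓ sg hv N) := by
  refine lt_of_le_of_ne le_sup_left fun he => ?_
  obtain ⟨c, hc⟩ := hv.exists_val (m - 1)
  have h1 := (unp_P_f hv h c).2 hc.ge
  rw [← he, h c, hc, WithTop.coe_le_coe] at h1
  omega

private lemma unp_f_cov (hv : IsCDV K v) {i : Fin 3} {N M : MM hv 3} {m : ℤ}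
    (h : unp_P hv i N m) (h1 : N < M) (h2 : M ≤ N ⊔ (kax hv i ⊓ sg hv N)) :
    N ⊔ (kax hv i ⊓ sg hv N) ≤ M := by
  obtain ⟨x, hxM, hxN⟩ := SetLike.exists_of_lt h1
  obtain ⟨y, hy, z, hz, hyz⟩ := Submodule.mem_sup.1 (h2 hxM)
  have hzM : z ∈ M := by
    have h3 : z = x - y := by rw [← hyz, add_sub_cancel_left]
    rw [h3]
    exact M.sub_mem hxM (h1.le hy)
  have hzN : z ∉ N := by
    intro h3
    apply hxN
    rw [← hyz]
    exact N.add_mem hy h3
  have hzs := unp_single ((mem_kax hv i z).1 hz.1)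
  have h3 : ¬ (m : WithTop ℤ) ≤ v (z i) := by
    intro h4
    apply hzN
    rw [hzs]
    exact (h _).2 h4
  obtain ⟨hne, k, hk, hkm⟩ := unp_not_le hv h3
  refine sup_le h1.le fun w hw => ?_
  have hws := unp_single ((mem_kax hv i w).1 hw.1)
  have hw2 := hw.2
  rw [hws] at hw2
  have h4 := ((unp_P_sg hv h) _).1 hw2
  have h5 : v (z i) ≤ v (w i) := by
    rw [hk]
    exact (WithTop.coe_le_coe.2 (by omega)).trans h4
  have h6 := unp_mul hv hzM (hv.div_nonneg hne h5).1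
  rw [hzs, unp_mulsingle, Pi.single_eq_same, mul_assoc, inv_mul_cancel₀ hne, mul_one] at h6
  rwa [← hws] at h6

private lemma unp_f_str (hv : IsCDV K v) {i : Fin 3} {N F : MM hv 3} {m : ℤ}
    (h : unp_P hv i N m) (hF : F = N ⊔ (kax hv i ⊓ sg hv N)) :
    ¬ F ⊔ (kax hv i ⊓ sg hv F) ≤ sg hv N := by
  intro hle
  have hF1 : unp_P hv i F (m - 1) := by
    rw [hF]
    exact unp_P_f hv h
  obtain ⟨c, hc⟩ := hv.exists_val (m - 1 - 1)
  have h1 := hle ((unp_P_f hv hF1 c).2 hc.ge)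
  rw [unp_P_sg hv h c, hc, WithTop.coe_le_coe] at h1
  omega

/-- the exact value of the coordinate `j` -/
private def unp_L (hv : IsCDV K v) (j : Fin 3) (N : MM hv 3) (m : ℤ) : Prop :=
  ∀ c : K, (∃ y ∈ N, y j = c) ↔ (m : WithTop ℤ) ≤ v c

private lemma unp_L_ex (hv : IsCDV K v) (j : Fin 3) {N : MM hv 3} (hN : IsLatt hv N) :
    ∃ m, unp_L hv j N m := by
  obtain ⟨m0, h1, h2⟩ := hN
  refine unp_exact hv _ ?_ ⟨m0, fun c hc => ⟨(Pi.single j c : Fin 3 → K), h1 fun k => ?_, by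
    rw [Pi.single_eq_same]⟩⟩ ⟨-(m0 : ℤ), ?_⟩
  · rintro a c ha ⟨y, hy, rfl⟩
    exact ⟨_, unp_mul hv hy ha, rfl⟩
  · by_cases hk : k = j
    · subst hk
      rw [Pi.single_eq_same]
      exact hc
    · rw [Pi.single_eq_of_ne hk, hv.zero]
      exact le_top
  · rintro c ⟨y, hy, rfl⟩
    exact h2 hy j

private lemma unp_mem_h (hv : IsCDV K v) {j : Fin 3} {N : MM hv 3} {m : ℤ}
    (h : unp_L hv j N m) (x : Fin 3 → K) :
    x ∈ (N ⊓ khy hv j) ⊔ dn hv N ↔ x ∈ N ∧ ((m + 1 : ℤ) : WithTop ℤ) ≤ v (x j) := by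
  obtain ⟨p, hp⟩ := hv.surj
  have hpi : v p⁻¹ = ((-1 : ℤ) : WithTop ℤ) := hv.inv (m := 1) hp
  constructor
  · intro hx
    obtain ⟨y, hy, z, hz, rfl⟩ := Submodule.mem_sup.1 hx
    refine ⟨N.add_mem hy.1 (unp_dn_le hv N hz), ?_⟩
    have h1 : y j = 0 := hy.2
    show _ ≤ v (y j + z j)
    rw [h1, zero_add]
    rw [mem_dn_iff hv hp] at hz
    have h2 := (h _).1 ⟨_, hz, rfl⟩
    have h3 := (hv.le_mul_left hpi).1 h2
    rwa [sub_neg_eq_add] at h3
  · rintro ⟨hx, hxj⟩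
    obtain ⟨c0, hc0⟩ := hv.exists_val m
    obtain ⟨y, hy, hyj⟩ := (h c0).2 hc0.ge
    have hne := hv.ne_zero hc0
    have ha : ((1 : ℤ) : WithTop ℤ) ≤ v (x j * c0⁻¹) := by
      rw [hv.le_mul_right (hv.inv hc0), sub_neg_eq_add, add_comm]
      exact hxj
    have ha0 : (0 : WithTop ℤ) ≤ v (x j * c0⁻¹) :=
      le_trans (show ((0 : ℤ) : WithTop ℤ) ≤ ((1 : ℤ) : WithTop ℤ) from
        WithTop.coe_le_coe.2 (by omega)) ha
    have hz : (fun k => x j * c0⁻¹ * y k) ∈ N := unp_mul hv hy ha0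
    have hz' : (fun k => x j * c0⁻¹ * y k) ∈ dn hv N := by
      rw [mem_dn_iff hv hp]
      have h3 : (0 : WithTop ℤ) ≤ v (p⁻¹ * (x j * c0⁻¹)) := by
        have h4 := (hv.le_mul_left (a := x j * c0⁻¹) (k := 0) hpi).2 (by
          rw [zero_sub, neg_neg]
          exact ha)
        exact h4
      have h5 := unp_mul hv hy h3
      have h6 : (fun k => p⁻¹ * (x j * c0⁻¹ * y k)) = fun k => p⁻¹ * (x j * c0⁻¹) * y k := by
        funext k
        rw [mul_assoc p⁻¹]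
      rw [h6]
      exact h5
    have h7 : x = (x - fun k => x j * c0⁻¹ * y k) + fun k => x j * c0⁻¹ * y k := by
      rw [sub_add_cancel]
    rw [h7]
    refine Submodule.add_mem_sup ⟨N.sub_mem hx hz, ?_⟩ hz'
    show x j - x j * c0⁻¹ * y j = 0
    rw [hyj, mul_assoc, inv_mul_cancel₀ hne, mul_one, sub_self]

private lemma unp_h_le (hv : IsCDV K v) (j : Fin 3) (N : MM hv 3) :
    (N ⊓ khy hv j) ⊔ dn hv N ≤ N := sup_le inf_le_left (unp_dn_le hv N)

private lemma unp_L_h (hv : IsCDV K v) {j : Fin 3} {N : MM hv 3} {m : ℤ}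
    (h : unp_L hv j N m) : unp_L hv j ((N ⊓ khy hv j) ⊔ dn hv N) (m + 1) := by
  intro c
  constructor
  · rintro ⟨y, hy, rfl⟩
    exact ((unp_mem_h hv h y).1 hy).2
  · intro hc
    obtain ⟨y, hy, rfl⟩ := (h c).2 ((WithTop.coe_le_coe.2 (by omega)).trans hc)
    exact ⟨y, (unp_mem_h hv h y).2 ⟨hy, hc⟩, rfl⟩

private lemma unp_h_lt (hv : IsCDV K v) {j : Fin 3} {N : MM hv 3} {m : ℤ}
    (h : unp_L hv j N m) : (N ⊓ khy hv j) ⊔ dn hv N < N := by
  refine lt_of_le_of_ne (unp_h_le hv j N) fun he => ?_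
  obtain ⟨c, hc⟩ := hv.exists_val m
  have h1 := (h c).2 hc.ge
  rw [← he, unp_L_h hv h c, hc, WithTop.coe_le_coe] at h1
  omega

private lemma unp_h_cov (hv : IsCDV K v) {j : Fin 3} {N M : MM hv 3} {m : ℤ}
    (h : unp_L hv j N m) (h1 : (N ⊓ khy hv j) ⊔ dn hv N < M) (h2 : M ≤ N) : N ≤ M := by
  obtain ⟨x, hxM, hx⟩ := SetLike.exists_of_lt h1
  have h3 : ¬ ((m + 1 : ℤ) : WithTop ℤ) ≤ v (x j) := fun h4 =>
    hx ((unp_mem_h hv h x).2 ⟨h2 hxM, h4⟩)
  obtain ⟨hne, k, hk, hkm⟩ := unp_not_le hv h3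
  intro y hy
  have h4 : v (x j) ≤ v (y j) := by
    rw [hk]
    exact (WithTop.coe_le_coe.2 (by omega)).trans ((h _).1 ⟨y, hy, rfl⟩)
  have h5 := (hv.div_nonneg hne h4).1
  have h6 : (fun k => y j * (x j)⁻¹ * x k) ∈ M := unp_mul hv hxM h5
  have h7 : y = (y - fun k => y j * (x j)⁻¹ * x k) + fun k => y j * (x j)⁻¹ * x k := by
    rw [sub_add_cancel]
  rw [h7]
  refine M.add_mem (h1.le (Submodule.mem_sup_left ⟨N.sub_mem hy (h2 h6), ?_⟩)) h6
  show y j - y j * (x j)⁻¹ * x j = 0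
  rw [mul_assoc, inv_mul_cancel₀ hne, mul_one, sub_self]

private lemma unp_h_str (hv : IsCDV K v) {j : Fin 3} {N F : MM hv 3} {m : ℤ}
    (h : unp_L hv j N m) (hF : F = (N ⊓ khy hv j) ⊔ dn hv N) :
    ¬ dn hv N ≤ (F ⊓ khy hv j) ⊔ dn hv F := by
  intro hle
  obtain ⟨p, hp⟩ := hv.surj
  have hp0 : p ≠ 0 := hv.ne_zero (m := 1) hp
  obtain ⟨c, hc⟩ := hv.exists_val m
  obtain ⟨y, hy, hyj⟩ := (h c).2 hc.ge
  have h1 : (fun k => p * y k) ∈ dn hv N := by
    rw [mem_dn_iff hv hp]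
    have h2 : (fun k => p⁻¹ * (p * y k)) = y := by
      funext k
      rw [inv_mul_cancel_left₀ hp0]
    rw [h2]
    exact hy
  have hF1 : unp_L hv j F (m + 1) := by
    rw [hF]
    exact unp_L_h hv h
  have h3 := ((unp_mem_h hv hF1 _).1 (hle h1)).2
  have h4 : v (p * y j) = ((1 + m : ℤ) : WithTop ℤ) := by
    rw [hv.mul, hyj, hc, hp]
    rfl
  have h5 : ((m + 1 + 1 : ℤ) : WithTop ℤ) ≤ v (p * y j) := h3
  rw [h4, WithTop.coe_le_coe] at h5
  omega

private lemma unp_latt_f (hv : IsCDV K v) (i : Fin 3) {N : MM hv 3} (hN : IsLatt hv N) :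
    IsLatt hv (N ⊔ (kax hv i ⊓ sg hv N)) :=
  hN.of_le hN.sg le_sup_left (sup_le (le_sg hv N) inf_le_right)

private lemma unp_latt_h (hv : IsCDV K v) (j : Fin 3) {N : MM hv 3} (hN : IsLatt hv N) :
    IsLatt hv ((N ⊓ khy hv j) ⊔ dn hv N) :=
  hN.dn.of_le hN le_sup_right (unp_h_le hv j N)

private lemma unp_isEnd (hv : IsCDV K v) (i : Fin 3) : IsEnd (sgI hv)
    (fun N : LL hv => (⟨N.1 ⊔ (kax hv i ⊓ sg hv N.1), unp_latt_f hv i N.2⟩ : LL hv)) := by
  refine ⟨?_, ?_, ?_, ?_⟩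
  · intro N M h
    have h' : N.1 ≤ M.1 := h
    have h2 : N.1 ⊔ (kax hv i ⊓ sg hv N.1) ≤ M.1 ⊔ (kax hv i ⊓ sg hv M.1) :=
      sup_le_sup h' (inf_le_inf_left _ (unp_sg_mono hv h'))
    exact h2
  · intro N
    obtain ⟨m, hm⟩ := unp_P_ex hv i N.2
    constructor
    · have h := unp_f_lt hv hm
      exact h
    · intro M h1 h2
      have h3 : N.1 < M.1 := h1
      have h4 : M.1 ≤ N.1 ⊔ (kax hv i ⊓ sg hv N.1) := h2.le
      have h5 : N.1 ⊔ (kax hv i ⊓ sg hv N.1) ≤ M.1 := unp_f_cov hv hm h3 h4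
      exact h2.not_ge h5
  · intro N hle
    obtain ⟨m, hm⟩ := unp_P_ex hv i N.2
    exact unp_f_str hv hm rfl hle
  · intro N
    apply Subtype.ext
    show sg hv N.1 ⊔ (kax hv i ⊓ sg hv (sg hv N.1)) = sg hv (N.1 ⊔ (kax hv i ⊓ sg hv N.1))
    rw [unp_sg_sup, unp_sg_inf, unp_sg_kax]

private lemma unp_isCo (hv : IsCDV K v) (j : Fin 3) : IsCo (sgI hv)
    (fun N : LL hv => (⟨(N.1 ⊓ khy hv j) ⊔ dn hv N.1, unp_latt_h hv j N.2⟩ : LL hv)) := by
  refine ⟨?_, ?_, ?_, ?_⟩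
  · intro N M h
    have h' : N.1 ≤ M.1 := h
    have h2 : (N.1 ⊓ khy hv j) ⊔ dn hv N.1 ≤ (M.1 ⊓ khy hv j) ⊔ dn hv M.1 :=
      sup_le_sup (inf_le_inf_right _ h') ((dn_le_dn hv).2 h')
    exact h2
  · intro N
    obtain ⟨m, hm⟩ := unp_L_ex hv j N.2
    constructor
    · have h := unp_h_lt hv hm
      exact h
    · intro M h1 h2
      have h3 : (N.1 ⊓ khy hv j) ⊔ dn hv N.1 < M.1 := h1
      have h4 : M.1 ≤ N.1 := h2.le
      have h5 : N.1 ≤ M.1 := unp_h_cov hv hm h3 h4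
      exact h2.not_ge h5
  · intro N hle
    obtain ⟨m, hm⟩ := unp_L_ex hv j N.2
    exact unp_h_str hv hm rfl hle
  · intro N
    apply Subtype.ext
    show (sg hv N.1 ⊓ khy hv j) ⊔ dn hv (sg hv N.1) = sg hv ((N.1 ⊓ khy hv j) ⊔ dn hv N.1)
    rw [unp_sg_sup, unp_sg_inf, unp_sg_khy, dn_sg, sg_dn]

/-- the point `K ε_i` at infinity -/
def Ept (hv : IsCDV K v) (i : Fin 3) : Pt (sgI hv) :=
  ⟨fun N => ⟨N.1 ⊔ (kax hv i ⊓ sg hv N.1), by
    exact unp_latt_f hv i N.2⟩, by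
    exact unp_isEnd hv i⟩

/-- the line `x_j = 0` at infinity -/
def Hln (hv : IsCDV K v) (j : Fin 3) : Ln (sgI hv) :=
  ⟨fun N => ⟨(N.1 ⊓ khy hv j) ⊔ dn hv N.1, by
    exact unp_latt_h hv j N.2⟩, by
    exact unp_isCo hv j⟩

theorem ept_val (hv : IsCDV K v) (i : Fin 3) (N : LL hv) :
    ((Ept hv i).1 N).1 = N.1 ⊔ (kax hv i ⊓ sg hv N.1) := rfl

theorem hln_val (hv : IsCDV K v) (j : Fin 3) (N : LL hv) :
    ((Hln hv j).1 N).1 = (N.1 ⊓ khy hv j) ⊔ dn hv N.1 := rfl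

private lemma unp_far (hv : IsCDV K v) (i : Fin 3) :
    ¬ (Ept hv i).1 (oo hv) ≤ (Hln hv i).1 (sgI hv (oo hv)) := by
  intro hle
  have h0 : unp_P hv i (ball hv 3 0) 0 := by
    intro c
    constructor
    · intro h
      have h1 := h i
      rwa [Pi.single_eq_same] at h1
    · intro h k
      by_cases hk : k = i
      · subst hk
        rw [Pi.single_eq_same]
        exact h
      · rw [Pi.single_eq_of_ne hk, hv.zero]
        exact le_top
  obtain ⟨c, hc⟩ := hv.exists_val (0 - 1)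
  have h1 : (Pi.single i c : Fin 3 → K) ∈
      (sg hv (ball hv 3 0) ⊓ khy hv i) ⊔ dn hv (sg hv (ball hv 3 0)) :=
    hle ((unp_P_f hv h0 c).2 hc.ge)
  rw [dn_sg] at h1
  obtain ⟨y, hy, z, hz, hyz⟩ := Submodule.mem_sup.1 h1
  have h2 : y i = 0 := hy.2
  have h3 : z i = c := by
    have h4 := congrFun hyz i
    rw [Pi.single_eq_same] at h4
    have h5 : y i + z i = c := h4
    rwa [h2, zero_add] at h5
  have h6 := hz i
  rw [h3, hc, WithTop.coe_le_coe] at h6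
  omega

theorem inc_model (hv : IsCDV K v) (i j : Fin 3) :
    Inc (s := sgI hv) (Ept hv i) (Hln hv j) ↔ i ≠ j := by
  constructor
  · rintro h rfl
    exact unp_far hv i (h (oo hv))
  · intro hij N
    show N.1 ⊔ (kax hv i ⊓ sg hv N.1) ≤ (sg hv N.1 ⊓ khy hv j) ⊔ dn hv (sg hv N.1)
    rw [dn_sg]
    refine sup_le le_sup_right (le_sup_of_le_left (le_inf inf_le_right ?_))
    intro x hx
    exact hx.1 j hij.symm

/-- the standard triangle -/
def stF (hv : IsCDV K v) : Frame (Inc (s := sgI hv)) where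
  e := Ept hv
  l := Hln hv
  inc := inc_model hv

theorem stF_far (hv : IsCDV K v) : FarF (oo hv) (stF hv) := fun i => unp_far hv i

/-- the lattice of the `x` with `v (x k) ≥ a k` -/
def dgm (hv : IsCDV K v) (a : Fin 3 → ℤ) : LL hv :=
  ⟨{ carrier := {x | ∀ k, ((a k : ℤ) : WithTop ℤ) ≤ v (x k)}
     add_mem' := by
       intro x y hx hy k
       exact (le_min (hx k) (hy k)).trans (hv.add _ _)
     zero_mem' := by
       intro k
       show _ ≤ v 0
       rw [hv.zero]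
       exact le_top
     smul_mem' := by
       intro c x hx k
       rw [OO_smul, hv.mul]
       have h1 : (0 : WithTop ℤ) ≤ v (c : K) := c.2
       calc ((a k : ℤ) : WithTop ℤ) = 0 + ((a k : ℤ) : WithTop ℤ) := (zero_add _).symm
         _ ≤ v (c : K) + v (x k) := add_le_add h1 (hx k) }, by
    refine ⟨∑ k, (a k).natAbs, fun x hx k => ?_, fun x hx k => ?_⟩
    · have h1 : (a k).natAbs ≤ ∑ k, (a k).natAbs :=
        Finset.single_le_sum (f := fun k => (a k).natAbs) (fun _ _ => Nat.zero_le _)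
          (Finset.mem_univ k)
      exact (WithTop.coe_le_coe.2 (by omega)).trans (hx k)
    · have h1 : (a k).natAbs ≤ ∑ k, (a k).natAbs :=
        Finset.single_le_sum (f := fun k => (a k).natAbs) (fun _ _ => Nat.zero_le _)
          (Finset.mem_univ k)
      exact (WithTop.coe_le_coe.2 (by omega)).trans (hx k)⟩

theorem mem_dgm (hv : IsCDV K v) (a : Fin 3 → ℤ) (x : Fin 3 → K) :
    x ∈ (dgm hv a).1 ↔ ∀ k, ((a k : ℤ) : WithTop ℤ) ≤ v (x k) := Iff.rfl

theorem dgm_zero (hv : IsCDV K v) : dgm hv (fun _ => 0) = oo hv := by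
  apply Subtype.ext
  ext x
  exact Iff.rfl

private lemma unp_step (hv : IsCDV K v) (i : Fin 3) (a : Fin 3 → ℤ) :
    (Ept hv i).1 (dgm hv a) = dgm hv (fun k => if k = i then a k - 1 else a k) := by
  obtain ⟨p, hp⟩ := hv.surj
  apply Subtype.ext
  rw [ept_val]
  apply le_antisymm
  · refine sup_le ?_ ?_
    · intro x hx k
      show ((if k = i then a k - 1 else a k : ℤ) : WithTop ℤ) ≤ v (x k)
      refine (WithTop.coe_le_coe.2 ?_).trans (hx k)
      split_ifs <;> omega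
    · rintro x ⟨hx1, hx2⟩ k
      show ((if k = i then a k - 1 else a k : ℤ) : WithTop ℤ) ≤ v (x k)
      by_cases hk : k = i
      · rw [if_pos hk]
        have h1 := (mem_sg_iff hv hp).1 hx2 k
        exact (hv.le_mul_left (m := 1) hp).1 h1
      · rw [if_neg hk, hx1 k hk, hv.zero]
        exact le_top
  · intro x hx
    have hx' : ∀ k, ((if k = i then a k - 1 else a k : ℤ) : WithTop ℤ) ≤ v (x k) := hx
    have h1 : x = (x - Pi.single i (x i)) + Pi.single i (x i) := by rw [sub_add_cancel]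
    rw [h1]
    refine Submodule.add_mem_sup (fun k => ?_) ⟨fun k hk => Pi.single_eq_of_ne hk _, ?_⟩
    · show _ ≤ v (x k - (Pi.single i (x i) : Fin 3 → K) k)
      by_cases hk : k = i
      · subst hk
        rw [Pi.single_eq_same, sub_self, hv.zero]
        exact le_top
      · rw [Pi.single_eq_of_ne hk, sub_zero]
        have h2 := hx' k
        rwa [if_neg hk] at h2
    · rw [SetLike.mem_coe, mem_sg_iff hv hp, unp_mulsingle]
      intro k
      by_cases hk : k = i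
      · subst hk
        rw [Pi.single_eq_same]
        have h2 := hx' k
        rw [if_pos rfl] at h2
        exact (hv.le_mul_left (m := 1) hp).2 h2
      · rw [Pi.single_eq_of_ne hk, hv.zero]
        exact le_top

theorem ept_dgm (hv : IsCDV K v) (i : Fin 3) (a : Fin 3 → ℤ) (n : ℕ) :
    (Ept hv i).1^[n] (dgm hv a) = dgm hv (fun k => if k = i then a k - n else a k) := by
  induction n with
  | zero =>
    show dgm hv a = _
    congr 1
    funext k
    simp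
  | succ n ih =>
    rw [Function.iterate_succ_apply', ih, unp_step]
    congr 1
    funext k
    by_cases hk : k = i
    · simp only [hk, if_true]
      push_cast
      ring
    · simp only [hk, if_false]

end Pool.Agent.PLB
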