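import Pool.Agent.PLB.UnU
import Pool.Agent.PLB.ElaB

set_option autoImplicit false

/-! Theorem PB, the model: the transvections represent all residue classes of `U 0 2`.

Let `z = Ept 2 oo`. The image `t z` is a cover of `oo` in `{v ≥ -1}` with integral middle
coordinate, different from `Ept 0 oo`; so it contains some `w` with `v (w 2) = -1`. Comparing it
with the image of `z` under a transvection gives `a`. -/

namespace Pool.Agent.PLB

open Pool.Agent.Helper87.ML Pool.Agent.Helper87.ML2 Pool.Agent.RIG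
open scoped commutatorElement

universe u

variable {K : Type u} [DivisionRing K] {v : K → WithTop ℤ} {hv : IsCDV K v}
  [PB (LL hv) (sgI hv)]

omit [PB (LL hv) (sgI hv)] in
private theorem unr_e (i : Fin 3) (x : Fin 3 → K) : x ∈ ((Ept hv i).1 (oo hv)).1 ↔
    ∀ k, (((if k = i then -1 else 0) : ℤ) : WithTop ℤ) ≤ v (x k) := by
  have h := ept_dgm hv i (fun _ => 0) 1
  rw [dgm_zero] at h
  have h' : (Ept hv i).1 (oo hv) =
      dgm hv (fun k => if k = i then (0 : ℤ) - ((1 : ℕ) : ℤ) else 0) := h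
  rw [h', mem_dgm]
  refine forall_congr' fun k => ?_
  by_cases hk : k = i
  · rw [if_pos hk, if_pos hk]
    exact Iff.rfl
  · rw [if_neg hk, if_neg hk]

omit [PB (LL hv) (sgI hv)] in
private theorem unr_oo (x : Fin 3 → K) : x ∈ (oo hv).1 ↔ ∀ k, 0 ≤ v (x k) := Iff.rfl

omit [PB (LL hv) (sgI hv)] in
private theorem unr_h {w : Fin 3 → K} (j : Fin 3)
    (hw : w ∈ ((Hln hv j).1 (sgI hv (oo hv))).1) :
    0 ≤ v (w j) ∧ ∀ k, ((-1 : ℤ) : WithTop ℤ) ≤ v (w k) := by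
  obtain ⟨p, hp⟩ := hv.surj
  have hp' : v p = ((1 : ℤ) : WithTop ℤ) := hp
  rw [hln_val] at hw
  have e : dn hv (sgI hv (oo hv)).1 = (oo hv).1 := dn_sg hv _
  rw [e] at hw
  obtain ⟨y, hy, z, hz, rfl⟩ := Submodule.mem_sup.1 hw
  have hz' := (unr_oo z).1 hz
  have hy1 : y ∈ sg hv (oo hv).1 := hy.1
  have hy2 : y j = 0 := hy.2
  rw [mem_sg_iff hv hp] at hy1
  have hy3 : ∀ k, ((-1 : ℤ) : WithTop ℤ) ≤ v (y k) := by
    intro k
    have h1 : ((0 : ℤ) : WithTop ℤ) ≤ v (p * y k) := (unr_oo _).1 hy1 k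
    have h2 := (hv.le_mul_left hp').1 h1
    exact h2
  constructor
  · change 0 ≤ v (y j + z j)
    rw [hy2, zero_add]
    exact hz' j
  · intro k
    change ((-1 : ℤ) : WithTop ℤ) ≤ v (y k + z k)
    have h1 : ((-1 : ℤ) : WithTop ℤ) ≤ v (z k) := by
      refine le_trans ?_ (hz' k)
      have h2 : (((-1 : ℤ) : ℤ) : WithTop ℤ) ≤ ((0 : ℤ) : WithTop ℤ) :=
        WithTop.coe_le_coe.2 (by norm_num)
      exact h2
    exact (le_min (hy3 k) h1).trans (hv.add _ _)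

theorem res_surj (h02 : (0 : Fin 3) ≠ 2) {t : Gp (LL hv)}
    (ht : t ∈ U (Gp (LL hv)) (stF hv) 0 2)
    (h : Fx (oo hv) ((stF hv).e 0) ((stF hv).l 2) 0 t) :
    ∃ a : K, 0 ≤ v a ∧
      Fx (oo hv) ((stF hv).e 0) ((stF hv).l 2) 1 (t * (ug hv h02 a)⁻¹) := by
  haveI : Nonempty (LL hv) := ⟨oo hv⟩
  have hM : MP (Gp (LL hv)) (Inc (s := sgI hv)) := mp (sgI hv)
  have hmu0 : ∀ f : Pt (sgI hv), mu (oo hv) f (oo hv) = 0 := fun f => (mu_spec (oo hv) f).2
  have hnu0 : ∀ l : Ln (sgI hv), nu (oo hv) l (oo hv) = 0 := fun l => (nu_spec (oo hv) l).2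
  have inc02 : Inc (s := sgI hv) ((stF hv).e 0) ((stF hv).l 2) := ((stF hv).inc 0 2).2 h02
  -- `t` fixes `oo`
  have hto : (t : LL hv ≃o LL hv) (oo hv) = oo hv := by
    apply h
    rw [hmu0, hnu0]
    norm_num
  have hte0 : t • (stF hv).e 0 = (stF hv).e 0 := ht.1 _ inc02
  have htl1 : t • (stF hv).l 1 = (stF hv).l 1 :=
    ht.2 _ (((stF hv).inc 0 1).2 (by decide))
  have hI : Inc (s := sgI hv) (t • (stF hv).e 2) ((stF hv).l 1) := by
    have h1 := (hM.inc t ((stF hv).e 2) ((stF hv).l 1)).2 (((stF hv).inc 2 1).2 (by decide))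
    rwa [htl1] at h1
  obtain ⟨z, hz⟩ : ∃ z, z = ((stF hv).e 2).1 (oo hv) := ⟨_, rfl⟩
  have htz : (t : LL hv ≃o LL hv) z = (t • (stF hv).e 2).1 (oo hv) := by
    have h1 := smul_apply (s := sgI hv) (t : LL hv ≃o LL hv) ((stF hv).e 2) (oo hv)
    rw [hto] at h1
    rw [hz]
    exact h1.symm
  have hte : (t : LL hv ≃o LL hv) (((stF hv).e 0).1 (oo hv)) = ((stF hv).e 0).1 (oo hv) := by
    have h1 := smul_apply (s := sgI hv) (t : LL hv ≃o LL hv) ((stF hv).e 0) (oo hv)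
    rw [hto] at h1
    have h2 : (t : LL hv ≃o LL hv) • (stF hv).e 0 = (stF hv).e 0 := hte0
    rw [h2] at h1
    exact h1.symm
  have hzcov : oo hv ⋖ z := by
    rw [hz]
    exact ((stF hv).e 2).2.cov _
  have htzcov : oo hv ⋖ (t : LL hv ≃o LL hv) z := by
    rw [htz]
    exact (t • (stF hv).e 2).2.cov _
  have hzne : z ≠ ((stF hv).e 0).1 (oo hv) := by
    intro h1
    have h2 : Far ((stF hv).e 2) ((stF hv).l 2) (oo hv) := stF_far hv 2
    apply h2
    rw [← hz, h1]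
    exact inc02 (oo hv)
  have htzne : (t : LL hv ≃o LL hv) z ≠ ((stF hv).e 0).1 (oo hv) := by
    intro h1
    rw [← hte] at h1
    exact hzne ((t : LL hv ≃o LL hv).injective h1)
  have hmem : ∀ w ∈ ((t : LL hv ≃o LL hv) z).1, 0 ≤ v (w 1) ∧
      ∀ k, ((-1 : ℤ) : WithTop ℤ) ≤ v (w k) := by
    intro w hw
    have h1 : (t : LL hv ≃o LL hv) z ≤ ((stF hv).l 1).1 (sgI hv (oo hv)) := by
      rw [htz]
      exact hI (oo hv)
    exact unr_h 1 (h1 hw)
  -- an element with last coordinate of value `-1`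
  obtain ⟨w, hw, hw2⟩ : ∃ w ∈ ((t : LL hv ≃o LL hv) z).1, ¬ 0 ≤ v (w 2) := by
    by_contra hcon
    push Not at hcon
    have h1 : (t : LL hv ≃o LL hv) z ≤ ((stF hv).e 0).1 (oo hv) := by
      intro w hw
      have h2 : w ∈ ((Ept hv 0).1 (oo hv)).1 := by
        rw [unr_e]
        intro k
        obtain ⟨h3, h4⟩ := hmem w hw
        fin_cases k
        · exact h4 0
        · exact h3
        · exact hcon w hw
      exact h2
    have h2 : oo hv ⋖ ((stF hv).e 0).1 (oo hv) := ((stF hv).e 0).2.cov _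
    rcases h2.eq_or_eq htzcov.le h1 with h3 | h3
    · exact htzcov.lt.ne' h3
    · exact htzne h3
  have hw20 : w 2 ≠ 0 := by
    intro h1
    apply hw2
    rw [h1, hv.zero]
    exact le_top
  have hvw : v (w 2) = ((-1 : ℤ) : WithTop ℤ) := by
    obtain ⟨m, hm⟩ := hv.ex hw20
    have h1 := (hmem w hw).2 2
    rw [hm, WithTop.coe_le_coe] at h1
    have h2 : ¬ (0 : ℤ) ≤ m := by
      intro h3
      apply hw2
      rw [hm]
      exact WithTop.coe_le_coe.2 h3
    have h3 : m = -1 := by omega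
    rw [hm, h3]
  obtain ⟨p, hp⟩ := hv.surj
  have hp' : v p = ((1 : ℤ) : WithTop ℤ) := hp
  have hp0 : p ≠ 0 := hv.ne_zero hp'
  obtain ⟨c, hc⟩ : ∃ c, c = p⁻¹ * (w 2)⁻¹ := ⟨_, rfl⟩
  have hvc : 0 ≤ v c := by
    rw [hc, hv.mul, hv.inv hp', hv.inv hvw, ← WithTop.coe_add]
    exact le_of_eq rfl
  obtain ⟨w', hw'⟩ : ∃ w' : Fin 3 → K, w' = fun i => c * w i := ⟨_, rfl⟩
  have hw'm : w' ∈ ((t : LL hv ≃o LL hv) z).1 := by
    have h1 := ((t : LL hv ≃o LL hv) z).1.smul_mem (⟨c, hvc⟩ : OO hv) hw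
    have h2 : (⟨c, hvc⟩ : OO hv) • w = w' := by
      rw [hw']
      funext i
      rw [OO_smul]
    rwa [h2] at h1
  have hw'2 : w' 2 = p⁻¹ := by
    rw [hw', hc]
    change p⁻¹ * (w 2)⁻¹ * w 2 = p⁻¹
    rw [mul_assoc, inv_mul_cancel₀ hw20, mul_one]
  obtain ⟨a, ha⟩ : ∃ a, a = p * w' 0 := ⟨_, rfl⟩
  have hva : 0 ≤ v a := by
    have h1 := (hmem w' hw'm).2 0
    rw [ha]
    exact (hv.le_mul_left (k := 0) hp').2 h1
  have hole : oo hv ≤ (t : LL hv ≃o LL hv) z := htzcov.le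
  have hy : (fun k : Fin 3 => if k = 0 then w' 0 else if k = 2 then p⁻¹ else 0) ∈
      ((t : LL hv ≃o LL hv) z).1 := by
    have h1 : (fun k : Fin 3 => if k = 1 then w' 1 else 0) ∈ (oo hv).1 := by
      rw [unr_oo]
      intro k
      by_cases hk : k = 1
      · rw [if_pos hk]
        exact (hmem w' hw'm).1
      · rw [if_neg hk, hv.zero]
        exact le_top
    have h2 := ((t : LL hv ≃o LL hv) z).1.sub_mem hw'm (hole h1)
    have h3 : (w' - fun k : Fin 3 => if k = 1 then w' 1 else 0) =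
        fun k : Fin 3 => if k = 0 then w' 0 else if k = 2 then p⁻¹ else 0 := by
      funext k
      fin_cases k
      · simp
      · simp
      · simp [hw'2]
    rwa [h3] at h2
  -- comparison with the transvection
  have hoa : umI hv h02 a (oo hv) = oo hv := by
    have h1 := (um_dgm hv h02 a (fun _ => 0)).2 (by
      change (((0 : ℤ) - 0 : ℤ) : WithTop ℤ) ≤ v a
      rw [sub_zero]
      exact hva)
    rwa [dgm_zero] at h1
  have hzm : ∀ x : Fin 3 → K, x ∈ z.1 → 0 ≤ v (x 0) ∧ 0 ≤ v (x 1) ∧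
      ((-1 : ℤ) : WithTop ℤ) ≤ v (x 2) := by
    intro x hx
    rw [hz] at hx
    have h1 := (unr_e (hv := hv) 2 x).1 hx
    exact ⟨h1 0, h1 1, h1 2⟩
  have hle : umI hv h02 a z ≤ (t : LL hv ≃o LL hv) z := by
    intro x hx
    have h1 := hzm _ ((mem_um hv h02 a z x).1 hx)
    have h2 : 0 ≤ v (x 0 - x 2 * a) := h1.1
    have h3 : 0 ≤ v (x 1) := h1.2.1
    have h4 : ((-1 : ℤ) : WithTop ℤ) ≤ v (x 2) := h1.2.2
    have h5 : 0 ≤ v (x 2 * p) := (hv.le_mul_right (k := 0) hp').2 h4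
    have h6 := ((t : LL hv ≃o LL hv) z).1.smul_mem (⟨x 2 * p, h5⟩ : OO hv) hy
    have h7 : (fun k : Fin 3 => if k = 0 then x 0 - x 2 * a else if k = 1 then x 1 else 0) ∈
        (oo hv).1 := by
      rw [unr_oo]
      intro k
      fin_cases k
      · exact h2
      · exact h3
      · change 0 ≤ v 0
        rw [hv.zero]
        exact le_top
    have h8 := ((t : LL hv ≃o LL hv) z).1.add_mem h6 (hole h7)
    have h9 : ((⟨x 2 * p, h5⟩ : OO hv) • (fun k : Fin 3 => if k = 0 then w' 0 else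
        if k = 2 then p⁻¹ else 0)) +
        (fun k : Fin 3 => if k = 0 then x 0 - x 2 * a else if k = 1 then x 1 else 0) = x := by
      funext k
      rw [Pi.add_apply, OO_smul]
      fin_cases k
      · change x 2 * p * w' 0 + (x 0 - x 2 * a) = x 0
        rw [ha, mul_assoc, add_sub_cancel]
      · change x 2 * p * 0 + x 1 = x 1
        rw [mul_zero, zero_add]
      · change x 2 * p * p⁻¹ + 0 = x 2
        rw [mul_inv_cancel_right₀ hp0, add_zero]
    rwa [h9] at h8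
  have hacov : oo hv ⋖ umI hv h02 a z := by
    have h1 := (apply_covBy_apply_iff (umI hv h02 a)).2 hzcov
    rwa [hoa] at h1
  have heq : umI hv h02 a z = (t : LL hv ≃o LL hv) z := by
    rcases htzcov.eq_or_eq hacov.le hle with h1 | h1
    · exact absurd h1 hacov.lt.ne'
    · exact h1
  -- conclusion
  have hg : ug hv h02 a ∈ U (Gp (LL hv)) (stF hv) 0 2 := ug_mem h02 a
  have hgi : (ug hv h02 a)⁻¹ ∈ U (Gp (LL hv)) (stF hv) 0 2 := Subgroup.inv_mem _ hg
  have hcomm : t * (ug hv h02 a)⁻¹ = (ug hv h02 a)⁻¹ * t :=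
    tr_comm hM ⟨_, inc02, ht⟩ ⟨_, inc02, hgi⟩
  have hu : t * (ug hv h02 a)⁻¹ ∈ U (Gp (LL hv)) (stF hv) 0 2 := Subgroup.mul_mem _ ht hgi
  have hfix : ((t * (ug hv h02 a)⁻¹ : Gp (LL hv)) : LL hv ≃o LL hv) z = z := by
    rw [hcomm]
    change (umI hv h02 a).symm ((t : LL hv ≃o LL hv) z) = z
    rw [← heq, OrderIso.symm_apply_apply]
  have h1 := (fx_iff (oo hv) inc02 hu z).1 hfix
  have h2 : nu (oo hv) ((stF hv).l 2) z = 1 := by
    have h3 := (far_iff_nu (oo hv) ((stF hv).e 2) ((stF hv).l 2) (oo hv)).1 (stF_far hv 2)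
    rw [hnu0, ← hz] at h3
    rw [h3]
    norm_num
  have h3 : mu (oo hv) ((stF hv).e 0) z = 0 := by
    rcases mu_cov (oo hv) ((stF hv).e 0) hzcov with h4 | h4
    · exact absurd h4.1 hzne
    · rw [h4.2, hmu0]
  rw [h2, h3, sub_zero] at h1
  exact ⟨a, hva, h1⟩

end Pool.Agent.PLB
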