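import Pool.Agent.PLB.UnP

set_option autoImplicit false

/-! Theorem PB, the model: transvections.

`umI hv h a` maps the lattice `N` to its image under `x ↦ x + (x j * a) ε_i`; the rules for sums and commutators, the fixed
lattices, and the two axial properties: if `N` is fixed, then all lattices between `N` and `N + H_j`, and all lattices between
`K ε_i ∩ N` and `N`, are fixed. -/

namespace Pool.Agent.PLB

open Pool.Agent.Helper87.ML Pool.Agent.Helper87.ML2 Pool.Agent.RIG
open scoped commutatorElement

universe u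

variable {K : Type u} [DivisionRing K] {v : K → WithTop ℤ}

/-- the linear map `x ↦ x + (x j * a) ε_i` -/
def tve {i j : Fin 3} (h : i ≠ j) (a : K) : (Fin 3 → K) ≃ₗ[K] (Fin 3 → K) where
  toFun x k := if k = i then x i + x j * a else x k
  invFun x k := if k = i then x i - x j * a else x k
  map_add' := by
    intro x y
    funext k
    show (if k = i then (x i + y i) + (x j + y j) * a else x k + y k) =
      (if k = i then x i + x j * a else x k) + (if k = i then y i + y j * a else y k)
    split_ifs
    · rw [add_mul]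
      abel
    · rfl
  map_smul' := by
    intro c x
    funext k
    show (if k = i then c * x i + c * x j * a else c * x k) =
      c * (if k = i then x i + x j * a else x k)
    split_ifs
    · rw [mul_add, mul_assoc]
    · rfl
  left_inv := by
    intro x
    funext k
    have h' : j ≠ i := Ne.symm h
    by_cases hk : k = i
    · subst hk
      simp [h']
    · simp [hk]
  right_inv := by
    intro x
    funext k
    have h' : j ≠ i := Ne.symm h
    by_cases hk : k = i
    · subst hk
      simp [h']
    · simp [hk]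

/-- the automorphism of the lattice given by `x ↦ x + (x j * a) ε_i` -/
def umI (hv : IsCDV K v) {i j : Fin 3} (h : i ≠ j) (a : K) : LL hv ≃o LL hv where
  toFun N := ⟨cm hv (tve h a).symm N.1, N.2.cm _⟩
  invFun N := ⟨cm hv (tve h a) N.1, N.2.cm _⟩
  left_inv := by
    intro N
    apply Subtype.ext
    ext x
    show (tve h a).symm ((tve h a) x) ∈ N.1 ↔ x ∈ N.1
    rw [LinearEquiv.symm_apply_apply]
  right_inv := by
    intro N
    apply Subtype.ext
    ext x
    show (tve h a) ((tve h a).symm x) ∈ N.1 ↔ x ∈ N.1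
    rw [LinearEquiv.apply_symm_apply]
  map_rel_iff' := by
    intro N M
    exact (cmI hv (tve h a).symm).map_rel_iff' (a := N.1) (b := M.1)

theorem mem_um (hv : IsCDV K v) {i j : Fin 3} (h : i ≠ j) (a : K) (N : LL hv) (x : Fin 3 → K) :
    x ∈ (umI hv h a N).1 ↔ (fun k => if k = i then x i - x j * a else x k) ∈ N.1 := Iff.rfl

/-- `x - (x j * a) ε_i` -/
private def unt_te (i j : Fin 3) (a : K) (x : Fin 3 → K) : Fin 3 → K :=
  fun k => if k = i then x i - x j * a else x k

private theorem unt_mem (hv : IsCDV K v) {i j : Fin 3} (h : i ≠ j) (a : K) (N : LL hv)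
    (x : Fin 3 → K) : x ∈ (umI hv h a N).1 ↔ unt_te i j a x ∈ N.1 := Iff.rfl

private theorem unt_ext (hv : IsCDV K v) {f g : LL hv ≃o LL hv}
    (h : ∀ (N : LL hv) (x : Fin 3 → K), x ∈ (f N).1 ↔ x ∈ (g N).1) : f = g :=
  DFunLike.ext _ _ fun N => Subtype.ext (SetLike.ext fun x => h N x)

private theorem unt_zero (hv : IsCDV K v) {i j : Fin 3} (h : i ≠ j) : umI hv h 0 = 1 := by
  apply unt_ext hv
  intro N x
  show unt_te i j 0 x ∈ N.1 ↔ x ∈ N.1
  have e : unt_te i j 0 x = x := by
    funext k
    unfold unt_te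
    by_cases hk : k = i
    · subst hk
      simp
    · simp [hk]
  rw [e]

theorem um_add (hv : IsCDV K v) {i j : Fin 3} (h : i ≠ j) (a b : K) :
    umI hv h (a + b) = umI hv h a * umI hv h b := by
  apply unt_ext hv
  intro N x
  show unt_te i j (a + b) x ∈ N.1 ↔ unt_te i j b (unt_te i j a x) ∈ N.1
  have e : unt_te i j b (unt_te i j a x) = unt_te i j (a + b) x := by
    have h' : j ≠ i := Ne.symm h
    funext k
    unfold unt_te
    by_cases hk : k = i
    · subst hk
      simp only [if_true, if_neg h']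
      rw [mul_add]
      abel
    · simp [hk]
  rw [e]

private theorem unt_neg (hv : IsCDV K v) {i j : Fin 3} (h : i ≠ j) (a : K) :
    (umI hv h a)⁻¹ = umI hv h (-a) := by
  rw [inv_eq_iff_mul_eq_one, ← um_add, add_neg_cancel, unt_zero]

theorem um_comm (hv : IsCDV K v) {i j k : Fin 3} (hij : i ≠ j) (hjk : j ≠ k) (hik : i ≠ k)
    (a b : K) : ⁅umI hv hij a, umI hv hjk b⁆ = umI hv hik (b * a) := by
  rw [commutatorElement_def, unt_neg, unt_neg]
  apply unt_ext hv
  intro N x
  show unt_te j k (-b) (unt_te i j (-a) (unt_te j k b (unt_te i j a x))) ∈ N.1 ↔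
    unt_te i k (b * a) x ∈ N.1
  have e : unt_te j k (-b) (unt_te i j (-a) (unt_te j k b (unt_te i j a x))) =
      unt_te i k (b * a) x := by
    have hji := Ne.symm hij
    have hkj := Ne.symm hjk
    have hki := Ne.symm hik
    funext l
    by_cases hl : l = i
    · subst hl
      simp only [unt_te, if_true, if_neg hij, if_neg hji, if_neg hkj, if_neg hki]
      noncomm_ring
    · by_cases hl' : l = j
      · subst hl'
        simp only [unt_te, if_true, if_neg hji, if_neg hkj, if_neg hki]
        noncomm_ring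
      · simp only [unt_te, if_neg hl, if_neg hl']
  rw [e]

theorem um_dgm (hv : IsCDV K v) {i j : Fin 3} (h : i ≠ j) (a : K) (c : Fin 3 → ℤ) :
    umI hv h a (dgm hv c) = dgm hv c ↔ ((c i - c j : ℤ) : WithTop ℤ) ≤ v a := by
  have h' : j ≠ i := Ne.symm h
  constructor
  · intro he
    obtain ⟨p, hp⟩ := hv.exists_val (c j)
    have h1 : (fun k => if k = j then p else 0 : Fin 3 → K) ∈ (dgm hv c).1 := by
      rw [mem_dgm]
      intro k
      by_cases hk : k = j
      · subst hk
        rw [if_pos rfl, hp]
      · rw [if_neg hk, hv.zero]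
        exact le_top
    rw [← he, unt_mem, mem_dgm] at h1
    have h2 := h1 i
    have e : unt_te i j a (fun k => if k = j then p else 0 : Fin 3 → K) i = -(p * a) := by
      simp [unt_te, h]
    rw [e, hv.neg] at h2
    exact (hv.le_mul_left hp).1 h2
  · intro ha
    have key : ∀ x : Fin 3 → K, ((c j : ℤ) : WithTop ℤ) ≤ v (x j) →
        ((c i : ℤ) : WithTop ℤ) ≤ v (x j * a) := by
      intro x hx
      rw [hv.mul]
      have e : ((c i : ℤ) : WithTop ℤ) = ((c j : ℤ) : WithTop ℤ) + ((c i - c j : ℤ) : WithTop ℤ) := by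
        rw [← WithTop.coe_add]
        congr 1
        ring
      rw [e]
      exact add_le_add hx ha
    apply Subtype.ext
    ext x
    rw [unt_mem, mem_dgm, mem_dgm]
    constructor
    · intro hx k
      by_cases hk : k = i
      · subst hk
        have h1 := hx k
        have h2 := hx j
        rw [unt_te, if_pos rfl] at h1
        rw [unt_te, if_neg h'] at h2
        have h3 : x k = (x k - x j * a) + x j * a := by abel
        rw [h3]
        exact (le_min h1 (key x h2)).trans (hv.add _ _)
      · have h1 := hx k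
        rw [unt_te, if_neg hk] at h1
        exact h1
    · intro hx k
      by_cases hk : k = i
      · subst hk
        rw [unt_te, if_pos rfl]
        exact hv.sub (hx k) (key x (hx j))
      · rw [unt_te, if_neg hk]
        exact hx k

theorem um_inj (hv : IsCDV K v) {i j : Fin 3} (h : i ≠ j) {a : K} (h1 : umI hv h a = 1) :
    a = 0 := by
  by_contra ha
  obtain ⟨m, hm⟩ := hv.ex ha
  have h' : j ≠ i := Ne.symm h
  have h2 := (um_dgm hv h a (fun k => if k = i then m + 1 else 0)).1 (by rw [h1]; rfl)
  rw [if_pos rfl, if_neg h', hm, WithTop.coe_le_coe] at h2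
  omega

theorem um_fix (hv : IsCDV K v) {i j : Fin 3} (h : i ≠ j) (a : K) :
    ∃ N : LL hv, umI hv h a N = N := by
  have h' : j ≠ i := Ne.symm h
  by_cases ha : a = 0
  · refine ⟨oo hv, ?_⟩
    rw [ha, unt_zero]
    rfl
  · obtain ⟨m, hm⟩ := hv.ex ha
    refine ⟨dgm hv (fun k => if k = i then m else 0), ?_⟩
    rw [um_dgm, if_pos rfl, if_neg h', hm, sub_zero]

/-- a one-sided criterion for fixed lattices -/
private theorem unt_fix (hv : IsCDV K v) {i j : Fin 3} (h : i ≠ j) {y : LL hv} (a : K)
    (h1 : ∀ w ∈ y.1, unt_te i j a w ∈ y.1) (h2 : ∀ w ∈ y.1, unt_te i j (-a) w ∈ y.1) :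
    umI hv h a y = y := by
  have e : ∀ w : Fin 3 → K, unt_te i j (-a) (unt_te i j a w) = w := by
    intro w
    have h' : j ≠ i := Ne.symm h
    funext k
    unfold unt_te
    by_cases hk : k = i
    · subst hk
      simp only [if_true, if_neg h']
      noncomm_ring
    · simp [hk]
  apply Subtype.ext
  ext w
  rw [unt_mem]
  constructor
  · intro hw
    have h3 := h2 _ hw
    rwa [e] at h3
  · exact h1 w

private theorem unt_neg_fix (hv : IsCDV K v) {i j : Fin 3} (h : i ≠ j) {a : K} {N : LL hv}
    (hN : umI hv h a N = N) : umI hv h (-a) N = N := by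
  rw [← unt_neg]
  have h1 : (umI hv h a)⁻¹ (umI hv h a N) = N := (umI hv h a).symm_apply_apply N
  rwa [hN] at h1

private theorem unt_hln (hv : IsCDV K v) (j : Fin 3) (k : ℕ) (M A : LL hv)
    (hM : M.1 ≤ A.1 ⊔ khy hv j) :
    ((Hln hv j).1^[k] M).1 ≤ ((sgI hv).symm^[k] A).1 ⊔ khy hv j := by
  induction k generalizing M A with
  | zero => exact hM
  | succ k ih =>
    rw [Function.iterate_succ_apply, Function.iterate_succ_apply]
    apply ih
    rw [hln_val]
    apply sup_le
    · exact inf_le_right.trans le_sup_right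
    · show dn hv M.1 ≤ dn hv A.1 ⊔ khy hv j
      obtain ⟨p, hp⟩ := hv.surj
      have hp0 : p ≠ 0 := hv.ne_zero (m := 1) hp
      intro x hx
      rw [mem_dn_iff hv hp] at hx
      obtain ⟨y, hy, z, hz, hyz⟩ := Submodule.mem_sup.1 (hM hx)
      refine Submodule.mem_sup.2 ⟨fun l => p * y l, ?_, fun l => p * z l, ?_, ?_⟩
      · rw [mem_dn_iff hv hp]
        have e : (fun l => p⁻¹ * (p * y l)) = y := by
          funext l
          rw [inv_mul_cancel_left₀ hp0]
        rw [e]
        exact hy
      · rw [mem_khy] at hz ⊢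
        rw [hz, mul_zero]
      · funext l
        have h1 : y l + z l = p⁻¹ * x l := congrFun hyz l
        show p * y l + p * z l = x l
        rw [← mul_add, h1, mul_inv_cancel_left₀ hp0]

private theorem unt_ept (hv : IsCDV K v) (i : Fin 3) (k : ℕ) (M A : LL hv)
    (hM : kax hv i ⊓ A.1 ≤ M.1) :
    kax hv i ⊓ ((sgI hv)^[k] A).1 ≤ ((Ept hv i).1^[k] M).1 := by
  induction k generalizing M A with
  | zero => exact hM
  | succ k ih =>
    rw [Function.iterate_succ_apply, Function.iterate_succ_apply]
    apply ih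
    rw [ept_val]
    refine le_trans ?_ le_sup_right
    show kax hv i ⊓ sg hv A.1 ≤ kax hv i ⊓ sg hv M.1
    intro x hx
    refine ⟨hx.1, ?_⟩
    have h1 : x ∈ sg hv A.1 := hx.2
    have h2 : x ∈ kax hv i := hx.1
    show x ∈ sg hv M.1
    rw [mem_sg] at h1 ⊢
    intro b hb
    apply hM
    refine ⟨?_, h1 b hb⟩
    show (fun l => b * x l) ∈ kax hv i
    rw [mem_kax] at h2 ⊢
    intro l hl
    rw [h2 l hl, mul_zero]

private theorem unt_li (hv : IsCDV K v) (k : ℕ) (N : LL hv) :
    (sgI hv).symm^[k] ((sgI hv)^[k] N) = N :=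
  Function.LeftInverse.iterate (fun x => (sgI hv).symm_apply_apply x) k N

private theorem unt_ri (hv : IsCDV K v) (k : ℕ) (N : LL hv) :
    (sgI hv)^[k] ((sgI hv).symm^[k] N) = N :=
  Function.LeftInverse.iterate (fun x => (sgI hv).apply_symm_apply x) k N

theorem um_ax (hv : IsCDV K v) {i j : Fin 3} (h : i ≠ j) (a : K) {N : LL hv}
    (hN : umI hv h a N = N) : Ax (Hln hv j) N (umI hv h a) := by
  have key : ∀ b : K, umI hv h b N = N → ∀ y : LL hv, N ≤ y → y.1 ≤ N.1 ⊔ khy hv j →
      ∀ w ∈ y.1, unt_te i j b w ∈ y.1 := by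
    intro b hb y hy hy' w hw
    obtain ⟨n, hn, z, hz, hnz⟩ := Submodule.mem_sup.1 (hy' hw)
    have h1 : z ∈ y.1 := by
      have h2 : z = w - n := by rw [← hnz, add_sub_cancel_left]
      rw [h2]
      exact y.1.sub_mem hw (hy hn)
    have h3 : unt_te i j b n ∈ N.1 := by
      rw [← unt_mem hv h, hb]
      exact hn
    have h4 : unt_te i j b w = unt_te i j b n + z := by
      rw [mem_khy] at hz
      rw [← hnz]
      funext k
      show (if k = i then (n i + z i) - (n j + z j) * b else n k + z k) =
        (if k = i then n i - n j * b else n k) + z k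
      rw [hz, add_zero]
      by_cases hk : k = i
      · subst hk
        rw [if_pos rfl, if_pos rfl]
        abel
      · rw [if_neg hk, if_neg hk]
    rw [h4]
    exact y.1.add_mem (hy h3) h1
  intro k y hy hy'
  have h5 : y.1 ≤ N.1 ⊔ khy hv j := by
    have h6 := unt_hln hv j k ((sgI hv)^[k] N) ((sgI hv)^[k] N) le_sup_left
    rw [unt_li] at h6
    exact le_trans hy' h6
  exact unt_fix hv h a (key a hN y hy h5) (key (-a) (unt_neg_fix hv h hN) y hy h5)

theorem um_cx (hv : IsCDV K v) {i j : Fin 3} (h : i ≠ j) (a : K) {N : LL hv}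
    (hN : umI hv h a N = N) : Cx (Ept hv i) N (umI hv h a) := by
  have key : ∀ b : K, umI hv h b N = N → ∀ y : LL hv, y ≤ N → kax hv i ⊓ N.1 ≤ y.1 →
      ∀ w ∈ y.1, unt_te i j b w ∈ y.1 := by
    intro b hb y hy hy' w hw
    have h1 : unt_te i j b w ∈ N.1 := by
      rw [← unt_mem hv h, hb]
      exact hy hw
    have h2 : unt_te i j b w - w ∈ kax hv i := by
      rw [mem_kax]
      intro k hk
      show (if k = i then w i - w j * b else w k) - w k = 0
      rw [if_neg hk, sub_self]
    have h3 : unt_te i j b w - w ∈ y.1 := hy' ⟨h2, N.1.sub_mem h1 (hy hw)⟩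
    have h4 := y.1.add_mem h3 hw
    rwa [sub_add_cancel] at h4
  intro k y hy hy'
  have h5 : kax hv i ⊓ N.1 ≤ y.1 := by
    have h6 := unt_ept hv i k ((sgI hv).symm^[k] N) ((sgI hv).symm^[k] N) inf_le_right
    rw [unt_ri] at h6
    exact le_trans h6 hy'
  exact unt_fix hv h a (key a hN y hy h5) (key (-a) (unt_neg_fix hv h hN) y hy h5)

end Pool.Agent.PLB
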