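import Pool.Agent.PLB.UnT
import Pool.Agent.PLB.FixA
import Pool.Agent.PLB.CycB

set_option autoImplicit false

/-! Theorem PB, the model: the transvections are elements of the root groups; their values.

PLAN. `um_gp`: `um_fix`, `fix_mem_Gp`. `ug_mem`: `um_fix`, `um_ax`, `ax_pts` (points on the axis), `um_cx`, `cx_lns` (lines through the
centre). `ug_add`, `ug_comm`, `ug_inj` from UnT.lean (`Subtype.ext`). `ug_fx`: `fx_iff` at a suitable `z`: for `n = -m ≤ 0`,
`z = (Ept i)^[m] oo = dgm` (`ept_dgm`, `dgm_zero`): `mu (Ept i) z = m` (`mu_f`), `nu (Hln j) z = 0` (`inc_nu_it` with `inc_model`);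
for `n ≥ 0`, `z = (Ept j)^[n] oo`: `nu (Hln j) z = n` (`far_nu`, `stF_far`), `mu (Ept i) z = 0` (see the proof of `lev_all` in
FixA.lean, or `mu_lev_it`: `(Ept i) oo` is not below `z` by `ept_dgm`); `um_dgm` decides whether `z` is fixed. -/

namespace Pool.Agent.PLB

open Pool.Agent.Helper87.ML Pool.Agent.Helper87.ML2 Pool.Agent.RIG
open scoped commutatorElement

universe u

variable {K : Type u} [DivisionRing K] {v : K → WithTop ℤ} {hv : IsCDV K v}
  [PB (LL hv) (sgI hv)]

theorem um_gp {i j : Fin 3} (h : i ≠ j) (a : K) : umI hv h a ∈ Gp (LL hv) := by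
  obtain ⟨N, hN⟩ := um_fix hv h a
  exact fix_mem_Gp (sgI hv) hN

variable (hv) in
/-- the transvection as an element of `Gp (LL hv)` -/
def ug {i j : Fin 3} (h : i ≠ j) (a : K) : Gp (LL hv) := ⟨umI hv h a, um_gp h a⟩

theorem ug_add {i j : Fin 3} (h : i ≠ j) (a b : K) :
    ug hv h (a + b) = ug hv h a * ug hv h b := by
  exact Subtype.ext (um_add hv h a b)

theorem ug_comm {i j k : Fin 3} (hij : i ≠ j) (hjk : j ≠ k) (hik : i ≠ k) (a b : K) :
    ⁅ug hv hij a, ug hv hjk b⁆ = ug hv hik (b * a) := by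
  exact Subtype.ext (um_comm hv hij hjk hik a b)

theorem ug_inj {i j : Fin 3} (h : i ≠ j) {a : K} (h1 : ug hv h a = 1) : a = 0 := by
  exact um_inj hv h (congrArg Subtype.val h1)

theorem ug_mem {i j : Fin 3} (h : i ≠ j) (a : K) :
    ug hv h a ∈ U (Gp (LL hv)) (stF hv) i j := by
  obtain ⟨N, hN⟩ := um_fix hv h a
  refine ⟨fun p hp => ?_, fun m hm => ?_⟩
  · exact ax_pts (um_ax hv h a hN) hp
  · exact cx_lns (um_cx hv h a hN) hm

theorem ug_fx {i j : Fin 3} (h : i ≠ j) (a : K) (n : ℤ) :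
    Fx (oo hv) ((stF hv).e i) ((stF hv).l j) n (ug hv h a) ↔ ((n : ℤ) : WithTop ℤ) ≤ v a := by
  have hinc : Inc (s := sgI hv) ((stF hv).e i) ((stF hv).l j) := ((stF hv).inc i j).2 h
  have hmo : mu (oo hv) ((stF hv).e i) (oo hv) = 0 := (mu_spec (oo hv) _).2
  have hno : nu (oo hv) ((stF hv).l j) (oo hv) = 0 := (nu_spec (oo hv) _).2
  have key : ∀ c : Fin 3 → ℤ, nu (oo hv) ((stF hv).l j) (dgm hv c) -
      mu (oo hv) ((stF hv).e i) (dgm hv c) = n → c i - c j = n →
      (Fx (oo hv) ((stF hv).e i) ((stF hv).l j) n (ug hv h a) ↔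
        ((n : ℤ) : WithTop ℤ) ≤ v a) := by
    intro c h1 h2
    have h3 := fx_iff (oo hv) hinc (ug_mem (hv := hv) h a) (dgm hv c)
    rw [h1] at h3
    rw [← h3, ← h2]
    exact um_dgm hv h a c
  obtain ⟨m, hm | hm⟩ := n.eq_nat_or_neg
  · have e1 : (Ept hv j).1^[m] (oo hv) = dgm hv (fun k => if k = j then 0 - (m : ℤ) else 0) := by
      rw [← dgm_zero, ept_dgm]
    refine key (fun k => if k = j then 0 - (m : ℤ) else 0) ?_ ?_
    · rw [← e1]
      have hle : oo hv ≤ (Ept hv j).1^[m] (oo hv) := it_le_it (Ept hv j) (Nat.zero_le m) (oo hv)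
      have hfar : Far (Ept hv j) (Hln hv j) (oo hv) := stF_far hv j
      have h4 : nu (oo hv) ((stF hv).l j) ((Ept hv j).1^[m] (oo hv)) =
          nu (oo hv) ((stF hv).l j) (oo hv) + m := far_nu (oo hv) hfar m
      have h5 : mu (oo hv) ((stF hv).e i) ((Ept hv j).1^[m] (oo hv)) = 0 := by
        apply le_antisymm
        · by_contra h6
          rw [not_le] at h6
          have h7 : ((stF hv).e i).1 (oo hv) ≤ (Ept hv j).1^[m] (oo hv) := by
            rw [mu_lev (oo hv) ((stF hv).e i) hle, hmo]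
            exact h6
          have h8 := atom_of_le (Ept hv j) m (((stF hv).e i).2.cov (oo hv)) h7
          apply hfar
          rw [← h8]
          exact hinc (oo hv)
        · have h6 := mu_mono (oo hv) ((stF hv).e i) hle
          rw [hmo] at h6
          exact h6
      rw [h4, h5, hno, hm]
      ring
    · rw [if_neg h, if_pos rfl, hm]
      ring
  · have e1 : (Ept hv i).1^[m] (oo hv) = dgm hv (fun k => if k = i then 0 - (m : ℤ) else 0) := by
      rw [← dgm_zero, ept_dgm]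
    refine key (fun k => if k = i then 0 - (m : ℤ) else 0) ?_ ?_
    · rw [← e1]
      have h4 : nu (oo hv) ((stF hv).l j) ((Ept hv i).1^[m] (oo hv)) =
          nu (oo hv) ((stF hv).l j) (oo hv) := inc_nu_it (oo hv) hinc m (oo hv)
      have h5 : mu (oo hv) ((stF hv).e i) ((Ept hv i).1^[m] (oo hv)) =
          mu (oo hv) ((stF hv).e i) (oo hv) + m := mu_f (oo hv) ((stF hv).e i) m (oo hv)
      rw [h4, h5, hno, hmo, hm]
      ring
    · rw [if_pos rfl, if_neg (Ne.symm h), hm]
      ring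

end Pool.Agent.PLB
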