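import Pool.Agent.PLB.VlA

set_option autoImplicit false

/-! Theorem PB, (4.4): values of opposite root elements; exact values of commutators.

`fx_opp`: choose `z` with `mu (e i) z = nu (l i) z = - m` and the other levels `0` (`exists_ap`). If `Fx (-m+1) y` then
`n = x y x` fixes `z` and `(e i) z`, but `n ((e i) z) = (e j) z` is different (`VlB_far`). The point `f = x • e_j` is on `l k` and
`f z ≠ (e j) z`, so `f` is far from `l i` at `z` (`VlB_line`); `ela` and `tr_sharp` show that `y` fixes `z`.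
`fx_comm'`: the opposite element `y` of `x` has exact value `-m` and `⁅y, ⁅x, b⁆⁆ = b⁻¹`. -/

namespace Pool.Agent.PLB

open Pool.Agent.Helper87.ML Pool.Agent.RIG OrderDual
open scoped commutatorElement

universe u

variable {X : Type u} [Lattice X] [IsModularLattice X] {s : X ≃o X} [PB X s]

/-- a good base -/
private theorem VlB_base {o : X} {F : Frame (Inc (s := s))} (hF : FarF o F) (i : Fin 3) (m : ℤ) :
    ∃ z, (∀ a, Far (F.e a) (F.l a) z) ∧ mu o (F.e i) z = -m ∧ nu o (F.l i) z = -m ∧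
      ∀ a, a ≠ i → mu o (F.e a) z = 0 ∧ nu o (F.l a) z = 0 := by
  obtain ⟨z, hz⟩ := exists_ap hF (fun a => if a = i then -m else 0)
  refine ⟨z, fun a => ?_, ?_, ?_, fun a ha => ?_⟩
  · refine (mu_nu_eq o (hF a) z).1 ?_
    rw [(hz a).1, (hz a).2, (mu_spec o (F.e a)).2, (nu_spec o (F.l a)).2]
  · rw [(hz i).1, if_pos rfl]
  · rw [(hz i).2, if_pos rfl]
  · rw [(hz a).1, (hz a).2, if_neg ha]
    exact ⟨rfl, rfl⟩

omit [IsModularLattice X] [PB X s] in
/-- a point on the line and a far point have different directions -/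
private theorem VlB_far {p q : Pt s} {l : Ln s} {z : X} (hp : Far p l z) (hq : Inc q l) : p.1 z ≠ q.1 z := by
  intro h
  have h1 := hq z
  rw [← h] at h1
  exact hp h1

/-- two different points of a line span it, at every base -/
private theorem VlB_line {p q : Pt s} {l : Ln s} {z : X} (hp : p.1 z ≤ l.1 (s z)) (hq : q.1 z ≤ l.1 (s z))
    (h : p.1 z ≠ q.1 z) : p.1 z ⊔ q.1 z = l.1 (s z) := by
  obtain ⟨r, hr⟩ := exists_rk s
  have h1 : z ≤ p.1 z ⊓ q.1 z := le_inf (p.2.cov z).le (q.2.cov z).le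
  have h2 : r (p.1 z) = r z + 1 := hr.cov _ _ (p.2.cov z)
  have h3 : r (q.1 z) = r z + 1 := hr.cov _ _ (q.2.cov z)
  have h4 : r (s z) = r (l.1 (s z)) + 1 := hr.cov _ _ (l.2.cov (s z))
  have h5 : r (s z) = r z + 3 := hr.sh z
  have h6 : r (p.1 z ⊔ q.1 z) + r (p.1 z ⊓ q.1 z) = r (p.1 z) + r (q.1 z) := hr.mod _ _
  have h7 : p.1 z ⊓ q.1 z < p.1 z := by
    refine lt_of_le_of_ne inf_le_left fun h8 => h ?_
    have h9 : p.1 z ≤ q.1 z := inf_eq_left.1 h8
    exact ((q.2.cov z).eq_or_eq (p.2.cov z).le h9).resolve_left (p.2.cov z).lt.ne'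
  have h8 : r (p.1 z ⊓ q.1 z) < r (p.1 z) := hr.lt _ _ h7
  refine rk_eq hr (sup_le hp hq) ?_
  linarith

theorem fx_opp {o : X} {F : Frame (Inc (s := s))} (hF : FarF o F) {i j k : Fin 3}
    (hij : i ≠ j) (hjk : j ≠ k) (hik : i ≠ k) {x y : Gp X} (hx : x ∈ U (Gp X) F i j)
    (hy : y ∈ U (Gp X) F j i) (h1 : y • (x • F.e j) = F.e i) (h2 : x • (y • F.e i) = F.e j)
    (h3 : (x * y * x) • F.e i = F.e j)
    {m : ℤ} (hm : Fx o (F.e i) (F.l j) m x) (hm' : ¬ Fx o (F.e i) (F.l j) (m + 1) x) :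
    Fx o (F.e j) (F.l i) (-m) y ∧ ¬ Fx o (F.e j) (F.l i) (-m + 1) y := by
  have hX : Nonempty X := ⟨o⟩
  have hM := mp s
  obtain ⟨z, hzf, hz1, hz2, hz3⟩ := VlB_base hF i m
  obtain ⟨hz4, hz5⟩ := hz3 j hij.symm
  have hIij : Inc (F.e i) (F.l j) := (F.inc i j).2 hij
  have hIji : Inc (F.e j) (F.l i) := (F.inc j i).2 hij.symm
  have hIik : Inc (F.e i) (F.l k) := (F.inc i k).2 hik
  have hIjk : Inc (F.e j) (F.l k) := (F.inc j k).2 hjk
  have hne : (F.e i).1 z ≠ (F.e j).1 z := VlB_far (hzf i) hIji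
  have hxz : (x : X ≃o X) z = z := hm z (by rw [hz1, hz5]; linarith)
  constructor
  · -- the lower bound
    have hmu : mu o (F.e i) ((F.e j).1 z) = -m := by
      rcases mu_cov o (F.e i) ((F.e j).2.cov z) with h | h
      · exact absurd h.1.symm hne
      · rw [h.2, hz1]
    have hnu : nu o (F.l j) ((F.e j).1 z) = 1 := by
      have h := far_nu o (hzf j) 1
      rw [Function.iterate_one, hz5] at h
      simpa using h
    have hxe : (x : X ≃o X) ((F.e j).1 z) ≠ (F.e j).1 z := by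
      intro h
      rw [fx_iff o hIij hx, hmu, hnu] at h
      apply hm'
      have h5 : (1 : ℤ) - -m = m + 1 := by ring
      rwa [h5] at h
    have hfz : (x • F.e j).1 z ≠ (F.e j).1 z := by
      have h := smul_apply (x : X ≃o X) (F.e j) z
      rw [hxz] at h
      intro h5
      exact hxe (h.symm.trans h5)
    have hfk : Inc (x • F.e j) (F.l k) := by
      have h := (hM.inc x (F.e j) (F.l k)).2 hIjk
      rwa [hx.2 (F.l k) hIik] at h
    have hfar : Far (x • F.e j) (F.l i) z := by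
      intro h
      have h5 := VlB_line h (hIji z) hfz
      have h6 := VlB_line (hfk z) (hIjk z) hfz
      have h7 := hIik z
      rw [← h6, h5] at h7
      exact hzf i h7
    obtain ⟨g, hgz, hg, hgf⟩ := ela hfar (hzf i)
    have hyg : y = g := (tr_sharp hM (far_not_inc hfar) (far_not_inc (hzf i))).unique
      ⟨⟨F.e j, hIji, hy⟩, h1⟩ ⟨hg, hgf⟩
    have hyz : (y : X ≃o X) z = z := by rw [hyg, hgz]
    rw [fx_iff o hIji hy, hz2, hz4, sub_zero] at hyz
    exact hyz
  · -- the upper bound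
    intro hy'
    have hxz' : (x : X ≃o X) ((F.e i).1 z) = (F.e i).1 z := by
      refine hm _ ?_
      have h4 := mu_mono o (F.e i) ((F.e i).2.cov z).le
      have h5 := inc_nu_it o hIij 1 z
      rw [Function.iterate_one] at h5
      rw [h5, hz5]
      linarith
    have hyz : (y : X ≃o X) z = z := hy' z (by rw [hz4, hz2]; linarith)
    have hyz' : (y : X ≃o X) ((F.e i).1 z) = (F.e i).1 z := by
      refine hy' _ ?_
      have h4 := mu_mono o (F.e j) ((F.e i).2.cov z).le
      have h5 := far_nu o (hzf i) 1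
      rw [Function.iterate_one] at h5
      rw [h5, hz2]
      push_cast
      linarith
    have h4 := smul_apply ((x * y * x : Gp X) : X ≃o X) (F.e i) z
    have h5 : ∀ w, (x : X ≃o X) w = w → (y : X ≃o X) w = w → ((x * y * x : Gp X) : X ≃o X) w = w := by
      intro w hw hw'
      show (x : X ≃o X) ((y : X ≃o X) ((x : X ≃o X) w)) = w
      rw [hw, hw', hw]
    rw [h5 z hxz hyz, h5 _ hxz' hyz'] at h4
    have h6 : (((x * y * x : Gp X) : X ≃o X) • F.e i) = F.e j := h3
    rw [h6] at h4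
    exact hne h4.symm

theorem fx_comm' {o : X} {F : Frame (Inc (s := s))} (hF : FarF o F) {i j k : Fin 3}
    (hij : i ≠ j) (hjk : j ≠ k) (hik : i ≠ k) {x b : Gp X} (hx : x ∈ U (Gp X) F i j)
    (hb : b ∈ U (Gp X) F j k) {m n : ℤ} (hm : Fx o (F.e i) (F.l j) m x)
    (hm' : ¬ Fx o (F.e i) (F.l j) (m + 1) x) (hn : Fx o (F.e j) (F.l k) n b)
    (hn' : ¬ Fx o (F.e j) (F.l k) (n + 1) b) :
    ¬ Fx o (F.e i) (F.l k) (m + n + 1) ⁅x, b⁆ := by
  have hX : Nonempty X := ⟨o⟩
  have hM := mp s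
  have hx1 : x ≠ 1 := by
    rintro rfl
    exact hm' (fx_one o _ _ _)
  obtain ⟨y, hy, h1, h2, h3, -, h4, -, -⟩ := opp hM F hij hjk hik hx hx1
  have hy' := (fx_opp hF hij hjk hik hx hy h1 h2 h4 hm hm').1
  intro hc
  have h5 := fx_comm hF hij.symm hik hjk hy (comm_mem hM F hij hjk hik hx hb) hy' hc
  rw [h3 b hb] at h5
  have h6 := fx_inv h5
  rw [inv_inv] at h6
  apply hn'
  have h7 : -m + (m + n + 1) = n + 1 := by ring
  rwa [h7] at h6

end Pool.Agent.PLB
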